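import Pool.Agent.MP_c6cf52_lc.Fml

namespace Pool.Agent.MP_85ce7b_lc

open Pool.Agent.MP_c6cf52_lc

universe u

/-- `κ` is `T`-supercompact: there is a fine, normal, `κ`-complete ultrafilter on the subsets of
`T` of size less than `κ`. -/
def SCOn (κ : Cardinal.{u}) (T : Type u) : Prop :=
  ∃ U : Ultrafilter (Set T), {X : Set T | Cardinal.mk X < κ} ∈ U ∧ (∀ t, {X | t ∈ X} ∈ U) ∧
    (∀ S : Set (Set (Set T)), Cardinal.mk S < κ → (∀ Z ∈ S, Z ∈ U) → ⋂₀ S ∈ U) ∧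
    ∀ f : Set T → T, {X | f X ∈ X} ∈ U → ∃ t, {X | f X = t} ∈ U

variable {M : Type u} (E : M → M → Prop)

/-- Inclusion. -/
def Sub (a b : M) : Prop := ∀ x, E x a → E x b

/-- `x ≤ y` for ordinals. -/
def Leq (x y : M) : Prop := E x y ∨ x = y

/-- `f` is a bijection from `X` onto `Y`. -/
def Bij (f X Y : M) : Prop := IsInj E f X Y ∧ ∀ y, E y Y → ∃ x, App E f x y

/-- `X` has cardinality less than the cardinal `k`. -/
def Lt (X k : M) : Prop := ∃ m f, E m k ∧ IsInj E f X m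

/-- The ordinal `k` is infinite: there is a nonzero limit ordinal `l ≤ k`. -/
def Inf (k : M) : Prop :=
  ∃ l, Leq E l k ∧ (∃ x, E x l) ∧ ∀ x, E x l → ∃ y, E y l ∧ E x y

/-- `k` is an infinite regular cardinal. -/
def IsReg (k : M) : Prop :=
  IsCard E k ∧ Inf E k ∧
    ∀ S, Sub E S k → (∀ x, E x k → ∃ y, E y S ∧ Leq E x y) → ∃ f, IsInj E f k S

/-- `x` is a limit of members of the class `S`. -/
def Lim (S : M → Prop) (x : M) : Prop :=
  (∃ y, E y x) ∧ ∀ y, E y x → ∃ z, E z x ∧ E y z ∧ S z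

/-- The closed class of ordinals generated by `S`. -/
def Cl (S : M → Prop) (x : M) : Prop := S x ∨ (IsOrd E x ∧ Lim E S x)

/-- Successor points of the closed class generated by `S`. -/
def SuccPt (S : M → Prop) (x : M) : Prop :=
  Cl E S x ∧ ∃ y, E y x ∧ Cl E S y ∧ ∀ z, E y z → E z x → ¬ Cl E S z

/-- The class `Reg_{≥ δ}`. -/
def RegGe : Ordinal.{1} → M → Prop :=
  (wellFounded_lt (α := Ordinal.{1})).fix fun δ ih x =>
    IsReg E x ∧ ∀ β (h : β < δ), ¬ SuccPt E (ih β h) x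

/-- The class `Reg_δ`. -/
def RegAt (δ : Ordinal.{1}) : M → Prop := SuccPt E (RegGe E δ)

/-- The class `S` is enumerated in increasing order with length `δ`. -/
def Enum (S : M → Prop) (δ : Ordinal.{1}) : Prop :=
  ∃ e : Set.Iio δ → M, (∀ i j, E (e i) (e j) ↔ i < j) ∧ ∀ x, S x ↔ ∃ i, e i = x

/-- `k` is the `γ`-th element of `Reg_α`. -/
def Nth (α γ : Ordinal.{1}) (k : M) : Prop :=
  RegAt E α k ∧ Enum E (fun x => RegAt E α x ∧ E x k) γ

/-- `X` is a (reflexive) linear order of its field. -/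
def Lin (X : M) : Prop :=
  (∀ x y, App E X x y → App E X x x ∧ App E X y y) ∧
    (∀ x y, App E X x y → App E X y x → x = y) ∧
    (∀ x y z, App E X x y → App E X y z → App E X x z) ∧
    ∀ x y, App E X x x → App E X y y → App E X x y ∨ App E X y x

/-- `S` is a cofinal subset of the order `X`. -/
def Cofinal (S X : M) : Prop :=
  (∀ s, E s S → App E X s s) ∧ ∀ x, App E X x x → ∃ s, E s S ∧ App E X x s

/-- `X` is a linear order of cofinality `l`. -/
def Cof (X l : M) : Prop :=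
  Lin E X ∧ IsCard E l ∧ (∃ S f, Cofinal E S X ∧ Bij E f S l) ∧
    ∀ S, Cofinal E S X → ∃ f, IsInj E f l S

/-- `Z` is a (reflexive) well-order of type `δ`. -/
def Otp (Z : M) (δ : Ordinal.{1}) : Prop :=
  ∃ d f Y, IsOrd E d ∧ Enum E (fun x => E x d) δ ∧ IsInj E f d Y ∧
    ∀ x y, App E Z x y ↔ ∃ i j, Leq E i j ∧ App E f i x ∧ App E f j y

/-- `t` is the tuple (iterated Kuratowski pair) with entries `l`. -/
def Tup : List M → M → Prop
  | [], t => ∀ x, ¬ E x t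
  | a :: l, t => ∃ s, Tup l s ∧ IsPair E t a s

/-- Formulas with the quantifiers `I`, `Q`, `R` (de Bruijn variables, relation symbols from `M`). -/
inductive Fm (M : Type u) : Type u
  | rel (r : M) (l : List ℕ) : Fm M
  | eq (i j : ℕ) : Fm M
  | bot : Fm M
  | imp (φ ψ : Fm M) : Fm M
  | all (φ : Fm M) : Fm M
  | I (φ ψ : Fm M) : Fm M
  | Q (φ ψ χ : Fm M) : Fm M
  | R (φ χ : Fm M) : Fm M

/-- `φ.ok true`: no `R` occurs; `φ.ok false`: no `Q` occurs. -/
def Fm.ok (q : Bool) : Fm M → Prop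
  | .rel _ _ => True
  | .eq _ _ => True
  | .bot => True
  | .imp φ ψ => φ.ok q ∧ ψ.ok q
  | .all φ => φ.ok q
  | .I φ ψ => φ.ok q ∧ ψ.ok q
  | .Q φ ψ χ => q = true ∧ φ.ok q ∧ ψ.ok q ∧ χ.ok q
  | .R φ χ => q = false ∧ φ.ok q ∧ χ.ok q

/-- `X` is the subset of `A` defined by `Φ`. -/
def Ext1 (A : M) (Φ : M → Prop) (X : M) : Prop := ∀ x, E x X ↔ E x A ∧ Φ x

/-- `X` is the binary relation on `A` defined by `Φ`. -/
def Ext2 (A : M) (Φ : M → M → Prop) (X : M) : Prop :=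
  ∀ p, E p X ↔ ∃ x y, E x A ∧ E y A ∧ IsPair E p x y ∧ Φ x y

/-- Truth in the structure with universe `A` whose symbol `r` denotes the set of tuples `J r`. -/
def Tr (α : Ordinal.{1}) (A J : M) : Fm M → (ℕ → M) → Prop
  | .rel r l, v => ∃ S t, App E J r S ∧ Tup E (l.map v) t ∧ E t S
  | .eq i j, v => v i = v j
  | .bot, _ => False
  | .imp φ ψ, v => Tr α A J φ v → Tr α A J ψ v
  | .all φ, v => ∀ x, E x A → Tr α A J φ (cons x v)
  | .I φ ψ, v => ∃ X Y f, Ext1 E A (fun x => Tr α A J φ (cons x v)) X ∧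
      Ext1 E A (fun x => Tr α A J ψ (cons x v)) Y ∧ Bij E f X Y
  | .Q φ ψ χ, v => ∃ X Y Z l, ∃ δ < α, Ext2 E A (fun x y => Tr α A J φ (cons y (cons x v))) X ∧
      Ext2 E A (fun x y => Tr α A J ψ (cons y (cons x v))) Y ∧
      Ext2 E A (fun x y => Tr α A J χ (cons y (cons x v))) Z ∧
      Cof E X l ∧ Cof E Y l ∧ Otp E Z δ ∧ RegAt E δ l
  | .R φ χ, v => ∃ X Z l f, ∃ δ < α, Ext1 E A (fun x => Tr α A J φ (cons x v)) X ∧
      Ext2 E A (fun x y => Tr α A J χ (cons y (cons x v))) Z ∧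
      Bij E f X l ∧ Otp E Z δ ∧ RegAt E δ l

/-- `(A, J)` is a structure for the relational language `L`: every symbol has an arity `n` and
denotes a set of `n`-tuples from the nonempty set `A`. -/
def Str (L A J : M) : Prop :=
  (∃ x, E x A) ∧ (∃ Y, IsFun E J L Y) ∧ ∀ r S, App E J r S → ∃ n, ∀ t, E t S →
    ∃ l : List M, l.length = n ∧ (∀ x ∈ l, E x A) ∧ Tup E l t

/-- The Loewenheim-Skolem-Tarski property at `k` for `I, Q^α` (`q = true`) or `I, R^α`
(`q = false`). -/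
def Works (α : Ordinal.{1}) (q : Bool) (k : M) : Prop :=
  ∀ L A J, Str E L A J → Lt E L k → ∃ B, Sub E B A ∧ (∃ x, E x B) ∧ Lt E B k ∧
    ∀ φ : Fm M, φ.ok q → ∀ v : ℕ → M, (∀ i, E (v i) B) → (Tr E α B J φ v ↔ Tr E α A J φ v)

/-- `k` is the Loewenheim-Skolem-Tarski number. -/
def LST (α : Ordinal.{1}) (q : Bool) (k : M) : Prop :=
  IsCard E k ∧ Inf E k ∧ Works E α q k ∧
    ∀ m, E m k → IsCard E m → Inf E m → ¬ Works E α q m

end Pool.Agent.MP_85ce7b_lc
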