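import Pool.Agent.MP_85ce7b_lc.L.PRed

namespace Pool.Agent.MP_85ce7b_lc

open Pool.Agent.MP_c6cf52_lc Name Set Cardinal Ordinal Dat

theorem Gen.card_of_lim_dense' {P : Type 2} [Sz P] [Preorder P] [OrderTop P] [Tame P] {g : Gen P}
    {p : P} {a : Od} (hp : p ∈ g.G) (ha : g.In a)
    (h : ∀ b < a, ∀ q ≤ p, ∃ r ≤ q, ∃ τ, b < τ ∧ τ ≤ a ∧
      ∀ g' : Gen P, r ∈ g'.G → g'.In τ → IsCard g'.E (g'.o τ)) : IsCard g.E (g.o a) := by
  refine Gen.card_of_lim (Gen.isOrd_o ha) fun x hx => ?_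
  obtain ⟨b, hb, hb', rfl⟩ := (Gen.E_o ha).1 hx
  refine Gen.dens_o (Ψ := fun _ E w => ∃ z, IsCard E z ∧ E (w 0) z ∧ Leq E z (w 1))
    (UDef.ex ((UD.isCard _).and ((UDef.mem _ _).and (UD.leq _ _)))) (Gen.l2 hb'.2 ha.2)
    fun p₁ hp₁ => ?_
  obtain ⟨q, -, q₁, q₂⟩ := g.dir hp₁ hp
  obtain ⟨r, hr, t, t₁, t₂, H⟩ := h b hb q q₂
  refine ⟨r, hr.trans q₁, ∅, {t}, countable_empty, countable_singleton _,
    singleton_subset_iff.2 (t₂.trans_lt ha.1), fun g' hq' _ hS hl => ?_⟩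
  have kt : g'.In t := hS t rfl
  have kb : g'.In b := ⟨hb'.1, hl _ (by simp)⟩
  have ka : g'.In a := ⟨ha.1, hl _ (by simp)⟩
  exact ⟨g'.o t, H g' hq' kt, (Gen.o_lt_iff kb kt).2 t₁, (Gen.o_leq_iff kt ka).2 t₂⟩

namespace Ctx

variable {C : Ctx} {g : Gen C.Po} {ρ : C.Po} {a e x y μ : Od}

theorem fc_scope (ρ : C.Po) : C.Scope C.kap ρ.r := (inR_scope ρ.hr).1

theorem fc_lt (hx : x ∈ ρ.r.c) : x < C.kap :=
  rg_lt (fc_scope ρ) (inR_scope ρ.hr).2.1 hx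

theorem fc_succ_le (C : Ctx) (x : Od) : (Order.succ (C.B x)).ord ≤ (C.B (x + 1)).ord :=
  ord_le_ord.2 (C.bf.succ_le (lt_add_one x))

theorem fc_lt_succ (C : Ctx) (x : Od) : (C.B x).ord < (Order.succ (C.B x)).ord :=
  ord_lt_ord.2 (Order.lt_succ _)

theorem fc_succ_kap (hx : x + 1 ∈ ρ.r.c) : (Order.succ (C.B x)).ord < C.kap :=
  (C.fc_succ_le x).trans_lt (C.bf.lt_inac C.kin (fc_lt hx))

theorem fc_card_ge {k : Cardinal.{1}} (h : g.In a) (hc : IsCard g.E (g.o a)) (hk : k.ord < a) :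
    (Order.succ k).ord ≤ a := by
  rw [← Gen.ground_card h hc] at hk ⊢
  exact ord_le_ord.2 (Order.succ_le_of_lt (ord_lt_ord.1 hk))

theorem spec_dense {t b : Od} {r : Raw} (hr : C.Scope t r) (hμ : Spec r μ) (ht : μ ≤ t)
    (hb : b < μ) : ∃ r' x, C.LeT t r' r ∧ b < x ∧ x + 1 < μ ∧ Good r' x ∧ x + 1 ∈ r'.c := by
  obtain ⟨hi, -, hs⟩ := spec_inac hr.v hμ
  obtain ⟨L, hL⟩ := hμ
  have hZ := (C.good μ hs).w2 (fun b => ∃ y, y + 1 ∈ b.c ∧ y + 1 + 1 ∈ b.c)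
    (fun b hb => by
      obtain ⟨k₁, k₂, k₃⟩ := blk_scope hb hi
      have hn : μ ∉ b.c := fun h => lt_irrefl μ (k₃ h)
      obtain ⟨y, -, hyt, hc, hb'⟩ := exists_room k₁ hn k₂
      have h1 : y + 1 + 1 < μ := hi.isSuccLimit.add_one_lt (hi.isSuccLimit.add_one_lt hyt)
      have h2 : y ≤ y + 1 := (lt_add_one y).le
      have h3 : y + 1 ≤ y + 1 + 1 := (lt_add_one _).le
      refine ⟨_, add_itv k₁ hn (h2.trans h3) h1 hc hb' (fun z k1 k2 k3 => ?_) _ hb.nxt, y,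
        rb5x_cat_c.2 (Or.inr ⟨h2, h3⟩), rb5x_cat_c.2 (Or.inr ⟨h2.trans h3, le_rfl⟩)⟩
      rcases le_or_gt z (y + 1) with k | k
      · exact absurd k3 (rb5x_between k1 k)
      · exact absurd k3 (rb5x_between k k2))
    (fun b b' _ h ⟨y, h₁, h₂⟩ => ⟨y, h.1.d.c h₁, h.1.d.c h₂⟩)
  obtain ⟨ξ, hξ, ⟨y, h₁, h₂⟩, hlt, hb'⟩ := exists_ins hr.v hL hb hZ
  have hle : C.LeT t (ins r μ (C.dec ξ) (sec L.F ξ)) r := leT_of_ins hr ⟨L, ξ, hL, hξ, hb', rfl⟩ ht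
  obtain ⟨-, g2, -⟩ := r5a_pos hr.v ⟨L, hL⟩ hb'
  exact ⟨_, y + 1, hle, hlt.trans_le (g2 _ h₁).1, (g2 _ h₂).2,
    rf_good (le_valid hle.le) (rb2_ins_c.2 (Or.inr h₁)), rb2_ins_c.2 (Or.inr h₂)⟩

theorem reg_succ_pt (hρ : ρ ∈ g.G) (hx : Good0 ρ.r x ∨ Spec ρ.r x) (hx' : x + 1 ∈ ρ.r.c)
    (h : g.In (Order.succ (C.B x)).ord) : IsReg g.E (g.o (Order.succ (C.B x)).ord) := by
  refine Gen.reg_of_bnd hρ h (C.pred_lim x) fun ν hν => bnd_R (hν.trans (fc_succ_kap hx')).le ?_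
  rcases hx with hx | hx
  · exact bnd_succ (fc_scope ρ) hx hx' (fc_lt hx').le hν
  · exact bnd_spec (fc_scope ρ) hx hx' (fc_lt hx').le hν

theorem reg_succ_lim (hρ : ρ ∈ g.G) (hi : Intv ρ.r a (x + 1)) (ha : a < x)
    (hx : Order.IsSuccLimit x) (hn : ¬ Inac x) (h : g.In (Order.succ (C.B x)).ord) :
    IsReg g.E (g.o (Order.succ (C.B x)).ord) := by
  have hx' : x + 1 ∈ ρ.r.c := hi.1 ⟨(ha.trans (lt_add_one x)).le, le_rfl⟩
  refine Gen.reg_of_bnd hρ h (C.pred_lim x) fun ν hν => ?_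
  refine bnd_sing (C.bf.aleph0_le x) (C.bf.singular hx hn) (fun ν' hν' => ?_)
    (Order.lt_succ_iff.1 (Cardinal.lt_ord.1 hν))
  exact bnd_R ((hν'.trans (C.fc_lt_succ x)).trans (fc_succ_kap hx')).le
    (bnd_lim (fc_scope ρ) hi ha (fc_lt hx').le hx hν')

theorem reg_inac (hρ : ρ ∈ g.G) (hi : Intv ρ.r a (x + 1)) (ha : a < x) (hx : Inac x)
    (h : g.In x) : IsReg g.E (g.o x) := by
  have hx' : x + 1 ∈ ρ.r.c := hi.1 ⟨(ha.trans (lt_add_one x)).le, le_rfl⟩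
  exact Gen.reg_of_bnd hρ h hx.isSuccLimit fun ν hν =>
    bnd_R ((hν.trans (lt_add_one x)).trans (fc_lt hx')).le
      (bnd_inac (fc_scope ρ) hi ha (fc_lt hx').le hx hν)

theorem card_lim_int (hρ : ρ ∈ g.G) (hi : Intv ρ.r a x) (ha : a < x) (hx : Order.IsSuccLimit x)
    (h : g.In (C.B x).ord) : IsCard g.E (g.o (C.B x).ord) := by
  refine Gen.card_of_lim_dense hρ h fun b hb => ?_
  obtain ⟨y, hy, hby⟩ := C.bf.lt_limit hx hb
  have h1 : max y a + 1 < x := hx.add_one_lt (max_lt hy ha)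
  have h2 : max y a + 1 + 1 < x := hx.add_one_lt h1
  have h3 : a ≤ max y a + 1 := (le_max_right y a).trans (lt_add_one _).le
  have h4 : max y a + 1 ∈ ρ.r.c := hi.1 ⟨h3, h1.le⟩
  have h5 : max y a + 1 + 1 ∈ ρ.r.c := hi.1 ⟨h3.trans (lt_add_one _).le, h2.le⟩
  refine ⟨(Order.succ (C.B (max y a + 1))).ord, ?_, (C.fc_succ_le _).trans (rf_ord_mono h2.le),
    fun g' hg hi' => (reg_succ_pt hg (Or.inl (Or.inl (rf_good (fc_scope ρ).v h4))) h5 hi').1⟩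
  exact (hby.trans_le (rf_ord_mono ((le_max_left y a).trans (lt_add_one _).le))).trans
    (C.fc_lt_succ _)

theorem fc_spec_le {q : C.Po} (hq : q ≤ ρ) (hμ : Spec ρ.r μ) : Spec q.r μ :=
  (le_spec_iff hq.1.le (spec_mem (fc_scope ρ).v hμ)).2 hμ

theorem card_spec (hρ : ρ ∈ g.G) (hμ : Spec ρ.r μ) (h : g.In μ) : IsCard g.E (g.o μ) := by
  have hk : μ ≤ C.kap := (fc_lt (spec_mem (fc_scope ρ).v hμ)).le
  refine Gen.card_of_lim_dense' hρ h fun b hb q hq => ?_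
  obtain ⟨r', x, k₁, k₂, k₃, k₄, k₅⟩ := spec_dense (fc_scope q) (fc_spec_le hq hμ) hk hb
  refine ⟨setR q r' k₁, setR_le q r' k₁, (Order.succ (C.B x)).ord,
    (k₂.trans_le (C.bf.le_ord x)).trans (C.fc_lt_succ x),
    ((C.fc_succ_le x).trans_lt (C.bf.lt_inac (spec_inac (fc_scope ρ).v hμ).1 k₃)).le,
    fun g' hg hi' => (reg_succ_pt hg (Or.inl (Or.inl k₄)) k₅ hi').1⟩

theorem fc_rank_lt {S : Set Od} (hS : S.Finite) {v v' : Od} (hv : v ∈ S) (h : v < v') :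
    (S ∩ Iio v).ncard < (S ∩ Iio v').ncard :=
  ncard_lt_ncard ⟨fun _ hz => ⟨hz.1, lt_trans hz.2 h⟩,
    fun hs => lt_irrefl v (hs ⟨hv, h⟩).2⟩ (hS.inter_of_left _)

theorem cof_spec (hρ : ρ ∈ g.G) (hμ : Spec ρ.r μ) (h : g.In μ) :
    ∃ f, Fnl g.E f ∧ CofMap g.E f g.om (g.o μ) := by
  have hk : μ ≤ C.kap := (fc_lt (spec_mem (fc_scope ρ).v hμ)).le
  rw [← Gen.o_omega]
  refine Gen.cofMap_dense (fr_R (C := C) (Φ := fun r i z => ∃ L, r.l μ = some L ∧ z ∈ L.s ∧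
    i = ((L.s ∩ Iio z).ncard : Od)) ?_) hρ h g.in_omega ?_ ?_
  · rintro r r' i z - ⟨L, h₁, h₂, h₃⟩ hr
    obtain ⟨L', k₁, -⟩ := le_l1 hr.le h₁
    obtain ⟨k₂, -, k₃⟩ := s_rank hr.le h₁ k₁ h₂
    exact ⟨L', k₁, k₂, by rw [k₃]; exact h₃⟩
  · rintro q - i v v' ⟨L, h₁, h₂, h₃⟩ ⟨L', k₁, k₂, k₃⟩
    obtain rfl : L = L' := Option.some.inj (h₁.symm.trans k₁)
    have hf := ((fc_scope q).v.sp μ L h₁).fin
    have he : (L.s ∩ Iio v).ncard = (L.s ∩ Iio v').ncard := by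
      exact_mod_cast h₃.symm.trans k₃
    rcases lt_trichotomy v v' with hv | hv | hv
    · exact absurd he (fc_rank_lt hf h₂ hv).ne
    · exact hv
    · exact absurd he (fc_rank_lt hf k₂ hv).ne'
  · intro v hv q hq
    obtain ⟨r', k₁, L, k₂, z, k₃, k₄⟩ := s_dense (fc_scope q) (fc_spec_le hq hμ) hk hv
    exact ⟨setR q r' k₁, setR_le q r' k₁, _, Ordinal.natCast_lt_omega0 _, z,
      (s_rank (le_refl' (le_valid k₁.le)) k₂ k₂ k₃).2.1, k₄.le, L, k₂, k₃, rfl⟩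

theorem not_reg_spec (hρ : ρ ∈ g.G) (hμ : Spec ρ.r μ) (h : g.In μ) : ¬ IsReg g.E (g.o μ) := by
  obtain ⟨f, f₁, f₂⟩ := cof_spec hρ hμ h
  refine Gen.not_reg_of_cof ?_ f₁ f₂
  rw [← Gen.o_omega]
  exact (Gen.o_lt_iff g.in_omega h).2 (spec_inac (fc_scope ρ).v hμ).1.omega_lt

theorem reg_T (hx : C.kap ≤ x) (h : g.In (Order.succ (C.B x)).ord) :
    IsReg g.E (g.o (Order.succ (C.B x)).ord) := by
  have hx' : x < C.th.ord := ((C.bf.le_ord x).trans_lt (C.fc_lt_succ x)).trans h.1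
  exact Gen.reg_of_bnd g.top h (C.pred_lim x) fun ν hν => bnd_T hx hx' hν ⊤

theorem reg_cc {k : Cardinal.{1}} (hk : k.IsRegular) (h₁ : 2 ^ C.B C.s < k)
    (h₂ : k ≤ C.B (C.s + 1)) (h : g.In k.ord) : IsReg g.E (g.o k.ord) := by
  refine Gen.reg_of_bnd g.top h (Cardinal.isSuccLimit_ord hk.aleph0_le) fun ν hν => ?_
  exact bnd_R ((hν.trans_le (ord_le_ord.2 h₂)).trans (C.bf.lt_inac C.kin C.s_lt)).le
    (bnd_cc (fc_scope ⊤) (inR_scope (⊤ : C.Po).hr).2.2.1 C.s_lt.le hk h₁ h₂ hν)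

theorem collapse_T (hx : C.kap ≤ x) (h₁ : (Order.succ (C.B x)).ord < a)
    (h₂ : a ≤ (C.B (x + 1)).ord) (h : g.In a) : ¬ IsCard g.E (g.o a) := by
  have hx' : x < C.th.ord := (((C.bf.le_ord x).trans_lt (C.fc_lt_succ x)).trans h₁).trans h.1
  refine Gen.not_card_dense (fr_sg hx hx') g.top h h₁
    (fun _ _ _ _ _ k₁ k₂ => sg_fn k₁.2 k₂.2) fun v hv q _ => ?_
  obtain ⟨r, k₁, i, k₂, k₃⟩ := sg_dense hx hx' (hv.trans_le h₂) q
  exact ⟨r, k₁, i, k₂, hv.trans_le h₂, k₃⟩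

theorem fc_fr (C : Ctx) (x : Od) : FR (fun (ρ : C.Po) i v => (i, v) ∈ ρ.r.h x) :=
  fr_R (C := C) (Φ := fun r i v => (i, v) ∈ r.h x) fun _ _ _ _ _ h hr => le_h hr.le x h

theorem collapse_adj (hρ : ρ ∈ g.G) (hxy : Adj ρ.r x y) (hx : x ≠ C.s)
    (h₁ : (Order.succ (C.B x)).ord < a) (h₂ : a ≤ (C.B y).ord) (h : g.In a) :
    ¬ IsCard g.E (g.o a) := by
  refine Gen.not_card_dense (C.fc_fr x) hρ h h₁
    (fun q _ _ _ _ k₁ k₂ => ((fc_scope q).v.col x).fn _ _ _ k₁ k₂) fun v hv q hq => ?_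
  obtain ⟨r', k₁, i, k₂⟩ := col_dense (fc_scope q) (le_adj hq.1.le hxy) hx (fc_lt hxy.2.1).le
    (hv.trans_le h₂)
  have k₃ := ((le_valid k₁.le).col x).dom _ _ k₂
  rw [Dat.dm, if_neg hx] at k₃
  exact ⟨setR q r' k₁, setR_le q r' k₁, i, k₃, k₂⟩

theorem collapse_s (h₁ : (Order.succ (C.B C.s)).ord < a)
    (h₂ : a ≤ ((2 : Cardinal.{1}) ^ C.B C.s).ord) (h : g.In a) : ¬ IsCard g.E (g.o a) := by
  refine Gen.not_card_dense (C.fc_fr C.s) g.top h h₁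
    (fun q _ _ _ _ k₁ k₂ => ((fc_scope q).v.col C.s).fn _ _ _ k₁ k₂) fun v hv q _ => ?_
  obtain ⟨r', k₁, i, k₂, k₃⟩ := col_s_dense (fc_scope q) (inR_scope q.hr).2.2.1 C.s_lt.le
    (hv.trans_le h₂)
  exact ⟨setR q r' k₁, setR_le q r' k₁, i, k₂, k₃⟩

theorem card_adj (hρ : ρ ∈ g.G) (hxy : Adj ρ.r x y) (hx : x ≠ C.s) (h₁ : (C.B x).ord < a)
    (h₂ : a ≤ (C.B y).ord) (h : g.In a) (hc : IsCard g.E (g.o a)) :
    a = (Order.succ (C.B x)).ord := by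
  rcases (fc_card_ge h hc h₁).eq_or_lt with he | hl
  · exact he.symm
  · exact absurd hc (collapse_adj hρ hxy hx hl h₂ h)

theorem fc_card_s (h₁ : C.s < a) (h₂ : a < (C.B (C.s + 1)).ord) (h : g.In a)
    (hc : IsCard g.E (g.o a)) : a ∈ ({(Order.succ (C.B C.s)).ord,
      (Order.succ ((2 : Cardinal.{1}) ^ C.B C.s)).ord,
      (Order.succ (Order.succ ((2 : Cardinal.{1}) ^ C.B C.s))).ord} : Set Od) := by
  rcases (fc_card_ge (k := C.B C.s) h hc (by rwa [C.s_fix])).eq_or_lt with he | hl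
  · exact Or.inl he.symm
  rcases le_or_gt a ((2 : Cardinal.{1}) ^ C.B C.s).ord with k | k
  · exact absurd hc (collapse_s hl k h)
  rcases (fc_card_ge h hc k).eq_or_lt with he | k₁
  · exact Or.inr (Or.inl he.symm)
  rcases (fc_card_ge h hc k₁).eq_or_lt with he | k₂
  · exact Or.inr (Or.inr he.symm)
  rw [C.bf.succ_s] at h₂
  exact absurd (fc_card_ge h hc k₂) (not_le.2 h₂)

/-- The weakly inaccessible cardinals of the model below `κ`. -/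
theorem key (h₁ : ω < a) (h₂ : a < C.kap) (ha : g.In a)
    (h : ¬ Inac a ∨ (C.s < a ∧ SI C.al a)) :
    ¬ (IsReg g.E (g.o a) ∧ Lim g.E (IsReg g.E) (g.o a)) := by
  refine Gen.dens_o (Ψ := fun _ E w => ¬ (IsReg E (w 0) ∧ Lim E (IsReg E) (w 0)))
    ((UD.isReg _).and (Gen.nbnd_lim _)).not (Gen.l1 ha.2) fun p _ => ?_
  obtain ⟨q, hq, H⟩ := key_dense (fc_scope p) (inR_scope p.hr).2.1 (inR_scope p.hr).2.2.1 h₁ h₂ h
  refine ⟨setR p q hq, setR_le p q hq, ∅, ∅, countable_empty, countable_empty, empty_subset _,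
    fun g' hq' _ _ hl => ?_⟩
  have ha' : g'.In a := ⟨ha.1, hl _ (by simp)⟩
  rintro ⟨k₁, k₂⟩
  rcases H with ⟨x, y, m₁, m₂, m₃, m₄⟩ | ⟨m₁, m₂⟩ | m₁ | m₁
  · exact Gen.lim_reg_many ha' k₂ m₃ {(Order.succ (C.B x)).ord} (finite_singleton _)
      (fun g'' hp z z₁ z₂ z₃ z₄ => card_adj hp m₁ m₂ z₁ (z₂.le.trans m₄) z₃ z₄) hq'
  · exact Gen.lim_reg_many ha' k₂ m₁ _ (toFinite _)
      (fun g'' _ z z₁ z₂ z₃ z₄ => fc_card_s z₁ (z₂.trans_le m₂) z₃ z₄) hq'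
  · exact not_reg_spec hq' m₁ ha' k₁
  · exact Gen.not_reg_ground ha' m₁ k₁

theorem card_above (h₁ : C.kap < a) (ha : g.In a) (h : IsCard g.E (g.o a)) :
    (∃ z, C.kap ≤ z ∧ a = (Order.succ (C.B z)).ord) ∨
      ∃ z, C.kap < z ∧ Order.IsSuccLimit z ∧ a = (C.B z).ord := by
  obtain ⟨z, k₁, k₂⟩ := C.bf.exists_index (C.kin.omega_lt.trans h₁).le
  have hz : C.kap ≤ z := not_lt.1 fun hz =>
    lt_asymm h₁ (k₂.trans (C.bf.lt_inac C.kin (C.kin.isSuccLimit.add_one_lt hz)))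
  rcases k₁.eq_or_lt with he | hl
  · have hz' : C.kap < z := by
      refine hz.lt_of_ne fun e => ?_
      rw [← e, C.bf.inac_eq C.kin] at he
      exact h₁.ne he
    rcases Ordinal.zero_or_succ_or_isSuccLimit z with rfl | ⟨w, rfl⟩ | hlim
    · exact absurd hz' (not_lt.2 zero_le)
    · have hw : C.kap ≤ w := Order.lt_succ_iff.1 hz'
      rw [Order.succ_eq_add_one] at he
      rcases ((C.fc_succ_le w).trans he.le).eq_or_lt with e | e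
      · exact Or.inl ⟨w, hw, e.symm⟩
      · exact absurd h (collapse_T hw e he.ge ha)
    · exact Or.inr ⟨z, hz', hlim, he.symm⟩
  · rcases (fc_card_ge ha h hl).eq_or_lt with e | e
    · exact Or.inl ⟨z, hz, e.symm⟩
    · exact absurd h (collapse_T hz e k₂.le ha)

end Ctx

end Pool.Agent.MP_85ce7b_lc
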