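import Pool.Agent.MP_85ce7b_lc.L.M2

namespace Pool.Agent.MP_85ce7b_lc

open Set Cardinal Ordinal Dat

namespace Ctx

variable {C : Ctx} {σ : C.Po} {X : Set Od} {XT : Set Tri} {μ top : Od} {e : Od → Od}

/-- The term that follows the terms of all those upper parts whose trace is in the condition. -/
def M3N (C : Ctx) (XT : Set Tri) (T : Tri → Raw → Prop) (p : Raw) (x i : Od) : Set (Raw × Od) :=
  {z | C.LeT C.kap z.1 p ∧ ∃ t ∈ XT, T t z.1 ∧ ∃ c, (x, i, c) ∈ t ∧ C.Has (C.nm x c) z.1 z.2}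

theorem M3_code (H : C.Hl σ X XT) (T : Tri → Raw → Prop) {p : Raw} (hp : C.InR p) {x : Od}
    (hx : C.kap ≤ x) (i : Od) : ∃ c < (C.B (x + 1)).ord, C.nm x c = C.M3N XT T p x i := by
  have h₀ : ℵ₀ ≤ lift.{2} C.kap.card := Cardinal.aleph0_le_lift.2
    (Ordinal.aleph0_le_card.2 (Ordinal.omega0_le_of_isSuccLimit C.kin.isSuccLimit))
  refine C.nm_surj x hx _ ?_ ?_
  · rintro r v ⟨h₁, t, -, -, c, -, r₀, h₂, -⟩
    exact ⟨pred_bdd (inR_le hp h₁), (C.nm_sub x c r₀ v h₂).2⟩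
  · have h₁ : C.M3N XT T p x i ⊆ {r | C.InR r} ×ˢ
        ⋃ t ∈ XT, {v | ∃ c, (x, i, c) ∈ t ∧ ∃ r₀, (r₀, v) ∈ C.nm x c} := by
      rintro ⟨r, v⟩ ⟨h₁, t, ht, -, c, hc, r₀, h₂, -⟩
      exact ⟨inR_le hp h₁, mem_biUnion ht ⟨c, hc, r₀, h₂⟩⟩
    refine (Cardinal.mk_le_mk_of_subset h₁).trans ?_
    rw [Cardinal.mk_setProd]
    refine Cardinal.mul_le_of_le h₀ C.card_inR ((Cardinal.mk_biUnion_le _ _).trans
      (Cardinal.mul_le_of_le h₀ H.card (ciSup_le' fun t => ?_)))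
    by_cases h : ∃ c, (x, i, c) ∈ t.1
    · obtain ⟨c, hc⟩ := h
      refine le_trans (Cardinal.mk_le_mk_of_subset (t := Prod.snd '' C.nm x c) ?_)
        (Cardinal.mk_image_le.trans (C.nm_card x c))
      rintro v ⟨c', hc', r₀, h₂⟩
      exact ⟨(r₀, v), (H.tv _ t.2).fn x i c' c hc' hc ▸ h₂, rfl⟩
    · refine le_trans (Cardinal.mk_le_mk_of_subset (t := ∅) ?_) (by simp)
      rintro v ⟨c', hc', -⟩
      exact h ⟨c', hc'⟩

theorem M3_tv (H : C.Hl σ X XT) (f : Od → Od → Od)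
    (hf : ∀ x i, C.kap ≤ x → f x i < (C.B (x + 1)).ord) :
    C.TV {z | z.2.2 = f z.1 z.2.1 ∧ ∃ t ∈ XT, ∃ c, (z.1, z.2.1, c) ∈ t} := by
  refine ⟨?_, fun x i c c' h h' => h.1.trans h'.1.symm, fun x => ?_, ?_⟩
  · rintro x i c ⟨h₁, t, ht, c', h₂⟩
    have h₃ := ((H.tv t ht).rng x i c' h₂).1
    exact ⟨h₃, (show c = f x i from h₁) ▸ hf x i h₃⟩
  · by_cases hx : C.kap ≤ x
    · choose j hj hj' using fun t : XT => (H.tv t.1 t.2).dom x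
      obtain ⟨b, hb, h⟩ := bound_set_of_lt_cof (S := range j) (by
        rintro _ ⟨t, rfl⟩
        exact hj t) (C.pred_lim x) (Cardinal.mk_range_le.trans_lt (H.card.trans_lt
          (Cardinal.lift_lt.2 (((C.bf.card_le _).trans (C.bf.mono hx)).trans_lt
            (rf_succ_cof (C.bf.aleph0_le x))))))
      refine ⟨b, hb, ?_⟩
      rintro i c ⟨-, t, ht, c', h₂⟩
      exact (hj' ⟨t, ht⟩ i c' h₂).trans (h ⟨_, rfl⟩)
    · refine ⟨0, (C.pred_lim x).pos, ?_⟩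
      rintro i c ⟨-, t, ht, c', h₂⟩
      exact absurd ((H.tv t ht).rng x i c' h₂).1 hx
  · obtain ⟨y, hy, h⟩ := H.supp
    refine ⟨y, hy, ?_⟩
    rintro x i c ⟨-, t, ht, c', h₂⟩
    exact h t ht _ h₂

/-- The master condition. -/
theorem exists_mc (N : Nice C X μ top e) (H : C.Hl σ X XT) (hb : Bdd μ σ.r) :
    ∃ π : C.Po, C.LeT C.kap π.r σ.r ∧ Spec π.r μ ∧ Intv π.r μ (top + 1) ∧
      (∀ x, trc e μ top top σ.t x ⊆ π.r.h x) ∧ C.LeT C.kap (res μ π.r) σ.r ∧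
      ∀ ρ ≤ π, ∀ ρ' : C.Po, ρ'.t ∈ XT → C.LeT C.kap ρ.r ρ'.r →
        (∀ x, trc e μ top top ρ'.t x ⊆ ρ.r.h x) → ρ ≤ ρ' := by
  obtain ⟨s₁, s₂, -⟩ := inR_scope σ.hr
  obtain ⟨p₁, k₁, k₂, k₃, k₄, k₅, k₆⟩ := add_spec s₁ s₂ N.sp hb
    (N.mu_lt.trans (lt_add_one top)).le (C.kin.isSuccLimit.add_one_lt N.top_lt) N.noin
  obtain ⟨p, l₁, l₂, l₃, l₄, l₅⟩ := set_int (g := trc e μ top top σ.t) (leT_scope s₁ k₁)
    ((Icc_subset_Icc_right (lt_add_one top).le).trans k₄)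
    ((lt_add_one _).trans (C.good μ N.sp).gt) N.top_lt.le
    (fun z h₁ h₂ => N.noin z h₁ (h₂.trans (lt_add_one top).le)) (trc_intC N H H.mem le_rfl)
    fun x hx _ => by rw [k₆ x hx]; exact empty_subset _
  have hσ : C.LeT C.kap p σ.r := leT_trans l₁ k₁
  have hp : C.InR p := inR_le σ.hr hσ
  choose! f hf hf' using fun x (hx : C.kap ≤ x) i =>
    M3_code H (fun t r => ∀ y, trc e μ top top t y ⊆ r.h y) hp hx i
  refine ⟨⟨p, _, hp, M3_tv H f fun x i hx => hf x hx i⟩, hσ, ?_, ⟨?_, ?_⟩, fun x z hz => ?_, ?_,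
    fun ρ hρ ρ' h₁ h₂ h₃ => ⟨h₂, fun x i c hz => ?_⟩⟩
  · exact k₂.imp fun L hL => (congrFun l₃ μ).trans hL
  · exact k₄.trans l₄.ge
  · exact fun x h₁ h₂ => (congrFun l₃ x).trans (k₅ x h₁ h₂)
  · exact (l₅ x hz.1 hz.2.1).ge hz
  · exact (l₂.trans k₃).symm ▸ pred_refl σ
  · obtain ⟨c', m₁, m₂⟩ := hρ.2 x i (f x i) ⟨rfl, _, h₁, c, hz⟩
    rw [hf' x (ρ'.ht.rng x i c hz).1 i] at m₂
    refine ⟨c', m₁, eqv_trans (fun r hr v => ?_) m₂⟩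
    have s := (inR_scope (inR_le ρ.hr hr)).1
    have hT : ∀ y, trc e μ top top ρ'.t y ⊆ r.h y := fun y => (h₃ y).trans (le_h hr.le y)
    refine ⟨fun h => ⟨r, leT_refl s, r, ⟨leT_trans hr hρ.1, _, h₁, hT, c, hz, h⟩, leT_refl s⟩, ?_⟩
    rintro ⟨r₀, ⟨-, t, ht, n₁, c₂, n₂, n₃⟩, n₄⟩
    obtain rfl := trc_cmp N H h₁ ht s.v hT (fun y => (n₁ y).trans (le_h n₄.le y)) hz n₂
    exact ⟨r, leT_refl s, has_mono n₃ n₄⟩

end Ctx

end Pool.Agent.MP_85ce7b_lc
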