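import Pool.Agent.MP_85ce7b_lc.L.M2

namespace Pool.Agent.MP_85ce7b_lc

open Set Cardinal Ordinal Dat

namespace Ctx

variable {C : Ctx} {σ π : C.Po} {X : Set Od} {XT XT' : Set Tri} {μ top y : Od} {e : Od → Od}

/-- Union of a short chain of interval collapses. -/
theorem M4_union {b ν : Od} (hν : ν ≤ μ) (f : Od → Od → Set (Od × Od))
    (hf : ∀ i < ν, C.IntC μ b (f i)) (hm : ∀ i j, i ≤ j → j < ν → ∀ x, f i x ⊆ f j x) :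
    C.IntC μ b (fun x => {z | ∃ i < ν, z ∈ f i x}) := by
  intro x
  refine ⟨?_, fun i v ⟨j, hj, h⟩ => (hf j hj x).2 i v h⟩
  by_cases hx : μ ≤ x
  · exact col_chain (fun i => f i x)
      ((Ordinal.card_le_card (hν.trans hx)).trans (C.bf.card_le x))
      (fun i hi => (hf i hi x).1) fun i j hij hj => hm i j hij hj x
  · have h0 : {z | ∃ i < ν, z ∈ f i x} = ∅ := by
      refine eq_empty_of_forall_notMem fun z ⟨j, hj, h⟩ => hx ?_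
      exact ((hf j hj x).2 z.1 z.2 h).1
    show C.Col x {z | ∃ i < ν, z ∈ f i x}
    rw [h0]
    exact rb5x_col_empty _ x

/-- A bounded extension is an extension below the bound. -/
theorem M4_cut {t : Od} {q p : Raw} (h : C.LeT t q p) (hμ : Inac μ) (hb : Bdd μ q) :
    C.LeT μ q p := by
  obtain ⟨h2, h3⟩ := below_of_bdd (C := C) hμ hb
  have hq := le_valid h.le
  have hp := h.le.1
  have n' : ∀ x, μ ≤ x → x ∉ q.c := fun x hx h' => (h2 h').not_ge hx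
  have n : ∀ x, μ ≤ x → x ∉ p.c := fun x hx h' => n' x hx (le_c h.le h')
  refine ⟨h.le, ⟨fun x hx => ⟨⟨fun h' => absurd h' (n' x hx),
    fun h' => absurd h' (n x hx)⟩, ?_⟩, fun x hx => ?_⟩, h3⟩
  · rw [hq.h0 x (n' x hx), hp.h0 x (n x hx)]
  · rw [hq.l0 x (n' x hx.le), hp.l0 x (n x hx.le)]

/-- One interval collapse that captures all the lower parts. -/
theorem M4_chain (N : Nice C X μ top e) (H : C.Hl σ X XT) {b : Od} (hb : b < top)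
    {D : C.Po → Prop} (hs : XT' ⊆ XT) (cap : C.Cap σ X μ (e b) XT' D)
    {w₀ : Od → Set (Od × Od)} (hw₀ : C.IntC μ b w₀) (h₀ : ∀ x, trc e μ top b σ.t x ⊆ w₀ x) :
    ∃ w, C.IntC μ b w ∧ (∀ x, w₀ x ⊆ w x) ∧ ∀ r, Bdd μ r → C.LeT C.kap r σ.r →
      ∃ ρ : C.Po, Bdd μ ρ.r ∧ C.LeT C.kap ρ.r r ∧ ρ.t ∈ XT' ∧
        (∀ x, trc e μ top b ρ.t x ⊆ w x) ∧ D ρ := by
  have hμ : Inac μ := sp_inac N.sp
  obtain ⟨f, hf, hm⟩ := exists_chain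
    (fun w' w : Od → Set (Od × Od) => C.IntC μ b w' ∧ ∀ x, w x ⊆ w' x) w₀ μ
    (fun ξ w => Bdd μ (C.dec ξ) → C.LeT C.kap (C.dec ξ) σ.r →
      ∃ ρ : C.Po, Bdd μ ρ.r ∧ C.LeT C.kap ρ.r (C.dec ξ) ∧ ρ.t ∈ XT' ∧
        (∀ x, trc e μ top b ρ.t x ⊆ w x) ∧ D ρ)
    (fun _ h => ⟨h.1, fun _ => subset_rfl⟩) ⟨hw₀, fun _ => subset_rfl⟩
    (fun _ _ _ h h' => ⟨h.1, fun x => (h'.2 x).trans (h.2 x)⟩)
    (fun ν hν _ f hf hm => ⟨fun x => {z | ∃ i < ν, z ∈ f i x}, fun i hi =>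
      ⟨M4_union hν.le f (fun i hi => (hf i hi).1) fun i j hij hj => (hm i j hij hj).2,
        fun _ _ hz => ⟨i, hi, hz⟩⟩⟩)
    (by
      intro i _ w hw
      by_cases k : Bdd μ (C.dec i) ∧ C.LeT C.kap (C.dec i) σ.r
      · obtain ⟨S, hS, hS'⟩ := trc_sur N hb hw.1 fun x => (h₀ x).trans (hw.2 x)
        obtain ⟨t, ht, ht'⟩ := cap.sur S hS
        obtain ⟨ρ, k₁, k₂, k₃, k₄, k₅⟩ := cap.den t ht _ k.1 k.2
        refine ⟨trc e μ top b ρ.t, ⟨trc_intC N H (hs k₃) hb.le, fun x z hz => ?_⟩,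
          fun _ _ => ⟨ρ, k₁, k₂, k₃, fun _ => subset_rfl, k₅⟩⟩
        obtain ⟨a₁, a₂, a₃, a₄, a₅⟩ := hS' t ht' x hz
        exact ⟨a₁, a₂, a₃, a₄, k₄ a₅⟩
      · exact ⟨w, ⟨hw.1, fun _ => subset_rfl⟩, fun k₁ k₂ => absurd ⟨k₁, k₂⟩ k⟩)
  have h0 : (0 : Od) < μ := hμ.isSuccLimit.bot_lt
  refine ⟨fun x => {z | ∃ i < μ, z ∈ f i x},
    M4_union le_rfl f (fun i hi => (hf i hi).1.1) fun i j hij hj => (hm i j hij hj).2,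
    fun x z hz => ⟨0, h0, (hf 0 h0).1.2 x hz⟩, fun r hr hr' => ?_⟩
  obtain ⟨ξ, hξ, rfl⟩ := C.hdec μ r hμ hr
  obtain ⟨ρ, k₁, k₂, k₃, k₄, k₅⟩ := (hf ξ hξ).2 hr hr'
  exact ⟨ρ, k₁, k₂, k₃, fun x z hz => ⟨ξ, hξ, k₄ x hz⟩, k₅⟩

/-- The master condition is generic. -/
theorem mc_gen (N : Nice C X μ top e) (H : C.Hl σ X XT) (h₁ : Spec π.r μ)
    (h₂ : Intv π.r μ (top + 1)) (h₃ : ∀ x, trc e μ top top σ.t x ⊆ π.r.h x)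
    (h₄ : C.LeT C.kap (res μ π.r) σ.r)
    (K : ∀ ρ ≤ π, ∀ ρ' : C.Po, ρ'.t ∈ XT → C.LeT C.kap ρ.r ρ'.r →
      (∀ x, trc e μ top top ρ'.t x ⊆ ρ.r.h x) → ρ ≤ ρ')
    {D : C.Po → Prop} (hD : ∀ p q, D p → q ≤ p → D q) (hy : y ∈ X) (hy' : C.kap ≤ y)
    (hs : XT' ⊆ XT) (cap : C.Cap σ X μ y XT' D) : ∀ ρ ≤ π, ∃ ρ' ≤ ρ, D ρ' := by
  intro ρ hρ
  obtain ⟨b, hb, rfl⟩ := (N.rng y).1 hy
  have hμk : μ < C.kap := N.mu_lt.trans N.top_lt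
  have hμb : μ ≤ b := by
    by_contra hn
    have hn := not_le.1 hn
    rw [N.id b hn] at hy'
    exact (hn.trans hμk).not_ge hy'
  have hμ : Inac μ := sp_inac N.sp
  have hρπ : C.LeT C.kap ρ.r π.r := hρ.1
  have sρ := (inR_scope ρ.hr).1
  have sπ := (inR_scope π.hr).1
  have hbt : b ≤ top + 1 := hb.le.trans (le_add_right le_rfl)
  have hc : Icc μ b ⊆ ρ.r.c := (Icc_subset_Icc_right hbt).trans
    (le_intv hρπ.le (hμb.trans hbt) h₂).1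
  obtain ⟨w, hw, hw₀, hcap⟩ := M4_chain N H hb hs cap (intC_of sρ.v hc) (by
    rintro x z ⟨a₁, a₂, a₃, a₄, a₅⟩
    rw [if_pos ⟨a₁, a₂⟩]
    exact le_h hρπ.le x (h₃ x ⟨a₁, a₂.trans hb, a₃, a₄, a₅⟩))
  obtain ⟨r₁, k₁, -, -, -, k₂⟩ := set_int sρ hc
    ((lt_add_one _).trans (spec_inac sπ.v h₁).2.1) (hb.trans N.top_lt).le
    (fun z hz hz' => N.noin z hz (hz'.trans hbt)) hw (fun x hx hx' => by
      have := hw₀ x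
      rwa [if_pos ⟨hx, hx'⟩] at this)
  have s₁ := leT_scope sρ k₁
  have l₁ : C.LeT C.kap r₁ π.r := leT_trans k₁ hρπ
  have hμπ : μ ∈ π.r.c := spec_mem sπ.v h₁
  have sp₁ : Spec r₁ μ := (le_spec_iff l₁.le hμπ).2 h₁
  obtain ⟨r₂, k₃, -, ρ₁, k₄, k₅, k₆, k₇⟩ := gen
    (D := fun s => μ ∉ s.c ∧ ∃ ρ₁ : C.Po, C.LeT C.kap s ρ₁.r ∧ ρ₁.t ∈ XT' ∧
      (∀ x, trc e μ top b ρ₁.t x ⊆ w x) ∧ D ρ₁) s₁.v sp₁
    (by
      rintro r r' hr ⟨hn, ρ₁, a₁, a₂⟩ h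
      exact ⟨rg_nmem h hn, ρ₁, leT_trans
        (leT_mono h hr (leT_scope (inR_scope ρ₁.hr).1 a₁) hμk.le) a₁, a₂⟩)
    (by
      intro r' hr'
      obtain ⟨a₁, a₂, -⟩ := res_scope s₁.v sp₁
      have a₃ := leT_scope a₁ hr'
      have a₄ : Bdd μ r' := bdd_of_below a₃.v hμ (rb5x_top a₃ (rg_nmem hr' a₂)).2 a₃.bel
      have a₅ : C.LeT C.kap r' σ.r := leT_trans (leT_mono (leT_trans hr' (res_le l₁.le h₁))
        (res_scope sπ.v h₁).1 (leT_scope (inR_scope σ.hr).1 h₄) hμk.le) h₄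
      obtain ⟨ρ₁, b₁, b₂, b₃⟩ := hcap r' a₄ a₅
      exact ⟨ρ₁.r, M4_cut b₂ hμ b₁, fun h => lt_irrefl μ ((below_of_bdd (C := C) hμ b₁).1 h),
        ρ₁, leT_refl (inR_scope ρ₁.hr).1, b₃⟩)
  have l₂ : C.LeT C.kap r₂ r₁ :=
    leT_mono k₃ (scope_of_mem s₁.v (spec_mem s₁.v sp₁)) s₁ hμk.le
  have l₃ : C.LeT C.kap r₂ ρ.r := leT_trans l₂ k₁
  have l₄ : C.LeT C.kap r₂ π.r := leT_trans l₂ l₁
  have i₂ := inR_scope (inR_le ρ.hr l₃)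
  refine ⟨setR ρ r₂ l₃, setR_le _ _ _, hD ρ₁ _ k₇ (K _ ((setR_le _ _ _).trans hρ) ρ₁ (hs k₅)
    (leT_trans (le_res i₂.1 i₂.2.1 ((le_spec_iff l₄.le hμπ).2 h₁)) k₄) ?_)⟩
  rintro x z ⟨a₁, a₂, a₃, a₄, a₅⟩
  show z ∈ r₂.h x
  rcases lt_or_ge x b with hx | hx
  · refine le_h l₂.le x ?_
    rw [k₂ x a₁ hx]
    exact k₆ x ⟨a₁, hx, a₃, a₄, a₅⟩
  · refine le_h l₄.le x (h₃ x ⟨a₁, a₂, a₃, a₄, cap.md _ k₅ _ a₅ ?_⟩)
    rcases hx.eq_or_lt with rfl | hx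
    · exact le_rfl
    · exact (N.mono b x hx a₂).le

end Ctx

end Pool.Agent.MP_85ce7b_lc
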