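import Pool.Agent.MP_85ce7b_lc.L.M1
import Pool.Agent.MP_85ce7b_lc.L.M3
import Pool.Agent.MP_85ce7b_lc.L.M4

namespace Pool.Agent.MP_85ce7b_lc

open Set Cardinal Ordinal Dat Filter

namespace Ctx

/-- Extensions of `σ` below the level `y`. -/
def Md (C : Ctx) (σ : C.Po) (y : Od) (t : Tri) : Prop :=
  C.TV t ∧ σ.t ⊆ t ∧ ∀ z ∈ t, y ≤ z.1 → z ∈ σ.t

theorem card_md {C : Ctx} {y : Od} (σ : C.Po) (hy : C.Lev y) :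
    Cardinal.mk {t | C.Md σ y t} ≤ lift.{2} (C.B y) := by
  refine le_trans (mk_le_of_injective (f := fun t : {t | C.Md σ y t} =>
    (⟨glue y ⟨σ.r, t.1, σ.hr, t.2.1⟩ ⊤, glue_top_mem _ _⟩ : C.Low y)) fun t t' e => ?_) (card_low hy)
  have k : ∀ t t' : {t | C.Md σ y t}, (glue y ⟨σ.r, t.1, σ.hr, t.2.1⟩ ⊤).t =
      (glue y ⟨σ.r, t'.1, σ.hr, t'.2.1⟩ ⊤).t → t.1 ⊆ t'.1 := fun t t' e z hz => by
    rcases lt_or_ge z.1 y with h | h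
    · exact (e.subset (Or.inl ⟨hz, h⟩)).elim (fun k => k.1) fun k => k.1.elim
    · exact t'.2.2.1 (t.2.2.2 z hz h)
  have e' := congrArg (fun w : C.Low y => w.1.t) e
  exact Subtype.ext (subset_antisymm (k _ _ e') (k _ _ e'.symm))

section

variable {C : Ctx} {Ex : Type 3} {emb : Od → Ex} {op : Ex → Ex → Ex}
  {G : Ex → C.Po → Ex → Od → Prop} {π₀ σ : C.Po} {lam : Od} {y : ℕ → Od} {en : Od → Ex}
  (T : C.Tw emb op G π₀ lam y σ en)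
include T

theorem Tw.succ_lt {x : Od} (hx : x < lam) : (Order.succ (C.B x)).ord < lam :=
  (ord_le_ord.2 (C.bf.succ_le (lt_add_one x))).trans_lt (T.beth x hx)

theorem Tw.md_lt {n : ℕ} {t : Tri} (h : C.Md σ (y n) t) {x i c : Od} (k : (x, i, c) ∈ t) :
    x < lam ∧ i < lam ∧ c < lam := by
  have hx : x < lam := (lt_or_ge x (y n)).elim (fun e => e.trans (T.lt n))
    fun e => T.supp _ (h.2.2 _ k e)
  obtain ⟨j, h₁, h₂⟩ := h.1.dom x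
  exact ⟨hx, (h₂ i c k).trans (h₁.trans (T.succ_lt hx)), (h.1.rng x i c k).2.trans (T.beth x hx)⟩

theorem Tw.exists_cd : ∃ cd : Od → Tri, ∀ n t, C.Md σ (y n) t → ∃ c < lam, cd c = t := by
  have k : ∀ n, C.B (y n) ≤ lam.card := fun n => by
    simpa using card_le_card ((ord_le_ord.2 (C.bf.mono (lt_add_one _).le)).trans
      (T.beth _ (T.lt n)).le)
  obtain ⟨cd, h⟩ := exists_enum_of_le (S := ⋃ n : ULift.{2} ℕ, {t | C.Md σ (y n.down) t})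
    (c := lam.card) ((mk_iUnion_le _).trans (mul_le_of_le
      (aleph0_le_lift.2 ((C.bf.aleph0_le _).trans (k 0)))
      (mk_le_aleph0.trans (aleph0_le_lift.2 ((C.bf.aleph0_le _).trans (k 0))))
      (ciSup_le' fun n => (card_md σ (T.lev _)).trans (Cardinal.lift_le.2 (k _)))))
  exact ⟨cd, fun n t e => (h t (mem_iUnion.2 ⟨⟨n⟩, e⟩)).imp fun _ k =>
    ⟨k.1.trans_le (ord_card_le lam), k.2⟩⟩

theorem Tw.den (mono : ∀ x m m' τ a, G x m τ a → m' ≤ m → G x m' τ a)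
    (dense : ∀ x π, ∃ m ≤ π, ∃ τ, ∃ a < C.th.ord, G x m τ a) {i : Od} (hi : i < lam) :
    ∃ n, ∀ t r, C.Md σ (y n) t → C.LeT C.kap r σ.r → ∃ ρ : C.Po, C.LeT C.kap ρ.r r ∧
      C.Md σ (y n) ρ.t ∧ t ⊆ ρ.t ∧ ∃ j < lam, ∃ a < lam, G (en i) ρ (en j) a := by
  obtain ⟨n, hn⟩ := T.red i hi
  refine ⟨n, fun t r ht hr => ?_⟩
  obtain ⟨ρ, h₁, h₂⟩ := dense (en i) ⟨r, t, inR_le σ.hr hr, ht.1⟩
  obtain ⟨j, hj, a, ha, h₃⟩ := hn ρ (h₁.trans (le_of_sub hr ht.2.1)) h₂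
  obtain ⟨σ', h₄, h₅⟩ := pred_fill h₁ C.kap
  have h₆ : t ⊆ (glue (y n) (glue C.kap ρ σ') σ).t := fun z hz => (lt_or_ge z.1 (y n)).imp
    (fun e => ⟨Or.inr ⟨h₄.2.1 hz, (ht.1.rng _ _ _ hz).1⟩, e⟩) fun e => ⟨ht.2.2 z hz e, e⟩
  refine ⟨glue (y n) (glue C.kap ρ σ') σ, h₁.1, ⟨Po.ht _, ht.2.1.trans h₆, fun z hz e =>
    hz.elim (fun k => absurd k.2 e.not_gt) fun k => k.1⟩, h₆, j, hj, a, ha,
    mono _ _ _ _ _ h₃ ⟨pred_refl ρ, ?_⟩⟩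
  rintro x i c (k | k)
  · obtain ⟨c', k₁, k₂⟩ := h₅.2 x i c k.1
    exact ⟨c', Or.inl ⟨k₁, k.2⟩, k₂⟩
  · exact ⟨c, Or.inr k, eqv_refl ρ.hr _⟩

theorem Tw.md_tc {U : Ultrafilter (Set Od)} (h : SCO C.kap lam U) {n : ℕ} {S : Set Od → Tri}
    (k : ∀ᶠ X in U, C.Tc σ X (y n) (S X)) :
    C.Md σ (y n) {z | (∀ᶠ X in U, z ∈ S X) ∨ (z ∈ σ.t ∧ y n ≤ z.1)} := by
  have k₁ : ∀ {x i c}, (∀ᶠ X in (U : Filter (Set Od)), (x, i, c) ∈ S X) →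
      C.kap ≤ x ∧ x < y n ∧ c < (C.B (x + 1)).ord := fun e =>
    let ⟨_, e₁, e₂⟩ := (k.and e).exists
    e₁.rng _ _ _ e₂
  refine ⟨⟨fun x i c e => e.elim (fun e => ⟨(k₁ e).1, (k₁ e).2.2⟩) fun e => σ.ht.rng x i c e.1, ?_,
    fun x => ?_, lam, T.th, fun x i c e => e.elim (fun e => (k₁ e).2.1.trans (T.lt n))
      fun e => T.supp _ e.1⟩, fun ⟨x, i, c⟩ hz => ?_, fun ⟨x, i, c⟩ hz e => hz.elim
        (fun k => absurd (k₁ k).2.1 e.not_gt) fun k => k.1⟩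
  · rintro x i c c' (e | e) (e' | e')
    · obtain ⟨X, e₁, e₂, e₃⟩ := (k.and (e.and e')).exists
      exact e₁.fn x i c c' e₂ e₃
    · exact absurd (k₁ e).2.1 e'.2.not_gt
    · exact absurd (k₁ e').2.1 e.2.not_gt
    · exact σ.ht.fn x i c c' e.1 e'.1
  · rcases lt_or_ge x (y n) with hx | hx
    · have k₂ : ∀ᶠ X in (U : Filter (Set Od)), ∃ j ∈ X, j < (Order.succ (C.B x)).ord ∧
          ∀ i c, (x, i, c) ∈ S X → i < j := by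
        filter_upwards [k, h.fine x (hx.trans (T.lt n))] with X e₁ e₂
        exact e₁.dom x e₂
      obtain ⟨f, hf⟩ := k₂.choice
      obtain ⟨j, -, hj⟩ := h.const (hf.mono fun _ e => e.1)
      obtain ⟨X, e₁, e₂⟩ := (hf.and hj).exists
      refine ⟨j, e₂ ▸ e₁.2.1, fun i c e => e.elim (fun e => ?_) fun e => absurd hx e.2.not_gt⟩
      obtain ⟨Y, n₁, n₂, n₃⟩ := (hf.and (hj.and e)).exists
      exact n₂ ▸ n₁.2.2 i c n₃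
    · exact (σ.ht.dom x).imp fun j e => ⟨e.1, fun i c e' => e'.elim
        (fun e' => absurd (k₁ e').2.1 hx.not_gt) fun e' => e.2 i c e'.1⟩
  · refine (lt_or_ge x (y n)).imp (fun e => ?_) fun e => ⟨hz, e⟩
    obtain ⟨e₁, e₂, e₃⟩ := T.md_lt (n := n) ⟨σ.ht, subset_rfl, fun _ e _ => e⟩ hz
    filter_upwards [k, h.fine x e₁, h.fine i e₂, h.fine c e₃] with X n₁ n₂ n₃ n₄
    exact n₁.sub x n₂ i n₃ c n₄ hz e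

end

/-- The master condition lemma. -/
theorem master (C : Ctx) {Ex : Type 3} (emb : Od → Ex) (op : Ex → Ex → Ex)
    (G : Ex → C.Po → Ex → Od → Prop)
    (mono : ∀ x m m' τ a, G x m τ a → m' ≤ m → G x m' τ a)
    (dense : ∀ x π, ∃ m ≤ π, ∃ τ, ∃ a < C.th.ord, G x m τ a)
    (π₀ : C.Po) {ξ : Od} (hξ : ξ < C.kap) :
    ∃ (XE : Set Ex) (X : Set Od) (μ top : Od) (e : Od → Od) (π : C.Po), π ≤ π₀ ∧
      Nice C X μ top e ∧ X ⊆ Iio C.th.ord ∧ ξ ≤ μ ∧ Spec π.r μ ∧ Intv π.r μ (top + 1) ∧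
      (∃ ν < C.kap, ∃ en : Od → Ex, XE = en '' Iio ν) ∧ (∀ a ∈ X, emb a ∈ XE) ∧
      (∀ x ∈ XE, ∀ x' ∈ XE, op x x' ∈ XE) ∧
      ∀ x ∈ XE, ∀ ρ ≤ π, ∃ ρ' ≤ ρ, ∃ τ ∈ XE, ∃ a ∈ X, G x ρ' τ a := by
  obtain ⟨lam, y, σ, en, T⟩ := C.exists_tower emb op G mono π₀
  obtain ⟨U, h⟩ := C.sco T.th
  obtain ⟨cd, hcd⟩ := T.exists_cd
  have hl : C.kap < lam := (pred_lev_le (T.lev 0)).trans_lt (T.lt 0)
  have hω := C.kin.omega_lt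
  have hb : ∀ {b}, Bdd C.kap b → ∀ᶠ X in (U : Filter (Set Od)), Bdd (mu X) b :=
    fun ⟨a, e₁, e₂⟩ => (h.lt_mu hl.le e₁).mono fun _ e => ⟨a, e, e₂⟩
  have a₀ := C.pre_nice h hl T.th T.beth ⟨y, T.lt, T.cof⟩
  have a₁ : ∀ {n t}, C.Md σ (y n) t → ∀ᶠ X : Set Od in U, ∃ c ∈ X, cd c = t := fun e =>
    let ⟨c, e₁, e₂⟩ := hcd _ _ e
    mem_of_superset (h.fine c e₁) fun _ k => ⟨c, k, e₂⟩
  have a₂ : ∀ᶠ X : Set Od in U, ∀ c ∈ X, ∀ x ∈ X, (∃ j, j < (Order.succ (C.B x)).ord ∧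
      ∀ i d, (x, i, d) ∈ cd c → i < j) → ∃ j ∈ X, j < (Order.succ (C.B x)).ord ∧
        ∀ i d, (x, i, d) ∈ cd c → i < j :=
    h.diag2 fun c _ x hx => h.ex_mem fun j e => e.1.trans (T.succ_lt hx)
  have a₃ : ∀ᶠ X : Set Od in U, ∀ a ∈ X, ∀ b ∈ X, (∃ n, C.Md σ (y n) (cd a)) →
      (∃ n, C.Md σ (y n) (cd b)) → (∃ x i c c', (x, i, c) ∈ cd a ∧ (x, i, c') ∈ cd b ∧ c ≠ c') →
        ∃ x ∈ X, ∃ i ∈ X, ∃ c ∈ X, ∃ c' ∈ X, (x, i, c) ∈ cd a ∧ (x, i, c') ∈ cd b ∧ c ≠ c' :=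
    h.diag2 fun a _ b _ => ev_imp fun k₁ => ev_imp fun k₂ => ev_imp fun k₃ => by
      obtain ⟨_, ⟨n, k₁⟩, ⟨m, k₂⟩, x, i, c, c', k₃⟩ := (k₁.and (k₂.and k₃)).exists
      obtain ⟨e₁, e₂, e₃⟩ := T.md_lt k₁ k₃.1
      filter_upwards [h.fine x e₁, h.fine i e₂, h.fine c e₃, h.fine c' (T.md_lt k₂ k₃.2.1).2.2]
        with X n₁ n₂ n₃ n₄
      exact ⟨x, n₁, i, n₂, c, n₃, c', n₄, k₃⟩
  have a₄ : ∀ᶠ X : Set Od in U, ∀ n S, C.Tc σ X (y n) S → ∃ t, (C.Md σ (y n) t ∧ ∃ c ∈ X, cd c = t) ∧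
      ∀ x ∈ X, ∀ i ∈ X, ∀ c ∈ X, x < y n → ((x, i, c) ∈ t ↔ (x, i, c) ∈ S) :=
    h.ctbl hω fun n => ev_all fun S => ev_imp fun k => by
      filter_upwards [a₁ (T.md_tc h k), h.diag3 fun a _ b _ d _ =>
        SCO.ev_iff fun X => (a, b, d) ∈ S X] with X e₁ e₂
      exact ⟨_, ⟨T.md_tc h k, e₁⟩, fun x hx i hi c hc e => (or_iff_left fun k =>
        absurd e k.2.not_gt).trans (e₂ x hx i hi c hc).symm⟩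
  have a₅ : ∀ᶠ X : Set Od in U, ∀ i ∈ X, ∃ n, ∀ c ∈ X, ∀ ζ < mu X, C.Md σ (y n) (cd c) →
      C.LeT C.kap (C.dec ζ) σ.r → ∃ ρ : C.Po, Bdd (mu X) ρ.r ∧ C.LeT C.kap ρ.r (C.dec ζ) ∧
        (C.Md σ (y n) ρ.t ∧ ∃ c ∈ X, cd c = ρ.t) ∧ cd c ⊆ ρ.t ∧
          ∃ τ ∈ en '' X, ∃ a ∈ X, G (en i) ρ τ a := h.diag fun i hi => by
    obtain ⟨n, hn⟩ := T.den mono dense hi
    refine (h.diag fun c _ => h.diag_mu fun ζ _ => ev_imp fun k₁ => ev_imp fun k₂ => ?_).mono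
      fun _ e => ⟨n, e⟩
    obtain ⟨ρ, e₁, e₂, e₃, j, hj, a, ha, e₄⟩ := hn _ _ k₁.exists.choose_spec k₂.exists.choose_spec
    filter_upwards [hb (pred_bdd ρ.hr), a₁ e₂, h.fine j hj, h.fine a ha] with X n₁ n₂ n₃ n₄
    exact ⟨ρ, n₁, e₁, ⟨e₂, n₂⟩, e₃, _, ⟨j, n₃, rfl⟩, a, n₄, e₄⟩
  have a₆ : ∀ᶠ X : Set Od in U, ∀ a ∈ X, emb a ∈ en '' X := h.diag fun a ha =>
    let ⟨i, e₁, e₂⟩ := T.emb a ha
    mem_of_superset (h.fine i e₁) fun _ k => ⟨i, k, e₂⟩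
  have a₇ : ∀ᶠ X : Set Od in U, ∀ i ∈ X, ∀ j ∈ X, op (en i) (en j) ∈ en '' X :=
    h.diag2 fun i hi j hj =>
      let ⟨k, e₁, e₂⟩ := T.op i hi j hj
      mem_of_superset (h.fine k e₁) fun _ e => ⟨k, e, e₂⟩
  have m₀ : C.Md σ (y 0) σ.t := ⟨σ.ht, subset_rfl, fun _ e _ => e⟩
  obtain ⟨X, ⟨top, e, -, b₀⟩, b₁, b₂, b₃, b₄, b₅, b₆, b₇, b₈, b₉, c₀, c₁, c₂, c₃⟩ :=
    (a₀.and ((a₁ m₀).and (a₂.and (a₃.and (a₄.and (a₅.and (a₆.and (a₇.and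
      ((C.sp_ae h (T.beth _ hl) (a₀.mono fun _ ⟨_, e, he, _⟩ => ⟨e, he⟩)).and
      ((h.ctbl hω (Φ := fun n X => y n ∈ X) fun n => h.fine _ (T.lt n)).and
      ((h.lt_mu hl.le hξ).and ((hb (pred_bdd σ.hr)).and
        (Eventually.and h.sub h.card))))))))))))).exists
  have N := b₀ b₈
  have H : C.Hl σ X {t | (∃ n, C.Md σ (y n) t) ∧ ∃ c ∈ X, cd c = t} :=
    ⟨((mk_le_mk_of_subset (t := cd '' X) fun _ k => k.2).trans mk_image_le).trans c₃.le,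
      ⟨⟨0, m₀⟩, b₁⟩, fun _ ⟨⟨_, k⟩, _⟩ => k.1,
      ⟨lam, T.th, fun _ ⟨⟨_, k⟩, _⟩ _ hz => (T.md_lt k hz).1⟩,
      fun _ ⟨⟨_, k⟩, c, k₁, k₂⟩ x hx => k₂ ▸ b₂ c k₁ x hx (k₂ ▸ k.1.dom x),
      by
        rintro _ ⟨k₁, a, ha, rfl⟩ _ ⟨k₂, b, hb, rfl⟩ k x i c c' e₁ e₂
        by_contra e₃
        obtain ⟨x, hx, i, hi, c, hc, c', hc', n₁, n₂, n₃⟩ :=
          b₃ a ha b hb k₁ k₂ ⟨x, i, c, c', e₁, e₂, e₃⟩
        exact n₃ (k x hx i hi c hc c' hc' n₁ n₂)⟩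
  obtain ⟨π, d₁, d₂, d₃, d₄, d₅, K⟩ := exists_mc N H c₁
  refine ⟨en '' X, X, mu X, top, e, π, (K π le_rfl σ H.mem d₁ d₄).trans
    (le_of_sub (T.r ▸ pred_refl σ) T.t), N, fun a ha => lt_trans (c₂ ha) T.th, c₀.le, d₂, d₃,
    ⟨top, N.top_lt, en ∘ e, ?_⟩, b₆, ?_, ?_⟩
  · rw [image_comp]
    exact congrArg _ (Set.ext N.rng)
  · rintro _ ⟨i, hi, rfl⟩ _ ⟨j, hj, rfl⟩
    exact b₇ i hi j hj
  · rintro _ ⟨i, hi, rfl⟩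
    obtain ⟨n, hn⟩ := b₅ i hi
    refine mc_gen (XT' := {t | C.Md σ (y n) t ∧ ∃ c ∈ X, cd c = t}) N H d₂ d₃ d₄ d₅ K
      (fun p q ⟨τ, k₁, a, k₂, k₃⟩ k => ⟨τ, k₁, a, k₂, mono _ _ _ _ _ k₃ k⟩) (b₉ n)
      (pred_lev_le (T.lev n)) (fun _ k => ⟨⟨n, k.1⟩, k.2⟩) ⟨fun _ k => k.1.2.2, b₄ n, ?_⟩
    rintro _ ⟨k₁, c, hc, rfl⟩ r k₂ k₃
    obtain ⟨ζ, hζ, rfl⟩ := C.hdec _ r (sp_inac N.sp) k₂
    exact hn c hc ζ hζ k₁ k₃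

end Ctx

end Pool.Agent.MP_85ce7b_lc
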