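import Pool.Agent.MP_85ce7b_lc.L.FHull
import Pool.Agent.MP_85ce7b_lc.L.Master

namespace Pool.Agent.MP_85ce7b_lc

open Pool.Agent.MP_c6cf52_lc Name Set Cardinal Ordinal Dat

theorem UD.fcore_hullAt (i j k l m : ℕ) :
    UDef.{3} (fun _ E w => HullAt E (w i) (w j) (w k) (w l) (w m)) := by
  unfold HullAt
  repeat' first
    | exact UDef.mem _ _ | exact UDef.eq _ _ | exact UDef.app _ _ _ | exact UD.isOrd _
    | exact UD.isCard _ | exact UD.isReg _ | exact Gen.nbnd_succ _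
    | apply UDef.and | apply UDef.or | apply UDef.iff | apply UDef.not | apply UDef.imp
    | apply UDef.all | apply UDef.ex

theorem UD.hull (i j k l m : ℕ) :
    UDef.{3} (fun _ E w => Hull E (w i) (w j) (w k) (w l) (w m)) := by
  unfold Hull
  repeat' first
    | exact UDef.mem _ _ | exact UDef.app _ _ _ | exact UD.isOrd _ | exact UD.lt _ _
    | exact UDef.isPair _ _ _ | exact Gen.nbnd_fnl _ | exact Gen.nbnd_cofMap _ _ _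
    | exact UD.fcore_hullAt _ _ _ _ _
    | apply UDef.and | apply UDef.iff | apply UDef.imp | apply UDef.all | apply UDef.ex

theorem UD.fcore_sat (φ : Fml) (i j n : ℕ) :
    UDef.{3} (fun _ E w => Sat E φ (cons (w i) (cons (w j) (fun k => w (k + n))))) := by
  refine (UDef.sat φ (cons i (cons j (fun k => k + n)))).congr fun M E w => ?_
  have : (fun k => w (cons i (cons j fun k => k + n) k)) =
      cons (w i) (cons (w j) fun k => w (k + n)) := by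
    funext k
    rcases k with _ | _ | k <;> rfl
  rw [this]

theorem Gen.tm_fml {P : Type 2} [Sz P] [Preorder P] [OrderTop P] [Tame P] {g : Gen P}
    {Θ : g.M → g.M → Prop} (h : g.Tm (fun z : g.M × g.M => Θ z.1 z.2)) :
    ∃ (φ : Fml) (l : List (Name P)), (∀ x ∈ l, x ∈ g.N) ∧
      ∀ a y, Θ a y ↔ Sat g.E φ (cons y (cons a (g.w l))) := by
  have h' : g.PD (fun w => Θ (w 1) (w 0)) := by
    refine (Gen.PD.ex (Θ := fun w q => q = Gen.pr (w 1) (w 0) ∧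
      ∃ z : g.M × g.M, Gen.Cd.ι z = q ∧ Θ z.1 z.2)
      ((Gen.PD.pr _ _ _).and (Gen.D1.at h.df _))).congr fun w => ⟨?_, fun k => ?_⟩
    · rintro ⟨_, rfl, ⟨a, b⟩, e, k⟩
      obtain ⟨e₁, e₂⟩ : a = w 1 ∧ b = w 0 := Gen.pr_inj.1 e
      exact e₁ ▸ e₂ ▸ k
    · exact ⟨_, rfl, (w 1, w 0), rfl, k⟩
  obtain ⟨φ, l, h'⟩ := Gen.PD.exists_fml h' 2
  obtain ⟨l', hl, e⟩ := Gen.exists_vl l
  exact ⟨φ, l', hl, fun a y => (h' (cons y (cons a (g.w l'))) fun k => congrFun e k).symm⟩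

namespace Ctx

variable {C : Ctx}

/-- The dense relation used for the master condition. -/
def fcoreG (φ : Fml) (l : List (Name C.Po)) (σ : Name C.Po) (m : C.Po) (τ : Name C.Po)
    (a : Od) : Prop :=
  (Forces φ (env emp (τ :: σ :: l)) m ∨
    ∀ r ≤ m, ∀ τ', ¬ Forces φ (env emp (τ' :: σ :: l)) r) ∧
  (FEq σ (oN a) m ∨ ∀ r ≤ m, ∀ a' < C.th.ord, ¬ FEq σ (oN a') r)

theorem fcoreG_mono (φ : Fml) (l : List (Name C.Po)) (σ : Name C.Po) (m m' : C.Po)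
    (τ : Name C.Po) (a : Od) (h : fcoreG φ l σ m τ a) (hm : m' ≤ m) : fcoreG φ l σ m' τ a :=
  ⟨h.1.imp (fun k => k.mono hm) fun k r hr => k r (hr.trans hm),
    h.2.imp (fun k => k.mono hm) fun k r hr => k r (hr.trans hm)⟩

theorem fcoreG_dense (φ : Fml) (l : List (Name C.Po)) (σ : Name C.Po) (π : C.Po) :
    ∃ m ≤ π, ∃ τ, ∃ a < C.th.ord, fcoreG φ l σ m τ a := by
  obtain ⟨m₁, h₁, τ, k₁⟩ : ∃ m₁ ≤ π, ∃ τ, Forces φ (env emp (τ :: σ :: l)) m₁ ∨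
      ∀ r ≤ m₁, ∀ τ', ¬ Forces φ (env emp (τ' :: σ :: l)) r := by
    by_cases e : ∃ r ≤ π, ∃ τ', Forces φ (env emp (τ' :: σ :: l)) r
    · obtain ⟨r, hr, τ', k⟩ := e
      exact ⟨r, hr, τ', Or.inl k⟩
    · exact ⟨π, le_rfl, emp, Or.inr fun r hr τ' k => e ⟨r, hr, τ', k⟩⟩
  obtain ⟨m, h₂, a, ha, k₂⟩ : ∃ m ≤ m₁, ∃ a < C.th.ord,
      FEq σ (oN a) m ∨ ∀ r ≤ m, ∀ a' < C.th.ord, ¬ FEq σ (oN a') r := by
    by_cases e : ∃ r ≤ m₁, ∃ a' < C.th.ord, FEq σ (oN a') r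
    · obtain ⟨r, hr, a', ha', k⟩ := e
      exact ⟨r, hr, a', ha', Or.inl k⟩
    · exact ⟨m₁, le_rfl, C.kap, C.k_lt, Or.inr fun r hr a' ha' k => e ⟨r, hr, a', ha', k⟩⟩
  exact ⟨m, h₂.trans h₁, τ, a, ha,
    k₁.imp (fun k => k.mono h₂) fun k r hr => k r (hr.trans h₂), k₂⟩

/-- Densely many conditions force the existence of a hull. -/
theorem core_dense (φ : Fml) (l : List (Name C.Po)) {ξ : Od} (hξ : ξ < C.kap) (π₀ : C.Po) :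
    ∃ π ≤ π₀, ∃ (Cs : Set (Name C.Po)) (S : Set Od), Cs.Countable ∧ S.Countable ∧
      S ⊆ Iio C.th.ord ∧ ∀ g : Gen C.Po, π ∈ g.G → Cs ⊆ g.N → (∀ a ∈ S, g.In a) →
        (∀ x ∈ l, x ∈ g.N) → g.In ξ → ∃ Y p m, Hull g.E (g.o C.kap) g.om Y p m ∧
          Sub g.E (g.o ξ) Y ∧ ∀ a, g.E a Y → (∃ y, Sat g.E φ (cons y (cons a (g.w l)))) →
            ∃ y, g.E y Y ∧ Sat g.E φ (cons y (cons a (g.w l))) := by
  obtain ⟨XE, X, μ, top, e, π, hπ, hN, hX, hξμ, hsp, hint, ⟨ν, hν, en, rfl⟩, hemb, hop, hG⟩ :=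
    C.master oN pairN (fcoreG φ l) (fcoreG_mono φ l) (fcoreG_dense φ l) π₀ hξ
  have htop : top < C.th.ord := hN.top_lt.trans C.k_lt
  have hν' : ν < C.th.ord := hν.trans C.k_lt
  have he : ∀ b < top, e b < C.th.ord := fun b hb => hX ((hN.rng _).2 ⟨b, hb, rfl⟩)
  obtain ⟨bd, hbd, hbd'⟩ := C.th_inac.bound htop e he
  obtain ⟨pN, hpN⟩ := (FR.ground (P := C.Po) fun a b => b < top ∧ e b = a).name
    (bd := max bd top) (max_lt hbd htop)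
  have happ : ∀ g : Gen C.Po, pN ∈ g.N → ∀ s t, App g.E (g.v pN) s t ↔
      ∃ b < top, g.In (e b) ∧ g.In b ∧ s = g.o (e b) ∧ t = g.o b := by
    intro g hg s t
    rw [hpN g hg]
    constructor
    · rintro ⟨a, -, b, -, k₁, k₂, k₃, k₄, -, -, k₅, rfl⟩
      exact ⟨b, k₅, k₁, k₂, k₃, k₄⟩
    · rintro ⟨b, k₅, k₁, k₂, k₃, k₄⟩
      exact ⟨e b, lt_max_of_lt_left (hbd' b k₅), b, lt_max_of_lt_right k₅, k₁, k₂, k₃, k₄,
        ⊤, g.top, k₅, rfl⟩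
  have hsm : Sm C.Po (Iio ν) := Sm.iio (P := C.Po) hν'
  let YN : Name C.Po := fam (fun i : Iio ν => en i.1)
  let eN : Name C.Po := Gen.relN (fun i : Iio ν => oN i.1) (fun i => en i.1) (fun _ => ⊤)
  have hY : ∀ g : Gen C.Po, YN ∈ g.N → ∀ x, g.E x (g.v YN) ↔
      ∃ i < ν, en i ∈ g.N ∧ g.v (en i) = x := fun g hg x =>
    (Gen.E_fam hg).trans ⟨fun ⟨i, k⟩ => ⟨i.1, i.2, k⟩, fun ⟨i, hi, k⟩ => ⟨⟨i, hi⟩, k⟩⟩
  have hE : ∀ g : Gen C.Po, eN ∈ g.N → ∀ s t, App g.E (g.v eN) s t ↔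
      ∃ i < ν, g.In i ∧ en i ∈ g.N ∧ s = g.o i ∧ t = g.v (en i) := fun g hg s t =>
    (Gen.app_relN hg).trans
      ⟨fun ⟨i, _, k₁, k₂⟩ => ⟨i.1, i.2, ⟨lt_trans i.2 hν', k₁⟩, k₂⟩,
        fun ⟨i, hi, k₁, k₂⟩ => ⟨⟨i, hi⟩, g.top, k₁.2, k₂⟩⟩
  refine ⟨π, hπ, {YN, eN, pN}, {C.kap, μ, ν}, (toFinite _).countable, (toFinite _).countable,
    ?_, fun g hg hC hS hl hξ' => ?_⟩
  · rintro _ (rfl | rfl | rfl)
    exacts [C.k_lt, hN.mu_lt.trans htop, hν']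
  have cY : YN ∈ g.N := hC (by simp)
  have cE : eN ∈ g.N := hC (by simp)
  have cP : pN ∈ g.N := hC (by simp)
  have sk : g.In C.kap := hS _ (by simp)
  have sm : g.In μ := hS _ (by simp)
  have sn : g.In ν := hS _ (by simp)
  have hd : HD g X μ top e (g.v YN) (g.v pN) := by
    refine ⟨hN, ⟨π, hg, hsp, hint⟩, sk, sm, happ g cP, ?_, ?_, ?_, ?_, ?_⟩
    · intro x hx ho
      obtain ⟨i, hi, hi', rfl⟩ := (hY g cY x).1 hx
      obtain ⟨a', ha', ea⟩ := Gen.ord_repr ho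
      obtain ⟨p, hp, f⟩ := (Gen.v_eq_iff hi' ha'.2).1 ea.symm
      refine Gen.dens_o (Ψ := fun _ E w => ∃ y, App E (w 1) (w 0) y)
        (UDef.ex (UDef.app _ _ _)) (Gen.l2 hi' cP) fun p₁ hp₁ => ?_
      obtain ⟨q₀, hq₀, q₁, q₂⟩ := g.dir hp₁ hp
      obtain ⟨q, -, q₃, q₄⟩ := g.dir hq₀ hg
      obtain ⟨ρ, hρ, τ, -, a, ha, -, k⟩ := hG (en i) ⟨i, hi, rfl⟩ q q₄
      obtain ⟨b, hb, rfl⟩ := (hN.rng a).1 ha
      have k' : FEq (en i) (oN (e b)) ρ :=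
        k.resolve_right fun k => k ρ le_rfl a' ha'.1 (f.mono (hρ.trans (q₃.trans q₂)))
      refine ⟨ρ, hρ.trans (q₃.trans q₁), ∅, {e b, b}, countable_empty, (toFinite _).countable,
        ?_, fun g' hρ' _ hS' hl' => ?_⟩
      · rintro _ (rfl | rfl)
        exacts [he b hb, hb.trans htop]
      have n₁ := hS' (e b) (by simp)
      have n₂ := hS' b (by simp)
      exact ⟨g'.o b, (happ g' (hl' _ (by simp)) _ _).2 ⟨b, hb, n₁, n₂,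
        (Gen.v_eq_iff (hl' (en i) (by simp)) n₁.2).2 ⟨ρ, hρ', k'⟩, rfl⟩⟩
    · intro b hb hb'
      have : ∃ x, App g.E (g.v pN) x (g.o b) := by
        refine Gen.dens_o (Ψ := fun _ E w => ∃ x, App E (w 0) x (w 1))
          (UDef.ex (UDef.app _ _ _)) (Gen.l2 cP hb'.2) fun p₁ _ => ?_
        refine ⟨p₁, le_rfl, ∅, {e b}, countable_empty, countable_singleton _,
          singleton_subset_iff.2 (he b hb), fun g' _ _ hS' hl' => ?_⟩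
        exact ⟨g'.o (e b), (happ g' (hl' _ (by simp)) _ _).2 ⟨b, hb, hS' _ rfl,
          ⟨hb'.1, hl' _ (by simp)⟩, rfl, rfl⟩⟩
      obtain ⟨x, hx⟩ := this
      obtain ⟨b', -, k₁, k₂, -, k₃⟩ := (happ g cP _ _).1 hx
      exact Gen.o_inj hb' k₂ k₃ ▸ k₁
    · intro a ha ha'
      obtain ⟨i, hi, k⟩ := hemb a ha
      exact (hY g cY _).2 ⟨i, hi, k ▸ ha'.2, by rw [k]; rfl⟩
    · refine Gen.lt_of_rel (c := g.o ν) (f := g.v eN) (Gen.isOrd_o sk)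
        ((Gen.o_lt_iff sn sk).2 hν) (fun x y y' k k' => ?_) fun y hy => ?_
      · obtain ⟨i, -, k₁, -, rfl, rfl⟩ := (hE g cE _ _).1 k
        obtain ⟨j, -, k₂, -, k₃, rfl⟩ := (hE g cE _ _).1 k'
        rw [Gen.o_inj k₁ k₂ k₃]
      · obtain ⟨i, hi, hi', rfl⟩ := (hY g cY y).1 hy
        refine Gen.dens_o (Ψ := fun _ E w => ∃ i, E i (w 0) ∧ App E (w 1) i (w 2))
          (UDef.ex ((UDef.mem _ _).and (UDef.app _ _ _))) (Gen.l3 sn.2 cE hi') fun p₁ _ => ?_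
        refine ⟨p₁, le_rfl, ∅, {i}, countable_empty, countable_singleton _,
          singleton_subset_iff.2 (hi.trans hν'), fun g' _ _ hS' hl' => ?_⟩
        have n₁ := hS' i rfl
        exact ⟨g'.o i, (Gen.o_lt_iff n₁ ⟨hν', hl' _ (by simp)⟩).2 hi,
          (hE g' (hl' _ (by simp)) _ _).2 ⟨i, hi, n₁, hl' _ (by simp), rfl, rfl⟩⟩
    · intro a b p ha hb hp
      obtain ⟨i, hi, hi', rfl⟩ := (hY g cY a).1 ha
      obtain ⟨j, hj, hj', rfl⟩ := (hY g cY b).1 hb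
      obtain ⟨k, hk, hk'⟩ := hop _ ⟨i, hi, rfl⟩ _ ⟨j, hj, rfl⟩
      refine (hY g cY _).2 ⟨k, hk, hk' ▸ Gen.pairN_mem_iff.2 ⟨hi', hj'⟩, ?_⟩
      rw [hk', Gen.v_pairN hi' hj', Gen.isPair_iff.1 hp]
  refine ⟨g.v YN, g.v pN, g.o μ, hd.hull.1, fun x hx => hd.hull.2 x ?_, fun a ha hy => ?_⟩
  · obtain ⟨b, hb, hb', rfl⟩ := (Gen.E_o hξ').1 hx
    exact (Gen.o_lt_iff hb' sm).2 (hb.trans_le hξμ)
  obtain ⟨i, hi, hi', rfl⟩ := (hY g cY a).1 ha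
  obtain ⟨y, hy⟩ := hy
  obtain ⟨σ, hσ, rfl⟩ := Gen.exists_v y
  rw [← Gen.w_cons, ← Gen.w_cons, Gen.truth φ (Gen.lcons hσ (Gen.lcons hi' hl))] at hy
  obtain ⟨p, hp, f⟩ := hy
  refine Gen.dens_o
    (Ψ := fun _ E w => ∃ y, E y (w 0) ∧ Sat E φ (cons y (cons (w 1) fun k => w (k + 2))))
    (UDef.ex ((UDef.mem _ _).and (UD.fcore_sat φ 0 2 3))) (Gen.lcons cY (Gen.lcons hi' hl))
    fun p₁ hp₁ => ?_
  obtain ⟨q₀, hq₀, q₁, q₂⟩ := g.dir hp₁ hp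
  obtain ⟨q, -, q₃, q₄⟩ := g.dir hq₀ hg
  obtain ⟨ρ, hρ, _, ⟨j, hj, rfl⟩, a, -, k, -⟩ := hG (en i) ⟨i, hi, rfl⟩ q q₄
  have k' : Forces φ (env emp (en j :: en i :: l)) ρ :=
    k.resolve_right fun k => k ρ le_rfl σ (f.mono (hρ.trans (q₃.trans q₂)))
  refine ⟨ρ, hρ.trans (q₃.trans q₁), {en j}, ∅, countable_singleton _, countable_empty,
    empty_subset _, fun g' hρ' hC' _ hl' => ?_⟩
  have n₁ : en j ∈ g'.N := hC' rfl
  have n₂ := (Gen.truth φ (Gen.lcons n₁ fun x hx => hl' x (List.mem_cons_of_mem _ hx))).2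
    ⟨ρ, hρ', k'⟩
  rw [Gen.w_cons, Gen.w_cons] at n₂
  exact ⟨g'.v (en j), (hY g' (hl' _ (by simp)) _).2 ⟨j, hj, n₁, rfl⟩, n₂⟩

theorem fact_core {g : Gen C.Po} (hk : g.In C.kap) : ∀ Θ : g.M → g.M → Prop,
    g.Tm (fun z : g.M × g.M => Θ z.1 z.2) → ∀ ξ, g.E ξ (g.o C.kap) →
    ∃ Y π m, Hull g.E (g.o C.kap) g.om Y π m ∧ Sub g.E ξ Y ∧
      ∀ a, g.E a Y → (∃ y, Θ a y) → ∃ y, g.E y Y ∧ Θ a y := by
  intro Θ hΘ ξ hξ
  obtain ⟨φ, l, hl, h⟩ := Gen.tm_fml hΘ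
  obtain ⟨x, hx, hx', rfl⟩ := (Gen.E_o hk).1 hξ
  simp only [h]
  refine Gen.dens_o (Ψ := fun _ E w => ∃ Y π m, Hull E (w 0) (w 1) Y π m ∧ Sub E (w 2) Y ∧
      ∀ a, E a Y → (∃ y, Sat E φ (cons y (cons a fun k => w (k + 3)))) →
        ∃ y, E y Y ∧ Sat E φ (cons y (cons a fun k => w (k + 3))))
    (UDef.ex (UDef.ex (UDef.ex ((UD.hull _ _ _ _ _).and ((UD.sub _ _).and (UDef.all
      ((UDef.mem _ _).imp ((UDef.ex (UD.fcore_sat φ 0 1 8)).imp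
        (UDef.ex ((UDef.mem _ _).and (UD.fcore_sat φ 0 1 8)))))))))))
    (Gen.lcons hk.2 (Gen.lcons g.omega_mem (Gen.lcons hx'.2 hl))) fun p _ => ?_
  obtain ⟨π, hπ, Cs, S, h₁, h₂, h₃, H⟩ := core_dense φ l hx p
  exact ⟨π, hπ, Cs, S, h₁, h₂, h₃, fun g' k₁ k₂ k₃ k₄ => H g' k₁ k₂ k₃
    (fun y hy => k₄ y (by simp [hy])) ⟨hx'.1, k₄ _ (by simp)⟩⟩

end Ctx

end Pool.Agent.MP_85ce7b_lc
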