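import Pool.Agent.MP_85ce7b_lc.L.FCard

namespace Pool.Agent.MP_85ce7b_lc

open Pool.Agent.MP_c6cf52_lc Name Set Cardinal Ordinal Dat

namespace Ctx

variable {C : Ctx} {g : Gen C.Po}

theorem fgch_kap {δ : Od} (hδ : δ ∈ C.p0.c) : δ ≤ C.kap := hδ.2.trans C.s_lt.le

theorem fgch_valid (C : Ctx) : C.Valid C.p0 := C.p0_scope.1.v

theorem fgch_th {x : Od} (hx : x ≤ C.s + 1) : (C.B x).ord < C.th.ord :=
  C.bf.lt_inac C.th_inac ((hx.trans_lt C.s_lt).trans C.k_lt)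

/-- Small families of regular open sets are decided below a good point of the trivial condition. -/
theorem capture {δ a : Od} (hδ : Good C.p0 δ) (ha : a.card ≤ C.B δ) (O : Od → C.Po → Prop)
    (mono : ∀ i p q, O i p → q ≤ p → O i q)
    (reg : ∀ i p, (∀ q ≤ p, ∃ r ≤ q, O i r) → O i p) (π : C.Po) :
    ∃ π' ≤ π, ∃ N : Set (Raw × Od), (∀ z ∈ N, C.LeT δ z.1 C.p0 ∧ z.2 < a) ∧
      ∀ i < a, ∀ ρ ≤ π', C.Has N ρ.r i ↔ O i ρ := by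
  have hk := fgch_kap hδ.1
  obtain ⟨σ, h₁, h₂, h₃, H⟩ := redx C.pred_lev_kap (ha.trans (C.bf.mono hk)) O mono π
  have hσ : σ ≤ π := predR_le (y := C.kap) ⟨h₁, h₂, h₃⟩
  have hs := (inR_scope σ.hr).1
  obtain ⟨u, hu', K⟩ := pf_low (C.pp_all C.kap) hs (Or.inl (le_good σ.hr.le hδ)) hk ha
    (fun i => C.RO C.kap fun r => ∃ h : C.LeT C.kap r σ.r, O i (setR σ r h))
    (fun _ => ro_open C _ _) fun _ => ro_lc C _ _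
  have hu : C.LeT C.kap u σ.r := rg_dt_leT hs hu'
  have hu0 : C.InR u := inR_le σ.hr hu
  have hδu : δ ∈ u.c := le_c hu0.le hδ.1
  refine ⟨setR σ u hu, (setR_le σ u hu).trans hσ, {z | ∃ r, C.LeT δ r u ∧
    C.RO C.kap (fun r => ∃ h : C.LeT C.kap r σ.r, O z.2 (setR σ r h)) r ∧ z.2 < a ∧
    z.1 = mix δ r C.p0}, ?_, fun i hi ρ hρ => ⟨?_, fun h => ?_⟩⟩
  · rintro ⟨_, i⟩ ⟨r, k₁, -, k₂, rfl⟩
    exact ⟨low_leT (le_trans' k₁.le hu0.le) hδ.1, k₂⟩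
  · rintro ⟨_, ⟨r, k₁, k₂, -, rfl⟩, k₃⟩
    have k₄ := le_mix (u := u) (inR_scope ρ.hr).1 k₃.le hρ.1 ((rb2_c_ge le_rfl).2 hδ.1) hδu hk
    rw [mix_mix_left, mix_eq_left k₁.ag] at k₄
    refine reg i ρ fun q hq => ?_
    obtain ⟨r₂, l₁, l₂, l₃⟩ := k₂ q.r (leT_trans hq.1 k₄)
    refine ⟨setR q r₂ l₁, setR_le _ _ _, mono i _ _ l₃
      ⟨pred_refl (setR σ r₂ l₂), fun x j c hz => ?_⟩⟩
    obtain ⟨c', m₁, m₂⟩ := (hq.trans hρ).2 x j c hz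
    exact ⟨c', m₁, eqv_mono m₂ l₁⟩
  · have hρσ : ρ ≤ σ := hρ.trans (setR_le σ u hu)
    have k₁ := K i hi ρ.r hρ.1 fun r' hr' => by
      have l₁ : setR ρ r' hr' ≤ σ := (setR_le ρ r' hr').trans hρσ
      have l₂ := H i hi _ l₁ (mono i _ _ h (setR_le ρ r' hr'))
      rw [pred_glue_kap l₁.1] at l₂
      exact ⟨r', pred_refl (setR ρ r' hr'), l₁.1, l₂⟩
    exact ⟨_, ⟨_, low_leT hρ.1.le hδu, k₁, hi, (mix_mix_left δ ρ.r u C.p0).symm⟩,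
      le_low ρ.hr hδ.1 hk⟩

theorem exists_codes {δ a : Od} (hδ : Good C.p0 δ) (ha : a.card ≤ C.B δ) :
    ∃ cd : Od → Set (Raw × Od), ∀ N : Set (Raw × Od), (∀ z ∈ N, C.LeT δ z.1 C.p0 ∧ z.2 < a) →
      ∃ j < (C.B (δ + 1)).ord, cd j = N := by
  obtain ⟨en, hen⟩ := low_enum (C := C) (Or.inl hδ)
  have h₁ : RLs (C.B δ) {q | C.LeT δ q C.p0} :=
    ((RLs.iio (card_ord _).le).image en).mono fun q hq =>
      let ⟨i, k₁, k₂⟩ := hen q hq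
      ⟨i, k₁, k₂⟩
  have h₂ : Cardinal.mk ({q | C.LeT δ q C.p0} ×ˢ Iio a : Set (Raw × Od)) ≤ lift.{2} (C.B δ) :=
    RLs.prod (C.bf.aleph0_le δ) h₁ (RLs.iio ha)
  have h₃ : Cardinal.mk (𝒫 ({q | C.LeT δ q C.p0} ×ˢ Iio a) : Set (Set (Raw × Od))) ≤
      lift.{2} (C.B (δ + 1)) := by
    rw [Cardinal.mk_powerset]
    refine (Cardinal.power_le_power_left two_ne_zero h₂).trans ?_
    rw [← Cardinal.lift_two_power, Cardinal.lift_le]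
    exact C.bf.two_pow_le δ
  obtain ⟨cd, hcd⟩ := exists_enum_of_le h₃
  exact ⟨cd, fun N hN => hcd N hN⟩

theorem fact_gch (hs : g.In C.s) : ∀ m, g.E m (g.o C.s) → IsCard g.E m → Inf g.E m →
    ∃ b D, IsOrd g.E b ∧
    (∀ S, Sub g.E S m → ∃ j, g.E j b ∧ ∀ i, g.E i m → (App g.E D j i ↔ g.E i S)) ∧
    ∀ c₁ c₂ c₃, IsCard g.E c₁ → IsCard g.E c₂ → IsCard g.E c₃ → g.E m c₁ → g.E c₁ c₂ →
      g.E c₂ c₃ → ¬ Leq g.E c₃ b := by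
  intro m hm _ hi
  obtain ⟨a, has, ha, rfl⟩ := (Gen.E_o hs).1 hm
  obtain ⟨z, z₁, z₂⟩ := C.bf.exists_index ((Gen.inf_o ha).1 hi)
  have z₃ : z < C.s := by
    by_contra h
    exact absurd ((C.s_fix.symm.le.trans (rf_ord_mono (not_lt.1 h))).trans z₁) (not_le.2 has)
  have z₄ : z + 1 < C.s := C.s_lim.add_one_lt z₃
  have z₅ : z + 1 + 1 < C.s := C.s_lim.add_one_lt z₄
  have mem : ∀ x < C.s, x ∈ C.p0.c := fun x hx => ⟨zero_le, (hx.trans (lt_add_one _)).le⟩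
  have hδ : Good C.p0 (z + 1) := ⟨mem _ z₄, rfl, z, rfl⟩
  have hac : a.card ≤ C.B (z + 1) := (lt_ord.1 z₂).le
  obtain ⟨cd, hcd⟩ := exists_codes hδ hac
  have hb : (C.B (z + 1 + 1)).ord < (Sz.θ C.Po).ord := fgch_th (mem _ z₅).2
  have hab : a < (C.B (z + 1 + 1)).ord := z₂.trans_le (rf_ord_mono (lt_add_one _).le)
  obtain ⟨τ, hτ⟩ := (fr_R (C := C) (Φ := fun r j i => C.Has (cd j) r i)
    fun _ _ _ _ _ h h' => has_mono h h').name hb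
  refine Gen.dens_o (Ψ := fun _ E w => ∃ b D, IsOrd E b ∧
    (∀ S, Sub E S (w 0) → ∃ j, E j b ∧ ∀ i, E i (w 0) → (App E D j i ↔ E i S)) ∧
    ∀ c₁ c₂ c₃, IsCard E c₁ → IsCard E c₂ → IsCard E c₃ → E (w 0) c₁ → E c₁ c₂ →
      E c₂ c₃ → ¬ Leq E c₃ b) ?_ (Gen.l1 ha.2) fun p _ => ?_
  · repeat' first
      | exact UDef.mem _ _ | exact UD.leq _ _ | exact UD.sub _ _ | exact UD.isCard _
      | exact UD.isOrd _ | exact UDef.app _ _ _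
      | apply UDef.and | apply UDef.iff | apply UDef.not | apply UDef.imp | apply UDef.all
      | apply UDef.ex
  refine ⟨p, le_rfl, {τ}, {(C.B (z + 1 + 1)).ord}, countable_singleton _, countable_singleton _,
    singleton_subset_iff.2 hb, fun g' _ hC hS hl => ?_⟩
  have kτ : τ ∈ g'.N := hC rfl
  have kb := hS _ rfl
  have ka : g'.In a := ⟨ha.1, hl _ (by simp)⟩
  refine ⟨g'.o _, g'.v τ, Gen.isOrd_o kb, fun S _ => ?_, fun c₁ c₂ c₃ e₁ e₂ e₃ f₁ f₂ f₃ f₄ => ?_⟩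
  · obtain ⟨σ, kσ, rfl⟩ := Gen.exists_v S
    refine Gen.dens_o (Ψ := fun _ E w => ∃ j, E j (w 3) ∧
      ∀ i, E i (w 2) → (App E (w 0) j i ↔ E i (w 1)))
      (UDef.ex ((UDef.mem _ _).and (UDef.all ((UDef.mem _ _).imp
        ((UDef.app _ _ _).iff (UDef.mem _ _)))))) (Gen.l4 kτ kσ ka.2 kb.2) fun p₂ _ => ?_
    obtain ⟨π', hπ, N, hN, K⟩ := capture hδ hac (fun i ρ => FMem (oN i) σ ρ)
      (fun _ _ _ h h' => h.mono h') (fun _ _ h => FMem.reg h) p₂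
    obtain ⟨j, hj, rfl⟩ := hcd N hN
    refine ⟨π', hπ, ∅, {j}, countable_empty, countable_singleton _,
      singleton_subset_iff.2 (hj.trans hb), fun g'' hG _ hS' hl' => ?_⟩
    have lj := hS' j rfl
    have lτ : τ ∈ g''.N := hl' _ (by simp)
    have lσ : σ ∈ g''.N := hl' _ (by simp)
    have la : g''.In a := ⟨ha.1, hl' _ (by simp)⟩
    have lb : g''.In _ := ⟨hb, hl' _ (by simp)⟩
    refine ⟨g''.o j, (Gen.o_lt_iff lj lb).2 hj, fun i hi => ?_⟩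
    obtain ⟨i, i₁, i₂, rfl⟩ := (Gen.E_o la).1 hi
    refine (hτ g'' lτ _ _).trans (Iff.trans ?_ (Gen.v_mem_iff i₂.2 lσ).symm)
    constructor
    · rintro ⟨j', -, i', -, m₁, m₂, m₃, m₄, q, hq, m₅⟩
      obtain rfl := Gen.o_inj lj m₁ m₃
      obtain rfl := Gen.o_inj i₂ m₂ m₄
      obtain ⟨r, hr, r₁, r₂⟩ := g''.dir hq hG
      exact ⟨r, hr, (K i i₁ r r₂).1 (has_mono m₅ r₁.1)⟩
    · rintro ⟨q, hq, m₅⟩
      obtain ⟨r, hr, r₁, r₂⟩ := g''.dir hq hG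
      exact ⟨j, hj, i, i₁.trans hab, lj, i₂, rfl, rfl, r, hr, (K i i₁ r r₂).2 (m₅.mono r₁)⟩
  · obtain ⟨x₁, n₁, rfl⟩ := Gen.ord_repr e₁.1
    obtain ⟨x₂, n₂, rfl⟩ := Gen.ord_repr e₂.1
    obtain ⟨x₃, n₃, rfl⟩ := Gen.ord_repr e₃.1
    have t₁ : a < x₁ := (Gen.o_lt_iff ka n₁).1 f₁
    have t₂ := (Gen.o_lt_iff n₁ n₂).1 f₂
    have t₃ := (Gen.o_lt_iff n₂ n₃).1 f₃
    have t₄ := (Gen.o_leq_iff n₃ kb).1 f₄
    have key : ∀ x, a < x → x ≤ x₃ → g'.In x → IsCard g'.E (g'.o x) →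
        x = (Order.succ (C.B z)).ord ∨ x = (Order.succ (C.B (z + 1))).ord := by
      intro x u₁ u₂ u₃ u₄
      rcases le_or_gt x (C.B (z + 1)).ord with h | h
      · exact Or.inl (card_adj g'.top (intv_adj C.fgch_valid (mem _ z₃) (mem _ z₄)) z₃.ne
          (z₁.trans_lt u₁) h u₃ u₄)
      · exact Or.inr (card_adj g'.top (intv_adj C.fgch_valid (mem _ z₄) (mem _ z₅)) z₄.ne
          h (u₂.trans t₄) u₃ u₄)
    have v₁ := key x₁ t₁ (t₂.trans t₃).le n₁ e₁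
    have v₂ := key x₂ (t₁.trans t₂) t₃.le n₂ e₂
    have v₃ := key x₃ ((t₁.trans t₂).trans t₃) le_rfl n₃ e₃
    have w₁ := t₂.ne
    have w₂ := t₃.ne
    have w₃ := (t₂.trans t₃).ne
    rcases v₁ with v₁ | v₁ <;> rcases v₂ with v₂ | v₂ <;> rcases v₃ with v₃ | v₃ <;>
      first
        | exact w₁ (v₁.trans v₂.symm)
        | exact w₂ (v₂.trans v₃.symm)
        | exact w₃ (v₁.trans v₃.symm)

theorem fact_fail (g : Gen C.Po) :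
    ∃ n₀ n₁ n₂ n₃ F, (∃ x, g.E x n₀) ∧ (∀ x, g.E x n₀ → ∃ y, g.E y n₀ ∧ g.E x y) ∧
    g.E n₀ n₁ ∧ g.E n₁ n₂ ∧ g.E n₂ n₃ ∧ IsCard g.E n₁ ∧ IsCard g.E n₂ ∧ IsCard g.E n₃ ∧
    ∀ j j', g.E j n₃ → g.E j' n₃ → j ≠ j' →
      ∃ i, g.E i n₀ ∧ ¬ (App g.E F j i ↔ App g.E F j' i) := by
  have e₃ := C.bf.succ_s
  obtain ⟨k₁, e₁⟩ : ∃ k, k = Order.succ ((2 : Cardinal.{1}) ^ C.B C.s) := ⟨_, rfl⟩
  obtain ⟨k₂, e₂⟩ : ∃ k, k = Order.succ k₁ := ⟨_, rfl⟩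
  rw [← e₁, ← e₂] at e₃
  have c₀ : Order.succ (C.B C.s) ≤ 2 ^ C.B C.s := Order.succ_le_of_lt (Cardinal.cantor _)
  have c₁ : 2 ^ C.B C.s < k₁ := e₁ ▸ Order.lt_succ _
  have c₂ : k₁ < k₂ := e₂ ▸ Order.lt_succ _
  have c₃ : k₂ < C.B (C.s + 1) := e₃ ▸ Order.lt_succ _
  have a₀ : ℵ₀ ≤ 2 ^ C.B C.s := (C.bf.aleph0_le _).trans (Cardinal.cantor _).le
  have r₁ : k₁.IsRegular := e₁ ▸ Cardinal.isRegular_succ a₀
  have r₂ : k₂.IsRegular := e₂ ▸ Cardinal.isRegular_succ (a₀.trans c₁.le)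
  have r₃ : (C.B (C.s + 1)).IsRegular := e₃ ▸ Cardinal.isRegular_succ ((a₀.trans c₁.le).trans c₂.le)
  have hb : (C.B (C.s + 1)).ord < (Sz.θ C.Po).ord := fgch_th le_rfl
  have o₁ : (Order.succ (C.B C.s)).ord < k₁.ord := ord_lt_ord.2 (c₀.trans_lt c₁)
  have o₂ : k₁.ord < k₂.ord := ord_lt_ord.2 c₂
  have o₃ : k₂.ord < (C.B (C.s + 1)).ord := ord_lt_ord.2 c₃
  have o₄ := (o₁.trans o₂).trans o₃
  obtain ⟨τ, hτ⟩ := (fr_R (C := C)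
    (Φ := fun r j i => ((Order.succ (C.B C.s)).ord * j + i, (0 : Od)) ∈ r.h C.s)
    fun _ _ _ _ _ h h' => le_h h'.le _ h).name hb
  refine Gen.dens_o (l := []) (Ψ := fun _ E _ => ∃ n₀ n₁ n₂ n₃ F, (∃ x, E x n₀) ∧
    (∀ x, E x n₀ → ∃ y, E y n₀ ∧ E x y) ∧ E n₀ n₁ ∧ E n₁ n₂ ∧ E n₂ n₃ ∧ IsCard E n₁ ∧
    IsCard E n₂ ∧ IsCard E n₃ ∧ ∀ j j', E j n₃ → E j' n₃ → j ≠ j' →
      ∃ i, E i n₀ ∧ ¬ (App E F j i ↔ App E F j' i)) ?_ (by simp) fun p _ => ?_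
  · repeat' first
      | exact UDef.mem _ _ | exact UDef.ne _ _ | exact UD.isCard _ | exact UDef.app _ _ _
      | apply UDef.and | apply UDef.iff | apply UDef.not | apply UDef.imp | apply UDef.all
      | apply UDef.ex
  refine ⟨p, le_rfl, {τ}, {(Order.succ (C.B C.s)).ord, k₁.ord, k₂.ord, (C.B (C.s + 1)).ord},
    countable_singleton _, (toFinite _).countable, ?_, fun g' _ hC hS _ => ?_⟩
  · rintro _ (rfl | rfl | rfl | rfl)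
    exacts [o₄.trans hb, (o₂.trans o₃).trans hb, o₃.trans hb, hb]
  have kτ : τ ∈ g'.N := hC rfl
  have n₀ := hS (Order.succ (C.B C.s)).ord (by simp)
  have n₁ := hS k₁.ord (by simp)
  have n₂ := hS k₂.ord (by simp)
  have n₃ := hS (C.B (C.s + 1)).ord (by simp)
  refine ⟨g'.o _, g'.o _, g'.o _, g'.o _, g'.v τ,
    ⟨_, (Gen.o_lt_iff (g'.in_nat 0) n₀).2 (by simp)⟩, fun x hx => ?_,
    (Gen.o_lt_iff n₀ n₁).2 o₁, (Gen.o_lt_iff n₁ n₂).2 o₂, (Gen.o_lt_iff n₂ n₃).2 o₃,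
    (reg_cc r₁ c₁ (c₂.trans c₃).le n₁).1, (reg_cc r₂ (c₁.trans c₂) c₃.le n₂).1,
    (reg_cc r₃ ((c₁.trans c₂).trans c₃) le_rfl n₃).1, fun j j' hj hj' hne => ?_⟩
  · obtain ⟨i, i₁, i₂, rfl⟩ := (Gen.E_o n₀).1 hx
    exact ⟨_, (Gen.o_lt_iff (Gen.in_succ i₂) n₀).2 ((C.pred_lim C.s).add_one_lt i₁),
      (Gen.o_lt_iff i₂ (Gen.in_succ i₂)).2 (lt_add_one i)⟩
  obtain ⟨x, x₁, x₂, rfl⟩ := (Gen.E_o n₃).1 hj
  obtain ⟨y, y₁, y₂, rfl⟩ := (Gen.E_o n₃).1 hj'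
  have hxy : x ≠ y := fun e => hne (e ▸ rfl)
  refine Gen.dens_o (Ψ := fun _ E w => ∃ i, E i (w 3) ∧
    ¬ (App E (w 0) (w 1) i ↔ App E (w 0) (w 2) i))
    (UDef.ex ((UDef.mem _ _).and ((UDef.app _ _ _).iff (UDef.app _ _ _)).not))
    (Gen.l4 kτ x₂.2 y₂.2 n₀.2) fun p₂ _ => ?_
  obtain ⟨s₁, -, s₂, -⟩ := inR_scope p₂.hr
  obtain ⟨r', hr', i, hi, m₁, m₂⟩ := fail_dense s₁ s₂ C.s_lt.le x₁ y₁ hxy
  refine ⟨setR p₂ r' hr', setR_le _ _ _, ∅, {i}, countable_empty, countable_singleton _,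
    singleton_subset_iff.2 (hi.trans n₀.1), fun g'' hG _ hS' hl' => ?_⟩
  have li := hS' i rfl
  have lτ : τ ∈ g''.N := hl' _ (by simp)
  have lx : g''.In x := ⟨x₂.1, hl' _ (by simp)⟩
  have ly : g''.In y := ⟨y₂.1, hl' _ (by simp)⟩
  have l₀ : g''.In _ := ⟨n₀.1, hl' _ (by simp)⟩
  refine ⟨g''.o i, (Gen.o_lt_iff li l₀).2 hi, fun h => ?_⟩
  obtain ⟨y', -, i', -, u₁, u₂, u₃, u₄, q, hq, u₅⟩ := (hτ g'' lτ _ _).1 (h.1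
    ((hτ g'' lτ _ _).2 ⟨x, x₁, i, hi.trans o₄, lx, li, rfl, rfl, _, hG, m₁⟩))
  obtain rfl := Gen.o_inj ly u₁ u₃
  obtain rfl := Gen.o_inj li u₂ u₄
  obtain ⟨r, -, v₁, v₂⟩ := g''.dir hq hG
  exact zero_ne_one (((inR_scope r.hr).1.v.col C.s).fn _ _ _ (le_h v₁.1.le _ u₅)
    (le_h v₂.1.le _ m₂))

end Ctx

end Pool.Agent.MP_85ce7b_lc
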