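import Pool.Agent.MP_85ce7b_lc.L.W1

namespace Pool.Agent.MP_85ce7b_lc

open Set Cardinal Ordinal Filter

namespace W4

/-- Change of the special points and their ultrafilters. -/
def wth (D : Dat) (G : Od → Prop × Ultrafilter Od) : Dat :=
  { D with Sp := {x | (G x).1}, W := fun x => (G x).2 }

variable {D : Dat} {G G' : Od → Prop × Ultrafilter Od} {μ : Od}

theorem col_congr {x : Od} {f : Set (Od × Od)} (h : (wth D G).Col x f) : (wth D G').Col x f :=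
  ⟨h.fn, h.dom, h.card⟩

theorem valid_congr (H : ∀ x < μ, G x = G' x) {p : Raw} (hp : p.c ⊆ Iio μ)
    (h : (wth D G).Valid p) : (wth D G').Valid p := by
  refine ⟨h.ne, h.bd, h.cl, h.h0, h.l0, fun x => col_congr (h.col x), h.vs, h.bel, h.lim, h.eas,
    fun ν L hL => ?_⟩
  have hν : ν ∈ p.c := by
    by_contra k
    rw [h.l0 ν k] at hL
    cases hL
  have e := H ν (hp hν)
  have k := h.sp ν L hL
  refine ⟨?_, k.gt, k.pre, ?_, k.Alt, k.Fb, fun ξ hξ => ⟨col_congr (k.F ξ hξ).1, (k.F ξ hξ).2⟩,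
    k.fin, k.s⟩
  · show (G' ν).1
    rw [← e]
    exact k.sp
  · show L.A ∈ (G' ν).2
    rw [← e]
    exact k.A

theorem bdd_sub {b : Raw} (h : Bdd μ b) : b.c ⊆ Iio μ := by
  obtain ⟨a, ha, h₁, -⟩ := h
  exact fun x hx => lt_trans (h₁ hx) ha

theorem blk_congr (H : ∀ x < μ, G x = G' x) {b : Raw} (h : (wth D G).Blk μ b) :
    (wth D G').Blk μ b :=
  ⟨valid_congr H (bdd_sub h.bdd) h.v, h.bdd, h.inac, h.gt, h.nxt, h.h⟩

theorem dt_congr (H : ∀ x < μ, G x = G' x) {β : Od} {b b' : Raw} (hb : b.c ⊆ Iio μ)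
    (h : (wth D G).DT β μ b' b) : (wth D G').DT β μ b' b := by
  refine ⟨⟨valid_congr H (fun x hx => ?_) h.1.v, h.1.d, h.1.lo, h.1.ag, h.1.bel⟩, h.2⟩
  by_contra k
  exact k (hb ((h.1.ag.1 x (not_lt.1 k)).1.1 hx))

theorem good_congr (H : ∀ x < μ, G x = G' x) {U : Ultrafilter Od} (h : (wth D G).GoodW μ U) :
    (wth D G').GoodW μ U := by
  have H' : ∀ x < μ, G' x = G x := fun x hx => (H x hx).symm
  refine ⟨h.inac, h.gt, h.comp, fun ζ hζ => ?_, h.nor, fun Z h₁ h₂ => ?_, fun Z h₁ h₂ => ?_⟩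
  · exact mem_of_superset (h.w0 ζ hζ) fun ξ hξ => ⟨hξ.1, blk_congr H hξ.2.1, hξ.2.2⟩
  · refine h.w2 Z (fun b hb => ?_) fun b b' hb hd => ?_
    · obtain ⟨b', k₁, k₂⟩ := h₁ b (blk_congr H hb)
      exact ⟨b', dt_congr H' (bdd_sub hb.bdd) k₁, k₂⟩
    · exact h₂ b b' (blk_congr H hb) (dt_congr H (bdd_sub hb.bdd) hd)
  · refine h.w3 Z (fun b hb => ?_) fun b b' hb hd => ?_
    · obtain ⟨b', k₁, k₂⟩ := h₁ b (blk_congr H hb)
      exact ⟨b', dt_congr H' (bdd_sub hb.bdd) k₁, k₂⟩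
    · exact h₂ b b' (blk_congr H hb) (dt_congr H (bdd_sub hb.bdd) hd)

theorem exists_sp (D : Dat) : ∃ G, (∀ μ ∈ (wth D G).Sp, (wth D G).GoodW μ ((wth D G).W μ)) ∧
    ∀ μ U, (wth D G).GoodW μ U → μ ∈ (wth D G).Sp := by
  classical
  let F : ∀ μ : Od, (∀ x, x < μ → Prop × Ultrafilter Od) → Prop × Ultrafilter Od := fun μ ih =>
    (∃ U, (wth D fun x => if h : x < μ then ih x h else (False, pure 0)).GoodW μ U,
      Classical.epsilon fun U =>
        (wth D fun x => if h : x < μ then ih x h else (False, pure 0)).GoodW μ U)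
  let G : Od → Prop × Ultrafilter Od := (wellFounded_lt (α := Od)).fix F
  have hG : ∀ μ, G μ = F μ fun x _ => G x := fun μ => WellFounded.fix_eq _ F μ
  have hc : ∀ μ, ∀ x < μ, (fun x => if _ : x < μ then G x else (False, pure 0)) x = G x :=
    fun μ x hx => dif_pos hx
  refine ⟨G, fun μ hμ => ?_, fun μ U h => ?_⟩
  · have h₁ : (G μ).1 := hμ
    show (wth D G).GoodW μ (G μ).2
    rw [hG] at h₁
    rw [hG μ]
    exact good_congr (hc μ) (Classical.epsilon_spec h₁)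
  · show (G μ).1
    rw [hG μ]
    exact ⟨U, good_congr (fun x hx => (hc μ x hx).symm) h⟩

theorem exists_th {κ θ : Cardinal.{1}} (hθ : θ.IsInaccessible) (h₂ : κ < θ) :
    ∃ th : Cardinal.{1}, th.IsInaccessible ∧ κ < th ∧ th ≤ θ ∧
      ∀ x, κ.ord < x → x < th.ord → ¬ Inac x := by
  obtain ⟨th, h₁, h₃⟩ := (wellFounded_lt (α := Cardinal.{1})).has_min
    {c | c.IsInaccessible ∧ κ < c} ⟨θ, hθ, h₂⟩
  refine ⟨th, h₁.1, h₁.2, not_lt.1 (h₃ θ ⟨hθ, h₂⟩), ?_⟩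
  rintro _ k₁ k₂ ⟨k, hk, rfl⟩
  exact h₃ k ⟨hk, ord_lt_ord.1 k₁⟩ (ord_lt_ord.1 k₂)

theorem exists_ke {kap α γ : Od} (hα : 0 < α) (hk : SI (α + 1) kap) (hγ : γ < ω₁) :
    ∃ (s : Od) (ke : Od → Od), s + 1 < kap ∧ (∀ i < γ, SI α (ke i)) ∧
      (∀ i j, i < j → j < γ → ke i < ke j) ∧ (∀ i < γ, ke i ≤ s) ∧
      (∀ y < s, ∃ i < γ, y < ke i) ∧ ∀ x ≤ s, SI α x → ∃ i < γ, ke i = x := by
  have hin := hk.inac
  let S : Set Od := {x | SI α x} ∪ Ioi kap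
  have hS : ¬ BddAbove S := fun h => not_bddAbove_Ioi kap (h.mono subset_union_right)
  have hlt : ∀ i < kap, enumOrd S i < kap := by
    intro i
    induction i using WellFoundedLT.induction with
    | _ i ih =>
      intro hi
      obtain ⟨b, b₁, b₂⟩ := hin.bound hi (enumOrd S) fun j hj => ih j hj (hj.trans hi)
      obtain ⟨z, z₁, z₂, z₃⟩ := (SI_iff.1 hk).2 α (lt_add_one α) hα b b₁
      exact (enumOrd_le_of_forall_lt (Or.inl z₃) fun j hj => (b₂ j hj).trans z₁).trans_lt z₂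
  have hγk : γ < kap := hγ.trans hin.omega1_lt
  have hle : ∀ b, (∀ i < γ, enumOrd S i < b) → sSup (enumOrd S '' Iio γ) ≤ b := fun b hb =>
    csSup_le' (by rintro _ ⟨i, hi, rfl⟩; exact (hb i hi).le)
  obtain ⟨b, b₁, b₂⟩ := hin.bound hγk (enumOrd S) fun j hj => hlt j (hj.trans hγk)
  have hb : BddAbove (enumOrd S '' Iio γ) := ⟨b, by rintro _ ⟨i, hi, rfl⟩; exact (b₂ i hi).le⟩
  refine ⟨sSup (enumOrd S '' Iio γ), enumOrd S,
    hin.isSuccLimit.add_one_lt ((hle b b₂).trans_lt b₁), fun i hi => ?_,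
    fun i j hij _ => enumOrd_strictMono hS hij, fun i hi => le_csSup hb ⟨i, hi, rfl⟩,
    fun y hy => ?_, fun x hx hx' => ?_⟩
  · exact (enumOrd_mem hS i).resolve_right (hlt i (hi.trans hγk)).not_gt
  · by_contra k
    push Not at k
    exact hy.not_ge (csSup_le' (by rintro _ ⟨i, hi, rfl⟩; exact k i hi))
  · obtain ⟨j, rfl⟩ := enumOrd_surjective hS (Or.inl hx')
    refine ⟨j, ?_, rfl⟩
    by_contra k
    obtain ⟨c, c₁, c₂⟩ := hx'.inac.bound (hγ.trans hx'.inac.omega1_lt) (enumOrd S)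
      fun i hi => enumOrd_strictMono hS (hi.trans_le (not_lt.1 k))
    exact c₁.not_ge (hx.trans (hle c c₂))

theorem exists_nm {B : Od → Cardinal.{1}} {s kap : Od} (bf : BF B s) {dec : Od → Raw}
    (hdec : ∀ r, Bdd kap r → ∃ ξ < kap, dec ξ = r) : ∃ nm : Od → Od → Set (Raw × Od),
    (∀ x c r v, (r, v) ∈ nm x c → Bdd kap r ∧ v < (B (x + 1)).ord) ∧
    (∀ x c, Cardinal.mk (nm x c) ≤ lift.{2} kap.card) ∧
    ∀ x, kap ≤ x → ∀ N : Set (Raw × Od),
      (∀ r v, (r, v) ∈ N → Bdd kap r ∧ v < (B (x + 1)).ord) →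
      Cardinal.mk N ≤ lift.{2} kap.card → ∃ c < (B (x + 1)).ord, nm x c = N := by
  classical
  let Fam : Od → Set (Set (Raw × Od)) := fun x =>
    {N | N ⊆ {r | Bdd kap r} ×ˢ Iio (B (x + 1)).ord ∧ Cardinal.mk N ≤ lift.{2} kap.card}
  have hR : Cardinal.mk {r | Bdd kap r} ≤ lift.{2} kap.card := by
    rw [← Cardinal.mk_Iio_ordinal]
    exact (mk_le_mk_of_subset fun r hr => hdec r hr).trans (mk_image_le (f := dec) (s := Iio kap))
  have hF : ∀ x, kap ≤ x → Cardinal.mk (Fam x) ≤ lift.{2} (B (x + 1)) := by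
    intro x hx
    have h₀ : ℵ₀ ≤ lift.{2} (B (x + 1)) := aleph0_le_lift.2 (bf.aleph0_le _)
    have h₁ : kap.card ≤ B x := (card_le_card hx).trans (bf.card_le x)
    have h₂ : Cardinal.mk ({r | Bdd kap r} ×ˢ Iio (B (x + 1)).ord : Set (Raw × Od))
        ≤ lift.{2} (B (x + 1)) := by
      rw [mk_setProd]
      refine mul_le_of_le h₀ (hR.trans (lift_le.2 (h₁.trans (bf.mono le_self_add)))) ?_
      rw [Cardinal.mk_Iio_ordinal, card_ord]
    refine (mk_bounded_subset_le _ _).trans ?_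
    refine (power_le_power_right (max_le h₂ h₀)).trans ?_
    refine (power_le_power_left (aleph0_pos.trans_le h₀).ne' (lift_le.2 h₁)).trans ?_
    rw [← lift_power, bf.pow_eq]
  have hE : ∀ x, ∃ e : Od → Set (Raw × Od), kap ≤ x →
      ∀ N ∈ Fam x, ∃ c < (B (x + 1)).ord, e c = N := fun x => by
    by_cases hx : kap ≤ x
    · obtain ⟨e, he⟩ := exists_enum_of_le (hF x hx)
      exact ⟨e, fun _ => he⟩
    · exact ⟨fun _ => ∅, fun h => absurd h hx⟩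
  choose e he using hE
  have hm : ∀ x c, (if e x c ∈ Fam x then e x c else ∅) ∈ Fam x := fun x c => by
    split_ifs with h
    · exact h
    · exact ⟨empty_subset _, by simp⟩
  refine ⟨fun x c => if e x c ∈ Fam x then e x c else ∅, fun x c r v h => (hm x c).1 h,
    fun x c => (hm x c).2, fun x hx N h₁ h₂ => ?_⟩
  have hN : N ∈ Fam x := ⟨fun z hz => h₁ z.1 z.2 hz, h₂⟩
  obtain ⟨c, hc, rfl⟩ := he x hx N hN
  exact ⟨c, hc, if_pos hN⟩

end W4

open W4 in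
theorem exists_ctx (κ θ : Cardinal.{1}) (hθ : θ.IsInaccessible) (h₁ : ℵ₀ < κ) (h₂ : κ < θ)
    (sc : ∀ T : Type 1, Cardinal.mk T < θ → SCOn κ T) (α γ : Od) (hα : 0 < α) (hα' : α < ω₁)
    (hγ : 0 < γ) (hγ' : γ < ω₁) : ∃ C : Ctx, C.al = α ∧ C.ga = γ := by
  obtain ⟨U, hU⟩ := exists_sco sc (ord_lt_ord.2 h₂)
  have kin : Inac κ.ord := hU.inac (omega0_lt_ord.2 h₁) le_rfl (by rw [card_ord])
  have ksi : ∀ δ < κ.ord, SI δ κ.ord := fun δ hδ => hU.si kin le_rfl hδ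
  obtain ⟨th, t₁, t₂, t₃, t₄⟩ := exists_th hθ h₂
  obtain ⟨dec, hdec⟩ := exists_dec
  obtain ⟨s, ke, k₁, k₂, k₃, k₄, k₅, k₆⟩ := exists_ke hα
    (ksi _ (kin.isSuccLimit.add_one_lt (hα'.trans kin.omega1_lt))) hγ'
  obtain ⟨B, bf⟩ := exists_bf s
  obtain ⟨G, g₁, g₂⟩ := exists_sp ⟨s, α, B, dec, ∅, fun _ => pure 0⟩
  obtain ⟨nm, n₁, n₂, n₃⟩ := exists_nm bf fun r => hdec _ r kin
  exact ⟨{
    toDat := wth ⟨s, α, B, dec, ∅, fun _ => pure 0⟩ G
    kap := κ.ord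
    th := th
    ga := γ
    ke := ke
    nm := nm
    bf := bf
    al_pos := hα
    al_lt := hα'
    ga_pos := hγ
    ga_lt := hγ'
    hdec := hdec
    good := g₁
    spmax := g₂
    kin := kin
    s_lt := k₁
    thin := t₁
    k_lt := ord_lt_ord.2 t₂
    noin := t₄
    sc := fun T hT => by rw [card_ord]; exact sc T (hT.trans_le t₃)
    ksi := fun δ hδ => ksi δ (hδ.trans kin.omega1_lt)
    ke_si := k₂
    ke_mono := k₃
    ke_le := k₄
    ke_cof := k₅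
    ke_all := k₆
    nm_sub := n₁
    nm_card := n₂
    nm_surj := n₃ }, rfl, rfl⟩

end Pool.Agent.MP_85ce7b_lc
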