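import Pool.Agent.MP_85ce7b_lc.L.W3
import Pool.Agent.MP_85ce7b_lc.L.W4

namespace Pool.Agent.MP_85ce7b_lc

open Set Cardinal Ordinal Dat

namespace Ctx

variable (C : Ctx)

theorem sco {lam : Od} (h : lam < C.th.ord) : ∃ U, SCO C.kap lam U :=
  C.kin.ord_card ▸ exists_sco C.sc h

theorem nice_ae {lam : Od} {U : Ultrafilter (Set Od)} (h : SCO C.kap lam U) (h₁ : C.kap < lam)
    (h₂ : lam < C.th.ord) (h₃ : ∀ x < lam, (C.B (x + 1)).ord < lam)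
    (h₄ : ∃ y : ℕ → Od, (∀ n, y n < lam) ∧ ∀ a < lam, ∃ n, a < y n) :
    {X | ∃ μ top e, Nice C X μ top e} ∈ U := by
  have k := C.pre_nice h h₁ h₂ h₃ h₄
  filter_upwards [k, C.sp_ae h (h₃ _ h₁) (k.mono fun _ ⟨_, e, he, _⟩ => ⟨e, he⟩)]
    with X ⟨top, e, _, k₁⟩ k₂
  exact ⟨_, top, e, k₁ k₂⟩

end Ctx

end Pool.Agent.MP_85ce7b_lc
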