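import Pool.Agent.MP_85ce7b_lc.L.FCard
import Pool.Agent.MP_85ce7b_lc.L.SO

namespace Pool.Agent.MP_85ce7b_lc

open Pool.Agent.MP_c6cf52_lc Name Set Cardinal Ordinal Dat

namespace Ctx

variable {C : Ctx}

/-- The semantic description of the hull given by a master condition. -/
structure HD (g : Gen C.Po) (X : Set Od) (μ top : Od) (e : Od → Od) (Y π : g.M) : Prop where
  nice : Nice C X μ top e
  cond : ∃ ρ ∈ g.G, Spec ρ.r μ ∧ Intv ρ.r μ (top + 1)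
  ink : g.In C.kap
  inm : g.In μ
  app : ∀ s t, App g.E π s t ↔ ∃ b < top, g.In (e b) ∧ g.In b ∧ s = g.o (e b) ∧ t = g.o b
  ord : ∀ x, g.E x Y → IsOrd g.E x → ∃ y, App g.E π x y
  up : ∀ b < top, g.In b → g.In (e b)
  mem : ∀ a ∈ X, g.In a → g.E (g.o a) Y
  lt : Lt g.E Y (g.o C.kap)
  pair : ∀ a b p, g.E a Y → g.E b Y → IsPair g.E p a b → g.E p Y

theorem fh_lt_iff {X : Set Od} {μ top : Od} {e : Od → Od} (h : Nice C X μ top e) {a b : Od}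
    (ha : a < top) (hb : b < top) : e a < e b ↔ a < b := by
  refine ⟨fun k => ?_, fun k => h.mono a b k hb⟩
  rcases lt_trichotomy a b with k' | rfl | k'
  · exact k'
  · exact absurd k (lt_irrefl _)
  · exact absurd (h.mono b a k' ha) k.not_gt

theorem fh_inj {X : Set Od} {μ top : Od} {e : Od → Od} (h : Nice C X μ top e) {a b : Od}
    (ha : a < top) (hb : b < top) (k : e a = e b) : a = b :=
  le_antisymm (not_lt.1 fun k' => ((fh_lt_iff h hb ha).2 k').ne' k)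
    (not_lt.1 fun k' => ((fh_lt_iff h ha hb).2 k').ne k)

theorem fh_lt_kap {X : Set Od} {μ top : Od} {e : Od → Od} (h : Nice C X μ top e) {b : Od}
    (hb : b < top) : e b < C.kap ↔ b < μ := by
  rw [← h.kap, fh_lt_iff h hb h.mu_lt]

theorem fh_kap_lt {X : Set Od} {μ top : Od} {e : Od → Od} (h : Nice C X μ top e) {b : Od}
    (hb : b < top) : C.kap < e b ↔ μ < b := by
  rw [← h.kap, fh_lt_iff h h.mu_lt hb]

theorem fh_intv {p : Raw} {a b c : Od} (h : Intv p a b) (hc : c ≤ b) : Intv p a c :=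
  ⟨fun _ hx => h.1 ⟨hx.1, hx.2.trans hc⟩, fun x h₁ h₂ => h.2 x h₁ (h₂.trans hc)⟩

theorem fh_sing {g : Gen C.Po} {z : Od} (hz : Order.IsSuccLimit z) (hn : ¬ Inac z)
    (h : g.In (C.B z).ord) : ¬ IsReg g.E (g.o (C.B z).ord) :=
  Gen.not_reg_ground h (ord_lt_ord.2 (C.bf.singular hz hn))

/-- The cardinal structure above `κ` is reflected by the collapse. -/
theorem HD.above {g : Gen C.Po} {X : Set Od} {μ top : Od} {e : Od → Od} {Y π : g.M}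
    (h : HD g X μ top e Y π) {b : Od} (hb : b < top) (h₁ : g.In (e b)) (h₂ : g.In b)
    (hk : C.kap < e b) (hc : IsCard g.E (g.o (e b))) :
    (IsReg g.E (g.o (e b)) ∧ Succ g.E (g.o (e b)) ∧ IsReg g.E (g.o b) ∧ Succ g.E (g.o b)) ∨
      (IsCard g.E (g.o b) ∧ ¬ IsReg g.E (g.o (e b)) ∧ ¬ IsReg g.E (g.o b)) := by
  have hn := h.nice
  obtain ⟨ρ, hρ, hs, hi⟩ := h.cond
  have hX : e b ∈ X := (hn.rng _).2 ⟨b, hb, rfl⟩
  rcases card_above hk h₁ hc with ⟨z, z₁, z₂⟩ | ⟨z, z₁, z₂, z₃⟩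
  · obtain ⟨y, hy, rfl⟩ := (hn.rng z).1 (hn.idx _ hX z z₁ (Or.inr z₂))
    have y₁ : μ ≤ y := not_lt.1 fun k => ((fh_lt_kap hn hy).2 k).not_ge z₁
    have y₂ := (hn.succ y hy).1
    have y₃ : (Order.succ (C.B y)).ord < top :=
      (ord_le_ord.2 (C.bf.succ_le (lt_add_one y))).trans_lt
        (hn.beth _ (y₁.trans (lt_add_one y).le) y₂).1
    obtain rfl : b = (Order.succ (C.B y)).ord :=
      fh_inj hn hb y₃ (z₂.trans (hn.sbeth y y₁ hy).symm)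
    have y₄ : y + 1 ≤ top + 1 := y₂.le.trans (lt_add_one top).le
    have y₅ : y + 1 ∈ ρ.r.c := hi.1 ⟨y₁.trans (lt_add_one y).le, y₄⟩
    have y₆ : y ≤ top + 1 := (lt_add_one y).le.trans y₄
    refine Or.inl ⟨?_, ?_, ?_, Gen.succ_ground h₂⟩
    · rw [z₂] at h₁ ⊢
      exact reg_T z₁ h₁
    · rw [z₂] at h₁ ⊢
      exact Gen.succ_ground h₁
    · rcases y₁.eq_or_lt with rfl | y₇
      · exact reg_succ_pt hρ (Or.inr hs) y₅ h₂
      · rcases Order.mem_range_succ_or_isSuccPrelimit y with ⟨x, hx⟩ | hp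
        · exact reg_succ_pt hρ (Or.inl (Or.inl ⟨hi.1 ⟨y₁, y₆⟩, hi.2 y y₇ y₆, x,
            by rw [← hx, Order.succ_eq_add_one]⟩)) y₅ h₂
        · exact reg_succ_lim hρ (fh_intv hi y₄) y₇
            ⟨(lt_of_le_of_lt zero_le y₇).not_isMin, hp⟩ (hn.noin y y₇ y₆) h₂
  · obtain ⟨y, hy, rfl⟩ := (hn.rng z).1 (hn.idx _ hX z z₁.le (Or.inl z₃))
    have y₁ : μ < y := (fh_kap_lt hn hy).1 z₁
    obtain ⟨y₂, y₃⟩ := hn.beth y y₁.le hy
    obtain rfl : b = (C.B y).ord := fh_inj hn hb y₂ (z₃.trans y₃.symm)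
    have y₆ : y ≤ top + 1 := hy.le.trans (lt_add_one top).le
    have hl : Order.IsSuccLimit y := by
      refine ⟨(lt_of_le_of_lt zero_le y₁).not_isMin, ?_⟩
      rcases Order.mem_range_succ_or_isSuccPrelimit y with ⟨x, hx⟩ | hp
      · rw [Order.succ_eq_add_one] at hx
        subst hx
        rw [(hn.succ x ((lt_add_one x).trans hy)).2] at z₂
        exact absurd (z₂.add_one_lt (lt_add_one _)) (lt_irrefl _)
      · exact hp
    refine Or.inr ⟨card_lim_int hρ (fh_intv hi y₆) y₁ hl h₂, ?_,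
      fh_sing hl (hn.noin y y₁ y₆) h₂⟩
    rw [z₃] at h₁ ⊢
    exact fh_sing z₂ (C.noin _ z₁ ((C.bf.le_ord _).trans_lt h₁.1)) h₁

theorem HD.hull {g : Gen C.Po} {X : Set Od} {μ top : Od} {e : Od → Od} {Y π : g.M}
    (h : HD g X μ top e Y π) :
    Hull g.E (g.o C.kap) g.om Y π (g.o μ) ∧ Sub g.E (g.o μ) Y := by
  have hn := h.nice
  have hmk : μ < C.kap := hn.mu_lt.trans hn.top_lt
  have hsub : Sub g.E (g.o μ) Y := fun x hx => by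
    obtain ⟨b, hb, hb', rfl⟩ := (Gen.E_o h.inm).1 hx
    exact h.mem b ((hn.rng b).2 ⟨b, hb.trans hn.mu_lt, hn.id b hb⟩) hb'
  obtain ⟨ρ, hρ, hs, -⟩ := h.cond
  refine ⟨⟨h.lt, h.mem _ ((hn.rng _).2 ⟨μ, hn.mu_lt, hn.kap⟩) h.ink,
    (Gen.o_lt_iff h.inm h.ink).2 hmk, fun x => ⟨fun hx => ⟨hsub x hx, ?_⟩, fun ⟨h₁, h₂⟩ => ?_⟩,
    (h.app _ _).2 ⟨μ, hn.mu_lt, hn.kap.symm ▸ h.ink, h.inm, by rw [hn.kap], rfl⟩,
    fun x y y' k k' => ?_, h.pair, cof_spec hρ hs h.inm, fun x hx ho => ?_⟩, hsub⟩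
  · exact Gen.lt_lt (Gen.isOrd_o h.ink) hx ((Gen.o_lt_iff h.inm h.ink).2 hmk)
  · obtain ⟨y, hy⟩ := h.ord x h₁ (Gen.isOrd_of_E (Gen.isOrd_o h.ink) h₂)
    obtain ⟨b, hb, b₁, -, rfl, -⟩ := (h.app _ _).1 hy
    have k := (fh_lt_kap hn hb).1 ((Gen.o_lt_iff b₁ h.ink).1 h₂)
    exact (Gen.o_lt_iff b₁ h.inm).2 ((hn.id b k).trans_lt k)
  · obtain ⟨b, hb, b₁, -, rfl, rfl⟩ := (h.app _ _).1 k
    obtain ⟨c, hc, c₁, -, c₂, rfl⟩ := (h.app _ _).1 k'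
    rw [fh_inj hn hb hc (Gen.o_inj b₁ c₁ c₂)]
  · obtain ⟨y, hy⟩ := h.ord x hx ho
    obtain ⟨b, hb, b₁, b₂, rfl, rfl⟩ := (h.app _ _).1 hy
    refine ⟨_, hy, Gen.isOrd_o b₂, fun z => ⟨fun hz => ?_, fun ⟨w, _, w₂, w₃⟩ => ?_⟩,
      fun k => ?_, fun k => ?_, fun k k' => ?_⟩
    · obtain ⟨c, hc, c₁, rfl⟩ := (Gen.E_o b₂).1 hz
      have c₂ := hc.trans hb
      have c₃ := h.up c c₂ c₁
      exact ⟨g.o (e c), h.mem _ ((hn.rng _).2 ⟨c, c₂, rfl⟩) c₃,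
        (Gen.o_lt_iff c₃ b₁).2 (hn.mono c b hc hb), (h.app _ _).2 ⟨c, c₂, c₃, c₁, rfl, rfl⟩⟩
    · obtain ⟨c, hc, c₁, c₂, rfl, rfl⟩ := (h.app _ _).1 w₃
      exact (Gen.o_lt_iff c₂ b₂).2 ((fh_lt_iff hn hc hb).1 ((Gen.o_lt_iff c₁ b₁).1 w₂))
    · rw [hn.id b ((fh_lt_kap hn hb).1 ((Gen.o_lt_iff b₁ h.ink).1 k))]
    · rcases lt_trichotomy b μ with k' | rfl | k'
      · rwa [hn.id b k'] at k
      · exact card_spec hρ hs b₂
      · rcases h.above hb b₁ b₂ ((fh_kap_lt hn hb).2 k') k with k₁ | k₁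
        exacts [k₁.2.2.1.1, k₁.1]
    · exact (h.above hb b₁ b₂ ((Gen.o_lt_iff h.ink b₁).1 k) k').imp id fun k₁ => k₁.2

end Ctx

end Pool.Agent.MP_85ce7b_lc
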