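import Pool.Agent.MP_85ce7b_lc.L.FCard

namespace Pool.Agent.MP_85ce7b_lc

open Pool.Agent.MP_c6cf52_lc Name Set Cardinal Ordinal Dat

namespace Gen

variable {P : Type 2} [Sz P] [Preorder P] [OrderTop P] [Tame P] {g : Gen P} {β x y : Od}

theorem freg_wit (hβ : β < ω₁) (hb : g.In β) (hy : g.In y) (hx : g.In x)
    (H : ∀ p ∈ g.G, ∃ q ≤ p, ∃ z, y < z ∧ z < x ∧
      ∀ g' : Gen P, q ∈ g'.G → g'.In β → g'.In z → RegGe g'.E β (g'.o z)) :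
    ∃ z, g.E z (g.o x) ∧ g.E (g.o y) z ∧ RegGe g.E β z := by
  have h := dens_o (g := g)
    (Ψ := fun _ E w => ∃ z, E z (w 2) ∧ E (w 1) z ∧ RegGeI E (w 0) z)
    (UDef.ex ((UDef.mem 0 3).and ((UDef.mem 2 0).and (UD.regGeI 1 0))))
    (l3 hb.2 hy.2 hx.2) (fun p hp => by
      obtain ⟨q, hq, z, h₁, h₂, h₃⟩ := H p hp
      refine ⟨q, hq, ∅, {z}, countable_empty, countable_singleton z,
        singleton_subset_iff.2 (h₂.trans hx.1), fun g' k₁ _ k₂ k₃ => ?_⟩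
      have e₁ : g'.In β := ⟨hb.1, k₃ _ (by simp)⟩
      have e₂ : g'.In y := ⟨hy.1, k₃ _ (by simp)⟩
      have e₃ : g'.In x := ⟨hx.1, k₃ _ (by simp)⟩
      have e₄ : g'.In z := k₂ z rfl
      exact ⟨g'.o z, (o_lt_iff e₄ e₃).2 h₂, (o_lt_iff e₂ e₄).2 h₁,
        (regGeI_iff (rep_o e₁ hβ)).2 (h₃ g' k₁ e₁ e₄)⟩)
  obtain ⟨z, h₁, h₂, h₃⟩ := h
  exact ⟨z, h₁, h₂, (regGeI_iff (rep_o hb hβ)).1 h₃⟩

theorem freg_lim (hβ : β < ω₁) (hb : g.In β) (hx : g.In x) (h0 : 0 < x)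
    (H : ∀ y < x, ∀ p ∈ g.G, ∃ q ≤ p, ∃ z, y < z ∧ z < x ∧
      ∀ g' : Gen P, q ∈ g'.G → g'.In β → g'.In z → RegGe g'.E β (g'.o z)) :
    Lim g.E (RegGe g.E β) (g.o x) := by
  have z : g.In 0 := by simpa using g.in_nat 0
  refine ⟨⟨g.o 0, (o_lt_iff z hx).2 h0⟩, fun u hu => ?_⟩
  obtain ⟨y, h₁, h₂, rfl⟩ := (E_o hx).1 hu
  exact freg_wit hβ hb h₂ hx (H y h₁)

theorem freg_not_lim (hβ : β < ω₁) (hb : g.In β) (hx : g.In x) (hy : y < x)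
    (H : ∀ g' : Gen P, g'.In β → ∀ z, y < z → z < x → g'.In z → ¬ RegGe g'.E β (g'.o z)) :
    ¬ Lim g.E (RegGe g.E β) (g.o x) := by
  have h := dens_o (g := g)
    (Ψ := fun _ E w => ¬ Lim E (fun z => RegGeI E (w 0) z) (w 1))
    (UD.limReg 0 1).not (l2 hb.2 hx.2) (fun p _ => by
      refine ⟨p, le_rfl, ∅, {y}, countable_empty, countable_singleton y,
        singleton_subset_iff.2 (hy.trans hx.1), fun g' _ _ k₂ k₃ k₄ => ?_⟩
      have e₁ : g'.In β := ⟨hb.1, k₃ _ (by simp)⟩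
      have e₂ : g'.In y := k₂ y rfl
      have e₃ : g'.In x := ⟨hx.1, k₃ _ (by simp)⟩
      obtain ⟨u, h₁, h₂, h₃⟩ := k₄.2 (g'.o y) ((o_lt_iff e₂ e₃).2 hy)
      obtain ⟨z, m₁, m₂, rfl⟩ := (E_o e₃).1 h₁
      exact H g' e₁ z ((o_lt_iff e₂ m₂).1 h₂) m₁ m₂ ((regGeI_iff (rep_o e₁ hβ)).1 h₃))
  rw [← regGeI_eq (rep_o hb hβ)]
  exact h

theorem freg_zero {u : g.M} (h : IsReg g.E u) : RegGe g.E 0 u :=
  (regGe_def _ _ _).2 ⟨h, fun _ h' => absurd h' (not_lt.2 zero_le)⟩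

theorem freg_ne (hx : g.In x) (h : ω < x) : g.o x ≠ g.om := fun e =>
  h.ne' (o_inj hx g.in_omega (e.trans g.o_omega.symm))

theorem freg_limReg {δ : Od} (h0 : 0 < δ) (hx : g.In x) (h : ω < x) (H : RegGe g.E δ (g.o x)) :
    IsReg g.E (g.o x) ∧ Lim g.E (IsReg g.E) (g.o x) := by
  obtain ⟨h₁, h₂⟩ := ((regGe_iff.1 H).2.resolve_left (freg_ne hx h)) 0 h0
  exact ⟨H.reg, h₁, fun y hy => let ⟨z, k₁, k₂, k₃⟩ := h₂ y hy; ⟨z, k₁, k₂, k₃.reg⟩⟩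

end Gen

theorem freg_intv {p : Raw} {a e e' : Od} (h : Intv p a e) (he : e' ≤ e) : Intv p a e' :=
  ⟨(Icc_subset_Icc_right he).trans h.1, fun z h₁ h₂ => h.2 z h₁ (h₂.trans he)⟩

theorem freg_omega1 {μ : Od} (h : Inac μ) : ω₁ ≤ μ := by
  obtain ⟨k, hk, rfl⟩ := h
  rw [← Cardinal.ord_aleph, Cardinal.ord_le_ord, ← Cardinal.succ_aleph0]
  exact Order.succ_le_of_lt hk.aleph0_lt

namespace Ctx

variable {C : Ctx}

theorem freg_lt (x : Od) : x < (Order.succ (C.B x)).ord :=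
  (C.bf.le_ord x).trans_lt (ord_lt_ord.2 (Order.lt_succ _))

theorem freg_lt' {x μ : Od} (h : Inac μ) (hx : x < μ) : (Order.succ (C.B x)).ord < μ :=
  (ord_le_ord.2 (C.bf.succ_le (lt_add_one x))).trans_lt
    (C.bf.lt_inac h (h.isSuccLimit.add_one_lt hx))

theorem regGe_of_si {δ : Od} (hδ : δ < ω₁) : ∀ {g : Gen C.Po} {ρ : C.Po} {a x : Od}, ρ ∈ g.G →
    Intv ρ.r a (x + 1) → a < x → g.In x → g.In δ → SI δ x → RegGe g.E δ (g.o x) := by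
  induction δ using WellFoundedLT.induction with
  | ind δ ih =>
    intro g ρ a x hρ hi ha hx hd hs
    have hI := hs.inac
    refine Gen.regGe_iff.2 ⟨reg_inac hρ hi ha hI hx, Or.inr fun β hβ => ?_⟩
    refine Gen.freg_lim (hβ.trans hδ) (Gen.in_of_countable hd hδ hβ) hx (zero_le.trans_lt ha)
      fun y hy p hp => ?_
    obtain ⟨q, -, h₁, h₂⟩ := g.dir hp hρ
    have m₁ : Max.max a y < x := max_lt ha hy
    rcases eq_zero_or_pos β with rfl | h0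
    · have m₂ : Max.max a y + 1 < x := hI.isSuccLimit.add_one_lt m₁
      have m₃ : a ≤ Max.max a y + 1 := (le_max_left a y).trans (lt_add_one _).le
      refine ⟨q, h₁, (Order.succ (C.B (Max.max a y + 1))).ord,
        ((le_max_right a y).trans_lt (lt_add_one _)).trans (freg_lt _), freg_lt' hI m₂,
        fun g' k₁ _ k₂ => Gen.freg_zero (reg_succ_pt (g'.up k₁ h₂) (Or.inl (Or.inl ?_)) ?_ k₂)⟩
      · exact rf_good (inR_scope ρ.hr).1.v (hi.1 ⟨m₃, (m₂.trans (lt_add_one x)).le⟩)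
      · exact hi.1 ⟨m₃.trans (lt_add_one _).le,
          ((Order.add_one_le_of_lt m₂).trans_lt (lt_add_one x)).le⟩
    · obtain ⟨z, k₁, k₂, k₃⟩ := (SI_iff.1 hs).2 β hβ h0 _ m₁
      exact ⟨q, h₁, z, (le_max_right a y).trans_lt k₁, k₂, fun g' n₁ n₂ n₃ =>
        ih β hβ (hβ.trans hδ) (g'.up n₁ h₂)
          (freg_intv hi ((Order.add_one_le_of_lt k₂).trans (lt_add_one x).le))
          ((le_max_left a y).trans_lt k₁) n₃ n₂ k₃⟩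

theorem si_of_regGe {δ : Od} (hδ : δ < ω₁) (h0 : 0 < δ) : ∀ {g : Gen C.Po} {x : Od}, ω < x →
    x < C.kap → g.In x → g.In δ → RegGe g.E δ (g.o x) → SI δ x := by
  induction δ using WellFoundedLT.induction with
  | ind δ ih =>
    intro g x h₁ h₂ hx hd h
    refine SI_iff.2 ⟨by_contra fun hn => key h₁ h₂ hx (Or.inl hn) (Gen.freg_limReg h0 hx h₁ h),
      fun β hβ hβ0 y hy => by_contra fun hn => ?_⟩
    refine Gen.freg_not_lim (hβ.trans hδ) (Gen.in_of_countable hd hδ hβ) hx (max_lt hy h₁)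
      (fun g' k₁ z k₂ k₃ k₄ k₅ => hn ⟨z, (le_max_left _ _).trans_lt k₂, k₃, ?_⟩)
      ((Gen.regGe_iff.1 h).2.resolve_left (Gen.freg_ne hx h₁) β hβ)
    exact ih β hβ (hβ.trans hδ) hβ0 ((le_max_right _ _).trans_lt k₂) (k₃.trans h₂) k₄ k₁ k₅

variable {g : Gen C.Po}

theorem fact_top (hk : g.In C.kap) (ha : g.In C.al) :
    ∀ δ < C.al, Lim g.E (RegGe g.E δ) (g.o C.kap) := by
  intro δ hδ
  refine Gen.freg_lim (hδ.trans C.al_lt) (Gen.in_of_countable ha C.al_lt hδ) hk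
    (zero_le.trans_lt C.kin.omega_lt) fun y hy p _ => ?_
  obtain ⟨h₁, h₂, -⟩ := inR_scope p.hr
  rcases eq_zero_or_pos δ with rfl | h0
  · obtain ⟨q, x, k₁, k₂, k₃, k₄, k₅⟩ := top_zero h₁ h₂ hy
    exact ⟨setR p q k₁, setR_le _ _ _, (Order.succ (C.B x)).ord, k₂.trans (freg_lt x),
      freg_lt' C.kin ((lt_add_one x).trans k₃), fun g' n₁ _ n₂ =>
        Gen.freg_zero (reg_succ_pt n₁ (Or.inl (Or.inl k₄)) k₅ n₂)⟩
  · obtain ⟨q, a, x, k₁, k₂, k₃, k₄, k₅, k₆⟩ := top_pos h₁ h₂ hy h0 hδ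
    exact ⟨setR p q k₁, setR_le _ _ _, x, k₂, (lt_add_one x).trans k₅, fun g' n₁ n₂ n₃ =>
      regGe_of_si (hδ.trans C.al_lt) n₁ k₆ k₃ n₃ n₂ k₄⟩

theorem fact_gap (hk : g.In C.kap) (hs : g.In C.s) (ha : g.In C.al) :
    ∀ x, g.E (g.o C.s) x → g.E x (g.o C.kap) → ¬ RegGe g.E C.al x := by
  intro u h₁ h₂ h
  obtain ⟨x, k₁, k₂, rfl⟩ := (Gen.E_o hk).1 h₂
  have k₃ : C.s < x := (Gen.o_lt_iff hs k₂).1 h₁
  have k₄ : ω < x := (Ordinal.omega0_lt_omega_one.trans C.omega1_lt_s).trans k₃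
  exact key k₄ k₁ k₂ (Or.inr ⟨k₃, si_of_regGe C.al_lt C.al_pos k₄ k₁ k₂ ha h⟩)
    (Gen.freg_limReg C.al_pos k₂ k₄ h)

theorem freg_ke_lt {i j : Od} (hi : i < C.ga) (hj : j < C.ga) : C.ke i < C.ke j ↔ i < j := by
  refine ⟨fun h => ?_, fun h => C.ke_mono i j h hj⟩
  rcases lt_trichotomy i j with k | rfl | k
  exacts [k, absurd h (lt_irrefl _), absurd h (C.ke_mono j i k hi).not_gt]

theorem fact_low (hs : g.In C.s) (ha : g.In C.al) (hke : ∀ i < C.ga, g.In (C.ke i)) :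
    Enum g.E (fun x => RegAt g.E C.al x ∧ Leq g.E x (g.o C.s)) C.ga := by
  have hsk : C.s < C.kap := (lt_add_one _).trans C.s_lt
  refine ⟨fun i => g.o (C.ke i.1), fun i j =>
    (Gen.o_lt_iff (hke _ i.2) (hke _ j.2)).trans (freg_ke_lt i.2 j.2), fun u => ⟨?_, ?_⟩⟩
  · rintro ⟨h₁, h₂⟩
    obtain ⟨k₁, k₂, -⟩ := Gen.regAt_iff.1 h₁
    obtain ⟨x, hx, rfl⟩ := Gen.ord_repr k₁.reg.1.1
    have k₃ : x ≤ C.s := (Gen.o_leq_iff hx hs).1 h₂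
    have k₄ : ω < x := lt_of_le_of_ne ((Gen.inf_o hx).1 k₁.reg.2.1) fun e => k₂ (e ▸ g.o_omega)
    obtain ⟨i, hi, rfl⟩ :=
      C.ke_all x k₃ (si_of_regGe C.al_lt C.al_pos k₄ (k₃.trans_lt hsk) hx ha k₁)
    exact ⟨⟨i, hi⟩, rfl⟩
  · rintro ⟨⟨i, hi⟩, rfl⟩
    have hx := hke i hi
    have hS := C.ke_si i hi
    have hI := hS.inac
    have hle := C.ke_le i hi
    refine ⟨Gen.regAt_iff.2 ⟨?_, Gen.freg_ne hx hI.omega_lt, ?_⟩, (Gen.o_leq_iff hx hs).2 hle⟩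
    · exact regGe_of_si C.al_lt g.top
        (freg_intv (inR_scope (⊤ : C.Po).hr).2.2 (by gcongr))
        (zero_le.trans_lt hI.omega_lt) hx ha hS
    · obtain ⟨b, hb, hb'⟩ := hI.bound ((hi.trans C.ga_lt).trans_le (freg_omega1 hI)) C.ke
        fun j hj => C.ke_mono j i hj hi
      refine Gen.freg_not_lim C.al_lt ha hx (max_lt hb hI.omega_lt) fun g' k₁ z k₂ k₃ k₄ k₅ => ?_
      have k₆ : z ≤ C.s := k₃.le.trans hle
      obtain ⟨j, hj, rfl⟩ := C.ke_all z k₆ (si_of_regGe C.al_lt C.al_pos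
        ((le_max_right _ _).trans_lt k₂) (k₆.trans_lt hsk) k₄ k₁ k₅)
      have := hb' j ((freg_ke_lt hj hi).1 k₃)
      have k₇ := (le_max_left _ _).trans_lt k₂
      order

end Ctx

end Pool.Agent.MP_85ce7b_lc
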