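import Pool.Agent.MP_85ce7b_lc.L.TLow

namespace Pool.Agent.MP_85ce7b_lc

open Pool.Agent.MP_c6cf52_lc

namespace Gen

variable {P : Type 2} [Sz P] [Preorder P] [OrderTop P] [Tame P] {g : Gen P}

theorem TA_int {B n x c c' : g.M} (hn : IsOrd g.E n) (hx : g.E x n) (hc : IsInt g.E c B n)
    (hc' : IsInt g.E c' B x) : IsInt g.E c' c x := fun u => (hc' u).trans
  ⟨fun e => ⟨(hc u).2 ⟨e.1, lt_lt hn e.2 hx⟩, e.2⟩, fun e => ⟨((hc u).1 e.1).1, e.2⟩⟩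

theorem TA_card {B n c e t : g.M} (hn : IsCard g.E n) (hc : IsInt g.E c B n) (h : En g e c t)
    (heq : ∀ x Y, g.E x B → g.E x n → IsInt g.E Y B x → EqC g.E Y c → EqC g.E x n) :
    IsCard g.E t := by
  refine isCard_of_not_eqC h.ord fun i hi he => ?_
  obtain ⟨x, hx, hix⟩ := fun_ex h.fn hi
  obtain ⟨x₁, x₂⟩ := (hc x).1 hx
  obtain ⟨Y, hY⟩ := exists_int B x
  obtain ⟨f, hf⟩ := en_of_otp (isOrd_of_E h.ord hi) (h.init hix (TA_int hn.1 x₂ hc hY))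
  exact hn.2 x x₂ (EqC.ge (heq x Y x₁ x₂ hY (eqC_trans (eqC_symm hf.eqC) (eqC_trans he h.eqC))))

theorem TA_lt {B n n' c c' e e' t t' : g.M} (hn : IsOrd g.E n') (hl : g.E n n') (hB : g.E n B)
    (hc : IsInt g.E c B n) (hc' : IsInt g.E c' B n') (h : En g e c t) (h' : En g e' c' t') :
    g.E t t' := by
  obtain ⟨i, hi⟩ := h'.onto n ((hc' n).2 ⟨hB, hl⟩)
  have hit := (fun_mem h'.fn hi).1
  rwa [otp_uniq h.ord (isOrd_of_E h'.ord hit) h.otp (h'.init hi (TA_int hn hl hc' hc))]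

theorem TA_core {α γ : Ordinal.{1}} {k s B n₀ n₁ n₂ n₃ R : g.M} (F : g.Facts α γ k s)
    (hB : Lt g.E B s) (l₁ : g.E n₀ n₁) (l₂ : g.E n₁ n₂) (l₃ : g.E n₂ n₃) (k₁ : IsCard g.E n₁)
    (k₂ : IsCard g.E n₂) (k₃ : IsCard g.E n₃) (b₀ : g.E n₀ B) (b₁ : g.E n₁ B) (b₂ : g.E n₂ B)
    (b₃ : g.E n₃ B)
    (heq : ∀ x n Y c, g.E x B → g.E n B → Leq g.E n n₃ → g.E x n → IsInt g.E Y B x →
      IsInt g.E c B n → EqC g.E Y c → EqC g.E x n)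
    (hsep : ∀ x y, g.E x B → g.E y B → g.E x n₃ → g.E y n₃ → x ≠ y →
      ∃ z, g.E z B ∧ g.E z n₀ ∧ ¬ (App g.E R x z ↔ App g.E R y z))
    (hup : ∀ x, g.E x B → g.E x n₀ → ∃ z, g.E z B ∧ g.E x z ∧ g.E z n₀)
    (hne : ∃ z, g.E z B ∧ g.E z n₀) : False := by
  have o₀ := isOrd_of_E k₁.1 l₁
  have en : ∀ n, IsOrd g.E n → ∃ c e t, IsInt g.E c B n ∧ En g e c t := fun n hn => by
    obtain ⟨c, hc⟩ := exists_int B n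
    obtain ⟨e, t, h⟩ := exists_en (c := c) fun x hx => isOrd_of_E hn ((hc x).1 hx).2
    exact ⟨c, e, t, hc, h⟩
  obtain ⟨c₀, e₀, t₀, i₀, h₀⟩ := en n₀ o₀
  obtain ⟨c₁, e₁, t₁, i₁, h₁⟩ := en n₁ k₁.1
  obtain ⟨c₂, e₂, t₂, i₂, h₂⟩ := en n₂ k₂.1
  obtain ⟨c₃, e₃, t₃, i₃, h₃⟩ := en n₃ k₃.1
  have d₁ := TA_card k₁ i₁ h₁ fun x Y a b c =>
    heq x n₁ Y c₁ a b₁ (Or.inl (lt_lt k₃.1 l₂ l₃)) b c i₁
  have d₂ := TA_card k₂ i₂ h₂ fun x Y a b c => heq x n₂ Y c₂ a b₂ (Or.inl l₃) b c i₂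
  have d₃ := TA_card k₃ i₃ h₃ fun x Y a b c => heq x n₃ Y c₃ a b₃ (leq_refl _) b c i₃
  have m₁ := TA_lt k₁.1 l₁ b₀ i₀ i₁ h₀ h₁
  have m₂ := TA_lt k₂.1 l₂ b₁ i₁ i₂ h₁ h₂
  have m₃ := TA_lt k₃.1 l₃ b₂ i₂ i₃ h₂ h₃
  have ho : Leq g.E g.om t₀ := by
    refine om_leq h₀.ord ?_ fun i hi => ?_
    · obtain ⟨z, hz⟩ := hne
      obtain ⟨i, hi⟩ := h₀.onto z ((i₀ z).2 hz)
      exact ⟨i, (fun_mem h₀.fn hi).1⟩
    · obtain ⟨x, hx, hix⟩ := fun_ex h₀.fn hi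
      obtain ⟨z, z₁, z₂, z₃⟩ := hup x ((i₀ x).1 hx).1 ((i₀ x).1 hx).2
      obtain ⟨j, hj⟩ := h₀.onto z ((i₀ z).2 ⟨z₁, z₃⟩)
      exact ⟨j, (fun_mem h₀.fn hj).1, (h₀.lt_iff hix hj).1 z₂⟩
  obtain ⟨m, hm, hcm⟩ := exists_card c₀
  have hmt : Leq g.E m t₀ := card_leq hm h₀.ord (leC_trans (EqC.ge hcm) (EqC.ge h₀.eqC))
  have hom : Leq g.E g.om m := by
    refine leq_of_not_lt isOrd_om hm.1 fun h => ?_
    have a₁ : LeC g.E g.om m := leC_trans (leC_of_sub (sub_of_leq h₀.ord ho))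
      (leC_trans (EqC.le h₀.eqC) (EqC.le hcm))
    exact isCard_om.2 m h a₁
  have os := isOrd_of_E F.k_ord F.s_k
  have hms : g.E m s := by
    obtain ⟨u, hu, hBu⟩ := lt_iff.1 hB
    exact leq_lt os (card_leq hm (isOrd_of_E os hu) (leC_trans (EqC.ge hcm)
      (leC_trans (leC_of_sub fun x hx => ((i₀ x).1 hx).1) hBu))) hu
  obtain ⟨b, D, hb, hD, hn⟩ := F.gch m hms hm ((inf_iff hm.1).2 hom)
  obtain ⟨h, hh, hh'⟩ := eqC_symm hcm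
  refine hn t₁ t₂ t₃ d₁ d₂ d₃ (leq_lt h₁.ord hmt m₁) m₂ m₃ (card_leq d₃ hb ?_)
  refine leC_of_rel (Q := fun i j => ∃ x, App g.E e₃ i x ∧ ∀ u, g.E u m →
    (App g.E D j u ↔ ∃ z, App g.E h u z ∧ App g.E R x z)) (by fun_prop) (fun i hi => ?_) ?_
  · obtain ⟨x, -, hx⟩ := fun_ex h₃.fn hi
    obtain ⟨S, hS⟩ := tm_sep (Q := fun u => ∃ z, App g.E h u z ∧ App g.E R x z) (by fun_prop) m
    obtain ⟨j, hj, H⟩ := hD S fun u hu => ((hS u).1 hu).1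
    exact ⟨j, hj, x, hx, fun u hu => (H u hu).trans ((hS u).trans (and_iff_right hu))⟩
  · rintro i i' j - - ⟨x, hx, H⟩ ⟨y, hy, H'⟩
    obtain ⟨x₁, x₂⟩ := (i₃ x).1 (fun_mem h₃.fn hx).2
    obtain ⟨y₁, y₂⟩ := (i₃ y).1 (fun_mem h₃.fn hy).2
    by_cases e : x = y
    · exact h₃.inj hx (e ▸ hy)
    obtain ⟨z, z₁, z₂, z₃⟩ := hsep x y x₁ y₁ x₂ y₂ e
    obtain ⟨u, hu⟩ := hh' z ((i₀ z).2 ⟨z₁, z₂⟩)
    have a := (H u (fun_mem hh.1 hu).1).symm.trans (H' u (fun_mem hh.1 hu).1)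
    refine absurd ⟨fun r => ?_, fun r => ?_⟩ z₃
    · obtain ⟨z', a₁, a₂⟩ := a.1 ⟨z, hu, r⟩
      exact fun_uniq hh.1 a₁ hu ▸ a₂
    · obtain ⟨z', a₁, a₂⟩ := a.2 ⟨z, hu, r⟩
      exact fun_uniq hh.1 a₁ hu ▸ a₂

theorem Facts.not_works_low {α γ : Ordinal.{1}} {k s m : g.M} (F : g.Facts α γ k s) (q : Bool)
    (hm : IsCard g.E m) (hi : Inf g.E m) (hs : Leq g.E m s) : ¬ Works g.E α q m := by
  intro hW
  obtain ⟨n₀, n₁, n₂, n₃, R, a₁, a₂, l₁, l₂, l₃, k₁, k₂, k₃, hR⟩ := F.fail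
  have os := isOrd_of_E F.k_ord F.s_k
  obtain ⟨B, hB, H⟩ := exists_lb (L := g.nat 8) (A := sc n₃)
    (S := fun r x y z => (r = g.nat 0 ∧ g.E z x) ∨ (r = g.nat 1 ∧ z = n₀) ∨
      (r = g.nat 2 ∧ z = n₁) ∨ (r = g.nat 3 ∧ z = n₂) ∨ (r = g.nat 4 ∧ z = n₃) ∨
      (r = g.nat 5 ∧ g.E z n₀ ∧ ¬ (App g.E R x z ↔ App g.E R y z)) ∨
      (r = g.nat 6 ∧ g.E x z ∧ g.E z n₀) ∨ (r = g.nat 7 ∧ g.E z n₀))
    (by fun_prop) ⟨n₃, lt_sc n₃⟩ hW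
    (lt_iff.2 ⟨_, lt_leq hm.1 (nat_om 8) ((inf_iff hm.1).1 hi), leC_refl _⟩)
  have p₂ : g.E n₂ (sc n₃) := E_sc.2 (Or.inl l₃)
  have p₁ : g.E n₁ (sc n₃) := lt_lt (isOrd_sc k₃.1) l₂ p₂
  have p₀ : g.E n₀ (sc n₃) := lt_lt (isOrd_sc k₃.1) l₁ p₁
  have q₀ : ∀ z, g.E z n₀ → g.E z (sc n₃) := fun z hz => lt_lt (isOrd_sc k₃.1) hz p₀
  obtain ⟨w, hw⟩ := H.ne
  have c₀ := H.eqc (g.nat 0)
  have c₁ := H.cl (g.nat 1) w w (nat_lt.2 (by omega)) hw hw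
  have c₂ := H.cl (g.nat 2) w w (nat_lt.2 (by omega)) hw hw
  have c₃ := H.cl (g.nat 3) w w (nat_lt.2 (by omega)) hw hw
  have c₄ := H.cl (g.nat 4) w w (nat_lt.2 (by omega)) hw hw
  have c₅ := fun x y => H.cl (g.nat 5) x y (nat_lt.2 (by omega))
  have c₆ := fun x => H.cl (g.nat 6) x x (nat_lt.2 (by omega))
  have c₇ := H.cl (g.nat 7) w w (nat_lt.2 (by omega)) hw hw
  simp only [nat_inj.eq_iff, Ext1, true_and, false_and, or_false, false_or, exists_eq_right,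
    OfNat.ofNat_ne_zero, OfNat.ofNat_ne_one, OfNat.zero_ne_ofNat, OfNat.one_ne_ofNat,
    Nat.reduceEqDiff, one_ne_zero, zero_ne_one] at c₀ c₁ c₂ c₃ c₄ c₅ c₆ c₇
  obtain ⟨u, hu, hBu⟩ := lt_iff.1 hB
  refine TA_core (R := R) F (lt_iff.2 ⟨u, lt_leq os hu hs, hBu⟩) l₁ l₂ l₃ k₁ k₂ k₃ (c₁ p₀) (c₂ p₁)
    (c₃ p₂) (c₄ (lt_sc n₃)) (fun x n Y c hx hn h₁ h₂ hY hc he => ?_) (fun x y hx hy x₃ y₃ e => ?_)
    (fun x hx x₀ => ?_) (c₇ (a₁.imp fun z hz => ⟨q₀ z hz, hz⟩))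
  · have o := isOrd_sc k₃.1
    have n' := E_sc.2 h₁
    exact (c₀ x n x n Y c (nat_lt.2 (by omega)) hx hn
      (fun z => (and_iff_right_of_imp fun hz => lt_lt o hz (lt_lt o h₂ n')).symm)
      (fun z => (and_iff_right_of_imp fun hz => lt_lt o hz n').symm) hY hc).2 he
  · exact c₅ x y hx hy ((hR x y x₃ y₃ e).imp fun z hz => ⟨q₀ z hz.1, hz⟩)
  · exact c₆ x hx hx ((a₂ x x₀).imp fun z hz => ⟨q₀ z hz.1, hz.2, hz.1⟩)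

end Gen

end Pool.Agent.MP_85ce7b_lc
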