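import Pool.Agent.MP_85ce7b_lc.L.THC

namespace Pool.Agent.MP_85ce7b_lc

open Pool.Agent.MP_c6cf52_lc

namespace Gen

variable {P : Type 2} [Sz P] [Preorder P] [OrderTop P] [Tame P] {g : Gen P}

theorem tcof_field (X : g.M) : ∃ F, ∀ x, g.E x F ↔ App g.E X x x := by
  obtain ⟨U₁, h₁⟩ := weak_union X
  obtain ⟨U₂, h₂⟩ := weak_union U₁
  obtain ⟨F, hF⟩ := tm_sep (Q := fun x => App g.E X x x) (by fun_prop) U₂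
  refine ⟨F, fun x => (hF x).trans ⟨fun k => k.2, fun k => ⟨?_, k⟩⟩⟩
  obtain ⟨p, k₁, k₂⟩ := k
  obtain ⟨s, hs⟩ := exists_upair x x
  exact h₂ x s ((hs x).2 (Or.inl rfl)) (h₁ s p ((k₂ s).2 (Or.inr hs)) k₁)

theorem tcof_id (d : g.M) : ∃ f, IsFun g.E f d d ∧ ∀ a b, App g.E f a b ↔ g.E a d ∧ a = b := by
  obtain ⟨f, h₁, h₂⟩ := exists_fun (A := d) (B := d) (Q := fun a b => a = b) (by fun_prop)
    fun a ha => ⟨a, ha, rfl⟩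
  refine ⟨f, h₁, fun a b => ⟨fun k => ⟨(fun_mem h₁ k).1, h₂ _ _ k⟩, ?_⟩⟩
  rintro ⟨ha, rfl⟩
  obtain ⟨b, -, k⟩ := fun_ex h₁ ha
  exact (h₂ _ _ k).symm ▸ k

theorem tcof_self {O c : g.M} (h : OrdRel g.E O c) : Cofinal g.E c O :=
  ⟨fun s hs => (h s s).2 ⟨hs, hs, leq_refl s⟩, fun x hx => ⟨x, ((h x x).1 hx).1, hx⟩⟩

theorem exists_cof {X : g.M} (h : Lin g.E X) : ∃ l, Cof g.E X l := by
  obtain ⟨F, hF⟩ := tcof_field X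
  obtain ⟨l₀, h₁, h₂⟩ := exists_card F
  obtain ⟨l, ⟨k₁, S, k₂, f, k₃⟩, hmin⟩ := exists_min
    (Q := fun l => IsCard g.E l ∧ ∃ S, Cofinal g.E S X ∧ EqC g.E S l)
    ⟨l₀, h₁, F, ⟨fun s hs => (hF s).1 hs, fun x hx => ⟨x, (hF x).2 hx, hx⟩⟩, h₂⟩
  refine ⟨l, h, k₁, ⟨S, f, k₂, k₃⟩, fun S' hS' => ?_⟩
  obtain ⟨l', e₁, e₂⟩ := exists_card S'
  have e₃ : Leq g.E l l' := leq_of_not_lt k₁.1 e₁.1 fun e => hmin l' e ⟨e₁, S', hS', e₂⟩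
  exact leC_trans (leC_of_sub (sub_of_leq e₁.1 e₃)) (EqC.ge e₂)

theorem cof_uniq {X l l' : g.M} (h : Cof g.E X l) (h' : Cof g.E X l') : l = l' := by
  obtain ⟨-, h₁, ⟨S, f, h₂, h₃⟩, h₄⟩ := h
  obtain ⟨-, k₁, ⟨S', f', k₂, k₃⟩, k₄⟩ := h'
  exact card_eq h₁ k₁ (leC_trans (h₄ S' k₂) ⟨f', k₃.1⟩) (leC_trans (k₄ S h₂) ⟨f, h₃.1⟩)

/-- Fewer than `l` points of an order of infinite cofinality `l` are not cofinal. -/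
theorem cof_above {X l S f i : g.M} (h : Cof g.E X l) (hi : Inf g.E l) (hS : Cofinal g.E S X)
    (hf : Bij g.E f S l) (hil : g.E i l) :
    ∃ x, App g.E X x x ∧ ∀ s j, App g.E f s j → Leq g.E j i → ¬ App g.E X x s := by
  by_contra H
  obtain ⟨T, hT⟩ := tm_sep (Q := fun s => ∃ j, App g.E f s j ∧ Leq g.E j i) (by fun_prop) S
  have hc : Cofinal g.E T X := by
    refine ⟨fun s hs => hS.1 s ((hT s).1 hs).1, fun x hx => ?_⟩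
    by_contra e
    exact H ⟨x, hx, fun s j k₁ k₂ k₃ =>
      e ⟨s, (hT s).2 ⟨(fun_mem hf.1.1 k₁).1, j, k₁, k₂⟩, k₃⟩⟩
  have hle : LeC g.E T (sc i) :=
    leC_of_rel (Q := fun s j => App g.E f s j) (by fun_prop)
      (fun s hs => let ⟨j, k₁, k₂⟩ := ((hT s).1 hs).2; ⟨j, E_sc.2 k₂, k₁⟩)
      fun _ _ _ _ _ k k' => hf.1.2 _ _ _ k k'
  exact h.2.1.2 _ (sc_lt_card h.2.1 hi hil) (leC_trans (h.2.2.2 T hc) hle)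

theorem cof_reg {X l : g.M} (h : Cof g.E X l) (hi : Inf g.E l) : IsReg g.E l := by
  refine ⟨h.2.1, hi, fun S' h₁ h₂ => ?_⟩
  obtain ⟨S, f, hS, hf⟩ := h.2.2.1
  obtain ⟨F, B, k₁, k₂⟩ := exists_fun' (A := S')
    (Q := fun i x => App g.E X x x ∧ ∀ s j, App g.E f s j → Leq g.E j i → ¬ App g.E X x s)
    (by fun_prop) fun i hi' => cof_above h hi hS hf (h₁ i hi')
  obtain ⟨C, hC⟩ := tm_sep (Q := fun x => ∃ i, App g.E F i x) (by fun_prop) B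
  have hc : Cofinal g.E C X := by
    refine ⟨fun x hx => ?_, fun x hx => ?_⟩
    · obtain ⟨i, k⟩ := ((hC x).1 hx).2
      exact (k₂ _ _ k).1
    · obtain ⟨s, e₁, e₂⟩ := hS.2 x hx
      obtain ⟨j, e₃, e₄⟩ := fun_ex hf.1.1 e₁
      obtain ⟨i, e₅, e₆⟩ := h₂ j e₃
      obtain ⟨y, e₇, e₈⟩ := fun_ex k₁ e₅
      have e₉ := k₂ _ _ e₈
      exact ⟨y, (hC y).2 ⟨e₇, i, e₈⟩, h.1.2.2.1 _ _ _ e₂
        ((h.1.2.2.2 y s e₉.1 (hS.1 s e₁)).resolve_left (e₉.2 s j e₄ e₆))⟩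
  have hle : LeC g.E C S' :=
    leC_of_onto (Q := fun i x => App g.E F i x) (by fun_prop)
      (fun x hx => let ⟨i, k⟩ := ((hC x).1 hx).2; ⟨i, (fun_mem k₁ k).1, k⟩)
      fun _ _ _ k k' => fun_uniq k₁ k k'
  exact leC_trans (h.2.2.2 C hc) hle

theorem lin_ordRel {O c : g.M} (hc : ∀ x, g.E x c → IsOrd g.E x) (h : OrdRel g.E O c) :
    Lin g.E O := by
  refine ⟨fun x y k => ?_, fun x y k k' => ?_, fun x y z k k' => ?_, fun x y k k' => ?_⟩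
  · obtain ⟨k₁, k₂, -⟩ := (h x y).1 k
    exact ⟨(h x x).2 ⟨k₁, k₁, leq_refl x⟩, (h y y).2 ⟨k₂, k₂, leq_refl y⟩⟩
  · exact leq_antisymm ((h x y).1 k).2.2 ((h y x).1 k').2.2
  · obtain ⟨k₁, -, k₃⟩ := (h x y).1 k
    obtain ⟨-, k₅, k₆⟩ := (h y z).1 k'
    exact (h x z).2 ⟨k₁, k₅, leq_trans (hc z k₅) k₃ k₆⟩
  · have k₁ := ((h x x).1 k).1
    have k₂ := ((h y y).1 k').1
    rcases ord_tri (hc x k₁) (hc y k₂) with e | e | e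
    · exact Or.inl ((h x y).2 ⟨k₁, k₂, Or.inl e⟩)
    · exact Or.inl ((h x y).2 ⟨k₁, k₂, Or.inr e⟩)
    · exact Or.inr ((h y x).2 ⟨k₂, k₁, Or.inl e⟩)

theorem cof_ordRel {O l : g.M} (hl : IsReg g.E l) (h : OrdRel g.E O l) : Cof g.E O l := by
  obtain ⟨f, hf⟩ := eqC_refl l
  refine ⟨lin_ordRel (fun x hx => isOrd_of_E hl.1.1 hx) h, hl.1, ⟨l, f, tcof_self h, hf⟩,
    fun S hS => hl.2.2 S (fun s hs => ((h s s).1 (hS.1 s hs)).1) fun x hx => ?_⟩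
  obtain ⟨s, k₁, k₂⟩ := hS.2 x ((h x x).2 ⟨hx, hx, leq_refl x⟩)
  exact ⟨s, k₁, ((h x s).1 k₂).2.2⟩

theorem cof_ordRel_leq {O x l : g.M} (hx : IsOrd g.E x) (h : OrdRel g.E O x)
    (hl : Cof g.E O l) : Leq g.E l x := by
  exact card_leq hl.2.1 hx (hl.2.2.2 x (tcof_self h))

theorem otpI_ordRel {O d : g.M} (hd : IsOrd g.E d) (h : OrdRel g.E O d) : OtpI g.E O d := by
  have _ := hd
  obtain ⟨f, h₁, h₂⟩ := tcof_id d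
  refine ⟨f, d, ⟨h₁, fun a a' b k k' => ((h₂ _ _).1 k).2.trans ((h₂ _ _).1 k').2.symm⟩,
    fun x y => (h x y).trans ⟨fun k => ?_, ?_⟩⟩
  · exact ⟨x, y, k.2.2, (h₂ _ _).2 ⟨k.1, rfl⟩, (h₂ _ _).2 ⟨k.2.1, rfl⟩⟩
  · rintro ⟨i, j, k₁, k₂, k₃⟩
    obtain ⟨k₄, rfl⟩ := (h₂ _ _).1 k₂
    obtain ⟨k₅, rfl⟩ := (h₂ _ _).1 k₃
    exact ⟨k₄, k₅, k₁⟩

theorem otpI_uniq {Z d d' : g.M} (hd : IsOrd g.E d) (hd' : IsOrd g.E d') (h : OtpI g.E Z d)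
    (h' : OtpI g.E Z d') : d = d' := by
  obtain ⟨f, Y, hf, hZ⟩ := h
  obtain ⟨f', Y', hf', hZ'⟩ := h'
  obtain ⟨H, h₁, h₂⟩ := exists_fun (A := d) (B := d')
    (Q := fun i i' => ∃ x, App g.E f i x ∧ App g.E f' i' x) (by fun_prop) fun i hi => by
      obtain ⟨x, -, k⟩ := fun_ex hf.1 hi
      obtain ⟨i', -, -, k', -⟩ := (hZ' x x).1 ((hZ x x).2 ⟨i, i, leq_refl i, k, k⟩)
      exact ⟨i', (fun_mem hf'.1 k').1, x, k, k'⟩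
  have e₁ : En g H d' d := by
    refine ⟨hd, h₁, fun i' hi' => ?_, fun a a' b b' k k' e => ?_⟩
    · obtain ⟨x, -, k'⟩ := fun_ex hf'.1 hi'
      obtain ⟨i, -, -, k, -⟩ := (hZ x x).1 ((hZ' x x).2 ⟨i', i', leq_refl i', k', k'⟩)
      obtain ⟨b, -, k₁⟩ := fun_ex h₁ (fun_mem hf.1 k).1
      obtain ⟨x', k₂, k₃⟩ := h₂ _ _ k₁
      obtain rfl := fun_uniq hf.1 k k₂
      exact ⟨i, hf'.2 _ _ _ k₃ k' ▸ k₁⟩
    · obtain ⟨x, k₁, k₂⟩ := h₂ _ _ k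
      obtain ⟨x', k₃, k₄⟩ := h₂ _ _ k'
      obtain ⟨i, j, k₅, k₆, k₇⟩ := (hZ' x x').1 ((hZ x x').2 ⟨a, a', Or.inl e, k₁, k₃⟩)
      obtain rfl := hf'.2 _ _ _ k₆ k₂
      obtain rfl := hf'.2 _ _ _ k₇ k₄
      refine k₅.resolve_right fun e' => ?_
      subst e'
      obtain rfl := fun_uniq hf'.1 k₂ k₄
      obtain rfl := hf.2 _ _ _ k₁ k₃
      exact E_irrefl _ e
  obtain ⟨I, k₁, k₂⟩ := tcof_id d'
  have e₂ : En g I d' d' := by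
    refine ⟨hd', k₁, fun b hb => ⟨b, (k₂ _ _).2 ⟨hb, rfl⟩⟩, fun a a' b b' k k' e => ?_⟩
    obtain ⟨-, rfl⟩ := (k₂ _ _).1 k
    obtain ⟨-, rfl⟩ := (k₂ _ _).1 k'
    exact e
  exact e₁.uniq e₂

end Gen

end Pool.Agent.MP_85ce7b_lc
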