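import Pool.Agent.MP_85ce7b_lc.L.TLow
import Pool.Agent.MP_85ce7b_lc.L.TCof

namespace Pool.Agent.MP_85ce7b_lc

open Pool.Agent.MP_c6cf52_lc

namespace Gen

variable {P : Type 2} [Sz P] [Preorder P] [OrderTop P] [Tame P] {g : Gen P}

/-- The relations of the structure used in the middle range. -/
def tbS (G m r x y z : g.M) : Prop :=
  (¬ g.E r g.om ∧ z = r) ∨ (r = g.nat 0 ∧ g.E z x) ∨
    (r = g.nat 1 ∧ g.E y x ∧ g.E z x ∧ Leq g.E y z) ∨ (r = g.nat 2 ∧ z = m) ∨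
    (r = g.nat 3 ∧ z = g.nat 0) ∨ (r = g.nat 4 ∧ z = sc x) ∨
    (r = g.nat 5 ∧ ∃ f, App g.E G x (pr z f)) ∨
    (r = g.nat 6 ∧ g.E z x ∧ ∃ c f, App g.E G x (pr c f) ∧ App g.E f y z) ∨
    (r = g.nat 7 ∧ g.E z x ∧ Cl g.E (fun w => RegGeI g.E y w) z ∧
      ∀ u, g.E z u → g.E u x → ¬ Cl g.E (fun w => RegGeI g.E y w) u)

theorem tbS_tm (G m : g.M) :
    g.Tm (fun z : g.M × g.M × g.M × g.M => tbS G m z.1 z.2.1 z.2.2.1 z.2.2.2) := by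
  unfold tbS
  fun_prop

theorem tbS_tm2 (G m r x : g.M) : g.Tm (fun z : g.M × g.M => tbS G m r x z.1 z.2) := by
  unfold tbS
  fun_prop

section

variable {G m r x y z : g.M}

theorem tbS_big (h : ¬ g.E r g.om) : tbS G m r x y z ↔ z = r := by
  have k : ∀ n, r ≠ g.nat n := fun n e => h (e ▸ nat_om n)
  simp [tbS, h, k]

theorem tbS0 : tbS G m (g.nat 0) x y z ↔ g.E z x := by simp [tbS, nat_om, nat_inj.eq_iff]

theorem tbS1 : tbS G m (g.nat 1) x y z ↔ g.E y x ∧ g.E z x ∧ Leq g.E y z := by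
  simp [tbS, nat_om, nat_inj.eq_iff]

theorem tbS2 : tbS G m (g.nat 2) x y z ↔ z = m := by simp [tbS, nat_om, nat_inj.eq_iff]

theorem tbS3 : tbS G m (g.nat 3) x y z ↔ z = g.nat 0 := by simp [tbS, nat_om, nat_inj.eq_iff]

theorem tbS4 : tbS G m (g.nat 4) x y z ↔ z = sc x := by simp [tbS, nat_om, nat_inj.eq_iff]

theorem tbS5 : tbS G m (g.nat 5) x y z ↔ ∃ f, App g.E G x (pr z f) := by
  simp [tbS, nat_om, nat_inj.eq_iff]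

theorem tbS6 : tbS G m (g.nat 6) x y z ↔
    g.E z x ∧ ∃ c f, App g.E G x (pr c f) ∧ App g.E f y z := by
  simp [tbS, nat_om, nat_inj.eq_iff]

theorem tbS7 : tbS G m (g.nat 7) x y z ↔ g.E z x ∧ Cl g.E (fun w => RegGeI g.E y w) z ∧
    ∀ u, g.E z u → g.E u x → ¬ Cl g.E (fun w => RegGeI g.E y w) u := by
  simp [tbS, nat_om, nat_inj.eq_iff]

theorem tb_ext1 {D c : g.M} (h : IsInt g.E c D x) : Ext1 g.E D (tbS G m (g.nat 0) x x) c :=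
  fun z => (h z).trans (and_congr_right fun _ => tbS0.symm)

theorem tb_ext2 {D c : g.M} (h : IsInt g.E c D x) :
    ∃ X, Ext2 g.E D (tbS G m (g.nat 1) x) X ∧ OrdRel g.E X c := by
  obtain ⟨X, hX⟩ := exists_ext2 D (tbS_tm2 G m (g.nat 1) x)
  refine ⟨X, hX, fun u v => ?_⟩
  rw [ext2_app hX, tbS1, h u, h v]
  exact ⟨fun ⟨a, b, c, d, e⟩ => ⟨⟨a, c⟩, ⟨b, d⟩, e⟩, fun ⟨⟨a, c⟩, ⟨b, d⟩, e⟩ => ⟨a, b, c, d, e⟩⟩

theorem tb_int {D : g.M} (h : Sub g.E x D) : IsInt g.E x D x :=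
  fun z => ⟨fun k => ⟨h z k, k⟩, fun k => k.2⟩

end

theorem Facts.not_works_mid {α γ : Ordinal.{1}} {k s m : g.M} (F : g.Facts α γ k s) (q : Bool)
    (hm : IsCard g.E m) (hs : g.E s m) (hk : g.E m k) : ¬ Works g.E α q m := by
  intro hW
  have os := isOrd_of_E hm.1 hs
  obtain ⟨a, as, ha'⟩ := F.al
  have ha : Rep g.E a α := ⟨isOrd_of_E os as, ha'⟩
  have im : Inf g.E m := (inf_iff hm.1).2 (Or.inl (lt_lt hm.1 F.om_s hs))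
  obtain ⟨G, G', hG, hG'⟩ := exists_fun' (A := sc m) (Q := fun x y => Inf g.E x → ¬ IsReg g.E x →
    ∃ c f, y = pr c f ∧ g.E c x ∧ Fnl g.E f ∧ CofMap g.E f c x)
    (by unfold Fnl CofMap; fun_prop) (fun x hx => by
      by_cases h : Inf g.E x ∧ ¬ IsReg g.E x
      · obtain ⟨c, f, h'⟩ := cof_of_not_reg (isOrd_of_leq hm.1 (E_sc.1 hx)) h.1 h.2
        exact ⟨pr c f, fun _ _ => ⟨c, f, rfl, h'⟩⟩
      · exact ⟨x, fun h₁ h₂ => absurd ⟨h₁, h₂⟩ h⟩)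
  obtain ⟨B, hB, lb⟩ := exists_lb (α := α) (q := q) (L := sc s) (A := sc m) (tbS_tm G m)
    ⟨m, lt_sc m⟩ hW (lt_iff.2 ⟨_, sc_lt_card hm im hs, leC_refl _⟩)
  have nL : ∀ n, g.E (g.nat n) (sc s) := fun n => E_sc.2 (Or.inl (lt_lt os (nat_om n) F.om_s))
  obtain ⟨x₀, hx₀⟩ := lb.ne
  have mB : g.E m B := by
    obtain ⟨z, h₁, h₂⟩ := lb.cl _ x₀ x₀ (nL 2) hx₀ hx₀ ⟨m, lt_sc m, tbS2.2 rfl⟩
    exact tbS2.1 h₂ ▸ h₁
  have nB : ∀ n, g.E (g.nat n) B := fun n => by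
    induction n with
    | zero =>
      obtain ⟨z, h₁, h₂⟩ := lb.cl _ x₀ x₀ (nL 3) hx₀ hx₀ ⟨_, E_sc.2 (zero_leq hm.1), tbS3.2 rfl⟩
      exact tbS3.1 h₂ ▸ h₁
    | succ n ih =>
      obtain ⟨z, h₁, h₂⟩ := lb.cl _ _ _ (nL 4) ih ih ⟨_, E_sc.2 (sc_leq hm.1
        (leq_lt hm.1 (E_sc.1 (nL n)) hs)), tbS4.2 rfl⟩
      rw [← sc_nat]
      exact tbS4.1 h₂ ▸ h₁
  have sB : ∀ x, Leq g.E x s → g.E x B := fun x hx => by
    by_cases h : g.E x g.om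
    · obtain ⟨n, rfl⟩ := E_om.1 h
      exact nB n
    · obtain ⟨z, h₁, h₂⟩ := lb.cl x x₀ x₀ (E_sc.2 hx) hx₀ hx₀
        ⟨x, E_sc.2 (Or.inl (leq_lt hm.1 hx hs)), (tbS_big h).2 rfl⟩
      exact (tbS_big h).1 h₂ ▸ h₁
  obtain ⟨la, ⟨laB, nla⟩, hmin'⟩ := exists_min (Q := fun x => g.E x B ∧ ¬ Sub g.E x B)
    ⟨m, mB, fun h => not_lt_of_leC hm (leC_of_sub h) hB⟩
  have hmin : ∀ y, g.E y la → g.E y B → Sub g.E y B := fun y h₁ h₂ => by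
    by_contra h
    exact hmin' y h₁ ⟨h₂, h⟩
  have lam : Leq g.E la m := E_sc.1 (lb.sub la laB)
  have ola := isOrd_of_leq hm.1 lam
  have laA : Sub g.E la (sc m) := fun x hx => E_sc.2 (Or.inl (lt_leq hm.1 hx lam))
  have sla : g.E s la := lt_of_not_leq os ola fun h =>
    nla fun x hx => sB x (Or.inl (lt_leq os hx h))
  obtain ⟨c₀, hc₀⟩ := exists_int B la
  have oc : IsOrd g.E c₀ := isOrd_of_trans (fun x hx => isOrd_of_E ola ((hc₀ x).1 hx).2)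
    fun x y hx hy => (hc₀ y).2 ⟨hmin x ((hc₀ x).1 hx).2 ((hc₀ x).1 hx).1 y hy,
      lt_lt ola hy ((hc₀ x).1 hx).2⟩
  have cla : g.E c₀ la := (leq_of_sub oc ola fun x hx => ((hc₀ x).1 hx).2).resolve_right
    fun e => nla fun x hx => ((hc₀ x).1 (e ▸ hx)).1
  have rla : IsReg g.E la := by
    by_contra h
    obtain ⟨p, -, hp⟩ := fun_ex hG (E_sc.2 lam)
    obtain ⟨c, f, rfl, h₁, h₂, h₃⟩ := hG' _ _ hp
      ((inf_iff ola).2 (Or.inl (lt_lt ola F.om_s sla))) h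
    have cB : g.E c B := by
      obtain ⟨z, k₁, k₂⟩ := lb.cl _ la la (nL 5) laB laB ⟨c, laA c h₁, tbS5.2 ⟨f, hp⟩⟩
      obtain ⟨f', k₃⟩ := tbS5.1 k₂
      exact (pr_inj.1 (fun_uniq hG k₃ hp)).1 ▸ k₁
    refine nla fun x hx => ?_
    obtain ⟨i, y, k₁, k₂, k₃, k₄⟩ := h₃ x hx
    obtain ⟨z, j₁, j₂⟩ := lb.cl _ la i (nL 6) laB (hmin c h₁ cB i k₁)
      ⟨y, laA y k₂, tbS6.2 ⟨k₂, c, f, hp, k₃⟩⟩
    obtain ⟨-, c', f', j₃, j₄⟩ := tbS6.1 j₂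
    obtain ⟨-, rfl⟩ := pr_inj.1 (fun_uniq hG j₃ hp)
    obtain rfl := h₂ _ _ _ j₄ k₃
    exact k₄.elim (hmin z k₂ j₁ x) fun e => e ▸ j₁
  obtain ⟨δ, hδ, rat⟩ := exists_regAt rla (F.gap la sla (leq_lt F.k_ord lam hk))
  obtain ⟨d, da, hd⟩ := rep_lt ha hδ
  have ds : g.E d s := lt_lt os da as
  have dB : g.E d B := sB d (Or.inl ds)
  have dla : g.E d la := lt_lt ola ds sla
  have ratI := (regAtI_iff hd).2 rat
  have key : ¬ RegAtI g.E d c₀ := by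
    obtain ⟨-, y, h₁, h₂⟩ := ratI
    obtain ⟨z, k₁, k₂⟩ := lb.cl _ la d (nL 7) laB dB ⟨y, laA y h₁, tbS7.2 ⟨h₁, h₂⟩⟩
    obtain ⟨k₃, -, k₄⟩ := tbS7.1 k₂
    exact fun h => k₄ c₀ ((hc₀ z).2 ⟨k₁, k₃⟩) cla h.1
  have inA : ∀ x, g.E x la → IsInt g.E x (sc m) x := fun x hx =>
    tb_int fun y hy => laA y (lt_lt ola hy hx)
  obtain ⟨Z, hZ, oZ⟩ := tb_ext2 (G := G) (m := m) (inA d dla)
  obtain ⟨W, hW', oW⟩ := tb_ext2 (G := G) (m := m) (tb_int (hmin d dla dB))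
  have uW : ∀ d', g.E d' a → OtpI g.E W d' → d' = d := fun d' h₁ h₂ =>
    otpI_uniq (isOrd_of_E ha.1 h₁) hd.1 h₂ (otpI_ordRel hd.1 oW)
  cases q with
  | false =>
    obtain ⟨l, h₁, d', h₂, h₃, h₄⟩ := (rr_iff ha).1 ((lb.hR rfl _ _ la d la Z c₀ W (nL 0) (nL 1) laB
      dB (tb_ext1 (tb_int laA)) hZ (tb_ext1 hc₀) hW').1
      ((rr_iff ha).2 ⟨la, eqC_refl la, d, da, otpI_ordRel hd.1 oZ, ratI⟩))
    obtain rfl := uW d' h₂ h₃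
    have cc : IsCard g.E c₀ := isCard_of_not_eqC oc fun b hb h => by
      obtain ⟨b₁, b₂⟩ := (hc₀ b).1 hb
      exact rla.1.2 b b₂ (EqC.ge ((lb.eqc _ b la b la b c₀ (nL 0) b₁ laB (tb_ext1 (inA b b₂))
        (tb_ext1 (tb_int laA)) (tb_ext1 (tb_int (hmin b b₂ b₁))) (tb_ext1 hc₀)).2 h))
    obtain rfl := card_eq cc (RegAt.reg ((regAtI_iff hd).1 h₄)).1 (EqC.le h₁) (EqC.ge h₁)
    exact key h₄
  | true =>
    obtain ⟨X, hX, oX⟩ := tb_ext2 (G := G) (m := m) (tb_int laA)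
    obtain ⟨Y, hY, oY⟩ := tb_ext2 (G := G) (m := m) hc₀
    have cX := cof_ordRel rla oX
    obtain ⟨l, h₁, -, d', h₂, h₃, h₄⟩ := (qq_iff ha).1 ((lb.hQ rfl _ la la d X X Z Y Y W (nL 1) laB
      laB dB hX hX hZ hY hY hW').1
      ((qq_iff ha).2 ⟨la, cX, cX, d, da, otpI_ordRel hd.1 oZ, ratI⟩))
    obtain rfl := uW d' h₂ h₃
    rcases cof_ordRel_leq oc oY h₁ with h | rfl
    · obtain ⟨l₁, l₂⟩ := (hc₀ l).1 h
      have rl := RegAt.reg ((regAtI_iff hd).1 h₄)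
      obtain ⟨X', hX', oX'⟩ := tb_ext2 (G := G) (m := m) (inA l l₂)
      obtain ⟨Y', hY', oY'⟩ := tb_ext2 (G := G) (m := m) (tb_int (hmin l l₂ l₁))
      obtain ⟨l', k₁, k₂, -⟩ := (qq_iff ha).1 ((lb.hQ rfl _ la l d' X X' Z Y Y' W (nL 1) laB
        l₁ dB hX hX' hZ hY hY' hW').2
        ((qq_iff ha).2 ⟨l, h₁, cof_ordRel rl oY', d', h₂, h₃, h₄⟩))
      obtain rfl := cof_uniq k₁ cX
      obtain rfl := cof_uniq k₂ (cof_ordRel rl oX')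
      exact E_irrefl _ l₂
    · exact key h₄

end Gen

end Pool.Agent.MP_85ce7b_lc
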