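import Pool.Agent.MP_85ce7b_lc.L.TTr
import Pool.Agent.MP_85ce7b_lc.L.TA
import Pool.Agent.MP_85ce7b_lc.L.TB

namespace Pool.Agent.MP_85ce7b_lc

open Pool.Agent.MP_c6cf52_lc

namespace Gen

variable {P : Type 2} [Sz P] [Preorder P] [OrderTop P] [Tame P] {g : Gen P}

theorem Facts.lst {α γ : Ordinal.{1}} {k s : g.M} (h : g.Facts α γ k s) (q : Bool) :
    LST g.E α q k :=
  ⟨h.k_ge.reg.1, h.k_ge.reg.2.1, h.works q, fun m h₁ h₂ h₃ => by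
    by_cases h₄ : g.E s m
    · exact h.not_works_mid q h₂ h₄ h₁
    · exact h.not_works_low q h₂ h₃ (leq_of_not_lt h₂.1 (isOrd_of_E h.k_ord h.s_k) h₄)⟩

theorem Facts.main {α γ : Ordinal.{1}} {k s : g.M} (h : g.Facts α γ k s) (hα : 0 < α) :
    Nth g.E α γ k ∧ LST g.E α true k ∧ LST g.E α false k := by
  have _ := hα
  have hs := isOrd_of_E h.k_ord h.s_k
  refine ⟨⟨regAt_iff.2 ⟨h.k_ge, fun e => ?_, fun H => ?_⟩, ?_⟩, h.lst _, h.lst _⟩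
  · exact E_asymm h.om_s (e ▸ h.s_k)
  · obtain ⟨z, h₁, h₂, h₃⟩ := H.2 s h.s_k
    exact h.gap z h₂ h₁ h₃
  · obtain ⟨e, h₁, h₂⟩ := h.low
    refine ⟨e, h₁, fun x => Iff.trans (and_congr_right fun hx => ⟨fun hk => ?_, fun hk =>
      leq_lt h.k_ord hk h.s_k⟩) (h₂ x)⟩
    exact leq_of_not_lt (isOrd_of_E h.k_ord hk) hs fun h' => h.gap x h' hk (regAt_iff.1 hx).1

end Gen

end Pool.Agent.MP_85ce7b_lc
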