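import Pool.Agent.MP_85ce7b_lc.L.FCore
import Pool.Agent.MP_85ce7b_lc.L.FReg
import Pool.Agent.MP_85ce7b_lc.L.FGch
import Pool.Agent.MP_85ce7b_lc.L.TMain

namespace Pool.Agent.MP_85ce7b_lc

open Pool.Agent.MP_c6cf52_lc Name Set Cardinal Ordinal Dat

theorem Ctx.model (C : Ctx) : ∃ g : Gen C.Po, g.In C.al ∧ g.In C.ga ∧
    g.Facts C.al C.ga (g.o C.kap) (g.o C.s) := by
  have hs : C.s < C.kap := (Order.lt_add_one_iff.2 le_rfl).trans C.s_lt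
  have hω : ω < C.s := (omega0_lt_omega_one).trans C.omega1_lt_s
  have hcnt : (C.ke '' Iio C.ga).Countable := (Gen.NOrd_count C.ga_lt).image _
  obtain ⟨g, -, -, h⟩ := Gen.exists_gen_o (⊤ : C.Po) ∅
    ({C.kap, C.s, C.al, C.ga} ∪ C.ke '' Iio C.ga) countable_empty
    ((Set.toFinite _).countable.union hcnt) (by
      rintro a (h | ⟨i, hi, rfl⟩)
      · have h₁ := C.al_lt.trans C.omega1_lt_s
        have h₂ := C.ga_lt.trans C.omega1_lt_s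
        rcases h with rfl | rfl | rfl | rfl
        exacts [C.k_lt, hs.trans C.k_lt, (h₁.trans hs).trans C.k_lt, (h₂.trans hs).trans C.k_lt]
      · exact ((C.ke_le i hi).trans_lt hs).trans C.k_lt)
  have hk : g.In C.kap := h _ (by simp)
  have hs' : g.In C.s := h _ (by simp)
  have ha : g.In C.al := h _ (by simp)
  have hg : g.In C.ga := h _ (by simp)
  have hke : ∀ i < C.ga, g.In (C.ke i) := fun i hi => h _ (Or.inr ⟨i, hi, rfl⟩)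
  exact ⟨g, ha, hg, Gen.isOrd_o hk, (Gen.o_lt_iff hs' hk).2 hs,
    g.o_omega ▸ (Gen.o_lt_iff g.in_omega hs').2 hω,
    ⟨g.o C.al, (Gen.o_lt_iff ha hs').2 (C.al_lt.trans C.omega1_lt_s), (Gen.rep_o ha C.al_lt).2⟩,
    Ctx.fact_core hk, Ctx.fact_top hk ha, Ctx.fact_gap hk hs' ha, Ctx.fact_low hs' ha hke,
    Ctx.fact_gch hs', Ctx.fact_fail g⟩

theorem main (κ θ : Cardinal.{1}) (hθ : θ.IsInaccessible) (h₁ : ℵ₀ < κ) (h₂ : κ < θ)
    (sc : ∀ T : Type 1, Cardinal.mk T < θ → SCOn κ T) (α γ : Ordinal.{1}) (hα : 0 < α)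
    (hα' : α < ω₁) (hγ : 0 < γ) (hγ' : γ < ω₁) :
    ∃ (M : Type 3) (E : M → M → Prop), WellFounded E ∧ IsZFC E ∧
      (∃ a c, IsOrd E a ∧ Enum E (fun x => E x a) α ∧ IsOrd E c ∧ Enum E (fun x => E x c) γ) ∧
      ∃ k, Nth E α γ k ∧ LST E α true k ∧ LST E α false k := by
  obtain ⟨C, rfl, rfl⟩ := exists_ctx κ θ hθ h₁ h₂ sc α γ hα hα' hγ hγ'
  obtain ⟨g, ha, hg, h⟩ := C.model
  exact ⟨g.M, g.E, Gen.E_wf, g.isZFC, ⟨_, _, (Gen.rep_o ha hα').1, (Gen.rep_o ha hα').2,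
    (Gen.rep_o hg hγ').1, (Gen.rep_o hg hγ').2⟩, _, h.main hα⟩

end Pool.Agent.MP_85ce7b_lc
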