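import Pool.Agent.MP_85ce7b_lc.L.MDefs

namespace Pool.Agent.MP_85ce7b_lc

open Set Cardinal Ordinal Dat

namespace Ctx

/-- One step of the tower. -/
structure M1St (C : Ctx) {Ex : Type 3} (emb : Od → Ex) (op : Ex → Ex → Ex)
    (G : Ex → C.Po → Ex → Od → Prop) (y : Od) (σ : C.Po) (e : Od → Ex) (y' : Od) (σ' : C.Po)
    (e' : Od → Ex) : Prop where
  lt : (C.B (y + 1)).ord < y'
  pr : PredR y σ' σ
  old : ∀ i < (C.B y).ord, ∃ k < (C.B y').ord, e' k = e i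
  op : ∀ i < (C.B y).ord, ∀ j < (C.B y).ord, ∃ k < (C.B y').ord, e' k = op (e i) (e j)
  emb : ∀ i < (C.B y).ord, ∃ k < (C.B y').ord, e' k = emb i
  red : ∀ i < (C.B y).ord, ∀ ρ ≤ σ', (∃ τ, ∃ a < C.th.ord, G (e i) ρ τ a) →
    ∃ k < (C.B y').ord, ∃ a < y', G (e i) (glue y ρ σ') (e' k) a

theorem m1_step (C : Ctx) {Ex : Type 3} (emb : Od → Ex) (op : Ex → Ex → Ex)
    (G : Ex → C.Po → Ex → Od → Prop) (mono : ∀ x m m' τ a, G x m τ a → m' ≤ m → G x m' τ a)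
    {y : Od} (hy : C.Lev y) (σ : C.Po) (e : Od → Ex) :
    ∃ y' σ' e', C.Lev y' ∧ σ' ∈ C.Low y' ∧ C.M1St emb op G y σ e y' σ' e' := by
  classical
  have hth := C.th_inac.isSuccLimit
  have h₀ : ℵ₀ ≤ lift.{2} (C.B y) := Cardinal.aleph0_le_lift.2 (C.bf.aleph0_le y)
  have hl : Order.IsSuccLimit (C.B y).ord := isSuccLimit_ord (C.bf.aleph0_le y)
  obtain ⟨σ', k₁, k₂, k₃, H⟩ := redx hy (ν := (C.B y).ord) (card_ord _).le
    (fun i m => ∃ τ, ∃ a < C.th.ord, G (e i) m τ a)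
    (fun i p q ⟨τ, a, ha, h⟩ hq => ⟨τ, a, ha, mono _ _ _ _ _ h hq⟩) σ
  have hc : ∀ (i : Od) (s : C.Po), ∃ τ, ∃ a < C.th.ord,
      (∃ τ, ∃ a < C.th.ord, G (e i) (glue y s σ') τ a) → G (e i) (glue y s σ') τ a := by
    intro i s
    by_cases h : ∃ τ, ∃ a < C.th.ord, G (e i) (glue y s σ') τ a
    · obtain ⟨τ, a, ha, h⟩ := h
      exact ⟨τ, a, ha, fun _ => h⟩
    · exact ⟨emb 0, 0, hth.pos, fun h' => absurd h' h⟩
  choose τ a ha hG using hc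
  obtain ⟨g, hg⟩ := exists_enum_of_le (α := Od × Od × Od × C.Po)
    (S := Iio (C.B y).ord ×ˢ Iio (C.B y).ord ×ˢ Iio (C.B y).ord ×ˢ C.Low y) (c := C.B y) (by
      simp only [Cardinal.mk_setProd, Cardinal.mk_Iio_ordinal, card_ord]
      exact Cardinal.mul_le_of_le h₀ le_rfl (Cardinal.mul_le_of_le h₀ le_rfl
        (Cardinal.mul_le_of_le h₀ le_rfl (card_low hy))))
  let F : Od × Od × Od × C.Po → Ex := fun w =>
    if w.1 = 0 then e w.2.1 else if w.1 = 1 then op (e w.2.1) (e w.2.2.1) else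
      if w.1 = 2 then emb w.2.1 else τ w.2.1 w.2.2.2
  obtain ⟨b, hb, hb'⟩ := C.th_inac.bound (C.bf.lt_inac C.th_inac hy.1)
    (fun k => a (g k).2.1 (g k).2.2.2) fun k _ => ha _ _
  obtain ⟨z, hz, hz'⟩ := σ'.ht.supp
  have hy1 : (C.B (y + 1)).ord < C.th.ord := C.bf.lt_inac C.th_inac (hth.add_one_lt hy.1)
  obtain ⟨y', l₁, l₂, l₃⟩ := exists_lev (C := C) (pred_B_lt hy.1)
    (max_lt (max_lt hb hz) hy1)
  have l₄ : (C.B y).ord ≤ (C.B y').ord := ord_le_ord.2 l₂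
  have ht : (⊤ : C.Po) ∈ C.Low y := fun _ h => h.elim
  have n : ∀ m : ℕ, (m : Od) < (C.B y).ord := fun m => hl.natCast_lt m
  have n2 : (2 : Od) ≠ 1 := by exact_mod_cast (show (2 : ℕ) ≠ 1 by decide)
  have n30 : (3 : Od) ≠ 0 := by exact_mod_cast (show (3 : ℕ) ≠ 0 by decide)
  have n31 : (3 : Od) ≠ 1 := by exact_mod_cast (show (3 : ℕ) ≠ 1 by decide)
  refine ⟨y', σ', F ∘ g, l₁, fun w hw => (hz' _ _ _ hw).trans
    (((le_max_right _ _).trans (le_max_left _ _)).trans_lt l₃),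
    (le_max_right _ _).trans_lt l₃, ⟨k₁, k₂, k₃⟩, fun i hi => ?_, fun i hi j hj => ?_,
    fun i hi => ?_, fun i hi ρ hρ hD => ?_⟩
  · obtain ⟨k, hk, ek⟩ := hg (0, i, 0, ⊤) ⟨hl.pos, hi, hl.pos, ht⟩
    exact ⟨k, hk.trans_le l₄, by simp [F, ek]⟩
  · obtain ⟨k, hk, ek⟩ := hg (1, i, j, ⊤) ⟨by simpa using n 1, hi, hj, ht⟩
    exact ⟨k, hk.trans_le l₄, by simp [F, ek]⟩
  · obtain ⟨k, hk, ek⟩ := hg (2, i, 0, ⊤) ⟨n 2, hi, hl.pos, ht⟩
    exact ⟨k, hk.trans_le l₄, by simp [F, ek, n2]⟩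
  · obtain ⟨k, hk, ek⟩ := hg (3, i, 0, glue y ρ ⊤) ⟨n 3, hi, hl.pos, glue_top_mem y ρ⟩
    have m₁ := hG i (glue y ρ ⊤)
    rw [glue_glue] at m₁
    have m₂ := hb' k hk
    simp only [ek] at m₂
    refine ⟨k, hk.trans_le l₄, _, m₂.trans
      (((le_max_left _ _).trans (le_max_left _ _)).trans_lt l₃), ?_⟩
    have : (F ∘ g) k = τ i (glue y ρ ⊤) := by simp [F, ek, n30, n31]
    rw [this]
    exact m₁ (H i hi ρ hρ hD)

theorem m1_seq (C : Ctx) {Ex : Type 3} (emb : Od → Ex) (op : Ex → Ex → Ex)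
    (G : Ex → C.Po → Ex → Od → Prop) (mono : ∀ x m m' τ a, G x m τ a → m' ≤ m → G x m' τ a)
    (π₀ : C.Po) : ∃ (y : ℕ → Od) (σ : ℕ → C.Po) (e : ℕ → Od → Ex), σ 0 = π₀ ∧
      ∀ n, C.Lev (y n) ∧ σ n ∈ C.Low (y n) ∧
        C.M1St emb op G (y n) (σ n) (e n) (y (n + 1)) (σ (n + 1)) (e (n + 1)) := by
  have H : ∀ s : {p : Od × C.Po × (Od → Ex) // C.Lev p.1 ∧ p.2.1 ∈ C.Low p.1},
      ∃ s' : {p : Od × C.Po × (Od → Ex) // C.Lev p.1 ∧ p.2.1 ∈ C.Low p.1},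
        C.M1St emb op G s.1.1 s.1.2.1 s.1.2.2 s'.1.1 s'.1.2.1 s'.1.2.2 := fun s => by
    obtain ⟨y', σ', e', h₁, h₂, h₃⟩ := C.m1_step emb op G mono s.2.1 s.1.2.1 s.1.2.2
    exact ⟨⟨(y', σ', e'), h₁, h₂⟩, h₃⟩
  choose F hF using H
  obtain ⟨z, hz, hz'⟩ := π₀.ht.supp
  obtain ⟨y₀, l₁, -, l₃⟩ := exists_lev (C := C) (k := 0) C.thin.pos hz
  let f : ℕ → {p : Od × C.Po × (Od → Ex) // C.Lev p.1 ∧ p.2.1 ∈ C.Low p.1} := fun n =>
    Nat.rec ⟨(y₀, π₀, emb), l₁, fun w hw => (hz' _ _ _ hw).trans l₃⟩ (fun _ s => F s) n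
  exact ⟨fun n => (f n).1.1, fun n => (f n).1.2.1, fun n => (f n).1.2.2, rfl,
    fun n => ⟨(f n).2.1, (f n).2.2, hF (f n)⟩⟩

theorem exists_tower (C : Ctx) {Ex : Type 3} (emb : Od → Ex) (op : Ex → Ex → Ex)
    (G : Ex → C.Po → Ex → Od → Prop) (mono : ∀ x m m' τ a, G x m τ a → m' ≤ m → G x m' τ a)
    (π₀ : C.Po) : ∃ lam y σ en, C.Tw emb op G π₀ lam y σ en := by
  classical
  obtain ⟨y, s, e, s0, H⟩ := C.m1_seq emb op G mono π₀
  have lev := fun n => (H n).1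
  have low := fun n => (H n).2.1
  have st := fun n => (H n).2.2
  have hb : ∀ n, (C.B (y n)).ord < y (n + 1) := fun n =>
    (ord_le_ord.2 (C.bf.mono (lt_add_one _).le)).trans_lt (st n).lt
  have ym : StrictMono y := strictMono_nat_of_lt_succ fun n => (C.bf.le_ord _).trans_lt (hb n)
  have pr : ∀ n m, n ≤ m → PredR (y n) (s m) (s n) := fun n m h => by
    induction m, h using Nat.le_induction with
    | base => exact predR_refl _ _
    | succ m h ih =>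
      have k := (st m).pr
      exact predR_trans ⟨k.1, k.2.1, fun z hz hy => k.2.2 z hz (hy.trans_le (ym.monotone h))⟩ ih
  have old : ∀ n m, n ≤ m → ∀ i < (C.B (y n)).ord, ∃ k < (C.B (y m)).ord, e m k = e n i :=
    fun n m h i hi => by
      induction m, h using Nat.le_induction with
      | base => exact ⟨i, hi, rfl⟩
      | succ m h ih =>
        obtain ⟨k, hk, ek⟩ := ih
        obtain ⟨k', hk', ek'⟩ := (st m).old k hk
        exact ⟨k', hk', ek'.trans ek⟩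
  obtain ⟨lam, hlam⟩ : ∃ lam : Od, lam = ⨆ n, y n := ⟨_, rfl⟩
  have lt : ∀ n, y n < lam := fun n =>
    (ym (Nat.lt_succ_self n)).trans_le (hlam ▸ Ordinal.le_iSup y (n + 1))
  have cof : ∀ a < lam, ∃ n, a < y n := fun a ha => Ordinal.lt_iSup_iff.1 (hlam ▸ ha)
  have th : lam < C.th.ord := by
    obtain ⟨b, h₁, h₂⟩ := C.th_inac.bound_set (S := range y)
      (by rintro _ ⟨n, rfl⟩; exact (lev n).1) (by
        refine (Set.countable_range y).le_aleph0.trans_lt ?_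
        rw [card_ord]
        exact Cardinal.aleph0_lt_lift.2 C.thin.aleph0_lt)
    exact (hlam ▸ Ordinal.iSup_le fun n => (h₂ ⟨n, rfl⟩).le).trans_lt h₁
  have hbl : ∀ n, (C.B (y n)).ord < lam := fun n => (hb n).trans (lt _)
  have tv : C.TV (⋃ n, (s n).t) := by
    refine ⟨fun x i c h => ?_, fun x i c c' h h' => ?_, fun x => ?_, lam, th, fun x i c h => ?_⟩
    · obtain ⟨n, hn⟩ := mem_iUnion.1 h
      exact (s n).ht.rng x i c hn
    · obtain ⟨n, hn⟩ := mem_iUnion.1 h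
      obtain ⟨m, hm⟩ := mem_iUnion.1 h'
      exact (s (max n m)).ht.fn x i c c' ((pr _ _ (le_max_left n m)).2.1 hn)
        ((pr _ _ (le_max_right n m)).2.1 hm)
    · by_cases hx : x < lam
      · obtain ⟨n, hn⟩ := cof x hx
        obtain ⟨j, hj, K⟩ := (s n).ht.dom x
        refine ⟨j, hj, fun i c h => ?_⟩
        obtain ⟨m, hm⟩ := mem_iUnion.1 h
        exact K i c ((pr _ _ (le_max_left n m)).2.2 _ ((pr _ _ (le_max_right n m)).2.1 hm) hn)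
      · refine ⟨0, (C.pred_lim x).pos, fun i c h => ?_⟩
        obtain ⟨m, hm⟩ := mem_iUnion.1 h
        exact absurd ((low m _ hm).trans (lt m)) hx
    · obtain ⟨m, hm⟩ := mem_iUnion.1 h
      exact (low m _ hm).trans (lt m)
  have sr : ∀ n, (s n).r = π₀.r := fun n => by rw [(pr 0 n n.zero_le).1, s0]
  have h₀ : ℵ₀ ≤ lam.card := by
    refine (C.bf.aleph0_le (y 0)).trans ?_
    rw [← card_ord (C.B (y 0))]
    exact card_le_card (hbl 0).le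
  obtain ⟨g, hg⟩ := exists_enum_of_le (α := ℕ × Od) (S := (univ : Set ℕ) ×ˢ Iio lam) (c := lam.card) (by
    have h₁ : ℵ₀ ≤ lift.{2} lam.card := Cardinal.aleph0_le_lift.2 h₀
    have h₂ : Cardinal.mk ((univ : Set ℕ) ×ˢ Iio lam : Set (ℕ × Od)) =
        Cardinal.mk (↥(univ : Set ℕ) × Iio lam) := Cardinal.mk_congr (Equiv.Set.prod _ _)
    rw [h₂, Cardinal.mk_prod, Cardinal.mk_univ, Cardinal.mk_Iio_ordinal, Cardinal.mk_nat,
      Cardinal.lift_aleph0, Cardinal.lift_lift]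
    exact Cardinal.mul_le_of_le h₁ h₁ le_rfl)
  obtain ⟨en, hen⟩ : ∃ en : Od → Ex, en = fun k =>
    if (g k).2 < (C.B (y (g k).1)).ord then e (g k).1 (g k).2 else e 0 0 := ⟨_, rfl⟩
  have e₁ : ∀ k, ∃ n, ∃ i < (C.B (y n)).ord, en k = e n i := fun k => by
    by_cases h : (g k).2 < (C.B (y (g k).1)).ord
    · exact ⟨_, _, h, by rw [hen]; exact if_pos h⟩
    · exact ⟨0, 0, (isSuccLimit_ord (C.bf.aleph0_le _)).pos, by rw [hen]; exact if_neg h⟩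
  have e₂ : ∀ n, ∀ i < (C.B (y n)).ord, ∃ k < lam, en k = e n i := fun n i hi => by
    obtain ⟨k, hk, ek⟩ := hg (n, i) ⟨mem_univ _, hi.trans (hbl n)⟩
    refine ⟨k, hk.trans_le (ord_card_le lam), ?_⟩
    rw [hen]
    simp only [ek]
    exact if_pos hi
  refine ⟨lam, y, ⟨π₀.r, _, π₀.hr, tv⟩, en, lev, lt, cof, th, fun x hx => ?_, rfl,
    s0 ▸ subset_iUnion (fun n => (s n).t) 0, fun z hz => ?_, fun a ha => ?_,
    fun i _ j _ => ?_, fun i _ => ?_⟩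
  · obtain ⟨n, hn⟩ := cof x hx
    exact ((ord_le_ord.2 (C.bf.mono (add_le_add_left hn.le 1))).trans_lt (st n).lt).trans (lt _)
  · obtain ⟨m, hm⟩ := mem_iUnion.1 hz
    exact (low m _ hm).trans (lt m)
  · obtain ⟨n, hn⟩ := cof a ha
    obtain ⟨k, hk, ek⟩ := (st n).emb a (hn.trans_le (C.bf.le_ord _))
    obtain ⟨k', hk', ek'⟩ := e₂ _ k hk
    exact ⟨k', hk', ek'.trans ek⟩
  · obtain ⟨n, a, ha, ea⟩ := e₁ i
    obtain ⟨m, b, hb', eb⟩ := e₁ j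
    obtain ⟨a', ha', ea'⟩ := old _ _ (le_max_left n m) a ha
    obtain ⟨b', hb'', eb'⟩ := old _ _ (le_max_right n m) b hb'
    obtain ⟨k, hk, ek⟩ := (st _).op a' ha' b' hb''
    obtain ⟨k', hk', ek'⟩ := e₂ _ k hk
    exact ⟨k', hk', by rw [ek', ek, ea', eb', ea, eb]⟩
  · obtain ⟨n, a, ha, ea⟩ := e₁ i
    refine ⟨n, fun ρ hρ hD => ?_⟩
    rw [ea] at hD ⊢
    have hs : (s (n + 1)).t ⊆ ⋃ n, (s n).t := subset_iUnion (fun n => (s n).t) (n + 1)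
    have h₁ : (⟨π₀.r, _, π₀.hr, tv⟩ : C.Po) ≤ s (n + 1) :=
      le_of_sub (by rw [sr]; exact pred_refl π₀) hs
    obtain ⟨k, hk, c, hc, K⟩ := (st n).red a ha ρ (hρ.trans h₁) hD
    obtain ⟨k', hk', ek'⟩ := e₂ _ k hk
    refine ⟨k', hk', c, hc.trans (lt _), ?_⟩
    rw [ek']
    refine mono _ _ _ _ _ K (le_of_sub (pred_refl ρ) ?_)
    rintro z (hz | hz)
    · exact Or.inl hz
    · exact Or.inr ⟨hs hz.1, hz.2⟩

end Ctx

end Pool.Agent.MP_85ce7b_lc
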