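import Pool.Agent.MP_85ce7b_lc.L.MDefs

namespace Pool.Agent.MP_85ce7b_lc

open Set Cardinal Ordinal Dat

namespace Ctx

variable {C : Ctx} {σ : C.Po} {X : Set Od} {XT : Set Tri} {μ top b : Od} {e : Od → Od} {t : Tri}

theorem m2_lt (N : Nice C X μ top e) {a c : Od} (ha : a < top) (h : e a < e c) (_hc : c < top) :
    a < c := by
  by_contra k
  rcases (not_lt.1 k).eq_or_lt with rfl | k
  · exact lt_irrefl _ h
  · exact lt_asymm h (N.mono _ _ k ha)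

theorem m2_inj (N : Nice C X μ top e) {a c : Od} (ha : a < top) (hc : c < top) (h : e a = e c) :
    a = c := by
  rcases lt_trichotomy a c with k | k | k
  · exact absurd h (N.mono _ _ k hc).ne
  · exact k
  · exact absurd h (N.mono _ _ k ha).ne'

theorem m2_mem (N : Nice C X μ top e) {a : Od} (ha : a < top) : e a ∈ X :=
  (N.rng _).2 ⟨a, ha, rfl⟩

theorem m2_kap_le (N : Nice C X μ top e) {x : Od} (h : μ ≤ x) (hx : x < top) : C.kap ≤ e x := by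
  rw [← N.kap]
  rcases h.eq_or_lt with rfl | h
  · exact le_rfl
  · exact (N.mono _ _ h hx).le

theorem m2_mu_le (N : Nice C X μ top e) {x : Od} (h : C.kap ≤ e x) : μ ≤ x := by
  by_contra k
  have := N.mono _ _ (not_le.1 k) N.mu_lt
  rw [N.kap] at this
  exact this.not_ge h

theorem m2_dm (N : Nice C X μ top e) {x : Od} (h : μ ≤ x) :
    C.dm x = (Order.succ (C.B x)).ord := by
  have h₁ : C.s < x := ((lt_add_one _).trans (C.good μ N.sp).gt).trans_le h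
  unfold Dat.dm
  rw [if_neg h₁.ne']

theorem m2_beth (N : Nice C X μ top e) {x : Od} (h : μ ≤ x) (hx : x < top) :
    (C.B (x + 1)).ord < top ∧ e (C.B (x + 1)).ord = (C.B (e x + 1)).ord := by
  obtain ⟨h₁, h₂⟩ := N.succ x hx
  rw [← h₂]
  exact N.beth _ (h.trans (lt_add_one x).le) h₁

theorem m2_succ (N : Nice C X μ top e) {x : Od} (h : μ ≤ x) (hx : x < top) :
    (Order.succ (C.B x)).ord < top :=
  (ord_le_ord.2 (C.bf.succ_le (lt_add_one x))).trans_lt (m2_beth N h hx).1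

theorem m2_dom (N : Nice C X μ top e) (H : C.Hl σ X XT) (ht : t ∈ XT) {x : Od} (h : μ ≤ x)
    (hx : x < top) : ∃ j < (Order.succ (C.B x)).ord, ∀ i c, i < top → (e x, e i, c) ∈ t → i < j := by
  obtain ⟨j, hj, h₁, h₂⟩ := H.dom t ht (e x) (m2_mem N hx)
  obtain ⟨j, hj', rfl⟩ := (N.rng _).1 hj
  rw [← N.sbeth x h hx] at h₁
  exact ⟨j, m2_lt N hj' h₁ (m2_succ N h hx), fun i c hi k => m2_lt N hi (h₂ _ _ k) hj'⟩

theorem trc_intC (N : Nice C X μ top e) (H : C.Hl σ X XT) (ht : t ∈ XT) (hb : b ≤ top) :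
    C.IntC μ b (trc e μ top b t) := by
  have hT := H.tv t ht
  intro x
  have hfn : ∀ i v v', (i, v) ∈ trc e μ top b t x → (i, v') ∈ trc e μ top b t x → v = v' :=
    fun i v v' k k' => m2_inj N k.2.2.2.1 k'.2.2.2.1 (hT.fn _ _ _ _ k.2.2.2.2 k'.2.2.2.2)
  refine ⟨⟨hfn, fun i v k => ?_, ?_⟩, fun i v k => ⟨k.1, k.2.1, ?_⟩⟩
  · obtain ⟨j, h₁, h₂⟩ := m2_dom N H ht k.1 (k.2.1.trans_le hb)
    rw [m2_dm N k.1]
    exact (h₂ i _ k.2.2.1 k.2.2.2.2).trans h₁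
  · rcases (trc e μ top b t x).eq_empty_or_nonempty with h | ⟨z, k⟩
    · rw [h, Cardinal.mk_eq_zero]
      exact zero_le
    · obtain ⟨j, h₁, h₂⟩ := m2_dom N H ht k.1 (k.2.1.trans_le hb)
      have h₃ : Cardinal.mk (trc e μ top b t x) ≤ Cardinal.mk (Iio j) := by
        refine Cardinal.mk_le_of_injective
          (f := fun w => ⟨w.1.1, h₂ _ _ w.2.2.2.1 w.2.2.2.2.2⟩) ?_
        rintro ⟨⟨i, v⟩, hw⟩ ⟨⟨i', v'⟩, hw'⟩ h
        simp only [Subtype.mk.injEq] at h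
        subst h
        obtain rfl := hfn _ _ _ hw hw'
        rfl
      refine h₃.trans ?_
      rw [Cardinal.mk_Iio_ordinal]
      exact Cardinal.lift_le.2 (Order.lt_succ_iff.1 (lt_ord.1 h₁))
  · obtain ⟨h₁, h₂⟩ := m2_beth N k.1 (k.2.1.trans_le hb)
    have h₃ := (hT.rng _ _ _ k.2.2.2.2).2
    rw [← h₂] at h₃
    exact m2_lt N k.2.2.2.1 h₃ h₁

theorem trc_sur (N : Nice C X μ top e) (hb : b < top) {w : Od → Set (Od × Od)}
    (hw : C.IntC μ b w) (hs : ∀ x, trc e μ top b σ.t x ⊆ w x) :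
    ∃ S, C.Tc σ X (e b) S ∧ ∀ t : Tri, (∀ x ∈ X, ∀ i ∈ X, ∀ c ∈ X, x < e b →
      ((x, i, c) ∈ t ↔ (x, i, c) ∈ S)) → ∀ x, w x ⊆ trc e μ top b t x := by
  have key : ∀ x i c, (i, c) ∈ w x → μ ≤ x ∧ x < b ∧ x < top ∧ i < (Order.succ (C.B x)).ord ∧
      i < top ∧ c < (C.B (x + 1)).ord ∧ c < top := fun x i c k => by
    obtain ⟨h₁, h₂, h₃⟩ := (hw x).2 i c k
    have h₄ := (hw x).1.dom i c k
    rw [m2_dm N h₁] at h₄
    exact ⟨h₁, h₂, h₂.trans hb, h₄, h₄.trans (m2_succ N h₁ (h₂.trans hb)), h₃,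
      h₃.trans (m2_beth N h₁ (h₂.trans hb)).1⟩
  refine ⟨{z | ∃ x i c, (i, c) ∈ w x ∧ e x = z.1 ∧ e i = z.2.1 ∧ e c = z.2.2},
    ⟨?_, ?_, ?_, ?_⟩, ?_⟩
  · rintro _ _ _ ⟨x, i, c, k, rfl, rfl, rfl⟩
    obtain ⟨h₁, h₂, h₃, -, -, h₆, -⟩ := key x i c k
    obtain ⟨h₇, h₈⟩ := m2_beth N h₁ h₃
    exact ⟨m2_kap_le N h₁ h₃, N.mono _ _ h₂ hb, h₈ ▸ N.mono _ _ h₆ h₇⟩
  · rintro _ _ _ _ ⟨x, i, c, k, rfl, rfl, rfl⟩ ⟨x', i', c', k', e₁, e₂, rfl⟩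
    obtain ⟨-, -, h₃, -, h₅, -⟩ := key x i c k
    obtain ⟨-, -, h₃', -, h₅', -⟩ := key x' i' c' k'
    obtain rfl := m2_inj N h₃' h₃ e₁
    obtain rfl := m2_inj N h₅' h₅ e₂
    rw [(hw x').1.fn _ _ _ k k']
  · intro x hx
    obtain ⟨x, hx', rfl⟩ := (N.rng _).1 hx
    rcases lt_or_ge x μ with h | h
    · have h0 : (0 : Od) < μ := zero_le.trans_lt h
      refine ⟨0, N.id 0 h0 ▸ m2_mem N (h0.trans N.mu_lt), (C.pred_lim _).pos, ?_⟩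
      rintro _ _ ⟨x', i, c, k, e₁, -⟩
      obtain ⟨h₁, -, h₃, -⟩ := key x' i c k
      obtain rfl := m2_inj N h₃ hx' e₁
      exact absurd h h₁.not_gt
    · obtain ⟨j, h₁, h₂⟩ := bound_set_of_lt_cof (S := Prod.fst '' w x)
        (τ := (Order.succ (C.B x)).ord) (by
          rintro _ ⟨⟨i, c⟩, k, rfl⟩
          exact (key x i c k).2.2.2.1) (C.pred_lim x)
        ((Cardinal.mk_image_le.trans (hw x).1.card).trans_lt
          (Cardinal.lift_lt.2 (rf_succ_cof (C.bf.aleph0_le x))))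
      have h₃ := m2_succ N h hx'
      refine ⟨e j, m2_mem N (h₁.trans h₃), N.sbeth x h hx' ▸ N.mono _ _ h₁ h₃, ?_⟩
      rintro _ _ ⟨x', i, c, k, e₁, rfl, rfl⟩
      obtain rfl := m2_inj N (key x' i c k).2.2.1 hx' e₁
      exact N.mono _ _ (h₂ ⟨(i, c), k, rfl⟩) (h₁.trans h₃)
  · intro x hx i hi c hc k hlt
    obtain ⟨x, hx', rfl⟩ := (N.rng _).1 hx
    obtain ⟨i, hi', rfl⟩ := (N.rng _).1 hi
    obtain ⟨c, hc', rfl⟩ := (N.rng _).1 hc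
    exact ⟨x, i, c, hs x ⟨m2_mu_le N (σ.ht.rng _ _ _ k).1, m2_lt N hx' hlt hb, hi', hc', k⟩,
      rfl, rfl, rfl⟩
  · rintro t ht x ⟨i, c⟩ k
    obtain ⟨h₁, h₂, h₃, -, h₅, -, h₇⟩ := key x i c k
    exact ⟨h₁, h₂, h₅, h₇, (ht _ (m2_mem N h₃) _ (m2_mem N h₅) _ (m2_mem N h₇)
      (N.mono _ _ h₂ hb)).2 ⟨x, i, c, k, rfl, rfl, rfl⟩⟩

theorem trc_cmp (N : Nice C X μ top e) (H : C.Hl σ X XT) (ht : t ∈ XT) {t' : Tri} (ht' : t' ∈ XT)
    {r : Raw} (hr : C.Valid r) (h : ∀ x, trc e μ top top t x ⊆ r.h x)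
    (h' : ∀ x, trc e μ top top t' x ⊆ r.h x) {x i c c' : Od} (k : (x, i, c) ∈ t)
    (k' : (x, i, c') ∈ t') : c = c' := by
  refine H.cmp t ht t' ht' (fun x hx i hi c hc c' hc' k k' => ?_) x i c c' k k'
  obtain ⟨x, hx', rfl⟩ := (N.rng _).1 hx
  obtain ⟨i, hi', rfl⟩ := (N.rng _).1 hi
  obtain ⟨c, hc₁, rfl⟩ := (N.rng _).1 hc
  obtain ⟨c', hc₂, rfl⟩ := (N.rng _).1 hc'
  have hμ := m2_mu_le N ((H.tv t ht).rng _ _ _ k).1
  rw [(hr.col x).fn i c c' (h x ⟨hμ, hx', hi', hc₁, k⟩) (h' x ⟨hμ, hx', hi', hc₂, k'⟩)]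

end Ctx

end Pool.Agent.MP_85ce7b_lc
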