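import Pool.Agent.MP_85ce7b_lc.L.PRed
import Pool.Agent.MP_85ce7b_lc.L.SO

namespace Pool.Agent.MP_85ce7b_lc

open Set Cardinal Ordinal Dat

namespace Ctx

/-- A tower of levels reducing the dense sets of a closed family of objects. -/
structure Tw (C : Ctx) {Ex : Type 3} (emb : Od → Ex) (op : Ex → Ex → Ex)
    (G : Ex → C.Po → Ex → Od → Prop) (π₀ : C.Po) (lam : Od) (y : ℕ → Od) (σ : C.Po)
    (en : Od → Ex) : Prop where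
  lev : ∀ n, C.Lev (y n)
  lt : ∀ n, y n < lam
  cof : ∀ a < lam, ∃ n, a < y n
  th : lam < C.th.ord
  beth : ∀ x < lam, (C.B (x + 1)).ord < lam
  r : σ.r = π₀.r
  t : π₀.t ⊆ σ.t
  supp : ∀ z ∈ σ.t, z.1 < lam
  emb : ∀ a < lam, ∃ i < lam, en i = emb a
  op : ∀ i < lam, ∀ j < lam, ∃ k < lam, en k = op (en i) (en j)
  red : ∀ i < lam, ∃ n, ∀ ρ ≤ σ, (∃ τ, ∃ a < C.th.ord, G (en i) ρ τ a) →
    ∃ j < lam, ∃ a < lam, G (en i) (glue (y n) ρ σ) (en j) a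

/-- A small family of upper parts reflecting domains and conflicts to `X`. -/
structure Hl (C : Ctx) (σ : C.Po) (X : Set Od) (XT : Set Tri) : Prop where
  card : Cardinal.mk XT ≤ lift.{2} C.kap.card
  mem : σ.t ∈ XT
  tv : ∀ t ∈ XT, C.TV t
  supp : ∃ y < C.th.ord, ∀ t ∈ XT, ∀ z ∈ t, z.1 < y
  dom : ∀ t ∈ XT, ∀ x ∈ X, ∃ j ∈ X, j < (Order.succ (C.B x)).ord ∧ ∀ i c, (x, i, c) ∈ t → i < j
  cmp : ∀ t ∈ XT, ∀ t' ∈ XT, (∀ x ∈ X, ∀ i ∈ X, ∀ c ∈ X, ∀ c' ∈ X, (x, i, c) ∈ t →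
    (x, i, c') ∈ t' → c = c') → ∀ x i c c', (x, i, c) ∈ t → (x, i, c') ∈ t' → c = c'

/-- `S` looks like the trace on `X` of an extension of `σ` below `y`. -/
structure Tc (C : Ctx) (σ : C.Po) (X : Set Od) (y : Od) (S : Tri) : Prop where
  rng : ∀ x i c, (x, i, c) ∈ S → C.kap ≤ x ∧ x < y ∧ c < (C.B (x + 1)).ord
  fn : ∀ x i c c', (x, i, c) ∈ S → (x, i, c') ∈ S → c = c'
  dom : ∀ x ∈ X, ∃ j ∈ X, j < (Order.succ (C.B x)).ord ∧ ∀ i c, (x, i, c) ∈ S → i < j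
  sub : ∀ x ∈ X, ∀ i ∈ X, ∀ c ∈ X, (x, i, c) ∈ σ.t → x < y → (x, i, c) ∈ S

/-- The family `XT` captures the open set `D` at the level `y`. -/
structure Cap (C : Ctx) (σ : C.Po) (X : Set Od) (μ y : Od) (XT : Set Tri) (D : C.Po → Prop) :
    Prop where
  md : ∀ t ∈ XT, ∀ z ∈ t, y ≤ z.1 → z ∈ σ.t
  sur : ∀ S, C.Tc σ X y S → ∃ t ∈ XT, ∀ x ∈ X, ∀ i ∈ X, ∀ c ∈ X, x < y →
    ((x, i, c) ∈ t ↔ (x, i, c) ∈ S)
  den : ∀ t ∈ XT, ∀ r, Bdd μ r → C.LeT C.kap r σ.r →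
    ∃ ρ : C.Po, Bdd μ ρ.r ∧ C.LeT C.kap ρ.r r ∧ ρ.t ∈ XT ∧ t ⊆ ρ.t ∧ D ρ

end Ctx

/-- The collapsed trace of `t` on the levels in `[μ, b)`. -/
def trc (e : Od → Od) (μ top b : Od) (t : Tri) (x : Od) : Set (Od × Od) :=
  {z | μ ≤ x ∧ x < b ∧ z.1 < top ∧ z.2 < top ∧ (e x, e z.1, e z.2) ∈ t}

end Pool.Agent.MP_85ce7b_lc
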