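import Pool.Agent.MP_85ce7b_lc.L.NDefin

namespace Pool.Agent.MP_85ce7b_lc

open Pool.Agent.MP_c6cf52_lc

open Name

universe u v w

namespace Gen

variable {P : Type 2} [Sz P] [Preorder P] [OrderTop P] [Tame P] {g : Gen P}

open Cd

/-- The natural numbers of the model. -/
noncomputable def nat (g : Gen P) (n : ℕ) : g.M := g.v (ordN natWf ⟨n⟩)

/-- The omega of the model. -/
noncomputable def om (g : Gen P) : g.M := g.v (setN natWf Set.univ)

theorem E_om {x : g.M} : g.E x g.om ↔ ∃ n, g.nat n = x := by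
  unfold om
  rw [E_setN _ g.omega_mem]
  exact ⟨fun ⟨n, _, _, e⟩ => ⟨n.down, e⟩, fun ⟨n, e⟩ => ⟨⟨n⟩, trivial, nat_mem _, e⟩⟩

theorem E_nat {x : g.M} {n : ℕ} : g.E x (g.nat n) ↔ ∃ m < n, g.nat m = x := by
  unfold nat
  rw [E_ordN _ (nat_mem _)]
  exact ⟨fun ⟨m, h, _, e⟩ => ⟨m.down, h, e⟩, fun ⟨m, h, e⟩ => ⟨⟨m⟩, h, nat_mem _, e⟩⟩

theorem nat_inj : Function.Injective g.nat := fun a b h =>
  congrArg ULift.down (ord_inj natWf natTri (nat_mem ⟨a⟩) (nat_mem ⟨b⟩) h)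

theorem nat_lt {m n : ℕ} : g.E (g.nat m) (g.nat n) ↔ m < n := by
  simp [E_nat, nat_inj.eq_iff]

theorem nat_om (n : ℕ) : g.E (g.nat n) g.om := E_om.2 ⟨n, rfl⟩

theorem D1.memc (c : g.M) : g.D1 (fun x => g.E x c) :=
  (PD.ex (Θ := fun w y => y = c ∧ g.E (w 0) y) ((PD.const _ _).and (PD.mem _ _))).congr
    fun w => by simp

noncomputable instance : Cd g ℕ where
  ι := g.nat
  inj := nat_inj
  rng := PD.congr (D1.memc g.om) fun _ => E_om

instance : Bd g ℕ := ⟨⟨g.om, nat_om⟩⟩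

theorem ι_nat (n : ℕ) : (ι n : g.M) = g.nat n := rfl

open Classical in
noncomputable instance : Cd g Prop where
  ι := fun p => if p then g.nat 1 else g.nat 0
  inj := fun p q h => by
    by_cases hp : p <;> by_cases hq : q <;> simp [hp, hq, nat_inj.eq_iff] at h ⊢
  rng := ((PD.const 0 (g.nat 1)).or (PD.const 0 (g.nat 0))).congr fun w => by
    constructor
    · rintro (h | h)
      exacts [⟨True, by simp [h]⟩, ⟨False, by simp [h]⟩]
    · rintro ⟨p, h⟩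
      by_cases hp : p <;> simp [hp] at h <;> simp [h]

/-- Elements of a set of the model, as a type. -/
def Elt (g : Gen P) (A : g.M) : Type 3 := {x : g.M // g.E x A}

instance (A : g.M) : Cd g (g.Elt A) where
  ι := Subtype.val
  inj := Subtype.val_injective
  rng := PD.congr (D1.memc A) fun _ => ⟨fun h => ⟨⟨_, h⟩, rfl⟩, fun ⟨a, e⟩ => e ▸ a.2⟩

instance (A : g.M) : Bd g (g.Elt A) := ⟨⟨A, fun a => a.2⟩⟩

theorem ι_elt {A : g.M} (a : g.Elt A) : (ι a : g.M) = a.1 := rfl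

section

variable {Γ : Type*} {α : Type*} {β : Type*} {γ : Type*} [Cd g Γ] [Cd g α] [Cd g β] [Cd g γ]

theorem Df.tm {Q : Γ → Prop} (h : g.Df Q) : g.Tm Q := by
  refine Tm.ofRel (Q := fun x p => (p = True ∧ Q x) ∨ (p = False ∧ ¬ Q x))
    (((Df.eq Tm.snd' (Tm.const _)).and (h.comp Tm.fst')).or
      ((Df.eq Tm.snd' (Tm.const _)).and (h.comp Tm.fst').not)) fun x p => ?_
  by_cases h : Q x <;> simp [h]

theorem Tm.df {Q : Γ → Prop} (h : g.Tm Q) : g.Df Q :=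
  (Df.eq h (Tm.const True)).congr fun _ => by simp

attribute [fun_prop] Tm

@[fun_prop] theorem tm_id : g.Tm (fun x : Γ => x) := Tm.id

@[fun_prop] theorem tm_const (c : α) : g.Tm (fun _ : Γ => c) := Tm.const c

@[fun_prop] theorem tm_comp {h : α → β} {f : Γ → α} (hh : g.Tm h) (hf : g.Tm f) :
    g.Tm (fun x => h (f x)) := hh.comp hf

@[fun_prop] theorem tm_fst {f : Γ → α × β} (hf : g.Tm f) : g.Tm (fun x => (f x).1) := hf.fst

@[fun_prop] theorem tm_snd {f : Γ → α × β} (hf : g.Tm f) : g.Tm (fun x => (f x).2) := hf.snd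

@[fun_prop] theorem tm_pair {f : Γ → α} {h : Γ → β} (hf : g.Tm f) (hh : g.Tm h) :
    g.Tm (fun x => (f x, h x)) := hf.pair hh

@[fun_prop] theorem tm_ι {f : Γ → α} (hf : g.Tm f) : g.Tm (fun x => (ι (f x) : g.M)) := hf.ι

@[fun_prop] theorem tm_nat {f : Γ → ℕ} (hf : g.Tm f) : g.Tm (fun x => g.nat (f x)) := hf.ι

@[fun_prop] theorem tm_val {A : g.M} {f : Γ → g.Elt A} (hf : g.Tm f) :
    g.Tm (fun x => (Subtype.val (f x) : g.M)) := hf.ι

@[fun_prop] theorem tm_pr {f h : Γ → g.M} (hf : g.Tm f) (hh : g.Tm h) :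
    g.Tm (fun x => pr (f x) (h x)) := hf.pr hh

variable {Q R : Γ → Prop}

@[fun_prop] theorem tm_not (h : g.Tm Q) : g.Tm (fun x => ¬ Q x) := h.df.not.tm

@[fun_prop] theorem tm_and (h₁ : g.Tm Q) (h₂ : g.Tm R) : g.Tm (fun x => Q x ∧ R x) :=
  (h₁.df.and h₂.df).tm

@[fun_prop] theorem tm_or (h₁ : g.Tm Q) (h₂ : g.Tm R) : g.Tm (fun x => Q x ∨ R x) :=
  (h₁.df.or h₂.df).tm

@[fun_prop] theorem tm_imp (h₁ : g.Tm Q) (h₂ : g.Tm R) : g.Tm (fun x => Q x → R x) :=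
  (h₁.df.imp h₂.df).tm

@[fun_prop] theorem tm_iff (h₁ : g.Tm Q) (h₂ : g.Tm R) : g.Tm (fun x => Q x ↔ R x) :=
  (h₁.df.iff h₂.df).tm

@[fun_prop] theorem tm_ex {Q : Γ → α → Prop} (h : g.Tm (fun z : Γ × α => Q z.1 z.2)) :
    g.Tm (fun x => ∃ y, Q x y) := (Df.ex h.df).tm

@[fun_prop] theorem tm_all {Q : Γ → α → Prop} (h : g.Tm (fun z : Γ × α => Q z.1 z.2)) :
    g.Tm (fun x => ∀ y, Q x y) := (Df.all h.df).tm

@[fun_prop] theorem tm_eq {f h : Γ → α} (hf : g.Tm f) (hh : g.Tm h) :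
    g.Tm (fun x => f x = h x) := (Df.eq hf hh).tm

@[fun_prop] theorem tm_ne {f h : Γ → α} (hf : g.Tm f) (hh : g.Tm h) :
    g.Tm (fun x => f x ≠ h x) := (Df.eq hf hh).not.tm

@[fun_prop] theorem tm_E {f h : Γ → g.M} (hf : g.Tm f) (hh : g.Tm h) :
    g.Tm (fun x => g.E (f x) (h x)) := (Df.mem hf hh).tm

@[fun_prop] theorem tm_app {f h k : Γ → g.M} (hf : g.Tm f) (hh : g.Tm h) (hk : g.Tm k) :
    g.Tm (fun x => App g.E (f x) (h x) (k x)) := (Df.app hf hh hk).tm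

@[fun_prop] theorem tm_isInj {f h k : Γ → g.M} (hf : g.Tm f) (hh : g.Tm h) (hk : g.Tm k) :
    g.Tm (fun x => IsInj g.E (f x) (h x) (k x)) := (Df.isInj hf hh hk).tm

@[fun_prop] theorem tm_ite {c : Γ → Prop} {d : ∀ x, Decidable (c x)} {f h : Γ → α} (hc : g.Tm c)
    (hf : g.Tm f) (hh : g.Tm h) : g.Tm (fun x => @ite _ (c x) (d x) (f x) (h x)) :=
  @Tm.ite _ _ _ _ _ _ _ _ _ _ _ d _ _ hc.df hf hh

@[fun_prop] theorem tm_nat_lt {f h : Γ → ℕ} (hf : g.Tm f) (hh : g.Tm h) :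
    g.Tm (fun x => f x < h x) := ((Df.mem hf.ι hh.ι).congr fun _ => nat_lt).tm

@[fun_prop] theorem tm_nat_le {f h : Γ → ℕ} (hf : g.Tm f) (hh : g.Tm h) :
    g.Tm (fun x => f x ≤ h x) := ((tm_nat_lt hh hf).df.not.congr fun _ => not_lt).tm

theorem tm_of_rel {f : Γ → α} {Q : Γ → α → Prop} (h : g.Tm (fun z : Γ × α => Q z.1 z.2))
    (e : ∀ x y, Q x y ↔ y = f x) : g.Tm f := Tm.ofRel h.df e

theorem tm_succ' : g.Tm (fun n : ℕ => n + 1) :=
  tm_of_rel (Q := fun n m => n < m ∧ ∀ k, n < k → m ≤ k) (by fun_prop) fun n m =>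
    ⟨fun ⟨h₁, h₂⟩ => le_antisymm (h₂ _ (Nat.lt_succ_self n)) h₁, fun h => h ▸
      ⟨Nat.lt_succ_self n, fun _ hk => hk⟩⟩

@[fun_prop] theorem tm_succ {f : Γ → ℕ} (hf : g.Tm f) : g.Tm (fun x => Nat.succ (f x)) :=
  tm_succ'.comp hf

theorem tm_sep {Q : g.M → Prop} (h : g.Tm Q) (a : g.M) : ∃ b, ∀ x, g.E x b ↔ g.E x a ∧ Q x :=
  h.df.sep a

theorem tm_choice [Bd g Γ] {Q : Γ → α → Prop} (h : g.Tm (fun z : Γ × α => Q z.1 z.2))
    (tot : ∀ x, ∃ y, Q x y) : ∃ f : Γ → α, g.Tm f ∧ ∀ x, Q x (f x) := def_choice h.df tot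

theorem tm_image [Bd g Γ] (hQ : g.Tm Q) {f : Γ → g.M} (hf : g.Tm f) :
    ∃ S : g.M, ∀ y, g.E y S ↔ ∃ x, Q x ∧ f x = y := exists_image hQ.df hf

theorem exists_finset {S : Set g.M} (h : S.Finite) : ∃ s, ∀ x, g.E x s ↔ x ∈ S := by
  induction S, h using Set.Finite.induction_on with
  | empty => exact ⟨g.v emp, fun x => by simp [not_E_emp]⟩
  | @insert a S _ _ ih =>
    obtain ⟨s, hs⟩ := ih
    obtain ⟨c, hc⟩ := exists_upair a a
    obtain ⟨d, hd⟩ := exists_upair c s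
    obtain ⟨U, hU⟩ := exists_union d
    refine ⟨U, fun x => ?_⟩
    simp only [hU, hd, Set.mem_insert_iff, ← hs]
    constructor
    · rintro ⟨y, h, rfl | rfl⟩
      exacts [Or.inl (by simpa using (hc x).1 h), Or.inr h]
    · rintro (h | h)
      exacts [⟨c, (hc x).2 (Or.inl h), Or.inl rfl⟩, ⟨s, h, Or.inr rfl⟩]

theorem tm_iter' {F : Γ → α → α} {a : Γ → α} (hF : g.Tm (fun z : Γ × α => F z.1 z.2))
    (ha : g.Tm a) : g.Tm (fun z : Γ × ℕ => (F z.1)^[z.2] (a z.1)) := by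
  refine tm_of_rel (Q := fun z y => ∃ s : g.M, App g.E s (g.nat z.2) (ι y) ∧
    (∀ y' : α, App g.E s (g.nat 0) (ι y') → y' = a z.1) ∧
    ∀ (k : ℕ) (y' : α), App g.E s (g.nat k.succ) (ι y') →
      ∃ y'' : α, App g.E s (g.nat k) (ι y'') ∧ y' = F z.1 y'') (by fun_prop) ?_
  rintro ⟨p, n⟩ y
  constructor
  · rintro ⟨s, h, h₀, h₁⟩
    dsimp only at h h₀ h₁ ⊢
    induction n generalizing y with
    | zero => exact h₀ y h
    | succ n ih =>
      obtain ⟨y', h₂, rfl⟩ := h₁ n y h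
      rw [Function.iterate_succ_apply', ih y' h₂]
  · rintro rfl
    obtain ⟨s, hs⟩ := exists_finset
      ((Set.finite_le_nat n).image fun k => pr (g.nat k) (ι ((F p)^[k] (a p))))
    have e : ∀ k (y : α), App g.E s (g.nat k) (ι y) ↔ k ≤ n ∧ y = (F p)^[k] (a p) := by
      intro k y
      rw [app_iff, hs]
      constructor
      · rintro ⟨j, hj, e⟩
        obtain ⟨e₁, e₂⟩ := pr_inj.1 e
        obtain rfl := nat_inj e₁
        exact ⟨hj, (inj e₂).symm⟩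
      · rintro ⟨hk, rfl⟩
        exact ⟨k, hk, rfl⟩
    refine ⟨s, (e _ _).2 ⟨le_rfl, rfl⟩, fun y h => ((e _ _).1 h).2, fun k y h => ?_⟩
    obtain ⟨h₁, rfl⟩ := (e _ _).1 h
    exact ⟨_, (e _ _).2 ⟨Nat.le_of_succ_le h₁, rfl⟩, Function.iterate_succ_apply' _ _ _⟩

@[fun_prop] theorem tm_iter {F : Γ → α → α} {a : Γ → α} {n : Γ → ℕ}
    (hF : g.Tm (fun z : Γ × α => F z.1 z.2)) (hn : g.Tm n) (ha : g.Tm a) :
    g.Tm (fun x => (F x)^[n x] (a x)) :=
  (tm_iter' hF ha).comp (Tm.id.pair hn)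

@[fun_prop] theorem tm_add {f h : Γ → ℕ} (hf : g.Tm f) (hh : g.Tm h) :
    g.Tm (fun x => f x + h x) := by
  have : g.Tm (fun x => Nat.succ^[h x] (f x)) := by fun_prop
  simpa only [Nat.succ_iterate] using this

@[fun_prop] theorem tm_mul {f h : Γ → ℕ} (hf : g.Tm f) (hh : g.Tm h) :
    g.Tm (fun x => f x * h x) := by
  have : g.Tm (fun x => (fun k => k + f x)^[h x] 0) := by fun_prop
  have e : ∀ a n : ℕ, (fun k => k + a)^[n] 0 = a * n := fun a n => by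
    induction n with
    | zero => rfl
    | succ n ih => rw [Function.iterate_succ_apply', ih, Nat.mul_succ]
  simpa only [e] using this

@[fun_prop] theorem tm_natPair {f h : Γ → ℕ} (hf : g.Tm f) (hh : g.Tm h) :
    g.Tm (fun x => Nat.pair (f x) (h x)) := by
  unfold Nat.pair
  fun_prop

@[fun_prop] theorem tm_nat_max {f h : Γ → ℕ} (hf : g.Tm f) (hh : g.Tm h) :
    g.Tm (fun x => max (f x) (h x)) := by
  simp only [max_def]
  fun_prop

/-- Left inverse of the coding. -/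
noncomputable def un (α : Type*) [Cd g α] [Nonempty α] (x : g.M) : α := Function.invFun ι x

@[simp] theorem un_ι [Nonempty α] (a : α) : un α (ι a : g.M) = a :=
  Function.leftInverse_invFun inj a

@[fun_prop] theorem tm_un [Nonempty α] {f : Γ → g.M} (hf : g.Tm f) :
    g.Tm (fun x => un α (f x)) := by
  refine tm_of_rel (Q := fun x a => ι a = f x ∨ (¬ (∃ b : α, ι b = f x) ∧
    a = Classical.choice inferInstance)) (by fun_prop) fun x a => ?_
  by_cases h : ∃ b : α, ι b = f x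
  · obtain ⟨b, e⟩ := h
    simp [← e, inj.eq_iff]
  · have h' : ¬ ι a = f x := fun e => h ⟨a, e⟩
    simp only [h', h, false_or, not_false_iff, true_and, un, Function.invFun_neg h]

open Classical in
/-- The function coded by an element of the model. -/
noncomputable def ev (α : Type*) (β : Type*) [Cd g α] [Cd g β] [Nonempty β] (s : g.M) (a : α) :
    β := if h : ∃ b : β, ∀ b' : β, App g.E s (ι a) (ι b') ↔ b' = b then h.choose
      else Classical.choice inferInstance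

theorem ev_eq [Nonempty β] {s : g.M} {a : α} {b : β}
    (h : ∀ b' : β, App g.E s (ι a) (ι b') ↔ b' = b) : ev α β s a = b := by
  have h' : ∃ b : β, ∀ b' : β, App g.E s (ι a) (ι b') ↔ b' = b := ⟨b, h⟩
  unfold ev
  rw [dif_pos h']
  exact (h _).1 ((h'.choose_spec _).2 rfl)

@[fun_prop] theorem tm_ev [Nonempty β] {s : Γ → g.M} {a : Γ → α} (hs : g.Tm s) (ha : g.Tm a) :
    g.Tm (fun x => ev α β (s x) (a x)) := by
  refine tm_of_rel (Q := fun x b => (∀ b' : β, App g.E (s x) (ι (a x)) (ι b') ↔ b' = b) ∨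
    (¬ (∃ b : β, ∀ b' : β, App g.E (s x) (ι (a x)) (ι b') ↔ b' = b) ∧
      b = Classical.choice inferInstance)) (by fun_prop) fun x b => ?_
  by_cases h : ∃ b : β, ∀ b' : β, App g.E (s x) (ι (a x)) (ι b') ↔ b' = b
  · obtain ⟨c, hc⟩ := h
    have h' : ∃ b : β, ∀ b' : β, App g.E (s x) (ι (a x)) (ι b') ↔ b' = b := ⟨c, hc⟩
    rw [ev_eq hc]
    simp only [h', not_true, false_and, or_false]
    exact ⟨fun h => (hc _).1 ((h _).2 rfl), fun h => h ▸ hc⟩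
  · have h' : ¬ ∀ b' : β, App g.E (s x) (ι (a x)) (ι b') ↔ b' = b := fun e => h ⟨b, e⟩
    simp only [h', h, false_or, not_false_iff, true_and, ev, dif_neg]

theorem exists_ev [Nonempty β] [Bd g α] {f : α → β} (hf : g.Tm f) : ∃ s : g.M, ev α β s = f := by
  obtain ⟨F, -, hF⟩ := exists_graph Df.true hf
  exact ⟨F, funext fun a => ev_eq fun b => by simp [hF, inj.eq_iff]⟩

theorem tm_choice_fun [Nonempty β] [Bd g Γ] [Bd g α] {Q : Γ → (α → β) → Prop}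
    (hQ : g.Tm (fun z : Γ × g.M => Q z.1 (ev α β z.2))) (tot : ∀ p, ∃ f, g.Tm f ∧ Q p f) :
    ∃ F : Γ → α → β, g.Tm (fun z : Γ × α => F z.1 z.2) ∧ ∀ p, Q p (F p) := by
  obtain ⟨s, hs, h⟩ := tm_choice (Q := fun p s => Q p (ev α β s)) hQ fun p => by
    obtain ⟨f, hf, h⟩ := tot p
    obtain ⟨s, rfl⟩ := exists_ev hf
    exact ⟨s, h⟩
  exact ⟨fun p => ev α β (s p), by fun_prop, h⟩

theorem isInj_of_graph {A B F : g.M} {f : g.M → g.M}
    (hF : ∀ p, g.E p F ↔ ∃ x, g.E x A ∧ pr x (f x) = p) (h₁ : ∀ x, g.E x A → g.E (f x) B)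
    (h₂ : ∀ x y, g.E x A → g.E y A → f x = f y → x = y) : IsInj g.E F A B := by
  have e : ∀ s t, App g.E F s t ↔ g.E s A ∧ t = f s := by
    intro s t
    rw [app_iff, hF]
    constructor
    · rintro ⟨x, hx, e⟩
      obtain ⟨rfl, rfl⟩ := pr_inj.1 e
      exact ⟨hx, rfl⟩
    · rintro ⟨h, rfl⟩
      exact ⟨s, h, rfl⟩
  refine ⟨⟨fun p hp => ?_, fun a ha => ⟨f a, (e _ _).2 ⟨ha, rfl⟩, fun b hb => ((e _ _).1 hb).2⟩⟩,
    fun a a' b h h' => h₂ _ _ ((e _ _).1 h).1 ((e _ _).1 h').1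
      (((e _ _).1 h).2.symm.trans ((e _ _).1 h').2)⟩
  obtain ⟨x, hx, rfl⟩ := (hF p).1 hp
  exact ⟨x, f x, hx, h₁ x hx, isPair_pr _ _⟩

theorem exists_isInj {A B : g.M} {f : g.M → g.M} (hf : g.Tm f) (h₁ : ∀ x, g.E x A → g.E (f x) B)
    (h₂ : ∀ x y, g.E x A → g.E y A → f x = f y → x = y) : ∃ F, IsInj g.E F A B := by
  obtain ⟨F, hF⟩ := tm_image (Γ := g.Elt A) (Q := fun _ => True) (f := fun x => pr x.1 (f x.1))
    (by fun_prop) (by fun_prop)
  exact ⟨F, isInj_of_graph (fun p => (hF p).trans ⟨fun ⟨x, _, e⟩ => ⟨x.1, x.2, e⟩,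
    fun ⟨x, hx, e⟩ => ⟨⟨x, hx⟩, trivial, e⟩⟩) h₁ h₂⟩

instance : Nonempty g.M := ⟨g.om⟩

theorem app_ev {F A B x : g.M} (h : IsFun g.E F A B) (hx : g.E x A) :
    App g.E F x (ev g.M g.M F x) := by
  obtain ⟨b, -, hb⟩ := fun_ex h hx
  rw [ev_eq (b := b) fun b' => ⟨fun h' => fun_uniq h h' hb, fun e => e ▸ hb⟩]
  exact hb

theorem ctbl_iff {a : g.M} : (∃ F, IsInj g.E F a g.om) ↔
    ∃ f : g.M → ℕ, g.Tm f ∧ ∀ x y, g.E x a → g.E y a → f x = f y → x = y := by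
  constructor
  · rintro ⟨F, hF⟩
    refine ⟨fun x => un ℕ (ev g.M g.M F x), by fun_prop, fun x y hx hy e => ?_⟩
    have h₁ := app_ev hF.1 hx
    have h₂ := app_ev hF.1 hy
    obtain ⟨n, hn⟩ := E_om.1 (fun_mem hF.1 h₁).2
    obtain ⟨m, hm⟩ := E_om.1 (fun_mem hF.1 h₂).2
    rw [← hn] at h₁
    rw [← hm] at h₂
    dsimp only at e
    rw [← hn, ← hm, ← ι_nat, ← ι_nat, un_ι, un_ι] at e
    exact hF.2 _ _ _ h₁ (e ▸ h₂)
  · rintro ⟨f, hf, h⟩
    exact exists_isInj (f := fun x => g.nat (f x)) (by fun_prop) (fun x _ => nat_om _)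
      fun x y hx hy e => h x y hx hy (nat_inj e)

theorem exists_fin {S : Set g.M} (h : S.Finite) :
    ∃ n s f, g.E n g.om ∧ (∀ V, g.E V s ↔ V ∈ S) ∧ IsInj g.E f s n := by
  classical
  obtain ⟨s, hs⟩ := exists_finset h
  obtain ⟨n, e, he⟩ := h.fin_embedding
  have h₁ : ∀ x ∈ S, ∃ i, e i = x := fun x hx => by rw [← he] at hx; exact hx
  let f : g.M → g.M := fun x => if hx : x ∈ S then g.nat (h₁ x hx).choose else x
  obtain ⟨F, hF⟩ := exists_finset (h.image fun x => pr x (f x))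
  refine ⟨g.nat n, s, F, nat_om n, hs, isInj_of_graph (f := f) (fun p => by simp [hF, hs])
    (fun x hx => ?_) fun x y hx hy e' => ?_⟩
  · rw [hs] at hx
    simp only [f, dif_pos hx]
    exact nat_lt.2 (Fin.is_lt _)
  · rw [hs] at hx hy
    simp only [f, dif_pos hx, dif_pos hy] at e'
    rw [← (h₁ x hx).choose_spec, ← (h₁ y hy).choose_spec, Fin.ext (nat_inj e')]

end

end Gen

end Pool.Agent.MP_85ce7b_lc
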