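import Pool.Agent.MP_85ce7b_lc.L.NOrd

namespace Pool.Agent.MP_85ce7b_lc

open Pool.Agent.MP_c6cf52_lc Name Set Cardinal Ordinal

section Abstract

variable {P : Type 2} [Preorder P]

/-- A family of bounding predicates below `p`. -/
structure ZF (p : P) (ν τ : Od) (Z : Od → Od → P → Prop) : Prop where
  mono : ∀ i ζ ζ' r r', r ≤ p → Z i ζ r → r' ≤ r → ζ ≤ ζ' → Z i ζ' r'
  reg : ∀ i ζ r, r ≤ p → (∀ r' ≤ r, ∃ r'' ≤ r', Z i ζ r'') → Z i ζ r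
  dense : ∀ i < ν, ∀ r ≤ p, ∃ r' ≤ r, ∃ ζ < τ, Z i ζ r'

/-- The bounding property. -/
def Bnd (p : P) (ν τ : Od) : Prop :=
  ∀ p' ≤ p, ∀ Z, ZF p' ν τ Z → ∃ q ≤ p', ∃ ζ < τ, ∀ i < ν, Z i ζ q

theorem Bnd.mono {p p' : P} {ν τ : Od} (h : Bnd p ν τ) (hp : p' ≤ p) : Bnd p' ν τ :=
  fun q hq => h q (hq.trans hp)

theorem bnd_sing {p : P} {ν τ : Od} {k : Cardinal.{1}} (hk : ℵ₀ ≤ k) (hs : k.ord.cof < k)
    (h : ∀ ν' < k.ord, Bnd p ν' τ) (hν : ν.card ≤ k) : Bnd p ν τ := by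
  intro p' hp' Z hZ
  have hl : Order.IsSuccLimit k.ord := isSuccLimit_ord hk
  obtain ⟨-, -, ζ₀, hζ₀, -⟩ := h 0 hl.bot_lt p' hp' (fun _ _ _ => True)
    ⟨fun _ _ _ _ _ _ _ _ _ => trivial, fun _ _ _ _ _ => trivial, fun i hi => by simp at hi⟩
  obtain ⟨e, he⟩ := exists_enum_of_le (S := Iio ν) (c := k) (by
    rw [Cardinal.mk_Iio_ordinal]; exact Cardinal.lift_le.2 hν)
  obtain ⟨f, f1, f2⟩ := exists_cof_map k.ord
  obtain ⟨q, hq, ζ, hζ, H⟩ := h k.ord.cof.ord (ord_lt_ord.2 hs) p' hp'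
    (fun j ζ r => ∀ i ≤ f j, e i < ν → Z (e i) ζ r)
    ⟨fun j ζ ζ' r r' hr hz h₁ h₂ i hi hi' => hZ.mono _ _ _ _ _ hr (hz i hi hi') h₁ h₂,
      fun j ζ r hr hz i hi hi' => hZ.reg _ _ _ hr fun r' hr' =>
        let ⟨r'', k₁, k₂⟩ := hz r' hr'
        ⟨r'', k₁, k₂ i hi hi'⟩,
      fun j hj r hr => by
        obtain ⟨q, hq, ζ, hζ, H⟩ := h (Order.succ (f j)) (hl.succ_lt (f1 j hj)) r (hr.trans hp')
          (fun i ζ s => e i < ν → Z (e i) ζ s)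
          ⟨fun i ζ ζ' s s' hs hz h₁ h₂ hi => hZ.mono _ _ _ _ _ (hs.trans hr) (hz hi) h₁ h₂,
            fun i ζ s hs hz hi => hZ.reg _ _ _ (hs.trans hr) fun s' hs' =>
              let ⟨s'', k₁, k₂⟩ := hz s' hs'
              ⟨s'', k₁, k₂ hi⟩,
            fun i _ s hs => by
              by_cases hi : e i < ν
              · obtain ⟨s', k₁, ζ, k₂, k₃⟩ := hZ.dense _ hi s (hs.trans hr)
                exact ⟨s', k₁, ζ, k₂, fun _ => k₃⟩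
              · exact ⟨s, le_rfl, ζ₀, hζ₀, fun k => absurd k hi⟩⟩
        exact ⟨q, hq, ζ, hζ, fun i hi => H i (Order.lt_succ_iff.2 hi)⟩⟩
  refine ⟨q, hq, ζ, hζ, fun x hx => ?_⟩
  obtain ⟨i, hi, rfl⟩ := he x hx
  obtain ⟨j, hj, hij⟩ := f2 i hi
  exact H j hj i hij hx

end Abstract

variable {P : Type 2} [Sz P] [Preorder P] [OrderTop P] [Tame P]

/-- A relation on ordinals that is decided by a small set of conditions. -/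
structure FR (Ψ : P → Od → Od → Prop) : Prop where
  mono : ∀ p q a b, Ψ p a b → q ≤ p → Ψ q a b
  gen : ∀ bd < (Sz.θ P).ord, ∃ S : Set P, Sm P S ∧
    ∀ p, ∀ a < bd, ∀ b < bd, Ψ p a b → ∃ s ∈ S, p ≤ s ∧ Ψ s a b

theorem FR.ground (Φ : Od → Od → Prop) : FR (fun (_ : P) a b => Φ a b) := by
  exact ⟨fun _ _ _ _ h _ => h, fun _ _ => ⟨{⊤}, Sm.of_countable,
    fun _ _ _ _ _ h => ⟨⊤, rfl, le_top, h⟩⟩⟩

theorem FR.name {Ψ : P → Od → Od → Prop} (h : FR Ψ) {bd : Od} (hbd : bd < (Sz.θ P).ord) :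
    ∃ τ : Name P, ∀ g : Gen P, τ ∈ g.N → ∀ s t, App g.E (g.v τ) s t ↔
      ∃ a < bd, ∃ b < bd, g.In a ∧ g.In b ∧ s = g.o a ∧ t = g.o b ∧ ∃ p ∈ g.G, Ψ p a b := by
  obtain ⟨S, hS, H⟩ := h.gen bd hbd
  have := Sm.iio (P := P) hbd
  refine ⟨Gen.relN (ι := {x : Iio bd × Iio bd × S // Ψ x.2.2.1 x.1.1 x.2.1.1})
    (fun x => oN x.1.1.1) (fun x => oN x.1.2.1.1) (fun x => x.1.2.2.1), fun g hg s t => ?_⟩
  rw [Gen.app_relN hg]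
  constructor
  · rintro ⟨⟨⟨⟨a, ha⟩, ⟨b, hb⟩, ⟨r, hr⟩⟩, hx⟩, k₁, k₂, k₃, k₄, k₅⟩
    exact ⟨a, ha, b, hb, ⟨lt_trans ha hbd, k₂⟩, ⟨lt_trans hb hbd, k₃⟩, k₄, k₅, r, k₁, hx⟩
  · rintro ⟨a, ha, b, hb, k₂, k₃, k₄, k₅, r, k₁, hx⟩
    obtain ⟨s, hs, k₆, k₇⟩ := H r a ha b hb hx
    exact ⟨⟨⟨⟨a, ha⟩, ⟨b, hb⟩, ⟨s, hs⟩⟩, k₇⟩, g.up k₁ k₆, k₂.2, k₃.2, k₄, k₅⟩

namespace Gen

variable {g : Gen P} {p : P} {a c τ : Od} {Ψ : P → Od → Od → Prop}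

theorem nbnd_fnl (i : ℕ) : UDef.{3} (fun _ E w => Fnl E (w i)) :=
  UDef.all (UDef.all (UDef.all ((UDef.app _ _ _).imp ((UDef.app _ _ _).imp (UDef.eq _ _)))))

theorem nbnd_cofMap (i j k : ℕ) : UDef.{3} (fun _ E w => CofMap E (w i) (w j) (w k)) :=
  UDef.all ((UDef.mem _ _).imp (UDef.ex (UDef.ex ((UDef.mem _ _).and ((UDef.mem _ _).and
    ((UDef.app _ _ _).and (UD.leq _ _)))))))

theorem nbnd_succ (i : ℕ) : UDef.{3} (fun _ E w => Succ E (w i)) :=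
  UDef.ex ((UDef.mem _ _).and (UDef.all ((UDef.mem _ _).imp ((UDef.mem _ _).imp
    (UD.isCard _).not))))

theorem nbnd_lim (i : ℕ) : UDef.{3} (fun _ E w => Lim E (IsReg E) (w i)) :=
  (UDef.ex (UDef.mem _ _)).and (UDef.all ((UDef.mem _ _).imp (UDef.ex ((UDef.mem _ _).and
    ((UDef.mem _ _).and (UD.isReg _))))))

theorem nbnd_fnl_name (h : FR Ψ) (hp : p ∈ g.G) {f : g.M} {bd : Od}
    (hf : ∀ s t, App g.E f s t ↔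
      ∃ a < bd, ∃ b < bd, g.In a ∧ g.In b ∧ s = g.o a ∧ t = g.o b ∧ ∃ p ∈ g.G, Ψ p a b)
    (fn : ∀ q ≤ p, ∀ i v v', Ψ q i v → Ψ q i v' → v = v') : Fnl g.E f := by
  intro x y y' e e'
  obtain ⟨a₁, -, b₁, -, k₁, -, rfl, rfl, p₁, hp₁, l₁⟩ := (hf _ _).1 e
  obtain ⟨a₂, -, b₂, -, k₂, -, k₃, rfl, p₂, hp₂, l₂⟩ := (hf _ _).1 e'
  obtain rfl := o_inj k₁ k₂ k₃
  obtain ⟨q, hq, q₁, q₂⟩ := g.dir hp₁ hp₂
  obtain ⟨r, -, r₁, r₂⟩ := g.dir hq hp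
  rw [fn r r₂ _ _ _ (h.mono _ _ _ _ l₁ (r₁.trans q₁)) (h.mono _ _ _ _ l₂ (r₁.trans q₂))]

theorem cofMap_dense (h : FR Ψ) (hp : p ∈ g.G) (ha : g.In a) (hc : g.In c)
    (fn : ∀ q ≤ p, ∀ i v v', Ψ q i v → Ψ q i v' → v = v')
    (dn : ∀ v < a, ∀ q ≤ p, ∃ r ≤ q, ∃ i < c, ∃ w < a, v ≤ w ∧ Ψ r i w) :
    ∃ f, Fnl g.E f ∧ CofMap g.E f (g.o c) (g.o a) := by
  obtain ⟨σ, hσ⟩ := h.name (max_lt ha.1 hc.1)
  refine dens (Ψ := fun _ E w => ∃ f, Fnl E f ∧ CofMap E f (w 0) (w 1))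
    (UDef.ex ((nbnd_fnl _).and (nbnd_cofMap _ _ _))) (l2 hc.2 ha.2) fun p₁ hp₁ => ?_
  obtain ⟨q, -, q₁, q₂⟩ := g.dir hp₁ hp
  refine ⟨q, q₁, {σ}, countable_singleton _, fun g' hq' hC hl => ?_⟩
  have hp' : p ∈ g'.G := g'.up hq' q₂
  have hs : σ ∈ g'.N := hC rfl
  have hc' : g'.In c := ⟨hc.1, hl _ (by simp)⟩
  have ha' : g'.In a := ⟨ha.1, hl _ (by simp)⟩
  refine ⟨g'.v σ, nbnd_fnl_name h hp' (hσ g' hs) fn, fun x hx => ?_⟩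
  obtain ⟨v, hv, hv', rfl⟩ := (E_o ha').1 hx
  refine dens_o (Ψ := fun _ E w => ∃ i y, E i (w 1) ∧ E y (w 2) ∧ App E (w 0) i y ∧ Leq E (w 3) y)
    (UDef.ex (UDef.ex ((UDef.mem _ _).and ((UDef.mem _ _).and
      ((UDef.app _ _ _).and (UD.leq _ _)))))) (l4 hs hc'.2 ha'.2 hv'.2) fun p₂ hp₂ => ?_
  obtain ⟨q', -, q₃, q₄⟩ := g'.dir hp₂ hp'
  obtain ⟨r, hr, i, hi, w, hw, hvw, hΨ⟩ := dn v hv q' q₄
  refine ⟨r, hr.trans q₃, ∅, {i, w}, countable_empty, (toFinite _).countable, ?_,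
    fun g'' hr' _ hS hl' => ?_⟩
  · rintro _ (rfl | rfl)
    exacts [hi.trans hc.1, hw.trans ha.1]
  have ki := hS i (by simp)
  have kw := hS w (by simp)
  have kc : g''.In c := ⟨hc.1, hl' _ (by simp)⟩
  have ka : g''.In a := ⟨ha.1, hl' _ (by simp)⟩
  have kv : g''.In v := ⟨hv'.1, hl' _ (by simp)⟩
  exact ⟨g''.o i, g''.o w, (o_lt_iff ki kc).2 hi, (o_lt_iff kw ka).2 hw,
    (hσ g'' (hl' _ (by simp)) _ _).2 ⟨i, lt_max_of_lt_right hi, w, lt_max_of_lt_left hw, ki, kw,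
      rfl, rfl, r, hr', hΨ⟩, (o_leq_iff kv kw).2 hvw⟩

theorem not_card_dense (h : FR Ψ) (hp : p ∈ g.G) (ha : g.In a) (hc : c < a)
    (fn : ∀ q ≤ p, ∀ i v v', Ψ q i v → Ψ q i v' → v = v')
    (dn : ∀ v < a, ∀ q ≤ p, ∃ r ≤ q, ∃ i < c, Ψ r i v) : ¬ IsCard g.E (g.o a) := by
  obtain ⟨σ, hσ⟩ := h.name ha.1
  refine dens_o (Ψ := fun _ E w => ¬ IsCard E (w 0)) (UD.isCard _).not (l1 ha.2)
    fun p₁ hp₁ => ?_
  obtain ⟨q, -, q₁, q₂⟩ := g.dir hp₁ hp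
  refine ⟨q, q₁, {σ}, {c}, countable_singleton _, countable_singleton _,
    singleton_subset_iff.2 (hc.trans ha.1), fun g' hq' hC hS hl => ?_⟩
  have hp' : p ∈ g'.G := g'.up hq' q₂
  have hs : σ ∈ g'.N := hC rfl
  have hc' : g'.In c := hS c rfl
  have ha' : g'.In a := ⟨ha.1, hl _ (by simp)⟩
  refine not_card_of_rel ((o_lt_iff hc' ha').2 hc) (nbnd_fnl_name h hp' (hσ g' hs) fn)
    fun x hx => ?_
  obtain ⟨v, hv, hv', rfl⟩ := (E_o ha').1 hx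
  refine dens_o (Ψ := fun _ E w => ∃ i, E i (w 1) ∧ App E (w 0) i (w 2))
    (UDef.ex ((UDef.mem _ _).and (UDef.app _ _ _))) (l3 hs hc'.2 hv'.2) fun p₂ hp₂ => ?_
  obtain ⟨q', -, q₃, q₄⟩ := g'.dir hp₂ hp'
  obtain ⟨r, hr, i, hi, hΨ⟩ := dn v hv q' q₄
  refine ⟨r, hr.trans q₃, ∅, {i}, countable_empty, countable_singleton _,
    singleton_subset_iff.2 (hi.trans hc'.1), fun g'' hr' _ hS' hl' => ?_⟩
  have ki := hS' i rfl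
  have kc : g''.In c := ⟨hc'.1, hl' _ (by simp)⟩
  have kv : g''.In v := ⟨hv'.1, hl' _ (by simp)⟩
  exact ⟨g''.o i, (o_lt_iff ki kc).2 hi,
    (hσ g'' (hl' _ (by simp)) _ _).2 ⟨i, hi.trans hc, v, hv, ki, kv, rfl, rfl, r, hr', hΨ⟩⟩

theorem not_reg_dense (h : FR Ψ) (hp : p ∈ g.G) (ha : g.In a) (hc : c < a)
    (fn : ∀ q ≤ p, ∀ i v v', Ψ q i v → Ψ q i v' → v = v')
    (dn : ∀ v < a, ∀ q ≤ p, ∃ r ≤ q, ∃ i < c, ∃ w < a, v ≤ w ∧ Ψ r i w) :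
    ¬ IsReg g.E (g.o a) := by
  refine dens_o (Ψ := fun _ E w => ¬ IsReg E (w 0)) (UD.isReg _).not (l1 ha.2)
    fun p₁ hp₁ => ?_
  obtain ⟨q, -, q₁, q₂⟩ := g.dir hp₁ hp
  refine ⟨q, q₁, ∅, {c}, countable_empty, countable_singleton _,
    singleton_subset_iff.2 (hc.trans ha.1), fun g' hq' _ hS hl => ?_⟩
  have hc' : g'.In c := hS c rfl
  have ha' : g'.In a := ⟨ha.1, hl _ (by simp)⟩
  obtain ⟨f, f₁, f₂⟩ := cofMap_dense h (g'.up hq' q₂) ha' hc' fn dn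
  exact not_reg_of_cof ((o_lt_iff hc' ha').2 hc) f₁ f₂

theorem ground_card (ha : g.In a) (h : IsCard g.E (g.o a)) : a.card.ord = a := by
  by_contra hn
  have hc : a.card.ord < a := lt_of_le_of_ne (ord_card_le a) hn
  obtain ⟨e, he⟩ := exists_enum_of_le (S := Iio a) (c := a.card) (by
    rw [Cardinal.mk_Iio_ordinal])
  refine not_card_dense (FR.ground fun i v => e i = v) g.top ha hc
    (fun _ _ _ _ _ k₁ k₂ => k₁.symm.trans k₂) (fun v hv q _ => ?_) h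
  obtain ⟨i, hi, k⟩ := he v hv
  exact ⟨q, le_rfl, i, hi, k⟩

theorem not_reg_ground (ha : g.In a) (h : a.cof.ord < a) : ¬ IsReg g.E (g.o a) := by
  obtain ⟨f, f1, f2⟩ := exists_cof_map a
  refine not_reg_dense (FR.ground fun i v => f i = v) g.top ha h
    (fun _ _ _ _ _ k₁ k₂ => k₁.symm.trans k₂) fun v hv q _ => ?_
  obtain ⟨i, hi, k⟩ := f2 v hv
  exact ⟨q, le_rfl, i, hi, f i, f1 i hi, k, rfl⟩

theorem succ_ground {k : Cardinal.{1}} (ha : g.In (Order.succ k).ord) :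
    Succ g.E (g.o (Order.succ k).ord) := by
  have hk : k.ord < (Order.succ k).ord := ord_lt_ord.2 (Order.lt_succ k)
  refine dens_o (Ψ := fun _ E w => Succ E (w 0)) (nbnd_succ _) (l1 ha.2) fun p₁ _ => ?_
  refine ⟨p₁, le_rfl, ∅, {k.ord}, countable_empty, countable_singleton _,
    singleton_subset_iff.2 (hk.trans ha.1), fun g' _ _ hS hl => ?_⟩
  have hc' : g'.In k.ord := hS _ rfl
  have ha' : g'.In (Order.succ k).ord := ⟨ha.1, hl _ (by simp)⟩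
  refine ⟨g'.o k.ord, (o_lt_iff hc' ha').2 hk, fun z h₁ h₂ h₃ => ?_⟩
  obtain ⟨ζ, k₁, k₂, rfl⟩ := (E_o ha').1 h₂
  have k₃ := (o_lt_iff hc' k₂).1 h₁
  rw [← ground_card k₂ h₃, ord_lt_ord] at k₁ k₃
  exact absurd (Order.lt_succ_iff.1 k₁) (not_le.2 k₃)

theorem reg_of_bnd (hp : p ∈ g.G) (hτ : g.In τ) (hl : Order.IsSuccLimit τ)
    (h : ∀ ν < τ, Bnd p ν τ) :
    IsReg g.E (g.o τ) := by
  by_contra hn
  obtain ⟨c, f, k₁, k₂, k₃⟩ := cof_of_not_reg (isOrd_o hτ)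
    ((inf_o hτ).2 (omega0_le_of_isSuccLimit hl)) hn
  obtain ⟨ν, hν, hν', rfl⟩ := (E_o hτ).1 k₁
  obtain ⟨σ, hσ, rfl⟩ := exists_v f
  obtain ⟨p₁, hp₁, H₁⟩ := transfer (nbnd_fnl 0) (l1 hσ) k₂
  obtain ⟨p₂, hp₂, H₂⟩ := transfer (nbnd_cofMap 0 1 2) (l3 hσ hν'.2 hτ.2) k₃
  obtain ⟨p₃, hp₃, e₁, e₂⟩ := g.dir hp₁ hp₂
  obtain ⟨p₄, -, e₃, e₄⟩ := g.dir hp₃ hp
  let F : P → Od → Od → Prop := fun r i y => ∀ g' : Gen P, r ∈ g'.G → σ ∈ g'.N → g'.In i →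
    g'.In y → App g'.E (g'.v σ) (g'.o i) (g'.o y)
  have Fm : ∀ r r' i y, F r i y → r' ≤ r → F r' i y :=
    fun r r' i y k e g' hr => k g' (g'.up hr e)
  obtain ⟨q, hq, ζ, hζ, H⟩ := h ν hν p₄ e₄
    (fun i ζ r => ∀ y < τ, ζ < y → ∀ r' ≤ r, ¬ F r' i y)
    ⟨fun i ζ ζ' r r' _ hz h₁ h₂ y hy hy' s hs => hz y hy (h₂.trans_lt hy') s (hs.trans h₁),
      fun i ζ r _ hz y hy hy' s hs k =>
        let ⟨s', k₁, k₂⟩ := hz s hs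
        k₂ y hy hy' s' le_rfl (Fm _ _ _ _ k k₁),
      fun i hi r hr => by
        by_cases e : ∃ y < τ, ∃ r' ≤ r, F r' i y
        · obtain ⟨y, hy, r', hr', k⟩ := e
          refine ⟨r', hr', y, hy, fun y' hy' hyy s hs k' => ?_⟩
          obtain ⟨g', m₁, m₂, m₃⟩ := exists_gen_o s {σ} {i, y, y'} (countable_singleton _)
            (toFinite _).countable (by
              rintro _ (rfl | rfl | rfl)
              exacts [(hi.trans hν).trans hτ.1, hy.trans hτ.1, hy'.trans hτ.1])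
          have n₀ : σ ∈ g'.N := m₂ rfl
          have n₁ := m₃ i (by simp)
          have n₂ := m₃ y (by simp)
          have n₃ := m₃ y' (by simp)
          have := H₁ g' (g'.up m₁ (hs.trans (hr'.trans (hr.trans (e₃.trans e₁))))) (l1 n₀) _ _ _
            (k g' (g'.up m₁ hs) n₀ n₁ n₂) (k' g' m₁ n₀ n₁ n₃)
          exact hyy.ne (o_inj n₂ n₃ this)
        · exact ⟨r, le_rfl, 0, hl.bot_lt, fun y hy _ s hs k => e ⟨y, hy, s, hs, k⟩⟩⟩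
  have hζ' : Order.succ ζ < τ := hl.succ_lt hζ
  obtain ⟨g', m₁, m₂, m₃⟩ := exists_gen_o q {σ} {ν, τ, Order.succ ζ} (countable_singleton _)
    (toFinite _).countable (by
      rintro _ (rfl | rfl | rfl)
      exacts [hν'.1, hτ.1, hζ'.trans hτ.1])
  have n₀ : σ ∈ g'.N := m₂ rfl
  have n₁ := m₃ ν (by simp)
  have n₂ := m₃ τ (by simp)
  have n₃ := m₃ (Order.succ ζ) (by simp)
  obtain ⟨i, y, c₁, c₂, c₃, c₄⟩ := H₂ g' (g'.up m₁ (hq.trans (e₃.trans e₂))) (l3 n₀ n₁.2 n₂.2)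
    (g'.o (Order.succ ζ)) ((o_lt_iff n₃ n₂).2 hζ')
  obtain ⟨i, d₁, d₂, rfl⟩ := (E_o n₁).1 c₁
  obtain ⟨y, d₃, d₄, rfl⟩ := (E_o n₂).1 c₂
  obtain ⟨s, hs, K⟩ := transfer_app n₀ d₂.2 d₄.2 c₃
  obtain ⟨r, -, r₁, r₂⟩ := g'.dir m₁ hs
  exact H i d₁ y d₃ (Order.succ_le_iff.1 ((o_leq_iff n₃ d₄).1 c₄)) r r₁
    fun g'' t₁ t₂ t₃ t₄ => K g'' (g''.up t₁ r₂) t₂ t₃.2 t₄.2

theorem card_of_lim_dense (hp : p ∈ g.G) (ha : g.In a)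
    (h : ∀ b < a, ∃ τ, b < τ ∧ τ ≤ a ∧ ∀ g' : Gen P, p ∈ g'.G → g'.In τ → IsCard g'.E (g'.o τ)) :
    IsCard g.E (g.o a) := by
  refine card_of_lim (isOrd_o ha) fun x hx => ?_
  obtain ⟨b, hb, hb', rfl⟩ := (E_o ha).1 hx
  obtain ⟨t, t₁, t₂, H⟩ := h b hb
  refine dens_o (Ψ := fun _ E w => ∃ z, IsCard E z ∧ E (w 0) z ∧ Leq E z (w 1))
    (UDef.ex ((UD.isCard _).and ((UDef.mem _ _).and (UD.leq _ _)))) (l2 hb'.2 ha.2)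
    fun p₁ hp₁ => ?_
  obtain ⟨q, -, q₁, q₂⟩ := g.dir hp₁ hp
  refine ⟨q, q₁, ∅, {t}, countable_empty, countable_singleton _,
    singleton_subset_iff.2 (t₂.trans_lt ha.1), fun g' hq' _ hS hl => ?_⟩
  have kt : g'.In t := hS t rfl
  have kb : g'.In b := ⟨hb'.1, hl _ (by simp)⟩
  have ka : g'.In a := ⟨ha.1, hl _ (by simp)⟩
  exact ⟨g'.o t, H g' (g'.up hq' q₂) kt, (o_lt_iff kb kt).2 t₁, (o_leq_iff kt ka).2 t₂⟩

/-- A limit of regular cardinals of the model has many cardinals below it. -/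
theorem lim_reg_many (ha : g.In a) (h : Lim g.E (IsReg g.E) (g.o a)) {b : Od} (hb : b < a)
    (S : Set Od) (hS : S.Finite)
    (H : ∀ g' : Gen P, p ∈ g'.G → ∀ z, b < z → z < a → g'.In z → IsCard g'.E (g'.o z) → z ∈ S)
    (hp : p ∈ g.G) : False := by
  obtain ⟨p₁, hp₁, H₁⟩ := transfer (nbnd_lim 0) (l1 ha.2) h
  obtain ⟨q, -, q₁, q₂⟩ := g.dir hp₁ hp
  obtain ⟨m, hm, hmax⟩ := Set.exists_max_image (insert b (S ∩ Iio a)) id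
    ((hS.inter_of_left _).insert b) ⟨b, mem_insert _ _⟩
  have hma : m < a := by
    rcases hm with rfl | hm
    exacts [hb, hm.2]
  obtain ⟨g', m₁, -, m₃⟩ := exists_gen_o q ∅ {a, m} countable_empty (toFinite _).countable (by
    rintro _ (rfl | rfl)
    exacts [ha.1, hma.trans ha.1])
  have n₁ := m₃ a (by simp)
  have n₂ := m₃ m (by simp)
  obtain ⟨z, z₁, z₂, z₃⟩ := (H₁ g' (g'.up m₁ q₁) (l1 n₁.2)).2 (g'.o m) ((o_lt_iff n₂ n₁).2 hma)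
  obtain ⟨ζ, k₁, k₂, rfl⟩ := (E_o n₁).1 z₁
  have k₃ := (o_lt_iff n₂ k₂).1 z₂
  have k₄ : b ≤ m := hmax b (mem_insert _ _)
  have k₅ := H g' (g'.up m₁ q₂) ζ (k₄.trans_lt k₃) k₁ k₂ z₃.1
  exact absurd (hmax ζ (mem_insert_of_mem _ ⟨k₅, k₁⟩)) (not_le.2 k₃)

end Gen

end Pool.Agent.MP_85ce7b_lc
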