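import Pool.Agent.MP_c6cf52_lc.Fml

namespace Pool.Agent.MP_85ce7b_lc

open Pool.Agent.MP_c6cf52_lc

universe u v

open Cardinal in
/-- The height of the ground universe: an inaccessible cardinal. -/
class Sz (P : Type 2) where
  θ : Cardinal.{1}
  inacc : θ.IsInaccessible

open Cardinal in
/-- Small types. -/
class Sm (P : Type 2) [Sz P] (ι : Type 2) : Prop where
  out : Cardinal.mk ι < lift.{2} (Sz.θ P)

section SmInst

open Cardinal

variable {P : Type 2} [Sz P] {α β : Type 2}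

theorem Sm.of_inj (f : α → β) (hf : Function.Injective f) [h : Sm P β] : Sm P α :=
  ⟨(mk_le_of_injective hf).trans_lt h.out⟩

instance : Sm P (ULift.{2} ℕ) := ⟨by simpa using (Sz.inacc (P := P)).aleph0_lt⟩

theorem Sm.iio {a : Ordinal.{1}} (h : a < (Sz.θ P).ord) : Sm P (Set.Iio a) :=
  ⟨by rw [Ordinal.mk_Iio_ordinal, lift_lt]; exact lt_ord.1 h⟩

theorem Sm.small [h : Sm P α] : Small.{1} α := small_iff_lift_mk_lt_univ.2 (by
  simpa using h.out.trans (lift_lt_univ.{1} _))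

theorem Sm.of_countable [Countable α] : Sm P α := by
  obtain ⟨f, hf⟩ := exists_injective_nat α
  exact Sm.of_inj (fun a => (⟨f a⟩ : ULift.{2} ℕ)) fun a b h => hf (congrArg ULift.down h)

instance : Sm P (ULift.{2} Bool) := Sm.of_countable

instance : Sm P PEmpty.{3} := Sm.of_countable

instance : Sm P PUnit.{3} := Sm.of_countable

instance [h : Sm P α] : Sm P (Set α) := ⟨by
  obtain ⟨c, hc, e⟩ := lt_lift_iff.1 h.out
  rw [mk_set, ← e, ← lift_two_power, lift_lt]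
  exact (Sz.inacc (P := P)).isStrongLimit.two_power_lt hc⟩

instance {f : α → Type 2} [h : Sm P α] [h' : ∀ i, Sm P (f i)] : Sm P (Σ i, f i) :=
  ⟨by
    rw [mk_sigma]
    exact sum_lt_of_isRegular (Sz.inacc (P := P)).isRegular.lift h.out fun i => (h' i).out⟩

instance [Sm P α] [Sm P β] : Sm P (α × β) :=
  Sm.of_inj (fun z => (⟨z.1, z.2⟩ : Σ _ : α, β)) fun a b h => by
    simpa [Prod.ext_iff] using h

instance [Sm P α] (p : α → Prop) : Sm P {x // p x} := Sm.of_inj _ Subtype.val_injective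

instance [Sm P α] (S : Set α) : Sm P S := Sm.of_inj _ Subtype.val_injective

instance [Sm P α] [Sm P β] : Sm P (α ⊕ β) :=
  Sm.of_inj (β := Set α × Set β) (fun z => (Sum.inl ⁻¹' {z}, Sum.inr ⁻¹' {z})) (by
    rintro (a | a) (b | b) h <;> simp only [Prod.mk.injEq, Set.ext_iff] at h
    · simpa using h.1 a
    · simpa using h.1 a
    · simpa using h.2 a
    · simpa using h.2 a)

instance [Sm P α] [Sm P β] : Sm P (α → β) :=
  Sm.of_inj (β := Set (α × β)) (fun f => {z | f z.1 = z.2}) fun f g h => funext fun a => by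
    have := Set.ext_iff.1 h (a, f a)
    simpa [eq_comm] using this

end SmInst

/-- `P`-names with small index types. -/
inductive Name (P : Type 2) [Sz P] : Type 3
  | mk (ι : Type 2) [h : Sm P ι] (A : ι → Name P) (B : ι → P) : Name P

namespace Name

variable {P : Type 2} [Sz P]

def I : Name P → Type 2
  | @mk _ _ ι _ _ _ => ι

def A : (τ : Name P) → τ.I → Name P
  | @mk _ _ _ _ A _ => A

def B : (τ : Name P) → τ.I → P
  | @mk _ _ _ _ _ B => B

instance : (τ : Name P) → Sm P τ.I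
  | @mk _ _ _ h _ _ => h

@[simp] theorem A_mk (ι : Type 2) [Sm P ι] (A : ι → Name P) (B : ι → P) : (mk ι A B).A = A := rfl
@[simp] theorem B_mk (ι : Type 2) [Sm P ι] (A : ι → Name P) (B : ι → P) : (mk ι A B).B = B := rfl

theorem ind {C : Name P → Prop} (h : ∀ τ : Name P, (∀ i, C (τ.A i)) → C τ) : ∀ τ, C τ := by
  intro τ
  induction τ with
  | mk ι A B ih => exact h _ ih

section Order

variable [Preorder P]

def FEq : Name P → Name P → P → Prop
  | @mk _ _ _ _ A B, @mk _ _ _ _ A' B', p =>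
    (∀ i, ∀ q ≤ p, q ≤ B i → ∃ r ≤ q, ∃ j, r ≤ B' j ∧ FEq (A i) (A' j) r) ∧
    (∀ j, ∀ q ≤ p, q ≤ B' j → ∃ r ≤ q, ∃ i, r ≤ B i ∧ FEq (A i) (A' j) r)

def FMem (σ τ : Name P) (p : P) : Prop :=
  ∀ q ≤ p, ∃ r ≤ q, ∃ j, r ≤ τ.B j ∧ FEq σ (τ.A j) r

theorem feq_def (σ τ : Name P) (p : P) : FEq σ τ p ↔
    (∀ i, ∀ q ≤ p, q ≤ σ.B i → ∃ r ≤ q, ∃ j, r ≤ τ.B j ∧ FEq (σ.A i) (τ.A j) r) ∧
    (∀ j, ∀ q ≤ p, q ≤ τ.B j → ∃ r ≤ q, ∃ i, r ≤ σ.B i ∧ FEq (σ.A i) (τ.A j) r) := by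
  cases σ; cases τ; rfl

theorem FEq.symm : ∀ {σ τ : Name P} {p : P}, FEq σ τ p → FEq τ σ p := by
  intro σ
  induction σ using Name.ind with
  | h σ ih =>
    intro τ p h
    rw [feq_def] at h ⊢
    refine ⟨fun j q hq hj => ?_, fun i q hq hi => ?_⟩
    · obtain ⟨r, hr, i, hi, e⟩ := h.2 j q hq hj
      exact ⟨r, hr, i, hi, ih i e⟩
    · obtain ⟨r, hr, j, hj, e⟩ := h.1 i q hq hi
      exact ⟨r, hr, j, hj, ih i e⟩

theorem FEq.mono {σ τ : Name P} {p q : P} (h : FEq σ τ p) (hq : q ≤ p) : FEq σ τ q := by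
  rw [feq_def] at h ⊢
  exact ⟨fun i r hr => h.1 i r (hr.trans hq), fun j r hr => h.2 j r (hr.trans hq)⟩

theorem FMem.mono {σ τ : Name P} {p q : P} (h : FMem σ τ p) (hq : q ≤ p) : FMem σ τ q :=
  fun r hr => h r (hr.trans hq)

theorem feq_iff (σ τ : Name P) (p : P) : FEq σ τ p ↔
    (∀ i, ∀ q ≤ p, q ≤ σ.B i → FMem (σ.A i) τ q) ∧
    (∀ j, ∀ q ≤ p, q ≤ τ.B j → FMem (τ.A j) σ q) := by
  rw [feq_def]
  constructor
  · rintro ⟨h₁, h₂⟩
    refine ⟨fun i q hq hi r hr => h₁ i r (hr.trans hq) (hr.trans hi), fun j q hq hj r hr => ?_⟩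
    obtain ⟨s, hs, i, hi, e⟩ := h₂ j r (hr.trans hq) (hr.trans hj)
    exact ⟨s, hs, i, hi, e.symm⟩
  · rintro ⟨h₁, h₂⟩
    refine ⟨fun i q hq hi => h₁ i q hq hi q le_rfl, fun j q hq hj => ?_⟩
    obtain ⟨s, hs, i, hi, e⟩ := h₂ j q hq hj q le_rfl
    exact ⟨s, hs, i, hi, e.symm⟩

theorem FMem.reg {σ τ : Name P} {p : P} (h : ∀ q ≤ p, ∃ r ≤ q, FMem σ τ r) : FMem σ τ p := by
  intro q hq
  obtain ⟨r, hr, h⟩ := h q hq
  obtain ⟨s, hs, h⟩ := h r le_rfl
  exact ⟨s, hs.trans hr, h⟩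

theorem FEq.reg {σ τ : Name P} {p : P} (h : ∀ q ≤ p, ∃ r ≤ q, FEq σ τ r) : FEq σ τ p := by
  rw [feq_iff]
  refine ⟨fun i q hq hi => FMem.reg fun s hs => ?_, fun j q hq hj => FMem.reg fun s hs => ?_⟩
  · obtain ⟨r, hr, e⟩ := h s (hs.trans hq)
    exact ⟨r, hr, ((feq_iff _ _ _).1 e).1 i r le_rfl (hr.trans (hs.trans hi))⟩
  · obtain ⟨r, hr, e⟩ := h s (hs.trans hq)
    exact ⟨r, hr, ((feq_iff _ _ _).1 e).2 j r le_rfl (hr.trans (hs.trans hj))⟩

theorem FMem.of_feq {σ τ : Name P} {p : P} {j : τ.I} (hj : p ≤ τ.B j) (e : FEq σ (τ.A j) p) :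
    FMem σ τ p := fun q hq => ⟨q, le_rfl, j, hq.trans hj, e.mono hq⟩

def Forces : Fml → (ℕ → Name P) → P → Prop
  | .mem i j, w, p => FMem (w i) (w j) p
  | .eq i j, w, p => FEq (w i) (w j) p
  | .bot, _, _ => False
  | .imp φ ψ, w, p => ∀ q ≤ p, Forces φ w q → Forces ψ w q
  | .all φ, w, p => ∀ τ, Forces φ (cons τ w) p

theorem Forces.mono : ∀ {φ : Fml} {w : ℕ → Name P} {p q : P},
    Forces φ w p → q ≤ p → Forces φ w q := by
  intro φ
  induction φ with
  | mem i j => intro w p q h hq; exact FMem.mono h hq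
  | eq i j => intro w p q h hq; exact FEq.mono h hq
  | bot => intro w p q h _; exact h
  | imp φ ψ _ _ => intro w p q h hq r hr; exact h r (hr.trans hq)
  | all φ ih => intro w p q h hq τ; exact ih (h τ) hq

theorem Forces.reg : ∀ {φ : Fml} {w : ℕ → Name P} {p : P},
    (∀ q ≤ p, ∃ r ≤ q, Forces φ w r) → Forces φ w p := by
  intro φ
  induction φ with
  | mem i j => intro w p h; exact FMem.reg h
  | eq i j => intro w p h; exact FEq.reg h
  | bot => intro w p h; obtain ⟨_, _, h⟩ := h p le_rfl; exact h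
  | imp φ ψ _ ih₂ =>
    intro w p h q hq hφ
    refine ih₂ fun r hr => ?_
    obtain ⟨s, hs, h⟩ := h r (hr.trans hq)
    exact ⟨s, hs, h s le_rfl (hφ.mono (hs.trans hr))⟩
  | all φ ih =>
    intro w p h τ
    refine ih fun q hq => ?_
    obtain ⟨r, hr, h⟩ := h q hq
    exact ⟨r, hr, h τ⟩

end Order

/-! ### Special names -/

def emp : Name P := mk PEmpty PEmpty.elim PEmpty.elim

instance : Inhabited (Name P) := ⟨emp⟩

open Classical in
noncomputable def child (k : ℕ) (τ : Name P) : Name P :=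
  if h : ∃ f : ℕ → τ.I, Function.Surjective f then τ.A (h.choose k) else emp

variable [Preorder P]

omit [Sz P] in
/-- `m` is the meet of `s` and `q`. -/
def Meet (m s q : P) : Prop := ∀ t, t ≤ m ↔ t ≤ s ∧ t ≤ q

/-- `S` captures all families of dense open sets indexed by `I`. -/
def Capt (I : Type 2) (S : Set P) : Prop :=
  ∀ D : I → P → Prop, (∀ i p q, D i p → q ≤ p → D i q) → (∀ i p, ∃ q ≤ p, D i q) →
    ∀ p, ∃ q ≤ p, ∀ i, ∀ r ≤ q, ∃ s ∈ S, ∃ m, D i m ∧ Meet m s q ∧ ∃ r' ≤ r, r' ≤ m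

end Name

/-- Tameness of a class forcing. -/
class Tame (P : Type 2) [Sz P] [Preorder P] : Prop where
  tame : ∀ (I : Type 2) [Sm P I], ∃ S : Set P, Sm P S ∧ Name.Capt I S

namespace Name

variable {P : Type 2} [Sz P] [Preorder P]

theorem feq_refl (τ : Name P) : ∀ p, FEq τ τ p := by
  induction τ using Name.ind with
  | h τ ih =>
    exact fun p => (feq_def _ _ _).2 ⟨fun i q _ h => ⟨q, le_rfl, i, h, ih i q⟩,
      fun i q _ h => ⟨q, le_rfl, i, h, ih i q⟩⟩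

theorem forces_rename : ∀ (φ : Fml) (f : ℕ → ℕ) (w : ℕ → Name P) (p : P),
    Forces (φ.rename f) w p ↔ Forces φ (fun k => w (f k)) p := by
  intro φ
  induction φ with
  | mem i j => intro f w p; rfl
  | eq i j => intro f w p; rfl
  | bot => intro f w p; rfl
  | imp φ ψ ih₁ ih₂ => intro f w p; simp only [Fml.rename, Forces, ih₁, ih₂]
  | all φ ih =>
    intro f w p
    simp only [Fml.rename, Forces, ih]
    refine forall_congr' fun x => ?_
    have : (fun k => cons x w (liftIdx f k)) = cons x (fun k => w (f k)) := by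
      funext k; cases k <;> rfl
    rw [this]

section SS

variable [Tame P]

/-- The capturing set of conditions for the index set of a name. -/
noncomputable def SS (τ : Name P) : Set P := (Tame.tame (P := P) τ.I).choose

instance (τ : Name P) : Sm P (SS τ) := (Tame.tame (P := P) τ.I).choose_spec.1

theorem capt_SS (τ : Name P) : Capt τ.I (SS τ) := (Tame.tame (P := P) τ.I).choose_spec.2

noncomputable def subN (τ : Name P) (S : Set (τ.I × SS τ)) : Name P :=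
  mk S (fun x => τ.A x.1.1) (fun x => x.1.2.1)

noncomputable def sepN (τ : Name P) (φ : Fml) (l : List (Name P)) (q : P) : Name P :=
  subN τ {x | ∀ t ≤ x.2.1, t ≤ q → t ≤ τ.B x.1 ∧ Forces φ (env emp (τ.A x.1 :: l)) t}

end SS

open Classical in
noncomputable def wit (φ : Fml) (l : List (Name P)) (q : P) : Name P :=
  if h : ∃ ρ, Forces φ (env emp (ρ :: l)) q then h.choose else emp

theorem wit_spec {φ : Fml} {l : List (Name P)} {q : P} {ρ : Name P}
    (h : Forces φ (env emp (ρ :: l)) q) : Forces φ (env emp (wit φ l q :: l)) q := by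
  have h' : ∃ ρ, Forces φ (env emp (ρ :: l)) q := ⟨ρ, h⟩
  unfold wit
  rw [dif_pos h']
  exact h'.choose_spec

variable [OrderTop P]

/-- The name of the set of (the values of) a family of names. -/
def fam {ι : Type 2} [Sm P ι] (A : ι → Name P) : Name P := mk ι A (fun _ => ⊤)

def upair (σ τ : Name P) : Name P := fam (fun b : ULift.{2} Bool => cond b.down σ τ)

def pairN (σ τ : Name P) : Name P := upair (upair σ σ) (upair σ τ)

def unionN (τ : Name P) : Name P := fam (fun x : Σ i : τ.I, (τ.A i).I => (τ.A x.1).A x.2)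

noncomputable def powN [Tame P] (τ : Name P) : Name P := fam (subN τ)

open Classical in
noncomputable def collN [Tame P] (τ : Name P) (φ : Fml) (l : List (Name P)) (q : P) : Name P :=
  fam (fun x : τ.I × SS τ => if h : ∃ m, Meet m x.2.1 q then wit φ (τ.A x.1 :: l) h.choose
    else emp)

open Classical in
/-- The canonical name of an ordinal. -/
noncomputable def oN : Ordinal.{1} → Name P :=
  (wellFounded_lt (α := Ordinal.{1})).fix fun a ih =>
    if h : a < (Sz.θ P).ord then @fam P _ _ _ (Set.Iio a) (Sm.iio h) (fun y => ih y.1 y.2)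
    else emp

theorem oN_eq {a : Ordinal.{1}} (h : a < (Sz.θ P).ord) :
    (oN a : Name P) = @fam P _ _ _ (Set.Iio a) (Sm.iio h) (fun y => oN y.1) := by
  unfold oN
  rw [WellFounded.fix_eq, dif_pos h]

/-- The rank of a name. -/
noncomputable def rk : Name P → Ordinal.{1}
  | @mk _ _ _ _ A _ => ⨆ i, Order.succ (rk (A i))

omit [Preorder P] [OrderTop P] in
theorem rk_def (τ : Name P) : rk τ = ⨆ i, Order.succ (rk (τ.A i)) := by cases τ; rfl

omit [Preorder P] [OrderTop P] in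
theorem rk_lt (τ : Name P) (i : τ.I) : rk (τ.A i) < rk τ := by
  have := Sm.small (P := P) (α := τ.I)
  rw [rk_def τ]
  exact (Order.lt_succ _).trans_le (Ordinal.le_iSup (fun i => Order.succ (rk (τ.A i))) i)

omit [Preorder P] [OrderTop P] in
theorem rk_small (τ : Name P) : rk τ < (Sz.θ P).ord := by
  induction τ using Name.ind with
  | h τ ih =>
    have := Sm.small (P := P) (α := τ.I)
    have hi := Sz.inacc (P := P)
    rw [rk_def, ← (equivShrink.{1} τ.I).symm.iSup_comp]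
    refine Cardinal.iSup_lt_ord_of_isRegular hi.isRegular ?_ fun i =>
      (Cardinal.isSuccLimit_ord hi.aleph0_lt.le).succ_lt (ih _)
    have h := Sm.out (P := P) (ι := τ.I)
    rw [← Cardinal.lift_lt.{1, 2}, Cardinal.lift_mk_shrink'']
    exact h

noncomputable def ordN {X : Type 2} [Sm P X] {r : X → X → Prop} (wf : WellFounded r) : X → Name P :=
  wf.fix (fun x ih => fam (fun y : {y // r y x} => ih y.1 y.2))

noncomputable def setN {X : Type 2} [Sm P X] {r : X → X → Prop} (wf : WellFounded r) (s : Set X) :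
    Name P :=
  fam (fun y : s => ordN wf y.1)

theorem ordN_eq {X : Type 2} [Sm P X] {r : X → X → Prop} (wf : WellFounded r) (x : X) :
    (ordN wf x : Name P) = setN wf {y | r y x} := by
  unfold ordN
  rw [wf.fix_eq]
  rfl

theorem natWf : WellFounded (fun a b : ULift.{2} ℕ => a.down < b.down) :=
  InvImage.wf ULift.down Nat.lt_wfRel.wf

theorem woWf (X : Type 2) : WellFounded (WellOrderingRel : X → X → Prop) :=
  (inferInstance : IsWellOrder X WellOrderingRel).wf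

noncomputable def enumN (τ : Name P) : Name P :=
  fam (fun j : τ.I => pairN (ordN (woWf τ.I) j) (τ.A j))

open Classical in
noncomputable def idxN (τ σ : Name P) : Name P :=
  if h : ∃ j, τ.A j = σ then pairN (ordN (woWf τ.I) h.choose) (τ.A h.choose) else emp

/-- The closure operations. -/
noncomputable def op [Tame P] (t k : ℕ) (l : List (Name P)) : Name P :=
  match t with
  | 0 => emp
  | 1 => upair (env emp l 0) (env emp l 1)
  | 2 => unionN (env emp l 0)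
  | 3 => oN (rk (env emp l 0))
  | 4 => powN (env emp l 0)
  | 5 => oN (Order.succ (rk (env emp l 0)))
  | 6 => oN Ordinal.omega0
  | 7 => setN natWf Set.univ
  | 8 => child k (env emp l 0)
  | 9 => enumN (env emp l 0)
  | _ => idxN (env emp l 0) (env emp l 1)

def reqMem (σ τ : Name P) (q : P) (ρ : Name P) : Prop :=
  (∀ r ≤ q, ¬ FMem σ τ r) ∨ ∃ i, q ≤ τ.B i ∧ FEq σ (τ.A i) q ∧ ρ = τ.A i

def reqEq (σ τ : Name P) (q : P) (ρ : Name P) : Prop :=
  FEq σ τ q ∨ (∃ i, q ≤ σ.B i ∧ (∀ r ≤ q, ¬ FMem (σ.A i) τ r) ∧ ρ = σ.A i) ∨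
    (∃ i, q ≤ τ.B i ∧ (∀ r ≤ q, ¬ FMem (τ.A i) σ r) ∧ ρ = τ.A i)

def reqDec (φ : Fml) (l : List (Name P)) (q : P) : Prop :=
  Forces φ (env emp l) q ∨ ∀ r ≤ q, ¬ Forces φ (env emp l) r

def reqWit (φ : Fml) (l : List (Name P)) (q : P) (ρ : Name P) : Prop :=
  (Forces φ (env emp (ρ :: l)) q ∧ ρ = wit φ l q) ∨
    ∀ r ≤ q, ∀ ρ', ¬ Forces φ (env emp (ρ' :: l)) r

def reqSep [Tame P] (τ : Name P) (φ : Fml) (l : List (Name P)) (q : P) (ρ : Name P) : Prop :=
  ρ = sepN τ φ l q ∧ ∀ i, ∀ r ≤ q, r ≤ τ.B i → Forces φ (env emp (τ.A i :: l)) r →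
    FMem (τ.A i) ρ r

def reqColl [Tame P] (τ : Name P) (φ : Fml) (l : List (Name P)) (q : P) (ρ : Name P) : Prop :=
  ∀ i, ∀ r ≤ q, ∀ σ, Forces φ (env emp (σ :: τ.A i :: l)) r →
    ∃ r' ≤ r, ∃ σ', FMem σ' ρ r' ∧ Forces φ (env emp (σ' :: τ.A i :: l)) r'

/-- The basic requirements. -/
def basic [Tame P] (t : ℕ) (φ : Fml) (k : ℕ) (l : List (Name P)) (q : P) (ρ : Name P) : Prop :=
  match t with
  | 0 => reqMem (env emp l 0) (env emp l 1) q ρ
  | 1 => reqEq (env emp l 0) (env emp l 1) q ρ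
  | 2 => reqDec φ l q
  | 3 => reqWit φ l q ρ
  | 4 => reqSep (env emp l 0) φ l.tail q ρ
  | 5 => reqColl (env emp l 0) φ l.tail q ρ
  | t + 6 => ρ = op t k l

omit [OrderTop P] in
theorem reqMem_dense (σ τ : Name P) (p : P) : ∃ q ≤ p, ∃ ρ, reqMem σ τ q ρ := by
  by_cases h : ∀ r ≤ p, ¬ FMem σ τ r
  · exact ⟨p, le_rfl, emp, Or.inl h⟩
  · push Not at h
    obtain ⟨r, hr, h⟩ := h
    obtain ⟨s, hs, j, hj, e⟩ := h r le_rfl
    exact ⟨s, hs.trans hr, _, Or.inr ⟨j, hj, e, rfl⟩⟩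

omit [OrderTop P] in
theorem exists_not_fmem {σ τ : Name P} {q : P} (h : ¬ FMem σ τ q) :
    ∃ r ≤ q, ∀ s ≤ r, ¬ FMem σ τ s := by
  by_contra h'
  push Not at h'
  exact h (FMem.reg h')

omit [OrderTop P] in
theorem reqEq_dense (σ τ : Name P) (p : P) : ∃ q ≤ p, ∃ ρ, reqEq σ τ q ρ := by
  by_cases h : FEq σ τ p
  · exact ⟨p, le_rfl, emp, Or.inl h⟩
  · rw [feq_iff, not_and_or] at h
    rcases h with h | h
    · push Not at h
      obtain ⟨i, q, hq, hi, h⟩ := h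
      obtain ⟨r, hr, h⟩ := exists_not_fmem h
      exact ⟨r, hr.trans hq, _, Or.inr (Or.inl ⟨i, hr.trans hi, h, rfl⟩)⟩
    · push Not at h
      obtain ⟨i, q, hq, hi, h⟩ := h
      obtain ⟨r, hr, h⟩ := exists_not_fmem h
      exact ⟨r, hr.trans hq, _, Or.inr (Or.inr ⟨i, hr.trans hi, h, rfl⟩)⟩

omit [OrderTop P] in
theorem reqSep_dense [Tame P] (τ : Name P) (φ : Fml) (l : List (Name P)) (p : P) :
    ∃ q ≤ p, ∃ ρ, reqSep τ φ l q ρ := by
  obtain ⟨q, hq, H⟩ := capt_SS τ (fun i t => (t ≤ τ.B i ∧ Forces φ (env emp (τ.A i :: l)) t) ∨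
    ∀ t' ≤ t, ¬ (t' ≤ τ.B i ∧ Forces φ (env emp (τ.A i :: l)) t'))
    (fun i a b h hb => h.imp (fun h => ⟨hb.trans h.1, h.2.mono hb⟩)
      fun h t ht => h t (ht.trans hb))
    (fun i a => by
      by_cases h : ∀ t' ≤ a, ¬ (t' ≤ τ.B i ∧ Forces φ (env emp (τ.A i :: l)) t')
      · exact ⟨a, le_rfl, Or.inr h⟩
      · push Not at h
        obtain ⟨t, ht, h⟩ := h
        exact ⟨t, ht, Or.inl h⟩) p
  refine ⟨q, hq, _, rfl, fun i r hr hi hf r₁ hr₁ => ?_⟩
  obtain ⟨s, hs, m, hm, hM, r', h₁, h₂⟩ := H i r₁ (hr₁.trans hr)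
  rcases hm with hm | hm
  · exact ⟨r', h₁, ⟨(i, ⟨s, hs⟩), fun t ht ht' =>
      ⟨((hM t).2 ⟨ht, ht'⟩).trans hm.1, hm.2.mono ((hM t).2 ⟨ht, ht'⟩)⟩⟩,
      ((hM r').1 h₂).1, feq_refl _ _⟩
  · exact absurd ⟨(h₁.trans hr₁).trans hi, hf.mono (h₁.trans hr₁)⟩ (hm r' h₂)

theorem reqColl_dense [Tame P] (τ : Name P) (φ : Fml) (l : List (Name P)) (p : P) :
    ∃ q ≤ p, ∃ ρ, reqColl τ φ l q ρ := by
  obtain ⟨q, hq, H⟩ := capt_SS τ (fun i t => (∃ σ, Forces φ (env emp (σ :: τ.A i :: l)) t) ∨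
    ∀ t' ≤ t, ¬ ∃ σ, Forces φ (env emp (σ :: τ.A i :: l)) t')
    (fun i a b h hb => h.imp (fun ⟨σ, h⟩ => ⟨σ, h.mono hb⟩) fun h t ht => h t (ht.trans hb))
    (fun i a => by
      by_cases h : ∀ t' ≤ a, ¬ ∃ σ, Forces φ (env emp (σ :: τ.A i :: l)) t'
      · exact ⟨a, le_rfl, Or.inr h⟩
      · push Not at h
        obtain ⟨t, ht, h⟩ := h
        exact ⟨t, ht, Or.inl h⟩) p
  refine ⟨q, hq, collN τ φ l q, fun i r hr σ hf => ?_⟩
  obtain ⟨s, hs, m, hm, hM, r', h₁, h₂⟩ := H i r hr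
  rcases hm with ⟨σ', hm⟩ | hm
  · have h : ∃ m, Meet m s q := ⟨m, hM⟩
    have h₃ : h.choose ≤ m := (hM _).2 ((h.choose_spec _).1 le_rfl)
    have h₄ : r' ≤ h.choose := (h.choose_spec _).2 ((hM _).1 h₂)
    refine ⟨r', h₁, _, FMem.of_feq (j := (i, ⟨s, hs⟩)) le_top (feq_refl _ _), ?_⟩
    simp only [collN, fam, A_mk, dif_pos h]
    exact (wit_spec (hm.mono h₃)).mono h₄
  · exact absurd ⟨σ, hf.mono h₁⟩ (hm r' h₂)

theorem basic_dense [Tame P] (t : ℕ) (φ : Fml) (k : ℕ) (l : List (Name P)) (p : P) :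
    ∃ q ≤ p, ∃ ρ, basic t φ k l q ρ := by
  match t with
  | 0 => exact reqMem_dense _ _ p
  | 1 => exact reqEq_dense _ _ p
  | 2 =>
    by_cases h : ∀ r ≤ p, ¬ Forces φ (env emp l) r
    · exact ⟨p, le_rfl, emp, Or.inr h⟩
    · push Not at h
      obtain ⟨r, hr, h⟩ := h
      exact ⟨r, hr, emp, Or.inl h⟩
  | 3 =>
    by_cases h : ∀ r ≤ p, ∀ ρ', ¬ Forces φ (env emp (ρ' :: l)) r
    · exact ⟨p, le_rfl, emp, Or.inr h⟩
    · push Not at h
      obtain ⟨r, hr, ρ, h⟩ := h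
      exact ⟨r, hr, _, Or.inl ⟨wit_spec h, rfl⟩⟩
  | 4 => exact reqSep_dense _ _ _ p
  | 5 => exact reqColl_dense _ _ _ p
  | t + 6 => exact ⟨p, le_rfl, _, rfl⟩

end Name

/-- Bookkeeping: a decreasing sequence and a set meeting countably many requirements. -/
theorem exists_generic {P : Type u} [Preorder P] {α : Type v} [Inhabited α] {ι : Type*}
    [Countable ι] [Nonempty ι] (D : ι → List α → P → α → Prop)
    (hD : ∀ i l p, ∃ q ≤ p, ∃ a, D i l q a) (p₀ : P) :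
    ∃ (N : Set α) (s : ℕ → P), Antitone s ∧ s 0 = p₀ ∧
      ∀ i l, (∀ x ∈ l, x ∈ N) → ∃ n, ∃ a ∈ N, D i l (s n) a := by
  classical
  obtain ⟨e, he⟩ := exists_surjective_nat (ι × List ℕ)
  choose q hq a ha using hD
  let step : ℕ → P × (ℕ → α) → P × (ℕ → α) := fun n st =>
    (q (e n.unpair.1).1 ((e n.unpair.1).2.map st.2) st.1,
      Function.update st.2 n (a (e n.unpair.1).1 ((e n.unpair.1).2.map st.2) st.1))
  let S : ℕ → P × (ℕ → α) := fun n => Nat.rec (p₀, fun _ => default) step n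
  have hS : ∀ n, S (n + 1) = step n (S n) := fun n => rfl
  let τ : ℕ → α := fun n => (S (n + 1)).2 n
  have stable : ∀ k n, k < n → (S n).2 k = τ k := by
    intro k n hkn
    induction n, hkn using Nat.le_induction with
    | base => rfl
    | succ n hn ih =>
      rw [hS]
      simp only [step]
      rw [Function.update_of_ne (by omega)]
      exact ih
  refine ⟨Set.range τ, fun n => (S n).1, antitone_nat_of_succ_le fun n => ?_, rfl, ?_⟩
  · rw [hS]; exact hq _ _ _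
  · intro i l hl
    obtain ⟨ks, rfl⟩ : ∃ ks : List ℕ, l = ks.map τ := by
      induction l with
      | nil => exact ⟨[], rfl⟩
      | cons x l ih =>
        obtain ⟨ks, rfl⟩ := ih fun y hy => hl y (List.mem_cons_of_mem _ hy)
        obtain ⟨k, rfl⟩ := hl x List.mem_cons_self
        exact ⟨k :: ks, rfl⟩
    obtain ⟨m, hm⟩ := he (i, ks)
    let n := Nat.pair m (ks.sum + 1)
    have hn : ks.map (S n).2 = ks.map τ := by
      refine List.map_congr_left fun k hk => stable k n ?_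
      have h₁ := List.single_le_sum (l := ks) (fun _ _ => Nat.zero_le _) k hk
      have h₂ := Nat.right_le_pair m (ks.sum + 1)
      omega
    refine ⟨n + 1, τ n, ⟨n, rfl⟩, ?_⟩
    have h := ha i (ks.map τ) (S n).1
    have e1 : n.unpair.1 = m := by simp [n]
    have e2 : (S (n + 1)).1 = q i (ks.map τ) (S n).1 := by
      rw [hS]; simp only [step, e1, hm, hn]
    have e3 : τ n = a i (ks.map τ) (S n).1 := by
      show (S (n + 1)).2 n = _
      rw [hS]; simp only [step, e1, hm, hn, Function.update_self]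
    show D i (ks.map τ) (S (n + 1)).1 (τ n)
    rw [e2, e3]
    exact h

/-- A filter on `P` that is generic over a set of names with enough closure properties. -/
structure Gen (P : Type 2) [Sz P] [Preorder P] [OrderTop P] [Tame P] where
  N : Set (Name P)
  G : Set P
  up : ∀ {p q}, p ∈ G → p ≤ q → q ∈ G
  dir : ∀ {p q}, p ∈ G → q ∈ G → ∃ r ∈ G, r ≤ p ∧ r ≤ q
  top : ⊤ ∈ G
  meets : ∀ t φ k l, (∀ x ∈ l, x ∈ N) → ∃ q ∈ G, ∃ ρ ∈ N, Name.basic t φ k l q ρ

theorem exists_gen2 {P : Type 2} [Sz P] [Preorder P] [OrderTop P] [Tame P] (p : P)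
    (C : Set (Name P)) (hC : C.Countable) {J : Type*} [Countable J]
    (R : J → List (Name P) → P → Name P → Prop) (hR : ∀ j l p, ∃ q ≤ p, ∃ ρ, R j l q ρ) :
    ∃ g : Gen P, p ∈ g.G ∧ C ⊆ g.N ∧
      ∀ j l, (∀ x ∈ l, x ∈ g.N) → ∃ q ∈ g.G, ∃ ρ ∈ g.N, R j l q ρ := by
  have := hC.to_subtype
  let D : ((ℕ × Fml × ℕ) ⊕ C) ⊕ J → List (Name P) → P → Name P → Prop := fun i l q ρ =>
    match i with
    | .inl (.inl i) => Name.basic i.1 i.2.1 i.2.2 l q ρ
    | .inl (.inr c) => ρ = c.1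
    | .inr j => R j l q ρ
  have : Nonempty (((ℕ × Fml × ℕ) ⊕ C) ⊕ J) := ⟨.inl (.inl (0, .bot, 0))⟩
  obtain ⟨N, s, hs, h0, h⟩ := exists_generic D (by
    rintro ((i | c) | j) l p
    · exact Name.basic_dense _ _ _ _ _
    · exact ⟨p, le_rfl, _, rfl⟩
    · exact hR j l p) p
  refine ⟨⟨N, {q | ∃ n, s n ≤ q}, ?_, ?_, ⟨0, le_top⟩, ?_⟩, ⟨0, h0.le⟩, ?_, ?_⟩
  · rintro p q ⟨n, hn⟩ hpq
    exact ⟨n, hn.trans hpq⟩
  · rintro p q ⟨n, hn⟩ ⟨m, hm⟩
    exact ⟨s (max n m), ⟨_, le_rfl⟩, (hs (le_max_left _ _)).trans hn,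
      (hs (le_max_right _ _)).trans hm⟩
  · intro t φ k l hl
    obtain ⟨n, a, ha, h⟩ := h (.inl (.inl (t, φ, k))) l hl
    exact ⟨s n, ⟨n, le_rfl⟩, a, ha, h⟩
  · intro c hc
    obtain ⟨n, a, ha, h⟩ := h (.inl (.inr ⟨c, hc⟩)) [] (by simp)
    exact (show a = c from h) ▸ ha
  · intro j l hl
    obtain ⟨n, a, ha, h⟩ := h (.inr j) l hl
    exact ⟨s n, ⟨n, le_rfl⟩, a, ha, h⟩

theorem exists_gen {P : Type 2} [Sz P] [Preorder P] [OrderTop P] [Tame P] (p : P)
    (C : Set (Name P)) (hC : C.Countable) : ∃ g : Gen P, p ∈ g.G ∧ C ⊆ g.N :=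
  let ⟨g, h₁, h₂, _⟩ := exists_gen2 p C hC (J := Empty) (fun _ _ _ _ => True)
    fun j => j.elim
  ⟨g, h₁, h₂⟩

end Pool.Agent.MP_85ce7b_lc
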