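import Pool.Agent.MP_85ce7b_lc.L.RDefs

namespace Pool.Agent.MP_85ce7b_lc

open Set Cardinal Ordinal

theorem Inac.isSuccLimit {μ : Od} (h : Inac μ) : Order.IsSuccLimit μ := by
  obtain ⟨k, hk, rfl⟩ := h
  exact isSuccLimit_ord hk.aleph0_lt.le

theorem Inac.omega_lt {μ : Od} (h : Inac μ) : ω < μ := by
  obtain ⟨k, hk, rfl⟩ := h
  exact omega0_lt_ord.2 hk.aleph0_lt

theorem Inac.ord_card {μ : Od} (h : Inac μ) : μ.card.ord = μ := by
  obtain ⟨k, -, rfl⟩ := h
  rw [card_ord]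

theorem Inac.cof_eq {μ : Od} (h : Inac μ) : μ.cof = μ.card := by
  obtain ⟨k, hk, rfl⟩ := h
  rw [card_ord, hk.isRegular.cof_ord]

theorem bound_set_of_lt_cof {τ : Od} {S : Set Od} (hS : S ⊆ Iio τ) (hτ : Order.IsSuccLimit τ)
    (hc : Cardinal.mk S < lift.{2} τ.cof) : ∃ b < τ, S ⊆ Iio b := by
  have h1 : sSup S < τ := by
    apply Ordinal.sSup_lt_of_lt_cof _ hS
    rwa [← Ordinal.lift_cof]
  refine ⟨sSup S + 1, hτ.add_one_lt h1, fun x hx => ?_⟩
  have hb : BddAbove S := ⟨τ, fun y hy => (hS hy).le⟩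
  exact lt_of_le_of_lt (le_csSup hb hx) (lt_add_one _)

theorem bound_aux {τ ν : Od} (hτ : Order.IsSuccLimit τ) (hν : ν.card < τ.cof) (f : Od → Od)
    (hf : ∀ i < ν, f i < τ) : ∃ b < τ, ∀ i < ν, f i < b := by
  obtain ⟨b, hb, h⟩ := bound_set_of_lt_cof (S := f '' Iio ν) (by
      rintro _ ⟨i, hi, rfl⟩
      exact hf i hi) hτ (by
      refine lt_of_le_of_lt Cardinal.mk_image_le ?_
      rw [Cardinal.mk_Iio_ordinal]
      exact Cardinal.lift_lt.2 hν)
  exact ⟨b, hb, fun i hi => h ⟨i, hi, rfl⟩⟩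

/-- Fewer than `μ` ordinals below `μ` are bounded below `μ`. -/
theorem Inac.bound {μ ν : Od} (h : Inac μ) (hν : ν < μ) (f : Od → Od) (hf : ∀ i < ν, f i < μ) :
    ∃ b < μ, ∀ i < ν, f i < b := by
  apply bound_aux h.isSuccLimit _ f hf
  rw [h.cof_eq, ← lt_ord, h.ord_card]
  exact hν

theorem Inac.bound_set {μ : Od} (h : Inac μ) {S : Set Od} (hS : S ⊆ Iio μ)
    (hc : Cardinal.mk S < lift.{2} μ.card) : ∃ b < μ, S ⊆ Iio b := by
  apply bound_set_of_lt_cof hS h.isSuccLimit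
  rwa [h.cof_eq]

/-- Bounding below an ordinal of large cofinality. -/
theorem bound_of_lt_cof {τ ν : Od} (hτ : Order.IsSuccLimit τ) (hν : ν.card < τ.cof) (f : Od → Od)
    (hf : ∀ i < ν, f i < τ) : ∃ b < τ, ∀ i < ν, f i < b := by
  exact bound_aux hτ hν f hf

theorem enum_aux {α : Type 2} [Nonempty α] {S : Set α} {c : Cardinal.{1}}
    (h : Cardinal.mk S ≤ lift.{2} c) : ∃ e : Od → α, ∀ x ∈ S, ∃ i < c.ord, e i = x := by
  classical
  have h1 : Cardinal.mk S ≤ Cardinal.mk (Iio c.ord) := by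
    rw [Cardinal.mk_Iio_ordinal, card_ord]
    exact h
  obtain ⟨g⟩ := (Cardinal.le_def _ _).1 h1
  let g' : S → Od := fun x => (g x).1
  have hg : Function.Injective g' := fun x y hxy => g.injective (Subtype.ext hxy)
  refine ⟨Function.extend g' Subtype.val (fun _ => Classical.arbitrary α), fun x hx => ?_⟩
  refine ⟨g' ⟨x, hx⟩, (g ⟨x, hx⟩).2, ?_⟩
  rw [hg.extend_apply]

/-- A cofinal map from the cofinality. -/
theorem exists_cof_map (a : Od) :
    ∃ f : Od → Od, (∀ i < a.cof.ord, f i < a) ∧ ∀ y < a, ∃ i < a.cof.ord, y ≤ f i := by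
  rcases eq_or_ne a 0 with rfl | ha
  · exact ⟨id, by simp, by simp⟩
  have : Nonempty (Iio a) := ⟨⟨0, pos_iff_ne_zero.2 ha⟩⟩
  obtain ⟨s, hs, hc⟩ := Order.exists_cof_eq (Iio a)
  rw [Ordinal.cof_Iio, ← Ordinal.lift_cof] at hc
  obtain ⟨e, he⟩ := enum_aux (S := s) (c := a.cof) hc.le
  refine ⟨fun i => (e i).1, fun i _ => (e i).2, fun y hy => ?_⟩
  obtain ⟨x, hx, hyx⟩ := hs ⟨y, hy⟩
  obtain ⟨i, hi, rfl⟩ := he x hx
  exact ⟨i, hi, hyx⟩

/-- Enumeration of a small set by an ordinal. -/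
theorem exists_enum_of_le {α : Type 2} [Nonempty α] {S : Set α} {c : Cardinal.{1}}
    (h : Cardinal.mk S ≤ lift.{2} c) : ∃ e : Od → α, ∀ x ∈ S, ∃ i < c.ord, e i = x := by
  exact enum_aux h

/-- Pairing below an infinite cardinal. -/
theorem exists_pairing {c : Cardinal.{1}} (hc : ℵ₀ ≤ c) :
    ∃ f g : Od → Od, (∀ i < c.ord, f i < c.ord ∧ g i < c.ord) ∧
      ∀ a < c.ord, ∀ b < c.ord, ∃ i < c.ord, f i = a ∧ g i = b := by
  have h0 : (0 : Od) < c.ord := lt_of_lt_of_le omega0_pos (omega0_le_ord.2 hc)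
  have : Nonempty (Iio c.ord × Iio c.ord) := ⟨(⟨0, h0⟩, ⟨0, h0⟩)⟩
  obtain ⟨e, he⟩ := enum_aux (S := (univ : Set (Iio c.ord × Iio c.ord))) (c := c) (by
    rw [Cardinal.mk_univ, Cardinal.mk_prod, Cardinal.mk_Iio_ordinal, card_ord, Cardinal.lift_id,
      Cardinal.mul_eq_self (Cardinal.aleph0_le_lift.2 hc)])
  refine ⟨fun i => (e i).1.1, fun i => (e i).2.1, fun i _ => ⟨(e i).1.2, (e i).2.2⟩,
    fun a ha b hb => ?_⟩
  obtain ⟨i, hi, h⟩ := he (⟨a, ha⟩, ⟨b, hb⟩) (mem_univ _)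
  exact ⟨i, hi, by simp only [h], by simp only [h]⟩

/-- An ordinal of size at most `c` is enumerated by `c`. -/
theorem exists_surj_of_card_le {ν : Od} {c : Cardinal.{1}} (h : ν.card ≤ c) :
    ∃ f : Od → Od, ∀ a < ν, ∃ i < c.ord, f i = a := by
  obtain ⟨e, he⟩ := enum_aux (S := Iio ν) (c := c) (by
    rw [Cardinal.mk_Iio_ordinal]
    exact Cardinal.lift_le.2 h)
  exact ⟨e, fun a ha => he a ha⟩

theorem SI.inac {δ x : Od} (h : SI δ x) : Inac x := (SI_iff.1 h).1

theorem SI.mono {δ δ' x : Od} (h : SI δ x) (hδ : δ' ≤ δ) : SI δ' x := by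
  rw [SI_iff] at h ⊢
  exact ⟨h.1, fun β hβ => h.2 β (lt_of_lt_of_le hβ hδ)⟩

theorem si_one {x : Od} : SI 1 x ↔ Inac x := by
  rw [SI_iff]
  refine ⟨fun h => h.1, fun h => ⟨h, fun β hβ h0 => ?_⟩⟩
  exact absurd (Order.lt_one_iff.1 hβ) h0.ne'

/-- Hausdorff's formula in the form needed below. -/
theorem succ_pow_eq {m a : Cardinal.{1}} (ha : ℵ₀ ≤ a) (ham : a ≤ m) (h : m ^ a = m) :
    Order.succ m ^ a = Order.succ m := by
  have hm : ℵ₀ ≤ m := ha.trans ham
  have hreg := isRegular_succ hm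
  apply le_antisymm
  · let α := (Order.succ m).ord.ToType
    let β := a.out
    have hα : Cardinal.mk α = Order.succ m := by
      simp only [α, Cardinal.mk_toType, card_ord]
    have hβ : Cardinal.mk β = a := Cardinal.mk_out a
    have hcof : Order.cof α = Order.succ m := by
      simp only [α, Ordinal.cof_toType, hreg.cof_ord]
    have hcov : (univ : Set (β → α)) ⊆ ⋃ x : α, {f | ∀ b, f b < x} := by
      intro f _
      have hn : ¬ IsCofinal (range f) := by
        intro hc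
        have h1 := Order.cof_le hc
        rw [hcof] at h1
        have h2 : Cardinal.mk (range f) ≤ a := hβ ▸ Cardinal.mk_range_le
        exact absurd (h1.trans (h2.trans ham)) (Order.lt_succ m).not_ge
      obtain ⟨x, hx⟩ := not_isCofinal_iff.1 hn
      exact mem_iUnion.2 ⟨x, fun b => hx _ ⟨b, rfl⟩⟩
    have hpiece : ∀ x : α, Cardinal.mk {f : β → α | ∀ b, f b < x} ≤ m := by
      intro x
      have h1 : Cardinal.mk (Iio x) ≤ m := by
        apply Order.lt_succ_iff.1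
        exact Cardinal.mk_Iio_toType_ord_lt x
      have h2 : Cardinal.mk {f : β → α | ∀ b, f b < x} ≤ Cardinal.mk (β → Iio x) := by
        refine Cardinal.mk_le_of_injective (f := fun f b => ⟨f.1 b, f.2 b⟩) ?_
        intro f g hfg
        apply Subtype.ext
        funext b
        exact congrArg Subtype.val (congrFun hfg b)
      refine h2.trans ?_
      rw [← Cardinal.power_def, hβ]
      exact (Cardinal.power_le_power_right h1).trans h.le
    calc Order.succ m ^ a = Cardinal.mk (univ : Set (β → α)) := by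
          rw [Cardinal.mk_univ, ← Cardinal.power_def, hα, hβ]
      _ ≤ Cardinal.mk (⋃ x : α, {f : β → α | ∀ b, f b < x}) := Cardinal.mk_le_mk_of_subset hcov
      _ ≤ Cardinal.mk α * ⨆ x : α, Cardinal.mk {f : β → α | ∀ b, f b < x} :=
          Cardinal.mk_iUnion_le _
      _ ≤ Order.succ m * Order.succ m := by
          rw [hα]
          exact mul_le_mul_right (ciSup_le' fun x => (hpiece x).trans (Order.le_succ m)) _
      _ = Order.succ m := Cardinal.mul_eq_self hreg.aleph0_le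
  · have h1 : (1 : Cardinal.{1}) ≤ a := Cardinal.one_le_aleph0.trans ha
    have h0 : Order.succ m ≠ 0 := hreg.pos.ne'
    simpa using Cardinal.power_le_power_left h0 h1

theorem two_pow_pow {a : Cardinal.{1}} (ha : ℵ₀ ≤ a) : (2 ^ a) ^ a = (2 : Cardinal.{1}) ^ a := by
  rw [← Cardinal.power_mul, Cardinal.mul_eq_self ha]

namespace BF

variable {B : Od → Cardinal.{1}} {s : Od} (h : BF B s)
include h

theorem aleph0_le (x : Od) : ℵ₀ ≤ B x := by
  rw [← h.zero]
  exact h.normal.monotone (zero_le)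

theorem mono {x y : Od} (hxy : x ≤ y) : B x ≤ B y := by
  exact h.normal.monotone hxy

theorem lt {x y : Od} (hxy : x < y) : B x < B y := by
  exact h.normal.strictMono hxy

theorem two_pow_le (x : Od) : 2 ^ B x ≤ B (x + 1) := by
  by_cases hx : x = s
  · subst hx
    rw [h.succ_s]
    exact (Order.le_succ _).trans ((Order.le_succ _).trans (Order.le_succ _))
  · rw [h.succ x hx]

theorem succ_le {x y : Od} (hxy : x < y) : Order.succ (B x) ≤ B y := by
  exact Order.succ_le_of_lt (h.lt hxy)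

theorem pow_eq (x : Od) : B (x + 1) ^ B x = B (x + 1) := by
  have ha := h.aleph0_le x
  by_cases hx : x = s
  · subst hx
    rw [h.succ_s]
    have h0 : B x ≤ 2 ^ B x := (Cardinal.cantor _).le
    have h1 := succ_pow_eq ha h0 (two_pow_pow ha)
    have h2 := succ_pow_eq ha (h0.trans (Order.le_succ _)) h1
    exact succ_pow_eq ha (h0.trans ((Order.le_succ _).trans (Order.le_succ _))) h2
  · rw [h.succ x hx]
    exact two_pow_pow ha

theorem normal_ord : Order.IsNormal (fun x => (B x).ord) :=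
  isNormal_ord.comp h.normal

theorem le_ord (x : Od) : x ≤ (B x).ord := by
  exact h.normal_ord.strictMono.le_apply

theorem card_le (x : Od) : x.card ≤ B x := by
  exact card_le_of_le_ord (h.le_ord x)

theorem lt_inac {μ x : Od} (hμ : Inac μ) (hx : x < μ) : (B x).ord < μ := by
  induction x using Ordinal.limitRecOn with
  | zero =>
    rw [h.zero, ord_aleph0]
    exact hμ.omega_lt
  | add_one x ih =>
    have h1 := ih ((lt_add_one x).trans hx)
    obtain ⟨k, hk, rfl⟩ := hμ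
    rw [ord_lt_ord] at h1 ⊢
    have h2 : 2 ^ B x < k := hk.isStrongPrelimit h1
    by_cases hs : x = s
    · subst hs
      rw [h.succ_s]
      exact hk.isSuccLimit.succ_lt (hk.isSuccLimit.succ_lt (hk.isSuccLimit.succ_lt h2))
    · rw [h.succ x hs]
      exact h2
  | limit x hl ih =>
    obtain ⟨b, hb, hlt⟩ := hμ.bound hx (fun y => (B y).ord) (fun y hy => ih y hy (hy.trans hx))
    exact lt_of_le_of_lt ((h.normal_ord.le_iff_forall_le hl).2 fun y hy => (hlt y hy).le) hb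

theorem inac_eq {μ : Od} (hμ : Inac μ) : (B μ).ord = μ := by
  apply le_antisymm _ (h.le_ord μ)
  exact (h.normal_ord.le_iff_forall_le hμ.isSuccLimit).2 fun y hy => (h.lt_inac hμ hy).le

theorem lt_limit {x a : Od} (hx : Order.IsSuccLimit x) (ha : a < (B x).ord) :
    ∃ y < x, a < (B y).ord := by
  exact (h.normal_ord.lt_iff_exists_lt hx).1 ha

theorem singular {x : Od} (hx : Order.IsSuccLimit x) (hn : ¬ Inac x) : (B x).ord.cof < B x := by
  by_contra hc
  rw [not_lt] at hc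
  have h1 : (B x).ord.cof = x.cof := Ordinal.cof_map_of_isNormal h.normal_ord hx
  have h2 : B x ≤ x.card := hc.trans (h1.le.trans (Ordinal.cof_le_card x))
  have h3 : (B x).ord = x := le_antisymm (ord_le.2 h2) (h.le_ord x)
  apply hn
  refine ⟨B x, ⟨?_, hc, fun c hcx => ?_⟩, h3⟩
  · rw [← h.zero]
    exact h.lt hx.pos
  · obtain ⟨y, hy, hcy⟩ := (h.normal.lt_iff_exists_lt hx).1 hcx
    calc 2 ^ c ≤ 2 ^ B y := Cardinal.power_le_power_left two_ne_zero hcy.le
      _ ≤ B (y + 1) := h.two_pow_le y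
      _ < B x := h.lt (hx.add_one_lt hy)

theorem exists_index {a : Od} (ha : ω ≤ a) : ∃ z, (B z).ord ≤ a ∧ a < (B (z + 1)).ord := by
  obtain ⟨z, h1, h2⟩ := h.normal_ord.exists_map_le_lt_map_succ (x := a) (by
    show (B 0).ord ≤ a
    rw [h.zero, ord_aleph0]
    exact ha)
  exact ⟨z, h1, h2⟩

/-- A limit of inaccessibles is a fixed point. -/
theorem fix_of_lim {x : Od} (h0 : 0 < x) (hx : ∀ y < x, ∃ z, y < z ∧ z ≤ x ∧ Inac z) :
    (B x).ord = x ∧ Order.IsSuccLimit x := by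
  have hl : Order.IsSuccLimit x := by
    refine ⟨h0.not_isMin, Order.isSuccPrelimit_of_succ_lt fun y hy => ?_⟩
    obtain ⟨z, h1, h2, h3⟩ := hx y hy
    exact lt_of_lt_of_le (h3.isSuccLimit.succ_lt h1) h2
  refine ⟨le_antisymm ?_ (h.le_ord x), hl⟩
  refine (h.normal_ord.le_iff_forall_le hl).2 fun y hy => ?_
  obtain ⟨z, h1, h2, h3⟩ := hx y hy
  exact (h.lt_inac h3 h1).le.trans h2

end BF

theorem exists_bf (s : Od) : ∃ B, BF B s := by
  classical
  let B : Od → Cardinal.{1} := fun o => Ordinal.limitRecOn (motive := fun _ => Cardinal.{1}) o ℵ₀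
    (fun x c => if x = s then Order.succ (Order.succ (Order.succ (2 ^ c))) else 2 ^ c)
    (fun o _ f => ⨆ x : Iio o, f x.1 x.2)
  have hz : B 0 = ℵ₀ := Ordinal.limitRecOn_zero _ _ _
  have hs : ∀ x, B (x + 1) =
      if x = s then Order.succ (Order.succ (Order.succ (2 ^ B x))) else 2 ^ B x :=
    fun x => Ordinal.limitRecOn_add_one _ _ _ _
  have hl : ∀ o, Order.IsSuccLimit o → B o = ⨆ x : Iio o, B x.1 :=
    fun o ho => Ordinal.limitRecOn_limit _ _ _ _ ho
  refine ⟨B, hz, Order.IsNormal.of_succ_lt (fun a => ?_) (fun {a} ha => ?_), fun x hx => ?_, ?_⟩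
  · rw [Order.succ_eq_add_one, hs]
    split_ifs
    · exact (Cardinal.cantor _).trans_le
        ((Order.le_succ _).trans ((Order.le_succ _).trans (Order.le_succ _)))
    · exact Cardinal.cantor _
  · rw [hl a ha]
    have : Nonempty (Iio a) := ⟨⟨0, ha.pos⟩⟩
    have h1 := isLUB_ciSup (f := fun x : Iio a => B x.1) Cardinal.bddAbove_of_small
    rwa [show range (fun x : Iio a => B x.1) = B '' Iio a from (image_eq_range B (Iio a)).symm]
      at h1
  · rw [hs, if_neg hx]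
  · rw [hs, if_pos rfl]

namespace Ctx

variable (C : Ctx)

theorem s_aux : (C.B C.s).ord = C.s ∧ Order.IsSuccLimit C.s := by
  have h0 := (C.ke_si 0 C.ga_pos).inac
  refine C.bf.fix_of_lim (lt_of_lt_of_le h0.isSuccLimit.pos (C.ke_le 0 C.ga_pos)) fun y hy => ?_
  obtain ⟨i, hi, h⟩ := C.ke_cof y hy
  exact ⟨C.ke i, h, C.ke_le i hi, (C.ke_si i hi).inac⟩

theorem s_fix : (C.B C.s).ord = C.s := by
  exact C.s_aux.1

theorem s_lim : Order.IsSuccLimit C.s := by
  exact C.s_aux.2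

theorem omega1_lt_s : ω₁ < C.s := by
  refine lt_of_lt_of_le ?_ (C.ke_le 0 C.ga_pos)
  obtain ⟨k, hk, he⟩ := (C.ke_si 0 C.ga_pos).inac
  rw [← he, ← ord_aleph, ord_lt_ord, ← succ_aleph0]
  exact hk.isSuccLimit.succ_lt hk.aleph0_lt

theorem th_inac : Inac C.th.ord := by
  exact ⟨C.th, C.thin, rfl⟩

theorem dm_le (x : Od) : C.dm x ≤ (C.B (x + 1)).ord := by
  unfold Dat.dm
  split_ifs with hx
  · rw [hx]
  · exact ord_le_ord.2 (C.bf.succ_le (lt_add_one x))

theorem succ_le_dm (x : Od) : (Order.succ (C.B x)).ord ≤ C.dm x := by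
  unfold Dat.dm
  split_ifs with hx
  · rw [hx]
    exact ord_le_ord.2 (C.bf.succ_le (lt_add_one _))
  · exact le_rfl

end Ctx

end Pool.Agent.MP_85ce7b_lc
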