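import Pool.Agent.MP_85ce7b_lc.L.TRegI
import Pool.Agent.MP_85ce7b_lc.L.RB0

namespace Pool.Agent.MP_85ce7b_lc

open Pool.Agent.MP_c6cf52_lc Name Set Cardinal Ordinal

namespace Gen

variable {P : Type 2} [Sz P] [Preorder P] [OrderTop P] [Tame P] {g : Gen P} {a b : Od}

/-- The ordinal `a` belongs to the model. -/
def In (g : Gen P) (a : Od) : Prop := a < (Sz.θ P).ord ∧ (oN a : Name P) ∈ g.N

/-- The element of the model given by an ordinal. -/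
noncomputable def o (g : Gen P) (a : Od) : g.M := g.v (oN a)

theorem rk_oN (h : a < (Sz.θ P).ord) : rk (oN a : Name P) = a := by
  induction a using WellFoundedLT.induction with
  | ind a ih =>
    have h1 : ∀ y : Iio a, rk (oN y.1 : Name P) = y.1 := fun y => ih y.1 y.2 (lt_trans y.2 h)
    rw [oN_eq h, rk_def]
    change (⨆ y : Iio a, Order.succ (rk (oN y.1 : Name P))) = a
    simp only [h1]
    refine le_antisymm (Ordinal.iSup_le fun y => Order.succ_le_of_lt y.2)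
      (le_of_forall_lt fun c hc => ?_)
    exact (Order.lt_succ c).trans_le
      (Ordinal.le_iSup (fun y : Iio a => Order.succ y.1) ⟨c, hc⟩)

theorem E_o (h : g.In a) {x : g.M} : g.E x (g.o a) ↔ ∃ b < a, g.In b ∧ g.o b = x := by
  have := Sm.iio (P := P) h.1
  have h2 := h.2
  unfold o
  rw [oN_eq h.1] at h2 ⊢
  rw [E_fam h2]
  exact ⟨fun ⟨y, h₁, h₂⟩ => ⟨y.1, y.2, ⟨lt_trans y.2 h.1, h₁⟩, h₂⟩,
    fun ⟨y, h₀, h₁, h₂⟩ => ⟨⟨y, h₀⟩, h₁.2, h₂⟩⟩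

theorem NOrd_inj (ha : g.In a) (hb : g.In b) (h : g.o a = g.o b) : a = b := by
  rcases lt_trichotomy a b with h' | h' | h'
  · exact absurd ((E_o hb).2 ⟨a, h', ha, h⟩) (E_irrefl (g.o b))
  · exact h'
  · exact absurd ((E_o ha).2 ⟨b, h', hb, h.symm⟩) (E_irrefl (g.o a))

theorem o_lt_iff (ha : g.In a) (hb : g.In b) : g.E (g.o a) (g.o b) ↔ a < b := by
  refine ⟨fun h => ?_, fun h => (E_o hb).2 ⟨a, h, ha, rfl⟩⟩
  obtain ⟨c, h₁, h₂, e⟩ := (E_o hb).1 h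
  exact NOrd_inj h₂ ha e ▸ h₁

theorem o_inj (ha : g.In a) (hb : g.In b) (h : g.o a = g.o b) : a = b := by
  exact NOrd_inj ha hb h

theorem o_leq_iff (ha : g.In a) (hb : g.In b) : Leq g.E (g.o a) (g.o b) ↔ a ≤ b := by
  rw [Leq, o_lt_iff ha hb, le_iff_lt_or_eq]
  exact or_congr_right ⟨o_inj ha hb, fun e => by rw [e]⟩

theorem isOrd_o (ha : g.In a) : IsOrd g.E (g.o a) := by
  constructor
  · intro x y hx hy
    obtain ⟨b, hb, hbN, rfl⟩ := (E_o ha).1 hx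
    obtain ⟨c, hc, hcN, rfl⟩ := (E_o hbN).1 hy
    exact (E_o ha).2 ⟨c, hc.trans hb, hcN, rfl⟩
  · intro x y hx hy
    obtain ⟨b, -, hbN, rfl⟩ := (E_o ha).1 hx
    obtain ⟨c, -, hcN, rfl⟩ := (E_o ha).1 hy
    rcases lt_trichotomy b c with h | rfl | h
    exacts [Or.inl ((o_lt_iff hbN hcN).2 h), Or.inr (Or.inl rfl),
      Or.inr (Or.inr ((o_lt_iff hcN hbN).2 h))]

theorem in_succ (ha : g.In a) : g.In (a + 1) := by
  have h := rk_succ_mem ha.2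
  rw [rk_oN ha.1, Order.succ_eq_add_one] at h
  refine ⟨?_, h⟩
  rw [← Order.succ_eq_add_one]
  exact (Cardinal.isSuccLimit_ord (Sz.inacc (P := P)).aleph0_lt.le).succ_lt ha.1

theorem in_omega (g : Gen P) : g.In ω := by
  refine ⟨?_, g.oN_omega_mem⟩
  rw [Cardinal.lt_ord, Ordinal.card_omega0]
  exact (Sz.inacc (P := P)).aleph0_lt

theorem NOrd_count (h : a < ω₁) : (Iio a).Countable := by
  rw [← Cardinal.le_aleph0_iff_set_countable, Cardinal.mk_Iio_ordinal, Cardinal.lift_le_aleph0]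
  rw [← Cardinal.ord_aleph, Cardinal.lt_ord, ← Cardinal.succ_aleph0, Order.lt_succ_iff] at h
  exact h

theorem in_of_countable (ha : g.In a) (h : a < ω₁) (hb : b < a) : g.In b := by
  have := Sm.iio (P := P) ha.1
  have h2 := ha.2
  rw [oN_eq ha.1] at h2
  have : Countable (Iio a) := (NOrd_count h).to_subtype
  exact ⟨hb.trans ha.1, fam_mem h2 ⟨b, hb⟩⟩

theorem in_nat (g : Gen P) (n : ℕ) : g.In n := by
  exact in_of_countable g.in_omega Ordinal.omega0_lt_omega_one (Ordinal.natCast_lt_omega0 n)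

theorem o_nat (g : Gen P) (n : ℕ) : g.o n = g.nat n := by
  induction n using Nat.strong_induction_on with
  | _ n ih =>
    refine ext fun x => ?_
    rw [E_o (g.in_nat n), E_nat]
    constructor
    · rintro ⟨b, hb, -, rfl⟩
      obtain ⟨m, rfl⟩ := Ordinal.lt_omega0.1 (hb.trans (Ordinal.natCast_lt_omega0 n))
      have hm : m < n := by exact_mod_cast hb
      exact ⟨m, hm, (ih m hm).symm⟩
    · rintro ⟨m, hm, rfl⟩
      exact ⟨m, by exact_mod_cast hm, g.in_nat m, ih m hm⟩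

theorem o_omega (g : Gen P) : g.o ω = g.om := by
  refine ext fun x => ?_
  rw [E_o g.in_omega, E_om]
  constructor
  · rintro ⟨b, hb, -, rfl⟩
    obtain ⟨m, rfl⟩ := Ordinal.lt_omega0.1 hb
    exact ⟨m, (g.o_nat m).symm⟩
  · rintro ⟨m, rfl⟩
    exact ⟨m, Ordinal.natCast_lt_omega0 m, g.in_nat m, g.o_nat m⟩

theorem rep_o (ha : g.In a) (h : a < ω₁) : Rep g.E (g.o a) a := by
  refine ⟨isOrd_o ha, fun i => g.o i.1, fun i j =>
    o_lt_iff (in_of_countable ha h i.2) (in_of_countable ha h j.2), fun x => (E_o ha).trans ?_⟩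
  exact ⟨fun ⟨b, h₁, _, e⟩ => ⟨⟨b, h₁⟩, e⟩, fun ⟨i, e⟩ => ⟨i.1, i.2, in_of_countable ha h i.2, e⟩⟩

theorem NOrd_in_rk {τ : Name P} (hτ : τ ∈ g.N) : g.In (rk τ) := ⟨rk_small τ, rk_mem hτ⟩

theorem NOrd_leq (τ : Name P) : τ ∈ g.N → IsOrd g.E (g.v τ) → Leq g.E (g.v τ) (g.o (rk τ)) := by
  induction τ using Name.ind with
  | h τ ih =>
    intro hτ h
    refine leq_of_sub h (isOrd_o (NOrd_in_rk hτ)) fun y hy => ?_
    obtain ⟨i, -, hi, rfl⟩ := (E_v hτ).1 hy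
    exact leq_lt (isOrd_o (NOrd_in_rk hτ)) (ih i hi (isOrd_of_E h hy))
      ((o_lt_iff (NOrd_in_rk hi) (NOrd_in_rk hτ)).2 (rk_lt τ i))

/-- Every ordinal of the model is given by a ground ordinal. -/
theorem ord_repr {x : g.M} (h : IsOrd g.E x) : ∃ a, g.In a ∧ g.o a = x := by
  obtain ⟨τ, hτ, rfl⟩ := exists_v x
  rcases NOrd_leq τ hτ h with h' | h'
  · obtain ⟨b, -, hb, e⟩ := (E_o (NOrd_in_rk hτ)).1 h'
    exact ⟨b, hb, e⟩
  · exact ⟨_, NOrd_in_rk hτ, h'.symm⟩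

theorem inf_o (ha : g.In a) : Inf g.E (g.o a) ↔ ω ≤ a := by
  rw [inf_iff (isOrd_o ha), ← o_omega, o_leq_iff g.in_omega ha]

/-- The density principle with ordinal parameters added to the model. -/
theorem dens_o {Ψ : ∀ (M : Type 3), (M → M → Prop) → (ℕ → M) → Prop} (h : UDef Ψ)
    {l : List (Name P)} (hl : ∀ x ∈ l, x ∈ g.N)
    (H : ∀ p ∈ g.G, ∃ q ≤ p, ∃ C : Set (Name P), ∃ S : Set Od, C.Countable ∧ S.Countable ∧
      S ⊆ Iio (Sz.θ P).ord ∧ ∀ g' : Gen P, q ∈ g'.G → C ⊆ g'.N → (∀ a ∈ S, g'.In a) →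
        (∀ x ∈ l, x ∈ g'.N) → Ψ g'.M g'.E (g'.w l)) : Ψ g.M g.E (g.w l) := by
  refine dens h hl fun p hp => ?_
  obtain ⟨q, hq, C, S, hC, hS, hS', H⟩ := H p hp
  exact ⟨q, hq, C ∪ oN '' S, hC.union (hS.image _), fun g' h₁ h₂ h₃ =>
    H g' h₁ (fun x hx => h₂ (Or.inl hx)) (fun a ha => ⟨hS' ha, h₂ (Or.inr ⟨a, ha, rfl⟩)⟩) h₃⟩

/-- A definable statement about named objects is decided. -/
theorem exists_gen_o (p : P) (C : Set (Name P)) (S : Set Od) (hC : C.Countable) (hS : S.Countable)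
    (h : S ⊆ Iio (Sz.θ P).ord) : ∃ g : Gen P, p ∈ g.G ∧ C ⊆ g.N ∧ ∀ a ∈ S, g.In a := by
  obtain ⟨g, h₁, h₂⟩ := exists_gen p (C ∪ oN '' S) (hC.union (hS.image _))
  exact ⟨g, h₁, fun x hx => h₂ (Or.inl hx), fun a ha => ⟨h ha, h₂ (Or.inr ⟨a, ha, rfl⟩)⟩⟩

end Gen

end Pool.Agent.MP_85ce7b_lc
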