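import Pool.Agent.MP_85ce7b_lc.L.NModel

namespace Pool.Agent.MP_85ce7b_lc

open Pool.Agent.MP_c6cf52_lc

open Name

universe u

namespace Gen

variable {P : Type 2} [Sz P] [Preorder P] [OrderTop P] [Tame P] {g : Gen P}

/-- The name of a relation. -/
def relN {ι : Type 2} [Sm P ι] (A A' : ι → Name P) (B : ι → P) : Name P :=
  Name.mk ι (fun i => pairN (A i) (A' i)) B

theorem E_relN {ι : Type 2} [Sm P ι] {A A' : ι → Name P} {B : ι → P} (h : relN A A' B ∈ g.N) {x : g.M} :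
    g.E x (g.v (relN A A' B)) ↔
      ∃ i, B i ∈ g.G ∧ A i ∈ g.N ∧ A' i ∈ g.N ∧ x = pr (g.v (A i)) (g.v (A' i)) := by
  rw [E_v h]
  refine exists_congr fun i => and_congr_right fun _ => ?_
  change pairN (A i) (A' i) ∈ g.N ∧ g.v (pairN (A i) (A' i)) = x ↔ _
  rw [pairN_mem_iff, and_assoc]
  refine and_congr_right fun h₁ => and_congr_right fun h₂ => ?_
  rw [v_pairN h₁ h₂, eq_comm]

theorem app_relN {ι : Type 2} [Sm P ι] {A A' : ι → Name P} {B : ι → P} (h : relN A A' B ∈ g.N)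
    {s t : g.M} : App g.E (g.v (relN A A' B)) s t ↔
      ∃ i, B i ∈ g.G ∧ A i ∈ g.N ∧ A' i ∈ g.N ∧ s = g.v (A i) ∧ t = g.v (A' i) := by
  rw [app_iff, E_relN h]
  simp only [pr_inj]

theorem relN_mem {ι : Type 2} [Sm P ι] [Countable ι] {A A' : ι → Name P} {B : ι → P}
    (h : relN A A' B ∈ g.N) (i : ι) : A i ∈ g.N ∧ A' i ∈ g.N :=
  pairN_mem_iff.1 (@A_mem P _ _ _ _ g (relN A A' B) h (inferInstanceAs (Countable ι)) i)

theorem fun_mem {f X Y a b : g.M} (h : IsFun g.E f X Y) (hab : App g.E f a b) :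
    g.E a X ∧ g.E b Y := by
  obtain ⟨a', b', ha, hb, e⟩ := h.1 _ (app_iff.1 hab)
  obtain ⟨rfl, rfl⟩ := pr_inj.1 (isPair_iff.1 e)
  exact ⟨ha, hb⟩

theorem fun_uniq {f X Y a b b' : g.M} (h : IsFun g.E f X Y) (hab : App g.E f a b)
    (hab' : App g.E f a b') : b = b' :=
  (h.2 a (fun_mem h hab).1).unique hab hab'

theorem fun_ex {f X Y a : g.M} (h : IsFun g.E f X Y) (ha : g.E a X) :
    ∃ b, g.E b Y ∧ App g.E f a b := by
  obtain ⟨b, hb, -⟩ := h.2 a ha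
  exact ⟨b, (fun_mem h hb).2, hb⟩

theorem fun_ext {f f' X Y Y' : g.M} (h : IsFun g.E f X Y) (h' : IsFun g.E f' X Y')
    (H : ∀ a b, App g.E f' a b → App g.E f a b) : f = f' := by
  refine ext fun p => ⟨fun hp => ?_, fun hp => ?_⟩
  · obtain ⟨a, b, ha, -, e⟩ := h.1 p hp
    obtain rfl := isPair_iff.1 e
    obtain ⟨b', -, hb'⟩ := fun_ex h' ha
    rw [fun_uniq h (app_iff.2 hp) (H _ _ hb')]
    exact app_iff.1 hb'
  · obtain ⟨a, b, -, -, e⟩ := h'.1 p hp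
    obtain rfl := isPair_iff.1 e
    exact app_iff.1 (H _ _ (app_iff.2 hp))

theorem l3 {a b c : Name P} (ha : a ∈ g.N) (hb : b ∈ g.N) (hc : c ∈ g.N) :
    ∀ x ∈ [a, b, c], x ∈ g.N := lcons ha (l2 hb hc)

theorem l4 {a b c d : Name P} (ha : a ∈ g.N) (hb : b ∈ g.N) (hc : c ∈ g.N) (hd : d ∈ g.N) :
    ∀ x ∈ [a, b, c, d], x ∈ g.N := lcons ha (l3 hb hc hd)

theorem transfer_app {a b c : Name P} (ha : a ∈ g.N) (hb : b ∈ g.N) (hc : c ∈ g.N)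
    (h : App g.E (g.v a) (g.v b) (g.v c)) :
    ∃ p ∈ g.G, ∀ g' : Gen P, p ∈ g'.G → a ∈ g'.N → b ∈ g'.N → c ∈ g'.N →
      App g'.E (g'.v a) (g'.v b) (g'.v c) := by
  obtain ⟨p, hp, H⟩ := transfer (UDef.app 0 1 2) (l3 ha hb hc) h
  exact ⟨p, hp, fun g' hp' ha' hb' hc' => H g' hp' (l3 ha' hb' hc')⟩

end Gen

end Pool.Agent.MP_85ce7b_lc
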