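import Pool.Agent.MP_85ce7b_lc.L.NNames

namespace Pool.Agent.MP_85ce7b_lc

open Pool.Agent.MP_c6cf52_lc

open Name

universe u

namespace Gen

variable {P : Type 2} [Sz P] [Preorder P] [OrderTop P] [Tame P] (g : Gen P)

/-- The value of a name. -/
noncomputable def val : Name P → ZFSet.{2}
  | @Name.mk _ _ ι _ A B => ZFSet.range (fun i : {i : ι // B i ∈ g.G ∧ A i ∈ g.N} => val (A i.1))

theorem mem_val {z : ZFSet.{2}} {τ : Name P} :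
    z ∈ g.val τ ↔ ∃ i, τ.B i ∈ g.G ∧ τ.A i ∈ g.N ∧ g.val (τ.A i) = z := by
  cases τ with
  | mk ι A B =>
    simp only [val, ZFSet.mem_range, Subtype.exists, exists_prop, and_assoc]
    rfl

theorem op_mem (t : ℕ) (φ : Fml) (k : ℕ) (l : List (Name P)) (hl : ∀ x ∈ l, x ∈ g.N) :
    op t k l ∈ g.N := by
  obtain ⟨_, -, ρ, hρ, h⟩ := g.meets (t + 6) φ k l hl
  exact (show ρ = op t k l from h) ▸ hρ

variable {g}

theorem l2 {σ τ : Name P} (hσ : σ ∈ g.N) (hτ : τ ∈ g.N) : ∀ x ∈ [σ, τ], x ∈ g.N := by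
  simp [hσ, hτ]

theorem l1 {σ : Name P} (hσ : σ ∈ g.N) : ∀ x ∈ [σ], x ∈ g.N := by
  simp [hσ]

theorem lcons {σ : Name P} {l : List (Name P)} (hσ : σ ∈ g.N) (hl : ∀ x ∈ l, x ∈ g.N) :
    ∀ x ∈ σ :: l, x ∈ g.N := by
  intro x hx
  rcases List.mem_cons.1 hx with rfl | hx
  exacts [hσ, hl x hx]

variable (g) in
theorem emp_mem : (emp : Name P) ∈ g.N := g.op_mem 0 .bot 0 [] (by simp)

theorem upair_mem {σ τ : Name P} (hσ : σ ∈ g.N) (hτ : τ ∈ g.N) : upair σ τ ∈ g.N :=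
  g.op_mem 1 .bot 0 [σ, τ] (l2 hσ hτ)

theorem unionN_mem {τ : Name P} (hτ : τ ∈ g.N) : unionN τ ∈ g.N :=
  g.op_mem 2 .bot 0 [τ] (l1 hτ)

theorem rk_mem {τ : Name P} (hτ : τ ∈ g.N) : oN (rk τ) ∈ g.N :=
  g.op_mem 3 .bot 0 [τ] (l1 hτ)

theorem powN_mem {τ : Name P} (hτ : τ ∈ g.N) : powN τ ∈ g.N :=
  g.op_mem 4 .bot 0 [τ] (l1 hτ)

theorem rk_succ_mem {τ : Name P} (hτ : τ ∈ g.N) : oN (Order.succ (rk τ)) ∈ g.N :=
  g.op_mem 5 .bot 0 [τ] (l1 hτ)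

variable (g) in
theorem oN_omega_mem : (oN Ordinal.omega0 : Name P) ∈ g.N := g.op_mem 6 .bot 0 [] (by simp)

variable (g) in
theorem omega_mem : (setN natWf Set.univ : Name P) ∈ g.N := g.op_mem 7 .bot 0 [] (by simp)

theorem child_mem {τ : Name P} (hτ : τ ∈ g.N) (k : ℕ) : child k τ ∈ g.N :=
  g.op_mem 8 .bot k [τ] (l1 hτ)

theorem enumN_mem {τ : Name P} (hτ : τ ∈ g.N) : enumN τ ∈ g.N :=
  g.op_mem 9 .bot 0 [τ] (l1 hτ)

theorem idxN_mem {σ τ : Name P} (hσ : σ ∈ g.N) (hτ : τ ∈ g.N) : idxN σ τ ∈ g.N :=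
  g.op_mem 10 .bot 0 [σ, τ] (l2 hσ hτ)

/-- All children of a name with countable index set are in `N`. -/
theorem A_mem {τ : Name P} (hτ : τ ∈ g.N) [Countable τ.I] (i : τ.I) : τ.A i ∈ g.N := by
  have : Nonempty τ.I := ⟨i⟩
  have h : ∃ f : ℕ → τ.I, Function.Surjective f := exists_surjective_nat _
  obtain ⟨k, hk⟩ := h.choose_spec i
  have := child_mem hτ k
  unfold child at this
  rwa [dif_pos h, hk] at this

theorem fam_mem {ι : Type 2} [Sm P ι] [Countable ι] {A : ι → Name P} (h : fam A ∈ g.N) (i : ι) :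
    A i ∈ g.N :=
  @A_mem P _ _ _ _ g (fam A) h (inferInstanceAs (Countable ι)) i

theorem upair_mem_iff {σ τ : Name P} : upair σ τ ∈ g.N ↔ σ ∈ g.N ∧ τ ∈ g.N :=
  ⟨fun h => ⟨fam_mem h ⟨true⟩, fam_mem h ⟨false⟩⟩, fun h => upair_mem h.1 h.2⟩

theorem pairN_mem_iff {σ τ : Name P} : pairN σ τ ∈ g.N ↔ σ ∈ g.N ∧ τ ∈ g.N := by
  simp only [pairN, upair_mem_iff]; tauto

theorem meets_mem {σ τ : Name P} (hσ : σ ∈ g.N) (hτ : τ ∈ g.N) {p : P} (hp : p ∈ g.G)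
    (h : FMem σ τ p) : ∃ q ∈ g.G, ∃ i, q ≤ τ.B i ∧ FEq σ (τ.A i) q ∧ τ.A i ∈ g.N := by
  obtain ⟨q, hq, ρ, hρ, h' | ⟨i, hi, e, rfl⟩⟩ := g.meets 0 .bot 0 [σ, τ] (l2 hσ hτ)
  · obtain ⟨r, -, h₁, h₂⟩ := g.dir hp hq
    exact absurd (h.mono h₁) (h' r h₂)
  · exact ⟨q, hq, i, hi, e, hρ⟩

theorem val_eq_iff : ∀ {σ τ : Name P}, σ ∈ g.N → τ ∈ g.N →
    (g.val σ = g.val τ ↔ ∃ p ∈ g.G, FEq σ τ p) := by
  intro σ
  induction σ using Name.ind with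
  | h σ ih =>
    intro τ hσ hτ
    constructor
    · intro e
      obtain ⟨q, hq, ρ, hρ, h | ⟨i, hi, h, rfl⟩ | ⟨j, hj, h, rfl⟩⟩ :=
        g.meets 1 .bot 0 [σ, τ] (l2 hσ hτ)
      · exact ⟨q, hq, h⟩
      · exfalso
        have : g.val (σ.A i) ∈ g.val τ := e ▸ g.mem_val.2 ⟨i, g.up hq hi, hρ, rfl⟩
        obtain ⟨j, hj, hjN, e'⟩ := g.mem_val.1 this
        obtain ⟨p, hp, f⟩ := (ih i hρ hjN).1 e'.symm
        obtain ⟨r, hr, h₁, h₂⟩ := g.dir hp hj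
        obtain ⟨s, -, h₃, h₄⟩ := g.dir hr hq
        exact h s h₄ (FMem.of_feq (h₃.trans h₂) (f.mono (h₃.trans h₁)))
      · exfalso
        have : g.val (τ.A j) ∈ g.val σ := e ▸ g.mem_val.2 ⟨j, g.up hq hj, hρ, rfl⟩
        obtain ⟨i, hi, hiN, e'⟩ := g.mem_val.1 this
        obtain ⟨p, hp, f⟩ := (ih i hiN hρ).1 e'
        obtain ⟨r, hr, h₁, h₂⟩ := g.dir hp hi
        obtain ⟨s, -, h₃, h₄⟩ := g.dir hr hq
        exact h s h₄ (FMem.of_feq (h₃.trans h₂) (f.symm.mono (h₃.trans h₁)))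
    · rintro ⟨p, hp, h⟩
      rw [feq_iff] at h
      ext z
      simp only [g.mem_val]
      constructor
      · rintro ⟨i, hi, hiN, rfl⟩
        obtain ⟨q, hq, h₁, h₂⟩ := g.dir hp hi
        obtain ⟨r, hr, j, hj, e, hjN⟩ := meets_mem hiN hτ hq (h.1 i q h₁ h₂)
        exact ⟨j, g.up hr hj, hjN, ((ih i hiN hjN).2 ⟨r, hr, e⟩).symm⟩
      · rintro ⟨j, hj, hjN, rfl⟩
        obtain ⟨q, hq, h₁, h₂⟩ := g.dir hp hj
        obtain ⟨r, hr, i, hi, e, hiN⟩ := meets_mem hjN hσ hq (h.2 j q h₁ h₂)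
        exact ⟨i, g.up hr hi, hiN, (ih i hiN hjN).2 ⟨r, hr, e.symm⟩⟩

theorem val_mem_iff {σ τ : Name P} (hσ : σ ∈ g.N) (hτ : τ ∈ g.N) :
    g.val σ ∈ g.val τ ↔ ∃ p ∈ g.G, FMem σ τ p := by
  constructor
  · intro h
    obtain ⟨j, hj, hjN, e⟩ := g.mem_val.1 h
    obtain ⟨p, hp, f⟩ := (val_eq_iff hσ hjN).1 e.symm
    obtain ⟨r, hr, h₁, h₂⟩ := g.dir hp hj
    exact ⟨r, hr, FMem.of_feq h₂ (f.mono h₁)⟩
  · rintro ⟨p, hp, h⟩
    obtain ⟨r, hr, j, hj, e, hjN⟩ := meets_mem hσ hτ hp h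
    exact g.mem_val.2 ⟨j, g.up hr hj, hjN, ((val_eq_iff hσ hjN).2 ⟨r, hr, e⟩).symm⟩

variable (g)

/-- The generic model. -/
def M : Type 3 := {x : ZFSet.{2} // ∃ τ ∈ g.N, g.val τ = x}

/-- Its membership relation. -/
def E (x y : g.M) : Prop := x.1 ∈ y.1

open Classical in
/-- The element of the model named by `τ` (for `τ ∈ N`). -/
noncomputable def v (τ : Name P) : g.M :=
  if h : τ ∈ g.N then ⟨g.val τ, τ, h, rfl⟩ else ⟨g.val emp, emp, g.emp_mem, rfl⟩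

/-- The valuation given by a list of names. -/
noncomputable def w (l : List (Name P)) : ℕ → g.M := fun k => g.v (env emp l k)

variable {g}

theorem v_val {τ : Name P} (h : τ ∈ g.N) : (g.v τ).1 = g.val τ := by
  unfold v; rw [dif_pos h]

theorem exists_v (x : g.M) : ∃ τ ∈ g.N, g.v τ = x := by
  obtain ⟨x, τ, h, rfl⟩ := x
  exact ⟨τ, h, Subtype.ext (v_val h)⟩

theorem exists_vl (l : List g.M) : ∃ l' : List (Name P), (∀ x ∈ l', x ∈ g.N) ∧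
    g.w l' = env (g.v emp) l := by
  obtain ⟨l', h, rfl⟩ : ∃ l' : List (Name P), (∀ x ∈ l', x ∈ g.N) ∧ l'.map g.v = l := by
    induction l with
    | nil => exact ⟨[], by simp, rfl⟩
    | cons x l ih =>
      obtain ⟨l', h, rfl⟩ := ih
      obtain ⟨τ, hτ, rfl⟩ := exists_v x
      exact ⟨τ :: l', lcons hτ h, rfl⟩
  exact ⟨l', h, (env_map _ _ _).symm⟩

theorem w_cons (τ : Name P) (l : List (Name P)) : g.w (τ :: l) = cons (g.v τ) (g.w l) := by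
  funext k; cases k <;> rfl

theorem E_v {x : g.M} {τ : Name P} (hτ : τ ∈ g.N) :
    g.E x (g.v τ) ↔ ∃ i, τ.B i ∈ g.G ∧ τ.A i ∈ g.N ∧ g.v (τ.A i) = x := by
  unfold E
  rw [v_val hτ, g.mem_val]
  refine exists_congr fun i => and_congr_right fun _ => and_congr_right fun h => ?_
  rw [← v_val h]
  exact Subtype.ext_iff.symm

theorem v_eq_iff {σ τ : Name P} (hσ : σ ∈ g.N) (hτ : τ ∈ g.N) :
    g.v σ = g.v τ ↔ ∃ p ∈ g.G, FEq σ τ p := by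
  rw [← val_eq_iff hσ hτ, ← v_val hσ, ← v_val hτ]
  exact Subtype.ext_iff

theorem v_mem_iff {σ τ : Name P} (hσ : σ ∈ g.N) (hτ : τ ∈ g.N) :
    g.E (g.v σ) (g.v τ) ↔ ∃ p ∈ g.G, FMem σ τ p := by
  rw [← val_mem_iff hσ hτ, ← v_val hσ, ← v_val hτ]
  rfl

theorem meets_wit (φ : Fml) {l : List (Name P)} (hl : ∀ x ∈ l, x ∈ g.N) :
    ∃ q ∈ g.G, (wit φ l q ∈ g.N ∧ Forces φ (env emp (wit φ l q :: l)) q) ∨
      ∀ r ≤ q, ∀ ρ', ¬ Forces φ (env emp (ρ' :: l)) r := by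
  obtain ⟨q, hq, ρ, hρ, ⟨h, rfl⟩ | h⟩ := g.meets 3 φ 0 l hl
  · exact ⟨q, hq, Or.inl ⟨hρ, h⟩⟩
  · exact ⟨q, hq, Or.inr h⟩

/-- The truth lemma. -/
theorem truth : ∀ (φ : Fml) {l : List (Name P)}, (∀ x ∈ l, x ∈ g.N) →
    (Sat g.E φ (g.w l) ↔ ∃ p ∈ g.G, Forces φ (env emp l) p) := by
  intro φ
  induction φ with
  | mem i j =>
    intro l hl
    exact v_mem_iff (env_mem g.emp_mem hl i) (env_mem g.emp_mem hl j)
  | eq i j =>
    intro l hl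
    exact v_eq_iff (env_mem g.emp_mem hl i) (env_mem g.emp_mem hl j)
  | bot => intro l _; simp [Sat, Forces]
  | imp φ ψ ih₁ ih₂ =>
    intro l hl
    simp only [Sat, Forces, ih₁ hl, ih₂ hl]
    constructor
    · intro h
      obtain ⟨q, hq, -, -, h' | h'⟩ := g.meets 2 φ 0 l hl
      · obtain ⟨p, hp, h⟩ := h ⟨q, hq, h'⟩
        exact ⟨p, hp, fun r hr _ => h.mono hr⟩
      · exact ⟨q, hq, fun r hr h => absurd h (h' r hr)⟩
    · rintro ⟨p, hp, h⟩ ⟨q, hq, h'⟩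
      obtain ⟨r, hr, h₁, h₂⟩ := g.dir hp hq
      exact ⟨r, hr, h r h₁ (h'.mono h₂)⟩
  | all φ ih =>
    intro l hl
    simp only [Sat, Forces]
    constructor
    · intro h
      obtain ⟨q, hq, ⟨hρ, h'⟩ | h'⟩ := meets_wit (.imp φ .bot) hl
      · exfalso
        have := h (g.v (wit (.imp φ .bot) l q))
        rw [← w_cons, ih (lcons hρ hl)] at this
        obtain ⟨p, hp, f⟩ := this
        obtain ⟨r, -, h₁, h₂⟩ := g.dir hp hq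
        exact h' r h₂ (f.mono h₁)
      · refine ⟨q, hq, fun τ => Forces.reg fun r hr => ?_⟩
        have := h' r hr τ
        simp only [Forces, not_forall] at this
        obtain ⟨s, hs, f, -⟩ := this
        exact ⟨s, hs, by rwa [env_cons] at f⟩
    · rintro ⟨p, hp, h⟩ x
      obtain ⟨τ, hτ, rfl⟩ := exists_v x
      rw [← w_cons, ih (lcons hτ hl)]
      exact ⟨p, hp, by rw [env_cons]; exact h τ⟩

/-- A uniformly definable property true in the model is forced by a condition of the filter. -/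
theorem transfer {Ψ : ∀ (M : Type 3), (M → M → Prop) → (ℕ → M) → Prop} (h : UDef Ψ)
    {l : List (Name P)} (hl : ∀ x ∈ l, x ∈ g.N) (hΨ : Ψ g.M g.E (g.w l)) :
    ∃ p ∈ g.G, ∀ g' : Gen P, p ∈ g'.G → (∀ x ∈ l, x ∈ g'.N) → Ψ g'.M g'.E (g'.w l) := by
  obtain ⟨φ, h⟩ := h
  obtain ⟨p, hp, f⟩ := (truth φ hl).1 ((h _ _ _).2 hΨ)
  exact ⟨p, hp, fun g' hp' hl' => (h _ _ _).1 ((truth φ hl').2 ⟨p, hp', f⟩)⟩

/-- Density principle. -/
theorem dens {Ψ : ∀ (M : Type 3), (M → M → Prop) → (ℕ → M) → Prop} (h : UDef Ψ)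
    {l : List (Name P)} (hl : ∀ x ∈ l, x ∈ g.N)
    (H : ∀ p ∈ g.G, ∃ q ≤ p, ∃ C : Set (Name P), C.Countable ∧
      ∀ g' : Gen P, q ∈ g'.G → C ⊆ g'.N → (∀ x ∈ l, x ∈ g'.N) → Ψ g'.M g'.E (g'.w l)) :
    Ψ g.M g.E (g.w l) := by
  by_contra hn
  obtain ⟨p, hp, f⟩ := transfer h.not hl hn
  obtain ⟨q, hq, C, hC, H⟩ := H p hp
  obtain ⟨g', hq', hC'⟩ := exists_gen q (C ∪ {x | x ∈ l})
    (hC.union (List.finite_toSet l).countable)
  have hl' : ∀ x ∈ l, x ∈ g'.N := fun x hx => hC' (Or.inr hx)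
  exact f g' (g'.up hq' hq) hl' (H g' hq' (fun x hx => hC' (Or.inl hx)) hl')

end Gen

end Pool.Agent.MP_85ce7b_lc
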