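import Pool.Agent.MP_85ce7b_lc.L.RT

namespace Pool.Agent.MP_85ce7b_lc

open Set Cardinal Ordinal Dat

namespace Ctx

variable {C : Ctx} {p q r : Raw} {t δ δ' e μ ν τ : Od} {D : Raw → Prop}

/-- Some point of `q` is a level below which `D` is dense. -/
def Pd (C : Ctx) (μ : Od) (D : Raw → Prop) (q : Raw) : Prop :=
  μ ∉ q.c ∧ ∃ δ ∈ q.c, C.RO δ D q

theorem rg_lt (hq : C.Scope μ q) (hn : μ ∉ q.c) (hδ : δ ∈ q.c) : δ < μ := by
  rcases hq.cut with h | h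
  · exact absurd h hn
  · exact h.2.2 hδ

theorem rg_nmem (h : C.LeT μ p q) (hn : μ ∉ q.c) : μ ∉ p.c :=
  fun h' => hn (((h.ag.1 μ le_rfl).1).1 h')

/-- Transfer of an extension of the lower part. -/
theorem rg_mix {q' w : Raw} (hq : C.Scope μ q) (hδ : δ ∈ q.c) (hδμ : δ ≤ μ) (h : C.LeT μ q' q)
    (hw : C.LeT δ w (mix δ q' q)) :
    C.Scope μ w ∧ C.LeT δ (mix δ w q') q' ∧ C.LeT μ (mix δ w q') w := by
  have h0 : C.LeT δ (mix δ q' q) q := low_leT h.le hδ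
  have h1 : C.LeT δ w q := leT_trans hw h0
  have hδ' : δ ∈ q'.c := le_c h.le hδ
  refine ⟨leT_scope hq (leT_mono h1 (scope_of_mem hq.v hδ) hq hδμ), ?_, ?_⟩
  · have := mix_le_left hw.le (le_c h0.le hδ) (le_valid h.le) hδ'
    rwa [mix_mix_left, mix_self] at this
  · have := mix_leT_right h hδ hδμ (le_valid h1.le) (le_c h1.le hδ)
    rwa [mix_eq_left h1.ag] at this

theorem pd_open (hD : C.OpenT μ D) : C.OpenT μ (C.Pd μ D) := by
  rintro q q1 hq ⟨hn, δ, hδ, hd⟩ h1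
  have hlt : δ < μ := rg_lt hq hn hδ
  have hδ1 : δ ∈ q1.c := le_c h1.le hδ
  have hq1 : C.Scope μ q1 := leT_scope hq h1
  refine ⟨rg_nmem h1 hn, δ, hδ1, fun q' hq' => ?_⟩
  have h2 : C.LeT μ q' q :=
    leT_trans (leT_mono hq' (scope_of_mem hq1.v hδ1) hq1 hlt.le) h1
  obtain ⟨w, hw, hDw⟩ := hd _ (low_leT h2.le hδ)
  obtain ⟨hs, h3, h4⟩ := rg_mix hq hδ hlt.le h2 hw
  exact ⟨_, h3, hD _ _ hs hDw h4⟩

theorem pd_lc (hD : C.OpenT μ D) : C.LC μ (· ≤ μ) (C.Pd μ D) := by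
  intro δ r hδμ hr hδ H
  have hn : μ ∉ r.c := by
    obtain ⟨r'', h1, h2, -⟩ := H r (leT_refl (scope_of_mem hr.v hδ))
    exact fun h => h2 (le_c h1.le h)
  obtain ⟨m, hm, hmax⟩ := valid_max hr.v
  have hmμ : m < μ := rg_lt hr hn hm
  have hδm : δ ≤ m := hmax _ hδ
  refine ⟨hn, m, hm, fun q' hq' => ?_⟩
  have h2 : C.LeT μ q' r := leT_mono hq' (scope_of_mem hr.v hm) hr hmμ.le
  obtain ⟨w, hw, hPw⟩ := H _ (low_leT h2.le hδ)
  obtain ⟨hs, h3, h4⟩ := rg_mix hr hδ hδμ h2 hw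
  obtain ⟨-, e, he, hd⟩ := pd_open hD _ _ hs hPw h4
  have hv' : C.Valid q' := le_valid hq'.le
  have hm' : m ∈ q'.c := le_c hq'.le hm
  have h5 : C.LeT m (mix δ w q') q' :=
    leT_mono h3 (scope_of_mem hv' (le_c hq'.le hδ)) (scope_of_mem hv' hm') hδm
  have hv : C.Valid (mix δ w q') := le_valid h5.le
  have hem : e ≤ m := by
    by_contra hc
    have hc' : m ≤ e := (not_le.1 hc).le
    exact hc (hmax _ ((((leT_trans h5 hq').ag.1 e hc').1).1 he))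
  obtain ⟨z, hz, hDz⟩ := hd _ (leT_refl (scope_of_mem hv he))
  exact ⟨z, leT_trans
    (leT_mono hz (scope_of_mem hv he) (scope_of_mem hv (le_c h5.le hm')) hem) h5, hDz⟩

theorem rg_pd_of (hD : C.OpenT μ D) (hr : C.Scope μ r) (hn : μ ∉ r.c) (h : D r) :
    C.Pd μ D r := by
  obtain ⟨δ, hδ⟩ := hr.v.ne
  refine ⟨hn, δ, hδ, fun r' h' => ⟨r', ?_, ?_⟩⟩
  · exact leT_refl (scope_of_mem (le_valid h'.le) (le_c h'.le hδ))
  · exact hD _ _ hr h (leT_mono h' (scope_of_mem hr.v hδ) hr (rg_lt hr hn hδ).le)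

theorem rg_dt_leT {β : Od} (hp : C.Scope t p) (h : C.DT β t q p) : C.LeT t q p :=
  (ds_leS hp h.1).1

theorem pd_blocks (hμ : μ ∈ C.Sp) (hq : C.Scope μ q) (hn : μ ∉ q.c) (hD : C.OpenT μ D)
    (hd : C.RO μ D q) :
    {ξ | C.Insb q μ (C.dec ξ) → C.Pd μ D (cat q (C.dec ξ))} ∈ C.W μ := by
  have hG := C.good μ hμ
  refine hG.w2 (fun b => C.Insb q μ b → C.Pd μ D (cat q b)) (fun b hb => ?_)
    (fun b b' hb hdt hZ hi => ?_)
  · by_cases hi : C.Insb q μ b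
    · obtain ⟨h1, hg, hlt⟩ := cat_blk hq hn hi
      have hs : C.Scope μ (cat q b) := leT_scope hq h1
      have hν : (1 : Od).card ≤ C.B (fp b + 1) := by
        rw [Ordinal.card_one]
        exact Cardinal.one_le_aleph0.trans (C.bf.aleph0_le _)
      obtain ⟨u, hu, H⟩ := pf_T (pp_all C μ) hs (Or.inl hg) hlt.le hν (fun _ => C.Pd μ D)
        (fun _ => pd_open hD) (fun _ => pd_lc hD)
      have hu' : C.LeT μ u (cat q b) := rg_dt_leT hs hu
      have hsu : C.Scope μ u := leT_scope hs hu'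
      have hmem : fp b + 1 ∈ u.c := le_c hu'.le hg.1
      have hP : C.Pd μ D u := by
        refine pd_lc hD _ u hlt.le hsu hmem fun l hl => ?_
        refine (H 0 zero_lt_one l hl).resolve_right fun hno => ?_
        have hl' : C.LeT μ l q :=
          leT_trans (leT_mono hl (scope_of_mem hsu.v hmem) hsu hlt.le) (leT_trans hu' h1)
        obtain ⟨z, hz, hDz⟩ := hd l hl'
        have hz' := leT_trans hz hl'
        exact hno z hz (rg_pd_of hD (leT_scope hq hz') (rg_nmem hz' hn) hDz)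
      obtain ⟨b', hb', rfl⟩ := cat_up hq hn hi hu
      exact ⟨b', hb', fun _ => hP⟩
    · exact ⟨b, dt_refl (blk_scope hb hG.inac).1, fun h => absurd h hi⟩
  · have hfp : fp b' = fp b := (blk_dt hb hG.inac hdt).2
    have hib : C.Insb q μ b := ⟨hb, hfp ▸ hi.lt, hfp ▸ hi.bel⟩
    have hs : C.Scope μ (cat q b) := leT_scope hq (cat_blk hq hn hib).1
    exact pd_open hD _ _ hs (hZ hib) (rg_dt_leT hs (cat_dt hq hn hib hdt).2)

/-- Below a special point `μ` the forcing induces a generic filter for the forcing below `μ`. -/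
theorem gen (hr : C.Valid r) (hμ : Spec r μ) (hD : C.OpenT μ D) (hd : C.RO μ D (res μ r)) :
    ∃ r', C.LeT μ r' r ∧ D (res μ r') := by
  obtain ⟨hq, hn, -⟩ := res_scope hr hμ
  obtain ⟨hin, -, hsp⟩ := spec_inac hr hμ
  have hZ := pd_blocks hsp hq hn hD hd
  obtain ⟨L, hL⟩ := id hμ
  obtain ⟨ξ, hξ, hξZ, -, hi⟩ := exists_ins hr hL (a := 0) hin.isSuccLimit.pos hZ
  have hi' : C.Insb (res μ r) μ (C.dec ξ) := (insb_res hin).2 hi
  have hP := hξZ hi'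
  have hsr : C.Scope μ r := scope_of_mem hr (spec_mem hr hμ)
  have h1 : C.LeT μ (ins r μ (C.dec ξ) (sec L.F ξ)) r :=
    leT_of_ins hsr ⟨L, ξ, hL, hξ, hi, rfl⟩ le_rfl
  have hres := res_ins (f := sec L.F ξ) hr hμ hi
  obtain ⟨h2, hg, hlt⟩ := cat_blk hq hn hi'
  have hs : C.Scope μ (cat (res μ r) (C.dec ξ)) := leT_scope hq h2
  have h3 := leT_mono (cat_setH hq hn hi' ((hr.sp μ L hL).F ξ hξ))
    (scope_of_mem hs.v hg.1) hs hlt.le
  rw [← hres] at h3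
  generalize ins r μ (C.dec ξ) (sec L.F ξ) = r1 at h1 h3
  obtain ⟨-, e, he, hde⟩ := pd_open hD _ _ hs hP h3
  have he1 : e ∈ r1.c := he.1
  have heμ : e < μ := he.2
  have hv1 : C.Valid r1 := le_valid h1.le
  obtain ⟨z, hz, hDz⟩ := hde _ (leT_refl (scope_of_mem (le_valid h3.le) he))
  have hlo : AgLo e (res μ r1) r1 :=
    ⟨fun x hx => agS_res μ r1 x (hx.trans heμ), (agS_res μ r1 e heμ).2.2⟩
  have h4 := mix_le_left hz.le he hv1 he1
  rw [mix_eq_right hlo] at h4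
  refine ⟨mix e z r1, leT_trans
    (leT_mono h4 (scope_of_mem hv1 he1) (leT_scope hsr h1) heμ.le) h1, ?_⟩
  rwa [res_mix _ _ heμ, mix_eq_left hz.ag]

end Ctx

end Pool.Agent.MP_85ce7b_lc
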