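import Pool.Agent.MP_85ce7b_lc.L.RF
import Pool.Agent.MP_85ce7b_lc.L.RG
import Pool.Agent.MP_85ce7b_lc.L.NBnd

namespace Pool.Agent.MP_85ce7b_lc

open Set Cardinal Ordinal Dat

abbrev Tri : Type 2 := Set (Od × Od × Od)

namespace Ctx

variable (C : Ctx)

/-- The trivial condition. -/
def p0 : Raw := itv 0 (C.s + 1)

/-- The conditions of the forcing below `κ`. -/
def InR (r : Raw) : Prop := C.LeT C.kap r C.p0

/-- `r` gives the value `v` to the term `N`. -/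
def Has (N : Set (Raw × Od)) (r : Raw) (v : Od) : Prop := ∃ r₀, (r₀, v) ∈ N ∧ C.LeT C.kap r r₀

/-- `p` forces that the terms `N` and `N'` have the same values. -/
def Eqv (p : Raw) (N N' : Set (Raw × Od)) : Prop :=
  ∀ r, C.LeT C.kap r p → ∀ v, (C.Has N r v → ∃ r', C.LeT C.kap r' r ∧ C.Has N' r' v) ∧
    (C.Has N' r v → ∃ r', C.LeT C.kap r' r ∧ C.Has N r' v)

/-- Conditions of the term forcing above `κ`. -/
structure TV (q : Tri) : Prop where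
  rng : ∀ x i c, (x, i, c) ∈ q → C.kap ≤ x ∧ c < (C.B (x + 1)).ord
  fn : ∀ x i c c', (x, i, c) ∈ q → (x, i, c') ∈ q → c = c'
  dom : ∀ x, ∃ j < (Order.succ (C.B x)).ord, ∀ i c, (x, i, c) ∈ q → i < j
  supp : ∃ y < C.th.ord, ∀ x i c, (x, i, c) ∈ q → x < y

/-- The forcing. -/
@[ext] structure Po : Type 2 where
  r : Raw
  t : Tri
  hr : C.InR r
  ht : C.TV t

variable {C}

theorem inR_scope {r : Raw} (h : C.InR r) :
    C.Scope C.kap r ∧ C.kap ∉ r.c ∧ Intv r 0 (C.s + 1) :=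
  ⟨leT_scope C.p0_scope.1 h, fun hk => C.p0_scope.2 ((h.ag.1 _ le_rfl).1.1 hk),
    le_intv h.le zero_le ⟨subset_rfl, fun _ _ _ => rfl⟩⟩

theorem inR_p0 (C : Ctx) : C.InR C.p0 := leT_refl C.p0_scope.1

theorem inR_le {r r' : Raw} (h : C.InR r) (h' : C.LeT C.kap r' r) : C.InR r' := leT_trans h' h

theorem has_mono {N : Set (Raw × Od)} {r r' : Raw} {v : Od} (h : C.Has N r v)
    (h' : C.LeT C.kap r' r) : C.Has N r' v := by
  obtain ⟨r₀, h₁, h₂⟩ := h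
  exact ⟨r₀, h₁, leT_trans h' h₂⟩

theorem eqv_refl {p : Raw} (hp : C.InR p) (N : Set (Raw × Od)) : C.Eqv p N N := fun _ hr _ =>
  ⟨fun h => ⟨_, leT_refl (inR_scope (inR_le hp hr)).1, h⟩,
    fun h => ⟨_, leT_refl (inR_scope (inR_le hp hr)).1, h⟩⟩

theorem eqv_symm {p : Raw} {N N' : Set (Raw × Od)} (h : C.Eqv p N N') : C.Eqv p N' N :=
  fun r hr v => (h r hr v).symm

theorem eqv_mono {p p' : Raw} {N N' : Set (Raw × Od)} (h : C.Eqv p N N')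
    (h' : C.LeT C.kap p' p) : C.Eqv p' N N' := fun r hr => h r (leT_trans hr h')

theorem eqv_trans {p : Raw} {N N' N'' : Set (Raw × Od)} (h : C.Eqv p N N') (h' : C.Eqv p N' N'') :
    C.Eqv p N N'' := fun r hr v => by
  constructor
  · intro h₁
    obtain ⟨r₁, h₂, h₃⟩ := (h r hr v).1 h₁
    obtain ⟨r₂, h₄, h₅⟩ := (h' r₁ (leT_trans h₂ hr) v).1 h₃
    exact ⟨r₂, leT_trans h₄ h₂, h₅⟩
  · intro h₁
    obtain ⟨r₁, h₂, h₃⟩ := (h' r hr v).2 h₁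
    obtain ⟨r₂, h₄, h₅⟩ := (h r₁ (leT_trans h₂ hr) v).2 h₃
    exact ⟨r₂, leT_trans h₄ h₂, h₅⟩

instance : Preorder C.Po where
  le ρ π := C.LeT C.kap ρ.r π.r ∧
    ∀ x i c, (x, i, c) ∈ π.t → ∃ c', (x, i, c') ∈ ρ.t ∧ C.Eqv ρ.r (C.nm x c) (C.nm x c')
  le_refl π := ⟨leT_refl (inR_scope π.hr).1, fun _ _ c h => ⟨c, h, eqv_refl π.hr _⟩⟩
  le_trans a b c h₁ h₂ := ⟨leT_trans h₁.1 h₂.1, fun x i d h => by
    obtain ⟨d₁, h₃, h₄⟩ := h₂.2 x i d h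
    obtain ⟨d₂, h₅, h₆⟩ := h₁.2 x i d₁ h₃
    exact ⟨d₂, h₅, eqv_trans (eqv_mono h₄ h₁.1) h₆⟩⟩

theorem le_def {ρ π : C.Po} : ρ ≤ π ↔ C.LeT C.kap ρ.r π.r ∧
    ∀ x i c, (x, i, c) ∈ π.t → ∃ c', (x, i, c') ∈ ρ.t ∧ C.Eqv ρ.r (C.nm x c) (C.nm x c') :=
  Iff.rfl

theorem tv_empty (C : Ctx) : C.TV ∅ where
  rng := fun _ _ _ h => h.elim
  fn := fun _ _ _ _ h => h.elim
  dom := fun x => ⟨0, by
    rw [Cardinal.lt_ord, Ordinal.card_zero]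
    exact zero_le.trans_lt (Order.lt_succ _), fun _ _ h => h.elim⟩
  supp := ⟨0, zero_le.trans_lt C.k_lt, fun _ _ _ h => h.elim⟩

theorem tv_sub {q q' : Tri} (h : C.TV q) (hs : q' ⊆ q) : C.TV q' where
  rng := fun x i c h' => h.rng x i c (hs h')
  fn := fun x i c c' h₁ h₂ => h.fn x i c c' (hs h₁) (hs h₂)
  dom := fun x => (h.dom x).imp fun _ hj => ⟨hj.1, fun i c h' => hj.2 i c (hs h')⟩
  supp := h.supp.imp fun _ hy => ⟨hy.1, fun x i c h' => hy.2 x i c (hs h')⟩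

/-- Conditions with trivial upper part. -/
def ofR (r : Raw) (hr : C.InR r) : C.Po := ⟨r, ∅, hr, C.tv_empty⟩

theorem le_ofR {ρ : C.Po} {r : Raw} {hr : C.InR r} : ρ ≤ ofR r hr ↔ C.LeT C.kap ρ.r r :=
  ⟨fun h => h.1, fun h => ⟨h, fun _ _ _ h => h.elim⟩⟩

instance : OrderTop C.Po where
  top := ofR C.p0 C.inR_p0
  le_top π := le_ofR.2 π.hr

instance : Sz C.Po := ⟨C.th, C.thin⟩

/-- Extension of the first coordinate. -/
def setR (π : C.Po) (r : Raw) (h : C.LeT C.kap r π.r) : C.Po := ⟨r, π.t, inR_le π.hr h, π.ht⟩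

theorem setR_le (π : C.Po) (r : Raw) (h : C.LeT C.kap r π.r) : setR π r h ≤ π :=
  ⟨h, fun _ _ c h' => ⟨c, h', eqv_refl (inR_le π.hr h) _⟩⟩

theorem le_of_sub {ρ π : C.Po} (h₁ : C.LeT C.kap ρ.r π.r) (h₂ : π.t ⊆ ρ.t) : ρ ≤ π :=
  ⟨h₁, fun _ _ c h => ⟨c, h₂ h, eqv_refl ρ.hr _⟩⟩

theorem tv_glue {q q' : Tri} (h : C.TV q) (h' : C.TV q') (y : Od) :
    C.TV {z | (z ∈ q ∧ z.1 < y) ∨ (z ∈ q' ∧ y ≤ z.1)} where
  rng := fun x i c hz => hz.elim (fun hz => h.rng x i c hz.1) fun hz => h'.rng x i c hz.1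
  fn := by
    rintro x i c c' (h₁ | h₁) (h₂ | h₂)
    · exact h.fn x i c c' h₁.1 h₂.1
    · exact absurd h₁.2 (not_lt.2 h₂.2)
    · exact absurd h₂.2 (not_lt.2 h₁.2)
    · exact h'.fn x i c c' h₁.1 h₂.1
  dom := fun x => by
    obtain ⟨j, hj, H⟩ := h.dom x
    obtain ⟨j', hj', H'⟩ := h'.dom x
    exact ⟨max j j', max_lt hj hj', fun i c hz => hz.elim
      (fun hz => lt_max_of_lt_left (H i c hz.1)) fun hz => lt_max_of_lt_right (H' i c hz.1)⟩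
  supp := by
    obtain ⟨j, hj, H⟩ := h.supp
    obtain ⟨j', hj', H'⟩ := h'.supp
    exact ⟨max j j', max_lt hj hj', fun x i c hz => hz.elim
      (fun hz => lt_max_of_lt_left (H x i c hz.1)) fun hz => lt_max_of_lt_right (H' x i c hz.1)⟩

/-- The part of `ρ` below the level `y` together with the part of `σ` from `y` on. -/
def glue (y : Od) (ρ σ : C.Po) : C.Po :=
  ⟨ρ.r, {z | (z ∈ ρ.t ∧ z.1 < y) ∨ (z ∈ σ.t ∧ y ≤ z.1)}, ρ.hr, tv_glue ρ.ht σ.ht y⟩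

/-- The conditions that live below the level `y`. -/
def Low (C : Ctx) (y : Od) : Set C.Po := {π | ∀ z ∈ π.t, z.1 < y}

/-- Levels at which the forcing factors. -/
def Lev (C : Ctx) (y : Od) : Prop := y < C.th.ord ∧ (y = C.kap ∨ (C.kap < y ∧ ∃ z, y = z + 1))

/-- `ρ` decides that the collapse at `x` sends `i` to `v`. -/
def Sg (ρ : C.Po) (x i v : Od) : Prop :=
  ∃ c, (x, i, c) ∈ ρ.t ∧ C.Eqv ρ.r {(C.p0, v)} (C.nm x c)

end Ctx

end Pool.Agent.MP_85ce7b_lc
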