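import Pool.Agent.MP_85ce7b_lc.L.PDefs

namespace Pool.Agent.MP_85ce7b_lc

open Set Cardinal Ordinal Dat

namespace Ctx

variable {C : Ctx} {π ρ σ : C.Po} {x y ν τ : Od}

theorem pred_refl (ρ : C.Po) : C.LeT C.kap ρ.r ρ.r := leT_refl (inR_scope ρ.hr).1

theorem le_glue (h : ρ ≤ σ) (y : Od) : ρ ≤ glue y ρ σ ∧ glue y ρ σ ≤ σ := by
  refine ⟨⟨pred_refl ρ, ?_⟩, h.1, fun x i c hz => ?_⟩
  · rintro x i c (hz | hz)
    · exact ⟨c, hz.1, eqv_refl ρ.hr _⟩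
    · exact h.2 x i c hz.1
  · rcases lt_or_ge x y with hx | hx
    · obtain ⟨c', h₁, h₂⟩ := h.2 x i c hz
      exact ⟨c', Or.inl ⟨h₁, hx⟩, h₂⟩
    · exact ⟨c, Or.inr ⟨hz, hx⟩, eqv_refl ρ.hr _⟩

theorem glue_top_mem (y : Od) (ρ : C.Po) : glue y ρ ⊤ ∈ C.Low y := by
  rintro z (hz | hz)
  · exact hz.2
  · exact hz.1.elim

theorem glue_glue (y : Od) (ρ σ σ' : C.Po) : glue y (glue y ρ σ') σ = glue y ρ σ := by
  refine Po.ext rfl (Set.ext fun z => ⟨?_, ?_⟩)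
  · rintro (⟨hz | hz, h⟩ | hz)
    · exact Or.inl hz
    · exact absurd h (not_lt.2 hz.2)
    · exact Or.inr hz
  · rintro (hz | hz)
    · exact Or.inl ⟨Or.inl hz, hz.2⟩
    · exact Or.inr hz

theorem meet_glue (h : ρ ≤ σ) (y : Od) : Name.Meet (glue y ρ σ) (glue y ρ ⊤) σ := by
  intro t
  refine ⟨fun ht => ⟨ht.trans (le_of_sub (pred_refl ρ) ?_), ht.trans (le_glue h y).2⟩,
    fun ⟨h₁, h₂⟩ => ⟨h₁.1, ?_⟩⟩
  · rintro z (hz | hz)
    · exact Or.inl hz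
    · exact hz.1.elim
  · rintro x i c (hz | hz)
    · exact h₁.2 x i c (Or.inl hz)
    · exact h₂.2 x i c hz.1

theorem pred_bdd {r : Raw} (h : C.InR r) : Bdd C.kap r := by
  obtain ⟨h₁, h₂, -⟩ := inR_scope h
  exact bdd_of_below h₁.v C.kin (h₁.cut.resolve_left h₂).2.2 h₁.bel

theorem card_inR (C : Ctx) : Cardinal.mk {r | C.InR r} ≤ lift.{2} C.kap.card := by
  have h : {r | C.InR r} ⊆ C.dec '' Iio C.kap := fun r hr =>
    let ⟨ξ, h₁, h₂⟩ := C.hdec _ r C.kin (pred_bdd hr)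
    ⟨ξ, h₁, h₂⟩
  refine (Cardinal.mk_le_mk_of_subset h).trans (Cardinal.mk_image_le.trans ?_)
  rw [Cardinal.mk_Iio_ordinal]

theorem pred_lev_le (hy : C.Lev y) : C.kap ≤ y :=
  hy.2.elim (fun h => h.ge) fun h => h.1.le

theorem pred_lim (C : Ctx) (x : Od) : Order.IsSuccLimit (Order.succ (C.B x)).ord :=
  isSuccLimit_ord ((C.bf.aleph0_le x).trans (Order.le_succ _))

theorem pred_succ_mono (h : x ≤ y) : (Order.succ (C.B x)).ord ≤ (Order.succ (C.B y)).ord :=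
  ord_le_ord.2 (Order.succ_le_succ (C.bf.mono h))

theorem pred_card_t {z : Od} (hπ : π ∈ C.Low (z + 1)) : Cardinal.mk π.t ≤ lift.{2} (C.B z) := by
  choose j hj hj' using π.ht.dom
  have h₀ := C.bf.aleph0_le z
  have h₁ : (z + 1).card ≤ C.B z := by
    rw [card_add_one]
    exact Cardinal.add_le_of_le h₀ (C.bf.card_le z) (Cardinal.one_le_aleph0.trans h₀)
  obtain ⟨J, hJ, H⟩ := bound_of_lt_cof (C.pred_lim z) (h₁.trans_lt (rf_succ_cof h₀)) j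
    fun i hi => (hj i).trans_le (pred_succ_mono (Order.lt_add_one_iff.1 hi))
  have h₂ : J.card ≤ C.B z := Order.lt_succ_iff.1 (lt_ord.1 hJ)
  have h₃ : Cardinal.mk π.t ≤ Cardinal.mk (Iio (z + 1) × Iio J) := by
    refine Cardinal.mk_le_of_injective (f := fun w => (⟨w.1.1, hπ _ w.2⟩,
      ⟨w.1.2.1, (hj' _ _ _ w.2).trans (H _ (hπ _ w.2))⟩)) ?_
    rintro ⟨⟨a, b, c⟩, hw⟩ ⟨⟨a', b', c'⟩, hw'⟩ e
    simp only [Prod.mk.injEq, Subtype.mk.injEq] at e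
    obtain ⟨rfl, rfl⟩ := e
    obtain rfl := π.ht.fn _ _ _ _ hw hw'
    rfl
  refine h₃.trans ?_
  rw [Cardinal.mk_prod, Cardinal.mk_Iio_ordinal, Cardinal.mk_Iio_ordinal, Cardinal.lift_id,
    Cardinal.lift_id]
  exact Cardinal.mul_le_of_le (Cardinal.aleph0_le_lift.2 h₀) (Cardinal.lift_le.2 h₁)
    (Cardinal.lift_le.2 h₂)

theorem card_low (hy : C.Lev y) : Cardinal.mk (C.Low y) ≤ lift.{2} (C.B y) := by
  have h₀ : ℵ₀ ≤ lift.{2} (C.B y) := Cardinal.aleph0_le_lift.2 (C.bf.aleph0_le y)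
  have hR : Cardinal.mk {r | C.InR r} ≤ lift.{2} (C.B y) :=
    C.card_inR.trans (Cardinal.lift_le.2
      ((C.bf.card_le _).trans (C.bf.mono (pred_lev_le hy))))
  rcases hy.2 with rfl | ⟨-, z, rfl⟩
  · refine le_trans (Cardinal.mk_le_of_injective
      (f := fun w : C.Low C.kap => (⟨w.1.r, w.1.hr⟩ : {r | C.InR r})) ?_) hR
    have he : ∀ w : C.Low C.kap, w.1.t = ∅ := fun w => eq_empty_of_forall_notMem fun u hu =>
      absurd (w.2 u hu) (not_lt.2 (w.1.ht.rng _ _ _ hu).1)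
    intro w w' e
    exact Subtype.ext (Po.ext (congrArg Subtype.val e) ((he w).trans (he w').symm))
  · let b := (C.B (z + 1)).ord
    let S : Set (Od × Od × Od) := Iio b ×ˢ Iio b ×ˢ Iio b
    have hS : Cardinal.mk S = lift.{2} (C.B (z + 1)) := by
      simp only [S, Cardinal.mk_setProd, Cardinal.mk_Iio_ordinal, b, card_ord]
      rw [Cardinal.mul_eq_self h₀, Cardinal.mul_eq_self h₀]
    have hsub : ∀ w : C.Low (z + 1), w.1.t ⊆ S := by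
      rintro w ⟨a, i, c⟩ hu
      have h₁ : a < z + 1 := w.2 _ hu
      have h₂ : (C.B (a + 1)).ord ≤ b := rf_ord_mono (Order.add_one_le_iff.2 h₁)
      obtain ⟨j, hj, H⟩ := w.1.ht.dom a
      exact ⟨h₁.trans_le (C.bf.le_ord _), ((H _ _ hu).trans hj).trans_le
        ((ord_le_ord.2 (C.bf.succ_le (lt_add_one a))).trans h₂),
        (w.1.ht.rng _ _ _ hu).2.trans_le h₂⟩
    have hT : Cardinal.mk {t : Set (Od × Od × Od) // t ⊆ S ∧ Cardinal.mk t ≤ lift.{2} (C.B z)} ≤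
        lift.{2} (C.B (z + 1)) := by
      refine (Cardinal.mk_bounded_subset_le S _).trans ?_
      rw [hS, max_eq_left h₀, ← Cardinal.lift_power, C.bf.pow_eq]
    refine le_trans (Cardinal.mk_le_of_injective (f := fun w : C.Low (z + 1) =>
      ((⟨w.1.r, w.1.hr⟩ : {r | C.InR r}), (⟨w.1.t, hsub w, pred_card_t w.2⟩ :
        {t : Set (Od × Od × Od) // t ⊆ S ∧ Cardinal.mk t ≤ lift.{2} (C.B z)}))) ?_) ?_
    · intro w w' e
      simp only [Prod.mk.injEq, Subtype.mk.injEq] at e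
      exact Subtype.ext (Po.ext e.1 e.2)
    · rw [Cardinal.mk_prod, Cardinal.lift_id, Cardinal.lift_id]
      exact Cardinal.mul_le_of_le h₀ hR hT

theorem pred_lev_succ (h : C.kap ≤ x) (h' : x < C.th.ord) : C.Lev (x + 1) :=
  ⟨C.th_inac.isSuccLimit.add_one_lt h', Or.inr ⟨h.trans_lt (lt_add_one x), x, rfl⟩⟩

theorem pred_lev_kap (C : Ctx) : C.Lev C.kap := ⟨C.k_lt, Or.inl rfl⟩

theorem exists_lev {k : Cardinal.{1}} (hk : k < C.th) (ha : x < C.th.ord) :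
    ∃ y, C.Lev y ∧ k ≤ C.B y ∧ x < y := by
  refine ⟨max (max x C.kap) k.ord + 1, pred_lev_succ ((le_max_right _ _).trans (le_max_left _ _))
    (max_lt (max_lt ha C.k_lt) (ord_lt_ord.2 hk)), ?_,
    ((le_max_left _ _).trans (le_max_left _ _)).trans_lt (lt_add_one _)⟩
  rw [← ord_le_ord]
  exact ((le_max_right _ _).trans (lt_add_one _).le).trans (C.bf.le_ord _)

theorem pred_B_lt (hy : y < C.th.ord) : C.B y < C.th := ord_lt_ord.1 (C.bf.lt_inac C.th_inac hy)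

theorem sm_low (hy : C.Lev y) : Sm C.Po (C.Low y) :=
  ⟨(card_low hy).trans_lt (Cardinal.lift_lt.2 (pred_B_lt hy.1))⟩

/-- The upper part is closed. -/
theorem tv_chain (hy : C.kap ≤ y) (hy' : y < C.th.ord) (hν : ν.card ≤ C.B y) (f : Od → Tri)
    (hf : ∀ i < ν, C.TV (f i)) (hm : ∀ i j, i ≤ j → j < ν → f i ⊆ f j ∧
      ∀ z ∈ f j, z.1 < y → z ∈ f i) : C.TV {z | ∃ i < ν, z ∈ f i} := by
  have _ := hy
  refine ⟨?_, ?_, fun x => ?_, ?_⟩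
  · rintro x i c ⟨a, ha, h⟩
    exact (hf a ha).rng x i c h
  · rintro x i c c' ⟨a, ha, h⟩ ⟨b, hb, h'⟩
    rcases le_total a b with e | e
    · exact (hf b hb).fn x i c c' ((hm a b e hb).1 h) h'
    · exact (hf a ha).fn x i c c' h ((hm b a e ha).1 h')
  · rcases lt_or_ge x y with hx | hx
    · rcases eq_or_ne ν 0 with rfl | h0
      · exact ⟨0, (C.pred_lim x).pos, fun i c ⟨a, ha, _⟩ => absurd ha (by simp)⟩
      · obtain ⟨j, hj, H⟩ := (hf 0 (pos_iff_ne_zero.2 h0)).dom x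
        exact ⟨j, hj, fun i c ⟨a, ha, h⟩ => H i c ((hm 0 a zero_le ha).2 _ h hx)⟩
    · have H : ∀ a, ∃ j < (Order.succ (C.B x)).ord, a < ν → ∀ i c, (x, i, c) ∈ f a → i < j := by
        intro a
        by_cases ha : a < ν
        · obtain ⟨j, hj, H⟩ := (hf a ha).dom x
          exact ⟨j, hj, fun _ => H⟩
        · exact ⟨0, (C.pred_lim x).pos, fun h => absurd h ha⟩
      choose j hj hj' using H
      obtain ⟨J, hJ, H⟩ := bound_of_lt_cof (C.pred_lim x)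
        ((hν.trans (C.bf.mono hx)).trans_lt (rf_succ_cof (C.bf.aleph0_le x))) j fun i _ => hj i
      exact ⟨J, hJ, fun i c ⟨a, ha, h⟩ => (hj' a ha i c h).trans (H a ha)⟩
  · have H : ∀ a, ∃ j < C.th.ord, a < ν → ∀ x i c, (x, i, c) ∈ f a → x < j := by
      intro a
      by_cases ha : a < ν
      · obtain ⟨j, hj, H⟩ := (hf a ha).supp
        exact ⟨j, hj, fun _ => H⟩
      · exact ⟨0, C.th_inac.isSuccLimit.pos, fun h => absurd h ha⟩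
    choose j hj hj' using H
    obtain ⟨J, hJ, H⟩ := C.th_inac.bound (lt_ord.2 (hν.trans_lt (pred_B_lt hy'))) j
      fun i _ => hj i
    exact ⟨J, hJ, fun x i c ⟨a, ha, h⟩ => (hj' a ha x i c h).trans (H a ha)⟩

/-- Extension of the upper part only. -/
def PredR (y : Od) (σ' σ : C.Po) : Prop :=
  σ'.r = σ.r ∧ σ.t ⊆ σ'.t ∧ ∀ z ∈ σ'.t, z.1 < y → z ∈ σ.t

theorem predR_refl (y : Od) (σ : C.Po) : PredR y σ σ := ⟨rfl, subset_rfl, fun _ h _ => h⟩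

theorem predR_trans {a b c : C.Po} (h : PredR y a b) (h' : PredR y b c) : PredR y a c :=
  ⟨h.1.trans h'.1, h'.2.1.trans h.2.1, fun z hz hy => h'.2.2 z (h.2.2 z hz hy) hy⟩

theorem predR_le (h : PredR y σ π) : σ ≤ π := le_of_sub (h.1 ▸ pred_refl σ) h.2.1

theorem predR_lb (hy : C.Lev y) (hν : ν.card ≤ C.B y) (f : Od → C.Po)
    (hf : ∀ i < ν, PredR y (f i) π) (hm : ∀ i j, i ≤ j → j < ν → PredR y (f j) (f i)) :
    ∃ u, ∀ i < ν, PredR y u (f i) := by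
  refine ⟨⟨π.r, _, π.hr, tv_chain (pred_lev_le hy) hy.1 hν (fun i => (f i).t)
    (fun i _ => (f i).ht) fun i j h₁ h₂ => (hm i j h₁ h₂).2⟩, fun i hi =>
      ⟨(hf i hi).1.symm, fun z hz => ⟨i, hi, hz⟩, ?_⟩⟩
  rintro z ⟨j, hj, hz⟩ hzy
  exact (hf i hi).2.1 ((hf j hj).2.2 z hz hzy)

theorem pred_fill (h : ρ ≤ σ) (y : Od) : ∃ σ', PredR y σ' σ ∧ glue y ρ σ' ≤ ρ := by
  have ht : C.TV (σ.t ∪ {z | z ∈ ρ.t ∧ y ≤ z.1 ∧ ∀ c, (z.1, z.2.1, c) ∉ σ.t}) := by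
    refine ⟨fun x i c hz => hz.elim (σ.ht.rng x i c) fun hz => ρ.ht.rng x i c hz.1, ?_,
      fun x => ?_, ?_⟩
    · rintro x i c c' (h₁ | h₁) (h₂ | h₂)
      · exact σ.ht.fn x i c c' h₁ h₂
      · exact absurd h₁ (h₂.2.2 c)
      · exact absurd h₂ (h₁.2.2 c')
      · exact ρ.ht.fn x i c c' h₁.1 h₂.1
    · obtain ⟨j, hj, H⟩ := σ.ht.dom x
      obtain ⟨j', hj', H'⟩ := ρ.ht.dom x
      exact ⟨max j j', max_lt hj hj', fun i c hz => hz.elim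
        (fun hz => lt_max_of_lt_left (H i c hz)) fun hz => lt_max_of_lt_right (H' i c hz.1)⟩
    · obtain ⟨j, hj, H⟩ := σ.ht.supp
      obtain ⟨j', hj', H'⟩ := ρ.ht.supp
      exact ⟨max j j', max_lt hj hj', fun x i c hz => hz.elim
        (fun hz => lt_max_of_lt_left (H x i c hz)) fun hz => lt_max_of_lt_right (H' x i c hz.1)⟩
  refine ⟨⟨σ.r, _, σ.hr, ht⟩, ⟨rfl, subset_union_left, ?_⟩, pred_refl ρ, fun x i c hz => ?_⟩
  · rintro z (hz | hz) hzy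
    · exact hz
    · exact absurd hzy (not_lt.2 hz.2.1)
  · rcases lt_or_ge x y with hx | hx
    · exact ⟨c, Or.inl ⟨hz, hx⟩, eqv_refl ρ.hr _⟩
    · by_cases e : ∃ c₀, (x, i, c₀) ∈ σ.t
      · obtain ⟨c₀, h₀⟩ := e
        obtain ⟨c', h₁, h₂⟩ := h.2 x i c₀ h₀
        obtain rfl := ρ.ht.fn x i c c' hz h₁
        exact ⟨c₀, Or.inr ⟨Or.inl h₀, hx⟩, eqv_symm h₂⟩
      · exact ⟨c, Or.inr ⟨Or.inr ⟨hz, hx, fun c₀ h₀ => e ⟨c₀, h₀⟩⟩, hx⟩, eqv_refl ρ.hr _⟩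

theorem pred_enum (hy : C.Lev y) (hν : ν.card ≤ C.B y) : ∃ e : Od → Od × C.Po,
    ∀ i < ν, ∀ s ∈ C.Low y, ∃ k < (C.B y).ord, e k = (i, s) := by
  have : Nonempty (Od × C.Po) := ⟨(0, ⊤)⟩
  obtain ⟨e, he⟩ := exists_enum_of_le (S := Iio ν ×ˢ C.Low y) (c := C.B y) (by
    rw [Cardinal.mk_setProd, Cardinal.mk_Iio_ordinal]
    exact Cardinal.mul_le_of_le (Cardinal.aleph0_le_lift.2 (C.bf.aleph0_le y))
      (Cardinal.lift_le.2 hν) (card_low hy))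
  exact ⟨e, fun i hi s hs => he (i, s) ⟨hi, hs⟩⟩

/-- Reduction of open sets to the part below a level. -/
theorem redx (hy : C.Lev y) (hν : ν.card ≤ C.B y) (D : Od → C.Po → Prop)
    (hD : ∀ i p q, D i p → q ≤ p → D i q) (π : C.Po) :
    ∃ σ : C.Po, σ.r = π.r ∧ π.t ⊆ σ.t ∧ (∀ z ∈ σ.t, z.1 < y → z ∈ π.t) ∧
      ∀ i < ν, ∀ ρ ≤ σ, D i ρ → D i (glue y ρ σ) := by
  obtain ⟨e, he⟩ := pred_enum hy hν
  obtain ⟨f, hf, hm⟩ := exists_chain (PredR y) π (C.B y).ord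
    (fun k s => D (e k).1 (glue y (e k).2 s) ∨ ∀ s', PredR y s' s → ¬ D (e k).1 (glue y (e k).2 s'))
    (fun s _ => predR_refl y s) (predR_refl y π) (fun _ _ _ => predR_trans)
    (fun ν' h₁ _ f h₂ h₃ => predR_lb hy (lt_ord.1 h₁).le f h₂ h₃) (fun k _ s _ => by
      by_cases h : ∃ s', PredR y s' s ∧ D (e k).1 (glue y (e k).2 s')
      · obtain ⟨s', h₁, h₂⟩ := h
        exact ⟨s', h₁, Or.inl h₂⟩
      · exact ⟨s, predR_refl y s, Or.inr fun s' h₁ h₂ => h ⟨s', h₁, h₂⟩⟩)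
  obtain ⟨σ, hσ⟩ := predR_lb hy (card_ord _).le f (fun i hi => (hf i hi).1) hm
  have h0 : (0 : Od) < (C.B y).ord := (isSuccLimit_ord (C.bf.aleph0_le y)).pos
  obtain ⟨k₁, k₂, k₃⟩ := predR_trans (hσ 0 h0) (hf 0 h0).1
  refine ⟨σ, k₁, k₂, k₃, fun i hi ρ hρ hi' => ?_⟩
  obtain ⟨k, hk, ek⟩ := he i hi _ (glue_top_mem y ρ)
  have H := (hf k hk).2
  simp only [ek, glue_glue] at H
  rcases H with H | H
  · refine hD i _ _ H (le_of_sub (pred_refl ρ) ?_)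
    rintro z (hz | hz)
    · exact Or.inl hz
    · exact Or.inr ⟨(hσ k hk).2.1 hz.1, hz.2⟩
  · obtain ⟨σ', h₁, h₂⟩ := pred_fill hρ y
    exact absurd (hD i _ _ hi' h₂) (H σ' (predR_trans h₁ (hσ k hk)))

instance : Tame C.Po where
  tame := by
    intro I hI
    obtain ⟨c, hc, e⟩ := Cardinal.lt_lift_iff.1 hI.out
    obtain ⟨y, hy, hcy, -⟩ := exists_lev (C := C) (x := 0) hc C.th_inac.isSuccLimit.pos
    refine ⟨C.Low y, sm_low hy, fun D hD hd p => ?_⟩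
    rcases isEmpty_or_nonempty I with h | h
    · exact ⟨p, le_rfl, fun i => h.elim i⟩
    obtain ⟨g, hg⟩ := exists_enum_of_le (S := (univ : Set I)) (c := c) (by
      rw [Cardinal.mk_univ, e])
    obtain ⟨σ, h₁, h₂, h₃, H⟩ := redx hy (ν := c.ord) ((card_ord c).le.trans hcy)
      (fun j => D (g j)) (fun j => hD (g j)) p
    refine ⟨σ, predR_le (y := y) ⟨h₁, h₂, h₃⟩, fun i r hr => ?_⟩
    obtain ⟨j, hj, rfl⟩ := hg i (mem_univ i)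
    obtain ⟨r', k₁, k₂⟩ := hd (g j) r
    exact ⟨_, glue_top_mem y r', _, H j hj r' (k₁.trans hr) k₂, meet_glue (k₁.trans hr) y, r', k₁,
      (le_glue (k₁.trans hr) y).1⟩

theorem pred_red (hy : C.Lev y) (hν : ν.card ≤ C.B y) {Z : Od → Od → C.Po → Prop}
    (hZ : ZF π ν τ Z) : ∃ σ ≤ π, σ.r = π.r ∧
      ∀ i < ν, ∀ r ≤ σ, ∃ ρ ≤ r, ∃ ζ < τ, Z i ζ (glue y ρ σ) := by
  obtain ⟨σ, h₁, h₂, h₃, H⟩ := redx hy hν (fun i ρ => ρ ≤ π ∧ ∃ ζ < τ, Z i ζ ρ)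
    (fun i p q ⟨k₁, ζ, k₂, k₃⟩ k => ⟨k.trans k₁, ζ, k₂, hZ.mono i ζ ζ p q k₁ k₃ k le_rfl⟩) π
  have hσ : σ ≤ π := predR_le (y := y) ⟨h₁, h₂, h₃⟩
  refine ⟨σ, hσ, h₁, fun i hi r hr => ?_⟩
  obtain ⟨ρ, k₁, k₂⟩ := hZ.dense i hi r (hr.trans hσ)
  exact ⟨ρ, k₁, (H i hi ρ (k₁.trans hr) ⟨(k₁.trans hr).trans hσ, k₂⟩).2⟩

theorem pred_glue_kap (h : C.LeT C.kap ρ.r σ.r) : glue C.kap ρ σ = setR σ ρ.r h := by
  refine Po.ext rfl (Set.ext fun z => ⟨?_, fun hz => Or.inr ⟨hz, (σ.ht.rng _ _ _ hz).1⟩⟩)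
  rintro (hz | hz)
  · exact absurd hz.2 (not_lt.2 (ρ.ht.rng _ _ _ hz.1).1)
  · exact hz.1

theorem bnd_R (hν : ν ≤ C.kap) (h : C.BndR C.kap π.r ν τ) : Bnd π ν τ := by
  intro p hp Z hZ
  obtain ⟨σ, hσ, e, H⟩ := pred_red C.pred_lev_kap ((card_le_card hν).trans (C.bf.card_le _)) hZ
  obtain ⟨q, hq, ζ, hζ, K⟩ := h σ.r (e ▸ hp.1)
    (fun i ζ r => ∃ h : C.LeT C.kap r σ.r, Z i ζ (setR σ r h))
    ⟨fun i ζ ζ' r r' _ ⟨k₁, k₂⟩ k₃ k₄ => ⟨leT_trans k₃ k₁, hZ.mono i ζ ζ' _ _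
        ((setR_le σ r k₁).trans hσ) k₂ (le_of_sub k₃ subset_rfl) k₄⟩,
      fun i ζ r hr hro => ⟨hr, hZ.reg i ζ _ ((setR_le σ r hr).trans hσ) fun r' hr' => by
        obtain ⟨r₂, k₁, k₂, k₃⟩ := hro r'.r hr'.1
        refine ⟨setR r' r₂ k₁, setR_le _ _ _, hZ.mono i ζ ζ _ _ ((setR_le σ r₂ k₂).trans hσ) k₃
          ⟨pred_refl (setR σ r₂ k₂), fun x j c hz => ?_⟩ le_rfl⟩
        obtain ⟨c', l₁, l₂⟩ := hr'.2 x j c hz
        exact ⟨c', l₁, eqv_mono l₂ k₁⟩⟩,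
      fun i hi r hr => by
        obtain ⟨ρ, k₁, ζ, k₂, k₃⟩ := H i hi _ (setR_le σ r hr)
        have k₄ : C.LeT C.kap ρ.r σ.r := leT_trans k₁.1 hr
        rw [pred_glue_kap k₄] at k₃
        exact ⟨ρ.r, k₁.1, ζ, k₂, k₄, k₃⟩⟩
  exact ⟨setR σ q hq, (setR_le σ q hq).trans hσ, ζ, hζ, fun i hi => (K i hi).2⟩

theorem pred_bnd (hy : C.Lev y) (hν : ν.card ≤ C.B y) (hτ : Order.IsSuccLimit τ)
    (hc : C.B y < τ.cof) (π : C.Po) : Bnd π ν τ := by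
  intro p _ Z hZ
  obtain ⟨σ, hσ, -, H⟩ := pred_red hy hν hZ
  obtain ⟨e, he⟩ := pred_enum hy hν
  have hg : ∀ k, ∃ ζ < τ, (∃ ζ' < τ, Z (e k).1 ζ' (glue y (e k).2 σ)) →
      Z (e k).1 ζ (glue y (e k).2 σ) := by
    intro k
    by_cases h : ∃ ζ' < τ, Z (e k).1 ζ' (glue y (e k).2 σ)
    · obtain ⟨ζ, h₁, h₂⟩ := h
      exact ⟨ζ, h₁, fun _ => h₂⟩
    · exact ⟨0, hτ.pos, fun h' => absurd h' h⟩
  choose g hg hg' using hg
  obtain ⟨b, hb, K⟩ := bound_of_lt_cof (ν := (C.B y).ord) hτ ((card_ord _).trans_lt hc) g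
    fun k _ => hg k
  refine ⟨σ, hσ, b, hb, fun i hi => hZ.reg i b σ hσ fun r hr => ?_⟩
  obtain ⟨ρ, k₁, k₂⟩ := H i hi r hr
  obtain ⟨k, hk, ek⟩ := he i hi _ (glue_top_mem y ρ)
  have k₃ := hg' k
  simp only [ek, glue_glue] at k₃
  obtain ⟨l₁, l₂⟩ := le_glue (k₁.trans hr) y
  exact ⟨ρ, k₁, hZ.mono i _ b _ ρ (l₂.trans hσ) (k₃ k₂) l₁ (K k hk).le⟩

theorem bnd_T (hx : C.kap ≤ x) (hx' : x < C.th.ord) (hν : ν < (Order.succ (C.B x)).ord)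
    (π : C.Po) : Bnd π ν (Order.succ (C.B x)).ord := by
  have h₁ : ν.card ≤ C.B x := Order.lt_succ_iff.1 (lt_ord.1 hν)
  have h₂ := rf_succ_cof (C.bf.aleph0_le x)
  rcases hx.eq_or_lt with e | hlt
  · exact pred_bnd ⟨hx', Or.inl e.symm⟩ h₁ (C.pred_lim x) h₂ π
  rcases zero_or_succ_or_isSuccLimit x with e | ⟨z, e⟩ | hl
  · exact absurd (e ▸ hlt) (by simp)
  · exact pred_bnd ⟨hx', Or.inr ⟨hlt, z, e.symm⟩⟩ h₁ (C.pred_lim x) h₂ π
  refine bnd_sing (C.bf.aleph0_le x) (C.bf.singular hl (C.noin x hlt hx')) (fun ν' hν' => ?_) h₁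
  obtain ⟨y, hy, k⟩ := C.bf.lt_limit hl hν'
  have k₁ : max y C.kap < x := max_lt hy hlt
  refine pred_bnd (pred_lev_succ (le_max_right y _) (k₁.trans hx')) ((lt_ord.1 k).le.trans
    (C.bf.mono ((le_max_left _ _).trans (lt_add_one _).le))) (C.pred_lim x)
    ((C.bf.mono (hl.add_one_lt k₁).le).trans_lt h₂) π

theorem fr_R {Φ : Raw → Od → Od → Prop}
    (h : ∀ r r' a b, C.InR r → Φ r a b → C.LeT C.kap r' r → Φ r' a b) :
    FR (fun (ρ : C.Po) a b => Φ ρ.r a b) :=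
  ⟨fun p q a b k₁ k₂ => h p.r q.r a b p.hr k₁ k₂.1, fun _ _ => ⟨C.Low C.kap, sm_low C.pred_lev_kap,
    fun p _ _ _ _ k => ⟨_, glue_top_mem C.kap p, (le_glue le_top _).1, k⟩⟩⟩

theorem fr_sg (hx : C.kap ≤ x) (hx' : x < C.th.ord) :
    FR (fun (ρ : C.Po) i v => v < (C.B (x + 1)).ord ∧ Sg ρ x i v) := by
  refine ⟨fun p q a b ⟨k₁, c, k₂, k₃⟩ k => ?_, fun _ _ => ⟨C.Low (x + 1),
    sm_low (pred_lev_succ hx hx'), fun p _ _ _ _ ⟨k₁, c, k₂, k₃⟩ =>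
      ⟨_, glue_top_mem (x + 1) p, (le_glue le_top _).1, k₁, c, Or.inl ⟨k₂, lt_add_one x⟩, k₃⟩⟩⟩
  obtain ⟨c', l₁, l₂⟩ := k.2 x a c k₂
  exact ⟨k₁, c', l₁, eqv_trans (eqv_mono k₃ k.1) l₂⟩

theorem sg_fn {i v v' : Od} (h : Sg ρ x i v) (h' : Sg ρ x i v') : v = v' := by
  obtain ⟨c, h₁, h₂⟩ := h
  obtain ⟨c', h₃, h₄⟩ := h'
  obtain rfl := ρ.ht.fn x i c c' h₁ h₃
  obtain ⟨r', -, r₀, k, -⟩ :=
    (eqv_trans h₂ (eqv_symm h₄) ρ.r (pred_refl ρ) v).1 ⟨C.p0, rfl, ρ.hr⟩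
  exact congrArg Prod.snd k

theorem sg_dense (hx : C.kap ≤ x) (hx' : x < C.th.ord) {v : Od} (hv : v < (C.B (x + 1)).ord)
    (π : C.Po) : ∃ ρ ≤ π, ∃ i < (Order.succ (C.B x)).ord, Sg ρ x i v := by
  obtain ⟨c, hc, e⟩ := C.nm_surj x hx {(C.p0, v)} (by
      rintro r w h
      obtain ⟨rfl, rfl⟩ := Prod.mk.inj h
      exact ⟨pred_bdd C.inR_p0, hv⟩) (by
      rw [Cardinal.mk_singleton, Cardinal.one_le_lift_iff, Ordinal.one_le_card,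
        Order.one_le_iff_pos]
      exact C.kin.isSuccLimit.pos)
  obtain ⟨j, hj, H⟩ := π.ht.dom x
  have ht : C.TV (insert (x, j, c) π.t) := by
    refine ⟨?_, ?_, fun x' => ?_, ?_⟩
    · rintro x' i c' (h | h)
      · cases h
        exact ⟨hx, hc⟩
      · exact π.ht.rng _ _ _ h
    · rintro x' i c' c'' (h | h) (h' | h')
      · cases h
        cases h'
        rfl
      · cases h
        exact absurd (H _ _ h') (lt_irrefl _)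
      · cases h'
        exact absurd (H _ _ h) (lt_irrefl _)
      · exact π.ht.fn _ _ _ _ h h'
    · by_cases e' : x' = x
      · subst e'
        refine ⟨j + 1, (C.pred_lim _).add_one_lt hj, ?_⟩
        rintro i c' (h | h)
        · cases h
          exact lt_add_one _
        · exact (H _ _ h).trans (lt_add_one _)
      · obtain ⟨j', hj', H'⟩ := π.ht.dom x'
        refine ⟨j', hj', ?_⟩
        rintro i c' (h | h)
        · cases h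
          exact absurd rfl e'
        · exact H' _ _ h
    · obtain ⟨y, hy, H'⟩ := π.ht.supp
      refine ⟨max y (x + 1), max_lt hy (C.th_inac.isSuccLimit.add_one_lt hx'), ?_⟩
      rintro x' i c' (h | h)
      · cases h
        exact lt_max_of_lt_right (lt_add_one _)
      · exact lt_max_of_lt_left (H' _ _ _ h)
  exact ⟨⟨π.r, _, π.hr, ht⟩, le_of_sub (pred_refl π) (subset_insert _ _), j, hj, c,
    mem_insert _ _, e ▸ eqv_refl π.hr _⟩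

end Ctx

end Pool.Agent.MP_85ce7b_lc
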