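import Pool.Agent.MP_85ce7b_lc.L.RB0

namespace Pool.Agent.MP_85ce7b_lc

open Set Cardinal Ordinal Dat

theorem Dle.refl (p : Raw) : Dle p p := by
  exact ⟨subset_rfl, fun _ hx hn => absurd hx hn, fun _ => subset_rfl, fun _ _ h => h,
    fun _ L h => ⟨L, h, subset_rfl, fun _ _ => subset_rfl, rfl⟩⟩

theorem Dle.trans {r q p : Raw} (h₁ : Dle r q) (h₂ : Dle q p) : Dle r p := by
  refine ⟨h₂.c.trans h₁.c, fun x hx hn y hy => ?_, fun x => (h₂.h x).trans (h₁.h x),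
    fun x hx h => h₁.l0 x (h₂.c hx) (h₂.l0 x hx h), fun x L h => ?_⟩
  · by_cases hq : x ∈ q.c
    · exact h₂.new x hq hn y hy
    · exact h₁.new x hx hq y (h₂.c hy)
  · obtain ⟨L', e', a', f', s'⟩ := h₂.l1 x L h
    obtain ⟨L'', e'', a'', f'', s''⟩ := h₁.l1 x L' e'
    exact ⟨L'', e'', a''.trans a', fun ξ hξ => (f' ξ (a'' hξ)).trans (f'' ξ hξ), s''.trans s'⟩

theorem Dle.sAt_eq {q p : Raw} (h : Dle q p) {x : Od} (hx : x ∈ p.c) : sAt x q = sAt x p := by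
  unfold sAt
  rcases e : p.l x with _ | L
  · rw [h.l0 x hx e]
  · obtain ⟨L', e', -, -, s'⟩ := h.l1 x L e
    rw [e', Option.map_some, Option.map_some, s']

theorem Agree.refl (t : Od) (p : Raw) : Agree t p p := by
  exact ⟨fun _ _ => ⟨Iff.rfl, rfl⟩, fun _ _ => rfl⟩

theorem Agree.symm {t : Od} {q p : Raw} (h : Agree t q p) : Agree t p q := by
  exact ⟨fun x hx => ⟨(h.1 x hx).1.symm, (h.1 x hx).2.symm⟩, fun x hx => (h.2 x hx).symm⟩

theorem Agree.trans {t : Od} {r q p : Raw} (h₁ : Agree t r q) (h₂ : Agree t q p) :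
    Agree t r p := by
  exact ⟨fun x hx => ⟨(h₁.1 x hx).1.trans (h₂.1 x hx).1, (h₁.1 x hx).2.trans (h₂.1 x hx).2⟩,
    fun x hx => (h₁.2 x hx).trans (h₂.2 x hx)⟩

theorem Agree.mono {t t' : Od} {q p : Raw} (h : Agree t q p) (ht : t ≤ t') : Agree t' q p := by
  exact ⟨fun x hx => h.1 x (ht.trans hx), fun x hx => h.2 x (lt_of_le_of_lt ht hx)⟩

theorem rb1_agree (β : Od) (q u : Raw) : Agree β (mix β q u) u := by
  refine ⟨fun x hx => ⟨?_, ?_⟩, fun x hx => ?_⟩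
  · simp only [mix, mem_ofPred_eq, if_neg (not_lt.2 hx)]
  · simp only [mix, if_neg (not_lt.2 hx)]
  · simp only [mix, if_neg (not_le.2 hx)]

theorem rb1_agLo (β : Od) (q u : Raw) : AgLo β (mix β q u) q := by
  refine ⟨fun x hx => ⟨?_, ?_, ?_⟩, ?_⟩
  · simp only [mix, mem_ofPred_eq, if_pos hx]
  · simp only [mix, if_pos hx]
  · simp only [mix, if_pos hx.le]
  · simp only [mix, if_pos (le_refl β)]

theorem rb1_eq {β : Od} {q p : Raw} (h₁ : AgLo β q p) (h₂ : Agree β q p) : q = p := by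
  refine Raw.ext (Set.ext fun x => ?_) (funext fun x => ?_) (funext fun x => ?_)
  · rcases lt_or_ge x β with h | h
    · exact (h₁.1 x h).1
    · exact (h₂.1 x h).1
  · rcases lt_or_ge x β with h | h
    · exact (h₁.1 x h).2.1
    · exact (h₂.1 x h).2
  · rcases lt_trichotomy x β with h | h | h
    · exact (h₁.1 x h).2.2
    · rw [h]
      exact h₁.2
    · exact h₂.2 x h

theorem rb1_agLo_trans {β : Od} {r q p : Raw} (h₁ : AgLo β r q) (h₂ : AgLo β q p) :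
    AgLo β r p :=
  ⟨fun x hx => ⟨(h₁.1 x hx).1.trans (h₂.1 x hx).1, (h₁.1 x hx).2.1.trans (h₂.1 x hx).2.1,
    (h₁.1 x hx).2.2.trans (h₂.1 x hx).2.2⟩, h₁.2.trans h₂.2⟩

theorem rb1_agLo_symm {β : Od} {q p : Raw} (h : AgLo β q p) : AgLo β p q :=
  ⟨fun x hx => ⟨(h.1 x hx).1.symm, (h.1 x hx).2.1.symm, (h.1 x hx).2.2.symm⟩, h.2.symm⟩

theorem rb1_ext (β : Od) {q u w : Raw} (h₁ : AgLo β q w) (h₂ : Agree β u w) : mix β q u = w :=
  rb1_eq (rb1_agLo_trans (rb1_agLo β q u) h₁) ((rb1_agree β q u).trans h₂)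

theorem rb1_congr {β : Od} {q q' u u' : Raw} (h₁ : AgLo β q q') (h₂ : Agree β u u') :
    mix β q u = mix β q' u' :=
  rb1_ext β (rb1_agLo_trans h₁ (rb1_agLo_symm (rb1_agLo β q' u')))
    (h₂.trans (rb1_agree β q' u').symm)

theorem mix_self (β : Od) (q : Raw) : mix β q q = q := by
  exact rb1_ext β ⟨fun x hx => ⟨Iff.rfl, rfl, rfl⟩, rfl⟩ ⟨fun _ _ => ⟨Iff.rfl, rfl⟩, fun _ _ => rfl⟩

theorem mix_mix_left (β : Od) (q u w : Raw) : mix β (mix β q u) w = mix β q w := by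
  exact rb1_congr (rb1_agLo β q u) (Agree.refl β w)

theorem mix_mix_right (β : Od) (q u w : Raw) : mix β q (mix β u w) = mix β q w := by
  exact rb1_congr ⟨fun x hx => ⟨Iff.rfl, rfl, rfl⟩, rfl⟩ (rb1_agree β u w)

theorem agree_mix (β : Od) (q u : Raw) : Agree β (mix β q u) u := by
  exact rb1_agree β q u

theorem agLo_mix (β : Od) (q u : Raw) : AgLo β (mix β q u) q := by
  exact rb1_agLo β q u

theorem mix_eq_left {β : Od} {q u : Raw} (h : Agree β q u) : mix β q u = q := by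
  exact rb1_ext β ⟨fun x hx => ⟨Iff.rfl, rfl, rfl⟩, rfl⟩ h.symm

theorem mix_eq_right {β : Od} {q u : Raw} (h : AgLo β q u) : mix β q u = u := by
  exact rb1_ext β h (Agree.refl β u)

theorem mix_congr {β : Od} {q q' u u' : Raw} (h₁ : AgLo β q q') (h₂ : Agree β u u') :
    mix β q u = mix β q' u' := by
  exact rb1_congr h₁ h₂

theorem eq_of_agLo_agree {β : Od} {q p : Raw} (h₁ : AgLo β q p) (h₂ : Agree β q p) : q = p := by
  exact rb1_eq h₁ h₂

namespace Ctx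

variable {C : Ctx} {p q r u w b : Raw} {t β δ μ x y : Od}

theorem sp_inac (h : μ ∈ C.Sp) : Inac μ := (C.good μ h).inac

theorem valid_max (h : C.Valid p) : ∃ m ∈ p.c, ∀ x ∈ p.c, x ≤ m := by
  by_cases hm : sSup p.c ∈ p.c
  · exact ⟨_, hm, fun x hx => le_csSup h.bd hx⟩
  · exfalso
    have hlt : ∀ z ∈ p.c, z < sSup p.c := fun z hz =>
      lt_of_le_of_ne (le_csSup h.bd hz) (fun e => hm (e ▸ hz))
    obtain ⟨z0, hz0⟩ := h.ne
    refine hm (h.cl _ ⟨lt_of_le_of_lt zero_le (hlt z0 hz0), fun y hy => ?_⟩)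
    obtain ⟨z, hz, hyz⟩ := exists_lt_of_lt_csSup ⟨z0, hz0⟩ hy
    exact ⟨z, hz, hyz, hlt z hz⟩

/-- The last point below a given ordinal that is not a limit point. -/
theorem valid_max_below (h : C.Valid p) (hn : ¬ LimP p.c x) (hy : ∃ y ∈ p.c, y < x) :
    ∃ m ∈ p.c, m < x ∧ ∀ z ∈ p.c, z < x → z ≤ m := by
  obtain ⟨z0, hz0, hz0x⟩ := hy
  have hne : (p.c ∩ Iio x).Nonempty := ⟨z0, hz0, hz0x⟩
  have hbd : BddAbove (p.c ∩ Iio x) := ⟨x, fun z hz => le_of_lt hz.2⟩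
  by_cases hm : sSup (p.c ∩ Iio x) ∈ p.c ∩ Iio x
  · exact ⟨_, hm.1, hm.2, fun z hz hzx => le_csSup hbd ⟨hz, hzx⟩⟩
  · exfalso
    have hlt : ∀ z ∈ p.c ∩ Iio x, z < sSup (p.c ∩ Iio x) := fun z hz =>
      lt_of_le_of_ne (le_csSup hbd hz) (fun e => hm (e ▸ hz))
    have hl : LimP p.c (sSup (p.c ∩ Iio x)) := by
      refine ⟨lt_of_le_of_lt zero_le (hlt z0 ⟨hz0, hz0x⟩), fun y hy => ?_⟩
      obtain ⟨z, hz, hyz⟩ := exists_lt_of_lt_csSup hne hy
      exact ⟨z, hz.1, hyz, hlt z hz⟩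
    have hle : sSup (p.c ∩ Iio x) ≤ x := csSup_le hne fun z hz => le_of_lt hz.2
    rcases hle.lt_or_eq with h1 | h1
    · exact hm ⟨h.cl _ hl, h1⟩
    · exact hn (h1 ▸ hl)

theorem spec_mem (h : C.Valid p) (hμ : Spec p μ) : μ ∈ p.c := by
  obtain ⟨L, hL⟩ := hμ
  by_contra hn
  rw [h.l0 μ hn] at hL
  exact absurd hL (by simp)

theorem spec_inac (h : C.Valid p) (hμ : Spec p μ) : Inac μ ∧ C.s + 1 < μ ∧ μ ∈ C.Sp := by
  obtain ⟨L, hL⟩ := hμ
  have hv := h.sp μ L hL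
  exact ⟨sp_inac hv.sp, hv.gt, hv.sp⟩

theorem spec_max_below (h : C.Valid p) (hμ : Spec p μ) :
    ∃ m ∈ p.c, m < μ ∧ ∀ z ∈ p.c, z < μ → z ≤ m := by
  obtain ⟨L, hL⟩ := hμ
  refine valid_max_below h (fun hl => ?_) (h.sp μ L hL).pre
  rw [h.lim μ hl] at hL
  exact absurd hL (by simp)

theorem l_none_of_not_inac (h : C.Valid p) (hx : ¬ Inac x) : p.l x = none := by
  rcases e : p.l x with _ | L
  · rfl
  · exact absurd (spec_inac h ⟨L, e⟩).1 hx

theorem fp_mem (h : C.Valid p) : fp p ∈ p.c ∧ (∀ x ∈ p.c, fp p ≤ x) ∧ p.l (fp p) = none := by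
  have h1 : ∀ x ∈ p.c, fp p ≤ x := fun x hx => csInf_le' hx
  refine ⟨csInf_mem h.ne, h1, ?_⟩
  rcases e : p.l (fp p) with _ | L
  · rfl
  · obtain ⟨y, hy, hlt⟩ := (h.sp _ L e).pre
    exact absurd (h1 y hy) (not_le.2 hlt)

theorem rb1_mem_of_h (h : C.Valid p) {z : Od × Od} (hz : z ∈ p.h x) : x ∈ p.c := by
  by_contra hn
  rw [h.h0 x hn] at hz
  exact hz

theorem rb1_val_bound (h : C.Valid p) (ht : Inac t) (hx : x < t)
    (hv : ∀ i v, (i, v) ∈ p.h x → v < t) : ∃ b < t, ∀ i v, (i, v) ∈ p.h x → v < b := by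
  obtain ⟨b, hb, hs⟩ := ht.bound_set (S := Prod.snd '' p.h x) (by
      rintro _ ⟨⟨i, v⟩, hz, rfl⟩
      exact hv i v hz) (by
      refine lt_of_le_of_lt Cardinal.mk_image_le (lt_of_le_of_lt (h.col x).card ?_)
      refine Cardinal.lift_lt.2 (ord_lt_ord.1 ?_)
      rw [ht.ord_card]
      exact C.bf.lt_inac ht hx)
  exact ⟨b, hb, fun i v hiv => hs ⟨(i, v), hiv, rfl⟩⟩

theorem bdd_of_below (h : C.Valid p) (ht : Inac t) (hc : p.c ⊆ Iio t) (hb : C.Below t p) :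
    Bdd t p := by
  obtain ⟨m, hm, hmax⟩ := valid_max h
  have hmt : m < t := hc hm
  obtain ⟨b1, hb1, hv⟩ := rb1_val_bound h ht hmt (fun i v hiv => by
    have h1 := hb m hmt i v hiv
    rwa [C.bf.inac_eq ht] at h1)
  have h1 : (C.B (m + 1)).ord < t := C.bf.lt_inac ht (ht.isSuccLimit.add_one_lt hmt)
  have h2 : m < Max.max b1 (C.B (m + 1)).ord :=
    lt_of_lt_of_le (lt_of_lt_of_le (lt_add_one m) (C.bf.le_ord _)) (le_max_right _ _)
  refine ⟨Max.max b1 (C.B (m + 1)).ord, max_lt hb1 h1, fun x hx => lt_of_le_of_lt (hmax x hx) h2,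
    fun x i v hiv => ?_, fun x L hL => ?_⟩
  · have hx : x ∈ p.c := rb1_mem_of_h h hiv
    have hxm := hmax x hx
    refine ⟨lt_of_le_of_lt hxm h2, ?_, ?_⟩
    · refine lt_of_lt_of_le ((h.col x).dom i v hiv) ((C.dm_le x).trans (le_trans ?_ (le_max_right _ _)))
      exact ord_le_ord.2 (C.bf.mono (add_le_add_left hxm 1))
    · rcases hxm.lt_or_eq with h3 | h3
      · refine lt_of_lt_of_le (h.bel m hm x h3 i v hiv) (le_trans ?_ (le_max_right _ _))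
        exact ord_le_ord.2 (C.bf.mono (lt_add_one m).le)
      · subst h3
        exact lt_of_lt_of_le (hv i v hiv) (le_max_left _ _)
  · have hx : x ∈ p.c := spec_mem h ⟨L, hL⟩
    have hxb : x < Max.max b1 (C.B (m + 1)).ord := lt_of_le_of_lt (hmax x hx) h2
    have hl := h.sp x L hL
    refine ⟨hxb, fun z hz => lt_trans (hl.Alt hz) hxb, fun z hz => ?_, fun z hz => ?_⟩
    · obtain ⟨a1, a2, a3⟩ := hl.Fb hz
      exact ⟨a1.trans hxb, a2.trans hxb, a3.trans hxb⟩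
    · obtain ⟨y, -, a1, a2⟩ := hl.s z hz
      exact lt_of_le_of_lt a1 (a2.trans hxb)

theorem below_of_bdd (ht : Inac t) (h : Bdd t p) : p.c ⊆ Iio t ∧ C.Below t p := by
  obtain ⟨b, hb, h1, h2, -⟩ := h
  refine ⟨fun x hx => lt_trans (h1 hx) hb, fun x _ i v hiv => ?_⟩
  rw [C.bf.inac_eq ht]
  exact (h2 x i v hiv).2.2.trans hb

theorem bdd_mono (h : Bdd μ p) (ht : μ ≤ t) : Bdd t p := by
  obtain ⟨b, hb, h1⟩ := h
  exact ⟨b, lt_of_lt_of_le hb ht, h1⟩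

theorem scope_of_mem (h : C.Valid p) (ht : t ∈ p.c) : C.Scope t p :=
  ⟨h, h.bel t ht, Or.inl ht⟩

theorem blk_scope (h : C.Blk μ b) (hμ : Inac μ) : C.Scope μ b ∧ fp b + 1 < μ ∧ b.c ⊆ Iio μ := by
  obtain ⟨h1, h2⟩ := below_of_bdd (C := C) hμ h.bdd
  have h3 : fp b + 1 < μ := h1 h.nxt
  exact ⟨⟨h.v, h2, Or.inr ⟨hμ, h.gt.trans ((lt_add_one _).trans h3), h1⟩⟩, h3, h1⟩

theorem blk_good (h : C.Blk μ b) : Good b (fp b + 1) := by
  refine ⟨h.nxt, l_none_of_not_inac h.v fun hi => ?_, fp b, rfl⟩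
  exact lt_irrefl _ (hi.isSuccLimit.add_one_lt (lt_add_one (fp b)))

theorem rb1_LV_mono {c c' : Set Od} {L : Lo} (h : C.LV c μ L) (hc : c ⊆ c') : C.LV c' μ L := by
  obtain ⟨y, hy, hlt⟩ := h.pre
  refine ⟨h.sp, h.gt, ⟨y, hc hy, hlt⟩, h.A, h.Alt, h.Fb, h.F, h.fin, fun z hz => ?_⟩
  obtain ⟨y, hy, h1⟩ := h.s z hz
  exact ⟨y, hc hy, h1⟩

theorem rb1_h_fp {f : Set (Od × Od)} (h : p.h (fp b) = ∅) : (ins p μ b f).h (fp b) = f := by
  simp only [ins, setL, cat, setH, Function.update_self, h, empty_union]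

theorem rb1_h_b {f : Set (Od × Od)} (h : p.h x = ∅) (hx : x ≠ fp b) :
    (ins p μ b f).h x = b.h x := by
  simp only [ins, setL, cat, setH, Function.update_of_ne hx, h, empty_union]

theorem rb1_h_nb {f : Set (Od × Od)} (h : C.Valid b) (hx : x ∉ b.c) :
    (ins p μ b f).h x = p.h x := by
  have h1 : x ≠ fp b := fun e => hx (e ▸ (fp_mem h).1)
  simp only [ins, setL, cat, setH, Function.update_of_ne h1, h.h0 x hx, union_empty]

theorem rb1_l_mu {f : Set (Od × Od)} {L : Lo} (h : μ ∉ b.c) (hL : p.l μ = some L) :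
    (ins p μ b f).l μ = some ⟨L.A, L.F, insert (fp b) L.s⟩ := by
  have h1 : (cat p (setH (fp b) f b)).l μ = some L := (if_neg h).trans hL
  simp only [ins, setL, Function.update_self, h1, Option.map_some]

theorem rb1_l_b {f : Set (Od × Od)} (h : x ∈ b.c) (hx : x ≠ μ) :
    (ins p μ b f).l x = b.l x := by
  have h1 : (cat p (setH (fp b) f b)).l x = b.l x := if_pos h
  simp only [ins, setL, Function.update_of_ne hx, h1]

theorem rb1_l_nb {f : Set (Od × Od)} (h : x ∉ b.c) (hx : x ≠ μ) :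
    (ins p μ b f).l x = p.l x := by
  have h1 : (cat p (setH (fp b) f b)).l x = p.l x := if_neg h
  simp only [ins, setL, Function.update_of_ne hx, h1]

theorem rb1_limP (hp : C.Valid p) (hμ : Spec p μ) (hb : C.Insb p μ b)
    (hx : LimP (p.c ∪ b.c) x) :
    (LimP p.c x ∧ (x < fp b ∨ μ < x)) ∨ (LimP b.c x ∧ fp b < x ∧ x < μ) := by
  have hin := (spec_inac hp hμ).1
  obtain ⟨-, -, hsub⟩ := blk_scope hb.blk hin
  obtain ⟨hfm, hfle, -⟩ := fp_mem hb.blk.v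
  have hfμ : fp b < μ := hsub hfm
  rcases le_or_gt x (fp b) with h1 | h1
  · have hl : LimP p.c x := by
      refine ⟨hx.1, fun y hy => ?_⟩
      obtain ⟨z, hz, h2, h3⟩ := hx.2 y hy
      rcases hz with hz | hz
      · exact ⟨z, hz, h2, h3⟩
      · exact absurd (hfle z hz) (not_le.2 (lt_of_lt_of_le h3 h1))
    exact Or.inl ⟨hl, Or.inl (hb.lt x (hp.cl x hl) (lt_of_le_of_lt h1 hfμ))⟩
  · rcases le_or_gt x μ with h4 | h4
    · have hl : LimP b.c x := by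
        refine ⟨hx.1, fun y hy => ?_⟩
        obtain ⟨z, hz, h2, h3⟩ := hx.2 (Max.max y (fp b)) (max_lt hy h1)
        rcases hz with hz | hz
        · exact absurd (hb.lt z hz (lt_of_lt_of_le h3 h4))
            (not_lt.2 (lt_of_le_of_lt (le_max_right _ _) h2).le)
        · exact ⟨z, hz, lt_of_le_of_lt (le_max_left _ _) h2, h3⟩
      exact Or.inr ⟨hl, h1, hsub (hb.blk.v.cl x hl)⟩
    · refine Or.inl ⟨⟨hx.1, fun y hy => ?_⟩, Or.inr h4⟩
      obtain ⟨z, hz, h2, h3⟩ := hx.2 (Max.max y μ) (max_lt hy h4)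
      rcases hz with hz | hz
      · exact ⟨z, hz, lt_of_le_of_lt (le_max_left _ _) h2, h3⟩
      · exact absurd (show z < μ from hsub hz) (not_lt.2 (lt_of_le_of_lt (le_max_right _ _) h2).le)

theorem ins_valid {f : Set (Od × Od)} (hp : C.Valid p) (hμ : Spec p μ) (hb : C.Insb p μ b)
    (hf : C.Col (fp b) f) (hv : ∀ i v, (i, v) ∈ f → v < (C.B (fp b + 1)).ord) :
    C.Valid (ins p μ b f) := by
  obtain ⟨L, hL⟩ := hμ
  have hμ : Spec p μ := ⟨L, hL⟩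
  have hin := (spec_inac hp hμ).1
  have hμp := spec_mem hp hμ
  obtain ⟨hsc, hf1, hsub⟩ := blk_scope hb.blk hin
  obtain ⟨hfm, hfle, -⟩ := fp_mem hb.blk.v
  have hfμ : fp b < μ := hsub hfm
  have hv' := hb.blk.v
  have hnb : ∀ z, z < fp b ∨ μ ≤ z → z ∉ b.c := by
    rintro z (hz | hz) hzb
    · exact absurd (hfle z hzb) (not_le.2 hz)
    · exact absurd hz (not_le.2 (hsub hzb))
  have hnp : ∀ z, fp b ≤ z → z < μ → z ∉ p.c := fun z h1 h2 hz =>
    absurd h1 (not_le.2 (hb.lt z hz h2))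
  have hlimp := fun x => rb1_limP hp hμ hb (x := x)
  refine ⟨hp.ne.mono subset_union_left, hp.bd.union hv'.bd, fun x hx => ?_, fun x hx => ?_,
    fun x hx => ?_, fun x => ?_, fun i v hiv => ?_, fun y hy x hxy i v hiv => ?_,
    fun x hx => ?_, fun x hx hi => ?_, fun ν L' hL' => ?_⟩
  · rcases hlimp x hx with h1 | h1
    · exact Or.inl (hp.cl x h1.1)
    · exact Or.inr (hv'.cl x h1.1)
  · have h2 : x ∉ b.c := fun h1 => hx (Or.inr h1)
    rw [rb1_h_nb hv' h2]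
    exact hp.h0 x fun h1 => hx (Or.inl h1)
  · have h2 : x ∉ b.c := fun h1 => hx (Or.inr h1)
    have h3 : x ≠ μ := fun h1 => hx (Or.inl (h1 ▸ hμp))
    rw [rb1_l_nb h2 h3]
    exact hp.l0 x fun h1 => hx (Or.inl h1)
  · by_cases h1 : x = fp b
    · subst h1
      rw [rb1_h_fp (hp.h0 _ (hnp _ le_rfl hfμ))]
      exact hf
    · by_cases h2 : x ∈ b.c
      · rw [rb1_h_b (hp.h0 _ (hnp _ (hfle x h2) (hsub h2))) h1]
        exact hv'.col x
      · rw [rb1_h_nb hv' h2]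
        exact hp.col x
  · rw [rb1_h_nb hv' (hnb _ (Or.inl ((lt_add_one _).trans hb.blk.gt)))] at hiv
    exact hp.vs i v hiv
  · by_cases h1 : x = fp b
    · subst h1
      rw [rb1_h_fp (hp.h0 _ (hnp _ le_rfl hfμ))] at hiv
      exact lt_of_lt_of_le (hv i v hiv) (ord_le_ord.2 (C.bf.mono (Order.add_one_le_of_lt hxy)))
    · by_cases h2 : x ∈ b.c
      · rw [rb1_h_b (hp.h0 _ (hnp _ (hfle x h2) (hsub h2))) h1] at hiv
        rcases hy with hy | hy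
        · have h3 : μ ≤ y := by
            by_contra h4
            exact hnp y ((hfle x h2).trans hxy.le) (not_le.1 h4) hy
          exact lt_of_lt_of_le (hsc.bel x (hsub h2) i v hiv) (ord_le_ord.2 (C.bf.mono h3))
        · exact hv'.bel y hy x hxy i v hiv
      · rw [rb1_h_nb hv' h2] at hiv
        rcases hy with hy | hy
        · exact hp.bel y hy x hxy i v hiv
        · have h3 : x < fp b := hb.lt x (rb1_mem_of_h hp hiv) (hxy.trans (hsub hy))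
          exact lt_of_lt_of_le (hb.bel x h3 i v hiv) (ord_le_ord.2 (C.bf.mono (hfle y hy)))
  · rcases hlimp x hx with h1 | h1
    · have h2 : x ≠ μ := by
        rcases h1.2 with h3 | h3
        · exact (h3.trans hfμ).ne
        · exact h3.ne'
      rw [rb1_l_nb (hnb x (h1.2.imp id le_of_lt)) h2]
      exact hp.lim x h1.1
    · rw [rb1_l_b (hv'.cl x h1.1) h1.2.2.ne]
      exact hv'.lim x h1.1
  · rcases hlimp x hx with h1 | h1
    · obtain ⟨⟨y, hy, he⟩, hs⟩ := hp.eas x h1.1 hi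
      refine ⟨?_, hs⟩
      rcases h1.2 with h3 | h3
      · refine ⟨y, hy, fun z h4 h5 => ?_⟩
        have h6 : z ∉ b.c := hnb z (Or.inl (h5.trans h3))
        rw [rb1_h_nb hv' h6, rb1_l_nb h6 (h5.trans (h3.trans hfμ)).ne]
        exact he z h4 h5
      · refine ⟨Max.max y μ, max_lt hy h3, fun z h4 h5 => ?_⟩
        have h7 : μ < z := lt_of_le_of_lt (le_max_right _ _) h4
        have h6 : z ∉ b.c := hnb z (Or.inr h7.le)
        rw [rb1_h_nb hv' h6, rb1_l_nb h6 h7.ne']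
        exact he z (lt_of_le_of_lt (le_max_left _ _) h4) h5
    · obtain ⟨⟨y, hy, he⟩, hs⟩ := hv'.eas x h1.1 hi
      refine ⟨⟨Max.max y (fp b), max_lt hy h1.2.1, fun z h4 h5 => ?_⟩, hs⟩
      have h7 : fp b < z := lt_of_le_of_lt (le_max_right _ _) h4
      have h8 : z < μ := h5.trans h1.2.2
      have h9 : z ∉ p.c := hnp z h7.le h8
      by_cases h6 : z ∈ b.c
      · rw [rb1_h_b (hp.h0 z h9) h7.ne', rb1_l_b h6 h8.ne]
        exact he z (lt_of_le_of_lt (le_max_left _ _) h4) h5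
      · rw [rb1_h_nb hv' h6, rb1_l_nb h6 h8.ne]
        exact ⟨hp.h0 z h9, hp.l0 z h9⟩
  · by_cases h1 : ν = μ
    · subst h1
      rw [rb1_l_mu (hnb _ (Or.inr le_rfl)) hL] at hL'
      obtain rfl := Option.some.inj hL'
      have hl := rb1_LV_mono (c' := p.c ∪ b.c) (hp.sp ν L hL) subset_union_left
      refine ⟨hl.sp, hl.gt, hl.pre, hl.A, hl.Alt, hl.Fb, hl.F, hl.fin.insert _, ?_⟩
      rintro z (rfl | hz)
      · exact ⟨fp b, Or.inr hfm, le_rfl, hfμ⟩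
      · exact hl.s z hz
    · by_cases h2 : ν ∈ b.c
      · rw [rb1_l_b h2 h1] at hL'
        exact rb1_LV_mono (hv'.sp ν L' hL') subset_union_right
      · rw [rb1_l_nb h2 h1] at hL'
        exact rb1_LV_mono (hp.sp ν L' hL') subset_union_left

theorem ins_valid' (hp : C.Valid p) (h : C.Ins q p μ) : C.Valid q := by
  obtain ⟨L, ξ, hL, hξ, hb, rfl⟩ := h
  obtain ⟨h1, h2⟩ := (hp.sp μ L hL).F ξ hξ
  exact ins_valid hp ⟨L, hL⟩ hb h1 h2

/-- An insertion changes the set `s` at `μ` and agrees above `μ`. -/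
theorem ins_facts (hp : C.Valid p) (h : C.Ins q p μ) :
    Spec p μ ∧ Agree μ q p ∧ sAt μ q ≠ sAt μ p ∧ (∀ x ∈ p.c, x ≠ μ → q.l x = p.l x) ∧
      (∀ x ∈ p.c, q.h x = p.h x) ∧ p.c ⊆ q.c ∧
      ∀ x ∈ q.c, x ∉ p.c → x < μ ∧ ∀ y ∈ p.c, y < μ → y < x := by
  obtain ⟨L, ξ, hL, hξ, hb, rfl⟩ := h
  have hμ : Spec p μ := ⟨L, hL⟩
  have hin := (spec_inac hp hμ).1
  obtain ⟨-, -, hsub⟩ := blk_scope hb.blk hin
  obtain ⟨hfm, hfle, -⟩ := fp_mem hb.blk.v
  have hv' := hb.blk.v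
  have hnb : ∀ z, μ ≤ z → z ∉ (C.dec ξ).c := fun z hz hzb => absurd hz (not_le.2 (hsub hzb))
  have hpb : ∀ z ∈ p.c, z ∉ (C.dec ξ).c := fun z hz hzb =>
    absurd (hfle z hzb) (not_le.2 (hb.lt z hz (hsub hzb)))
  refine ⟨hμ, ⟨fun x hx => ⟨⟨fun h1 => ?_, fun h1 => Or.inl h1⟩, rb1_h_nb hv' (hnb x hx)⟩,
    fun x hx => rb1_l_nb (hnb x hx.le) hx.ne'⟩, fun he => ?_,
    fun x hx hne => rb1_l_nb (hpb x hx) hne, fun x hx => rb1_h_nb hv' (hpb x hx),
    subset_union_left, fun x hx hn => ?_⟩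
  · rcases h1 with h1 | h1
    · exact h1
    · exact absurd h1 (hnb x hx)
  · unfold sAt at he
    rw [rb1_l_mu (hnb μ le_rfl) hL, hL, Option.map_some, Option.map_some] at he
    have h1 : insert (fp (C.dec ξ)) L.s = L.s := Option.some.inj he
    have h2 : fp (C.dec ξ) ∈ L.s := h1 ▸ mem_insert _ _
    obtain ⟨y, hy, h3, h4⟩ := (hp.sp μ L hL).s _ h2
    exact absurd h3 (not_le.2 (hb.lt y hy h4))
  · rcases hx with hx | hx
    · exact absurd hx hn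
    · exact ⟨hsub hx, fun y hy hyμ => lt_of_lt_of_le (hb.lt y hy hyμ) (hfle x hx)⟩

theorem rb1_insb_ae (hp : C.Valid p) (hμ : Spec p μ) : {ξ | C.Insb p μ (C.dec ξ)} ∈ C.W μ := by
  obtain ⟨hin, -, hsp⟩ := spec_inac hp hμ
  obtain ⟨m, hm, hmμ, hmax⟩ := spec_max_below hp hμ
  obtain ⟨b1, hb1, hv⟩ := rb1_val_bound hp hin hmμ (fun i v hiv => by
    have h1 := hp.bel μ (spec_mem hp hμ) m hmμ i v hiv
    rwa [C.bf.inac_eq hin] at h1)
  have h1 : (C.B m).ord < μ := C.bf.lt_inac hin hmμ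
  refine Filter.mem_of_superset ((C.good μ hsp).w0 (Max.max b1 (C.B m).ord) (max_lt hb1 h1)) ?_
  rintro ξ ⟨-, hblk, hlt⟩
  have h2 : b1 < fp (C.dec ξ) := lt_of_le_of_lt (le_max_left _ _) hlt
  have h3 : (C.B m).ord < fp (C.dec ξ) := lt_of_le_of_lt (le_max_right _ _) hlt
  have h4 : fp (C.dec ξ) < μ := (lt_add_one _).trans (blk_scope hblk hin).2.1
  refine ⟨hblk, fun x hx hxμ => ?_, fun x hx i v hiv => ?_⟩
  · exact lt_of_le_of_lt ((hmax x hx hxμ).trans (C.bf.le_ord m)) h3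
  · refine lt_of_lt_of_le ?_ (C.bf.le_ord _)
    rcases (hmax x (rb1_mem_of_h hp hiv) (hx.trans h4)).lt_or_eq with h5 | h5
    · exact (hp.bel m hm x h5 i v hiv).trans h3
    · subst h5
      exact (hv i v hiv).trans h2

/-- Insertion is always possible, with arbitrarily large first point. -/
theorem exists_ins (hp : C.Valid p) {L : Lo} (hμ : p.l μ = some L) {a : Od} (ha : a < μ)
    {Z : Set Od} (hZ : Z ∈ C.W μ) :
    ∃ ξ ∈ L.A, ξ ∈ Z ∧ a < fp (C.dec ξ) ∧ C.Insb p μ (C.dec ξ) := by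
  have hl := hp.sp μ L hμ
  have h1 := (C.good μ hl.sp).w0 a ha
  have h2 := rb1_insb_ae hp ⟨L, hμ⟩
  have h3 : L.A ∩ (Z ∩ ({ξ | ξ < μ ∧ C.Blk μ (C.dec ξ) ∧ a < fp (C.dec ξ)} ∩
      {ξ | C.Insb p μ (C.dec ξ)})) ∈ C.W μ :=
    Filter.inter_mem hl.A (Filter.inter_mem hZ (Filter.inter_mem h1 h2))
  obtain ⟨ξ, a1, a2, a3, a4⟩ := Ultrafilter.nonempty_of_mem h3
  exact ⟨ξ, a1, a2, a3.2.2, a4⟩

/-- Almost all blocks can be inserted. -/
theorem insb_ae (hp : C.Valid p) (hμ : Spec p μ) : {ξ | C.Insb p μ (C.dec ξ)} ∈ C.W μ := by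
  exact rb1_insb_ae hp hμ

end Ctx

end Pool.Agent.MP_85ce7b_lc
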