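import Pool.Agent.MP_85ce7b_lc.L.RB1

namespace Pool.Agent.MP_85ce7b_lc

open Set Cardinal Ordinal Dat

section Aux

variable {p q u b : Raw} {β μ x : Od} {f : Set (Od × Od)}

theorem rb2_c_lt (h : x < β) : x ∈ (mix β q u).c ↔ x ∈ q.c := by
  simp [mix, h]

theorem rb2_c_ge (h : β ≤ x) : x ∈ (mix β q u).c ↔ x ∈ u.c := by
  simp [mix, not_lt.2 h]

theorem rb2_h_lt (h : x < β) : (mix β q u).h x = q.h x := by
  simp [mix, h]

theorem rb2_h_ge (h : β ≤ x) : (mix β q u).h x = u.h x := by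
  simp [mix, not_lt.2 h]

theorem rb2_l_le (h : x ≤ β) : (mix β q u).l x = q.l x := by
  simp [mix, h]

theorem rb2_l_gt (h : β < x) : (mix β q u).l x = u.l x := by
  simp [mix, not_le.2 h]

theorem rb2_ins_c : x ∈ (ins p μ b f).c ↔ x ∈ p.c ∨ x ∈ b.c := Iff.rfl

theorem rb2_ins_h : (ins p μ b f).h x = p.h x ∪ (setH (fp b) f b).h x := rfl

theorem rb2_setH (h : x ≠ fp b) : (setH (fp b) f b).h x = b.h x := by
  simp [setH, Function.update_of_ne h]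

theorem rb2_ins_l_mem (h : x ≠ μ) (hx : x ∈ b.c) : (ins p μ b f).l x = b.l x := by
  simp [ins, setL, cat, setH, Function.update_of_ne h, hx]

theorem rb2_ins_l_nmem (h : x ≠ μ) (hx : x ∉ b.c) : (ins p μ b f).l x = p.l x := by
  simp [ins, setL, cat, setH, Function.update_of_ne h, hx]

theorem rb2_ins_l_self (hx : μ ∉ b.c) :
    (ins p μ b f).l μ = (p.l μ).map fun L => ⟨L.A, L.F, insert (fp b) L.s⟩ := by
  simp [ins, setL, cat, setH, hx]

theorem rb2_ins_l_congr {p' : Raw} (hμ : μ ∉ b.c) (h : p.l x = p'.l x) :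
    (ins p μ b f).l x = (ins p' μ b f).l x := by
  by_cases h1 : x = μ
  · subst h1
    rw [rb2_ins_l_self hμ, rb2_ins_l_self hμ, h]
  · by_cases h2 : x ∈ b.c
    · rw [rb2_ins_l_mem h1 h2, rb2_ins_l_mem h1 h2]
    · rw [rb2_ins_l_nmem h1 h2, rb2_ins_l_nmem h1 h2, h]

theorem rb2_bdd (h : Bdd μ b) (hx : x ∈ b.c) : x < μ := by
  obtain ⟨a, ha, h1, -⟩ := h
  exact lt_trans (h1 hx) ha

theorem rb2_lim_le (hx : x ≤ β) (h : LimP (mix β q u).c x) : LimP q.c x := by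
  refine ⟨h.1, fun y hy => ?_⟩
  obtain ⟨z, hz, h1, h2⟩ := h.2 y hy
  exact ⟨z, (rb2_c_lt (h2.trans_le hx)).1 hz, h1, h2⟩

theorem rb2_lim_gt (hx : β < x) (h : LimP (mix β q u).c x) : LimP u.c x := by
  refine ⟨h.1, fun y hy => ?_⟩
  obtain ⟨z, hz, h1, h2⟩ := h.2 (max y β) (max_lt hy hx)
  exact ⟨z, (rb2_c_ge ((le_max_right _ _).trans h1.le)).1 hz, (le_max_left _ _).trans_lt h1, h2⟩

theorem rb2_dle_left {w : Raw} (h : Dle q p) (hβ : β ∈ p.c) : Dle (mix β q w) (mix β p w) := by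
  refine ⟨fun x hx => ?_, fun x hx hn => ?_, fun x => ?_, fun x hx hl => ?_, fun x L hl => ?_⟩
  · rcases lt_or_ge x β with h1 | h1
    · exact (rb2_c_lt h1).2 (h.c ((rb2_c_lt h1).1 hx))
    · exact (rb2_c_ge h1).2 ((rb2_c_ge h1).1 hx)
  · rcases lt_or_ge x β with h1 | h1
    · exact absurd (h.new x ((rb2_c_lt h1).1 hx) (fun h' => hn ((rb2_c_lt h1).2 h')) β hβ)
        h1.not_gt
    · exact absurd ((rb2_c_ge h1).2 ((rb2_c_ge h1).1 hx)) hn
  · rcases lt_or_ge x β with h1 | h1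
    · rw [rb2_h_lt h1, rb2_h_lt h1]
      exact h.h x
    · rw [rb2_h_ge h1, rb2_h_ge h1]
  · rcases le_or_gt x β with h1 | h1
    · rw [rb2_l_le h1] at hl ⊢
      refine h.l0 x ?_ hl
      rcases h1.lt_or_eq with h2 | h2
      · exact (rb2_c_lt h2).1 hx
      · rwa [h2]
    · rwa [rb2_l_gt h1] at hl ⊢
  · rcases le_or_gt x β with h1 | h1
    · rw [rb2_l_le h1] at hl ⊢
      exact h.l1 x L hl
    · rw [rb2_l_gt h1] at hl ⊢
      exact ⟨L, hl, subset_rfl, fun _ _ => subset_rfl, rfl⟩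

theorem rb2_dle_right {w : Raw} (h : Dle q p) (hβ : β ∈ p.c) : Dle (mix β w q) (mix β w p) := by
  refine ⟨fun x hx => ?_, fun x hx hn y hy => ?_, fun x => ?_, fun x hx hl => ?_,
    fun x L hl => ?_⟩
  · rcases lt_or_ge x β with h1 | h1
    · exact (rb2_c_lt h1).2 ((rb2_c_lt h1).1 hx)
    · exact (rb2_c_ge h1).2 (h.c ((rb2_c_ge h1).1 hx))
  · rcases lt_or_ge x β with h1 | h1
    · exact absurd ((rb2_c_lt h1).2 ((rb2_c_lt h1).1 hx)) hn
    · rcases lt_or_ge y β with h2 | h2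
      · exact h2.trans_le h1
      · exact h.new x ((rb2_c_ge h1).1 hx) (fun h' => hn ((rb2_c_ge h1).2 h')) y
          ((rb2_c_ge h2).1 hy)
  · rcases lt_or_ge x β with h1 | h1
    · rw [rb2_h_lt h1, rb2_h_lt h1]
    · rw [rb2_h_ge h1, rb2_h_ge h1]
      exact h.h x
  · rcases le_or_gt x β with h1 | h1
    · rwa [rb2_l_le h1] at hl ⊢
    · rw [rb2_l_gt h1] at hl ⊢
      exact h.l0 x ((rb2_c_ge h1.le).1 hx) hl
  · rcases le_or_gt x β with h1 | h1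
    · rw [rb2_l_le h1] at hl ⊢
      exact ⟨L, hl, subset_rfl, fun _ _ => subset_rfl, rfl⟩
    · rw [rb2_l_gt h1] at hl ⊢
      exact h.l1 x L hl

theorem rb2_mix_ins_left {w : Raw} (hμ : μ ≤ β) (hb : ∀ x ∈ b.c, x < μ) (hf : fp b ∈ b.c)
    (h0 : ∀ x, x ∉ b.c → b.h x = ∅) : mix β (ins p μ b f) w = ins (mix β p w) μ b f := by
  have hn : ∀ x, β ≤ x → x ∉ b.c := fun x hx h => ((hb x h).trans_le hμ).not_ge hx
  have hm : μ ∉ b.c := fun h => lt_irrefl _ (hb μ h)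
  refine Raw.ext (Set.ext fun x => ?_) (funext fun x => ?_) (funext fun x => ?_)
  · rcases lt_or_ge x β with h1 | h1
    · rw [rb2_c_lt h1, rb2_ins_c, rb2_ins_c, rb2_c_lt h1]
    · rw [rb2_c_ge h1, rb2_ins_c, rb2_c_ge h1, or_iff_left (hn x h1)]
  · rcases lt_or_ge x β with h1 | h1
    · rw [rb2_h_lt h1, rb2_ins_h, rb2_ins_h, rb2_h_lt h1]
    · rw [rb2_h_ge h1, rb2_ins_h, rb2_h_ge h1, rb2_setH (fun h : x = fp b => hn x h1 (h ▸ hf)),
        h0 x (hn x h1), union_empty]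
  · rcases le_or_gt x β with h1 | h1
    · rw [rb2_l_le h1]
      exact rb2_ins_l_congr hm (rb2_l_le h1).symm
    · rw [rb2_l_gt h1, rb2_ins_l_nmem (hμ.trans_lt h1).ne' (hn x h1.le), rb2_l_gt h1]

theorem rb2_mix_ins_right {w : Raw} (hμ : β < μ) (hb : ∀ x ∈ b.c, β < x) (hm : μ ∉ b.c)
    (hf : fp b ∈ b.c) (h0 : ∀ x, x ∉ b.c → b.h x = ∅) :
    mix β w (ins p μ b f) = ins (mix β w p) μ b f := by
  have hn : ∀ x, x ≤ β → x ∉ b.c := fun x hx h => (hb x h).not_ge hx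
  refine Raw.ext (Set.ext fun x => ?_) (funext fun x => ?_) (funext fun x => ?_)
  · rcases lt_or_ge x β with h1 | h1
    · rw [rb2_c_lt h1, rb2_ins_c, rb2_c_lt h1, or_iff_left (hn x h1.le)]
    · rw [rb2_c_ge h1, rb2_ins_c, rb2_ins_c, rb2_c_ge h1]
  · rcases lt_or_ge x β with h1 | h1
    · rw [rb2_h_lt h1, rb2_ins_h, rb2_h_lt h1, rb2_setH (fun h : x = fp b => hn x h1.le (h ▸ hf)),
        h0 x (hn x h1.le), union_empty]
    · rw [rb2_h_ge h1, rb2_ins_h, rb2_ins_h, rb2_h_ge h1]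
  · rcases le_or_gt x β with h1 | h1
    · rw [rb2_l_le h1, rb2_ins_l_nmem (h1.trans_lt hμ).ne (hn x h1), rb2_l_le h1]
    · rw [rb2_l_gt h1]
      exact rb2_ins_l_congr hm (rb2_l_gt h1).symm

end Aux

namespace Ctx

variable {C : Ctx} {p q r u w b : Raw} {t β δ μ x y : Od}

theorem le_refl' (h : C.Valid p) : C.Le p p := ⟨h, Relation.ReflTransGen.refl⟩

theorem le_valid (h : C.Le q p) : C.Valid q := by
  obtain ⟨hp, h⟩ := h
  induction h with
  | refl => exact hp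
  | tail _ hs _ => exact hs.1

theorem le_trans' (h₁ : C.Le r q) (h₂ : C.Le q p) : C.Le r p := by
  exact ⟨h₂.1, h₂.2.trans h₁.2⟩

theorem le_of_dle (hp : C.Valid p) (hq : C.Valid q) (h : Dle q p) : C.Le q p := by
  exact ⟨hp, Relation.ReflTransGen.single ⟨hq, Or.inl h⟩⟩

theorem le_of_ins (hp : C.Valid p) (h : C.Ins q p μ) : C.Le q p := by
  exact ⟨hp, Relation.ReflTransGen.single ⟨ins_valid' hp h, Or.inr ⟨μ, h⟩⟩⟩

theorem rb2_ind {P : Raw → Prop} (h : C.Le q p) (h0 : P p)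
    (hd : ∀ a e, C.Le a p → C.Valid a → C.Valid e → P a → Dle e a → P e)
    (hi : ∀ a e μ, C.Le a p → C.Valid a → C.Valid e → P a → C.Ins e a μ → P e) : P q := by
  obtain ⟨hp, h⟩ := h
  induction h with
  | refl => exact h0
  | tail h1 hs ih =>
    have h2 : C.Le _ p := ⟨hp, h1⟩
    rcases hs.2 with h3 | ⟨μ, h3⟩
    · exact hd _ _ h2 (le_valid h2) hs.1 ih h3
    · exact hi _ _ μ h2 (le_valid h2) hs.1 ih h3

theorem le_c (h : C.Le q p) : p.c ⊆ q.c := by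
  exact rb2_ind (P := fun a => p.c ⊆ a.c) h subset_rfl (fun _ _ _ _ _ ih hd => ih.trans hd.c)
    fun _ _ _ _ ha _ ih hi => ih.trans (ins_facts ha hi).2.2.2.2.2.1

theorem le_h (h : C.Le q p) (x : Od) : p.h x ⊆ q.h x := by
  refine rb2_ind (P := fun a => p.h x ⊆ a.h x) h subset_rfl
    (fun _ _ _ _ _ ih hd => ih.trans (hd.h x)) fun a e μ _ _ _ ih hi => ih.trans ?_
  obtain ⟨L, ξ, -, -, -, rfl⟩ := hi
  rw [rb2_ins_h]
  exact subset_union_left

theorem le_l0 (h : C.Le q p) (hx : x ∈ p.c) (hl : p.l x = none) : q.l x = none := by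
  refine rb2_ind (P := fun a => a.l x = none) h hl
    (fun _ _ ha _ _ ih hd => hd.l0 x (le_c ha hx) ih) fun a e μ ha hv _ ih hi => ?_
  obtain ⟨⟨L, hL⟩, -, -, h1, -⟩ := ins_facts hv hi
  rw [h1 x (le_c ha hx) ?_, ih]
  rintro rfl
  rw [ih] at hL
  cases hL

theorem le_l1 (h : C.Le q p) {L : Lo} (hl : p.l x = some L) :
    ∃ L', q.l x = some L' ∧ L'.A ⊆ L.A ∧ (∀ ξ ∈ L'.A, sec L.F ξ ⊆ sec L'.F ξ) ∧ L.s ⊆ L'.s ∧
      ∀ z ∈ L'.s, z ∉ L.s → ∀ y ∈ p.c, y < x → y < z := by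
  refine rb2_ind (P := fun a => ∃ L', a.l x = some L' ∧ L'.A ⊆ L.A ∧
    (∀ ξ ∈ L'.A, sec L.F ξ ⊆ sec L'.F ξ) ∧ L.s ⊆ L'.s ∧
      ∀ z ∈ L'.s, z ∉ L.s → ∀ y ∈ p.c, y < x → y < z) h
    ⟨L, hl, subset_rfl, fun _ _ => subset_rfl, subset_rfl, fun z h1 h2 => absurd h1 h2⟩ ?_ ?_
  · rintro a e - - - ⟨L', h1, h2, h3, h4, h5⟩ hd
    obtain ⟨L'', g1, g2, g3, g4⟩ := hd.l1 x L' h1
    refine ⟨L'', g1, g2.trans h2, fun ξ hξ => (h3 ξ (g2 hξ)).trans (g3 ξ hξ), ?_, ?_⟩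
    · rwa [g4]
    · rwa [g4]
  · rintro a e μ ha hv - ⟨L', h1, h2, h3, h4, h5⟩ hi
    by_cases hx : x = μ
    · subst hx
      obtain ⟨L0, ξ, -, -, hb, rfl⟩ := hi
      refine ⟨⟨L'.A, L'.F, insert (fp (C.dec ξ)) L'.s⟩, ?_, h2, h3,
        h4.trans (subset_insert _ _), ?_⟩
      · rw [rb2_ins_l_self fun h' => lt_irrefl _ (rb2_bdd hb.blk.bdd h'), h1]
        rfl
      · rintro z (rfl | hz) hn y hy hyx
        · exact hb.lt y (le_c ha hy) hyx
        · exact h5 z hz hn y hy hyx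
    · refine ⟨L', ?_, h2, h3, h4, h5⟩
      rw [(ins_facts hv hi).2.2.2.1 x (spec_mem hv ⟨L', h1⟩) hx, h1]

theorem le_spec_iff (h : C.Le q p) (hx : x ∈ p.c) : Spec q x ↔ Spec p x := by
  constructor
  · rintro ⟨L, hL⟩
    rcases hp : p.l x with _ | L'
    · rw [le_l0 h hx hp] at hL
      cases hL
    · exact ⟨L', hp⟩
  · rintro ⟨L, hL⟩
    obtain ⟨L', h1, -⟩ := le_l1 h hL
    exact ⟨L', h1⟩

theorem rb2_squeeze (h₁ : C.Le r q) (h₂ : C.Le q p) (hμ : Spec p μ) (h : sAt μ r = sAt μ p) :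
    sAt μ q = sAt μ p := by
  obtain ⟨L, hL⟩ := hμ
  obtain ⟨L', h1, -, -, h2, -⟩ := le_l1 h₂ hL
  obtain ⟨L'', g1, -, -, g2, -⟩ := le_l1 h₁ h1
  simp only [sAt, hL, h1, g1, Option.map_some, Option.some.injEq] at h ⊢
  exact Subset.antisymm (h ▸ g2) h2

/-- New points are at the end or in the gap below a special point where `s` has changed. -/
theorem le_new (h : C.Le q p) (hx : x ∈ q.c) (hn : x ∉ p.c) :
    (∀ y ∈ p.c, y < x) ∨ ∃ μ, Spec p μ ∧ sAt μ q ≠ sAt μ p ∧ x < μ ∧ ∀ y ∈ p.c, y < μ → y < x := by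
  revert x
  refine rb2_ind (P := fun a => ∀ {x}, x ∈ a.c → x ∉ p.c → (∀ y ∈ p.c, y < x) ∨
    ∃ μ, Spec p μ ∧ sAt μ a ≠ sAt μ p ∧ x < μ ∧ ∀ y ∈ p.c, y < μ → y < x) h
    (fun h1 h2 => absurd h1 h2) ?_ ?_
  · intro a e ha hv hv' ih hd x hx hn
    by_cases h1 : x ∈ a.c
    · rcases ih h1 hn with h2 | ⟨μ, h2, h3, h4⟩
      · exact Or.inl h2
      · exact Or.inr ⟨μ, h2, fun h' => h3 (rb2_squeeze (le_of_dle hv hv' hd) ha h2 h'), h4⟩
    · exact Or.inl fun y hy => hd.new x hx h1 y (le_c ha hy)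
  · intro a e ν ha hv _ ih hi x hx hn
    have hle := le_of_ins hv hi
    by_cases h1 : x ∈ a.c
    · rcases ih h1 hn with h2 | ⟨μ, h2, h3, h4⟩
      · exact Or.inl h2
      · exact Or.inr ⟨μ, h2, fun h' => h3 (rb2_squeeze hle ha h2 h'), h4⟩
    · obtain ⟨g1, -, g2, -, -, -, g3⟩ := ins_facts hv hi
      obtain ⟨g4, g5⟩ := g3 x hx h1
      by_cases h2 : ν ∈ p.c
      · have h3 := (le_spec_iff ha h2).1 g1
        exact Or.inr ⟨ν, h3, fun h' => g2 (h'.trans (rb2_squeeze hle ha h3 h').symm), g4,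
          fun y hy hyν => g5 y (le_c ha hy) hyν⟩
      · rcases ih (spec_mem hv g1) h2 with h3 | ⟨μ, h3, h4, h5, h6⟩
        · exact Or.inl fun y hy => g5 y (le_c ha hy) (h3 y hy)
        · exact Or.inr ⟨μ, h3, fun h' => h4 (rb2_squeeze hle ha h3 h'), g4.trans h5,
            fun y hy hyμ => g5 y (le_c ha hy) (h6 y hy hyμ)⟩

theorem le_fin (h : C.Le q p) : {μ | μ ∈ p.c ∧ sAt μ q ≠ sAt μ p}.Finite := by
  refine rb2_ind (P := fun a => {μ | μ ∈ p.c ∧ sAt μ a ≠ sAt μ p}.Finite) h (by simp) ?_ ?_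
  · intro a e ha _ _ ih hd
    refine ih.subset fun μ hμ => ⟨hμ.1, ?_⟩
    rw [← hd.sAt_eq (le_c ha hμ.1)]
    exact hμ.2
  · intro a e ν ha hv _ ih hi
    refine (ih.insert ν).subset fun μ hμ => ?_
    by_cases h1 : μ = ν
    · exact Or.inl h1
    · refine Or.inr ⟨hμ.1, fun h2 => hμ.2 ?_⟩
      rw [← h2, sAt, sAt, (ins_facts hv hi).2.2.2.1 μ (le_c ha hμ.1) h1]

theorem le_dirA (h : C.Le q p) (hβ : β ∈ p.c) (hs : ∀ μ, Spec p μ → β < μ → sAt μ q = sAt μ p) :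
    DirA β q p := by
  refine ⟨fun x hx => ?_, fun x hx hn => ?_, fun x => ?_, fun x hx hl => ?_, fun x L hl => ?_⟩
  · rcases lt_or_ge x β with h1 | h1
    · exact (rb2_c_lt h1).2 hx
    · exact (rb2_c_ge h1).2 (le_c h hx)
  · rcases lt_or_ge x β with h1 | h1
    · exact absurd ((rb2_c_lt h1).1 hx) hn
    · rcases le_new h ((rb2_c_ge h1).1 hx) hn with h2 | ⟨μ, h2, h3, h4, -⟩
      · exact h2
      · exact absurd (hs μ h2 (h1.trans_lt h4)) h3
  · rcases lt_or_ge x β with h1 | h1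
    · rw [rb2_h_lt h1]
    · rw [rb2_h_ge h1]
      exact le_h h x
  · rcases le_or_gt x β with h1 | h1
    · rwa [rb2_l_le h1]
    · rw [rb2_l_gt h1]
      exact le_l0 h hx hl
  · rcases le_or_gt x β with h1 | h1
    · exact ⟨L, (rb2_l_le h1).trans hl, subset_rfl, fun _ _ => subset_rfl, rfl⟩
    · obtain ⟨L', g1, g2, g3, -⟩ := le_l1 h hl
      refine ⟨L', (rb2_l_gt h1).trans g1, g2, g3, ?_⟩
      have h2 := hs x ⟨L, hl⟩ h1
      simpa only [sAt, hl, g1, Option.map_some, Option.some.injEq] using h2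

theorem le_good (h : C.Le q p) (hδ : Good p δ) : Good q δ := by
  exact ⟨le_c h hδ.1, le_l0 h hδ.1 hδ.2.1, hδ.2.2⟩

theorem le_good0 (h : C.Le q p) (hδ : Good0 p δ) : Good0 q δ := by
  rcases hδ with hδ | hδ
  · exact Or.inl (le_good h hδ)
  · exact Or.inr ⟨hδ.1, le_c h hδ.2⟩

theorem good0_mem (hp : C.Valid p) (hδ : Good0 p δ) : δ ∈ p.c ∧ p.l δ = none := by
  rcases hδ with hδ | ⟨rfl, hδ⟩
  · exact ⟨hδ.1, hδ.2.1⟩
  · refine ⟨hδ, ?_⟩
    rcases hl : p.l 0 with _ | L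
    · rfl
    · obtain ⟨y, -, hy⟩ := (hp.sp 0 L hl).pre
      exact absurd hy (not_lt.2 zero_le)

theorem le_adj (h : C.Le q p) (hxy : Adj p x y) : Adj q x y := by
  obtain ⟨h1, h2, h3, h4, h5⟩ := hxy
  refine ⟨le_c h h1, le_c h h2, h3, fun z hz hxz => ?_, le_l0 h h2 h5⟩
  by_cases hn : z ∈ p.c
  · exact h4 z hn hxz
  · rcases le_new h hz hn with g | ⟨μ, g1, -, g2, g3⟩
    · exact (g y h2).le
    · refine (g3 y h2 (lt_of_le_of_ne (h4 μ (spec_mem h.1 g1) (hxz.trans g2)) ?_)).le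
      rintro rfl
      obtain ⟨L, hL⟩ := g1
      rw [h5] at hL
      cases hL

theorem le_noSp {a e : Od} (h : C.Le q p) (ha : a ∈ p.c) (he : e ∈ p.c) (hn : NoSp p a e) :
    NoSp q a e ∧ ∀ x, a ≤ x → x ≤ e → (x ∈ q.c ↔ x ∈ p.c) := by
  have key : ∀ x, a ≤ x → x ≤ e → (x ∈ q.c ↔ x ∈ p.c) := by
    intro x h1 h2
    refine ⟨fun hx => ?_, fun hx => le_c h hx⟩
    by_contra hx'
    rcases le_new h hx hx' with g | ⟨μ, ⟨L, g1⟩, -, g2, g3⟩
    · exact (g e he).not_ge h2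
    · rcases le_or_gt μ e with h3 | h3
      · rw [hn μ (h1.trans_lt g2) h3] at g1
        cases g1
      · exact (g3 e he h3).not_ge h2
  refine ⟨fun x h1 h2 => ?_, key⟩
  by_cases hx : x ∈ q.c
  · exact le_l0 h ((key x h1.le h2).1 hx) (hn x h1 h2)
  · exact (le_valid h).l0 x hx

/-! ### Mixing -/

theorem rb2_below (hq : C.Below β q) (hu : C.Below t u) (ht : β ≤ t) : C.Below t (mix β q u) := by
  intro x hx i v hv
  rcases lt_or_ge x β with h1 | h1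
  · rw [rb2_h_lt h1] at hv
    exact (hq x h1 i v hv).trans_le (Cardinal.ord_mono (C.bf.mono ht))
  · rw [rb2_h_ge h1] at hv
    exact hu x hx i v hv

theorem mix_valid (hq : C.Valid q) (hu : C.Valid u) (h₁ : β ∈ q.c) (h₂ : β ∈ u.c) :
    C.Valid (mix β q u) := by
  have hβ : β ∈ (mix β q u).c := (rb2_c_ge le_rfl).2 h₂
  refine ⟨⟨β, hβ⟩, ?_, fun x hx => ?_, fun x hx => ?_, fun x hx => ?_, fun x => ?_,
    fun i v hv => ?_, fun y hy => ?_, fun x hx => ?_, fun x hx hi => ?_, fun μ L hl => ?_⟩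
  · refine (hq.bd.union hu.bd).mono fun x hx => ?_
    rcases lt_or_ge x β with h1 | h1
    · exact Or.inl ((rb2_c_lt h1).1 hx)
    · exact Or.inr ((rb2_c_ge h1).1 hx)
  · rcases lt_trichotomy x β with h1 | h1 | h1
    · exact (rb2_c_lt h1).2 (hq.cl x (rb2_lim_le h1.le hx))
    · rwa [h1]
    · exact (rb2_c_ge h1.le).2 (hu.cl x (rb2_lim_gt h1 hx))
  · rcases lt_or_ge x β with h1 | h1
    · rw [rb2_h_lt h1]
      exact hq.h0 x fun h => hx ((rb2_c_lt h1).2 h)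
    · rw [rb2_h_ge h1]
      exact hu.h0 x fun h => hx ((rb2_c_ge h1).2 h)
  · rcases lt_trichotomy x β with h1 | h1 | h1
    · rw [rb2_l_le h1.le]
      exact hq.l0 x fun h => hx ((rb2_c_lt h1).2 h)
    · exact absurd (h1 ▸ hβ) hx
    · rw [rb2_l_gt h1]
      exact hu.l0 x fun h => hx ((rb2_c_ge h1.le).2 h)
  · rcases lt_or_ge x β with h1 | h1
    · rw [rb2_h_lt h1]
      exact hq.col x
    · rw [rb2_h_ge h1]
      exact hu.col x
  · rcases lt_or_ge C.s β with h1 | h1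
    · rw [rb2_h_lt h1] at hv
      exact hq.vs i v hv
    · rw [rb2_h_ge h1] at hv
      exact hu.vs i v hv
  · rcases lt_or_ge y β with h1 | h1
    · intro x hx i v hv
      rw [rb2_h_lt (hx.trans h1)] at hv
      exact hq.bel y ((rb2_c_lt h1).1 hy) x hx i v hv
    · exact rb2_below (hq.bel β h₁) (hu.bel y ((rb2_c_ge h1).1 hy)) h1
  · rcases le_or_gt x β with h1 | h1
    · rw [rb2_l_le h1]
      exact hq.lim x (rb2_lim_le h1 hx)
    · rw [rb2_l_gt h1]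
      exact hu.lim x (rb2_lim_gt h1 hx)
  · rcases le_or_gt x β with h1 | h1
    · obtain ⟨⟨y, g1, g2⟩, g3⟩ := hq.eas x (rb2_lim_le h1 hx) hi
      refine ⟨⟨y, g1, fun z hy hz => ?_⟩, g3⟩
      rw [rb2_h_lt (hz.trans_le h1), rb2_l_le (hz.le.trans h1)]
      exact g2 z hy hz
    · obtain ⟨⟨y, g1, g2⟩, g3⟩ := hu.eas x (rb2_lim_gt h1 hx) hi
      refine ⟨⟨Max.max y β, max_lt g1 h1, fun z hy hz => ?_⟩, g3⟩
      rw [max_lt_iff] at hy
      rw [rb2_h_ge hy.2.le, rb2_l_gt hy.2]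
      exact g2 z hy.1 hz
  · rcases le_or_gt μ β with h1 | h1
    · rw [rb2_l_le h1] at hl
      have g := hq.sp μ L hl
      refine ⟨g.sp, g.gt, ?_, g.A, g.Alt, g.Fb, g.F, g.fin, fun z hz => ?_⟩
      · obtain ⟨y, g1, g2⟩ := g.pre
        exact ⟨y, (rb2_c_lt (g2.trans_le h1)).2 g1, g2⟩
      · obtain ⟨y, g1, g2, g3⟩ := g.s z hz
        exact ⟨y, (rb2_c_lt (g3.trans_le h1)).2 g1, g2, g3⟩
    · rw [rb2_l_gt h1] at hl
      have g := hu.sp μ L hl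
      refine ⟨g.sp, g.gt, ⟨β, hβ, h1⟩, g.A, g.Alt, g.Fb, g.F, g.fin, fun z hz => ?_⟩
      obtain ⟨y, g1, g2, g3⟩ := g.s z hz
      rcases lt_or_ge y β with h2 | h2
      · exact ⟨β, hβ, g2.trans h2.le, h1⟩
      · exact ⟨y, (rb2_c_ge h2).2 g1, g2, g3⟩

theorem mix_scope (hq : C.Valid q) (hu : C.Scope t u) (h₁ : β ∈ q.c) (h₂ : β ∈ u.c) (ht : β ≤ t) :
    C.Scope t (mix β q u) := by
  refine ⟨mix_valid hq hu.v h₁ h₂, rb2_below (hq.bel β h₁) hu.bel ht, ?_⟩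
  rcases hu.cut with h | ⟨g1, g2, g3⟩
  · exact Or.inl ((rb2_c_ge ht).2 h)
  · refine Or.inr ⟨g1, g2, fun x hx => ?_⟩
    rcases lt_or_ge x β with h1 | h1
    · exact h1.trans_le ht
    · exact g3 ((rb2_c_ge h1).1 hx)

theorem mix_le_left (h : C.Le r q) (hβ : β ∈ q.c) (hw : C.Valid w) (hβ' : β ∈ w.c) :
    C.LeT β (mix β r w) (mix β q w) := by
  refine ⟨?_, (agree_mix β r w).trans (agree_mix β q w).symm, fun x hx i v hv => ?_⟩
  · refine rb2_ind (P := fun a => C.Le (mix β a w) (mix β q w)) h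
      (le_refl' (mix_valid h.1 hw hβ hβ')) ?_ ?_
    · intro a e ha _ he ih hd
      exact le_trans' (le_of_dle (le_valid ih) (mix_valid he hw (hd.c (le_c ha hβ)) hβ')
        (rb2_dle_left hd (le_c ha hβ))) ih
    · intro a e μ ha hv he ih hi
      rcases le_or_gt μ β with h1 | h1
      · refine le_trans' (le_of_ins (μ := μ) (le_valid ih) ?_) ih
        obtain ⟨L, ξ, g1, g2, g3, rfl⟩ := hi
        have g4 := (fp_mem g3.blk.v).1
        refine ⟨L, ξ, (rb2_l_le h1).trans g1, g2, ⟨g3.blk, fun x hx hxμ => ?_,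
          fun x hx i v hv => ?_⟩,
          rb2_mix_ins_left h1 (fun x hx => rb2_bdd g3.blk.bdd hx) g4 g3.blk.v.h0⟩
        · exact g3.lt x ((rb2_c_lt (hxμ.trans_le h1)).1 hx) hxμ
        · rw [rb2_h_lt ((hx.trans (rb2_bdd g3.blk.bdd g4)).trans_le h1)] at hv
          exact g3.bel x hx i v hv
      · obtain ⟨-, -, -, g1, g2, g3, g4⟩ := ins_facts hv hi
        have hc : ∀ x, x ≤ β → x ∈ e.c → x ∈ a.c := by
          intro x hx hx'
          by_contra hn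
          exact ((g4 x hx' hn).2 β (le_c ha hβ) h1).not_ge hx
        have hl : ∀ x, x ≤ β → e.l x = a.l x := by
          intro x hx
          by_cases hx' : x ∈ a.c
          · exact g1 x hx' (hx.trans_lt h1).ne
          · rw [hv.l0 x hx', he.l0 x fun h' => hx' (hc x hx h')]
        have hag : AgLo β e a := by
          refine ⟨fun x hx => ⟨⟨hc x hx.le, fun h' => g3 h'⟩, ?_, hl x hx.le⟩, hl β le_rfl⟩
          by_cases hx' : x ∈ a.c
          · exact g2 x hx'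
          · rw [hv.h0 x hx', he.h0 x fun h' => hx' (hc x hx.le h')]
        rw [mix_congr hag (Agree.refl β w)]
        exact ih
  · rw [rb2_h_lt hx] at hv
    exact (le_valid h).bel β (le_c h hβ) x hx i v hv

theorem mix_le_right (h : C.Le r q) (hβ : β ∈ q.c) (hw : C.Valid w) (hβ' : β ∈ w.c) :
    C.Le (mix β w r) (mix β w q) := by
  refine rb2_ind (P := fun a => C.Le (mix β w a) (mix β w q)) h
    (le_refl' (mix_valid hw h.1 hβ' hβ)) ?_ ?_
  · intro a e ha _ he ih hd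
    exact le_trans' (le_of_dle (le_valid ih) (mix_valid hw he hβ' (hd.c (le_c ha hβ)))
      (rb2_dle_right hd (le_c ha hβ))) ih
  · intro a e μ ha hv he ih hi
    rcases le_or_gt μ β with h1 | h1
    · have hag : AgLo β w w := ⟨fun _ _ => ⟨Iff.rfl, rfl, rfl⟩, rfl⟩
      rw [mix_congr hag ((ins_facts hv hi).2.1.mono h1)]
      exact ih
    · refine le_trans' (le_of_ins (μ := μ) (le_valid ih) ?_) ih
      obtain ⟨L, ξ, g1, g2, g3, rfl⟩ := hi
      have g4 := fp_mem g3.blk.v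
      have g5 := g3.lt β (le_c ha hβ) h1
      refine ⟨L, ξ, (rb2_l_gt h1).trans g1, g2, ⟨g3.blk, fun x hx hxμ => ?_,
        rb2_below (hw.bel β hβ') g3.bel g5.le⟩,
        rb2_mix_ins_right h1 (fun x hx => g5.trans_le (g4.2.1 x hx))
          (fun h' => lt_irrefl _ (rb2_bdd g3.blk.bdd h')) g4.1 g3.blk.v.h0⟩
      rcases lt_or_ge x β with h2 | h2
      · exact h2.trans g5
      · exact g3.lt x ((rb2_c_ge h2).1 hx) hxμ

end Ctx

end Pool.Agent.MP_85ce7b_lc
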