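import Pool.Agent.MP_85ce7b_lc.L.RB2

namespace Pool.Agent.MP_85ce7b_lc

open Set Cardinal Ordinal Dat

section RB3aux

variable {p q r u w : Raw} {t β x : Od}

theorem RB3_c_lt (hx : x < β) : x ∈ (mix β q u).c ↔ x ∈ q.c := by simp [mix, hx]

theorem RB3_c_ge (hx : β ≤ x) : x ∈ (mix β q u).c ↔ x ∈ u.c := by simp [mix, not_lt.2 hx]

theorem RB3_h_lt (hx : x < β) : (mix β q u).h x = q.h x := by simp [mix, hx]

theorem RB3_h_ge (hx : β ≤ x) : (mix β q u).h x = u.h x := by simp [mix, not_lt.2 hx]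

theorem RB3_l_le (hx : x ≤ β) : (mix β q u).l x = q.l x := by simp [mix, hx]

theorem RB3_l_gt (hx : β < x) : (mix β q u).l x = u.l x := by simp [mix, not_le.2 hx]

theorem RB3_dle_left (h : Dle r q) (hβ : β ∈ q.c) : Dle (mix β r w) (mix β q w) := by
  refine ⟨fun x hx => ?_, fun x hx hn => ?_, fun x => ?_, fun x hx hl => ?_, fun x L hl => ?_⟩
  · rcases lt_or_ge x β with hb | hb
    · rw [RB3_c_lt hb] at hx ⊢; exact h.c hx
    · rw [RB3_c_ge hb] at hx ⊢; exact hx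
  · rcases lt_or_ge x β with hb | hb
    · rw [RB3_c_lt hb] at hx hn
      exact absurd (h.new x hx hn β hβ) (not_lt.2 hb.le)
    · rw [RB3_c_ge hb] at hx hn
      exact absurd hx hn
  · rcases lt_or_ge x β with hb | hb
    · rw [RB3_h_lt hb, RB3_h_lt hb]; exact h.h x
    · rw [RB3_h_ge hb, RB3_h_ge hb]
  · rcases le_or_gt x β with hb | hb
    · rw [RB3_l_le hb] at hl ⊢
      refine h.l0 x ?_ hl
      rcases hb.lt_or_eq with hb | rfl
      · exact (RB3_c_lt hb).1 hx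
      · exact hβ
    · rw [RB3_l_gt hb] at hl ⊢; exact hl
  · rcases le_or_gt x β with hb | hb
    · rw [RB3_l_le hb] at hl ⊢; exact h.l1 x L hl
    · rw [RB3_l_gt hb] at hl ⊢
      exact ⟨L, hl, subset_rfl, fun _ _ => subset_rfl, rfl⟩

theorem RB3_dle_right (h : Dle r q) : Dle (mix β w r) (mix β w q) := by
  refine ⟨fun x hx => ?_, fun x hx hn y hy => ?_, fun x => ?_, fun x hx hl => ?_,
    fun x L hl => ?_⟩
  · rcases lt_or_ge x β with hb | hb
    · rw [RB3_c_lt hb] at hx ⊢; exact hx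
    · rw [RB3_c_ge hb] at hx ⊢; exact h.c hx
  · rcases lt_or_ge x β with hb | hb
    · rw [RB3_c_lt hb] at hx hn
      exact absurd hx hn
    · rw [RB3_c_ge hb] at hx hn
      rcases lt_or_ge y β with hb' | hb'
      · exact hb'.trans_le hb
      · exact h.new x hx hn y ((RB3_c_ge hb').1 hy)
  · rcases lt_or_ge x β with hb | hb
    · rw [RB3_h_lt hb, RB3_h_lt hb]
    · rw [RB3_h_ge hb, RB3_h_ge hb]; exact h.h x
  · rcases le_or_gt x β with hb | hb
    · rw [RB3_l_le hb] at hl ⊢; exact hl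
    · rw [RB3_l_gt hb] at hl ⊢
      exact h.l0 x ((RB3_c_ge hb.le).1 hx) hl
  · rcases le_or_gt x β with hb | hb
    · rw [RB3_l_le hb] at hl ⊢
      exact ⟨L, hl, subset_rfl, fun _ _ => subset_rfl, rfl⟩
    · rw [RB3_l_gt hb] at hl ⊢; exact h.l1 x L hl

theorem RB3_agree_right (h : Agree t r q) (ht : β ≤ t) : Agree t (mix β w r) (mix β w q) :=
  (((agree_mix β w r).mono ht).trans h).trans ((agree_mix β w q).mono ht).symm

theorem RB3_mix_ins {μ : Od} {b : Raw} {f : Set (Od × Od)} (hμ : μ ≤ t) (hb : b.c ⊆ Iio t)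
    (hf : fp b < t) (h0 : ∀ x, x ∉ b.c → b.h x = ∅) :
    mix t (ins r μ b f) p = ins (mix t r p) μ b f := by
  classical
  refine Raw.ext ?_ ?_ ?_
  · ext x
    change x ∈ (mix t (ins r μ b f) p).c ↔ x ∈ (mix t r p).c ∪ b.c
    rcases lt_or_ge x t with hx | hx
    · rw [RB3_c_lt hx, mem_union, RB3_c_lt hx]; rfl
    · rw [RB3_c_ge hx, mem_union, RB3_c_ge hx]
      exact ⟨Or.inl, fun h => h.elim id fun h => absurd (hb h) (not_lt.2 hx)⟩
  · funext x
    change (mix t (ins r μ b f) p).h x = (mix t r p).h x ∪ (setH (fp b) f b).h x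
    rcases lt_or_ge x t with hx | hx
    · rw [RB3_h_lt hx, RB3_h_lt hx]; rfl
    · rw [RB3_h_ge hx, RB3_h_ge hx]
      have h1 : x ≠ fp b := (hf.trans_le hx).ne'
      have h2 : (setH (fp b) f b).h x = ∅ := by
        simp only [setH, Function.update_of_ne h1]
        exact h0 x fun h => absurd (hb h) (not_lt.2 hx)
      rw [h2, union_empty]
  · funext x
    rcases le_or_gt x t with hx | hx
    · rw [RB3_l_le hx]
      by_cases e : x = μ
      · subst e
        simp only [ins, setL, cat, Function.update_self, RB3_l_le hx]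
      · simp only [ins, setL, cat, Function.update_of_ne e, RB3_l_le hx]
    · rw [RB3_l_gt hx]
      have e : x ≠ μ := (hμ.trans_lt hx).ne'
      have h1 : x ∉ (setH (fp b) f b).c := fun h => absurd (hb h) (not_lt.2 hx.le)
      simp only [ins, setL, cat, Function.update_of_ne e, RB3_l_gt hx, if_neg h1]

end RB3aux

namespace Ctx

variable {C : Ctx} {p q r u w b : Raw} {t β δ μ x y : Od}

theorem RB3_ord_mono (C : Ctx) (h : x ≤ y) : (C.B x).ord ≤ (C.B y).ord :=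
  Cardinal.ord_le_ord.2 (C.bf.mono h)

theorem RB3_below_right (h : C.Below t r) (ht : β ≤ t) (hw : C.Valid w) (hβ' : β ∈ w.c) :
    C.Below t (mix β w r) := by
  intro x hx i v hv
  rcases lt_or_ge x β with hb | hb
  · rw [RB3_h_lt hb] at hv
    exact (hw.bel β hβ' x hb i v hv).trans_le (C.RB3_ord_mono ht)
  · rw [RB3_h_ge hb] at hv
    exact h x hx i v hv

theorem RB3_below_cut {t' : Od} (ha : Agree t' q p) (hq : C.Below t' q) (hp : C.Below t p)
    (ht : t' ≤ t) : C.Below t q := by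
  intro x hx i v hv
  rcases lt_or_ge x t' with hb | hb
  · exact (hq x hb i v hv).trans_le (C.RB3_ord_mono ht)
  · rw [(ha.1 x hb).2] at hv
    exact hp x hx i v hv

theorem RB3_sAt_dle (hp : C.Valid p) (hq : C.Valid q) (h : Dle q p) (ha : Agree t q p) :
    sAt t q = sAt t p := by
  by_cases ht : t ∈ p.c
  · exact h.sAt_eq ht
  · have ht' : t ∉ q.c := fun h' => ht ((ha.1 t le_rfl).1.1 h')
    simp only [sAt, hp.l0 t ht, hq.l0 t ht']

theorem RB3_squeeze (h₁ : C.Le r p) (h₂ : C.Le q r) (ht : t ∈ p.c) (h : sAt t q = sAt t p) :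
    sAt t r = sAt t p := by
  rcases e : p.l t with _ | L
  · simp only [sAt, e, le_l0 h₁ ht e]
  · obtain ⟨L', e', -, -, s', -⟩ := le_l1 h₁ e
    obtain ⟨L'', e'', -, -, s'', -⟩ := le_l1 h₂ e'
    simp only [sAt, e, e', e'', Option.map_some, Option.some.injEq] at h ⊢
    exact Subset.antisymm (h ▸ s'') s'

theorem RB3_ins_mix (hr : C.Valid r) (h : C.Ins q r μ) (hμ : μ ≤ t) :
    C.Ins (mix t q p) (mix t r p) μ := by
  have hin : Inac μ := (spec_inac hr (ins_facts hr h).1).1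
  obtain ⟨L, ξ, hl, hξ, hb, rfl⟩ := h
  obtain ⟨-, h1, h2⟩ := blk_scope hb.blk hin
  have h3 : fp (C.dec ξ) < t := ((lt_add_one _).trans h1).trans_le hμ
  refine ⟨L, ξ, by rw [RB3_l_le hμ, hl], hξ, ⟨hb.blk, fun x hx hx' => ?_, fun x hx i v hv => ?_⟩,
    RB3_mix_ins hμ (h2.trans (Iio_subset_Iio hμ)) h3 hb.blk.v.h0⟩
  · exact hb.lt x ((RB3_c_lt (hx'.trans_le hμ)).1 hx) hx'
  · rw [RB3_h_lt (hx.trans h3)] at hv
    exact hb.bel x hx i v hv

theorem RB3_ins_agLo (hr : C.Valid r) (h : C.Ins q r μ) (ht : t ∈ r.c) (hμ : t < μ) :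
    AgLo t q r := by
  have hq := ins_valid' hr h
  obtain ⟨-, -, -, f1, f2, f3, f4⟩ := ins_facts hr h
  refine ⟨fun x hx => ?_, f1 t ht hμ.ne⟩
  by_cases hx' : x ∈ r.c
  · exact ⟨⟨fun _ => hx', fun _ => f3 hx'⟩, f2 x hx', f1 x hx' (hx.trans hμ).ne⟩
  · have hx'' : x ∉ q.c := fun h' => absurd ((f4 x h' hx').2 t ht hμ) (not_lt.2 hx.le)
    exact ⟨⟨fun h' => absurd h' hx'', fun h' => absurd h' hx'⟩,
      by rw [hq.h0 x hx'', hr.h0 x hx'], by rw [hq.l0 x hx'', hr.l0 x hx']⟩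

theorem RB3_path_mem (S : Prop) (hp : C.Valid p) (ht : t ∈ p.c)
    (h : Relation.ReflTransGen C.Step p q) (hs : S → sAt t q = sAt t p) :
    Relation.ReflTransGen (C.StepT t fun μ => μ ≤ t ∧ (S → μ ≠ t)) p (mix t q p) := by
  induction h with
  | refl => rw [mix_self]
  | @tail r r' h1 h2 ih =>
    have hr : C.Le r p := ⟨hp, h1⟩
    have hr' : C.Le r' r := ⟨le_valid hr, Relation.ReflTransGen.single h2⟩
    have htr : t ∈ r.c := le_c hr ht
    have hs' : S → sAt t r = sAt t p := fun s => RB3_squeeze hr hr' ht (hs s)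
    have hv : C.Valid (mix t r' p) := mix_valid h2.1 hp (le_c hr' htr) ht
    have ha : Agree t (mix t r' p) (mix t r p) := (agree_mix t r' p).trans (agree_mix t r p).symm
    have hb : C.Below t (mix t r' p) := hv.bel t ((RB3_c_ge le_rfl).2 ht)
    rcases h2.2 with hd | ⟨μ, hi⟩
    · exact (ih hs').tail ⟨hv, ha, hb, Or.inl (RB3_dle_left hd htr)⟩
    · rcases le_or_gt μ t with hμ | hμ
      · refine (ih hs').tail ⟨hv, ha, hb, Or.inr ⟨μ, ⟨hμ, fun s e => ?_⟩,
          RB3_ins_mix hr'.1 hi hμ⟩⟩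
        subst e
        exact (ins_facts hr'.1 hi).2.2.1 ((hs s).trans (hs' s).symm)
      · rw [mix_congr (RB3_ins_agLo hr'.1 hi htr hμ) (Agree.refl t p)]
        exact ih hs'

theorem RB3_path_top (hp : C.Valid p) (hq : q.c ⊆ Iio t) (hb : C.Below t q)
    (h : Relation.ReflTransGen C.Step p r) (hr : C.Le q r) :
    Relation.ReflTransGen (C.StepT t (· < t)) p r := by
  induction h with
  | refl => exact Relation.ReflTransGen.refl
  | @tail r r' h1 h2 ih =>
    have hr0 : C.Valid r := le_valid ⟨hp, h1⟩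
    have hr' : C.Le r' r := ⟨hr0, Relation.ReflTransGen.single h2⟩
    have n' : ∀ x, t ≤ x → x ∉ r'.c := fun x hx h' => absurd (hq (le_c hr h')) (not_lt.2 hx)
    have n : ∀ x, t ≤ x → x ∉ r.c := fun x hx h' => n' x hx (le_c hr' h')
    refine (ih (le_trans' hr hr')).tail ⟨h2.1, ⟨fun x hx => ⟨⟨fun h' => absurd h' (n' x hx),
      fun h' => absurd h' (n x hx)⟩, by rw [h2.1.h0 x (n' x hx), hr0.h0 x (n x hx)]⟩,
      fun x hx => by rw [h2.1.l0 x (n' x hx.le), hr0.l0 x (n x hx.le)]⟩,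
      fun x hx i v hv => hb x hx i v (le_h hr x hv), ?_⟩
    rcases h2.2 with hd | ⟨μ, hi⟩
    · exact Or.inl hd
    · refine Or.inr ⟨μ, ?_, hi⟩
      by_contra hμ
      exact n μ (not_lt.1 hμ) (spec_mem hr0 (ins_facts hr0 hi).1)

theorem RB3_stepT_mono {P Q : Od → Prop} (hPQ : ∀ μ, P μ → Q μ)
    (h : Relation.ReflTransGen (C.StepT t P) p q) : Relation.ReflTransGen (C.StepT t Q) p q := by
  induction h with
  | refl => exact Relation.ReflTransGen.refl
  | tail _ h ih =>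
    exact ih.tail ⟨h.1, h.2.1, h.2.2.1, h.2.2.2.imp id fun ⟨μ, h1, h2⟩ => ⟨μ, hPQ μ h1, h2⟩⟩

theorem RB3_stepT_leT {P : Od → Prop} (hp : C.Valid p) (h : C.StepT t P p q) : C.LeT t q p :=
  ⟨⟨hp, Relation.ReflTransGen.single ⟨h.1, h.2.2.2.imp id fun ⟨μ, _, h2⟩ => ⟨μ, h2⟩⟩⟩,
    h.2.1, h.2.2.1⟩

theorem mix_leT_right (h : C.LeT t r q) (hβ : β ∈ q.c) (ht : β ≤ t) (hw : C.Valid w)
    (hβ' : β ∈ w.c) : C.LeT t (mix β w r) (mix β w q) := by
  exact ⟨mix_le_right h.le hβ hw hβ', RB3_agree_right h.ag ht, RB3_below_right h.bel ht hw hβ'⟩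

theorem mix_leS_right (h : C.LeS t r q) (hβ : β ∈ q.c) (ht : β ≤ t) (hw : C.Valid w)
    (hβ' : β ∈ w.c) : C.LeS t (mix β w r) (mix β w q) := by
  refine ⟨mix_leT_right h.1 hβ ht hw hβ', ?_⟩
  rcases ht.lt_or_eq with ht | rfl
  · have := h.2
    simp only [sAt, RB3_l_gt ht] at this ⊢
    exact this
  · simp only [sAt, RB3_l_le le_rfl]

/-! ### Extensions below a cut -/

theorem leT_refl (h : C.Scope t p) : C.LeT t p p := by
  exact ⟨le_refl' h.v, Agree.refl t p, h.bel⟩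

theorem leT_trans (h₁ : C.LeT t r q) (h₂ : C.LeT t q p) : C.LeT t r p := by
  exact ⟨le_trans' h₁.le h₂.le, h₁.ag.trans h₂.ag, h₁.bel⟩

theorem leS_refl (h : C.Scope t p) : C.LeS t p p := by
  exact ⟨leT_refl h, rfl⟩

theorem leS_trans (h₁ : C.LeS t r q) (h₂ : C.LeS t q p) : C.LeS t r p := by
  exact ⟨leT_trans h₁.1 h₂.1, h₁.2.trans h₂.2⟩

theorem leT_scope (hp : C.Scope t p) (h : C.LeT t q p) : C.Scope t q := by
  refine ⟨le_valid h.le, h.bel, hp.cut.imp (fun ht => le_c h.le ht) fun ⟨h1, h2, h3⟩ =>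
    ⟨h1, h2, fun x hx => ?_⟩⟩
  by_contra hn
  exact hn (h3 ((h.ag.1 x (not_lt.1 hn)).1.1 hx))

/-- The scope is inherited upwards along extensions below a point. -/
theorem scope_of_leT (h : C.LeT δ q p) (ht : δ ≤ t) (hq : C.Scope t q) :
    C.Scope t p := by
  exact ⟨h.le.1, fun x hx i v hv => hq.bel x hx i v (le_h h.le x hv),
    hq.cut.imp (fun h' => (h.ag.1 t ht).1.1 h') fun ⟨h1, h2, h3⟩ =>
      ⟨h1, h2, (le_c h.le).trans h3⟩⟩

theorem leT_mono {t' : Od} (h : C.LeT t' q p) (hp' : C.Scope t' p) (hp : C.Scope t p)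
    (ht : t' ≤ t) : C.LeT t q p := by
  have _ := hp'
  exact ⟨h.le, h.ag.mono ht, RB3_below_cut h.ag h.bel hp.bel ht⟩

theorem leS_of_lt {t' : Od} (h : C.LeT t' q p) (hp' : C.Scope t' p) (hp : C.Scope t p)
    (ht : t' < t) : C.LeS t q p := by
  exact ⟨leT_mono h hp' hp ht.le, by simp only [sAt, h.ag.2 t ht]⟩

theorem leS_of_not_spec (h : C.LeT t q p) (hn : ¬ Spec p t) : C.LeS t q p := by
  refine ⟨h, ?_⟩
  have h1 : p.l t = none := by
    rcases e : p.l t with _ | L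
    · rfl
    · exact absurd ⟨L, e⟩ hn
  have h2 : q.l t = none := by
    by_cases ht : t ∈ p.c
    · exact le_l0 h.le ht h1
    · exact (le_valid h.le).l0 t fun h' => ht ((h.ag.1 t le_rfl).1.1 h')
  simp only [sAt, h1, h2]

theorem leT_of_ins (hp : C.Scope t p) (h : C.Ins q p μ) (ht : μ ≤ t) : C.LeT t q p := by
  obtain ⟨f0, f1, -, -, -, f3, -⟩ := ins_facts hp.v h
  have hμ := spec_mem hp.v f0
  exact leT_mono ⟨le_of_ins hp.v h, f1, (ins_valid' hp.v h).bel μ (f3 hμ)⟩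
    (scope_of_mem hp.v hμ) hp ht

theorem leT_iff (hp : C.Scope t p) :
    C.LeT t q p ↔ Relation.ReflTransGen (C.StepT t (· ≤ t)) p q := by
  constructor
  · intro h
    rcases hp.cut with ht | ht
    · have := RB3_path_mem False hp.v ht h.le.2 False.elim
      rw [mix_eq_left h.ag] at this
      exact RB3_stepT_mono (fun _ h => h.1) this
    · have hq : q.c ⊆ Iio t := fun x hx => by
        by_contra hn
        exact hn (ht.2.2 ((h.ag.1 x (not_lt.1 hn)).1.1 hx))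
      exact RB3_stepT_mono (fun _ h => h.le)
        (RB3_path_top hp.v hq h.bel h.le.2 (le_refl' (le_valid h.le)))
  · intro h
    induction h with
    | refl => exact leT_refl hp
    | tail _ h2 ih => exact leT_trans (RB3_stepT_leT (le_valid ih.le) h2) ih

theorem leS_iff (hp : C.Scope t p) :
    C.LeS t q p ↔ Relation.ReflTransGen (C.StepT t (· < t)) p q := by
  constructor
  · intro h
    rcases hp.cut with ht | ht
    · have := RB3_path_mem True hp.v ht h.1.le.2 fun _ => h.2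
      rw [mix_eq_left h.1.ag] at this
      exact RB3_stepT_mono (fun _ h => lt_of_le_of_ne h.1 (h.2 trivial)) this
    · have hq : q.c ⊆ Iio t := fun x hx => by
        by_contra hn
        exact hn (ht.2.2 ((h.1.ag.1 x (not_lt.1 hn)).1.1 hx))
      exact RB3_path_top hp.v hq h.1.bel h.1.le.2 (le_refl' (le_valid h.1.le))
  · intro h
    induction h with
    | refl => exact leS_refl hp
    | tail _ h2 ih =>
      have hv := le_valid ih.1.le
      refine leS_trans ⟨RB3_stepT_leT hv h2, ?_⟩ ih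
      rcases h2.2.2.2 with hd | ⟨μ, hμ, hi⟩
      · exact RB3_sAt_dle hv h2.1 hd h2.2.1
      · simp only [sAt, (ins_facts hv hi).2.1.2 t hμ]

/-- The lower part of an extension. -/
theorem low_leT (h : C.Le r p) (hβ : β ∈ p.c) : C.LeT β (mix β r p) p := by
  have := mix_le_left h hβ h.1 hβ
  rwa [mix_self] at this

theorem le_low (h : C.LeT t r p) (hβ : β ∈ p.c) (ht : β ≤ t) : C.LeT t r (mix β r p) := by
  have := mix_leT_right h hβ ht (le_valid h.le) (le_c h.le hβ)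
  rwa [mix_self] at this

theorem leS_low (h : C.LeS t r p) (hβ : β ∈ p.c) (ht : β ≤ t) : C.LeS t r (mix β r p) := by
  have := mix_leS_right h hβ ht (le_valid h.1.le) (le_c h.1.le hβ)
  rwa [mix_self] at this

/-- A common extension of two conditions extends their mixture. -/
theorem le_mix (hr : C.Scope t r) (h₁ : C.Le r q) (h₂ : C.LeT t r u) (hq : β ∈ q.c)
    (hu : β ∈ u.c) (ht : β ≤ t) : C.LeT t r (mix β q u) := by
  have h3 := mix_scope h₁.1 (scope_of_leT h₂ le_rfl hr) hq hu ht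
  exact leT_trans (le_low h₂ hu ht) (leT_mono (mix_le_left h₁ hq h₂.le.1 hu)
    (scope_of_mem h3.v ((RB3_c_ge le_rfl).2 hu)) h3 ht)

/-! ### Direct extensions -/

theorem ds_refl (h : C.Scope t p) : C.DS β t p p := by
  exact ⟨h.v, Dle.refl p, fun _ _ => ⟨Iff.rfl, rfl, rfl⟩, Agree.refl t p, h.bel⟩

theorem ds_trans (h₁ : C.DS β t r q) (h₂ : C.DS β t q p) : C.DS β t r p := by
  exact ⟨h₁.v, h₁.d.trans h₂.d, fun x hx => ⟨(h₁.lo x hx).1.trans (h₂.lo x hx).1,
    (h₁.lo x hx).2.1.trans (h₂.lo x hx).2.1, (h₁.lo x hx).2.2.trans (h₂.lo x hx).2.2⟩,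
    h₁.ag.trans h₂.ag, h₁.bel⟩

theorem dt_refl (h : C.Scope t p) : C.DT β t p p := by
  exact ⟨ds_refl h, rfl⟩

theorem dt_trans (h₁ : C.DT β t r q) (h₂ : C.DT β t q p) : C.DT β t r p := by
  exact ⟨ds_trans h₁.1 h₂.1, h₁.2.trans h₂.2⟩

theorem ds_leS (hp : C.Scope t p) (h : C.DS β t q p) : C.LeS t q p := by
  exact ⟨⟨le_of_dle hp.v h.v h.d, h.ag, h.bel⟩, RB3_sAt_dle hp.v h.v h.d h.ag⟩

theorem ds_dt {β' : Od} (h : C.DS β' t q p) (hβ : β < β') : C.DT β t q p := by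
  exact ⟨⟨h.v, h.d, fun x hx => h.lo x (hx.trans hβ), h.ag, h.bel⟩, (h.lo β hβ).2.2⟩

theorem dt_mono {β' : Od} (h : C.DT β' t q p) (hβ : β ≤ β') : C.DT β t q p := by
  rcases hβ.lt_or_eq with hβ | rfl
  · exact ds_dt h.1 hβ
  · exact h

theorem ds_cut {t' : Od} (h : C.DS β t' q p) (hp' : C.Scope t' p) (hp : C.Scope t p)
    (ht : t' ≤ t) : C.DS β t q p := by
  have _ := hp'
  exact ⟨h.v, h.d, h.lo, h.ag.mono ht, RB3_below_cut h.ag h.bel hp.bel ht⟩

theorem ds_c_eq (h : C.DS β t q p) (ht : t ∈ p.c) : q.c = p.c := by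
  refine Subset.antisymm (fun x hx => ?_) h.d.c
  by_contra hn
  exact hn ((h.ag.1 x (h.d.new x hx hn t ht).le).1.1 hx)

theorem mix_dt (h : C.DT β t r q) (hβ : β ∈ q.c) (ht : β ≤ t) (hw : C.Valid w) (hβ' : β ∈ w.c) :
    C.DT β t (mix β w r) (mix β w q) := by
  refine ⟨⟨mix_valid hw h.1.v hβ' (h.1.d.c hβ), RB3_dle_right h.1.d, fun x hx => ?_,
    RB3_agree_right h.1.ag ht, RB3_below_right h.1.bel ht hw hβ'⟩, ?_⟩
  · rw [RB3_c_lt hx, RB3_c_lt hx, RB3_h_lt hx, RB3_h_lt hx, RB3_l_le hx.le, RB3_l_le hx.le]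
    exact ⟨Iff.rfl, rfl, rfl⟩
  · rw [RB3_l_le le_rfl, RB3_l_le le_rfl]

theorem dirA_dt (h : C.LeT t r p) (hd : DirA β r p) (hβ : β ∈ p.c) (ht : β ≤ t) :
    C.DT β t (mix β p r) p := by
  exact ⟨⟨mix_valid h.le.1 (le_valid h.le) hβ (le_c h.le hβ), hd, (agLo_mix β p r).1,
    ((agree_mix β p r).mono ht).trans h.ag, RB3_below_right h.bel ht h.le.1 hβ⟩,
    (agLo_mix β p r).2⟩

theorem dirA_of_dle (h : Dle r p) (hβ : β ∈ p.c) : DirA β r p := by
  have _ := hβ
  have := RB3_dle_right (β := β) (w := p) h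
  rwa [mix_self] at this

theorem dirA_of_agree (h : Agree β r p) : DirA β r p := by
  unfold DirA
  rw [mix_eq_left h.symm]
  exact Dle.refl p

theorem dirA_trans (h : DirA β r q) (hq : Dle q p) (hβ : β ∈ p.c) : DirA β r p := by
  have := RB3_dle_right (β := β) (w := p) h
  rw [mix_mix_right] at this
  exact this.trans (dirA_of_dle hq hβ)

theorem dirA_congr (h : DirA β r q) (ha : Agree β q p) (hβ : β ∈ p.c) : DirA β r p := by
  have _ := hβ
  have := RB3_dle_right (β := β) (w := p) h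
  rwa [mix_mix_right, mix_eq_left ha.symm] at this

theorem dirA_mono (h : DirA β r p) (hβ : β ≤ δ) (hδ : δ ∈ p.c) : DirA δ r p := by
  have _ := hδ
  have := RB3_dle_right (β := δ) (w := p) h
  rwa [mix_self, mix_congr (q' := p) ⟨fun _ _ => ⟨Iff.rfl, rfl, rfl⟩, rfl⟩
    ((agree_mix β p r).mono hβ)] at this

end Ctx

end Pool.Agent.MP_85ce7b_lc
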