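import Pool.Agent.MP_85ce7b_lc.L.RB3

namespace Pool.Agent.MP_85ce7b_lc

open Set Cardinal Ordinal Dat

section RB4aux

variable {p q r u v w a e b : Raw} {t β μ ν x : Od} {f g : Lo → Lo} {k : Set (Od × Od)}

theorem RB4_setL_self : (setL μ f r).l μ = (r.l μ).map f := by
  simp [setL]

theorem RB4_setL_ne (h : x ≠ μ) : (setL μ f r).l x = r.l x := by
  simp [setL, Function.update_of_ne h]

theorem RB4_setL_none (h : r.l x = none) : (setL μ f r).l x = none := by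
  by_cases h1 : x = μ
  · subst h1
    rw [RB4_setL_self, h]
    rfl
  · rw [RB4_setL_ne h1, h]

theorem RB4_setL_id : setL μ id r = r := by
  refine Raw.ext rfl rfl (funext fun x => ?_)
  by_cases h1 : x = μ
  · subst h1
    rw [RB4_setL_self, Option.map_id]
    rfl
  · rw [RB4_setL_ne h1]

theorem RB4_agS_refl (β : Od) (p : Raw) : AgS β p p := fun _ _ => ⟨Iff.rfl, rfl, rfl⟩

theorem RB4_agS_symm (h : AgS β q p) : AgS β p q :=
  fun x hx => ⟨(h x hx).1.symm, (h x hx).2.1.symm, (h x hx).2.2.symm⟩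

theorem RB4_agS_trans (h₁ : AgS β r q) (h₂ : AgS β q p) : AgS β r p :=
  fun x hx => ⟨(h₁ x hx).1.trans (h₂ x hx).1, (h₁ x hx).2.1.trans (h₂ x hx).2.1,
    (h₁ x hx).2.2.trans (h₂ x hx).2.2⟩

theorem RB4_setL_agS (μ : Od) (f : Lo → Lo) (r : Raw) : AgS μ (setL μ f r) r :=
  fun _ hx => ⟨Iff.rfl, rfl, RB4_setL_ne hx.ne⟩

theorem RB4_setL_agree (μ : Od) (f : Lo → Lo) (r : Raw) : Agree μ (setL μ f r) r :=
  ⟨fun _ _ => ⟨Iff.rfl, rfl⟩, fun _ hx => RB4_setL_ne hx.ne'⟩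

theorem RB4_gl_l (μ : Od) (r u : Raw) : (gl μ r u).l μ =
    (r.l μ).map fun L => ⟨((u.l μ).getD L).A, ((u.l μ).getD L).F, L.s⟩ := by
  unfold gl
  rw [RB4_setL_self, rb2_l_le le_rfl]

theorem RB4_dle_setL {L L' : Lo} (h : Dle e a) (ha : a.l μ = some L) (he : e.l μ = some L')
    (hA : (g L').A ⊆ (f L).A) (hF : ∀ ξ ∈ (g L').A, sec (f L).F ξ ⊆ sec (g L').F ξ)
    (hs : (g L').s = (f L).s) : Dle (setL μ g e) (setL μ f a) := by
  refine ⟨h.c, h.new, h.h, fun x hx hl => ?_, fun x L0 hl => ?_⟩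
  · by_cases h1 : x = μ
    · subst h1
      rw [RB4_setL_self, ha] at hl
      cases hl
    · rw [RB4_setL_ne h1] at hl ⊢
      exact h.l0 x hx hl
  · by_cases h1 : x = μ
    · subst h1
      rw [RB4_setL_self, ha] at hl
      obtain rfl : f L = L0 := Option.some.inj hl
      exact ⟨g L', by rw [RB4_setL_self, he]; rfl, hA, hF, hs⟩
    · rw [RB4_setL_ne h1] at hl ⊢
      exact h.l1 x L0 hl

theorem RB4_setL_ins (hμ : μ ∉ b.c) (hν : ν ∉ b.c)
    (hg : ∀ (L : Lo) z, g ⟨L.A, L.F, insert z L.s⟩ = ⟨(g L).A, (g L).F, insert z (g L).s⟩) :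
    setL μ g (ins a ν b k) = ins (setL μ g a) ν b k := by
  refine Raw.ext rfl rfl (funext fun x => ?_)
  by_cases h1 : x = μ
  · subst h1
    rw [RB4_setL_self]
    by_cases h2 : x = ν
    · subst h2
      rw [rb2_ins_l_self hμ, rb2_ins_l_self hμ, RB4_setL_self]
      rcases a.l x with _ | L
      · rfl
      · simp only [Option.map_some, hg]
    · rw [rb2_ins_l_nmem h2 hμ, rb2_ins_l_nmem h2 hμ, RB4_setL_self]
  · rw [RB4_setL_ne h1]
    exact rb2_ins_l_congr hν (RB4_setL_ne h1).symm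

theorem RB4_dle_ins {k' : Set (Od × Od)} (h : k ⊆ k') : Dle (ins a ν b k') (ins a ν b k) := by
  refine ⟨subset_rfl, fun x hx hn => absurd hx hn, fun x => ?_, fun x _ hl => hl,
    fun x L hl => ⟨L, hl, subset_rfl, fun _ _ => subset_rfl, rfl⟩⟩
  rw [rb2_ins_h, rb2_ins_h]
  refine union_subset_union_right _ ?_
  by_cases h1 : x = fp b
  · subst h1
    simpa only [setH, Function.update_self] using h
  · rw [rb2_setH h1, rb2_setH h1]

theorem RB4_res_c : x ∈ (res μ r).c ↔ x ∈ r.c ∧ x < μ := Iff.rfl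

theorem RB4_res_h_lt (h : x < μ) : (res μ r).h x = r.h x := by simp [res, h]

theorem RB4_res_h_ge (h : μ ≤ x) : (res μ r).h x = ∅ := by simp [res, not_lt.2 h]

theorem RB4_res_l_lt (h : x < μ) : (res μ r).l x = r.l x := by simp [res, h]

theorem RB4_res_l_ge (h : μ ≤ x) : (res μ r).l x = none := by simp [res, not_lt.2 h]

theorem RB4_res_h_sub (x : Od) : (res μ r).h x ⊆ r.h x := by
  rcases lt_or_ge x μ with h | h
  · rw [RB4_res_h_lt h]
  · rw [RB4_res_h_ge h]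
    exact empty_subset _

theorem RB4_res_l_some {L : Lo} (h : (res μ r).l x = some L) : x < μ ∧ r.l x = some L := by
  rcases lt_or_ge x μ with h1 | h1
  · exact ⟨h1, by rwa [RB4_res_l_lt h1] at h⟩
  · rw [RB4_res_l_ge h1] at h
    cases h

theorem RB4_res_l_none (h : r.l x = none) : (res μ r).l x = none := by
  rcases lt_or_ge x μ with h1 | h1
  · rwa [RB4_res_l_lt h1]
  · exact RB4_res_l_ge h1

theorem RB4_res_agree (μ : Od) (a e : Raw) : Agree μ (res μ a) (res μ e) :=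
  ⟨fun _ hx => ⟨⟨fun h => absurd h.2 (not_lt.2 hx), fun h => absurd h.2 (not_lt.2 hx)⟩,
    by rw [RB4_res_h_ge hx, RB4_res_h_ge hx]⟩,
    fun _ hx => by rw [RB4_res_l_ge hx.le, RB4_res_l_ge hx.le]⟩

theorem RB4_res_congr (h : AgS μ w u) : res μ w = res μ u := by
  refine eq_of_agLo_agree (β := μ) ⟨fun x hx => ?_, ?_⟩ (RB4_res_agree μ w u)
  · rw [RB4_res_c, RB4_res_c, RB4_res_h_lt hx, RB4_res_h_lt hx, RB4_res_l_lt hx, RB4_res_l_lt hx,
      (h x hx).1]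
    exact ⟨Iff.rfl, (h x hx).2⟩
  · rw [RB4_res_l_ge le_rfl, RB4_res_l_ge le_rfl]

theorem RB4_res_dle (h : Dle e a) : Dle (res μ e) (res μ a) := by
  refine ⟨fun x hx => ⟨h.c hx.1, hx.2⟩, fun x hx hn y hy => ?_, fun x => ?_, fun x hx hl => ?_,
    fun x L hl => ?_⟩
  · exact h.new x hx.1 (fun h' => hn ⟨h', hx.2⟩) y hy.1
  · rcases lt_or_ge x μ with h1 | h1
    · rw [RB4_res_h_lt h1, RB4_res_h_lt h1]
      exact h.h x
    · rw [RB4_res_h_ge h1, RB4_res_h_ge h1]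
  · rw [RB4_res_l_lt hx.2] at hl
    exact RB4_res_l_none (h.l0 x hx.1 hl)
  · obtain ⟨h1, h2⟩ := RB4_res_l_some hl
    rw [RB4_res_l_lt h1]
    exact h.l1 x L h2

theorem RB4_res_ins (hν : ν < μ) (hb : ∀ x ∈ b.c, x < ν) (hf : fp b ∈ b.c)
    (h0 : ∀ x, x ∉ b.c → b.h x = ∅) : res μ (ins a ν b k) = ins (res μ a) ν b k := by
  have hn : ∀ x, μ ≤ x → x ∉ b.c := fun x hx h => ((hb x h).trans hν).not_ge hx
  have hm : ν ∉ b.c := fun h => lt_irrefl _ (hb ν h)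
  refine Raw.ext (Set.ext fun x => ?_) (funext fun x => ?_) (funext fun x => ?_)
  · rw [RB4_res_c, rb2_ins_c, rb2_ins_c, RB4_res_c]
    exact ⟨fun h => h.1.imp (fun h' => ⟨h', h.2⟩) id,
      fun h => h.elim (fun h' => ⟨Or.inl h'.1, h'.2⟩) fun h' => ⟨Or.inr h', (hb x h').trans hν⟩⟩
  · rcases lt_or_ge x μ with h1 | h1
    · rw [RB4_res_h_lt h1, rb2_ins_h, rb2_ins_h, RB4_res_h_lt h1]
    · rw [RB4_res_h_ge h1, rb2_ins_h, RB4_res_h_ge h1,
        rb2_setH (fun h : x = fp b => hn x h1 (h ▸ hf)), h0 x (hn x h1), union_empty]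
  · rcases lt_or_ge x μ with h1 | h1
    · rw [RB4_res_l_lt h1]
      exact rb2_ins_l_congr hm (RB4_res_l_lt h1).symm
    · rw [RB4_res_l_ge h1, rb2_ins_l_nmem (hν.trans_le h1).ne' (hn x h1), RB4_res_l_ge h1]

theorem RB4_stem_l0 : (stem μ r).l 0 = (sAt μ r).map fun s => ⟨∅, ∅, s⟩ := by
  simp only [stem, Function.update_self, sAt, Option.map_map]
  rfl

theorem RB4_stem_l_ne (h : x ≠ 0) : (stem μ r).l x = (res μ r).l x := by
  simp only [stem, Function.update_of_ne h]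

theorem RB4_gl_congr {r' : Raw} (h : AgS μ r r') (hs : sAt μ r = sAt μ r') (hu : Spec u μ) :
    gl μ r u = gl μ r' u := by
  obtain ⟨L', hL'⟩ := hu
  have e1 : ∀ r : Raw, AgS μ (gl μ r u) r := fun r =>
    RB4_agS_trans (RB4_setL_agS _ _ _) (agLo_mix μ r u).1
  have e2 : ∀ r : Raw, Agree μ (gl μ r u) u := fun r =>
    (RB4_setL_agree _ _ _).trans (agree_mix μ r u)
  have e3 : ∀ r : Raw, (gl μ r u).l μ = (sAt μ r).map fun s => ⟨L'.A, L'.F, s⟩ := fun r => by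
    rw [RB4_gl_l, hL', sAt, Option.map_map]
    rfl
  refine eq_of_agLo_agree (β := μ) ⟨RB4_agS_trans (e1 r) (RB4_agS_trans h (RB4_agS_symm (e1 r'))),
    ?_⟩ ((e2 r).trans (e2 r').symm)
  rw [e3, e3, hs]

theorem RB4_cutA_l (D : Dat) {m : Od} {L : Lo} (h : r.l μ = some L) :
    (D.cutA μ m r).l μ = some ⟨L.A ∩ {ξ | m < fp (D.dec ξ)}, L.F, L.s⟩ := by
  unfold Dat.cutA
  rw [RB4_setL_self, h]
  rfl

theorem RB4_cutA_sAt (D : Dat) (μ m : Od) (r : Raw) : sAt μ (D.cutA μ m r) = sAt μ r := by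
  unfold Dat.cutA sAt
  rw [RB4_setL_self, Option.map_map]
  rfl

theorem RB4_gl_dle (h : Dle e a) (hμ : μ ∈ a.c) (ha : Spec a μ) (hv : Spec v μ) :
    Dle (gl μ e v) (gl μ a v) := by
  obtain ⟨L, hL⟩ := ha
  obtain ⟨Lv, hv⟩ := hv
  obtain ⟨L', h1, -, -, h2⟩ := h.l1 μ L hL
  refine RB4_dle_setL (rb2_dle_left h hμ) ((rb2_l_le le_rfl).trans hL)
    ((rb2_l_le le_rfl).trans h1) ?_ ?_ h2
  · simp only [hv, Option.getD_some]
    exact subset_rfl
  · simp only [hv, Option.getD_some]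
    exact fun _ _ => subset_rfl

theorem RB4_gl_ins (hν : ν ≤ μ) (hb : ∀ x ∈ b.c, x < ν) (hf : fp b ∈ b.c)
    (h0 : ∀ x, x ∉ b.c → b.h x = ∅) : gl μ (ins a ν b k) v = ins (gl μ a v) ν b k := by
  unfold gl
  rw [rb2_mix_ins_left hν hb hf h0]
  refine RB4_setL_ins (fun h => (hb μ h).not_ge hν) (fun h => lt_irrefl _ (hb ν h)) fun L z => ?_
  rcases v.l μ with _ | L' <;> rfl

theorem RB4_stem_congr (h : AgS μ w u) (hs : sAt μ w = sAt μ u) : stem μ w = stem μ u := by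
  have e := RB4_res_congr h
  refine Raw.ext ?_ ?_ (funext fun x => ?_)
  · change (res μ w).c = (res μ u).c
    rw [e]
  · change (res μ w).h = (res μ u).h
    rw [e]
  · by_cases h0 : x = 0
    · rw [h0, RB4_stem_l0, RB4_stem_l0, hs]
    · rw [RB4_stem_l_ne h0, RB4_stem_l_ne h0, e]

end RB4aux

theorem gl_l {μ : Od} {r u : Raw} {L L' : Lo} (h₁ : r.l μ = some L) (h₂ : u.l μ = some L') :
    (gl μ r u).l μ = some ⟨L'.A, L'.F, L.s⟩ := by
  rw [RB4_gl_l, h₁, h₂]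
  rfl

theorem gl_agS (μ : Od) (r u : Raw) : AgS μ (gl μ r u) r := by
  exact RB4_agS_trans (RB4_setL_agS _ _ _) (agLo_mix μ r u).1

theorem gl_agree (μ : Od) (r u : Raw) : Agree μ (gl μ r u) u := by
  exact (RB4_setL_agree _ _ _).trans (agree_mix μ r u)

theorem gl_sAt (μ : Od) (r u : Raw) : sAt μ (gl μ r u) = sAt μ r := by
  rw [sAt, RB4_gl_l, Option.map_map]
  rfl

theorem gl_self (μ : Od) (r : Raw) : gl μ r r = r := by
  refine eq_of_agLo_agree (β := μ) ⟨gl_agS μ r r, ?_⟩ (gl_agree μ r r)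
  rw [RB4_gl_l]
  rcases r.l μ with _ | L <;> rfl

theorem gl_gl_left {μ : Od} {u : Raw} (r v : Raw) (hu : Spec u μ) :
    gl μ (gl μ r v) u = gl μ r u := by
  exact RB4_gl_congr (gl_agS μ r v) (gl_sAt μ r v) hu

theorem gl_gl_right {μ : Od} {v u : Raw} (r : Raw) (hv : Spec v μ) (hu : Spec u μ) :
    gl μ r (gl μ v u) = gl μ r u := by
  obtain ⟨Lv, hv⟩ := hv
  obtain ⟨Lu, hu⟩ := hu
  refine eq_of_agLo_agree (β := μ)
    ⟨RB4_agS_trans (gl_agS _ _ _) (RB4_agS_symm (gl_agS _ _ _)), ?_⟩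
    (((gl_agree _ _ _).trans (gl_agree _ _ _)).trans (gl_agree _ _ _).symm)
  rw [RB4_gl_l μ r (gl μ v u), gl_l hv hu, RB4_gl_l μ r u, hu]
  rfl

theorem gl_mix {δ μ : Od} (q r v : Raw) (h : δ < μ) :
    gl μ (mix δ q r) v = mix δ q (gl μ r v) := by
  refine eq_of_agLo_agree (β := μ) ⟨RB4_agS_trans (gl_agS _ _ _) fun x hx => ?_, ?_⟩
    ((gl_agree _ _ _).trans (((agree_mix δ q _).mono h.le).trans (gl_agree _ _ _)).symm)
  · obtain ⟨e1, e2, e3⟩ := gl_agS μ r v x hx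
    refine ⟨?_, ?_, ?_⟩
    · rcases lt_or_ge x δ with h1 | h1
      · rw [rb2_c_lt h1, rb2_c_lt h1]
      · rw [rb2_c_ge h1, rb2_c_ge h1, e1]
    · rcases lt_or_ge x δ with h1 | h1
      · rw [rb2_h_lt h1, rb2_h_lt h1]
      · rw [rb2_h_ge h1, rb2_h_ge h1, e2]
    · rcases le_or_gt x δ with h1 | h1
      · rw [rb2_l_le h1, rb2_l_le h1]
      · rw [rb2_l_gt h1, rb2_l_gt h1, e3]
  · rw [RB4_gl_l, rb2_l_gt h, rb2_l_gt h, RB4_gl_l]

theorem stem_gl (μ : Od) (r u : Raw) : stem μ (gl μ r u) = stem μ r := by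
  exact RB4_stem_congr (gl_agS μ r u) (gl_sAt μ r u)

theorem stem_cutA (D : Dat) (μ m : Od) (r : Raw) : stem μ (D.cutA μ m r) = stem μ r := by
  exact RB4_stem_congr (RB4_setL_agS _ _ _) (RB4_cutA_sAt D μ m r)

theorem stem_of_agS {μ : Od} {w u : Raw} (h : AgS μ w u) (hs : sAt μ w = sAt μ u) :
    stem μ w = stem μ u := by
  exact RB4_stem_congr h hs

theorem spec_gl {μ : Od} {r : Raw} (u : Raw) (h : Spec r μ) : Spec (gl μ r u) μ := by
  obtain ⟨L, hL⟩ := h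
  exact ⟨_, by rw [RB4_gl_l, hL]; rfl⟩

theorem spec_cutA (D : Dat) {μ m : Od} {r : Raw} (h : Spec r μ) : Spec (D.cutA μ m r) μ := by
  obtain ⟨L, hL⟩ := h
  exact ⟨_, RB4_cutA_l D hL⟩

theorem res_mix {δ μ : Od} (q r : Raw) (h : δ < μ) : res μ (mix δ q r) = mix δ q (res μ r) := by
  refine Raw.ext (Set.ext fun x => ?_) (funext fun x => ?_) (funext fun x => ?_)
  · rw [RB4_res_c]
    rcases lt_or_ge x δ with h1 | h1
    · rw [rb2_c_lt h1, rb2_c_lt h1, and_iff_left (h1.trans h)]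
    · rw [rb2_c_ge h1, rb2_c_ge h1, RB4_res_c]
  · rcases lt_or_ge x δ with h1 | h1
    · rw [RB4_res_h_lt (h1.trans h), rb2_h_lt h1, rb2_h_lt h1]
    · rw [rb2_h_ge h1]
      rcases lt_or_ge x μ with h2 | h2
      · rw [RB4_res_h_lt h2, RB4_res_h_lt h2, rb2_h_ge h1]
      · rw [RB4_res_h_ge h2, RB4_res_h_ge h2]
  · rcases le_or_gt x δ with h1 | h1
    · rw [RB4_res_l_lt (h1.trans_lt h), rb2_l_le h1, rb2_l_le h1]
    · rw [rb2_l_gt h1]
      rcases lt_or_ge x μ with h2 | h2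
      · rw [RB4_res_l_lt h2, RB4_res_l_lt h2, rb2_l_gt h1]
      · rw [RB4_res_l_ge h2, RB4_res_l_ge h2]

theorem agS_res (μ : Od) (r : Raw) : AgS μ (res μ r) r := by
  exact fun x hx => ⟨and_iff_left hx, RB4_res_h_lt hx, RB4_res_l_lt hx⟩

namespace Ctx

variable {C : Ctx} {p q r r' u u' v w w' b : Raw} {t β δ μ m η : Od}

theorem RB4_setL_valid {f : Lo → Lo} (hr : C.Valid r)
    (hf : ∀ L, r.l μ = some L → C.LV r.c μ (f L)) : C.Valid (setL μ f r) := by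
  refine ⟨hr.ne, hr.bd, hr.cl, hr.h0, fun x hx => RB4_setL_none (hr.l0 x hx), hr.col, hr.vs,
    hr.bel, fun x hx => RB4_setL_none (hr.lim x hx), fun x hx hi => ?_, fun ν L hl => ?_⟩
  · obtain ⟨⟨y, g1, g2⟩, g3⟩ := hr.eas x hx hi
    exact ⟨⟨y, g1, fun z hy hz => ⟨(g2 z hy hz).1, RB4_setL_none (g2 z hy hz).2⟩⟩, g3⟩
  · by_cases h1 : ν = μ
    · subst h1
      rw [RB4_setL_self] at hl
      obtain ⟨L0, h2, rfl⟩ := Option.map_eq_some_iff.1 hl
      exact hf L0 h2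
    · rw [RB4_setL_ne h1] at hl
      exact hr.sp ν L hl

theorem RB4_l_zero (hr : C.Valid r) : r.l 0 = none := by
  rcases hl : r.l 0 with _ | L
  · rfl
  · obtain ⟨y, -, hy⟩ := (hr.sp 0 L hl).pre
    exact absurd hy (not_lt.2 zero_le)

theorem RB4_setL_Ins {a e : Raw} {ν : Od} {g : Lo → Lo} (h : C.Ins e a ν) (hν : ν < μ)
    (hg : ∀ (L : Lo) z, g ⟨L.A, L.F, insert z L.s⟩ = ⟨(g L).A, (g L).F, insert z (g L).s⟩) :
    C.Ins (setL μ g e) (setL μ g a) ν := by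
  obtain ⟨L, ξ, g1, g2, g3, rfl⟩ := h
  refine ⟨L, ξ, (RB4_setL_ne hν.ne).trans g1, g2, ⟨g3.blk, g3.lt, g3.bel⟩, ?_⟩
  exact RB4_setL_ins (fun h => (rb2_bdd g3.blk.bdd h).not_gt hν)
    (fun h => lt_irrefl _ (rb2_bdd g3.blk.bdd h)) hg

theorem RB4_gl_Ins {a e : Raw} {ν : Od} (ha : C.Valid a) (h : C.Ins e a ν) (hν : ν < μ) :
    C.Ins (gl μ e v) (gl μ a v) ν := by
  refine RB4_setL_Ins (RB3_ins_mix ha h hν.le) hν fun L z => ?_
  rcases v.l μ with _ | L' <;> rfl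

theorem RB4_res_valid (hr : C.Valid r) (h : Spec r μ) : C.Valid (res μ r) := by
  obtain ⟨m, hm, hmμ, hmax⟩ := spec_max_below hr h
  have hlim : ∀ x, LimP (res μ r).c x → LimP r.c x := fun x hx =>
    ⟨hx.1, fun y hy => let ⟨z, hz, h1⟩ := hx.2 y hy; ⟨z, hz.1, h1⟩⟩
  have hh : ∀ x, r.h x = ∅ → (res μ r).h x = ∅ := fun x hx =>
    subset_eq_empty (RB4_res_h_sub x) hx
  refine ⟨⟨m, hm, hmμ⟩, hr.bd.mono inter_subset_left, fun x hx => ⟨hr.cl x (hlim x hx), ?_⟩,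
    fun x hx => ?_, fun x hx => ?_, fun x => ?_, fun i v hv => hr.vs i v (RB4_res_h_sub _ hv),
    fun y hy x hx i v hv => hr.bel y hy.1 x hx i v (RB4_res_h_sub _ hv),
    fun x hx => RB4_res_l_none (hr.lim x (hlim x hx)), fun x hx hi => ?_, fun ν L hl => ?_⟩
  · by_contra hn
    obtain ⟨z, hz, h1, -⟩ := hx.2 m (hmμ.trans_le (not_lt.1 hn))
    exact (hmax z hz.1 hz.2).not_gt h1
  · rcases lt_or_ge x μ with h1 | h1
    · exact hh x (hr.h0 x fun h' => hx ⟨h', h1⟩)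
    · exact RB4_res_h_ge h1
  · rcases lt_or_ge x μ with h1 | h1
    · exact RB4_res_l_none (hr.l0 x fun h' => hx ⟨h', h1⟩)
    · exact RB4_res_l_ge h1
  · have g := hr.col x
    exact ⟨fun i v v' h1 h2 => g.fn i v v' (RB4_res_h_sub _ h1) (RB4_res_h_sub _ h2),
      fun i v h1 => g.dom i v (RB4_res_h_sub _ h1),
      (Cardinal.mk_le_mk_of_subset (RB4_res_h_sub x)).trans g.card⟩
  · obtain ⟨⟨y, g1, g2⟩, g3⟩ := hr.eas x (hlim x hx) hi
    exact ⟨⟨y, g1, fun z hy hz => ⟨hh z (g2 z hy hz).1, RB4_res_l_none (g2 z hy hz).2⟩⟩, g3⟩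
  · obtain ⟨h1, h2⟩ := RB4_res_l_some hl
    have g := hr.sp ν L h2
    refine ⟨g.sp, g.gt, ?_, g.A, g.Alt, g.Fb, g.F, g.fin, fun z hz => ?_⟩
    · obtain ⟨y, g1, g2⟩ := g.pre
      exact ⟨y, ⟨g1, g2.trans h1⟩, g2⟩
    · obtain ⟨y, g1, g2, g3⟩ := g.s z hz
      exact ⟨y, ⟨g1, g3.trans h1⟩, g2, g3⟩

theorem RB4_stem_bdd (hr : C.Valid r) (h : Spec r μ) (hb : Bdd η (res μ r)) :
    Bdd η (stem μ r) := by
  obtain ⟨a, ha, h1, h2, h3⟩ := hb
  refine ⟨a, ha, h1, h2, fun x L hl => ?_⟩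
  by_cases hx : x = 0
  · subst hx
    obtain ⟨L0, hL0⟩ := h
    have g := hr.sp μ L0 hL0
    rw [RB4_stem_l0, sAt, hL0] at hl
    obtain rfl : (⟨∅, ∅, L0.s⟩ : Lo) = L := Option.some.inj hl
    refine ⟨?_, empty_subset _, empty_subset _, fun z hz => ?_⟩
    · obtain ⟨y, g1, g2⟩ := g.pre
      exact lt_of_le_of_lt zero_le (h1 ⟨g1, g2⟩)
    · obtain ⟨y, g1, g2, g3⟩ := g.s z hz
      exact lt_of_le_of_lt g2 (h1 ⟨g1, g3⟩)
  · rw [RB4_stem_l_ne hx] at hl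
    exact h3 x L hl

theorem RB4_cutA_valid (hu : C.Valid u) (hm : m < μ) : C.Valid (C.cutA μ m u) := by
  refine RB4_setL_valid hu fun L hL => ?_
  have g := hu.sp μ L hL
  refine ⟨g.sp, g.gt, g.pre, ?_, inter_subset_left.trans g.Alt, g.Fb, fun ξ hξ => g.F ξ hξ.1,
    g.fin, g.s⟩
  exact Filter.inter_mem g.A
    (Filter.mem_of_superset ((C.good μ g.sp).w0 m hm) fun ξ hξ => hξ.2.2)

theorem RB4_cutA_dle {a e : Raw} (h : Dle e a) (ha : Spec a μ) :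
    Dle (C.cutA μ m e) (C.cutA μ m a) := by
  obtain ⟨L, hL⟩ := ha
  obtain ⟨L', h1, h2, h3, h4⟩ := h.l1 μ L hL
  exact RB4_dle_setL h hL h1 (inter_subset_inter_left _ h2) (fun ξ hξ => h3 ξ hξ.1) h4

theorem agS_of_stem (hw : C.Valid w) (hu : C.Valid u) (h : stem μ w = stem μ u) :
    AgS μ w u ∧ sAt μ w = sAt μ u := by
  refine ⟨fun x hx => ⟨?_, ?_, ?_⟩, ?_⟩
  · have e : x ∈ (res μ w).c ↔ x ∈ (res μ u).c := by
      change x ∈ (stem μ w).c ↔ x ∈ (stem μ u).c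
      rw [h]
    rwa [RB4_res_c, RB4_res_c, and_iff_left hx, and_iff_left hx] at e
  · have e : (res μ w).h x = (res μ u).h x := by
      change (stem μ w).h x = (stem μ u).h x
      rw [h]
    rwa [RB4_res_h_lt hx, RB4_res_h_lt hx] at e
  · by_cases h0 : x = 0
    · rw [h0, RB4_l_zero hw, RB4_l_zero hu]
    · have e : (stem μ w).l x = (stem μ u).l x := by rw [h]
      rwa [RB4_stem_l_ne h0, RB4_stem_l_ne h0, RB4_res_l_lt hx, RB4_res_l_lt hx] at e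
  · have e : (stem μ w).l 0 = (stem μ u).l 0 := by rw [h]
    rw [RB4_stem_l0, RB4_stem_l0] at e
    exact Option.map_injective (fun s s' hs => congrArg Lo.s hs) e

theorem gl_congr_stem (hr : C.Valid r) (hr' : C.Valid r') (h : stem μ r = stem μ r')
    (hu : Spec u μ) : gl μ r u = gl μ r' u := by
  exact RB4_gl_congr (agS_of_stem hr hr' h).1 (agS_of_stem hr hr' h).2 hu

theorem gl_valid (hr : C.Valid r) (hu : C.Valid u) (h₁ : Spec r μ) (h₂ : Spec u μ) :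
    C.Valid (gl μ r u) := by
  have hm := mix_valid hr hu (spec_mem hr h₁) (spec_mem hu h₂)
  obtain ⟨L', hL'⟩ := h₂
  refine RB4_setL_valid hm fun L hL => ?_
  have g := hm.sp μ L hL
  have g' := hu.sp μ L' hL'
  simp only [hL', Option.getD_some]
  exact ⟨g.sp, g.gt, g.pre, g'.A, g'.Alt, g'.Fb, g'.F, g.fin, g.s⟩

theorem gl_scope (hr : C.Valid r) (hu : C.Scope t u) (h₁ : Spec r μ) (h₂ : Spec u μ)
    (ht : μ ≤ t) : C.Scope t (gl μ r u) := by
  have hm := mix_scope hr hu (spec_mem hr h₁) (spec_mem hu.v h₂) ht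
  exact ⟨gl_valid hr hu.v h₁ h₂, hm.bel, hm.cut⟩

theorem res_scope (hr : C.Valid r) (h : Spec r μ) :
    C.Scope μ (res μ r) ∧ μ ∉ (res μ r).c ∧ Bdd μ (res μ r) := by
  have hv := RB4_res_valid hr h
  obtain ⟨h1, h2, -⟩ := spec_inac hr h
  have hb : C.Below μ (res μ r) := fun x hx i v hv =>
    hr.bel μ (spec_mem hr h) x hx i v (RB4_res_h_sub _ hv)
  exact ⟨⟨hv, hb, Or.inr ⟨h1, h2, inter_subset_right⟩⟩, fun h' => lt_irrefl μ h'.2,
    bdd_of_below hv h1 inter_subset_right hb⟩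

theorem res_le (h : C.Le r' r) (hμ : Spec r μ) : C.LeT μ (res μ r') (res μ r) := by
  have hsp : ∀ a, C.Le a r → Spec a μ := fun a ha => (le_spec_iff ha (spec_mem h.1 hμ)).2 hμ
  refine ⟨?_, RB4_res_agree μ r' r, (res_scope (le_valid h) (hsp r' h)).1.bel⟩
  refine rb2_ind (P := fun a => C.Le (res μ a) (res μ r)) h
    (le_refl' (RB4_res_valid h.1 hμ)) ?_ ?_
  · intro a e ha hv he ih hd
    exact le_trans' (le_of_dle (le_valid ih)
      (RB4_res_valid he (hsp e (le_trans' (le_of_dle hv he hd) ha))) (RB4_res_dle hd)) ih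
  · intro a e ν ha hv he ih hi
    have hle := le_of_ins hv hi
    rcases lt_or_ge ν μ with h1 | h1
    · refine le_trans' (le_of_ins (μ := ν) (le_valid ih) ?_) ih
      obtain ⟨L, ξ, g1, g2, g3, rfl⟩ := hi
      exact ⟨L, ξ, (RB4_res_l_lt h1).trans g1, g2, ⟨g3.blk, fun x hx hxν => g3.lt x hx.1 hxν,
        fun x hx i v hv => g3.bel x hx i v (RB4_res_h_sub _ hv)⟩,
        RB4_res_ins h1 (fun x hx => rb2_bdd g3.blk.bdd hx) (fp_mem g3.blk.v).1 g3.blk.v.h0⟩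
    · refine le_trans' (le_of_dle (le_valid ih) (RB4_res_valid he (hsp e (le_trans' hle ha))) ?_) ih
      obtain ⟨-, -, -, f1, -, f3, f4⟩ := ins_facts hv hi
      refine ⟨fun x hx => ⟨f3 hx.1, hx.2⟩, fun x hx hn y hy => ?_, fun x => ?_,
        fun x hx hl => ?_, fun x L hl => ?_⟩
      · exact (f4 x hx.1 fun h' => hn ⟨h', hx.2⟩).2 y hy.1 (lt_of_lt_of_le hy.2 h1)
      · rcases lt_or_ge x μ with h2 | h2
        · rw [RB4_res_h_lt h2, RB4_res_h_lt h2]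
          exact le_h hle x
        · rw [RB4_res_h_ge h2, RB4_res_h_ge h2]
      · rw [RB4_res_l_lt hx.2] at hl
        exact RB4_res_l_none (le_l0 hle hx.1 hl)
      · obtain ⟨h2, h3⟩ := RB4_res_l_some hl
        refine ⟨L, ?_, subset_rfl, fun _ _ => subset_rfl, rfl⟩
        rw [RB4_res_l_lt h2, f1 x (spec_mem hv ⟨L, h3⟩) (h2.trans_le h1).ne, h3]

theorem le_res (hr : C.Scope t r) (ht : t ∉ r.c) (hμ : Spec r μ) : C.LeT t r (res μ r) := by
  have hv := RB4_res_valid hr.v hμ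
  have hc : ∀ x, t ≤ x → x ∉ r.c := fun x hx h' =>
    (not_lt.2 hx) ((hr.cut.resolve_left ht).2.2 h')
  have hc' : ∀ x, t ≤ x → x ∉ (res μ r).c := fun x hx h' => hc x hx h'.1
  refine ⟨le_of_dle hv hr.v ⟨inter_subset_left, fun x hx hn y hy => ?_, RB4_res_h_sub,
    fun x hx hl => ?_, fun x L hl => ?_⟩, ⟨fun x hx => ⟨⟨fun h' => absurd h' (hc x hx),
    fun h' => h'.1⟩, ?_⟩, fun x hx => ?_⟩, hr.bel⟩
  · exact lt_of_lt_of_le hy.2 (not_lt.1 fun h' => hn ⟨hx, h'⟩)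
  · rwa [RB4_res_l_lt hx.2] at hl
  · exact ⟨L, (RB4_res_l_some hl).2, subset_rfl, fun _ _ => subset_rfl, rfl⟩
  · rw [hr.v.h0 x (hc x hx), hv.h0 x (hc' x hx)]
  · rw [hr.v.l0 x (hc x hx.le), hv.l0 x (hc' x hx.le)]

theorem stem_bdd (hr : C.Valid r) (h : Spec r μ) : Bdd μ (stem μ r) := by
  exact RB4_stem_bdd hr h (res_scope hr h).2.2

theorem stem_bdd_insb (hr : C.Valid r) (h : Spec r μ) (hb : C.Insb r μ b) :
    Bdd (fp b) (stem μ r) := by
  exact RB4_stem_bdd hr h (bdd_of_below (RB4_res_valid hr h) hb.blk.inac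
    (fun x hx => hb.lt x hx.1 hx.2) fun x hx i v hv => hb.bel x hx i v (RB4_res_h_sub _ hv))

theorem stem_bdd_mono (h : C.Le r' r) (hμ : Spec r μ) (hb : Bdd η (stem μ r')) :
    Bdd η (stem μ r) := by
  obtain ⟨a, ha, h1, h2, -⟩ := hb
  have hle := (res_le h hμ).le
  have hc : (res μ r).c ⊆ Iio a := (le_c hle).trans h1
  refine RB4_stem_bdd h.1 hμ ⟨a, ha, hc, fun x i v hv => h2 x i v (le_h hle x hv),
    fun x L hl => ?_⟩
  have hx : x < a := hc (spec_mem hle.1 ⟨L, hl⟩)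
  have g := hle.1.sp x L hl
  refine ⟨hx, g.Alt.trans (Iio_subset_Iio hx.le), fun z hz => ?_, fun z hz => ?_⟩
  · obtain ⟨g1, g2, g3⟩ := g.Fb hz
    exact ⟨g1.trans hx, g2.trans hx, g3.trans hx⟩
  · obtain ⟨y, -, g2, g3⟩ := g.s z hz
    exact (g2.trans_lt g3).trans hx

theorem scode_spec (hη : Inac η) (hb : Bdd η (stem μ r)) :
    C.scode μ r < η ∧ C.dec (C.scode μ r) = stem μ r := by
  obtain ⟨ξ, h1, h2⟩ := C.hdec η _ hη hb
  have h3 : ξ ∈ {ξ | C.dec ξ = stem μ r} := h2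
  exact ⟨lt_of_le_of_lt (csInf_le' h3) h1, csInf_mem (s := {ξ | C.dec ξ = stem μ r}) ⟨ξ, h3⟩⟩

/-- The stem of an extension can be reached without changing the data at `μ`. -/
theorem gl_leT (h : C.Le r p) (hμ : Spec p μ) : C.LeT μ (gl μ r p) p := by
  have hm := spec_mem h.1 hμ
  have hsp : ∀ a, C.Le a p → Spec a μ := fun a ha => (le_spec_iff ha hm).2 hμ
  have hval : ∀ a, C.Le a p → C.Valid (gl μ a p) := fun a ha =>
    gl_valid (le_valid ha) h.1 (hsp a ha) hμ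
  refine ⟨?_, gl_agree μ r p, (hval r h).bel μ ((rb2_c_ge le_rfl).2 hm)⟩
  refine rb2_ind (P := fun a => C.Le (gl μ a p) p) h ?_ ?_ ?_
  · rw [gl_self]
    exact le_refl' h.1
  · intro a e ha hv he ih hd
    exact le_trans' (le_of_dle (le_valid ih) (hval e (le_trans' (le_of_dle hv he hd) ha))
      (RB4_gl_dle hd (le_c ha hm) (hsp a ha) hμ)) ih
  · intro a e ν ha hv he ih hi
    rcases lt_trichotomy ν μ with h1 | rfl | h1
    · exact le_trans' (le_of_ins (le_valid ih) (RB4_gl_Ins hv hi h1)) ih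
    · have hve := hval e (le_trans' (le_of_ins hv hi) ha)
      have hmi := RB3_ins_mix (p := p) hv hi le_rfl
      obtain ⟨Lp, hp⟩ := hμ
      obtain ⟨L, ξ, g1, g2, g3, rfl⟩ := hi
      obtain ⟨L', e1, e2, e3, -⟩ := le_l1 ha hp
      obtain rfl : L = L' := Option.some.inj (g1.symm.trans e1)
      have g4 := (fp_mem g3.blk.v).1
      have g5 : C.Insb (gl ν a p) ν (C.dec ξ) := by
        refine ⟨g3.blk, fun x hx hxν => g3.lt x ((rb2_c_lt hxν).1 hx) hxν, fun x hx i v hv => ?_⟩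
        change (i, v) ∈ (mix ν a p).h x at hv
        rw [rb2_h_lt (hx.trans (rb2_bdd g3.blk.bdd g4))] at hv
        exact g3.bel x hx i v hv
      have hI : C.Ins (ins (gl ν a p) ν (C.dec ξ) (sec Lp.F ξ)) (gl ν a p) ν :=
        ⟨_, ξ, gl_l g1 hp, e2 g2, g5, rfl⟩
      rw [RB4_gl_ins le_rfl (fun x hx => rb2_bdd g3.blk.bdd hx) g4 g3.blk.v.h0] at hve ⊢
      exact le_trans' (le_of_dle (ins_valid' (le_valid ih) hI) hve (RB4_dle_ins (e3 ξ g2)))
        (le_trans' (le_of_ins (le_valid ih) hI) ih)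
    · have hag := RB3_ins_agLo hv hi (le_c ha hm) h1
      rw [RB4_gl_congr hag.1 (by rw [sAt, sAt, hag.2]) hμ]
      exact ih

theorem gl_ds (h : C.DS μ t u' u) (hu : Spec u μ) (ht : μ ≤ t) (hr : C.Valid r) (hμ : Spec r μ) :
    C.DS μ t (gl μ r u') (gl μ r u) := by
  obtain ⟨Lu, hu⟩ := hu
  obtain ⟨L', e1, e2, e3, -⟩ := h.d.l1 μ Lu hu
  refine ⟨gl_valid hr h.v hμ ⟨L', e1⟩, ?_,
    RB4_agS_trans (gl_agS _ _ _) (RB4_agS_symm (gl_agS _ _ _)),
    (((gl_agree _ _ _).mono ht).trans h.ag).trans ((gl_agree _ _ _).mono ht).symm,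
    RB3_below_right h.bel ht hr (spec_mem hr hμ)⟩
  obtain ⟨L, hL⟩ := hμ
  refine RB4_dle_setL (RB3_dle_right h.d) ((rb2_l_le le_rfl).trans hL)
    ((rb2_l_le le_rfl).trans hL) ?_ ?_ rfl
  · simpa only [hu, e1, Option.getD_some] using e2
  · simpa only [hu, e1, Option.getD_some] using e3

theorem gl_leS (h : C.LeS μ r' r) (hμ : Spec r μ) (hv : C.Valid v) (hv' : Spec v μ) :
    C.LeS μ (gl μ r' v) (gl μ r v) := by
  have hr := h.1.le.1
  have hm := spec_mem hr hμ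
  have hsc := scope_of_mem hr hm
  have hsp : ∀ a, C.Le a r → Spec a μ := fun a ha => (le_spec_iff ha hm).2 hμ
  have hval : ∀ a, C.Le a r → C.Valid (gl μ a v) := fun a ha =>
    gl_valid (le_valid ha) hv (hsp a ha) hv'
  refine ⟨⟨?_, (gl_agree _ _ _).trans (gl_agree _ _ _).symm,
    (hval r' h.1.le).bel μ ((rb2_c_ge le_rfl).2 (spec_mem hv hv'))⟩,
    by rw [gl_sAt, gl_sAt, h.2]⟩
  have hp := (leS_iff hsc).1 h
  clear h
  induction hp with
  | refl => exact le_refl' (hval r (le_refl' hr))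
  | @tail a e h1 h2 ih =>
    have ha := ((leS_iff hsc).2 h1).1.le
    have he := ((leS_iff hsc).2 (h1.tail h2)).1.le
    rcases h2.2.2.2 with hd | ⟨ν, hν, hi⟩
    · exact le_trans' (le_of_dle (le_valid ih) (hval e he)
        (RB4_gl_dle hd (le_c ha hm) (hsp a ha) hv')) ih
    · exact le_trans' (le_of_ins (le_valid ih) (RB4_gl_Ins (le_valid ha) hi hν)) ih

theorem cutA_ds (hu : C.Scope t u) (hμ : Spec u μ) (ht : μ ≤ t) (hm : m < μ) :
    C.DS μ t (C.cutA μ m u) u := by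
  refine ⟨RB4_cutA_valid hu.v hm, ?_, RB4_setL_agS _ _ _, (RB4_setL_agree _ _ _).mono ht, hu.bel⟩
  obtain ⟨L, hL⟩ := hμ
  have := RB4_dle_setL (f := id)
    (g := fun L => ⟨L.A ∩ {ξ | m < fp (C.dec ξ)}, L.F, L.s⟩) (Dle.refl u) hL hL
    inter_subset_left (fun _ _ => subset_rfl) rfl
  rwa [RB4_setL_id] at this

theorem cutA_mono {m' : Od} (hu : C.Scope t u) (hμ : Spec u μ) (ht : μ ≤ t) (hm : m ≤ m')
    (hm' : m' < μ) : C.DS μ t (C.cutA μ m' u) (C.cutA μ m u) := by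
  refine ⟨RB4_cutA_valid hu.v hm', ?_,
    RB4_agS_trans (RB4_setL_agS _ _ _) (RB4_agS_symm (RB4_setL_agS _ _ _)),
    ((RB4_setL_agree _ _ _).trans (RB4_setL_agree _ _ _).symm).mono ht, hu.bel⟩
  obtain ⟨L, hL⟩ := hμ
  exact RB4_dle_setL (Dle.refl u) hL hL (fun ξ hξ => ⟨hξ.1, lt_of_le_of_lt hm hξ.2⟩)
    (fun _ _ => subset_rfl) rfl

theorem cutA_ds_cutA (h : C.DS μ t u' u) (hμ : Spec u μ) (ht : μ ≤ t) (hm : m < μ) :
    C.DS μ t (C.cutA μ m u') (C.cutA μ m u) := by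
  exact ⟨RB4_cutA_valid h.v hm, RB4_cutA_dle h.d hμ,
    RB4_agS_trans (RB4_setL_agS _ _ _) (RB4_agS_trans h.lo (RB4_agS_symm (RB4_setL_agS _ _ _))),
    (((RB4_setL_agree _ _ _).mono ht).trans h.ag).trans ((RB4_setL_agree _ _ _).mono ht).symm,
    h.bel⟩

theorem cut_gl_ds (h : C.LeT t r u) (hd : DirA μ r u) (hμ : Spec u μ) (ht : μ ≤ t) (hm : m < μ) :
    C.DS μ t (C.cutA μ m r) (gl μ r (C.cutA μ m u)) := by
  have hag : Agree μ (C.cutA μ m u) u := RB4_setL_agree _ _ _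
  refine ⟨RB4_cutA_valid (le_valid h.le) hm, ?_,
    RB4_agS_trans (RB4_setL_agS _ _ _) (RB4_agS_symm (gl_agS _ _ _)),
    (((RB4_setL_agree _ _ _).mono ht).trans h.ag).trans
      (((gl_agree _ _ _).trans hag).mono ht).symm, h.bel⟩
  obtain ⟨Lu, hu⟩ := hμ
  obtain ⟨L, e1, e2, e3, -⟩ := le_l1 h.le hu
  have h1 := RB3_dle_right (β := μ) (w := r) hd
  rw [mix_mix_right, mix_self, ← mix_congr (q := r) ⟨RB4_agS_refl μ r, rfl⟩ hag] at h1
  refine RB4_dle_setL h1 ((rb2_l_le le_rfl).trans e1) e1 ?_ ?_ rfl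
  · simp only [RB4_cutA_l C.toDat hu, Option.getD_some]
    exact inter_subset_inter_left _ e2
  · simp only [RB4_cutA_l C.toDat hu, Option.getD_some]
    exact fun ξ hξ => e3 ξ hξ.1

theorem cut_wit (h : C.LeT t r u) (hd : DirA μ r u) (hμ : Spec u μ) (ht : μ ≤ t) (hm : m < μ) :
    ∃ u', C.DS μ t u' (C.cutA μ m u) ∧ gl μ r u' = C.cutA μ m r := by
  have hr := le_valid h.le
  have hu := h.le.1
  have hμr : Spec r μ := (le_spec_iff h.le (spec_mem hu hμ)).2 hμ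
  have hc : Spec (C.cutA μ m r) μ := spec_cutA C.toDat hμr
  have hag : Agree μ (C.cutA μ m r) r := RB4_setL_agree _ _ _
  refine ⟨gl μ u (C.cutA μ m r), ⟨gl_valid hu (RB4_cutA_valid hr hm) hμ hc, ?_,
    RB4_agS_trans (gl_agS _ _ _) (RB4_agS_symm (RB4_setL_agS _ _ _)),
    ((((gl_agree _ _ _).trans hag).mono ht).trans h.ag).trans
      ((RB4_setL_agree _ _ _).mono ht).symm,
    RB3_below_right (r := C.cutA μ m r) h.bel ht hu (spec_mem hu hμ)⟩, ?_⟩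
  · obtain ⟨Lu, hLu⟩ := hμ
    obtain ⟨L, e1, e2, e3, -⟩ := le_l1 h.le hLu
    have h1 : Dle (mix μ u (C.cutA μ m r)) u := by
      rw [mix_congr (q' := u) ⟨RB4_agS_refl μ u, rfl⟩ hag]
      exact hd
    refine RB4_dle_setL h1 hLu ((rb2_l_le le_rfl).trans hLu) ?_ ?_ rfl
    · simp only [RB4_cutA_l C.toDat e1, Option.getD_some]
      exact inter_subset_inter_left _ e2
    · simp only [RB4_cutA_l C.toDat e1, Option.getD_some]
      exact fun ξ hξ => e3 ξ hξ.1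
  · rw [gl_gl_right r hμ hc, RB4_gl_congr (r' := C.cutA μ m r) (RB4_agS_symm (RB4_setL_agS _ _ _))
      (RB4_cutA_sAt C.toDat μ m r).symm hc, gl_self]

theorem cut_path (h : C.LeT μ w' w) (hμ : Spec w μ) (hm : m < μ)
    (hb : ∀ η, Inac η → Bdd η (stem μ w) → m < η) :
    C.LeT μ (C.cutA μ m w') (C.cutA μ m w) := by
  have hw := h.le.1
  have hmem := spec_mem hw hμ
  have hsc := scope_of_mem hw hmem
  have hsp : ∀ a, C.Le a w → Spec a μ := fun a ha => (le_spec_iff ha hmem).2 hμ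
  refine ⟨?_, ((RB4_setL_agree _ _ _).trans h.ag).trans (RB4_setL_agree _ _ _).symm, h.bel⟩
  have hp := (leT_iff hsc).1 h
  clear h
  induction hp with
  | refl => exact le_refl' (RB4_cutA_valid hw hm)
  | @tail a e h1 h2 ih =>
    have ha := ((leT_iff hsc).2 h1).le
    rcases h2.2.2.2 with hd | ⟨ν, hν, hi⟩
    · exact le_trans' (le_of_dle (le_valid ih) (RB4_cutA_valid h2.1 hm)
        (RB4_cutA_dle hd (hsp a ha))) ih
    · refine le_trans' (le_of_ins (μ := ν) (le_valid ih) ?_) ih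
      rcases lt_or_eq_of_le hν with h3 | rfl
      · exact RB4_setL_Ins hi h3 fun _ _ => rfl
      · obtain ⟨L, ξ, g1, g2, g3, rfl⟩ := hi
        have g4 : m < fp (C.dec ξ) := hb _ g3.blk.inac
          (stem_bdd_mono ha hμ (stem_bdd_insb (le_valid ha) (hsp a ha) g3))
        have g5 : ν ∉ (C.dec ξ).c := fun h' => lt_irrefl _ (rb2_bdd g3.blk.bdd h')
        exact ⟨_, ξ, RB4_cutA_l C.toDat g1, ⟨g2, g4⟩, ⟨g3.blk, g3.lt, g3.bel⟩,
          RB4_setL_ins g5 g5 fun _ _ => rfl⟩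

theorem first_ins (h : C.LeT μ w' w) (hμ : Spec w μ) (hs : sAt μ w' ≠ sAt μ w) :
    ∃ w₀ w₁, C.LeS μ w₀ w ∧ C.Ins w₁ w₀ μ ∧ C.LeT μ w' w₁ := by
  have hw := h.le.1
  have hsc := scope_of_mem hw (spec_mem hw hμ)
  have key : C.LeS μ w' w ∨ ∃ w₀ w₁, C.LeS μ w₀ w ∧ C.Ins w₁ w₀ μ ∧ C.LeT μ w' w₁ := by
    have hp := (leT_iff hsc).1 h
    clear h hs
    induction hp with
    | refl => exact Or.inl (leS_refl hsc)
    | @tail a e h1 h2 ih =>
      rcases ih with ih | ⟨w₀, w₁, g1, g2, g3⟩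
      · have hl : ∀ h3 : Dle e a ∨ ∃ ν, ν < μ ∧ C.Ins e a ν, C.LeS μ e w := fun h3 =>
          (leS_iff hsc).2 (((leS_iff hsc).1 ih).tail ⟨h2.1, h2.2.1, h2.2.2.1, h3⟩)
        rcases h2.2.2.2 with hd | ⟨ν, hν, hi⟩
        · exact Or.inl (hl (Or.inl hd))
        · rcases lt_or_eq_of_le hν with h3 | rfl
          · exact Or.inl (hl (Or.inr ⟨ν, h3, hi⟩))
          · exact Or.inr ⟨a, e, ih, hi,
              leT_refl (leT_scope hsc ((leT_iff hsc).2 (h1.tail h2)))⟩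
      · exact Or.inr ⟨w₀, w₁, g1, g2, leT_trans (RB3_stepT_leT (le_valid g3.le) h2) g3⟩
  exact key.resolve_left fun h' => hs h'.2

end Ctx

end Pool.Agent.MP_85ce7b_lc
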