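import Pool.Agent.MP_85ce7b_lc.L.RB4

namespace Pool.Agent.MP_85ce7b_lc

open Set Cardinal Ordinal Dat

section Aux

variable {p q b : Raw} {a e x μ : Od} {f : Set (Od × Od)}

theorem rb5x_cat_c : x ∈ (cat p b).c ↔ x ∈ p.c ∨ x ∈ b.c := Iff.rfl

theorem rb5x_cat_h : (cat p b).h x = p.h x ∪ b.h x := rfl

theorem rb5x_cat_l_mem (h : x ∈ b.c) : (cat p b).l x = b.l x := if_pos h

theorem rb5x_cat_l_nmem (h : x ∉ b.c) : (cat p b).l x = p.l x := if_neg h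

theorem rb5x_setH_self : (setH x f b).h x = f := by
  simp [setH]

theorem rb5x_setH_ne {y : Od} (h : y ≠ x) : (setH x f b).h y = b.h y := by
  simp [setH, h]

theorem rb5x_lim_union {c d : Set Od} (h : LimP (c ∪ d) x) : LimP c x ∨ LimP d x := by
  by_contra hn
  rw [not_or] at hn
  obtain ⟨h1, h2⟩ := hn
  simp only [LimP, h.1, true_and, not_forall, not_exists, not_and, not_lt] at h1 h2
  obtain ⟨y, hy, h1⟩ := h1
  obtain ⟨y', hy', h2⟩ := h2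
  obtain ⟨z, hz, h3, h4⟩ := h.2 (Max.max y y') (max_lt hy hy')
  rw [max_lt_iff] at h3
  rcases hz with hz | hz
  · exact absurd (h1 z hz h3.1) h4.not_ge
  · exact absurd (h2 z hz h3.2) h4.not_ge

theorem rb5x_lim_Icc (h : LimP (Icc a e) x) : a < x ∧ x ≤ e := by
  obtain ⟨z, hz, -, h2⟩ := h.2 0 h.1
  refine ⟨hz.1.trans_lt h2, le_of_not_gt fun h3 => ?_⟩
  obtain ⟨w, hw, h4, -⟩ := h.2 e h3
  exact absurd hw.2 h4.not_ge

theorem rb5x_succ_not_inac (y : Od) : ¬ Inac (y + 1) := fun h =>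
  lt_irrefl _ (h.isSuccLimit.add_one_lt (lt_add_one y))

theorem rb5x_between {y z : Od} (h1 : y < z) (h2 : z ≤ y + 1) : ¬ Inac z := by
  rw [le_antisymm h2 (Order.add_one_le_of_lt h1)]
  exact rb5x_succ_not_inac y

theorem rb5x_fp_itv (h : a ≤ e) : fp (itv a e) = a := csInf_Icc h

theorem rb5x_lv_mono {D : Dat} {c d : Set Od} {L : Lo} (g : D.LV c μ L) (h : c ⊆ d) :
    D.LV d μ L := by
  refine ⟨g.sp, g.gt, ?_, g.A, g.Alt, g.Fb, g.F, g.fin, fun z hz => ?_⟩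
  · obtain ⟨y, g1, g2⟩ := g.pre
    exact ⟨y, h g1, g2⟩
  · obtain ⟨y, g1, g2⟩ := g.s z hz
    exact ⟨y, h g1, g2⟩

theorem rb5x_col_empty (D : Dat) (x : Od) : D.Col x ∅ :=
  ⟨fun _ _ _ h => h.elim, fun _ _ h => h.elim, by simp⟩

theorem rb5x_cat_setH (h : p.h x = ∅) : cat p (setH x f b) = setH x f (cat p b) := by
  refine Raw.ext rfl (funext fun y => ?_) rfl
  by_cases hy : y = x
  · subst hy
    rw [rb5x_cat_h, rb5x_setH_self, rb5x_setH_self, h, empty_union]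
  · rw [rb5x_cat_h, rb5x_setH_ne hy, rb5x_setH_ne hy, rb5x_cat_h]

end Aux

namespace Ctx

variable {C : Ctx} {p q r u b : Raw} {t β μ a e x : Od} {f : Set (Od × Od)}

theorem rb5x_mem_h (hb : C.Valid b) {z : Od × Od} (h : z ∈ b.h x) : x ∈ b.c := by
  by_contra hn
  rw [hb.h0 x hn] at h
  exact h

theorem rb5x_mem_l (hb : C.Valid b) {L : Lo} (h : b.l x = some L) : x ∈ b.c := by
  by_contra hn
  rw [hb.l0 x hn] at h
  cases h

theorem rb5x_below_mono (h : C.Below a p) (ha : ∀ x ∈ p.c, x < a) (hp : C.Valid p) (ht : a ≤ t) :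
    C.Below t p := fun x _ i v hv =>
  (h x (ha x (rb5x_mem_h hp hv)) i v hv).trans_le (C.RB3_ord_mono ht)

theorem rb5x_below_cat (h₁ : C.Below t p) (h₂ : C.Below t b) : C.Below t (cat p b) :=
  fun x hx i v hv => hv.elim (h₁ x hx i v) (h₂ x hx i v)

theorem rb5x_cat_valid (hp : C.Valid p) (hb : C.Valid b) (hlt : ∀ x ∈ p.c, ∀ y ∈ b.c, x < y)
    (hbel : ∀ y ∈ b.c, C.Below y p) : C.Valid (cat p b) := by
  have hd : ∀ x ∈ p.c, x ∉ b.c := fun x h1 h2 => lt_irrefl _ (hlt x h1 x h2)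
  have hh1 : ∀ x, x ∉ p.c → (cat p b).h x = b.h x := fun x hx => by
    rw [rb5x_cat_h, hp.h0 x hx, empty_union]
  have hh2 : ∀ x, x ∉ b.c → (cat p b).h x = p.h x := fun x hx => by
    rw [rb5x_cat_h, hb.h0 x hx, union_empty]
  refine ⟨hp.ne.mono subset_union_left, hp.bd.union hb.bd, fun x hx => ?_, fun x hx => ?_,
    fun x hx => ?_, fun x => ?_, fun i v hv => hv.elim (hp.vs i v) (hb.vs i v), fun y hy => ?_,
    fun x hx => ?_, fun x hx hi => ?_, fun μ L hl => ?_⟩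
  · exact (rb5x_lim_union hx).imp (hp.cl x) (hb.cl x)
  · rw [hh1 x fun h => hx (Or.inl h)]
    exact hb.h0 x fun h => hx (Or.inr h)
  · rw [rb5x_cat_l_nmem fun h => hx (Or.inr h)]
    exact hp.l0 x fun h => hx (Or.inl h)
  · by_cases hx : x ∈ p.c
    · rw [hh2 x (hd x hx)]
      exact hp.col x
    · rw [hh1 x hx]
      exact hb.col x
  · rcases hy with hy | hy
    · refine rb5x_below_cat (hp.bel y hy) fun x hx i v hv => ?_
      exact absurd (hlt y hy x (rb5x_mem_h hb hv)) hx.not_gt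
    · exact rb5x_below_cat (hbel y hy) (hb.bel y hy)
  · rcases rb5x_lim_union hx with h | h
    · rw [rb5x_cat_l_nmem (hd x (hp.cl x h))]
      exact hp.lim x h
    · rw [rb5x_cat_l_mem (hb.cl x h)]
      exact hb.lim x h
  · rcases rb5x_lim_union hx with h | h
    · obtain ⟨⟨y, g1, g2⟩, g3⟩ := hp.eas x h hi
      refine ⟨⟨y, g1, fun z hy hz => ?_⟩, g3⟩
      have hzb : z ∉ b.c := fun h' => (hlt x (hp.cl x h) z h').not_gt hz
      rw [hh2 z hzb, rb5x_cat_l_nmem hzb]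
      exact g2 z hy hz
    · obtain ⟨⟨y, g1, g2⟩, g3⟩ := hb.eas x h hi
      obtain ⟨w, hw, -, hwx⟩ := h.2 0 h.1
      refine ⟨⟨Max.max y w, max_lt g1 hwx, fun z hy hz => ?_⟩, g3⟩
      rw [max_lt_iff] at hy
      have hzp : z ∉ p.c := fun h' => (hlt z h' w hw).not_gt hy.2
      refine ⟨(hh1 z hzp).trans (g2 z hy.1 hz).1, ?_⟩
      by_cases hzb : z ∈ b.c
      · rw [rb5x_cat_l_mem hzb]
        exact (g2 z hy.1 hz).2
      · rw [rb5x_cat_l_nmem hzb]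
        exact hp.l0 z hzp
  · by_cases hμ : μ ∈ b.c
    · rw [rb5x_cat_l_mem hμ] at hl
      exact rb5x_lv_mono (hb.sp μ L hl) subset_union_right
    · rw [rb5x_cat_l_nmem hμ] at hl
      exact rb5x_lv_mono (hp.sp μ L hl) subset_union_left

theorem rb5x_cat_dt (hp : C.Scope t p) (hb : C.Valid b) (hlt : ∀ x ∈ p.c, ∀ y ∈ b.c, x < y)
    (hbel : ∀ y ∈ b.c, C.Below y p) (hc : b.c ⊆ Iio t) (hbt : C.Below t b) (hβ : β ∈ p.c) :
    C.DT β t (cat p b) p := by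
  have hd : ∀ x ∈ p.c, x ∉ b.c := fun x h1 h2 => lt_irrefl _ (hlt x h1 x h2)
  have key : ∀ x, x ∉ b.c →
      (x ∈ (cat p b).c ↔ x ∈ p.c) ∧ (cat p b).h x = p.h x ∧ (cat p b).l x = p.l x := fun x hx =>
    ⟨or_iff_left hx, by rw [rb5x_cat_h, hb.h0 x hx, union_empty], rb5x_cat_l_nmem hx⟩
  refine ⟨⟨rb5x_cat_valid hp.v hb hlt hbel, ⟨subset_union_left, fun x hx hn y hy => ?_,
    fun x => subset_union_left, fun x hx hl => ?_, fun x L hl => ?_⟩, fun x hx => ?_,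
    ⟨fun x hx => ?_, fun x hx => ?_⟩, rb5x_below_cat hp.bel hbt⟩, rb5x_cat_l_nmem (hd β hβ)⟩
  · exact hlt y hy x (hx.resolve_left hn)
  · rw [rb5x_cat_l_nmem (hd x hx), hl]
  · exact ⟨L, by rw [rb5x_cat_l_nmem (hd x (rb5x_mem_l hp.v hl)), hl], Subset.rfl,
      fun _ _ => Subset.rfl, rfl⟩
  · exact key x fun h => (hlt β hβ x h).not_gt hx
  · have := key x fun h => (hc h).not_ge hx
    exact ⟨this.1, this.2.1⟩
  · exact (key x fun h => (hc h).not_gt hx).2.2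

theorem rb5x_itv_valid (hae : a ≤ e) (hz : ∀ z, a < z → z ≤ e → Inac z → C.s < z → ¬ SI C.al z) :
    C.Valid (itv a e) :=
  ⟨⟨a, le_rfl, hae⟩, bddAbove_Icc, fun _ hx => ⟨(rb5x_lim_Icc hx).1.le, (rb5x_lim_Icc hx).2⟩,
    fun _ _ => rfl, fun _ _ => rfl, fun x => rb5x_col_empty _ x, fun _ _ h => h.elim,
    fun _ _ _ _ _ _ h => h.elim, fun _ _ => rfl,
    fun x hx hi => ⟨⟨0, hx.1, fun _ _ _ => ⟨rfl, rfl⟩⟩,
      hz x (rb5x_lim_Icc hx).1 (rb5x_lim_Icc hx).2 hi⟩, fun _ _ h => by cases h⟩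

theorem rb5x_h_valid (hr : C.Valid r) (g : Od → Set (Od × Od)) (h0 : ∀ x, x ∉ r.c → g x = ∅)
    (hcol : ∀ x, C.Col x (g x))
    (hvs : ∀ i v, (i, v) ∈ g C.s → v < ((2 : Cardinal.{1}) ^ C.B C.s).ord)
    (hbel : ∀ y ∈ r.c, ∀ x < y, ∀ i v, (i, v) ∈ g x → v < (C.B y).ord)
    (heas : ∀ x, LimP r.c x → Inac x → ∃ y < x, ∀ z, y < z → z < x → g z = r.h z) :
    C.Valid { r with h := g } := by
  refine ⟨hr.ne, hr.bd, hr.cl, h0, hr.l0, hcol, hvs, hbel, hr.lim, fun x hx hi => ?_, hr.sp⟩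
  obtain ⟨⟨y, g1, g2⟩, g3⟩ := hr.eas x hx hi
  obtain ⟨y', k1, k2⟩ := heas x hx hi
  refine ⟨⟨Max.max y y', max_lt g1 k1, fun z hy hz => ?_⟩, g3⟩
  rw [max_lt_iff] at hy
  exact ⟨(k2 z hy.2 hz).trans (g2 z hy.1 hz).1, (g2 z hy.1 hz).2⟩

open Classical in
theorem rb5x_l_valid (hr : C.Valid r) (hμ : μ ∈ r.c) (hn : ¬ LimP r.c μ) {L : Lo}
    (hL : C.LV r.c μ L) : C.Valid { r with l := Function.update r.l μ (some L) } := by
  refine ⟨hr.ne, hr.bd, hr.cl, hr.h0, fun x hx => ?_, hr.col, hr.vs, hr.bel, fun x hx => ?_,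
    fun x hx hi => ?_, fun x L' hl => ?_⟩
  · have : x ≠ μ := fun h => hx (h ▸ hμ)
    exact (Function.update_of_ne this _ _).trans (hr.l0 x hx)
  · have : x ≠ μ := fun h => hn (h ▸ hx)
    exact (Function.update_of_ne this _ _).trans (hr.lim x hx)
  · obtain ⟨⟨y, g1, g2⟩, g3⟩ := hr.eas x hx hi
    rcases lt_or_ge μ x with h | h
    · refine ⟨⟨Max.max y μ, max_lt g1 h, fun z hy hz => ?_⟩, g3⟩
      rw [max_lt_iff] at hy
      exact ⟨(g2 z hy.1 hz).1, (Function.update_of_ne hy.2.ne' _ _).trans (g2 z hy.1 hz).2⟩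
    · exact ⟨⟨y, g1, fun z hy hz => ⟨(g2 z hy hz).1,
        (Function.update_of_ne (hz.trans_le h).ne _ _).trans (g2 z hy hz).2⟩⟩, g3⟩
  · by_cases h : x = μ
    · subst h
      have : some L = some L' := (Function.update_self x (some L) r.l).symm.trans hl
      cases this
      exact hL
    · exact hr.sp x L' ((Function.update_of_ne h _ _).symm.trans hl)

theorem rb5x_dle_h (g : Od → Set (Od × Od)) (h : ∀ x, r.h x ⊆ g x) : Dle { r with h := g } r :=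
  ⟨Subset.rfl, fun _ hx hn => absurd hx hn, h, fun _ _ hl => hl,
    fun _ L hl => ⟨L, hl, Subset.rfl, fun _ _ => Subset.rfl, rfl⟩⟩

theorem rb5x_setH_ds (hr : C.Scope t r) (hx : x ∈ r.c) (ht : x < t) (hf : C.Col x f)
    (hs : r.h x ⊆ f)
    (hv : ∀ i v, (i, v) ∈ f → v < (C.B t).ord ∧ (∀ y ∈ r.c, x < y → v < (C.B y).ord) ∧
      (x = C.s → v < ((2 : Cardinal.{1}) ^ C.B C.s).ord)) :
    C.DS x t (setH x f r) r := by
  refine ⟨rb5x_h_valid hr.v (setH x f r).h (fun y hy => ?_) (fun y => ?_) (fun i v h => ?_)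
    (fun y hy z hz i v h => ?_) (fun y _ _ => ?_), rb5x_dle_h (setH x f r).h fun y => ?_,
    fun y hy => ⟨Iff.rfl, rb5x_setH_ne hy.ne, rfl⟩,
    ⟨fun y hy => ⟨Iff.rfl, rb5x_setH_ne (ht.trans_le hy).ne'⟩, fun _ _ => rfl⟩,
    fun z hz i v h => ?_⟩
  · rw [rb5x_setH_ne fun h : y = x => hy (h ▸ hx)]
    exact hr.v.h0 y hy
  · by_cases h : y = x
    · rw [h, rb5x_setH_self]
      exact hf
    · rw [rb5x_setH_ne h]
      exact hr.v.col y
  · by_cases h' : C.s = x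
    · rw [h', rb5x_setH_self] at h
      exact (hv i v h).2.2 h'.symm
    · rw [rb5x_setH_ne h'] at h
      exact hr.v.vs i v h
  · by_cases h' : z = x
    · rw [h', rb5x_setH_self] at h
      exact (hv i v h).2.1 y hy (h' ▸ hz)
    · rw [rb5x_setH_ne h'] at h
      exact hr.v.bel y hy z hz i v h
  · rcases lt_or_ge x y with h | h
    · exact ⟨x, h, fun z hz _ => rb5x_setH_ne hz.ne'⟩
    · exact ⟨0, (by assumption : LimP r.c y).1, fun z _ hz => rb5x_setH_ne (hz.trans_le h).ne⟩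
  · by_cases h : y = x
    · rw [h, rb5x_setH_self]
      exact hs
    · rw [rb5x_setH_ne h]
  · by_cases h' : z = x
    · rw [h', rb5x_setH_self] at h
      exact (hv i v h).1
    · rw [rb5x_setH_ne h'] at h
      exact hr.bel z hz i v h

theorem rb5x_top (hq : C.Scope μ q) (hμ : μ ∉ q.c) : Inac μ ∧ q.c ⊆ Iio μ :=
  ⟨(hq.cut.resolve_left hμ).1, (hq.cut.resolve_left hμ).2.2⟩

theorem rb5x_insb (hq : C.Scope μ q) (hμ : μ ∉ q.c) (hb : C.Insb q μ b) :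
    (∀ x ∈ q.c, x < fp b) ∧ (∀ x ∈ q.c, ∀ y ∈ b.c, x < y) ∧ ∀ y ∈ b.c, C.Below y q := by
  have h1 : ∀ x ∈ q.c, x < fp b := fun x hx => hb.lt x hx ((rb5x_top hq hμ).2 hx)
  have h2 := (fp_mem hb.blk.v).2.1
  exact ⟨h1, fun x hx y hy => (h1 x hx).trans_le (h2 y hy),
    fun y hy => rb5x_below_mono hb.bel h1 hq.v (h2 y hy)⟩

theorem rb5x_cat_blk (hq : C.Scope μ q) (hμ : μ ∉ q.c) (hb : C.Insb q μ b) (hβ : β ∈ q.c) :
    C.DT β μ (cat q b) q := by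
  obtain ⟨-, h2, h3⟩ := rb5x_insb hq hμ hb
  obtain ⟨g1, -, g3⟩ := blk_scope hb.blk (rb5x_top hq hμ).1
  exact rb5x_cat_dt hq hb.blk.v h2 h3 g3 g1.bel hβ

end Ctx

end Pool.Agent.MP_85ce7b_lc
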