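import Pool.Agent.MP_85ce7b_lc.L.RB5a
import Pool.Agent.MP_85ce7b_lc.L.RB5x

namespace Pool.Agent.MP_85ce7b_lc

open Set Cardinal Ordinal Dat

namespace Ctx

variable {C : Ctx} {p q r r' u w b b' : Raw} {t β δ μ η a e x : Od} {f f₀ : Set (Od × Od)}

theorem insb_res (hμ : Inac μ) : C.Insb (res μ r) μ b ↔ C.Insb r μ b := by
  have key : C.Blk μ b → ∀ x < fp b, (res μ r).h x = r.h x := fun hb x hx =>
    if_pos (hx.trans ((lt_add_one _).trans (blk_scope hb hμ).2.1))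
  constructor
  · intro h
    exact ⟨h.blk, fun x hx hx' => h.lt x ⟨hx, hx'⟩ hx',
      fun x hx i v hv => h.bel x hx i v (by rwa [key h.blk x hx])⟩
  · intro h
    exact ⟨h.blk, fun x hx hx' => h.lt x hx.1 hx',
      fun x hx i v hv => h.bel x hx i v (by rwa [key h.blk x hx] at hv)⟩

theorem res_ins (hr : C.Valid r) (hμ : Spec r μ) (hb : C.Insb r μ b) :
    res μ (ins r μ b f) = cat (res μ r) (setH (fp b) f b) := by
  obtain ⟨-, h1, h2⟩ := blk_scope hb.blk (spec_inac hr hμ).1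
  refine Raw.ext (Set.ext fun x => ?_) (funext fun x => ?_) (funext fun x => ?_)
  · constructor
    · rintro ⟨h | h, h'⟩
      · exact Or.inl ⟨h, h'⟩
      · exact Or.inr h
    · rintro (h | h)
      · exact ⟨Or.inl h.1, h.2⟩
      · exact ⟨Or.inr h, h2 h⟩
  · rw [rb5x_cat_h]
    by_cases hx : x < μ
    · simp only [res, if_pos hx]
      rfl
    · simp only [res, if_neg hx]
      rw [rb5x_setH_ne fun h : x = fp b => hx (h ▸ (lt_add_one _).trans h1),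
        hb.blk.v.h0 x fun h => hx (h2 h), empty_union]
  · by_cases hx : x < μ
    · by_cases hb' : x ∈ b.c
      · rw [rb5x_cat_l_mem (b := setH (fp b) f b) hb']
        simp only [res, if_pos hx]
        exact rb2_ins_l_mem hx.ne hb'
      · rw [rb5x_cat_l_nmem (b := setH (fp b) f b) hb']
        simp only [res, if_pos hx]
        exact rb2_ins_l_nmem hx.ne hb'
    · rw [rb5x_cat_l_nmem (b := setH (fp b) f b) fun h => hx (h2 h)]
      simp only [res, if_neg hx]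

theorem cat_blk (hq : C.Scope μ q) (hμ : μ ∉ q.c) (hb : C.Insb q μ b) :
    C.LeT μ (cat q b) q ∧ Good (cat q b) (fp b + 1) ∧ fp b + 1 < μ := by
  obtain ⟨y, hy⟩ := hq.v.ne
  refine ⟨(ds_leS hq (rb5x_cat_blk hq hμ hb hy).1).1, ⟨Or.inr hb.blk.nxt, ?_, _, rfl⟩,
    (blk_scope hb.blk (rb5x_top hq hμ).1).2.1⟩
  rw [rb5x_cat_l_mem hb.blk.nxt]
  exact (blk_good hb.blk).2.1

theorem cat_setH (hq : C.Scope μ q) (hμ : μ ∉ q.c) (hb : C.Insb q μ b) (hf : C.Fst b f) :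
    C.LeT (fp b + 1) (cat q (setH (fp b) f b)) (cat q b) := by
  have h1 : q.h (fp b) = ∅ :=
    hq.v.h0 _ fun h => lt_irrefl _ ((rb5x_insb hq hμ hb).1 _ h)
  have hs : C.Scope (fp b + 1) (cat q b) :=
    scope_of_mem (le_valid (cat_blk hq hμ hb).1.le) (Or.inr hb.blk.nxt)
  rw [rb5x_cat_setH h1]
  refine (ds_leS hs (rb5x_setH_ds hs (Or.inr (fp_mem hb.blk.v).1) (lt_add_one _) hf.1 ?_
    fun i v hv => ⟨hf.2 i v hv, fun y _ hy => ?_, fun h => ?_⟩)).1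
  · rw [rb5x_cat_h, h1, hb.blk.h, empty_union]
    exact empty_subset _
  · exact (hf.2 i v hv).trans_le (C.RB3_ord_mono (Order.add_one_le_of_lt hy))
  · exact absurd ((lt_add_one _).trans hb.blk.gt) h.symm.not_lt

theorem cat_dt (hq : C.Scope μ q) (hμ : μ ∉ q.c) (hb : C.Insb q μ b)
    (h : C.DT (fp b + 1) μ b' b) :
    C.Insb q μ b' ∧ C.DT (fp b + 1) μ (cat q b') (cat q b) := by
  obtain ⟨h1, h2⟩ := blk_dt hb.blk (rb5x_top hq hμ).1 h
  have hb' : C.Insb q μ b' := ⟨h1, h2 ▸ hb.lt, h2 ▸ hb.bel⟩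
  obtain ⟨-, g2, g3⟩ := rb5x_insb hq hμ hb'
  have hd : ∀ x ∈ q.c, x ∉ b'.c := fun x k1 k2 => lt_irrefl _ (g2 x k1 x k2)
  have hl : ∀ x, (x ∈ b'.c ↔ x ∈ b.c) → b'.l x = b.l x → (cat q b').l x = (cat q b).l x := by
    intro x k1 k2
    by_cases hx : x ∈ b.c
    · rw [rb5x_cat_l_mem hx, rb5x_cat_l_mem (k1.2 hx), k2]
    · rw [rb5x_cat_l_nmem hx, rb5x_cat_l_nmem fun k => hx (k1.1 k)]
  refine ⟨hb', ⟨rb5x_cat_valid hq.v h1.v g2 g3, ⟨union_subset_union_right _ h.1.d.c,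
    fun x hx hn y hy => ?_, fun x => union_subset_union_right _ (h.1.d.h x), fun x hx k => ?_,
    fun x L k => ?_⟩, fun x hx => ?_, ⟨fun x hx => ?_, fun x hx => ?_⟩,
    rb5x_below_cat hq.bel h.1.bel⟩, hl _ (iff_of_true (h.1.d.c hb.blk.nxt) hb.blk.nxt) h.2⟩
  · have k1 : x ∈ b'.c := hx.resolve_left fun k => hn (Or.inl k)
    exact hy.elim (fun k => g2 y k x k1) (h.1.d.new x k1 (fun k => hn (Or.inr k)) y)
  · by_cases hx' : x ∈ b.c
    · rw [rb5x_cat_l_mem hx'] at k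
      rw [rb5x_cat_l_mem (h.1.d.c hx')]
      exact h.1.d.l0 x hx' k
    · rw [rb5x_cat_l_nmem hx'] at k
      rw [rb5x_cat_l_nmem (hd x (hx.resolve_right hx')), k]
  · by_cases hx' : x ∈ b.c
    · rw [rb5x_cat_l_mem hx'] at k
      rw [rb5x_cat_l_mem (h.1.d.c hx')]
      exact h.1.d.l1 x L k
    · rw [rb5x_cat_l_nmem hx'] at k
      exact ⟨L, by rw [rb5x_cat_l_nmem (hd x (rb5x_mem_l hq.v k)), k], Subset.rfl,
        fun _ _ => Subset.rfl, rfl⟩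
  · obtain ⟨k1, k2, k3⟩ := h.1.lo x hx
    exact ⟨or_congr_right k1, by rw [rb5x_cat_h, rb5x_cat_h, k2], hl x k1 k3⟩
  · obtain ⟨k1, k2⟩ := h.1.ag.1 x hx
    exact ⟨or_congr_right k1, by rw [rb5x_cat_h, rb5x_cat_h, k2]⟩
  · exact hl x (h.1.ag.1 x hx.le).1 (h.1.ag.2 x hx)

theorem cat_up (hq : C.Scope μ q) (hμ : μ ∉ q.c) (hb : C.Insb q μ b)
    (h : C.DT (fp b + 1) μ u (cat q b)) : ∃ b', C.DT (fp b + 1) μ b' b ∧ u = cat q b' := by
  obtain ⟨g1, -, -⟩ := rb5x_insb hq hμ hb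
  have hn := hb.blk.nxt
  have hqc : ∀ x, fp b + 1 ≤ x → x ∉ q.c := fun x hx k =>
    (g1 x k).not_ge ((lt_add_one _).le.trans hx)
  have hag : Agree (fp b + 1) b (cat q b) := by
    refine ⟨fun x hx => ⟨(or_iff_right (hqc x hx)).symm, ?_⟩, fun x hx => ?_⟩
    · rw [rb5x_cat_h, hq.v.h0 x (hqc x hx), empty_union]
    · by_cases k : x ∈ b.c
      · rw [rb5x_cat_l_mem k]
      · rw [rb5x_cat_l_nmem k, hb.blk.v.l0 x k, hq.v.l0 x (hqc x hx.le)]
  have h1 := mix_dt h (Or.inr hn) (cat_blk hq hμ hb).2.2.le hb.blk.v hn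
  rw [mix_eq_left hag] at h1
  refine ⟨_, h1, eq_of_agLo_agree (β := fp b + 1) ⟨fun x hx => ?_, ?_⟩
    ⟨fun x hx => ⟨?_, ?_⟩, fun x hx => ?_⟩⟩
  · obtain ⟨k1, k2, k3⟩ := h.1.lo x hx
    refine ⟨k1.trans (or_congr_right (rb2_c_lt hx).symm), ?_, ?_⟩
    · rw [k2, rb5x_cat_h, rb5x_cat_h, rb2_h_lt hx]
    · rw [k3]
      by_cases k : x ∈ b.c
      · rw [rb5x_cat_l_mem k, rb5x_cat_l_mem ((rb2_c_lt hx).2 k), rb2_l_le hx.le]
      · rw [rb5x_cat_l_nmem k, rb5x_cat_l_nmem fun k' => k ((rb2_c_lt hx).1 k')]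
  · rw [h.2, rb5x_cat_l_mem hn, rb5x_cat_l_mem (h1.1.d.c hn), rb2_l_le le_rfl]
  · rw [rb5x_cat_c, or_iff_right (hqc x hx), rb2_c_ge hx]
  · rw [rb5x_cat_h, hq.v.h0 x (hqc x hx), empty_union, rb2_h_ge hx]
  · by_cases k : x ∈ u.c
    · rw [rb5x_cat_l_mem ((rb2_c_ge hx.le).2 k), rb2_l_gt hx]
    · rw [rb5x_cat_l_nmem fun k' => k ((rb2_c_ge hx.le).1 k'), h.1.v.l0 x k,
        hq.v.l0 x (hqc x hx.le)]

theorem p0_scope (C : Ctx) : C.Scope C.kap (itv 0 (C.s + 1)) ∧ C.kap ∉ (itv 0 (C.s + 1)).c := by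
  refine ⟨⟨rb5x_itv_valid zero_le fun z _ h2 hi h3 => absurd hi (rb5x_between h3 h2),
    fun _ _ _ _ h => h.elim, Or.inr ⟨C.kin, C.s_lt, fun x hx => hx.2.trans_lt C.s_lt⟩⟩,
    fun h => C.s_lt.not_ge h.2⟩

theorem blk_itv (hη : Inac η) (hs : C.s + 1 < η) (hμ : Inac μ) (h : η < μ) :
    C.Blk μ (itv η (η + 1)) ∧ fp (itv η (η + 1)) = η := by
  have h1 : η ≤ η + 1 := (lt_add_one η).le
  have h2 := rb5x_fp_itv h1
  refine ⟨⟨rb5x_itv_valid h1 fun z k1 k2 hi => absurd hi (rb5x_between k1 k2),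
    ⟨η + 1 + 1, hμ.isSuccLimit.add_one_lt (hμ.isSuccLimit.add_one_lt h),
      fun x hx => hx.2.trans_lt (lt_add_one _), fun _ _ _ k => k.elim, fun _ _ k => by cases k⟩,
    ?_, ?_, ?_, rfl⟩, h2⟩
  · rwa [h2]
  · rwa [h2]
  · rw [h2]
    exact ⟨h1, le_rfl⟩

theorem add_itv (hp : C.Scope t p) (ht : t ∉ p.c) (hae : a ≤ e) (he : e < t) (hc : p.c ⊆ Iio a)
    (hb : C.Below a p) (hz : ∀ z, a < z → z ≤ e → Inac z → C.s < z → ¬ SI C.al z) :
    ∀ β ∈ p.c, C.DT β t (cat p (itv a e)) p := by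
  have _ := ht
  exact fun β hβ => rb5x_cat_dt hp (rb5x_itv_valid hae hz)
    (fun x hx y hy => lt_of_lt_of_le (hc hx) hy.1)
    (fun y hy => rb5x_below_mono hb hc hp.v hy.1) (fun x hx => hx.2.trans_lt he)
    (fun _ _ _ _ h => h.elim) hβ

/-- Room for an end extension. -/
theorem exists_room (hp : C.Scope t p) (ht : t ∉ p.c) (ha : a < t) :
    ∃ y, a < y ∧ y < t ∧ p.c ⊆ Iio y ∧ C.Below y p := by
  obtain ⟨h1, h2⟩ := rb5x_top hp ht
  obtain ⟨c, hc, g1, g2, -⟩ := bdd_of_below hp.v h1 h2 hp.bel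
  have h3 : c ≤ Max.max a c + 1 := (le_max_right _ _).trans (lt_add_one _).le
  exact ⟨Max.max a c + 1, (le_max_left _ _).trans_lt (lt_add_one _),
    h1.isSuccLimit.add_one_lt (max_lt ha hc), fun x hx => lt_of_lt_of_le (g1 hx) h3,
    fun x _ i v hv => (g2 x i v hv).2.2.trans_le (h3.trans (C.bf.le_ord _))⟩

theorem top_ext (hp : C.Scope t p) (ht : t ∉ p.c) (ha : a < t) :
    ∃ δ u, a < δ ∧ δ < t ∧ Good u δ ∧ (∀ x ∈ u.c, x ≤ δ) ∧ (∀ β ∈ p.c, C.DT β t u p) ∧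
      ∀ x, Spec u x → Spec p x := by
  obtain ⟨y, h1, h2, h3, h4⟩ := exists_room hp ht ha
  have h5 : y + 1 < t := (rb5x_top hp ht).1.isSuccLimit.add_one_lt h2
  have h6 : y ≤ y + 1 := (lt_add_one y).le
  have h7 : y + 1 ∈ (itv y (y + 1)).c := ⟨h6, le_rfl⟩
  refine ⟨y + 1, cat p (itv y (y + 1)), h1.trans_le h6, h5,
    ⟨Or.inr h7, rb5x_cat_l_mem h7, y, rfl⟩, fun x hx => ?_,
    add_itv hp ht h6 h5 h3 h4 fun z k1 k2 hi => absurd hi (rb5x_between k1 k2), fun x hx => ?_⟩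
  · exact hx.elim (fun k => (le_of_lt (h3 k)).trans h6) fun k => k.2
  · obtain ⟨L, hL⟩ := hx
    by_cases k : x ∈ (itv y (y + 1)).c
    · rw [rb5x_cat_l_mem k] at hL
      cases hL
    · exact ⟨L, by rwa [rb5x_cat_l_nmem k] at hL⟩

theorem add_spec (hp : C.Scope t p) (ht : t ∉ p.c) (hμ : μ ∈ C.Sp) (hb : Bdd μ p) (he : μ ≤ e)
    (het : e < t) (hz : ∀ z, μ < z → z ≤ e → ¬ Inac z) :
    ∃ p', C.LeT t p' p ∧ Spec p' μ ∧ res μ p' = p ∧ Icc μ e ⊆ p'.c ∧ NoSp p' μ e ∧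
      ∀ x, μ ≤ x → p'.h x = ∅ := by
  classical
  have hi := sp_inac hμ
  obtain ⟨h1, h2⟩ := below_of_bdd (C := C) hi hb
  obtain ⟨y, hy⟩ := hp.v.ne
  have hu := (add_itv hp ht he het h1 h2 (fun z k1 k2 k3 => absurd k3 (hz z k1 k2)) y hy).1
  have hμu : μ ∈ (cat p (itv μ e)).c := Or.inr ⟨le_rfl, he⟩
  have hne : ∀ x ∈ p.c, x ≠ μ := fun x hx => ne_of_lt (h1 hx)
  have hnp : ∀ x, μ ≤ x → x ∉ p.c := fun x hx k => not_lt_of_ge hx (h1 k)
  have hn : ¬ LimP (cat p (itv μ e)).c μ := by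
    obtain ⟨c, hc, g1, -⟩ := hb
    intro k
    obtain ⟨z, hz, k1, k2⟩ := k.2 c hc
    exact hz.elim (fun k3 => not_lt_of_gt k1 (g1 k3)) fun k3 => k2.not_ge k3.1
  have hL : C.LV (cat p (itv μ e)).c μ ⟨Iio μ, ∅, ∅⟩ :=
    ⟨hμ, (C.good μ hμ).gt, ⟨y, Or.inl hy, h1 hy⟩,
      Filter.mem_of_superset ((C.good μ hμ).w0 0 hi.isSuccLimit.pos) fun ξ k => k.1, Subset.rfl,
      empty_subset _, fun ξ _ => ⟨rb5x_col_empty _ _, fun _ _ k => k.elim⟩, finite_empty,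
      fun _ k => k.elim⟩
  have hv := rb5x_l_valid hu.v hμu hn hL
  refine ⟨_, ⟨le_of_dle hp.v hv ⟨hu.d.c, hu.d.new, hu.d.h, fun x hx k => ?_, fun x L k => ?_⟩,
    ⟨hu.ag.1, fun x hx => ?_⟩, hu.bel⟩, ⟨_, Function.update_self _ _ _⟩, ?_, subset_union_right,
    fun x k1 k2 => ?_, fun x hx => ?_⟩
  · exact (Function.update_of_ne (hne x hx) _ _).trans (hu.d.l0 x hx k)
  · obtain ⟨L', k1, k2⟩ := hu.d.l1 x L k
    exact ⟨L', (Function.update_of_ne (hne x (rb5x_mem_l hp.v k)) _ _).trans k1, k2⟩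
  · exact (Function.update_of_ne ((he.trans_lt het).trans hx).ne' _ _).trans (hu.ag.2 x hx)
  · refine Raw.ext (Set.ext fun x => ?_) (funext fun x => ?_) (funext fun x => ?_)
    · exact ⟨fun k => k.1.resolve_right fun k' => not_lt_of_ge k'.1 k.2,
        fun k => ⟨Or.inl k, h1 k⟩⟩
    · by_cases hx : x < μ
      · simp only [res, if_pos hx]
        exact union_empty _
      · simp only [res, if_neg hx]
        exact (hp.v.h0 x (hnp x (not_lt.1 hx))).symm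
    · by_cases hx : x < μ
      · simp only [res, if_pos hx]
        exact (Function.update_of_ne hx.ne _ _).trans
          (rb5x_cat_l_nmem fun k => hx.not_ge k.1)
      · simp only [res, if_neg hx]
        exact (hp.v.l0 x (hnp x (not_lt.1 hx))).symm
  · exact (Function.update_of_ne k1.ne' _ _).trans
      (rb5x_cat_l_mem (b := itv μ e) ⟨k1.le, k2⟩)
  · exact (union_empty _).trans (hp.v.h0 x (hnp x hx))

theorem set_int {g : Od → Set (Od × Od)} (hr : C.Scope t r) (hc : Icc a e ⊆ r.c) (hs : C.s < a)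
    (het : e ≤ t) (hz : ∀ z, a < z → z ≤ e → ¬ Inac z) (hg : C.IntC a e g)
    (hh : ∀ x, a ≤ x → x < e → r.h x ⊆ g x) :
    ∃ r', C.LeT t r' r ∧ res a r' = res a r ∧ r'.l = r.l ∧ r'.c = r.c ∧
      ∀ x, a ≤ x → x < e → r'.h x = g x := by
  classical
  let k : Od → Set (Od × Od) := fun x => if a ≤ x ∧ x < e then g x else r.h x
  have k1 : ∀ x, a ≤ x ∧ x < e → k x = g x := fun x hx => if_pos hx
  have k2 : ∀ x, ¬ (a ≤ x ∧ x < e) → k x = r.h x := fun x hx => if_neg hx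
  have k3 : ∀ y, C.Below y r → ∀ x < y, ∀ i v, (i, v) ∈ k x → v < (C.B y).ord := by
    intro y hy x hx i v hv
    by_cases h : a ≤ x ∧ x < e
    · rw [k1 x h] at hv
      exact ((hg x).2 i v hv).2.2.trans_le (C.RB3_ord_mono (Order.add_one_le_of_lt hx))
    · rw [k2 x h] at hv
      exact hy x hx i v hv
  have hv : C.Valid { r with h := k } := by
    refine rb5x_h_valid hr.v k (fun x hx => ?_) (fun x => ?_) (fun i v h => ?_)
      (fun y hy => k3 y (hr.v.bel y hy)) fun x hx hi => ?_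
    · rw [k2 x fun h => hx (hc ⟨h.1, h.2.le⟩)]
      exact hr.v.h0 x hx
    · by_cases h : a ≤ x ∧ x < e
      · rw [k1 x h]
        exact (hg x).1
      · rw [k2 x h]
        exact hr.v.col x
    · rw [k2 _ fun h' => hs.not_ge h'.1] at h
      exact hr.v.vs i v h
    · rcases le_or_gt x a with h | h
      · exact ⟨0, hx.1, fun z _ h' => k2 z fun h'' => (h'.trans_le h).not_ge h''.1⟩
      · exact ⟨e, lt_of_not_ge fun h' => hz x h h' hi, fun z h' _ => k2 z fun h'' => h'.not_gt h''.2⟩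
  refine ⟨{ r with h := k }, ⟨le_of_dle hr.v hv (rb5x_dle_h k fun x => ?_),
    ⟨fun x hx => ⟨Iff.rfl, k2 x fun h => (h.2.trans_le het).not_ge hx⟩, fun _ _ => rfl⟩,
    k3 t hr.bel⟩, ?_, rfl, rfl, fun x h1 h2 => k1 x ⟨h1, h2⟩⟩
  · by_cases h : a ≤ x ∧ x < e
    · rw [k1 x h]
      exact hh x h.1 h.2
    · rw [k2 x h]
  · refine Raw.ext rfl (funext fun x => ?_) rfl
    by_cases hx : x < a
    · simp only [res, if_pos hx]
      exact k2 x fun h => hx.not_ge h.1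
    · simp only [res, if_neg hx]

open Classical in
theorem intC_of (hr : C.Valid r) (hc : Icc a e ⊆ r.c) :
    C.IntC a e (fun x => if a ≤ x ∧ x < e then r.h x else ∅) := by
  intro x
  by_cases h : a ≤ x ∧ x < e
  · simp only [if_pos h]
    exact ⟨hr.col x, fun i v hv => ⟨h.1, h.2, hr.bel (x + 1)
      (hc ⟨h.1.trans (lt_add_one x).le, Order.add_one_le_of_lt h.2⟩) x (lt_add_one x) i v hv⟩⟩
  · simp only [if_neg h]
    exact ⟨rb5x_col_empty _ x, fun _ _ hv => hv.elim⟩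

theorem setH_ds (hr : C.Scope t r) (hx : x ∈ r.c) (ht : x < t) (hf : C.Col x f) (hs : r.h x ⊆ f)
    (hv : ∀ i v, (i, v) ∈ f → v < (C.B t).ord ∧ (∀ y ∈ r.c, x < y → v < (C.B y).ord) ∧
      (x = C.s → v < ((2 : Cardinal.{1}) ^ C.B C.s).ord)) :
    C.DS x t (setH x f r) r :=
  rb5x_setH_ds hr hx ht hf hs hv

end Ctx

end Pool.Agent.MP_85ce7b_lc
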