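import Pool.Agent.MP_85ce7b_lc.L.RB4

namespace Pool.Agent.MP_85ce7b_lc

open Set Cardinal Ordinal Dat

/-- A possible first collapse for the block `b`. -/
def Dat.Fst (D : Dat) (b : Raw) (f : Set (Od × Od)) : Prop :=
  D.Col (fp b) f ∧ ∀ i v, (i, v) ∈ f → v < (D.B (fp b + 1)).ord

/-- Collapses on the interval `[a, e)`. -/
def Dat.IntC (D : Dat) (a e : Od) (w : Od → Set (Od × Od)) : Prop :=
  ∀ x, D.Col x (w x) ∧ ∀ i v, (i, v) ∈ w x → a ≤ x ∧ x < e ∧ v < (D.B (x + 1)).ord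

section RB5aAux

variable {p q r u b : Raw} {β μ x y : Od} {f f' : Set (Od × Od)}

theorem r5a_setH_self : (setH x f b).h x = f := by
  simp [setH]

theorem r5a_setH_ne (h : y ≠ x) : (setH x f b).h y = b.h y := by
  simp [setH, Function.update_of_ne h]

theorem r5a_setL_self {g : Lo → Lo} : (setL μ g r).l μ = (r.l μ).map g := by
  simp [setL]

theorem r5a_setL_ne {g : Lo → Lo} (h : x ≠ μ) : (setL μ g r).l x = r.l x := by
  simp [setL, Function.update_of_ne h]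

theorem r5a_res_c : x ∈ (res μ r).c ↔ x ∈ r.c ∧ x < μ := Iff.rfl

theorem r5a_res_h_lt (h : x < μ) : (res μ r).h x = r.h x := by
  simp [res, h]

theorem r5a_res_h_ge (h : μ ≤ x) : (res μ r).h x = ∅ := by
  simp [res, not_lt.2 h]

theorem r5a_res_l_lt (h : x < μ) : (res μ r).l x = r.l x := by
  simp [res, h]

theorem r5a_res_l_ge (h : μ ≤ x) : (res μ r).l x = none := by
  simp [res, not_lt.2 h]

theorem r5a_ins_l_f : (ins p μ b f).l x = (ins p μ b f').l x := rfl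

theorem r5a_sAt_ins (hx : μ ∉ b.c) :
    sAt μ (ins p μ b f) = (sAt μ p).map (insert (fp b)) := by
  rw [sAt, rb2_ins_l_self hx, sAt, Option.map_map, Option.map_map]
  rfl

theorem r5a_res_dle (h : Dle u q) : Dle (res μ u) (res μ q) := by
  refine ⟨fun x hx => ⟨h.c hx.1, hx.2⟩, fun x hx hn y hy => ?_, fun x => ?_, fun x hx hl => ?_,
    fun x L hl => ?_⟩
  · exact h.new x hx.1 (fun h' => hn ⟨h', hx.2⟩) y hy.1
  · rcases lt_or_ge x μ with h1 | h1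
    · rw [r5a_res_h_lt h1, r5a_res_h_lt h1]
      exact h.h x
    · rw [r5a_res_h_ge h1, r5a_res_h_ge h1]
  · rw [r5a_res_l_lt hx.2] at hl ⊢
    exact h.l0 x hx.1 hl
  · rcases lt_or_ge x μ with h1 | h1
    · rw [r5a_res_l_lt h1] at hl ⊢
      exact h.l1 x L hl
    · rw [r5a_res_l_ge h1] at hl
      cases hl

theorem r5a_setH_mono (h : f ⊆ f') (y : Od) : (setH x f b).h y ⊆ (setH x f' b).h y := by
  by_cases hy : y = x
  · rw [hy, r5a_setH_self, r5a_setH_self]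
    exact h
  · rw [r5a_setH_ne hy, r5a_setH_ne hy]

theorem r5a_agS_symm (h : AgS β q p) : AgS β p q :=
  fun x hx => ⟨(h x hx).1.symm, (h x hx).2.1.symm, (h x hx).2.2.symm⟩

theorem r5a_agS_trans (h : AgS β r q) (h' : AgS β q p) : AgS β r p :=
  fun x hx => ⟨(h x hx).1.trans (h' x hx).1, (h x hx).2.1.trans (h' x hx).2.1,
    (h x hx).2.2.trans (h' x hx).2.2⟩

end RB5aAux

namespace Ctx

variable {C : Ctx} {p q r r' u w b b' : Raw} {t β δ μ η a e x : Od} {f f₀ : Set (Od × Od)}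

theorem r5a_col_sub (h : C.Col x f₀) (hs : f ⊆ f₀) : C.Col x f :=
  ⟨fun i v v' h1 h2 => h.fn i v v' (hs h1) (hs h2), fun i v h1 => h.dom i v (hs h1),
    (Cardinal.mk_le_mk_of_subset hs).trans h.card⟩

theorem r5a_setH_valid (hr : C.Valid r) (hx : x ∈ r.c) (hf : C.Col x f)
    (hv : ∀ i v, (i, v) ∈ f → (∀ y ∈ r.c, x < y → v < (C.B y).ord) ∧
      (x = C.s → v < ((2 : Cardinal.{1}) ^ C.B C.s).ord)) : C.Valid (setH x f r) := by
  refine ⟨hr.ne, hr.bd, hr.cl, fun y hy => ?_, hr.l0, fun y => ?_, fun i v h => ?_,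
    fun y hy z hz i v h => ?_, hr.lim, fun y h1 h2 => ⟨?_, (hr.eas y h1 h2).2⟩, hr.sp⟩
  · rw [r5a_setH_ne (fun h : y = x => hy (h ▸ hx))]
    exact hr.h0 y hy
  · by_cases hy : y = x
    · rw [hy, r5a_setH_self]
      exact hf
    · rw [r5a_setH_ne hy]
      exact hr.col y
  · by_cases hy : C.s = x
    · rw [hy, r5a_setH_self] at h
      exact (hv i v h).2 hy.symm
    · rw [r5a_setH_ne hy] at h
      exact hr.vs i v h
  · by_cases hz' : z = x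
    · rw [hz', r5a_setH_self] at h
      exact (hv i v h).1 y hy (hz' ▸ hz)
    · rw [r5a_setH_ne hz'] at h
      exact hr.bel y hy z hz i v h
  · obtain ⟨y0, hy0, h3⟩ := (hr.eas y h1 h2).1
    rcases lt_or_ge x y with hxy | hxy
    · refine ⟨max y0 x, max_lt hy0 hxy, fun z hz hz' => ?_⟩
      rw [r5a_setH_ne ((le_max_right _ _).trans_lt hz).ne']
      exact h3 z ((le_max_left _ _).trans_lt hz) hz'
    · refine ⟨y0, hy0, fun z hz hz' => ?_⟩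
      rw [r5a_setH_ne (hz'.trans_le hxy).ne]
      exact h3 z hz hz'

/-- Basic facts on the position of a block. -/
theorem r5a_pos (hr : C.Valid r) (hμ : Spec r μ) (hb : C.Insb r μ b) :
    fp b + 1 < μ ∧ (∀ x ∈ b.c, fp b ≤ x ∧ x < μ) ∧ (∀ x, fp b ≤ x → x < μ → x ∉ r.c) ∧
      fp b ∈ b.c ∧ μ ∉ b.c ∧ (∀ x, x < fp b ∨ μ ≤ x → x ∉ b.c) ∧ fp b < μ := by
  obtain ⟨-, h1, h2⟩ := blk_scope hb.blk (spec_inac hr hμ).1
  obtain ⟨h3, h4, -⟩ := fp_mem hb.blk.v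
  refine ⟨h1, fun x hx => ⟨h4 x hx, h2 hx⟩, fun x hx hx' h => (hb.lt x h hx').not_ge hx, h3,
    fun h => lt_irrefl μ (h2 h), fun x hx h => ?_, (lt_add_one _).trans h1⟩
  rcases hx with hx | hx
  · exact hx.not_ge (h4 x h)
  · exact (h2 h).not_ge hx

/-- Outside the block an insertion changes only the data at `μ`. -/
theorem r5a_out (hr : C.Valid r) (hμ : Spec r μ) (hb : C.Insb r μ b) (hx : x < fp b ∨ μ ≤ x) :
    (x ∈ (ins r μ b f).c ↔ x ∈ r.c) ∧ (ins r μ b f).h x = r.h x ∧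
      (x ≠ μ → (ins r μ b f).l x = r.l x) := by
  obtain ⟨-, -, -, p4, -, p6, -⟩ := r5a_pos hr hμ hb
  have hn := p6 x hx
  refine ⟨by rw [rb2_ins_c, or_iff_left hn], ?_, fun h => rb2_ins_l_nmem h hn⟩
  rw [rb2_ins_h, rb2_setH (fun h : x = fp b => hn (h ▸ p4)), hb.blk.v.h0 x hn, union_empty]

/-- Inside the block an insertion has the data of the block. -/
theorem r5a_in (hr : C.Valid r) (hμ : Spec r μ) (hb : C.Insb r μ b) (hx : fp b ≤ x)
    (hx' : x < μ) : (x ∈ (ins r μ b f).c ↔ x ∈ b.c) ∧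
      (ins r μ b f).h x = (setH (fp b) f b).h x ∧ (ins r μ b f).l x = b.l x := by
  obtain ⟨-, -, p3, -⟩ := r5a_pos hr hμ hb
  have hn := p3 x hx hx'
  refine ⟨by rw [rb2_ins_c, or_iff_right hn], by rw [rb2_ins_h, hr.h0 x hn, empty_union], ?_⟩
  by_cases h : x ∈ b.c
  · exact rb2_ins_l_mem hx'.ne h
  · rw [rb2_ins_l_nmem hx'.ne h, hr.l0 x hn, hb.blk.v.l0 x h]

theorem fst_empty (C : Ctx) (b : Raw) : C.Fst b ∅ := by
  refine ⟨⟨fun _ _ _ h => h.elim, fun _ _ h => h.elim, ?_⟩, fun _ _ h => h.elim⟩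
  rw [Cardinal.mk_eq_zero]
  exact zero_le

theorem blk_dt (hb : C.Blk μ b) (hμ : Inac μ) (h : C.DT (fp b + 1) μ b' b) :
    C.Blk μ b' ∧ fp b' = fp b := by
  obtain ⟨h1, h2, -⟩ := fp_mem hb.v
  obtain ⟨h3, h4, -⟩ := fp_mem h.1.v
  obtain ⟨-, -, h5⟩ := blk_scope hb hμ
  have e : fp b' = fp b := by
    refine le_antisymm (h4 _ (h.1.d.c h1)) ?_
    by_contra hn
    rw [not_le] at hn
    exact hn.not_ge (h2 _ ((h.1.lo _ (hn.trans (lt_add_one _))).1.1 h3))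
  refine ⟨⟨h.1.v, bdd_of_below h.1.v hμ (fun x hx => ?_) h.1.bel, e ▸ hb.inac, e ▸ hb.gt,
    e ▸ h.1.d.c hb.nxt, ?_⟩, e⟩
  · by_contra hn
    exact hn (h5 ((h.1.ag.1 x (not_lt.1 hn)).1.1 hx))
  · rw [e, (h.1.lo _ (lt_add_one _)).2.1, hb.h]

theorem blk_cut {μ' : Od} (hb : C.Blk μ b) (h : Bdd μ' b) : C.Blk μ' b := by
  exact ⟨hb.v, h, hb.inac, hb.gt, hb.nxt, hb.h⟩

/-- Direct extensions of blocks do not depend on the cut. -/
theorem dt_cut_change {μ' : Od} (h : C.DT β μ b' b) (hb : C.Valid b) (hμ' : Inac μ')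
    (h₁ : Bdd μ' b') : C.DT β μ' b' b := by
  obtain ⟨h2, h3⟩ := below_of_bdd (C := C) hμ' h₁
  have n' : ∀ x, μ' ≤ x → x ∉ b'.c := fun x hx h' => (h2 h').not_ge hx
  have n : ∀ x, μ' ≤ x → x ∉ b.c := fun x hx h' => n' x hx (h.1.d.c h')
  refine ⟨⟨h.1.v, h.1.d, h.1.lo, ⟨fun x hx => ⟨⟨fun h' => absurd h' (n' x hx),
    fun h' => absurd h' (n x hx)⟩, ?_⟩, fun x hx => ?_⟩, h3⟩, h.2⟩
  · rw [h.1.v.h0 x (n' x hx), hb.h0 x (n x hx)]
  · rw [h.1.v.l0 x (n' x hx.le), hb.l0 x (n x hx.le)]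

theorem ins_good (hr : C.Valid r) (hμ : Spec r μ) (hb : C.Insb r μ b) :
    Good (ins r μ b f) (fp b + 1) ∧ Spec (ins r μ b f) μ ∧ fp b + 1 < μ := by
  obtain ⟨p1, -, -, -, p5, -⟩ := r5a_pos hr hμ hb
  obtain ⟨L, hL⟩ := hμ
  refine ⟨⟨Or.inr hb.blk.nxt, ?_, _, rfl⟩, ⟨_, by rw [rb2_ins_l_self p5, hL]; rfl⟩, p1⟩
  rw [rb2_ins_l_mem p1.ne hb.blk.nxt]
  exact (blk_good hb.blk).2.1

theorem stem_ins_congr (hr : C.Valid r) (hr' : C.Valid r') (hμ : Spec r μ)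
    (h : stem μ r = stem μ r') (hb : C.Insb r μ b) :
    C.Insb r' μ b ∧ stem μ (ins r μ b f) = stem μ (ins r' μ b f) := by
  obtain ⟨h1, h2⟩ := agS_of_stem hr hr' h
  obtain ⟨-, -, -, -, p5, -, p7⟩ := r5a_pos hr hμ hb
  refine ⟨⟨hb.blk, fun x hx hx' => hb.lt x ((h1 x hx').1.2 hx) hx', fun x hx i v hv => ?_⟩,
    stem_of_agS (fun x hx => ⟨?_, ?_, rb2_ins_l_congr p5 (h1 x hx).2.2⟩) ?_⟩
  · rw [← (h1 x (hx.trans p7)).2.1] at hv
    exact hb.bel x hx i v hv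
  · rw [rb2_ins_c, rb2_ins_c, (h1 x hx).1]
  · rw [rb2_ins_h, rb2_ins_h, (h1 x hx).2.1]
  · rw [r5a_sAt_ins p5, r5a_sAt_ins p5, h2]

theorem ins_leS {w₀ : Raw} (h : C.LeS μ w₀ w) (hμ : Spec w μ) (hb : C.Insb w₀ μ b)
    (hf : C.Fst b f₀) (hs : f ⊆ f₀) :
    C.Insb w μ b ∧ C.LeS μ (ins w₀ μ b f₀) (ins w μ b f) := by
  have hw : C.Valid w := h.1.le.1
  have hw₀ : C.Valid w₀ := le_valid h.1.le
  have hμc := spec_mem hw hμ
  have hμ₀ : Spec w₀ μ := (le_spec_iff h.1.le hμc).2 hμ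
  have hb' : C.Insb w μ b := ⟨hb.blk, fun x hx hx' => hb.lt x (le_c h.1.le hx) hx',
    fun x hx i v hv => hb.bel x hx i v (le_h h.1.le x hv)⟩
  refine ⟨hb', ?_⟩
  obtain ⟨-, p2, -, -, p5, p6, p7⟩ := r5a_pos hw hμ hb'
  have hq : C.Valid (ins w μ b f) :=
    ins_valid hw hμ hb' (r5a_col_sub hf.1 hs) fun i v hv => hf.2 i v (hs hv)
  have hq₀ : C.Valid (ins w₀ μ b f₀) := ins_valid hw₀ hμ₀ hb hf.1 hf.2
  obtain ⟨m, hm, hmμ, hmax⟩ := spec_max_below hw hμ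
  have hmb : m < fp b := hb'.lt m hm hmμ
  have hnew : ∀ x, m ≤ x → x ∈ w₀.c → x ∈ w.c := by
    intro x hx hx₀
    by_contra hn
    rcases lt_or_ge x μ with h1 | h1
    · rcases le_new h.1.le hx₀ hn with h2 | ⟨ν, h2, h3, h4, h5⟩
      · exact h1.not_gt (h2 μ hμc)
      · rcases lt_trichotomy ν μ with h6 | h6 | h6
        · exact (h4.trans_le (hmax ν (spec_mem hw h2) h6)).not_ge hx
        · exact h3 (h6 ▸ h.2)
        · exact h1.not_gt (h5 μ hμc h6)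
    · exact hn ((h.1.ag.1 x h1).1.1 hx₀)
  have h1 := mix_le_left h.1.le hm hq (Or.inl hm)
  have h2 : mix m w (ins w μ b f) = ins w μ b f := by
    refine mix_eq_right ⟨fun x hx => ?_, ?_⟩
    · obtain ⟨a1, a2, a3⟩ := r5a_out (f := f) hw hμ hb' (Or.inl (hx.trans hmb))
      exact ⟨a1.symm, a2.symm, (a3 (hx.trans hmμ).ne).symm⟩
    · exact ((r5a_out (f := f) hw hμ hb' (Or.inl hmb)).2.2 hmμ.ne).symm
  rw [h2] at h1
  have hl : ∀ x, x ≠ μ → (ins w₀ μ b f₀).l x = (mix m w₀ (ins w μ b f)).l x := by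
    intro x hx
    rcases le_or_gt x m with h3 | h3
    · rw [rb2_l_le h3, rb2_ins_l_nmem hx (p6 x (Or.inl (h3.trans_lt hmb)))]
    · rw [rb2_l_gt h3, r5a_ins_l_f (f' := f)]
      refine rb2_ins_l_congr p5 ?_
      rcases lt_or_gt_of_ne hx with h4 | h4
      · have n : x ∉ w.c := fun h' => h3.not_ge (hmax x h' h4)
        rw [hw.l0 x n, hw₀.l0 x fun h' => n (hnew x h3.le h')]
      · exact h.1.ag.2 x h4
  have hc : ∀ x, x ∈ (ins w₀ μ b f₀).c ↔ x ∈ (mix m w₀ (ins w μ b f)).c := by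
    intro x
    rcases lt_or_ge x m with h3 | h3
    · rw [rb2_c_lt h3, rb2_ins_c, or_iff_left (p6 x (Or.inl (h3.trans hmb)))]
    · rw [rb2_c_ge h3, rb2_ins_c, rb2_ins_c]
      exact or_congr ⟨hnew x h3, fun h' => le_c h.1.le h'⟩ Iff.rfl
  have h3 : Dle (ins w₀ μ b f₀) (mix m w₀ (ins w μ b f)) := by
    refine ⟨fun x hx => (hc x).2 hx, fun x hx hn => absurd ((hc x).1 hx) hn, fun x => ?_,
      fun x _ hl' => ?_, fun x L hL => ?_⟩
    · rcases lt_or_ge x m with h3 | h3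
      · rw [rb2_h_lt h3, rb2_ins_h]
        exact subset_union_left
      · rw [rb2_h_ge h3, rb2_ins_h, rb2_ins_h]
        exact union_subset_union (le_h h.1.le x) (r5a_setH_mono hs x)
    · by_cases hx : x = μ
      · obtain ⟨L, hL⟩ := hμ
        rw [hx, rb2_l_gt hmμ, rb2_ins_l_self p5, hL] at hl'
        cases hl'
      · rw [hl x hx, hl']
    · by_cases hx : x = μ
      · obtain ⟨L₁, hL₁⟩ := hμ
        obtain ⟨L₀, e0, e1, e2, -⟩ := le_l1 h.1.le hL₁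
        have e3 : L₀.s = L₁.s := by
          have := h.2
          simpa only [sAt, e0, hL₁, Option.map_some, Option.some.injEq] using this
        rw [hx, rb2_l_gt hmμ, rb2_ins_l_self p5, hL₁] at hL
        obtain rfl := Option.some.inj hL
        refine ⟨⟨L₀.A, L₀.F, insert (fp b) L₀.s⟩, by rw [hx, rb2_ins_l_self p5, e0]; rfl,
          e1, e2, ?_⟩
        rw [e3]
      · exact ⟨L, by rw [hl x hx, hL], subset_rfl, fun _ _ => subset_rfl, rfl⟩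
  refine ⟨⟨le_trans' (le_of_dle (le_valid h1.le) hq₀ h3) h1.le, ⟨fun x hx => ?_, fun x hx => ?_⟩,
    hq₀.bel μ (Or.inl (le_c h.1.le hμc))⟩, ?_⟩
  · obtain ⟨a1, a2, -⟩ := r5a_out (f := f₀) hw₀ hμ₀ hb (Or.inr hx)
    obtain ⟨b1, b2, -⟩ := r5a_out (f := f) hw hμ hb' (Or.inr hx)
    rw [a1, a2, b1, b2]
    exact h.1.ag.1 x hx
  · rw [r5a_ins_l_f (f' := f)]
    exact rb2_ins_l_congr p5 (h.1.ag.2 x hx)
  · rw [r5a_sAt_ins p5, r5a_sAt_ins p5, h.2]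

theorem ins_leT_fst (hr : C.Valid r) (hμ : Spec r μ) (hb : C.Insb r μ b) (hf : C.Fst b f) :
    C.LeT (fp b + 1) (ins r μ b f) (ins r μ b ∅) := by
  have hq : C.Valid (ins r μ b f) := ins_valid hr hμ hb hf.1 hf.2
  have hq₀ : C.Valid (ins r μ b ∅) := ins_valid hr hμ hb (C.fst_empty b).1 (C.fst_empty b).2
  refine ⟨le_of_dle hq₀ hq ⟨subset_rfl, fun x hx hn => absurd hx hn, fun x => ?_, fun x _ hl => hl,
    fun x L hL => ⟨L, hL, subset_rfl, fun _ _ => subset_rfl, rfl⟩⟩,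
    ⟨fun x hx => ⟨Iff.rfl, ?_⟩, fun x _ => rfl⟩, hq.bel _ (Or.inr hb.blk.nxt)⟩
  · rw [rb2_ins_h, rb2_ins_h]
    exact union_subset_union subset_rfl (r5a_setH_mono (empty_subset f) x)
  · have h1 : x ≠ fp b := ((lt_add_one _).trans_le hx).ne'
    rw [rb2_ins_h, rb2_ins_h, rb2_setH h1, rb2_setH h1]

theorem ins_dt (hr : C.Valid r) (hμ : Spec r μ) (hb : C.Insb r μ b) (hf : C.Fst b f)
    (h : C.DT (fp b + 1) μ b' b) (hc : b'.c = b.c) :
    C.Insb r μ b' ∧ C.DT (fp b + 1) μ (ins r μ b' f) (ins r μ b f) := by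
  obtain ⟨h1, e⟩ := blk_dt hb.blk (spec_inac hr hμ).1 h
  have hb' : C.Insb r μ b' := ⟨h1, e ▸ hb.lt, e ▸ hb.bel⟩
  obtain ⟨p1, -, -, -, p5, -⟩ := r5a_pos hr hμ hb
  have p5' : μ ∉ b'.c := hc ▸ p5
  have hq : C.Valid (ins r μ b' f) := ins_valid hr hμ hb' (e ▸ hf.1) (e ▸ hf.2)
  have hcc : ∀ x, x ∈ (ins r μ b' f).c ↔ x ∈ (ins r μ b f).c := fun x => by
    rw [rb2_ins_c, rb2_ins_c, hc]
  have hl : ∀ x, b'.l x = b.l x ∨ x ∉ b.c → (ins r μ b' f).l x = (ins r μ b f).l x := by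
    intro x hx
    by_cases h2 : x = μ
    · rw [h2, rb2_ins_l_self p5, rb2_ins_l_self p5', e]
    · by_cases h3 : x ∈ b.c
      · rw [rb2_ins_l_mem h2 h3, rb2_ins_l_mem h2 (hc ▸ h3)]
        exact hx.resolve_right (not_not.2 h3)
      · rw [rb2_ins_l_nmem h2 h3, rb2_ins_l_nmem h2 (hc ▸ h3)]
  have hh : ∀ x, b'.h x = b.h x → (ins r μ b' f).h x = (ins r μ b f).h x := by
    intro x hx
    rw [rb2_ins_h, rb2_ins_h, e]
    by_cases h2 : x = fp b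
    · rw [h2, r5a_setH_self, r5a_setH_self]
    · rw [r5a_setH_ne h2, r5a_setH_ne h2, hx]
  refine ⟨hb', ⟨hq, ⟨fun x hx => (hcc x).2 hx, fun x hx hn => absurd ((hcc x).1 hx) hn,
    fun x => ?_, fun x _ hl' => ?_, fun x L hL => ?_⟩,
    fun x hx => ⟨hcc x, hh x (h.1.lo x hx).2.1, hl x (Or.inl (h.1.lo x hx).2.2)⟩,
    ⟨fun x hx => ⟨hcc x, hh x (h.1.ag.1 x hx).2⟩, fun x hx => hl x (Or.inl (h.1.ag.2 x hx))⟩,
    hq.bel μ (Or.inl (spec_mem hr hμ))⟩, hl _ (Or.inl h.2)⟩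
  · rw [rb2_ins_h, rb2_ins_h, e]
    refine union_subset_union subset_rfl ?_
    by_cases h2 : x = fp b
    · rw [h2, r5a_setH_self, r5a_setH_self]
    · rw [r5a_setH_ne h2, r5a_setH_ne h2]
      exact h.1.d.h x
  · by_cases h3 : x ∈ b.c
    · have h2 : x ≠ μ := fun h' => p5 (h' ▸ h3)
      rw [rb2_ins_l_mem h2 h3] at hl'
      rw [rb2_ins_l_mem h2 (hc ▸ h3)]
      exact h.1.d.l0 x h3 hl'
    · rw [hl x (Or.inr h3), hl']
  · by_cases h3 : x ∈ b.c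
    · have h2 : x ≠ μ := fun h' => p5 (h' ▸ h3)
      rw [rb2_ins_l_mem h2 h3] at hL
      rw [rb2_ins_l_mem h2 (hc ▸ h3)]
      exact h.1.d.l1 x L hL
    · exact ⟨L, by rw [hl x (Or.inr h3), hL], subset_rfl, fun _ _ => subset_rfl, rfl⟩

theorem ins_up (hr : C.Valid r) (hμ : Spec r μ) (hb : C.Insb r μ b)
    (h : C.DT (fp b + 1) μ u (ins r μ b ∅)) :
    ∃ b', C.DT (fp b + 1) μ b' b ∧ b'.c = b.c ∧ stem μ u = stem μ (ins r μ b' ∅) := by
  obtain ⟨p1, p2, p3, -, p5, p6, -⟩ := r5a_pos hr hμ hb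
  have hq : C.Valid (ins r μ b ∅) := ins_valid hr hμ hb (C.fst_empty b).1 (C.fst_empty b).2
  have hμq : μ ∈ (ins r μ b ∅).c := Or.inl (spec_mem hr hμ)
  have huc : u.c = (ins r μ b ∅).c := ds_c_eq h.1 hμq
  have hμu : Spec u μ :=
    (le_spec_iff (le_of_dle hq h.1.v h.1.d) hμq).2 (ins_good hr hμ hb).2.1
  obtain ⟨s1, -, -⟩ := res_scope h.1.v hμu
  have h1 : C.DT (fp b + 1) μ (res μ u) (res μ (ins r μ b ∅)) := by
    refine ⟨⟨s1.v, r5a_res_dle h.1.d, fun x hx => ?_, ⟨fun x hx => ⟨?_, ?_⟩, fun x hx => ?_⟩,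
      s1.bel⟩, ?_⟩
    · have hx' := hx.trans p1
      rw [r5a_res_c, r5a_res_c, r5a_res_h_lt hx', r5a_res_h_lt hx', r5a_res_l_lt hx',
        r5a_res_l_lt hx', huc]
      exact ⟨Iff.rfl, (h.1.lo x hx).2⟩
    · rw [r5a_res_c, r5a_res_c, huc]
    · rw [r5a_res_h_ge hx, r5a_res_h_ge hx]
    · rw [r5a_res_l_ge hx.le, r5a_res_l_ge hx.le]
    · rw [r5a_res_l_lt p1, r5a_res_l_lt p1, h.2]
  have h2 := mix_dt h1 ⟨Or.inr hb.blk.nxt, p1⟩ p1.le hb.blk.v hb.blk.nxt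
  have h3 : mix (fp b + 1) b (res μ (ins r μ b ∅)) = b := by
    refine mix_eq_left ⟨fun x hx => ?_, fun x hx => ?_⟩
    · have hx0 : fp b < x := (lt_add_one _).trans_le hx
      rcases lt_or_ge x μ with h4 | h4
      · obtain ⟨a1, a2, -⟩ := r5a_in (f := ∅) hr hμ hb hx0.le h4
        rw [r5a_res_c, r5a_res_h_lt h4, a1, a2, r5a_setH_ne hx0.ne', and_iff_left h4]
        exact ⟨Iff.rfl, rfl⟩
      · have n := p6 x (Or.inr h4)
        rw [r5a_res_h_ge h4, hb.blk.v.h0 x n]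
        exact ⟨⟨fun h' => absurd h' n, fun h' => absurd h'.2 (not_lt.2 h4)⟩, rfl⟩
    · have hx0 : fp b < x := (lt_add_one _).trans hx
      rcases lt_or_ge x μ with h4 | h4
      · rw [r5a_res_l_lt h4, (r5a_in (f := ∅) hr hμ hb hx0.le h4).2.2]
      · rw [r5a_res_l_ge h4, hb.blk.v.l0 x (p6 x (Or.inr h4))]
  rw [h3] at h2
  have h4 : (mix (fp b + 1) b (res μ u)).c = b.c := by
    ext x
    rcases lt_or_ge x (fp b + 1) with h5 | h5
    · rw [rb2_c_lt h5]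
    · rw [rb2_c_ge h5, r5a_res_c, huc, rb2_ins_c]
      exact ⟨fun h' => h'.1.resolve_left (p3 x ((lt_add_one _).le.trans h5) h'.2),
        fun h' => ⟨Or.inr h', (p2 x h').2⟩⟩
  obtain ⟨hb', h5⟩ := ins_dt hr hμ hb (C.fst_empty b) h2 h4
  have e := (blk_dt hb.blk (spec_inac hr hμ).1 h2).2
  refine ⟨_, h2, h4, stem_of_agS (fun x hx => ?_) ?_⟩
  · rcases lt_or_ge x (fp b + 1) with h6 | h6
    · exact r5a_agS_trans h.1.lo (r5a_agS_symm h5.1.lo) x h6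
    · have hx0 : fp b < x := (lt_add_one _).trans_le h6
      obtain ⟨a1, a2, a3⟩ := r5a_in (f := ∅) hr hμ hb' (e.trans_le hx0.le) hx
      refine ⟨?_, ?_, ?_⟩
      · rw [a1, rb2_c_ge h6, r5a_res_c, and_iff_left hx]
      · rw [a2, r5a_setH_ne (e.trans_lt hx0).ne', rb2_h_ge h6, r5a_res_h_lt hx]
      · rcases h6.lt_or_eq with h7 | h7
        · rw [a3, rb2_l_gt h7, r5a_res_l_lt hx]
        · rw [← h7, h.2, h5.2]
  · rw [h.1.d.sAt_eq hμq, h5.1.d.sAt_eq hμq]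

theorem ins_low (hr : C.Valid r) (hμ : Spec r μ) (hb : C.Insb r μ b) (hf : C.Fst b f)
    (h : C.LeT (fp b + 1) w (ins r μ b f)) :
    ∃ r', C.LeS μ r' r ∧ r'.l μ = r.l μ ∧ C.Insb r' μ b ∧ res μ r' = res (fp b) w ∧
      Bdd (fp b) (res μ r') ∧ C.Fst b (w.h (fp b)) ∧ f ⊆ w.h (fp b) ∧
      w = ins r' μ b (w.h (fp b)) := by
  have _ := hf
  obtain ⟨p1, p2, p3, p4, p5, p6, p7⟩ := r5a_pos hr hμ hb
  have hw : C.Valid w := le_valid h.le
  have hμc := spec_mem hr hμ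
  obtain ⟨m, hm, hmμ, hmax⟩ := spec_max_below hr hμ
  have hmb : m < fp b := hb.lt m hm hmμ
  have hadj : Adj (ins r μ b f) m (fp b) := by
    refine ⟨Or.inl hm, Or.inr p4, hmb, fun z hz hz' => ?_, ?_⟩
    · rcases hz with hz | hz
      · by_contra hn
        rw [not_le] at hn
        exact hz'.not_ge (hmax z hz (hn.trans p7))
      · exact (p2 z hz).1
    · rw [rb2_ins_l_mem p7.ne p4]
      exact (fp_mem hb.blk.v).2.2
  obtain ⟨a1, a2, -, a4, a5⟩ := le_adj h.le hadj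
  have hgood := le_good h.le (ins_good (f := f) hr hμ hb).1
  have hv2 : C.Valid (setH m (w.h m) r) := by
    refine r5a_setH_valid hr hm (hw.col m) fun i v hv => ⟨fun y hy hy' => ?_, fun e => ?_⟩
    · refine (hw.bel _ a2 m hmb i v hv).trans_le (C.RB3_ord_mono (p7.le.trans ?_))
      by_contra hn
      rw [not_le] at hn
      exact hy'.not_ge (hmax y hy hn)
    · exact hw.vs i v (e ▸ hv)
  have hd2 : Dle (setH m (w.h m) r) r := by
    refine ⟨subset_rfl, fun x hx hn => absurd hx hn, fun x => ?_, fun x _ hl => hl,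
      fun x L hL => ⟨L, hL, subset_rfl, fun _ _ => subset_rfl, rfl⟩⟩
    by_cases hx : x = m
    · rw [hx, r5a_setH_self, ← (r5a_out (f := f) hr hμ hb (Or.inl hmb)).2.1]
      exact le_h h.le m
    · rw [r5a_setH_ne hx]
  have h1 := mix_le_left h.le (Or.inl hm) hv2 hm
  have h2 : mix m (ins r μ b f) (setH m (w.h m) r) = setH m (w.h m) r := by
    refine mix_eq_right ⟨fun x hx => ?_, ?_⟩
    · obtain ⟨b1, b2, b3⟩ := r5a_out (f := f) hr hμ hb (Or.inl (hx.trans hmb))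
      exact ⟨b1, by rw [b2, r5a_setH_ne hx.ne], b3 (hx.trans hmμ).ne⟩
    · exact (r5a_out (f := f) hr hμ hb (Or.inl hmb)).2.2 hmμ.ne
  rw [h2] at h1
  generalize hr' : mix m w (setH m (w.h m) r) = r' at h1
  have hv' : C.Valid r' := le_valid h1.le
  have lo : ∀ x, x ≤ m → (x ∈ r'.c ↔ x ∈ w.c) ∧ r'.h x = w.h x ∧ r'.l x = w.l x := by
    intro x hx
    subst hr'
    refine ⟨?_, ?_, rb2_l_le hx⟩
    · rcases hx.lt_or_eq with h3 | h3
      · exact rb2_c_lt h3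
      · rw [h3, rb2_c_ge le_rfl]
        exact ⟨fun _ => a1, fun _ => hm⟩
    · rcases hx.lt_or_eq with h3 | h3
      · exact rb2_h_lt h3
      · rw [h3, rb2_h_ge le_rfl, r5a_setH_self]
  have hi : ∀ x, m < x → (x ∈ r'.c ↔ x ∈ r.c) ∧ r'.h x = r.h x ∧ r'.l x = r.l x := by
    intro x hx
    subst hr'
    exact ⟨rb2_c_ge hx.le, by rw [rb2_h_ge hx.le, r5a_setH_ne hx.ne'], rb2_l_gt hx⟩
  have nr : ∀ x, m < x → x < μ → x ∉ r.c := fun x hx hx' h' => hx.not_ge (hmax x h' hx')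
  have lo' : AgS (fp b) r' w := by
    intro x hx
    rcases le_or_gt x m with h3 | h3
    · exact lo x h3
    · have n1 := nr x h3 (hx.trans p7)
      have n2 : x ∉ w.c := fun h' => hx.not_ge (a4 x h' h3)
      obtain ⟨b1, b2, b3⟩ := hi x h3
      rw [b1, b2, b3, hr.h0 x n1, hr.l0 x n1, hw.h0 x n2, hw.l0 x n2]
      exact ⟨⟨fun h' => absurd h' n1, fun h' => absurd h' n2⟩, rfl, rfl⟩
  have hlμ : r'.l μ = r.l μ := (hi μ hmμ).2.2
  have hμ' : Spec r' μ := by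
    obtain ⟨L, hL⟩ := hμ
    exact ⟨L, hlμ.trans hL⟩
  have hb' : C.Insb r' μ b := by
    refine ⟨hb.blk, fun x hx hx' => ?_, fun x hx i v hv => ?_⟩
    · rcases le_or_gt x m with h3 | h3
      · exact h3.trans_lt hmb
      · exact absurd ((hi x h3).1.1 hx) (nr x h3 hx')
    · rw [(lo' x hx).2.1] at hv
      exact hw.bel _ a2 x hx i v hv
  have hres : res μ r' = res (fp b) w := by
    refine Raw.ext (Set.ext fun x => ?_) (funext fun x => ?_) (funext fun x => ?_)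
    · rw [r5a_res_c, r5a_res_c]
      exact ⟨fun h' => ⟨(lo' x (hb'.lt x h'.1 h'.2)).1.1 h'.1, hb'.lt x h'.1 h'.2⟩,
        fun h' => ⟨(lo' x h'.2).1.2 h'.1, h'.2.trans p7⟩⟩
    · rcases lt_or_ge x (fp b) with h3 | h3
      · rw [r5a_res_h_lt h3, r5a_res_h_lt (h3.trans p7), (lo' x h3).2.1]
      · rw [r5a_res_h_ge h3]
        rcases lt_or_ge x μ with h4 | h4
        · rw [r5a_res_h_lt h4, (hi x (hmb.trans_le h3)).2.1, hr.h0 x (p3 x h3 h4)]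
        · rw [r5a_res_h_ge h4]
    · rcases lt_or_ge x (fp b) with h3 | h3
      · rw [r5a_res_l_lt h3, r5a_res_l_lt (h3.trans p7), (lo' x h3).2.2]
      · rw [r5a_res_l_ge h3]
        rcases lt_or_ge x μ with h4 | h4
        · rw [r5a_res_l_lt h4, (hi x (hmb.trans_le h3)).2.2, hr.l0 x (p3 x h3 h4)]
        · rw [r5a_res_l_ge h4]
  refine ⟨r', ⟨⟨le_trans' h1.le (le_of_dle hr hv2 hd2),
    ⟨fun x hx => ⟨(hi x (hmμ.trans_le hx)).1, (hi x (hmμ.trans_le hx)).2.1⟩,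
      fun x hx => (hi x (hmμ.trans hx)).2.2⟩, hv'.bel μ ((hi μ hmμ).1.2 hμc)⟩,
    by rw [sAt, sAt, hlμ]⟩, hlμ, hb', hres, ?_,
    ⟨hw.col _, fun i v hv => hw.bel _ hgood.1 _ (lt_add_one _) i v hv⟩, ?_, ?_⟩
  · refine bdd_of_below (res_scope hv' hμ').1.v hb.blk.inac (fun x hx => hb'.lt x hx.1 hx.2)
      fun x hx i v hv => ?_
    rw [r5a_res_h_lt (hx.trans p7)] at hv
    exact hb'.bel x hx i v hv
  · refine Subset.trans ?_ (le_h h.le (fp b))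
    rw [rb2_ins_h, r5a_setH_self]
    exact subset_union_right
  · have key : ∀ x, (x ∈ w.c ↔ x ∈ (ins r' μ b (w.h (fp b))).c) ∧
        w.h x = (ins r' μ b (w.h (fp b))).h x ∧ w.l x = (ins r' μ b (w.h (fp b))).l x := by
      intro x
      rcases lt_trichotomy x (fp b) with h3 | h3 | h3
      · obtain ⟨b1, b2, b3⟩ := r5a_out (f := w.h (fp b)) hv' hμ' hb' (Or.inl h3)
        rw [b1, b2, b3 (h3.trans p7).ne]
        exact r5a_agS_symm lo' x h3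
      · obtain ⟨b1, b2, b3⟩ := r5a_in (f := w.h (fp b)) hv' hμ' hb' le_rfl p7
        rw [h3, b1, b2, b3, r5a_setH_self, a5, (fp_mem hb.blk.v).2.2]
        exact ⟨⟨fun _ => p4, fun _ => a2⟩, rfl, rfl⟩
      · have h4 : fp b + 1 ≤ x := Order.add_one_le_of_lt h3
        obtain ⟨b1, b2, b3⟩ := hi x (hmb.trans h3)
        obtain ⟨c1, c2⟩ := h.ag.1 x h4
        refine ⟨?_, ?_, ?_⟩
        · rw [c1, rb2_ins_c, rb2_ins_c, b1]
        · rw [c2, rb2_ins_h, rb2_ins_h, b2, rb2_setH h3.ne', rb2_setH h3.ne']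
        · rcases h4.lt_or_eq with h5 | h5
          · rw [h.ag.2 x h5, r5a_ins_l_f (f' := w.h (fp b))]
            exact rb2_ins_l_congr p5 b3.symm
          · rw [← h5, hgood.2.1, (ins_good hv' hμ' hb').1.2.1]
    exact Raw.ext (Set.ext fun x => (key x).1) (funext fun x => (key x).2.1)
      (funext fun x => (key x).2.2)

theorem eq_of_res (h₁ : res μ r' = res μ r) (h₂ : r'.l μ = r.l μ) (h₃ : Agree μ r' r) : r' = r := by
  refine eq_of_agLo_agree ⟨r5a_agS_trans (r5a_agS_symm (agS_res μ r')) ?_, h₂⟩ h₃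
  rw [h₁]
  exact agS_res μ r

/-- Replacement of the measure one set and of the constraints at a special point. -/
theorem shrink {L : Lo} (hr : C.Scope t r) (hL : r.l μ = some L) (ht : μ ≤ t) {A : Set Od}
    (hA : A ∈ C.W μ) (hAL : A ⊆ L.A) (φ : Od → Set (Od × Od))
    (hφ : ∀ ξ ∈ A, C.Blk μ (C.dec ξ) ∧ C.Fst (C.dec ξ) (φ ξ) ∧ sec L.F ξ ⊆ φ ξ) :
    ∃ w L', C.DS μ t w r ∧ Agree μ w r ∧ w.l μ = some L' ∧ L'.A = A ∧
      ∀ ξ ∈ A, sec L'.F ξ = φ ξ := by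
  have hv := hr.v
  have hLV := hv.sp μ L hL
  have hin : Inac μ := sp_inac hLV.sp
  let L' : Lo := ⟨A, {z | z.1 ∈ A ∧ z.2 ∈ φ z.1}, L.s⟩
  have hsec : ∀ ξ ∈ A, sec L'.F ξ = φ ξ := fun ξ hξ =>
    Set.ext fun z => ⟨fun h => h.2, fun h => ⟨hξ, h⟩⟩
  have hl : (setL μ (fun _ => L') r).l μ = some L' := by
    rw [r5a_setL_self, hL]
    rfl
  have hn : ∀ x, r.l x = none → (setL μ (fun _ => L') r).l x = none := by
    intro x hx
    have h1 : x ≠ μ := by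
      rintro rfl
      rw [hL] at hx
      cases hx
    rw [r5a_setL_ne h1, hx]
  have hag : Agree μ (setL μ (fun _ => L') r) r :=
    ⟨fun x _ => ⟨Iff.rfl, rfl⟩, fun x hx => r5a_setL_ne hx.ne'⟩
  refine ⟨setL μ (fun _ => L') r, L', ⟨⟨hv.ne, hv.bd, hv.cl, hv.h0,
    fun x hx => hn x (hv.l0 x hx), hv.col, hv.vs, hv.bel, fun x hx => hn x (hv.lim x hx),
    fun x h1 h2 => ⟨?_, (hv.eas x h1 h2).2⟩, fun x L₁ h1 => ?_⟩,
    ⟨subset_rfl, fun x hx hx' => absurd hx hx', fun x => subset_rfl, fun x _ h1 => hn x h1,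
      fun x L₁ h1 => ?_⟩, fun x hx => ⟨Iff.rfl, rfl, r5a_setL_ne hx.ne⟩, hag.mono ht, hr.bel⟩,
    hag, hl, rfl, hsec⟩
  · obtain ⟨y, hy, h3⟩ := (hv.eas x h1 h2).1
    exact ⟨y, hy, fun z hz hz' => ⟨(h3 z hz hz').1, hn z (h3 z hz hz').2⟩⟩
  · by_cases hx : x = μ
    · rw [hx, hl] at h1
      obtain rfl := Option.some.inj h1
      rw [hx]
      refine ⟨hLV.sp, hLV.gt, hLV.pre, hA, hAL.trans hLV.Alt, ?_, fun ξ hξ => ?_, hLV.fin, hLV.s⟩
      · rintro ⟨ξ, i, v⟩ ⟨h2, h3⟩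
        obtain ⟨b1, b2, -⟩ := hφ ξ h2
        have b3 := C.bf.lt_inac hin (blk_scope b1 hin).2.1
        exact ⟨hLV.Alt (hAL h2), ((b2.1.dom i v h3).trans_le (C.dm_le _)).trans b3,
          (b2.2 i v h3).trans b3⟩
      · rw [hsec ξ hξ]
        exact (hφ ξ hξ).2.1
    · rw [r5a_setL_ne hx] at h1
      exact hv.sp x L₁ h1
  · by_cases hx : x = μ
    · rw [hx, hL] at h1
      obtain rfl := Option.some.inj h1
      refine ⟨L', hx ▸ hl, hAL, fun ξ hξ => ?_, rfl⟩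
      rw [hsec ξ hξ]
      exact (hφ ξ hξ).2.2
    · exact ⟨L₁, by rw [r5a_setL_ne hx, h1], subset_rfl, fun _ _ => subset_rfl, rfl⟩

end Ctx

end Pool.Agent.MP_85ce7b_lc
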