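import Pool.Agent.MP_85ce7b_lc.L.RB5

namespace Pool.Agent.MP_85ce7b_lc

open Set Cardinal Ordinal Dat

namespace Ctx

variable {C : Ctx} {p : Raw} {t β μ ν : Od}

theorem rc_col_union {x : Od} (f : Od → Set (Od × Od)) (I : Set Od) (hI : I ⊆ Iio ν)
    (hν : ν.card ≤ C.B x) (hf : ∀ i ∈ I, C.Col x (f i))
    (hm : ∀ i ∈ I, ∀ j ∈ I, i ≤ j → f i ⊆ f j) : C.Col x {z | ∃ i ∈ I, z ∈ f i} := by
  refine ⟨?_, ?_, ?_⟩
  · rintro i v v' ⟨a, ha, h1⟩ ⟨b, hb, h2⟩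
    rcases le_total a b with h | h
    · exact (hf b hb).fn i v v' (hm a ha b hb h h1) h2
    · exact (hf a ha).fn i v v' h1 (hm b hb a ha h h2)
  · rintro i v ⟨a, ha, h1⟩
    exact (hf a ha).dom i v h1
  · have e : {z | ∃ i ∈ I, z ∈ f i} = ⋃ i : I, f i := by
      ext z
      simp
    rw [e]
    have h1 : Cardinal.mk I ≤ lift.{2} (C.B x) := by
      refine (Cardinal.mk_le_mk_of_subset hI).trans ?_
      rw [Cardinal.mk_Iio_ordinal]
      exact Cardinal.lift_le.2 hν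
    have h2 : ℵ₀ ≤ lift.{2} (C.B x) := Cardinal.aleph0_le_lift.2 (C.bf.aleph0_le x)
    refine Cardinal.mk_iUnion_le_sum_mk.trans ?_
    refine (Cardinal.sum_le_sum _ (fun _ => lift.{2} (C.B x)) fun i : I => (hf i.1 i.2).card).trans ?_
    rw [Cardinal.sum_const']
    calc Cardinal.mk I * lift.{2} (C.B x) ≤ lift.{2} (C.B x) * lift.{2} (C.B x) := by gcongr
      _ = _ := Cardinal.mul_eq_self h2

/-- Union of a chain of collapse conditions. -/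
theorem col_chain {x : Od} (f : Od → Set (Od × Od)) (hν : ν.card ≤ C.B x)
    (hf : ∀ i < ν, C.Col x (f i)) (hm : ∀ i j, i ≤ j → j < ν → f i ⊆ f j) :
    C.Col x {z | ∃ i < ν, z ∈ f i} :=
  rc_col_union f (Iio ν) subset_rfl hν hf fun i _ j hj h => hm i j h hj

theorem rc_lv_mono {c c' : Set Od} {L : Lo} (h : C.LV c μ L) (hc : ∀ y ∈ c, y < μ → y ∈ c') :
    C.LV c' μ L := by
  refine ⟨h.sp, h.gt, ?_, h.A, h.Alt, h.Fb, h.F, h.fin, fun z hz => ?_⟩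
  · obtain ⟨y, h1, h2⟩ := h.pre
    exact ⟨y, hc y h1 h2, h2⟩
  · obtain ⟨y, h1, h2, h3⟩ := h.s z hz
    exact ⟨y, hc y h1 h3, h2, h3⟩

theorem rc_lv_cut {c : Set Od} {L : Lo} (h : C.LV c μ L) {m : Od} (hm : m < μ) :
    C.LV c μ ⟨L.A ∩ {ξ | m < fp (C.dec ξ)}, L.F, L.s⟩ := by
  refine ⟨h.sp, h.gt, h.pre, ?_, fun x hx => h.Alt hx.1, h.Fb, fun ξ hξ => h.F ξ hξ.1, h.fin, h.s⟩
  refine Filter.inter_mem h.A (Filter.mem_of_superset ((C.good μ h.sp).w0 m hm) ?_)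
  exact fun ξ hξ => hξ.2.2

theorem rc_lo_set {c : Set Od} (L : Od → Lo) (I : Set Od) (hI : I ⊆ Iio ν) {i0 : Od}
    (h0 : i0 ∈ I) (hν : ν < μ) (hL : ∀ i ∈ I, C.LV c μ (L i))
    (hm : ∀ i ∈ I, ∀ j ∈ I, i ≤ j → (L j).A ⊆ (L i).A ∧
      (∀ ξ ∈ (L j).A, sec (L i).F ξ ⊆ sec (L j).F ξ) ∧ (L j).s = (L i).s) :
    ∃ L', C.LV c μ L' ∧ ∀ i ∈ I, L'.A ⊆ (L i).A ∧
      (∀ ξ ∈ L'.A, sec (L i).F ξ ⊆ sec L'.F ξ) ∧ L'.s = (L i).s := by
  have hg := C.good μ (hL i0 h0).sp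
  let A : Set Od := {ξ | ∀ i < ν, ξ ∈ {ξ | i ∈ I → ξ ∈ (L i).A}} ∩
    {ξ | ξ < μ ∧ C.Blk μ (C.dec ξ) ∧ ν < fp (C.dec ξ)}
  have hA : A ∈ C.W μ := by
    refine Filter.inter_mem (hg.comp ν hν _ fun i _ => ?_) (hg.w0 ν hν)
    by_cases hi : i ∈ I
    · exact Filter.mem_of_superset (hL i hi).A fun ξ hξ _ => hξ
    · exact Filter.mem_of_superset Filter.univ_mem fun ξ _ h => absurd h hi
  have hAi : ∀ i ∈ I, A ⊆ (L i).A := fun i hi ξ hξ => hξ.1 i (hI hi) hi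
  refine ⟨⟨A, {z | ∃ i ∈ I, z ∈ (L i).F}, (L i0).s⟩, ⟨(hL i0 h0).sp, (hL i0 h0).gt,
    (hL i0 h0).pre, hA, fun ξ hξ => hξ.2.1, ?_, fun ξ hξ => ⟨?_, ?_⟩, (hL i0 h0).fin,
    (hL i0 h0).s⟩, fun i hi => ⟨hAi i hi, fun ξ _ z hz => ⟨i, hi, hz⟩, ?_⟩⟩
  · rintro z ⟨i, hi, hz⟩
    exact (hL i hi).Fb hz
  · exact rc_col_union (fun i => sec (L i).F ξ) I hI
      ((Ordinal.card_le_card hξ.2.2.2.le).trans (C.bf.card_le _))
      (fun i hi => ((hL i hi).F ξ (hAi i hi hξ)).1)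
      fun i hi j hj h => (hm i hi j hj h).2.1 ξ (hAi j hj hξ)
  · rintro i v ⟨j, hj, hz⟩
    exact ((hL j hj).F ξ (hAi j hj hξ)).2 i v hz
  · rcases le_total i i0 with h | h
    · exact (hm i hi i0 h0 h).2.2
    · exact (hm i0 h0 i hi h).2.2.symm

/-- Lower bound of a short chain of data at a special point. -/
theorem lo_chain {c : Set Od} (L : Od → Lo) (h0 : 0 < ν) (hν : ν < μ)
    (hL : ∀ i < ν, C.LV c μ (L i))
    (hm : ∀ i j, i ≤ j → j < ν → (L j).A ⊆ (L i).A ∧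
      (∀ ξ ∈ (L j).A, sec (L i).F ξ ⊆ sec (L j).F ξ) ∧ (L j).s = (L i).s) :
    ∃ L', C.LV c μ L' ∧ ∀ i < ν, L'.A ⊆ (L i).A ∧
      (∀ ξ ∈ L'.A, sec (L i).F ξ ⊆ sec L'.F ξ) ∧ L'.s = (L i).s :=
  rc_lo_set L (Iio ν) subset_rfl (i0 := 0) h0 hν hL fun i _ j hj h => hm i j h hj

/-- Diagonal lower bound of a long chain of data at a special point. -/
theorem lo_diag {c : Set Od} (L : Od → Lo) (hL : ∀ i < μ, C.LV c μ (L i)) (h0 : 0 < μ)
    (hm : ∀ i j, i ≤ j → j < μ → (L j).A ⊆ (L i).A ∧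
      (∀ ξ ∈ (L j).A, sec (L i).F ξ ⊆ sec (L j).F ξ) ∧ (L j).s = (L i).s) :
    ∃ L', C.LV c μ L' ∧ L'.A ⊆ (L 0).A ∧ L'.s = (L 0).s ∧ ∀ i < μ, ∀ ξ ∈ L'.A,
      i < fp (C.dec ξ) → ξ ∈ (L i).A ∧ sec (L i).F ξ ⊆ sec L'.F ξ := by
  classical
  have hg := C.good μ (hL 0 h0).sp
  have hD : {ξ | ∀ i < fp (C.dec ξ), i < μ → ξ ∈ (L i).A} ∈ C.W μ := by
    by_contra hn
    have hc := Ultrafilter.compl_mem_iff_notMem.2 hn
    have hex : ∀ ξ, ∃ a, ξ ∈ {ξ | ∀ i < fp (C.dec ξ), i < μ → ξ ∈ (L i).A}ᶜ →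
        a < fp (C.dec ξ) ∧ a < μ ∧ ξ ∉ (L a).A := by
      intro ξ
      by_cases h : ξ ∈ {ξ | ∀ i < fp (C.dec ξ), i < μ → ξ ∈ (L i).A}ᶜ
      · simp only [mem_compl_iff, mem_ofPred_eq, not_forall] at h
        obtain ⟨a, h1, h2, h3⟩ := h
        exact ⟨a, fun _ => ⟨h1, h2, h3⟩⟩
      · exact ⟨0, fun h' => absurd h' h⟩
    choose g hg' using hex
    obtain ⟨a, ha⟩ := hg.nor g (Filter.mem_of_superset hc fun ξ hξ => (hg' ξ hξ).1)
    obtain ⟨ξ, h1, h2⟩ := Ultrafilter.nonempty_of_mem (Filter.inter_mem ha hc)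
    have haμ : a < μ := by
      have := (hg' ξ h2).2.1
      rwa [show g ξ = a from h1] at this
    obtain ⟨ζ, ⟨h3, h4⟩, h5⟩ :=
      Ultrafilter.nonempty_of_mem (Filter.inter_mem (Filter.inter_mem ha hc) (hL a haμ).A)
    have := (hg' ζ h4).2.2
    rw [show g ζ = a from h3] at this
    exact this h5
  let A : Set Od := ((L 0).A ∩ {ξ | ∀ i < fp (C.dec ξ), i < μ → ξ ∈ (L i).A}) ∩
    {ξ | ξ < μ ∧ C.Blk μ (C.dec ξ) ∧ 0 < fp (C.dec ξ)}
  have hA : A ∈ C.W μ := Filter.inter_mem (Filter.inter_mem (hL 0 h0).A hD) (hg.w0 0 h0)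
  have hfp : ∀ ξ ∈ A, fp (C.dec ξ) < μ := fun ξ hξ =>
    (lt_add_one _).trans (blk_scope hξ.2.2.1 hg.inac).2.1
  have hAi : ∀ ξ ∈ A, ∀ i < fp (C.dec ξ), ξ ∈ (L i).A := fun ξ hξ i hi =>
    hξ.1.2 i hi (hi.trans (hfp ξ hξ))
  refine ⟨⟨A, {z | ∃ i < fp (C.dec z.1), i < μ ∧ z ∈ (L i).F}, (L 0).s⟩, ⟨(hL 0 h0).sp,
    (hL 0 h0).gt, (hL 0 h0).pre, hA, fun ξ hξ => hξ.2.1, ?_, fun ξ hξ => ⟨?_, ?_⟩, (hL 0 h0).fin,
    (hL 0 h0).s⟩, fun ξ hξ => hξ.1.1, rfl,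
    fun i hi ξ hξ h => ⟨hAi ξ hξ i h, fun z hz => ⟨i, h, hi, hz⟩⟩⟩
  · rintro z ⟨i, -, hi, hz⟩
    exact (hL i hi).Fb hz
  · have e : sec {z | ∃ i < fp (C.dec z.1), i < μ ∧ z ∈ (L i).F} ξ =
        {z | ∃ i < fp (C.dec ξ), z ∈ sec (L i).F ξ} := by
      ext z
      exact ⟨fun ⟨i, h1, _, h3⟩ => ⟨i, h1, h3⟩,
        fun ⟨i, h1, h3⟩ => ⟨i, h1, h1.trans (hfp ξ hξ), h3⟩⟩
    change C.Col _ (sec {z | ∃ i < fp (C.dec z.1), i < μ ∧ z ∈ (L i).F} ξ)
    rw [e]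
    exact col_chain (fun i => sec (L i).F ξ) (C.bf.card_le _)
      (fun i hi => ((hL i (hi.trans (hfp ξ hξ))).F ξ (hAi ξ hξ i hi)).1)
      fun i j h hj => (hm i j h (hj.trans (hfp ξ hξ))).2.1 ξ (hAi ξ hξ j hj)
  · rintro i v ⟨j, h1, hj, hz⟩
    exact ((hL j hj).F ξ (hAi ξ hξ j h1)).2 i v hz

theorem rc_lt_inac {x : Od} (hν : ν.card ≤ C.B β) (hx : Inac x) (h : β < x) : ν < x := by
  have h1 := C.bf.lt_inac hx h
  rw [← hx.ord_card, lt_ord] at h1 ⊢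
  rw [card_ord] at h1
  exact hν.trans_lt h1

/-- The data at one point of the lower bound. -/
theorem rc_pt (hν : ν.card ≤ C.B β) (h0 : 0 < ν) (f : Od → Raw)
    (hf : ∀ i < ν, C.DT β t (f i) p) (hm : ∀ i j, i ≤ j → j < ν → C.DT β t (f j) (f i))
    (c : Set Od) (hc : ∀ i < ν, (f i).c ⊆ c) (x : Od) :
    ∃ o : Option Lo, (∀ L, o = some L → C.LV c x L ∧ ∃ i < ν, Spec (f i) x) ∧
      (∀ i < ν, ∀ L, (f i).l x = some L → ∃ L', o = some L' ∧ L'.A ⊆ L.A ∧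
        (∀ ξ ∈ L'.A, sec L.F ξ ⊆ sec L'.F ξ) ∧ L'.s = L.s) ∧
      ((x ≤ β ∨ t < x) → o = p.l x) := by
  by_cases hx : x ≤ β ∨ t < x
  · have e : ∀ i < ν, (f i).l x = p.l x := by
      intro i hi
      rcases hx with hx | hx
      · rcases hx.lt_or_eq with hx | rfl
        · exact ((hf i hi).1.lo x hx).2.2
        · exact (hf i hi).2
      · exact (hf i hi).1.ag.2 x hx
    refine ⟨p.l x, fun L hL => ?_, fun i hi L hL => ?_, fun _ => rfl⟩
    · rw [← e 0 h0] at hL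
      exact ⟨rc_lv_mono ((hf 0 h0).1.v.sp x L hL) fun y hy _ => hc 0 h0 hy, 0, h0, L, hL⟩
    · exact ⟨L, by rw [← e i hi, hL], subset_rfl, fun _ _ => subset_rfl, rfl⟩
  by_cases hs : ∃ i < ν, Spec (f i) x
  · obtain ⟨i0, hi0, hs0⟩ := hs
    have hβx : β < x := not_le.1 fun h => hx (Or.inl h)
    have hin : Inac x := (spec_inac (hf i0 hi0).1.v hs0).1
    let L : Od → Lo := fun i => ((f i).l x).getD ⟨∅, ∅, ∅⟩
    have hL : ∀ i, Spec (f i) x → (f i).l x = some (L i) := by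
      rintro i ⟨M, hM⟩
      simp only [L, hM, Option.getD_some]
    obtain ⟨L', h1, h2⟩ := rc_lo_set (C := C) (c := c) (μ := x) (ν := ν) L
      {i | i < ν ∧ Spec (f i) x} (fun i hi => hi.1) (i0 := i0) ⟨hi0, hs0⟩
      (rc_lt_inac hν hin hβx)
      (fun i hi => rc_lv_mono ((hf i hi.1).1.v.sp x _ (hL i hi.2)) fun y hy _ => hc i hi.1 hy)
      (fun i hi j hj h => by
        obtain ⟨M, g1, g2⟩ := (hm i j h hj.1).1.d.l1 x _ (hL i hi.2)
        rw [hL j hj.2, Option.some.injEq] at g1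
        rw [g1]
        exact g2)
    refine ⟨some L', fun M hM => ?_, fun i hi M hM => ⟨L', rfl, ?_⟩, fun h => absurd h hx⟩
    · rw [Option.some.injEq] at hM
      exact ⟨hM ▸ h1, i0, hi0, hs0⟩
    · have := hL i ⟨M, hM⟩
      rw [hM, Option.some.injEq] at this
      rw [this]
      exact h2 i ⟨hi, M, hM⟩
  · exact ⟨none, fun L hL => (by cases hL), fun i hi L hL => absurd ⟨i, hi, L, hL⟩ hs,
      fun h => absurd h hx⟩

/-- Lower bound of a chain of direct extensions. -/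
theorem chain_lb (hp : C.Scope t p) (hβ : β ∈ p.c) (ht : β ≤ t) (h0 : 0 < ν)
    (hν : ν.card ≤ C.B β) (f : Od → Raw) (hf : ∀ i < ν, C.DT β t (f i) p)
    (hm : ∀ i j, i ≤ j → j < ν → C.DT β t (f j) (f i)) :
    ∃ u, (∀ i < ν, C.DT β t u (f i)) ∧ ((∀ i < ν, (f i).c = p.c) → u.c = p.c) ∧
      ∀ x, Spec u x → ∃ i < ν, Spec (f i) x := by
  have hv : ∀ i < ν, C.Valid (f i) := fun i hi => (hf i hi).1.v
  have hβi : ∀ i < ν, β ∈ (f i).c := fun i hi => (hf i hi).1.d.c hβ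
  have hmax : ∀ i, ∃ m, i < ν → m ∈ (f i).c ∧ ∀ x ∈ (f i).c, x ≤ m := by
    intro i
    by_cases hi : i < ν
    · obtain ⟨m, h1, h2⟩ := valid_max (hv i hi)
      exact ⟨m, fun _ => ⟨h1, h2⟩⟩
    · exact ⟨0, fun h => absurd h hi⟩
  choose m hmx using hmax
  let S : Set Od := {x | ∃ i < ν, x ∈ (f i).c}
  have hSne : S.Nonempty := ⟨β, 0, h0, hβi 0 h0⟩
  have hSb : BddAbove S := by
    obtain ⟨b, hb⟩ : BddAbove (m '' Iio ν) := Ordinal.bddAbove_of_small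
    refine ⟨b, ?_⟩
    rintro x ⟨i, hi, hx⟩
    exact ((hmx i hi).2 x hx).trans (hb ⟨i, hi, rfl⟩)
  let c : Set Od := insert (sSup S) S
  have hσ : ∀ x ∈ c, x ≤ sSup S := by
    rintro x (rfl | hx)
    · exact le_rfl
    · exact le_csSup hSb hx
  have hci : ∀ i < ν, (f i).c ⊆ c := fun i hi x hx => Or.inr ⟨i, hi, hx⟩
  have hnew : ∀ i < ν, ∀ x ∈ c, x ∉ (f i).c → ∀ y ∈ (f i).c, y < x := by
    rintro i hi x (rfl | ⟨j, hj, hx⟩) hn y hy
    · refine lt_of_le_of_ne (hσ y (hci i hi hy)) ?_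
      rintro rfl
      exact hn hy
    · rcases le_total j i with h | h
      · exact absurd ((hm j i h hi).1.d.c hx) hn
      · exact (hm i j h hj).1.d.new x hx hn y hy
  have hin : ∀ i < ν, ∀ x ∈ c, ∀ y ∈ (f i).c, x ≤ y → x ∈ (f i).c := by
    intro i hi x hx y hy h
    by_contra hn
    exact (hnew i hi x hx hn y hy).not_ge h
  have hlim : ∀ i < ν, ∀ x, LimP c x → ∀ y ∈ (f i).c, x ≤ y → LimP (f i).c x := by
    intro i hi x hx y hy h
    refine ⟨hx.1, fun z hz => ?_⟩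
    obtain ⟨w, h1, h2, h3⟩ := hx.2 z hz
    exact ⟨w, hin i hi w h1 y hy (h3.le.trans h), h2, h3⟩
  have hbd : ∀ x, Inac x → β < x → (∀ y ∈ S, y < x) → sSup S < x := by
    intro x hx h1 h2
    obtain ⟨b, hb, h3⟩ := hx.bound (rc_lt_inac hν hx h1) m fun i hi => h2 _ ⟨i, hi, (hmx i hi).1⟩
    refine lt_of_le_of_lt (csSup_le hSne ?_) hb
    rintro y ⟨i, hi, hy⟩
    exact ((hmx i hi).2 y hy).trans (h3 i hi).le
  have hcase : ∀ x, LimP c x → (∃ i < ν, ∃ y ∈ (f i).c, x ≤ y) ∨ (x = sSup S ∧ ¬ Inac x) := by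
    intro x hx
    by_cases h : ∃ i < ν, ∃ y ∈ (f i).c, x ≤ y
    · exact Or.inl h
    have h1 : ∀ y ∈ S, y < x := by
      rintro y ⟨i, hi, hy⟩
      exact not_le.1 fun h' => h ⟨i, hi, y, hy, h'⟩
    have h2 : ¬ sSup S < x := by
      intro h'
      obtain ⟨z, g1, g2, -⟩ := hx.2 _ h'
      exact g2.not_ge (hσ z g1)
    refine Or.inr ⟨le_antisymm (not_lt.1 h2) (csSup_le hSne fun y hy => (h1 y hy).le), fun hi => ?_⟩
    exact h2 (hbd x hi (h1 β ⟨0, h0, hβi 0 h0⟩) h1)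
  have hshape : (∀ i < ν, (f i).c = p.c) → c = p.c := by
    intro h
    have e : S = p.c := by
      ext x
      exact ⟨fun ⟨i, hi, hx⟩ => h i hi ▸ hx, fun hx => ⟨0, h0, (h 0 h0).symm ▸ hx⟩⟩
    have e2 : sSup S ∈ S := by
      have : sSup S = m 0 := by
        apply le_antisymm
        · refine csSup_le hSne fun y hy => (hmx 0 h0).2 y ?_
          rw [h 0 h0, ← e]
          exact hy
        · exact le_csSup hSb ⟨0, h0, (hmx 0 h0).1⟩
      rw [this]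
      exact ⟨0, h0, (hmx 0 h0).1⟩
    rw [← e]
    exact insert_eq_of_mem e2
  choose l hl1 hl2 hl3 using rc_pt hν h0 f hf hm c hci
  let u : Raw := ⟨c, fun x => {z | ∃ i < ν, z ∈ (f i).h x}, l⟩
  have hconst : ∀ x, (∀ i < ν, (f i).h x = p.h x) → u.h x = p.h x := by
    intro x h
    ext z
    exact ⟨fun ⟨i, hi, hz⟩ => h i hi ▸ hz, fun hz => ⟨0, h0, (h 0 h0).symm ▸ hz⟩⟩
  have hlo : ∀ x < β, u.h x = p.h x := fun x hx =>
    hconst x fun i hi => ((hf i hi).1.lo x hx).2.1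
  have hnone : ∀ x, (∀ i < ν, (f i).l x = none) → l x = none := by
    intro x h
    rcases e : l x with _ | L
    · rfl
    · obtain ⟨i, hi, M, hM⟩ := (hl1 x L e).2
      rw [h i hi] at hM
      cases hM
  have hl0 : ∀ i < ν, ∀ x ∈ (f i).c, (f i).l x = none → l x = none := by
    intro i hi x hx h
    refine hnone x fun j hj => ?_
    rcases le_total i j with g | g
    · exact (hm i j g hj).1.d.l0 x hx h
    · rcases e : (f j).l x with _ | L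
      · rfl
      · obtain ⟨M, hM, -⟩ := (hm j i g hi).1.d.l1 x L e
        rw [h] at hM
        cases hM
  have hu : C.Valid u := by
    refine ⟨⟨_, Or.inl rfl⟩, ⟨_, hσ⟩, fun x hx => ?_, fun x hx => ?_, fun x hx => ?_, fun x => ?_,
      ?_, fun y hy => ?_, fun x hx => ?_, fun x hx hi => ?_, fun x L hL => (hl1 x L hL).1⟩
    · rcases hcase x hx with ⟨i, hi, y, hy, h⟩ | ⟨rfl, -⟩
      · exact hci i hi ((hv i hi).cl x (hlim i hi x hx y hy h))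
      · exact Or.inl rfl
    · refine eq_empty_of_forall_notMem ?_
      rintro z ⟨i, hi, hz⟩
      rw [(hv i hi).h0 x fun h => hx (hci i hi h)] at hz
      exact hz
    · exact hnone x fun i hi => (hv i hi).l0 x fun h => hx (hci i hi h)
    · rcases lt_or_ge x β with h | h
      · rw [hlo x h]
        exact hp.v.col x
      · exact col_chain (fun i => (f i).h x) (hν.trans (C.bf.mono h))
          (fun i hi => (hv i hi).col x) fun i j g hj => (hm i j g hj).1.d.h x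
    · rintro i v ⟨j, hj, hz⟩
      exact (hv j hj).vs i v hz
    · rintro x hx i v ⟨j, hj, hz⟩
      have key : ∀ y' ∈ S, x < y' → v < (C.B y').ord := by
        rintro y' ⟨k, hk, hy'⟩ h
        rcases le_total j k with g | g
        · exact (hv k hk).bel y' hy' x h i v ((hm j k g hk).1.d.h x hz)
        · exact (hv j hj).bel y' ((hm k j g hj).1.d.c hy') x h i v hz
      rcases hy with rfl | hy
      · obtain ⟨y', g1, g2⟩ := exists_lt_of_lt_csSup hSne hx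
        exact (key y' g1 g2).trans_le (C.RB3_ord_mono (le_csSup hSb g1))
      · exact key y hy hx
    · refine hnone x fun i hi => ?_
      by_cases h : x ∈ (f i).c
      · exact (hv i hi).lim x (hlim i hi x hx x h le_rfl)
      · exact (hv i hi).l0 x h
    · rcases hcase x hx with ⟨i0, hi0, y, hy, h⟩ | ⟨-, h⟩
      swap
      · exact absurd hi h
      have h1 := (hv i0 hi0).eas x (hlim i0 hi0 x hx y hy h) hi
      refine ⟨?_, h1.2⟩
      rcases le_or_gt x β with g | g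
      · obtain ⟨w, hw, h2⟩ := h1.1
        refine ⟨w, hw, fun z g1 g2 => ?_⟩
        have g3 := (hf i0 hi0).1.lo z (g2.trans_le g)
        refine ⟨?_, ?_⟩
        · rw [hlo z (g2.trans_le g), ← g3.2.1]
          exact (h2 z g1 g2).1
        · change l z = none
          rw [hl3 z (Or.inl (g2.le.trans g)), ← g3.2.2]
          exact (h2 z g1 g2).2
      · have h2 : ∀ j, ∃ w, j < ν → w < x ∧
            ∀ z, w < z → z < x → (f j).h z = ∅ ∧ (f j).l z = none := by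
          intro j
          by_cases hj : j < ν
          swap
          · exact ⟨0, fun h' => absurd h' hj⟩
          rcases le_total i0 j with k | k
          · obtain ⟨w, hw, h3⟩ :=
              ((hv j hj).eas x (hlim j hj x hx y ((hm i0 j k hj).1.d.c hy) h) hi).1
            exact ⟨w, fun _ => ⟨hw, h3⟩⟩
          · obtain ⟨w, hw, h3⟩ := h1.1
            refine ⟨w, fun _ => ⟨hw, fun z g1 g2 => ⟨?_, ?_⟩⟩⟩
            · exact subset_eq_empty ((hm j i0 k hi0).1.d.h z) (h3 z g1 g2).1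
            · rcases e : (f j).l z with _ | L
              · rfl
              · obtain ⟨M, hM, -⟩ := (hm j i0 k hi0).1.d.l1 z L e
                rw [(h3 z g1 g2).2] at hM
                cases hM
        choose w hw using h2
        obtain ⟨b, hb, h3⟩ := hi.bound (rc_lt_inac hν hi g) w fun j hj => (hw j hj).1
        refine ⟨b, hb, fun z g1 g2 => ⟨?_, ?_⟩⟩
        · refine eq_empty_of_forall_notMem ?_
          rintro a ⟨j, hj, ha⟩
          rw [((hw j hj).2 z ((h3 j hj).trans g1) g2).1] at ha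
          exact ha
        · exact hnone z fun j hj => ((hw j hj).2 z ((h3 j hj).trans g1) g2).2
  refine ⟨u, fun i hi => ⟨⟨hu, ⟨hci i hi, hnew i hi, fun x z hz => ⟨i, hi, hz⟩, hl0 i hi,
    fun x => hl2 x i hi⟩, fun x hx => ⟨⟨fun h => hin i hi x h β (hβi i hi) hx.le,
      fun h => hci i hi h⟩, ?_, ?_⟩, ⟨fun x hx => ⟨⟨fun h => ?_, fun h => hci i hi h⟩, ?_⟩,
      fun x hx => ?_⟩, ?_⟩, ?_⟩, hshape, fun x ⟨L, hL⟩ => (hl1 x L hL).2⟩
  · rw [hlo x hx, ((hf i hi).1.lo x hx).2.1]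
  · change l x = _
    rw [hl3 x (Or.inl hx.le), ((hf i hi).1.lo x hx).2.2]
  · by_cases htp : t ∈ p.c
    · have e := fun j hj => ds_c_eq (hf j hj).1 htp
      rw [e i hi, ← hshape e]
      exact h
    · rcases hp.cut with g | ⟨g1, -, g3⟩
      · exact absurd g htp
      · have := hbd t g1 (g3 hβ) (by
          rintro y ⟨j, hj, hy⟩
          by_contra hn
          exact hn (g3 ((((hf j hj).1.ag.1 y (not_lt.1 hn)).1).1 hy)))
        exact absurd ((hσ x h).trans_lt this) (not_lt.2 hx)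
  · rw [hconst x fun j hj => ((hf j hj).1.ag.1 x hx).2, ((hf i hi).1.ag.1 x hx).2]
  · change l x = _
    rw [hl3 x (Or.inr hx), (hf i hi).1.ag.2 x hx]
  · rintro x hx a v ⟨j, hj, hz⟩
    exact (hf j hj).1.bel x hx a v hz
  · change l β = _
    rw [hl3 β (Or.inl le_rfl), (hf i hi).2]

theorem rc_setL_ne {x : Od} (g : Lo → Lo) (r : Raw) (h : x ≠ μ) : (setL μ g r).l x = r.l x := by
  simp [setL, Function.update_of_ne h]

theorem rc_setL_self (g : Lo → Lo) (r : Raw) : (setL μ g r).l μ = (r.l μ).map g := by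
  simp [setL]

theorem rc_setL_setL (g g' : Lo → Lo) (r : Raw) :
    setL μ g' (setL μ g r) = setL μ (fun L => g' (g L)) r := by
  refine Raw.ext rfl rfl (funext fun x => ?_)
  by_cases h : x = μ
  · subst h
    rw [rc_setL_self, rc_setL_self, rc_setL_self, Option.map_map]
    rfl
  · rw [rc_setL_ne _ _ h, rc_setL_ne _ _ h, rc_setL_ne _ _ h]

theorem rc_setL_valid {r : Raw} {L' : Lo} (hr : C.Valid r) (hμ : Spec r μ) (hL : C.LV r.c μ L') :
    C.Valid (setL μ (fun _ => L') r) := by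
  obtain ⟨L, hμ⟩ := hμ
  have hn : ∀ x, r.l x = none → (setL μ (fun _ => L') r).l x = none := by
    intro x hx
    rw [rc_setL_ne _ _ ?_, hx]
    rintro rfl
    rw [hx] at hμ
    cases hμ
  refine ⟨hr.ne, hr.bd, hr.cl, hr.h0, fun x hx => hn x (hr.l0 x hx), hr.col, hr.vs, hr.bel,
    fun x hx => hn x (hr.lim x hx), fun x hx hi => ⟨?_, (hr.eas x hx hi).2⟩, fun x M hM => ?_⟩
  · obtain ⟨y, hy, h⟩ := (hr.eas x hx hi).1
    exact ⟨y, hy, fun z h1 h2 => ⟨(h z h1 h2).1, hn z (h z h1 h2).2⟩⟩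
  · by_cases h : x = μ
    · subst h
      rw [rc_setL_self, hμ, Option.map_some, Option.some.injEq] at hM
      exact hM ▸ hL
    · rw [rc_setL_ne _ _ h] at hM
      exact hr.sp x M hM

theorem rc_mix_dt {r q w : Raw} (h : C.DS β t r q) (hβ : β ∈ q.c) (ht : β ≤ t) (hw : C.Valid w)
    (hβ' : β ∈ w.c) : C.DT β t (mix β w r) (mix β w q) := by
  refine ⟨⟨mix_valid hw h.v hβ' (h.d.c hβ), RB3_dle_right h.d, fun x hx => ?_,
    RB3_agree_right h.ag ht, RB3_below_right h.bel ht hw hβ'⟩, ?_⟩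
  · rw [RB3_c_lt hx, RB3_c_lt hx, RB3_h_lt hx, RB3_h_lt hx, RB3_l_le hx.le, RB3_l_le hx.le]
    exact ⟨Iff.rfl, rfl, rfl⟩
  · rw [RB3_l_le le_rfl, RB3_l_le le_rfl]

theorem rc_setL_ds {r u : Raw} {L L' : Lo} (hr : C.DS μ t r p) (hμ : Spec p μ) (ht : μ ≤ t)
    (hu : C.DT μ t u (mix μ p r)) (hL : r.l μ = some L) (hL' : C.LV u.c μ L')
    (hb : L'.A ⊆ L.A ∧ (∀ ξ ∈ L'.A, sec L.F ξ ⊆ sec L'.F ξ) ∧ L'.s = L.s) :
    C.DS μ t (setL μ (fun _ => L') u) r := by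
  obtain ⟨M, hM⟩ := hμ
  have hM' : u.l μ = some M := by rw [hu.2, RB3_l_le le_rfl, hM]
  have ec : ∀ x, x ∈ (mix μ p r).c ↔ x ∈ r.c := by
    intro x
    rcases lt_or_ge x μ with h | h
    · rw [RB3_c_lt h, (hr.lo x h).1]
    · rw [RB3_c_ge h]
  have eh : ∀ x, (mix μ p r).h x = r.h x := by
    intro x
    rcases lt_or_ge x μ with h | h
    · rw [RB3_h_lt h, (hr.lo x h).2.1]
    · rw [RB3_h_ge h]
  have el : ∀ x, x ≠ μ → (mix μ p r).l x = r.l x := by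
    intro x hx
    rcases lt_or_gt_of_ne hx with h | h
    · rw [RB3_l_le h.le, (hr.lo x h).2.2]
    · rw [RB3_l_gt h]
  refine ⟨rc_setL_valid hu.1.v ⟨M, hM'⟩ hL', ⟨fun x hx => hu.1.d.c ((ec x).2 hx),
    fun x hx hn y hy => hu.1.d.new x hx (fun h => hn ((ec x).1 h)) y ((ec y).2 hy),
    fun x => eh x ▸ hu.1.d.h x, fun x hx h => ?_, fun x N h => ?_⟩, fun x hx => ?_,
    ⟨fun x hx => ?_, fun x hx => ?_⟩, hu.1.bel⟩
  · have hne : x ≠ μ := by
      rintro rfl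
      rw [hL] at h
      cases h
    rw [rc_setL_ne _ _ hne]
    exact hu.1.d.l0 x ((ec x).2 hx) (by rw [el x hne, h])
  · by_cases hne : x = μ
    · subst hne
      rw [hL, Option.some.injEq] at h
      subst h
      exact ⟨L', by rw [rc_setL_self, hM', Option.map_some], hb⟩
    · rw [rc_setL_ne _ _ hne]
      exact hu.1.d.l1 x N (by rw [el x hne, h])
  · rw [rc_setL_ne _ _ hx.ne, ← ec, ← eh, ← el x hx.ne]
    exact hu.1.lo x hx
  · rw [← ec, ← eh]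
    exact hu.1.ag.1 x hx
  · have hne : x ≠ μ := (ht.trans_lt hx).ne'
    rw [rc_setL_ne _ _ hne, ← el x hne]
    exact hu.1.ag.2 x hx

/-- The common part of the two constructions at a special point. -/
theorem rc_spec (hp : C.Scope t p) (hμ : Spec p μ) (ht : μ ≤ t) (h0 : 0 < ν) (hν : ν ≤ μ)
    (f : Od → Raw) (hf : ∀ i < ν, C.DS μ t (f i) p)
    (hm : ∀ i j, i ≤ j → j < ν → C.DS μ t (f j) (f i)) :
    ∃ (u : Raw) (L : Od → Lo), (∀ i < ν, C.LV u.c μ (L i)) ∧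
      (∀ i j, i ≤ j → j < ν → (L j).A ⊆ (L i).A ∧
        (∀ ξ ∈ (L j).A, sec (L i).F ξ ⊆ sec (L j).F ξ) ∧ (L j).s = (L i).s) ∧
      ∀ i < ν, ∀ L', C.LV u.c μ L' → (L'.A ⊆ (L i).A ∧
        (∀ ξ ∈ L'.A, sec (L i).F ξ ⊆ sec L'.F ξ) ∧ L'.s = (L i).s) →
        C.DS μ t (setL μ (fun _ => L') u) (f i) := by
  have hμc := spec_mem hp.v hμ
  obtain ⟨u, hu, -⟩ := chain_lb hp hμc ht h0
    ((Ordinal.card_le_card hν).trans (C.bf.card_le _)) (fun i => mix μ p (f i))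
    (fun i hi => by
      have := rc_mix_dt (hf i hi) hμc ht hp.v hμc
      rwa [mix_self] at this)
    fun i j h hj => rc_mix_dt (hm i j h hj) ((hf i (h.trans_lt hj)).d.c hμc) ht hp.v hμc
  let L : Od → Lo := fun i => ((f i).l μ).getD ⟨∅, ∅, ∅⟩
  have hL : ∀ i < ν, (f i).l μ = some (L i) := by
    intro i hi
    obtain ⟨M, hM⟩ := hμ
    obtain ⟨N, hN, -⟩ := (hf i hi).d.l1 μ M hM
    simp only [L, hN, Option.getD_some]
  refine ⟨u, L, fun i hi => rc_lv_mono ((hf i hi).v.sp μ _ (hL i hi)) fun y hy h => ?_,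
    fun i j h hj => ?_, fun i hi L' h1 h2 => rc_setL_ds (hf i hi) hμ ht (hu i hi) (hL i hi) h1 h2⟩
  · exact (hu i hi).1.d.c ((RB3_c_lt h).2 (((hf i hi).lo y h).1.1 hy))
  · obtain ⟨M, g1, g2⟩ := (hm i j h hj).d.l1 μ _ (hL i (h.trans_lt hj))
    rw [hL j hj, Option.some.injEq] at g1
    rw [g1]
    exact g2

theorem chain_lbS (hp : C.Scope t p) (hμ : Spec p μ) (ht : μ ≤ t) (h0 : 0 < ν) (hν : ν < μ)
    (f : Od → Raw) (hf : ∀ i < ν, C.DS μ t (f i) p)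
    (hm : ∀ i j, i ≤ j → j < ν → C.DS μ t (f j) (f i)) :
    ∃ u, ∀ i < ν, C.DS μ t u (f i) := by
  obtain ⟨u, L, h1, h2, h3⟩ := rc_spec hp hμ ht h0 hν.le f hf hm
  obtain ⟨L', g1, g2⟩ := lo_chain L h0 hν h1 h2
  exact ⟨_, fun i hi => h3 i hi L' g1 (g2 i hi)⟩

/-- Abstract transfinite construction of a descending chain. -/
theorem exists_chain {α : Type 2} (R : α → α → Prop) (a : α) (ν : Od) (Q : Od → α → Prop)
    (refl : ∀ x, R x a → R x x) (ha : R a a) (trans : ∀ x y z, R x y → R y z → R x z)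
    (lb : ∀ ν' < ν, 0 < ν' → ∀ f : Od → α, (∀ i < ν', R (f i) a) →
      (∀ i j, i ≤ j → j < ν' → R (f j) (f i)) → ∃ u, ∀ i < ν', R u (f i))
    (dense : ∀ i < ν, ∀ x, R x a → ∃ y, R y x ∧ Q i y) :
    ∃ f : Od → α, (∀ i < ν, R (f i) a ∧ Q i (f i)) ∧ ∀ i j, i ≤ j → j < ν → R (f j) (f i) := by
  classical
  let G : (i : Od) → ((j : Od) → j < i → α) → α := fun i ih =>
    if h : ∃ y, R y a ∧ Q i y ∧ ∀ j (hj : j < i), R y (ih j hj) then h.choose else a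
  let f : Od → α := (wellFounded_lt (α := Od)).fix G
  have hf : ∀ i, f i = G i fun j _ => f j := fun i => WellFounded.fix_eq _ G i
  have key : ∀ i, i < ν → R (f i) a ∧ Q i (f i) ∧ ∀ j < i, R (f i) (f j) := by
    intro i
    induction i using WellFoundedLT.induction with
    | ind i ih =>
      intro hi
      have h : ∃ y, R y a ∧ Q i y ∧ ∀ j, j < i → R y (f j) := by
        rcases eq_or_ne i 0 with rfl | h0
        · obtain ⟨y, h1, h2⟩ := dense 0 hi a ha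
          exact ⟨y, h1, h2, fun j hj => absurd hj not_lt_zero⟩
        · have h0' : 0 < i := pos_iff_ne_zero.2 h0
          obtain ⟨u, hu⟩ := lb i hi h0' f (fun j hj => (ih j hj (hj.trans hi)).1)
            fun j k h hk => by
              rcases h.lt_or_eq with h | rfl
              · exact (ih k hk (hk.trans hi)).2.2 j h
              · exact refl _ (ih j hk (hk.trans hi)).1
          have h1 : R u a := trans _ _ _ (hu 0 h0') (ih 0 h0' (h0'.trans hi)).1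
          obtain ⟨y, h2, h3⟩ := dense i hi u h1
          exact ⟨y, trans _ _ _ h2 h1, h3, fun j hj => trans _ _ _ h2 (hu j hj)⟩
      have e : f i = h.choose := by
        rw [hf i]
        exact dif_pos h
      rw [e]
      exact h.choose_spec
  refine ⟨f, fun i hi => ⟨(key i hi).1, (key i hi).2.1⟩, fun i j h hj => ?_⟩
  rcases h.lt_or_eq with h | rfl
  · exact (key j hj).2.2 i h
  · exact refl _ (key i hj).1

theorem rc_ds_scope {x : Raw} (hp : C.Scope t p) (h : C.DS β t x p) : C.Scope t x :=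
  leT_scope hp (ds_leS hp h).1

/-- Intersection of dense open sets of direct extensions. -/
theorem inter (hp : C.Scope t p) (hβ : β ∈ p.c) (ht : β ≤ t) (hν : ν.card ≤ C.B β)
    (Q : Od → Raw → Prop)
    (dense : ∀ i < ν, ∀ u, C.DT β t u p → ∃ u', C.DT β t u' u ∧ Q i u')
    (op : ∀ i < ν, ∀ u u', C.DT β t u p → C.DT β t u' u → Q i u → Q i u') :
    ∃ u, C.DT β t u p ∧ ∀ i < ν, Q i u := by
  rcases eq_or_ne ν 0 with rfl | h0
  · exact ⟨p, dt_refl hp, fun i hi => absurd hi not_lt_zero⟩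
  have h0' : 0 < ν := pos_iff_ne_zero.2 h0
  obtain ⟨f, h1, h2⟩ := exists_chain (C.DT β t) p ν Q (fun x hx => dt_refl (rc_ds_scope hp hx.1))
    (dt_refl hp) (fun _ _ _ => dt_trans) (fun ν' g1 g2 f g3 g4 => by
      obtain ⟨u, hu, -⟩ := chain_lb hp hβ ht g2 ((Ordinal.card_le_card g1.le).trans hν) f g3 g4
      exact ⟨u, hu⟩) dense
  obtain ⟨u, hu, -⟩ := chain_lb hp hβ ht h0' hν f (fun i hi => (h1 i hi).1) h2
  exact ⟨u, dt_trans (hu 0 h0') (h1 0 h0').1,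
    fun i hi => op i hi _ _ (h1 i hi).1 (hu i hi) (h1 i hi).2⟩

/-- The same for extensions with the same set of points. -/
theorem inter_shape (hp : C.Scope t p) (hβ : β ∈ p.c) (ht : β ≤ t) (hν : ν.card ≤ C.B β)
    (Q : Od → Raw → Prop)
    (dense : ∀ i < ν, ∀ u, C.DT β t u p → u.c = p.c → ∃ u', C.DT β t u' u ∧ u'.c = p.c ∧ Q i u')
    (op : ∀ i < ν, ∀ u u', C.DT β t u p → u.c = p.c → C.DT β t u' u → u'.c = p.c →
      Q i u → Q i u') :
    ∃ u, C.DT β t u p ∧ u.c = p.c ∧ ∀ i < ν, Q i u := by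
  rcases eq_or_ne ν 0 with rfl | h0
  · exact ⟨p, dt_refl hp, rfl, fun i hi => absurd hi not_lt_zero⟩
  have h0' : 0 < ν := pos_iff_ne_zero.2 h0
  obtain ⟨f, h1, h2⟩ := exists_chain (fun u v => C.DT β t u v ∧ u.c = p.c) p ν Q
    (fun x hx => ⟨dt_refl (rc_ds_scope hp hx.1.1), hx.2⟩)
    ⟨dt_refl hp, rfl⟩ (fun _ _ _ g1 g2 => ⟨dt_trans g1.1 g2.1, g1.2⟩)
    (fun ν' g1 g2 f g3 g4 => by
      obtain ⟨u, hu, hc, -⟩ := chain_lb hp hβ ht g2 ((Ordinal.card_le_card g1.le).trans hν) f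
        (fun i hi => (g3 i hi).1) fun i j h hj => (g4 i j h hj).1
      exact ⟨u, fun i hi => ⟨hu i hi, hc fun j hj => (g3 j hj).2⟩⟩)
    (fun i hi x hx => by
      obtain ⟨y, g1, g2, g3⟩ := dense i hi x hx.1 hx.2
      exact ⟨y, ⟨g1, g2⟩, g3⟩)
  obtain ⟨u, hu, hc, -⟩ := chain_lb hp hβ ht h0' hν f (fun i hi => (h1 i hi).1.1)
    fun i j h hj => (h2 i j h hj).1
  have e := hc fun i hi => (h1 i hi).1.2
  exact ⟨u, dt_trans (hu 0 h0') (h1 0 h0').1.1, e,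
    fun i hi => op i hi _ _ (h1 i hi).1.1 (h1 i hi).1.2 (hu i hi) e (h1 i hi).2⟩

theorem interS (hp : C.Scope t p) (hμ : Spec p μ) (ht : μ ≤ t) (hν : ν < μ)
    (Q : Od → Raw → Prop)
    (dense : ∀ i < ν, ∀ u, C.DS μ t u p → ∃ u', C.DS μ t u' u ∧ Q i u')
    (op : ∀ i < ν, ∀ u u', C.DS μ t u p → C.DS μ t u' u → Q i u → Q i u') :
    ∃ u, C.DS μ t u p ∧ ∀ i < ν, Q i u := by
  rcases eq_or_ne ν 0 with rfl | h0
  · exact ⟨p, ds_refl hp, fun i hi => absurd hi not_lt_zero⟩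
  have h0' : 0 < ν := pos_iff_ne_zero.2 h0
  obtain ⟨f, h1, h2⟩ := exists_chain (C.DS μ t) p ν Q (fun x hx => ds_refl (rc_ds_scope hp hx))
    (ds_refl hp) (fun _ _ _ => ds_trans)
    (fun ν' g1 g2 f g3 g4 => chain_lbS hp hμ ht g2 (g1.trans hν) f g3 g4) dense
  obtain ⟨u, hu⟩ := chain_lbS hp hμ ht h0' hν f (fun i hi => (h1 i hi).1) h2
  exact ⟨u, ds_trans (hu 0 h0') (h1 0 h0').1,
    fun i hi => op i hi _ _ (h1 i hi).1 (hu i hi) (h1 i hi).2⟩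

/-- Diagonal intersection at a special point. -/
theorem diag (hp : C.Scope t p) (hμ : Spec p μ) (ht : μ ≤ t) (Q : Od → Raw → Prop)
    (dense : ∀ m < μ, ∀ u, C.DS μ t u p → ∃ u', C.DS μ t u' u ∧ Q m u')
    (op : ∀ m < μ, ∀ u u', C.DS μ t u p → C.DS μ t u' u → Q m u → Q m u') :
    ∃ u, C.DS μ t u p ∧ ∀ m < μ, Q m (C.cutA μ m u) := by
  have h0 : 0 < μ := (spec_inac hp.v hμ).1.isSuccLimit.pos
  obtain ⟨f, h1, h2⟩ := exists_chain (C.DS μ t) p μ Q (fun x hx => ds_refl (rc_ds_scope hp hx))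
    (ds_refl hp) (fun _ _ _ => ds_trans)
    (fun ν' g1 g2 f g3 g4 => chain_lbS hp hμ ht g2 g1 f g3 g4) dense
  obtain ⟨u, L, k1, k2, k3⟩ := rc_spec hp hμ ht h0 le_rfl f (fun i hi => (h1 i hi).1) h2
  obtain ⟨L', g1, g2, g3, g4⟩ := lo_diag L k1 h0 k2
  have g5 := rc_lv_cut g1 h0
  refine ⟨_, ds_trans (k3 0 h0 _ g5 ⟨fun ξ hξ => g2 hξ.1,
    fun ξ hξ => (g4 0 h0 ξ hξ.1 hξ.2).2, g3⟩) (h1 0 h0).1, fun m hm => ?_⟩
  refine op m hm (f m) _ (h1 m hm).1 ?_ (h1 m hm).2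
  unfold Dat.cutA
  rw [rc_setL_setL]
  exact k3 m hm _ (rc_lv_cut g5 hm) ⟨fun ξ hξ => (g4 m hm ξ hξ.1.1 hξ.2).1,
    fun ξ hξ => (g4 m hm ξ hξ.1.1 hξ.2).2, g3.trans (k2 0 m zero_le hm).2.2.symm⟩

end Ctx

end Pool.Agent.MP_85ce7b_lc
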