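import Pool.Agent.MP_85ce7b_lc.L.Defs

namespace Pool.Agent.MP_85ce7b_lc

open Set Cardinal Ordinal

abbrev Od : Type 2 := Ordinal.{1}

/-- Inaccessible ordinals. -/
def Inac (x : Od) : Prop := ∃ k : Cardinal.{1}, k.IsInaccessible ∧ k.ord = x

/-- The hierarchy of strongly inaccessible cardinals (`SI 0 = SI 1 = Inac`). -/
def SI : Od → Od → Prop :=
  (wellFounded_lt (α := Od)).fix fun δ ih x =>
    Inac x ∧ ∀ β (h : β < δ), 0 < β → ∀ y < x, ∃ z, y < z ∧ z < x ∧ ih β h z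

theorem SI_iff {δ x : Od} :
    SI δ x ↔ Inac x ∧ ∀ β < δ, 0 < β → ∀ y < x, ∃ z, y < z ∧ z < x ∧ SI β z := by
  unfold SI
  rw [WellFounded.fix_eq]

/-- Data at a special point: a measure one set of codes of blocks, constraints `(ξ, i, v)` for the
first collapse of the block with code `ξ`, and the first points of the blocks inserted so far. -/
@[ext] structure Lo : Type 2 where
  A : Set Od
  F : Set (Od × Od × Od)
  s : Set Od

/-- Raw conditions: points, collapses, data at special points. -/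
@[ext] structure Raw : Type 2 where
  c : Set Od
  h : Od → Set (Od × Od)
  l : Od → Option Lo

/-- The section of a set of triples. -/
def sec (F : Set (Od × Od × Od)) (x : Od) : Set (Od × Od) := {z | (x, z.1, z.2) ∈ F}

/-- Triples below `b`. -/
def Cube (b : Od) : Set (Od × Od × Od) := {z | z.1 < b ∧ z.2.1 < b ∧ z.2.2 < b}

/-- Limit points of a set of ordinals. -/
def LimP (c : Set Od) (x : Od) : Prop := 0 < x ∧ ∀ y < x, ∃ z ∈ c, y < z ∧ z < x

/-- All data of `r` are bounded below `η`. -/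
def Bdd (η : Od) (r : Raw) : Prop :=
  ∃ b < η, r.c ⊆ Iio b ∧ (∀ x i v, (i, v) ∈ r.h x → x < b ∧ i < b ∧ v < b) ∧
    ∀ x L, r.l x = some L → x < b ∧ L.A ⊆ Iio b ∧ L.F ⊆ Cube b ∧ L.s ⊆ Iio b

/-- The first point. -/
noncomputable def fp (b : Raw) : Od := sInf b.c

/-- Direct extension (including end extension). -/
structure Dle (q p : Raw) : Prop where
  c : p.c ⊆ q.c
  new : ∀ x ∈ q.c, x ∉ p.c → ∀ y ∈ p.c, y < x
  h : ∀ x, p.h x ⊆ q.h x
  l0 : ∀ x ∈ p.c, p.l x = none → q.l x = none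
  l1 : ∀ x L, p.l x = some L → ∃ L', q.l x = some L' ∧ L'.A ⊆ L.A ∧
    (∀ ξ ∈ L'.A, sec L.F ξ ⊆ sec L'.F ξ) ∧ L'.s = L.s

/-- `q` and `p` agree from `t` on (the data `l t` belong to the lower part). -/
def Agree (t : Od) (q p : Raw) : Prop :=
  (∀ x, t ≤ x → (x ∈ q.c ↔ x ∈ p.c) ∧ q.h x = p.h x) ∧ ∀ x, t < x → q.l x = p.l x

/-- `q` and `p` agree strictly below `β`. -/
def AgS (β : Od) (q p : Raw) : Prop :=
  ∀ x < β, (x ∈ q.c ↔ x ∈ p.c) ∧ q.h x = p.h x ∧ q.l x = p.l x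

/-- `q` and `p` have the same lower part at `β`. -/
def AgLo (β : Od) (q p : Raw) : Prop := AgS β q p ∧ q.l β = p.l β

open Classical in
/-- The lower part of `q` and the upper part of `u`. -/
noncomputable def mix (β : Od) (q u : Raw) : Raw where
  c := {x | if x < β then x ∈ q.c else x ∈ u.c}
  h := fun x => if x < β then q.h x else u.h x
  l := fun x => if x ≤ β then q.l x else u.l x

open Classical in
/-- Restriction below `μ`. -/
noncomputable def res (μ : Od) (r : Raw) : Raw where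
  c := r.c ∩ Iio μ
  h := fun x => if x < μ then r.h x else ∅
  l := fun x => if x < μ then r.l x else none

open Classical in
/-- Restriction below `μ` together with the set `s` at `μ` (stored at `0`). -/
noncomputable def stem (μ : Od) (r : Raw) : Raw :=
  { res μ r with l := Function.update (res μ r).l 0 ((r.l μ).map fun L => ⟨∅, ∅, L.s⟩) }

open Classical in
/-- Change of the data at `μ`. -/
noncomputable def setL (μ : Od) (f : Lo → Lo) (r : Raw) : Raw :=
  { r with l := Function.update r.l μ ((r.l μ).map f) }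

/-- The set `s` at `t`. -/
def sAt (t : Od) (r : Raw) : Option (Set Od) := (r.l t).map Lo.s

/-- The stem of `r` at `μ`, with `A`, `F` at `μ` and the upper part taken from `u`. -/
noncomputable def gl (μ : Od) (r u : Raw) : Raw :=
  setL μ (fun L => ⟨((u.l μ).getD L).A, ((u.l μ).getD L).F, L.s⟩) (mix μ r u)

open Classical in
/-- Union of two raw conditions with disjoint sets of points. -/
noncomputable def cat (p b : Raw) : Raw where
  c := p.c ∪ b.c
  h := fun x => p.h x ∪ b.h x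
  l := fun x => if x ∈ b.c then b.l x else p.l x

open Classical in
/-- Change of the collapse at `x`. -/
noncomputable def setH (x : Od) (f : Set (Od × Od)) (r : Raw) : Raw :=
  { r with h := Function.update r.h x f }

/-- Insertion of the block `b` below the special point `μ`, with first collapse `f`. -/
noncomputable def ins (p : Raw) (μ : Od) (b : Raw) (f : Set (Od × Od)) : Raw :=
  setL μ (fun L => ⟨L.A, L.F, insert (fp b) L.s⟩) (cat p (setH (fp b) f b))

/-- An interval of points with trivial data. -/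
def itv (a b : Od) : Raw := ⟨Icc a b, fun _ => ∅, fun _ => none⟩

/-- The parameters of the forcing. -/
structure Dat : Type 2 where
  s : Od
  al : Od
  B : Od → Cardinal.{1}
  dec : Od → Raw
  Sp : Set Od
  W : Od → Ultrafilter Od

namespace Dat

variable (D : Dat)

open Classical in
/-- The domain of the collapse at `x`. -/
noncomputable def dm (x : Od) : Od :=
  if x = D.s then (D.B (D.s + 1)).ord else (Order.succ (D.B x)).ord

/-- `f` is a condition of the collapse at `x` (values are bounded separately). -/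
structure Col (x : Od) (f : Set (Od × Od)) : Prop where
  fn : ∀ i v v', (i, v) ∈ f → (i, v') ∈ f → v = v'
  dom : ∀ i v, (i, v) ∈ f → i < D.dm x
  card : Cardinal.mk f ≤ lift.{2} (D.B x)

/-- The values of the collapses at points below `t` are below `B t`. -/
def Below (t : Od) (p : Raw) : Prop := ∀ x < t, ∀ i v, (i, v) ∈ p.h x → v < (D.B t).ord

/-- Validity of the data at a special point. -/
structure LV (c : Set Od) (μ : Od) (L : Lo) : Prop where
  sp : μ ∈ D.Sp
  gt : D.s + 1 < μ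
  pre : ∃ y ∈ c, y < μ
  A : L.A ∈ D.W μ
  Alt : L.A ⊆ Iio μ
  Fb : L.F ⊆ Cube μ
  F : ∀ ξ ∈ L.A, D.Col (fp (D.dec ξ)) (sec L.F ξ) ∧
    ∀ i v, (i, v) ∈ sec L.F ξ → v < (D.B (fp (D.dec ξ) + 1)).ord
  fin : L.s.Finite
  s : ∀ z ∈ L.s, ∃ y ∈ c, z ≤ y ∧ y < μ

/-- Valid conditions. -/
structure Valid (p : Raw) : Prop where
  ne : p.c.Nonempty
  bd : BddAbove p.c
  cl : ∀ x, LimP p.c x → x ∈ p.c
  h0 : ∀ x, x ∉ p.c → p.h x = ∅
  l0 : ∀ x, x ∉ p.c → p.l x = none
  col : ∀ x, D.Col x (p.h x)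
  vs : ∀ i v, (i, v) ∈ p.h D.s → v < ((2 : Cardinal.{1}) ^ D.B D.s).ord
  bel : ∀ y ∈ p.c, D.Below y p
  lim : ∀ x, LimP p.c x → p.l x = none
  eas : ∀ x, LimP p.c x → Inac x →
    (∃ y < x, ∀ z, y < z → z < x → p.h z = ∅ ∧ p.l z = none) ∧ (D.s < x → ¬ SI D.al x)
  sp : ∀ μ L, p.l μ = some L → D.LV p.c μ L

/-- Blocks below `μ`. -/
structure Blk (μ : Od) (b : Raw) : Prop where
  v : D.Valid b
  bdd : Bdd μ b
  inac : Inac (fp b)
  gt : D.s + 1 < fp b
  nxt : fp b + 1 ∈ b.c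
  h : b.h (fp b) = ∅

/-- `b` can be inserted into `p` below `μ`. -/
structure Insb (p : Raw) (μ : Od) (b : Raw) : Prop where
  blk : D.Blk μ b
  lt : ∀ x ∈ p.c, x < μ → x < fp b
  bel : D.Below (fp b) p

/-- One insertion. -/
def Ins (q p : Raw) (μ : Od) : Prop :=
  ∃ L ξ, p.l μ = some L ∧ ξ ∈ L.A ∧ D.Insb p μ (D.dec ξ) ∧ q = ins p μ (D.dec ξ) (sec L.F ξ)

def Step (p q : Raw) : Prop := D.Valid q ∧ (Dle q p ∨ ∃ μ, D.Ins q p μ)

/-- The order: `q` extends `p`. -/
def Le (q p : Raw) : Prop := D.Valid p ∧ Relation.ReflTransGen D.Step p q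

/-- Extension below the cut `t`. -/
structure LeT (t : Od) (q p : Raw) : Prop where
  le : D.Le q p
  ag : Agree t q p
  bel : D.Below t q

/-- Extension below the cut `t` without insertion at `t`. -/
def LeS (t : Od) (q p : Raw) : Prop := D.LeT t q p ∧ sAt t q = sAt t p

/-- One step below the cut `t`; insertions only at points with property `P`. -/
def StepT (t : Od) (P : Od → Prop) (p q : Raw) : Prop :=
  D.Valid q ∧ Agree t q p ∧ D.Below t q ∧ (Dle q p ∨ ∃ μ, P μ ∧ D.Ins q p μ)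

/-- Direct extension between `β` (strictly) and `t`. -/
structure DS (β t : Od) (q p : Raw) : Prop where
  v : D.Valid q
  d : Dle q p
  lo : AgS β q p
  ag : Agree t q p
  bel : D.Below t q

/-- Direct extension between `β` and `t`. -/
def DT (β t : Od) (q p : Raw) : Prop := D.DS β t q p ∧ q.l β = p.l β

/-- The cut `t` is a point of `p`, or an inaccessible above `p`. -/
structure Scope (t : Od) (p : Raw) : Prop where
  v : D.Valid p
  bel : D.Below t p
  cut : t ∈ p.c ∨ (Inac t ∧ D.s + 1 < t ∧ p.c ⊆ Iio t)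

/-- Restriction of the measure one set at `μ` to blocks starting above `m`. -/
noncomputable def cutA (μ m : Od) (u : Raw) : Raw :=
  setL μ (fun L => ⟨L.A ∩ {ξ | m < fp (D.dec ξ)}, L.F, L.s⟩) u

/-- The least code of the stem. -/
noncomputable def scode (μ : Od) (r : Raw) : Od := sInf {ξ | D.dec ξ = stem μ r}

/-- The ultrafilters carried by special points. -/
structure GoodW (μ : Od) (U : Ultrafilter Od) : Prop where
  inac : Inac μ
  gt : D.s + 1 < μ
  comp : ∀ ζ < μ, ∀ Z : Od → Set Od, (∀ i < ζ, Z i ∈ U) → {ξ | ∀ i < ζ, ξ ∈ Z i} ∈ U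
  w0 : ∀ ζ < μ, {ξ | ξ < μ ∧ D.Blk μ (D.dec ξ) ∧ ζ < fp (D.dec ξ)} ∈ U
  nor : ∀ g : Od → Od, {ξ | g ξ < fp (D.dec ξ)} ∈ U → ∃ a, {ξ | g ξ = a} ∈ U
  w2 : ∀ Z : Raw → Prop, (∀ b, D.Blk μ b → ∃ b', D.DT (fp b + 1) μ b' b ∧ Z b') →
    (∀ b b', D.Blk μ b → D.DT (fp b + 1) μ b' b → Z b → Z b') → {ξ | Z (D.dec ξ)} ∈ U
  w3 : ∀ Z : Raw → Prop, (∀ b, D.Blk μ b → ∃ b', D.DT (fp b + 1) μ b' b ∧ b'.c = b.c ∧ Z b') →
    (∀ b b', D.Blk μ b → D.DT (fp b + 1) μ b' b → b'.c = b.c → Z b → Z b') →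
    {ξ | Z (D.dec ξ)} ∈ U

/-! ### Open sets and the Prikry property -/

def OpenS (t : Od) (O : Raw → Prop) : Prop := ∀ r r', D.Scope t r → O r → D.LeS t r' r → O r'

def OpenT (t : Od) (O : Raw → Prop) : Prop := ∀ r r', D.Scope t r → O r → D.LeT t r' r → O r'

/-- Local closure of `O` at the points `δ` with property `P`. -/
def LC (t : Od) (P : Od → Prop) (O : Raw → Prop) : Prop :=
  ∀ δ r, P δ → D.Scope t r → δ ∈ r.c →
    (∀ r', D.LeT δ r' r → ∃ r'', D.LeT δ r'' r' ∧ O r'') → O r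

/-- Above `β`, `r` is a direct extension of `p`. -/
def DirA (β : Od) (r p : Raw) : Prop := Dle (mix β p r) p

/-- No extension that is direct above `β` is in `O`. -/
def WFl (β t : Od) (O : Raw → Prop) (p : Raw) : Prop :=
  ∀ r, D.LeT t r p → DirA β r p → ¬ O r

def PPS (t : Od) : Prop :=
  ∀ O p β, D.Scope t p → D.OpenS t O → D.LC t (· < t) O → β ∈ p.c → β ≤ t → D.WFl β t O p →
    ∃ u, D.DT β t u p ∧ ∀ r, D.LeS t r u → ¬ O r

def PP (t : Od) : Prop :=
  ∀ O p β, D.Scope t p → D.OpenT t O → D.LC t (· ≤ t) O → β ∈ p.c → β ≤ t → D.WFl β t O p →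
    ∃ u, D.DT β t u p ∧ ∀ r, D.LeT t r u → ¬ O r

/-- `O` is dense below `r`. -/
def RO (t : Od) (O : Raw → Prop) (r : Raw) : Prop :=
  ∀ r', D.LeT t r' r → ∃ r'', D.LeT t r'' r' ∧ O r''

/-- Good cut points: nonspecial points that are successor ordinals. -/
def Good (p : Raw) (δ : Od) : Prop := δ ∈ p.c ∧ p.l δ = none ∧ ∃ y, δ = y + 1

/-- Cut points with few lower parts. -/
def Good0 (p : Raw) (δ : Od) : Prop := Good p δ ∨ (δ = 0 ∧ 0 ∈ p.c)

/-- `μ` is a special point of `p`. -/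
def Spec (p : Raw) (μ : Od) : Prop := ∃ L, p.l μ = some L

/-- `y` is the point after `x` and it is not special. -/
def Adj (p : Raw) (x y : Od) : Prop :=
  x ∈ p.c ∧ y ∈ p.c ∧ x < y ∧ (∀ z ∈ p.c, x < z → y ≤ z) ∧ p.l y = none

/-- No special points in `(a, b]`. -/
def NoSp (p : Raw) (a b : Od) : Prop := ∀ x, a < x → x ≤ b → p.l x = none

/-- A family of bounding predicates below `p`: monotone, regular and dense. -/
structure ZFam (t : Od) (p : Raw) (ν τ : Od) (Z : Od → Od → Raw → Prop) : Prop where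
  mono : ∀ i ζ ζ' r r', D.LeT t r p → Z i ζ r → D.LeT t r' r → ζ ≤ ζ' → Z i ζ' r'
  reg : ∀ i ζ r, D.LeT t r p → D.RO t (Z i ζ) r → Z i ζ r
  dense : ∀ i < ν, ∀ r, D.LeT t r p → ∃ r', D.LeT t r' r ∧ ∃ ζ < τ, Z i ζ r'

/-- Bounding property of `τ` below `p` for families of length `ν`. -/
def BndR (t : Od) (p : Raw) (ν τ : Od) : Prop :=
  ∀ p', D.LeT t p' p → ∀ Z, D.ZFam t p' ν τ Z →
    ∃ q, D.LeT t q p' ∧ ∃ ζ < τ, ∀ i < ν, Z i ζ q

end Dat

/-- The properties of the modified beth function. -/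
structure BF (B : Od → Cardinal.{1}) (s : Od) : Prop where
  zero : B 0 = ℵ₀
  normal : Order.IsNormal B
  succ : ∀ x, x ≠ s → B (x + 1) = 2 ^ B x
  succ_s : B (s + 1) = Order.succ (Order.succ (Order.succ (2 ^ B s)))

/-- The parameters together with their properties. -/
structure Ctx extends Dat where
  kap : Od
  th : Cardinal.{1}
  ga : Od
  ke : Od → Od
  nm : Od → Od → Set (Raw × Od)
  bf : BF B s
  al_pos : 0 < al
  al_lt : al < ω₁
  ga_pos : 0 < ga
  ga_lt : ga < ω₁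
  hdec : ∀ η r, Inac η → Bdd η r → ∃ ξ < η, dec ξ = r
  good : ∀ μ ∈ Sp, toDat.GoodW μ (W μ)
  spmax : ∀ μ U, toDat.GoodW μ U → μ ∈ Sp
  kin : Inac kap
  s_lt : s + 1 < kap
  thin : th.IsInaccessible
  k_lt : kap < th.ord
  noin : ∀ x, kap < x → x < th.ord → ¬ Inac x
  sc : ∀ T : Type 1, Cardinal.mk T < th → SCOn kap.card T
  ksi : ∀ δ < ω₁, SI δ kap
  ke_si : ∀ i < ga, SI al (ke i)
  ke_mono : ∀ i j, i < j → j < ga → ke i < ke j
  ke_le : ∀ i < ga, ke i ≤ s
  ke_cof : ∀ y < s, ∃ i < ga, y < ke i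
  ke_all : ∀ x ≤ s, SI al x → ∃ i < ga, ke i = x
  nm_sub : ∀ x c r v, (r, v) ∈ nm x c → Bdd kap r ∧ v < (B (x + 1)).ord
  nm_card : ∀ x c, Cardinal.mk (nm x c) ≤ lift.{2} kap.card
  nm_surj : ∀ x, kap ≤ x → ∀ N : Set (Raw × Od),
    (∀ r v, (r, v) ∈ N → Bdd kap r ∧ v < (B (x + 1)).ord) →
    Cardinal.mk N ≤ lift.{2} kap.card → ∃ c < (B (x + 1)).ord, nm x c = N

end Pool.Agent.MP_85ce7b_lc
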