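import Pool.Agent.MP_85ce7b_lc.L.RH

namespace Pool.Agent.MP_85ce7b_lc

open Set Cardinal Ordinal Dat

/-- `[a, e]` consists of points, with no special point in `(a, e]`. -/
def Intv (p : Raw) (a e : Od) : Prop := Icc a e ⊆ p.c ∧ NoSp p a e

theorem rf_fresh {T : Set Od} {c : Cardinal.{1}} (h : Cardinal.mk T ≤ lift.{2} c) :
    ∃ i < (Order.succ c).ord, i ∉ T := by
  by_contra hn
  push Not at hn
  have h1 : Cardinal.mk (Iio (Order.succ c).ord) ≤ Cardinal.mk T :=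
    Cardinal.mk_le_mk_of_subset fun i hi => hn i hi
  rw [Cardinal.mk_Iio_ordinal, card_ord] at h1
  exact absurd (Cardinal.lift_le.1 (h1.trans h)) (not_le.2 (Order.lt_succ c))

theorem rf_pre {T : Set Od} {c : Cardinal.{2}} (h : Cardinal.mk T ≤ c) (o : Od) :
    Cardinal.mk {i : Od | o + i ∈ T} ≤ c :=
  (Cardinal.mk_preimage_of_injective (fun i => o + i) T (add_right_injective o)).trans h

theorem rf_succ_cof {c : Cardinal.{1}} (h : ℵ₀ ≤ c) : c < (Order.succ c).ord.cof := by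
  rw [(isRegular_succ h).cof_ord]
  exact Order.lt_succ c

namespace Ctx

variable {C : Ctx} {p q r r' : Raw} {t a e x y v μ ν δ : Od}

theorem rf_dom (hr : C.Valid r) (x : Od) :
    Cardinal.mk (Prod.fst '' r.h x) ≤ lift.{2} (C.B x) :=
  Cardinal.mk_image_le.trans (hr.col x).card

theorem rf_ord_mono (h : x ≤ y) : (C.B x).ord ≤ (C.B y).ord := ord_le_ord.2 (C.bf.mono h)

theorem rf_add {i : Od} (hr : C.Scope t r) (hx : x ∈ r.c) (ht : x < t) (hi : i < C.dm x)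
    (hf : i ∉ Prod.fst '' r.h x) (h₁ : v < (C.B t).ord)
    (h₂ : ∀ y ∈ r.c, x < y → v < (C.B y).ord)
    (h₃ : x = C.s → v < ((2 : Cardinal.{1}) ^ C.B C.s).ord) :
    C.LeT t (setH x (insert (i, v) (r.h x)) r) r := by
  have hc := hr.v.col x
  refine (ds_leS hr (setH_ds hr hx ht ⟨?_, ?_, ?_⟩ (subset_insert _ _) ?_)).1
  · rintro j w w' (hw | hw) (hw' | hw')
    · exact (Prod.ext_iff.1 hw).2.trans (Prod.ext_iff.1 hw').2.symm
    · exact absurd ⟨(j, w'), hw', (Prod.ext_iff.1 hw).1⟩ hf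
    · exact absurd ⟨(j, w), hw, (Prod.ext_iff.1 hw').1⟩ hf
    · exact hc.fn j w w' hw hw'
  · rintro j w (hw | hw)
    · exact (Prod.ext_iff.1 hw).1.trans_lt hi
    · exact hc.dom j w hw
  · have h0 : ℵ₀ ≤ lift.{2} (C.B x) := Cardinal.aleph0_le_lift.2 (C.bf.aleph0_le x)
    exact Cardinal.mk_insert_le.trans
      (Cardinal.add_le_of_le h0 hc.card (Cardinal.one_le_aleph0.trans h0))
  · rintro j w (hw | hw)
    · obtain rfl : w = v := (Prod.ext_iff.1 hw).2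
      exact ⟨h₁, h₂, h₃⟩
    · refine ⟨hr.bel x ht j w hw, fun y hy hxy => hr.v.bel y hy x hxy j w hw, fun hs => ?_⟩
      subst hs
      exact hr.v.vs j w hw

theorem rf_add_s {i : Od} (hr : C.Scope t r) (hx : C.s ∈ r.c) (ht : C.s + 1 ≤ t)
    (hi : i < C.dm C.s) (hf : i ∉ Prod.fst '' r.h C.s)
    (hv : v < ((2 : Cardinal.{1}) ^ C.B C.s).ord) :
    C.LeT t (setH C.s (insert (i, v) (r.h C.s)) r) r := by
  have h1 : v < (C.B (C.s + 1)).ord := hv.trans_le (ord_le_ord.2 (C.bf.two_pow_le _))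
  exact rf_add hr hx ((lt_add_one _).trans_le ht) hi hf (h1.trans_le (rf_ord_mono ht))
    (fun y _ hy => h1.trans_le (rf_ord_mono (Order.add_one_le_of_lt hy))) fun _ => hv

theorem rf_good (hp : C.Valid p) (hx : x + 1 ∈ p.c) : Good p (x + 1) :=
  ⟨hx, l_none_of_not_inac hp (rb5x_succ_not_inac x), x, rfl⟩

theorem rf_itv {e : Od} (hp : C.Scope t p) (ht : t ∉ p.c) (hae : a ≤ e) (he : e < t)
    (hc : p.c ⊆ Iio a) (hb : C.Below a p)
    (hz : ∀ z, a < z → z ≤ e → Inac z → C.s < z → ¬ SI C.al z) :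
    C.LeT t (cat p (itv a e)) p ∧ Intv (cat p (itv a e)) a e := by
  obtain ⟨β, hβ⟩ := hp.v.ne
  refine ⟨(ds_leS hp (add_itv hp ht hae he hc hb hz β hβ).1).1, fun z hz => Or.inr hz,
    fun z h1 h2 => ?_⟩
  rw [rb5x_cat_l_mem (show z ∈ (itv a e).c from ⟨h1.le, h2⟩)]
  rfl

theorem rf_gap {τ : Od} (hp : C.Scope t p) (hi : Intv p a (x + 1)) (ha : a < x) (ht : x + 1 ≤ t)
    (hx : Order.IsSuccLimit x) (hν : ν < (C.B x).ord) (hτ : τ.card ≤ C.B (x + 1))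
    (hl : Order.IsSuccLimit τ) (hc : ∀ y < x, C.B y < τ.cof) : C.BndR t p ν τ := by
  obtain ⟨y, hy, hνy⟩ := C.bf.lt_limit hx hν
  have h1 : Max.max a y + 1 < x := hx.add_one_lt (max_lt ha hy)
  have h2 : a < Max.max a y + 1 := (le_max_left a y).trans_lt (lt_add_one _)
  have h3 : Max.max a y + 1 ≤ x + 1 := (h1.trans (lt_add_one x)).le
  refine bnd_gap hp (Or.inl (rf_good hp.v (hi.1 ⟨h2.le, h3⟩)))
    (rf_good hp.v (hi.1 ⟨(ha.trans (lt_add_one x)).le, le_rfl⟩)) h3 ht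
    (fun z h4 h5 => hi.2 z (h2.trans h4) h5) ?_ hτ hl (hc _ h1)
  exact (Cardinal.lt_ord.1 hνy).le.trans
    (C.bf.mono ((le_max_right a y).trans (lt_add_one _).le))

theorem le_intv (h : C.Le q p) (hae : a ≤ e) (hi : Intv p a e) : Intv q a e := by
  exact ⟨hi.1.trans (le_c h), (le_noSp h (hi.1 ⟨le_rfl, hae⟩) (hi.1 ⟨hae, le_rfl⟩) hi.2).1⟩

theorem intv_adj (hp : C.Valid p) (hx : x ∈ p.c) (hx' : x + 1 ∈ p.c) : Adj p x (x + 1) := by
  exact ⟨hx, hx', lt_add_one x, fun z _ hz => Order.add_one_le_of_lt hz, (rf_good hp hx').2.1⟩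

theorem col_dense (hr : C.Scope t r) (h : Adj r x y) (hx : x ≠ C.s) (ht : y ≤ t)
    (hv : v < (C.B y).ord) : ∃ r', C.LeT t r' r ∧ ∃ i, (i, v) ∈ r'.h x := by
  obtain ⟨i, hi, hf⟩ := rf_fresh (rf_dom hr.v x)
  refine ⟨_, rf_add hr h.1 (h.2.2.1.trans_le ht) (hi.trans_le (C.succ_le_dm x)) hf
    (hv.trans_le (rf_ord_mono ht)) (fun z hz hxz => hv.trans_le (rf_ord_mono (h.2.2.2.1 z hz hxz)))
    (fun hs => absurd hs hx), i, ?_⟩
  rw [r5a_setH_self]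
  exact mem_insert _ _

theorem col_s_dense (hr : C.Scope t r) (hc : Icc 0 (C.s + 1) ⊆ r.c) (ht : C.s + 1 ≤ t)
    (hv : v < ((2 : Cardinal.{1}) ^ C.B C.s).ord) :
    ∃ r', C.LeT t r' r ∧ ∃ i < (Order.succ (C.B C.s)).ord, (i, v) ∈ r'.h C.s := by
  obtain ⟨i, hi, hf⟩ := rf_fresh (rf_dom hr.v C.s)
  refine ⟨_, rf_add_s hr (hc ⟨zero_le, (lt_add_one _).le⟩) ht (hi.trans_le (C.succ_le_dm _)) hf hv,
    i, hi, ?_⟩
  rw [r5a_setH_self]
  exact mem_insert _ _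

theorem fail_dense (hr : C.Scope t r) (hc : Icc 0 (C.s + 1) ⊆ r.c) (ht : C.s + 1 ≤ t) {j j' : Od}
    (hj : j < (C.B (C.s + 1)).ord) (hj' : j' < (C.B (C.s + 1)).ord) (hne : j ≠ j') :
    ∃ r', C.LeT t r' r ∧ ∃ i < (Order.succ (C.B C.s)).ord,
      ((Order.succ (C.B C.s)).ord * j + i, 0) ∈ r'.h C.s ∧
      ((Order.succ (C.B C.s)).ord * j' + i, 1) ∈ r'.h C.s := by
  have h0 : ℵ₀ ≤ lift.{2} (C.B C.s) := Cardinal.aleph0_le_lift.2 (C.bf.aleph0_le _)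
  obtain ⟨i, hi, hf⟩ := rf_fresh ((Cardinal.mk_union_le _ _).trans (Cardinal.add_le_of_le h0
    (rf_pre (rf_dom hr.v C.s) ((Order.succ (C.B C.s)).ord * j))
    (rf_pre (rf_dom hr.v C.s) ((Order.succ (C.B C.s)).ord * j'))))
  have hs : C.s ∈ r.c := hc ⟨zero_le, (lt_add_one _).le⟩
  have hn : Order.succ (C.B C.s) < C.B (C.s + 1) := by
    rw [C.bf.succ_s]
    exact (Order.succ_le_of_lt (Cardinal.cantor _)).trans_lt
      ((Order.lt_succ _).trans_le ((Order.le_succ _).trans (Order.le_succ _)))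
  have hd : ∀ k < (C.B (C.s + 1)).ord, (Order.succ (C.B C.s)).ord * k + i < C.dm C.s := by
    intro k hk
    have : C.dm C.s = (C.B (C.s + 1)).ord := if_pos rfl
    rw [this, Cardinal.lt_ord, card_add, card_mul, card_ord]
    exact Cardinal.add_lt_of_lt (C.bf.aleph0_le _)
      (Cardinal.mul_lt_of_lt (C.bf.aleph0_le _) hn (Cardinal.lt_ord.1 hk))
      ((Cardinal.lt_ord.1 hi).trans hn)
  have hv : (1 : Od) < ((2 : Cardinal.{1}) ^ C.B C.s).ord := by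
    rw [Cardinal.lt_ord, card_one]
    exact Cardinal.one_lt_aleph0.trans_le ((C.bf.aleph0_le _).trans (Cardinal.cantor _).le)
  have hne' : (Order.succ (C.B C.s)).ord * j + i ≠ (Order.succ (C.B C.s)).ord * j' + i := by
    intro he
    have h1 := congrArg (· / (Order.succ (C.B C.s)).ord) he
    simp only [Ordinal.mul_add_div _ hi.ne_zero, Ordinal.div_eq_zero_of_lt hi, add_zero] at h1
    exact hne h1
  have g1 := rf_add_s hr hs ht (hd j hj) (fun h => hf (Or.inl h)) (zero_lt_one.trans hv)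
  have g2 := rf_add_s (leT_scope hr g1) hs ht (hd j' hj') (by
    rw [r5a_setH_self]
    rintro ⟨z, hz | hz, h⟩
    · rw [hz] at h
      exact hne' h
    · exact hf (Or.inr ⟨z, hz, h⟩)) hv
  refine ⟨_, leT_trans g2 g1, i, hi, ?_, ?_⟩
  · rw [r5a_setH_self, r5a_setH_self]
    exact Or.inr (mem_insert _ _)
  · rw [r5a_setH_self]
    exact mem_insert _ _

theorem s_dense (hr : C.Scope t r) (hμ : Spec r μ) (ht : μ ≤ t) (ha : a < μ) :
    ∃ r', C.LeT t r' r ∧ ∃ L, r'.l μ = some L ∧ ∃ z ∈ L.s, a < z := by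
  obtain ⟨L, hL⟩ := hμ
  obtain ⟨ξ, hξ, -, hlt, hb⟩ := exists_ins hr.v hL ha (Z := univ) Filter.univ_mem
  refine ⟨_, leT_of_ins hr ⟨L, ξ, hL, hξ, hb, rfl⟩ ht, _,
    rb1_l_mu (r5a_pos hr.v ⟨L, hL⟩ hb).2.2.2.2.1 hL, _, mem_insert _ _, hlt⟩

theorem s_rank (h : C.Le r' r) {L L' : Lo} (hL : r.l μ = some L) (hL' : r'.l μ = some L')
    {z : Od} (hz : z ∈ L.s) : z ∈ L'.s ∧ z < μ ∧ L'.s ∩ Iio z = L.s ∩ Iio z := by
  obtain ⟨M, hM, -, -, h1, h2⟩ := le_l1 h hL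
  obtain rfl : M = L' := Option.some.inj (hM.symm.trans hL')
  obtain ⟨y, hy, hzy, hyμ⟩ := (h.1.sp μ L hL).s z hz
  refine ⟨h1 hz, hzy.trans_lt hyμ, subset_antisymm (fun w hw => ⟨?_, hw.2⟩)
    fun w hw => ⟨h1 hw.1, hw.2⟩⟩
  by_contra hn
  exact absurd (h2 w hw.1 hn y hy hyμ) (not_lt.2 ((le_of_lt hw.2).trans hzy))

theorem key_dense (hp : C.Scope t p) (ht : t ∉ p.c) (hc : Icc 0 (C.s + 1) ⊆ p.c) (h₁ : ω < a)
    (h₂ : a < t) (h : ¬ Inac a ∨ (C.s < a ∧ SI C.al a)) :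
    ∃ q, C.LeT t q p ∧ ((∃ x y, Adj q x y ∧ x ≠ C.s ∧ (C.B x).ord < a ∧ a ≤ (C.B y).ord) ∨
      (C.s < a ∧ a ≤ (C.B (C.s + 1)).ord) ∨ Spec q a ∨ a.cof.ord < a) := by
  obtain ⟨d, u, had, hdt, hd, -, hu, -⟩ := top_ext hp ht h₂
  have hup : C.LeT t u p := (ds_leS hp (hu 0 (hc ⟨le_rfl, zero_le⟩)).1).1
  have hus := leT_scope hp hup
  have hcu : Icc 0 (C.s + 1) ⊆ u.c := hc.trans (le_c hup.le)
  set S : Set Od := {x | x ∈ u.c ∧ (C.B x).ord < a} with hS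
  have h0 : (0 : Od) ∈ S := ⟨hcu ⟨le_rfl, zero_le⟩, by rwa [C.bf.zero, ord_aleph0]⟩
  have hb : BddAbove S := ⟨a, fun x hx => ((C.bf.le_ord x).trans_lt hx.2).le⟩
  by_cases hx : sSup S ∈ S
  · have hxa : sSup S < a := (C.bf.le_ord _).trans_lt hx.2
    set T : Set Od := {z | z ∈ u.c ∧ sSup S < z} with hT
    have hdT : d ∈ T := ⟨hd.1, hxa.trans had⟩
    have hy : sInf T ∈ T := csInf_mem ⟨d, hdT⟩
    have hmin : ∀ z ∈ u.c, sSup S < z → sInf T ≤ z := fun z h1 h2 => csInf_le' (s := T) ⟨h1, h2⟩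
    have hay : a ≤ (C.B (sInf T)).ord := by
      by_contra hn
      exact absurd (le_csSup hb ⟨hy.1, not_le.1 hn⟩) (not_le.2 hy.2)
    by_cases hs : sSup S = C.s
    · refine ⟨u, hup, Or.inr (Or.inl ⟨hs ▸ hxa, hay.trans (rf_ord_mono ?_)⟩)⟩
      exact hmin _ (hcu ⟨zero_le, le_rfl⟩) (hs ▸ lt_add_one _)
    cases hl : u.l (sInf T) with
    | none => exact ⟨u, hup, Or.inl ⟨_, _, ⟨hx.1, hy.1, hy.2, hmin, hl⟩, hs, hx.2, hay⟩⟩
    | some L =>
      have hsp : Spec u (sInf T) := ⟨L, hl⟩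
      rw [C.bf.inac_eq (spec_inac hus.v hsp).1] at hay
      rcases hay.eq_or_lt with he | hlt
      · exact ⟨u, hup, Or.inr (Or.inr (Or.inl (he ▸ hsp)))⟩
      obtain ⟨ξ, hξ, -, hlt, hb⟩ := exists_ins hus.v hl hlt (Z := univ) Filter.univ_mem
      obtain ⟨-, g2, -, g4, -, -, g7⟩ := r5a_pos hus.v hsp hb
      refine ⟨_, leT_trans (leT_of_ins hus ⟨L, ξ, hl, hξ, hb, rfl⟩
        ((hmin d hd.1 hdT.2).trans hdt.le)) hup, Or.inl ⟨sSup S, fp (C.dec ξ),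
        ⟨rb2_ins_c.2 (Or.inl hx.1), rb2_ins_c.2 (Or.inr g4), hxa.trans hlt, fun z hz hxz => ?_, ?_⟩,
        hs, hx.2, hlt.le.trans (C.bf.le_ord _)⟩⟩
      · rcases rb2_ins_c.1 hz with hz | hz
        · exact g7.le.trans (hmin z hz hxz)
        · exact (g2 z hz).1
      · rw [(r5a_in hus.v hsp hb le_rfl g7).2.2]
        exact (fp_mem hb.blk.v).2.2
  · have hz : ∀ y < sSup S, ∃ z ∈ S, y < z ∧ z < sSup S := fun y hy => by
      obtain ⟨z, hz, hyz⟩ := exists_lt_of_lt_csSup ⟨0, h0⟩ hy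
      exact ⟨z, hz, hyz, (le_csSup hb hz).lt_of_ne fun he => hx (he ▸ hz)⟩
    have hpos : 0 < sSup S := (le_csSup hb h0).lt_of_ne fun he => hx (he ▸ h0)
    have hlim : LimP u.c (sSup S) := ⟨hpos, fun y hy => by
      obtain ⟨z, h1, h2⟩ := hz y hy
      exact ⟨z, h1.1, h2⟩⟩
    have hsl : Order.IsSuccLimit (sSup S) := by
      refine Ordinal.isSuccLimit_iff.2 ⟨hpos.ne', Order.isSuccPrelimit_of_succ_lt fun y hy => ?_⟩
      obtain ⟨z, -, h1, h2⟩ := hz y hy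
      exact (Order.succ_le_of_lt h1).trans_lt h2
    have he : (C.B (sSup S)).ord = a := by
      refine le_antisymm (not_lt.1 fun hn => ?_) (not_lt.1 fun hn => hx ⟨hus.v.cl _ hlim, hn⟩)
      obtain ⟨y, hy, hay⟩ := C.bf.lt_limit hsl hn
      obtain ⟨z, h1, h2, -⟩ := hz y hy
      exact absurd (hay.trans_le (rf_ord_mono h2.le)) (not_lt.2 h1.2.le)
    by_cases hi : Inac (sSup S)
    · rw [C.bf.inac_eq hi] at he
      rw [he] at hi hlim
      rcases h with h | h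
      · exact absurd hi h
      · exact absurd h.2 ((hus.v.eas a hlim hi).2 h.1)
    · refine ⟨u, hup, Or.inr (Or.inr (Or.inr ?_))⟩
      have := ord_lt_ord.2 (C.bf.singular hsl hi)
      rwa [he] at this

theorem top_zero (hp : C.Scope t p) (ht : t ∉ p.c) (ha : a < t) :
    ∃ q x, C.LeT t q p ∧ a < x ∧ x + 1 < t ∧ Good q x ∧ x + 1 ∈ q.c := by
  obtain ⟨y, hay, hyt, hc, hb⟩ := exists_room hp ht ha
  have hl := (rb5x_top hp ht).1.isSuccLimit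
  have h1 : y + 1 + 1 < t := hl.add_one_lt (hl.add_one_lt hyt)
  have h2 : y ≤ y + 1 := (lt_add_one y).le
  have h3 : y + 1 ≤ y + 1 + 1 := (lt_add_one _).le
  obtain ⟨g1, g2⟩ := rf_itv hp ht (h2.trans h3) h1 hc hb fun z k1 k2 k3 => by
    rcases le_or_gt z (y + 1) with k | k
    · exact absurd k3 (rb5x_between k1 k)
    · exact absurd k3 (rb5x_between k k2)
  exact ⟨_, y + 1, g1, hay.trans (lt_add_one y), h1,
    rf_good (le_valid g1.le) (g2.1 ⟨h2, h3⟩), g2.1 ⟨h2.trans h3, le_rfl⟩⟩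

theorem top_pos (hp : C.Scope C.kap p) (ht : C.kap ∉ p.c) {b : Od} (hb : b < C.kap) (h0 : 0 < δ)
    (hδ : δ < C.al) :
    ∃ q a x, C.LeT C.kap q p ∧ b < x ∧ a < x ∧ SI δ x ∧ x + 1 < C.kap ∧ Intv q a (x + 1) := by
  obtain ⟨y, hby, hyt, hc, hb⟩ := exists_room hp ht hb
  obtain ⟨z, hyz, hzk, hz⟩ := (SI_iff.1 (C.ksi (δ + 1)
    ((Order.add_one_le_of_lt hδ).trans_lt C.al_lt))).2 δ (lt_add_one δ) h0 y hyt
  set T : Set Od := {z | y < z ∧ SI δ z} with hT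
  have hx : sInf T ∈ T := csInf_mem ⟨z, hyz, hz⟩
  have hmin : ∀ w, y < w → SI δ w → sInf T ≤ w := fun w h1 h2 => csInf_le' (s := T) ⟨h1, h2⟩
  have h1 : sInf T + 1 < C.kap := C.kin.isSuccLimit.add_one_lt ((hmin z hyz hz).trans_lt hzk)
  obtain ⟨g1, g2⟩ := rf_itv hp ht (hx.1.trans (lt_add_one _)).le h1 hc hb
    fun w k1 k2 k3 _ k4 => by
      rcases le_or_gt w (sInf T) with k | k
      · obtain ⟨v, m1, m2, m3⟩ := (SI_iff.1 k4).2 δ hδ h0 y k1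
        exact absurd (hmin v m1 m3) (not_le.2 (m2.trans_le k))
      · exact rb5x_between k k2 k3
  exact ⟨_, y, sInf T, g1, hby.trans hx.1, hx.1, hx.2, h1, g2⟩

theorem bnd_succ (hp : C.Scope t p) (hx : Good0 p x) (hx' : x + 1 ∈ p.c) (ht : x + 1 ≤ t)
    (hν : ν < (Order.succ (C.B x)).ord) : C.BndR t p ν (Order.succ (C.B x)).ord := by
  refine bnd_gap hp hx (rf_good hp.v hx') (lt_add_one x).le ht
    (fun z h1 h2 => l_none_of_not_inac hp.v (rb5x_between h1 h2))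
    (Order.lt_succ_iff.1 (Cardinal.lt_ord.1 hν)) ?_
    (Cardinal.isSuccLimit_ord ((C.bf.aleph0_le x).trans (Order.le_succ _)))
    (rf_succ_cof (C.bf.aleph0_le x))
  rw [card_ord]
  exact C.bf.succ_le (lt_add_one x)

theorem bnd_lim (hp : C.Scope t p) (hi : Intv p a (x + 1)) (ha : a < x) (ht : x + 1 ≤ t)
    (hx : Order.IsSuccLimit x) (hν : ν < (C.B x).ord) :
    C.BndR t p ν (Order.succ (C.B x)).ord := by
  refine rf_gap hp hi ha ht hx hν ?_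
    (Cardinal.isSuccLimit_ord ((C.bf.aleph0_le x).trans (Order.le_succ _)))
    fun y hy => (C.bf.lt hy).trans (rf_succ_cof (C.bf.aleph0_le x))
  rw [card_ord]
  exact C.bf.succ_le (lt_add_one x)

theorem bnd_inac (hp : C.Scope t p) (hi : Intv p a (x + 1)) (ha : a < x) (ht : x + 1 ≤ t)
    (hx : Inac x) (hν : ν < x) : C.BndR t p ν x := by
  refine rf_gap hp hi ha ht hx.isSuccLimit (by rwa [C.bf.inac_eq hx])
    ((C.bf.card_le x).trans (C.bf.mono (lt_add_one x).le)) hx.isSuccLimit fun y hy => ?_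
  rw [hx.cof_eq, ← ord_lt_ord, hx.ord_card]
  exact C.bf.lt_inac hx hy

end Ctx

end Pool.Agent.MP_85ce7b_lc
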