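import Pool.Agent.MP_85ce7b_lc.L.RT

namespace Pool.Agent.MP_85ce7b_lc

open Set Cardinal Ordinal Dat

namespace Ctx

variable {C : Ctx} {p q r : Raw} {t δ δ' e μ ν τ : Od} {D : Raw → Prop}

/-! ### Bounding -/

theorem RH_up {a b : Raw} (hb : C.Scope t b) (he : e ∈ b.c) (het : e ≤ t) (h : C.LeT e a b) :
    C.LeT t a b :=
  leT_mono h (scope_of_mem hb.v he) hb het

theorem RH_choose (P : Od → Prop) (h0 : 0 < τ) : ∃ ζ < τ, (∃ ζ' < τ, P ζ') → P ζ := by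
  by_cases h : ∃ ζ' < τ, P ζ'
  · obtain ⟨ζ, h1, h2⟩ := h
    exact ⟨ζ, h1, fun _ => h2⟩
  · exact ⟨0, h0, fun h' => absurd h' h⟩

theorem RH_bound {ν' : Od} (hl : Order.IsSuccLimit τ) (hν : ν.card < τ.cof)
    (hν' : ν'.card < τ.cof) (P : Od → Od → Od → Prop) :
    ∃ b < τ, ∀ i < ν, ∀ j < ν', (∃ ζ < τ, P i j ζ) → ∃ ζ ≤ b, P i j ζ := by
  choose z hz hP using fun i j => RH_choose (P i j) hl.pos
  choose a ha hza using fun i => bound_of_lt_cof hl hν' (z i) fun j _ => hz i j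
  obtain ⟨b, hb, hab⟩ := bound_of_lt_cof hl hν a fun i _ => ha i
  exact ⟨b, hb, fun i hi j hj h => ⟨z i j, ((hza i j hj).trans (hab i hi)).le, hP i j h⟩⟩

theorem RH_good_succ (hp : C.Valid p) (h : μ + 1 ∈ p.c) : Good p (μ + 1) :=
  ⟨h, l_none_of_not_inac hp (rb5x_succ_not_inac μ), μ, rfl⟩

theorem RH_dirA {w : Raw} (h : C.LeT e r w) (hδ : δ ∈ w.c) (hn : NoSp w δ e) : DirA δ r w := by
  refine le_dirA h.le hδ fun x hx hδx => ?_
  rcases le_or_gt x e with h1 | h1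
  · obtain ⟨L, hL⟩ := hx
    rw [hn x hδx h1] at hL
    cases hL
  · rw [sAt, sAt, h.ag.2 x h1]

theorem ro_open (C : Ctx) (t : Od) (O : Raw → Prop) : C.OpenT t (C.RO t O) := by
  exact fun _ _ _ h h' r₁ h₁ => h r₁ (leT_trans h₁ h')

theorem ro_lc (C : Ctx) (t : Od) (O : Raw → Prop) : C.LC t (· ≤ t) (C.RO t O) := by
  intro δ r hδt hr hδ H r₁ h₁
  obtain ⟨r'', g1, g2⟩ := H (mix δ r₁ r) (low_leT h₁.le hδ)
  have hδ' : δ ∈ (mix δ r₁ r).c := (rb2_c_ge le_rfl).2 hδ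
  have hδ₁ : δ ∈ r₁.c := le_c h₁.le hδ
  have e1 := mix_leT_right h₁ hδ hδt (le_valid g1.le) (le_c g1.le hδ')
  rw [mix_eq_left (g1.ag.trans (agree_mix δ r₁ r))] at e1
  have e2 := mix_le_left g1.le hδ' (le_valid h₁.le) hδ₁
  rw [mix_mix_left, mix_self] at e2
  obtain ⟨r₃, g3, g4⟩ := g2 _ e1
  exact ⟨r₃, leT_trans g3 (RH_up (leT_scope hr h₁) hδ₁ hδt e2), g4⟩

/-- Reduction of a bounding family to the part below a good point. -/
theorem zfam_low {Z : Od → Od → Raw → Prop} (hp : C.Scope t p) (he : Good p e) (het : e ≤ t)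
    (hν : ν.card ≤ C.B e) (hτ : τ.card ≤ C.B e) (hZ : C.ZFam t p ν τ Z) :
    ∃ u, C.DT e t u p ∧ ∀ i < ν, ∀ ζ < τ, ∀ r, C.LeT t r u → Z i ζ r → Z i ζ (mix e r u) := by
  obtain ⟨f, g, -, hfg⟩ := exists_pairing (C.bf.aleph0_le e)
  obtain ⟨a, ha⟩ := exists_surj_of_card_le hν
  obtain ⟨b, hb⟩ := exists_surj_of_card_le hτ
  obtain ⟨u, hu, H⟩ := pf_low (C.pp_all t) hp (Or.inl he) het (ν := (C.B e).ord) (card_ord _).le
    (fun k => C.RO t fun r => C.LeT t r p ∧ Z (a (f k)) (b (g k)) r)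
    (fun _ => ro_open C t _) fun _ => ro_lc C t _
  have hup := (ds_leS hp hu.1).1
  refine ⟨u, hu, fun i hi ζ hζ r hr hz => ?_⟩
  obtain ⟨i', hi', rfl⟩ := ha i hi
  obtain ⟨ζ', hζ', rfl⟩ := hb ζ hζ
  obtain ⟨k, hk, rfl, rfl⟩ := hfg i' hi' ζ' hζ'
  have hrp := leT_trans hr hup
  have heu : e ∈ u.c := hu.1.d.c he.1
  have h1 := H k hk r hr fun r' hr' => ⟨r', leT_refl (leT_scope hp (leT_trans hr' hrp)),
    leT_trans hr' hrp, hZ.mono _ _ _ _ _ hrp hz hr' le_rfl⟩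
  refine hZ.reg _ _ _ (leT_trans (RH_up (leT_scope hp hup) heu het (low_leT hr.le heu)) hup)
    fun r' hr' => ?_
  obtain ⟨r'', g1, -, g2⟩ := h1 r' hr'
  exact ⟨r'', g1, g2⟩

/-- A bounding property that holds below a good point holds. -/
theorem bnd_of_low (hp : C.Scope t p) (he : Good p e) (het : e ≤ t) (hν : ν.card ≤ C.B e)
    (hτ : τ.card ≤ C.B e) (h : ∀ u, C.LeT t u p → C.BndR e u ν τ) : C.BndR t p ν τ := by
  intro p' hp' Z hZ
  have hs' := leT_scope hp hp'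
  have he' := le_good hp'.le he
  obtain ⟨u, hu, H⟩ := zfam_low hs' he' het hν hτ hZ
  have hup := (ds_leS hs' hu.1).1
  have hsu := leT_scope hs' hup
  have heu : e ∈ u.c := hu.1.d.c he'.1
  have up : ∀ r, C.LeT e r u → C.LeT t r u := fun r hr => RH_up hsu heu het hr
  have up' : ∀ r r', C.LeT e r u → C.LeT e r' r → C.LeT t r' r := fun r r' hr hr' =>
    RH_up (leT_scope hsu (up r hr)) (le_c hr.le heu) het hr'
  obtain ⟨q, hq, hζ⟩ := h u (leT_trans hup hp') u (leT_refl (scope_of_mem hsu.v heu)) Z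
    ⟨fun i ζ ζ' r r' hr hz hr' hζ =>
      hZ.mono i ζ ζ' r r' (leT_trans (up r hr) hup) hz (up' r r' hr hr') hζ,
    fun i ζ r hr hro => by
      refine hZ.reg i ζ r (leT_trans (up r hr) hup) (ro_lc C t _ e r het
        (leT_scope hsu (up r hr)) (le_c hr.le heu) fun r' hr' => ?_)
      obtain ⟨r'', g1, g2⟩ := hro r' hr'
      have g3 := leT_trans (up r'' (leT_trans g1 (leT_trans hr' hr))) hup
      exact ⟨r'', g1, fun r₃ h₃ => ⟨r₃, leT_refl (leT_scope hs' (leT_trans h₃ g3)),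
        hZ.mono _ _ _ _ _ g3 g2 h₃ le_rfl⟩⟩,
    fun i hi r hr => by
      obtain ⟨r₁, g1, ζ, g2, g3⟩ := hZ.dense i hi r (leT_trans (up r hr) hup)
      have g4 := H i hi ζ g2 r₁ (leT_trans g1 (up r hr)) g3
      rw [← mix_congr (q := r₁) ⟨RB4_agS_refl e r₁, rfl⟩ hr.ag] at g4
      exact ⟨_, low_leT g1.le (le_c hr.le heu), ζ, g2, g4⟩⟩
  exact ⟨q, leT_trans (up q hq) hup, hζ⟩

theorem bnd_gap (hp : C.Scope t p) (hδ : Good0 p δ) (he : Good p e) (hδe : δ ≤ e) (het : e ≤ t)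
    (hn : NoSp p δ e) (hν : ν.card ≤ C.B δ) (hτ : τ.card ≤ C.B e) (hl : Order.IsSuccLimit τ)
    (hc : C.B δ < τ.cof) : C.BndR t p ν τ := by
  refine bnd_of_low hp he het (hν.trans (C.bf.mono hδe)) hτ fun u hu p' hp' Z hZ => ?_
  have hle : C.Le p' p := le_trans' hp'.le hu.le
  have hs' : C.Scope e p' := scope_of_mem (le_valid hle) (le_c hle he.1)
  obtain ⟨w, hw, H⟩ := unif_good hs' (le_good0 hle hδ) hδe hν (fun j r => ∃ ζ < τ, Z j ζ r)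
    fun j r r' hr ⟨ζ, h1, h2⟩ hd =>
      ⟨ζ, h1, hZ.mono _ _ _ _ _ hr h2 (ds_leS (leT_scope hs' hr) hd.1).1 le_rfl⟩
  have hwp := (ds_leS hs' hw.1).1
  have hsw := leT_scope hs' hwp
  have hwle := le_trans' hwp.le hle
  have hδp := (good0_mem hp.v hδ).1
  have hδw : δ ∈ w.c := le_c hwle hδp
  have hnw := (le_noSp hwle hδp he.1 hn).1
  obtain ⟨en, hen⟩ := low_enum (C := C) (le_good0 hwle hδ)
  obtain ⟨b, hb, hB⟩ := RH_bound (ν' := (C.B δ).ord) hl (hν.trans_lt hc) (by rwa [card_ord])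
    fun j k ζ => Z j ζ (en k)
  refine ⟨w, hwp, b, hb, fun j hj => hZ.reg j b w hwp fun r' hr' => ?_⟩
  obtain ⟨r'', g1, g2⟩ := hZ.dense j hj r' (leT_trans hr' hwp)
  have g3 := leT_trans g1 hr'
  have g4 := H j hj r'' g3 (RH_dirA g3 hδw hnw) g2
  have g5 := low_leT g3.le hδw
  obtain ⟨k, hk, ek⟩ := hen _ g5
  obtain ⟨ζ, g6, g7⟩ := hB j hj k hk (by rwa [ek])
  rw [ek] at g7
  exact ⟨r'', g1, hZ.mono _ _ _ _ _ (leT_trans (RH_up hsw hδw hδe g5) hwp) g7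
    (le_low g3 hδw hδe) g6⟩

theorem bnd_spec (hp : C.Scope t p) (hμ : Spec p μ) (he : μ + 1 ∈ p.c) (het : μ + 1 ≤ t)
    (hν : ν < (Order.succ (C.B μ)).ord) : C.BndR t p ν (Order.succ (C.B μ)).ord := by
  have hν' : ν.card ≤ C.B μ := Order.lt_succ_iff.1 (lt_ord.1 hν)
  have hμe : μ ≤ μ + 1 := (lt_add_one μ).le
  have hreg := isRegular_succ (C.bf.aleph0_le μ)
  refine bnd_of_low hp (RH_good_succ hp.v he) het (hν'.trans (C.bf.mono hμe))
    ((card_ord _).le.trans (C.bf.succ_le (lt_add_one μ))) fun u hu p' hp' Z hZ => ?_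
  have hle : C.Le p' p := le_trans' hp'.le hu.le
  have hs' : C.Scope (μ + 1) p' := scope_of_mem (le_valid hle) (le_c hle he)
  have hμ' : Spec p' μ := RU_spec hle hμ
  have hin := (spec_inac hp.v hμ).1
  obtain ⟨a, ha⟩ := exists_surj_of_card_le hν'
  rw [C.bf.inac_eq hin] at ha
  obtain ⟨w, hw, H⟩ := unif_spec hs' hμ' hμe
    (fun j r => ∃ ζ < (Order.succ (C.B μ)).ord, Z (a j) ζ r)
    fun j r r' hr ⟨ζ, h1, h2⟩ hd =>
      ⟨ζ, h1, hZ.mono _ _ _ _ _ hr h2 (ds_leS (leT_scope hs' hr) hd).1 le_rfl⟩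
  have hwp := (ds_leS hs' hw).1
  have hsw := leT_scope hs' hwp
  have hμw : Spec w μ := RU_spec hwp.le hμ'
  have hnw : NoSp w μ (μ + 1) := fun x h1 h2 =>
    l_none_of_not_inac hsw.v (rb5x_between h1 h2)
  have hcof : μ.card < (Order.succ (C.B μ)).ord.cof := by
    rw [hreg.cof_ord]
    exact Order.lt_succ_iff.2 (C.bf.card_le μ)
  have hsc : ∀ r, C.LeT (μ + 1) r w → C.scode μ r < μ ∧ C.dec (C.scode μ r) = stem μ r :=
    fun r hr => scode_spec hin (stem_bdd (le_valid hr.le) (RU_spec hr.le hμw))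
  obtain ⟨b, hb, hB⟩ := RH_bound (isSuccLimit_ord hreg.aleph0_le) hcof hcof
    fun j c ζ => ∃ r, C.LeT (μ + 1) r w ∧ C.scode μ r = c ∧
      Z (a j) ζ (gl μ r (C.cutA μ (max j c) w))
  refine ⟨w, hwp, b, hb, fun i hi => hZ.reg i b w hwp fun r' hr' => ?_⟩
  obtain ⟨r'', g1, g2⟩ := hZ.dense i hi r' (leT_trans hr' hwp)
  obtain ⟨j, hj, rfl⟩ := ha i hi
  have g3 := leT_trans g1 hr'
  have hd := RH_dirA g3 (spec_mem hsw.v hμw) hnw
  obtain ⟨ζ, g4, g5⟩ := H j hj r'' g3 hd g2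
  obtain ⟨ζ', g6, r₂, g7, g8, g9⟩ := hB j hj _ (hsc r'' g3).1 ⟨ζ, g4, r'', g3, rfl, g5⟩
  have hm : max j (C.scode μ r'') < μ := max_lt hj (hsc r'' g3).1
  rw [gl_congr_stem (le_valid g7.le) (le_valid g3.le)
    (by rw [← (hsc r₂ g7).2, ← (hsc r'' g3).2, g8]) (spec_cutA C.toDat hμw)] at g9
  have k1 := RU_gl_leT hs' hμ' hμe (leT_trans g3 hwp).le
    (ds_trans (cutA_ds hsw hμw hμe hm) hw)
  have k2 := (ds_leS (leT_scope hs' k1) (cut_gl_ds g3 hd hμw hμe hm)).1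
  have hs'' := leT_scope hsw g3
  have k3 := (ds_leS hs'' (cutA_ds hs'' (RU_spec g3.le hμw) hμe hm)).1
  exact ⟨_, leT_trans k3 g1, hZ.mono _ _ _ _ _ k1 g9 k2 g6⟩

theorem bnd_cc (hp : C.Scope t p) (hc : Icc 0 (C.s + 1) ⊆ p.c) (ht : C.s + 1 ≤ t)
    {k : Cardinal.{1}} (hk : k.IsRegular) (h₁ : 2 ^ C.B C.s < k) (h₂ : k ≤ C.B (C.s + 1))
    (hν : ν < k.ord) : C.BndR t p ν k.ord := by
  have he : C.s + 1 ∈ p.c := hc ⟨zero_le, le_rfl⟩
  have hl := isSuccLimit_ord hk.aleph0_le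
  refine bnd_of_low hp (RH_good_succ hp.v he) ht ((lt_ord.1 hν).le.trans h₂)
    ((card_ord _).le.trans h₂) fun u hu p' hp' Z hZ => ?_
  have hle : C.Le p' p := le_trans' hp'.le hu.le
  have hs' : C.Scope (C.s + 1) p' := scope_of_mem (le_valid hle) (le_c hle he)
  have key : ∀ i, ∃ b < k.ord, i < ν → Z i b p' := by
    intro i
    by_cases hi : i < ν
    · obtain ⟨S, h1, h2, h3⟩ := cc_s hs'.v (hc.trans (le_c hle))
        (fun r => ∃ ζ < k.ord, Z i ζ r) (hZ.dense i hi)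
      choose z hz hP using fun a => RH_choose (fun ζ => Z i ζ a) hl.pos
      obtain ⟨b, hb, hB⟩ := bound_set_of_lt_cof (S := z '' S) (by
        rintro _ ⟨a, -, rfl⟩
        exact hz a) hl (by
        rw [hk.cof_ord]
        exact (Cardinal.mk_image_le.trans h1).trans_lt (Cardinal.lift_lt.2 h₁))
      refine ⟨b, hb, fun _ => hZ.reg i b p' (leT_refl hs') fun r hr => ?_⟩
      obtain ⟨a, ha, r', g1, g2⟩ := h3 r hr
      exact ⟨r', g1, hZ.mono _ _ _ _ _ (h2 a ha).1 (hP a (h2 a ha).2) g2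
        (le_of_lt (hB ⟨a, ha, rfl⟩))⟩
    · exact ⟨0, hl.pos, fun h => absurd h hi⟩
  choose z hz hP using key
  obtain ⟨b, hb, hB⟩ := bound_of_lt_cof (ν := ν) hl (by rw [hk.cof_ord]; exact lt_ord.1 hν) z
    fun i _ => hz i
  exact ⟨p', leT_refl hs', b, hb, fun i hi =>
    hZ.mono _ _ _ _ _ (leT_refl hs') (hP i hi) (leT_refl hs') (hB i hi).le⟩

end Ctx

end Pool.Agent.MP_85ce7b_lc
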