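import Pool.Agent.MP_85ce7b_lc.L.RB5

namespace Pool.Agent.MP_85ce7b_lc

open Set Cardinal Ordinal Dat

/-- Sets of size at most `a`. -/
def RLs {α : Type 2} (a : Cardinal.{1}) (S : Set α) : Prop := Cardinal.mk S ≤ lift.{2} a

namespace RLs

variable {α β : Type 2} {a b : Cardinal.{1}} {S S' : Set α} {T : Set β}

theorem mono (h : RLs a S) (hs : S' ⊆ S) : RLs a S' :=
  (Cardinal.mk_le_mk_of_subset hs).trans h

theorem up (h : RLs a S) (hab : a ≤ b) : RLs b S :=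
  le_trans h (Cardinal.lift_le.2 hab)

theorem prod (ha : ℵ₀ ≤ a) (h : RLs a S) (h' : RLs a T) : RLs a (S ×ˢ T) := by
  unfold RLs at *
  rw [Cardinal.mk_setProd]
  exact (mul_le_mul' h h').trans (Cardinal.mul_eq_self (Cardinal.aleph0_le_lift.2 ha)).le

theorem image (h : RLs a S) (f : α → β) : RLs a (f '' S) :=
  le_trans Cardinal.mk_image_le h

theorem union (ha : ℵ₀ ≤ a) (h : RLs a S) (h' : RLs a S') : RLs a (S ∪ S') := by
  unfold RLs at *
  exact (Cardinal.mk_union_le _ _).trans ((add_le_add h h').trans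
    (Cardinal.add_eq_self (Cardinal.aleph0_le_lift.2 ha)).le)

theorem iio {x : Od} (h : x.card ≤ a) : RLs a (Iio x) := by
  unfold RLs
  rw [Cardinal.mk_Iio_ordinal]
  exact Cardinal.lift_le.2 h

theorem fin (ha : ℵ₀ ≤ a) (h : S.Finite) : RLs a S :=
  le_trans h.lt_aleph0.le (Cardinal.aleph0_le_lift.2 ha)

theorem bsub (ha : ℵ₀ ≤ a) (h : RLs a S) (hab : a ^ b = a) : RLs a {t | t ⊆ S ∧ RLs b t} := by
  refine le_trans (Cardinal.mk_bounded_subset_le S (lift.{2} b)) ?_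
  refine (Cardinal.power_le_power_right (max_le h (Cardinal.aleph0_le_lift.2 ha))).trans ?_
  rw [← Cardinal.lift_power, hab]

theorem inj {f : α → β} (h : RLs a T) (hm : MapsTo f S T) (hi : InjOn f S) : RLs a S := by
  refine le_trans ?_ h
  refine Cardinal.mk_le_of_injective (f := fun x => ⟨f x.1, hm x.2⟩) fun x y hxy => ?_
  exact Subtype.ext (hi x.2 y.2 (congrArg Subtype.val hxy))

theorem biUnion (ha : ℵ₀ ≤ a) (h : RLs a S) {F : α → Set β} (hF : ∀ x ∈ S, RLs a (F x)) :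
    RLs a (⋃ x ∈ S, F x) := by
  unfold RLs at *
  refine (Cardinal.mk_biUnion_le F S).trans ?_
  refine le_trans (mul_le_mul' h (ciSup_le' fun x => hF x.1 x.2)) ?_
  exact (Cardinal.mul_eq_self (Cardinal.aleph0_le_lift.2 ha)).le

/-- Functions on a small set with values in a set of moderate size. -/
theorem graph {γ : Type 2} {Q : Set γ} (ha : ℵ₀ ≤ a) (hba : b ≤ a) (hab : a ^ b = a) (h : RLs b S)
    (h' : RLs a T) (f : γ → α → β) (hf : ∀ q ∈ Q, ∀ x ∈ S, f q x ∈ T)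
    (hi : ∀ q ∈ Q, ∀ q' ∈ Q, (∀ x ∈ S, f q x = f q' x) → q = q') : RLs a Q := by
  refine inj (f := fun q => (fun x => (x, f q x)) '' S)
    (bsub ha (prod ha (h.up hba) h') hab) (fun q hq => ⟨?_, h.image _⟩) fun q hq q' hq' e => ?_
  · rintro _ ⟨x, hx, rfl⟩
    exact ⟨hx, hf q hq x hx⟩
  · refine hi q hq q' hq' fun x hx => ?_
    have h1 : (x, f q x) ∈ (fun x => (x, f q' x)) '' S := by
      have e' : (fun x => (x, f q x)) '' S = (fun x => (x, f q' x)) '' S := e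
      rw [← e']
      exact ⟨x, hx, rfl⟩
    obtain ⟨y, -, h2⟩ := h1
    obtain ⟨rfl, h3⟩ := Prod.mk.inj h2
    exact h3.symm

/-- Closure in `b⁺` steps. -/
theorem closure (hb : ℵ₀ ≤ b) (hba : b < a) (F : Set α → Set α)
    (hF : ∀ X, RLs a X → RLs a (F X)) :
    ∃ X, RLs a X ∧ ∀ Y ⊆ X, RLs b Y → ∃ X', Y ⊆ X' ∧ F X' ⊆ X := by
  have ha : ℵ₀ ≤ a := hb.trans hba.le
  let G : Od → Set α := (wellFounded_lt (α := Od)).fix fun i ih => F (⋃ j, ⋃ h : j < i, ih j h)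
  have hG : ∀ i, G i = F (⋃ j ∈ Iio i, G j) := fun i => by
    have := (wellFounded_lt (α := Od)).fix_eq
      (fun i (ih : ∀ j, j < i → Set α) => F (⋃ j, ⋃ h : j < i, ih j h)) i
    exact this
  have hs : ∀ i, i < (Order.succ b).ord → RLs a (G i) := by
    intro i
    induction i using WellFoundedLT.induction with
    | ind i ih =>
      intro hi
      rw [hG]
      refine hF _ (biUnion ha (iio ?_) fun j hj => ih j hj (lt_trans hj hi))
      exact (Order.lt_succ_iff.1 (lt_ord.1 hi)).trans hba.le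
  refine ⟨⋃ i ∈ Iio (Order.succ b).ord, G i, biUnion ha (iio ?_) hs, fun Y hY hYb => ?_⟩
  · rw [card_ord]
    exact Order.succ_le_of_lt hba
  have h1 : ∀ y, ∃ i, y ∈ Y → i < (Order.succ b).ord ∧ y ∈ G i := fun y => by
    by_cases hy : y ∈ Y
    · obtain ⟨i, hi, h⟩ := mem_iUnion₂.1 (hY hy)
      exact ⟨i, fun _ => ⟨hi, h⟩⟩
    · exact ⟨0, fun h => absurd h hy⟩
  choose g hg using h1
  have hr := isRegular_succ hb
  obtain ⟨e, he, h2⟩ := bound_set_of_lt_cof (S := g '' Y) (τ := (Order.succ b).ord)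
    (by rintro _ ⟨y, hy, rfl⟩; exact (hg y hy).1) (isSuccLimit_ord hr.aleph0_le) (by
      rw [hr.cof_ord]
      exact lt_of_le_of_lt (hYb.image g) (Cardinal.lift_lt.2 (Order.lt_succ b)))
  refine ⟨⋃ j ∈ Iio e, G j, fun y hy => mem_iUnion₂.2 ⟨g y, h2 ⟨y, hy, rfl⟩, (hg y hy).2⟩, ?_⟩
  rw [← hG]
  exact fun z hz => mem_iUnion₂.2 ⟨e, he, hz⟩

end RLs

namespace Ctx

variable {C : Ctx} {p : Raw} {δ μ : Od}

theorem rl_box (C : Ctx) (y : Od) :
    RLs (C.B (y + 1)) {f : Set (Od × Od) |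
      f ⊆ Iio (C.B (y + 1)).ord ×ˢ Iio (C.B (y + 1)).ord ∧ RLs (C.B y) f} :=
  RLs.bsub (C.bf.aleph0_le _) (RLs.prod (C.bf.aleph0_le _) (RLs.iio (card_ord _).le)
    (RLs.iio (card_ord _).le)) (C.bf.pow_eq y)

theorem rl_col (C : Ctx) {x y : Od} (h : x ≤ y) {f : Set (Od × Od)} (h₁ : C.Col x f)
    (h₂ : ∀ i v, (i, v) ∈ f → v < (C.B (y + 1)).ord) :
    f ⊆ Iio (C.B (y + 1)).ord ×ˢ Iio (C.B (y + 1)).ord ∧ RLs (C.B y) f := by
  refine ⟨fun z hz => ⟨?_, h₂ z.1 z.2 hz⟩, RLs.up h₁.card (C.bf.mono h)⟩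
  exact (h₁.dom z.1 z.2 hz).trans_le ((C.dm_le x).trans
    (Cardinal.ord_le_ord.2 (C.bf.mono (add_le_add_left h 1))))

/-- There are few collapse conditions at `x`. -/
theorem col_card (C : Ctx) {x y : Od} (h : x ≤ y) :
    Cardinal.mk {f : Set (Od × Od) | C.Col x f ∧ ∀ i v, (i, v) ∈ f → v < (C.B (y + 1)).ord} ≤
      lift.{2} (C.B (y + 1)) := by
  exact (C.rl_box y).mono fun f hf => C.rl_col h hf.1 hf.2

theorem rl_iio (C : Ctx) (y : Od) : RLs (C.B y) (Iio (y + 1)) := by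
  refine RLs.iio ?_
  rw [Ordinal.card_add_one]
  exact (add_le_add (C.bf.card_le y) (Cardinal.one_le_aleph0.trans (C.bf.aleph0_le y))).trans
    (Cardinal.add_eq_self (C.bf.aleph0_le y)).le

theorem rl_lo (C : Ctx) (y : Od) :
    RLs (C.B (y + 1)) {o : Option Lo | ∀ L, o = some L →
      L.A ⊆ Iio (y + 1) ∧ L.F ⊆ Iio (y + 1) ×ˢ Iio (y + 1) ×ˢ Iio (y + 1) ∧
        L.s ⊆ Iio (y + 1)} := by
  have h0 := C.bf.aleph0_le (y + 1)
  have h0' := C.bf.aleph0_le y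
  have hle := C.bf.mono (lt_add_one y).le
  have h1 := C.rl_iio y
  have h3 := RLs.prod h0' h1 (RLs.prod h0' h1 h1)
  have k1 := RLs.bsub h0 (h1.up hle) (C.bf.pow_eq y)
  have k3 := RLs.bsub h0 (h3.up hle) (C.bf.pow_eq y)
  have k := (RLs.prod h0 k1 (RLs.prod h0 k3 k1)).image
    fun z => (some ⟨z.1, z.2.1, z.2.2⟩ : Option Lo)
  refine (RLs.union h0 (RLs.fin h0 (finite_singleton none)) k).mono ?_
  rintro (_ | L) hL
  · exact Or.inl rfl
  · obtain ⟨a1, a2, a3⟩ := hL L rfl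
    exact Or.inr ⟨(L.A, L.F, L.s), ⟨⟨a1, h1.mono a1⟩, ⟨a2, h3.mono a2⟩, a3, h1.mono a3⟩, rfl⟩

open Classical in
theorem rl_count {y : Od} (hδ : δ ≤ y + 1)
    (hl : ∀ q, C.LeT δ q p → q.l (y + 1) = p.l (y + 1)) :
    RLs (C.B (y + 1)) {q | C.LeT δ q p} := by
  have h0 := C.bf.aleph0_le (y + 1)
  refine RLs.graph h0 (C.bf.mono (lt_add_one y).le) (C.bf.pow_eq y) (C.rl_iio y)
    (RLs.prod h0 (RLs.fin h0 (toFinite (univ : Set (ULift.{2} Prop))))
      (RLs.prod h0 (C.rl_box y) (C.rl_lo y)))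
    (fun q x => (ULift.up (x ∈ q.c), if x < δ then q.h x else ∅, q.l x)) ?_ ?_
  · intro q hq x hx
    have hv := le_valid hq.le
    have hxy : x ≤ y := Order.lt_add_one_iff.1 hx
    refine ⟨mem_univ _, ?_, fun L hL => ?_⟩
    · dsimp only
      split_ifs with h
      · exact C.rl_col hxy (hv.col x) fun i v hiv =>
          (hq.bel x h i v hiv).trans_le (Cardinal.ord_le_ord.2 (C.bf.mono hδ))
      · exact ⟨empty_subset _, RLs.fin (C.bf.aleph0_le y) finite_empty⟩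
    · have k := hv.sp x L hL
      refine ⟨k.Alt.trans (Iio_subset_Iio (le_of_lt hx)), fun z hz => ?_, fun z hz => ?_⟩
      · obtain ⟨a1, a2, a3⟩ := k.Fb hz
        exact ⟨lt_trans a1 hx, lt_trans a2 hx, lt_trans a3 hx⟩
      · obtain ⟨w, -, a1, a2⟩ := k.s z hz
        exact (a1.trans_lt a2).trans hx
  · intro q hq q' hq' e
    refine Raw.ext (Set.ext fun x => ?_) (funext fun x => ?_) (funext fun x => ?_)
    · rcases lt_or_ge x δ with h | h
      · exact Iff.of_eq (congrArg (fun z => z.1.down) (e x (h.trans_le hδ)))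
      · exact (hq.ag.1 x h).1.trans (hq'.ag.1 x h).1.symm
    · rcases lt_or_ge x δ with h | h
      · have := congrArg (fun z => z.2.1) (e x (h.trans_le hδ))
        simpa only [if_pos h] using this
      · exact (hq.ag.1 x h).2.trans (hq'.ag.1 x h).2.symm
    · rcases lt_trichotomy x (y + 1) with h | rfl | h
      · exact congrArg (fun z => z.2.2) (e x h)
      · exact (hl q hq).trans (hl q' hq').symm
      · exact (hq.ag.2 x (hδ.trans_lt h)).trans (hq'.ag.2 x (hδ.trans_lt h)).symm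

theorem rl_l_none {q : Raw} (hq : C.Valid q) {x : Od} (hx : x ≤ C.s + 1) : q.l x = none := by
  rcases e : q.l x with _ | L
  · rfl
  · exact absurd (hq.sp x L e).gt hx.not_gt

/-- There are few lower parts at a good point. -/
theorem low_enum (hδ : Good0 p δ) :
    ∃ en : Od → Raw, ∀ q, C.LeT δ q p → ∃ i < (C.B δ).ord, en i = q := by
  have : Nonempty Raw := ⟨p⟩
  refine exists_enum_of_le (S := {q | C.LeT δ q p}) ?_
  rcases hδ with ⟨h1, h2, y, rfl⟩ | ⟨rfl, -⟩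
  · exact rl_count le_rfl fun q hq => (le_l0 hq.le h1 h2).trans h2.symm
  · refine (RLs.fin (C.bf.aleph0_le 0) (finite_singleton p)).mono fun q hq => ?_
    refine eq_of_agLo_agree (β := 0) ⟨fun x hx => absurd hx (not_lt.2 zero_le), ?_⟩ hq.ag
    rw [rl_l_none (le_valid hq.le) zero_le, rl_l_none hq.le.1 zero_le]

/-- There are few lower parts at any point. -/
theorem low_small (hδ : δ ∈ p.c) (hμ : Inac μ) (h : δ < μ) :
    ∃ ν < μ, ∃ en : Od → Raw, ∀ q, C.LeT δ q p → ∃ i < ν, en i = q := by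
  have _ := hδ
  have : Nonempty Raw := ⟨p⟩
  refine ⟨(C.B (δ + 1)).ord, C.bf.lt_inac hμ (hμ.isSuccLimit.add_one_lt h), ?_⟩
  exact exists_enum_of_le (S := {q | C.LeT δ q p})
    (rl_count (lt_add_one δ).le fun q hq => hq.ag.2 _ (lt_add_one δ))

theorem rl_shrink {q r : Raw} (hr : C.Valid r) (hc : q.c = r.c) (hl : q.l = r.l)
    (hh : ∀ x, q.h x ⊆ r.h x) : C.Valid q := by
  refine ⟨hc ▸ hr.ne, hc ▸ hr.bd, hc ▸ hr.cl, fun x hx => ?_, fun x hx => ?_, fun x => ?_,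
    fun i v h => hr.vs i v (hh _ h), fun y hy x hx i v h => ?_, fun x hx => ?_,
    fun x hx hi => ?_, fun m L hL => ?_⟩
  · exact subset_eq_empty (hh x) (hr.h0 x (hc ▸ hx))
  · rw [hl]
    exact hr.l0 x (hc ▸ hx)
  · exact ⟨fun i v v' h h' => (hr.col x).fn i v v' (hh x h) (hh x h'),
      fun i v h => (hr.col x).dom i v (hh x h),
      (Cardinal.mk_le_mk_of_subset (hh x)).trans (hr.col x).card⟩
  · exact hr.bel y (hc ▸ hy) x hx i v (hh x h)
  · rw [hl]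
    exact hr.lim x (hc ▸ hx)
  · obtain ⟨⟨y, hy, h1⟩, h2⟩ := hr.eas x (hc ▸ hx) hi
    refine ⟨⟨y, hy, fun z a b => ⟨subset_eq_empty (hh z) (h1 z a b).1, ?_⟩⟩, h2⟩
    rw [hl]
    exact (h1 z a b).2
  · rw [hc]
    exact hr.sp m L (hl ▸ hL)

theorem rl_leT {q r : Raw} {t : Od} (hq : C.Valid q) (hr : C.Valid r) (ht : t ∈ r.c)
    (hc : q.c = r.c) (hl : q.l = r.l) (hh : ∀ x, r.h x ⊆ q.h x)
    (he : ∀ x, t ≤ x → q.h x = r.h x) : C.LeT t q r := by
  refine ⟨le_of_dle hr hq ⟨hc.ge, fun x hx hn => absurd (hc ▸ hx) hn, hh, fun x _ h => ?_,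
    fun x L h => ⟨L, ?_, subset_rfl, fun _ _ => subset_rfl, rfl⟩⟩,
    ⟨fun x hx => ⟨by rw [hc], he x hx⟩, fun x _ => by rw [hl]⟩, hq.bel t (hc ▸ ht)⟩
  · rwa [hl]
  · rwa [hl]

theorem rl_same {r : Raw} (hc : Icc 0 (C.s + 1) ⊆ p.c) (h : C.LeT (C.s + 1) r p) :
    r.c = p.c ∧ r.l = p.l := by
  refine ⟨Subset.antisymm (fun x hx => ?_) (le_c h.le), funext fun x => ?_⟩
  · rcases le_total x (C.s + 1) with h1 | h1
    · exact hc ⟨zero_le, h1⟩
    · exact (h.ag.1 x h1).1.1 hx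
  · rcases le_or_gt x (C.s + 1) with h1 | h1
    · rw [rl_l_none (le_valid h.le) h1, rl_l_none h.le.1 h1]
    · exact h.ag.2 x h1

theorem rl_cnt (hc : Icc 0 (C.s + 1) ⊆ p.c) {X : Set Od} (hX : RLs (2 ^ C.B C.s) X) :
    RLs (2 ^ C.B C.s) {r | C.LeT (C.s + 1) r p ∧ Prod.fst '' r.h C.s ⊆ X} := by
  have h0 := C.bf.aleph0_le C.s
  have h1 := (Cardinal.cantor (C.B C.s)).le
  have h2 := h0.trans h1
  have h3 := two_pow_pow h0
  have h4 : RLs (2 ^ C.B C.s) (Iio ((2 : Cardinal.{1}) ^ C.B C.s).ord) := RLs.iio (card_ord _).le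
  refine RLs.graph h2 h1 h3 (C.rl_iio C.s)
    (RLs.bsub h2 (RLs.prod h2 (RLs.union h2 h4 hX) h4) h3) (fun r x => r.h x) ?_ ?_
  · rintro r ⟨hr, hd⟩ x hx
    have hv := le_valid hr.le
    have hxs : x ≤ C.s := Order.lt_add_one_iff.1 hx
    refine ⟨fun z hz => ?_, RLs.up (hv.col x).card (C.bf.mono hxs)⟩
    rcases hxs.lt_or_eq with h | rfl
    · have k : (C.B (x + 1)).ord ≤ ((2 : Cardinal.{1}) ^ C.B C.s).ord :=
        Cardinal.ord_le_ord.2 ((C.bf.mono (Order.add_one_le_of_lt h)).trans h1)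
      refine ⟨Or.inl (((hv.col x).dom z.1 z.2 hz).trans_le ((C.dm_le x).trans k)), ?_⟩
      exact (hv.bel (x + 1) (le_c hr.le (hc ⟨zero_le, add_le_add_left h.le 1⟩)) x (lt_add_one x)
        z.1 z.2 hz).trans_le k
    · exact ⟨Or.inr (hd ⟨z, hz, rfl⟩), hv.vs z.1 z.2 hz⟩
  · rintro r ⟨hr, -⟩ r' ⟨hr', -⟩ e
    refine Raw.ext ((rl_same hc hr).1.trans (rl_same hc hr').1.symm) (funext fun x => ?_)
      ((rl_same hc hr).2.trans (rl_same hc hr').2.symm)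
    rcases lt_or_ge x (C.s + 1) with h | h
    · exact e x h
    · exact (hr.ag.1 x h).2.trans (hr'.ag.1 x h).2.symm

theorem rl_setH_self (x : Od) (f : Set (Od × Od)) (r : Raw) : (setH x f r).h x = f := by
  simp [setH]

theorem rl_setH_ne {x z : Od} (f : Set (Od × Od)) (r : Raw) (h : z ≠ x) :
    (setH x f r).h z = r.h z := by
  simp [setH, Function.update_of_ne h]

/-- The chain condition of the part below `s + 1`. -/
theorem cc_s (hp : C.Valid p) (hc : Icc 0 (C.s + 1) ⊆ p.c) (O : Raw → Prop)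
    (hO : ∀ r, C.LeT (C.s + 1) r p → ∃ r', C.LeT (C.s + 1) r' r ∧ O r') :
    ∃ S : Set Raw, Cardinal.mk S ≤ lift.{2} ((2 : Cardinal.{1}) ^ C.B C.s) ∧
      (∀ a ∈ S, C.LeT (C.s + 1) a p ∧ O a) ∧
      ∀ r, C.LeT (C.s + 1) r p → ∃ a ∈ S, ∃ r', C.LeT (C.s + 1) r' r ∧ C.LeT (C.s + 1) r' a := by
  have h0 := C.bf.aleph0_le C.s
  have h1 := Cardinal.cantor (C.B C.s)
  have h2 := h0.trans h1.le
  choose! a ha hO' using hO
  obtain ⟨X, hX, hcl⟩ := RLs.closure h0 h1 (fun X : Set Od => Prod.fst '' p.h C.s ∪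
      ⋃ r ∈ {r | C.LeT (C.s + 1) r p ∧ Prod.fst '' r.h C.s ⊆ X}, Prod.fst '' (a r).h C.s)
    fun X hX => RLs.union h2 (RLs.image (RLs.up (hp.col _).card h1.le) _)
      (RLs.biUnion h2 (rl_cnt hc hX) fun r hr =>
        RLs.image (RLs.up ((le_valid (ha r hr.1).le).col _).card h1.le) _)
  have hpX : Prod.fst '' p.h C.s ⊆ X := by
    obtain ⟨X', -, h⟩ := hcl ∅ (empty_subset _) (RLs.fin h0 finite_empty)
    exact subset_union_left.trans h
  refine ⟨a '' {r | C.LeT (C.s + 1) r p ∧ Prod.fst '' r.h C.s ⊆ X}, (rl_cnt hc hX).image a,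
    ?_, fun r hr => ?_⟩
  · rintro _ ⟨r, hr, rfl⟩
    exact ⟨leT_trans (ha r hr.1) hr.1, hO' r hr.1⟩
  have hs1 : C.s + 1 ∈ p.c := hc ⟨zero_le, le_rfl⟩
  have hs0 : C.s ∈ p.c := hc ⟨zero_le, (lt_add_one _).le⟩
  have hne : ∀ x, C.s + 1 ≤ x → x ≠ C.s := fun x hx => ((lt_add_one _).trans_le hx).ne'
  have hv := le_valid hr.le
  obtain ⟨rc, rl⟩ := rl_same hc hr
  obtain ⟨r₀, hr₀⟩ : ∃ r₀, r₀ = setH C.s (r.h C.s ∩ {z | z.1 ∈ X}) r := ⟨_, rfl⟩
  have e1 : r₀.h C.s = r.h C.s ∩ {z | z.1 ∈ X} := hr₀ ▸ rl_setH_self _ _ _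
  have e2 : ∀ x, x ≠ C.s → r₀.h x = r.h x := fun x hx => hr₀ ▸ rl_setH_ne _ _ hx
  have e3 : r₀.c = r.c := hr₀ ▸ rfl
  have e4 : r₀.l = r.l := hr₀ ▸ rfl
  have v₀ : C.Valid r₀ := rl_shrink hv e3 e4 fun x => by
    by_cases hx : x = C.s
    · rw [hx, e1]
      exact inter_subset_left
    · rw [e2 x hx]
  have l₀ : C.LeT (C.s + 1) r₀ p := by
    refine rl_leT v₀ hp hs1 (e3.trans rc) (e4.trans rl) (fun x => ?_) fun x hx => ?_
    · by_cases hx : x = C.s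
      · rw [hx, e1]
        exact fun z hz => ⟨le_h hr.le _ hz, hpX ⟨z, hz, rfl⟩⟩
      · rw [e2 x hx]
        exact le_h hr.le x
    · rw [e2 x (hne x hx), (hr.ag.1 x hx).2]
  have d₀ : Prod.fst '' r₀.h C.s ⊆ X := by
    rintro _ ⟨z, hz, rfl⟩
    rw [e1] at hz
    exact hz.2
  have la := ha r₀ l₀
  have lp := leT_trans la l₀
  have va := le_valid la.le
  obtain ⟨ac, al⟩ := rl_same hc lp
  have da : ∀ i v, (i, v) ∈ (a r₀).h C.s → i ∈ X := by
    obtain ⟨X', k1, k2⟩ := hcl _ d₀ (RLs.image (v₀.col _).card _)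
    exact fun i v h => k2 (Or.inr (mem_iUnion₂.2 ⟨r₀, ⟨l₀, k1⟩, (i, v), h, rfl⟩))
  have key : ∀ i v v', (i, v) ∈ (a r₀).h C.s → (i, v') ∈ r.h C.s → v = v' := fun i v v' k1 k2 =>
    (va.col _).fn i v v' k1 (le_h la.le _ (e1 ▸ ⟨k2, da i v k1⟩))
  have ds : C.DS C.s (C.s + 1) (setH C.s ((a r₀).h C.s ∪ r.h C.s) (a r₀)) (a r₀) := by
    refine setH_ds (scope_of_mem va (ac ▸ hs1)) (ac ▸ hs0) (lt_add_one _) ⟨?_, ?_, ?_⟩
      subset_union_left ?_
    · rintro i v v' (k1 | k1) (k2 | k2)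
      · exact (va.col _).fn i v v' k1 k2
      · exact key i v v' k1 k2
      · exact (key i v' v k2 k1).symm
      · exact (hv.col _).fn i v v' k1 k2
    · rintro i v (k | k)
      · exact (va.col _).dom i v k
      · exact (hv.col _).dom i v k
    · exact RLs.union h0 (va.col _).card (hv.col _).card
    · rintro i v (k | k)
      · exact ⟨va.bel _ (ac ▸ hs1) _ (lt_add_one _) i v k, fun y hy h => va.bel y hy _ h i v k,
          fun _ => va.vs i v k⟩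
      · exact ⟨hv.bel _ (rc ▸ hs1) _ (lt_add_one _) i v k,
          fun y hy h => hv.bel y (rc ▸ ac ▸ hy) _ h i v k, fun _ => hv.vs i v k⟩
  refine ⟨a r₀, ⟨r₀, ⟨l₀, d₀⟩, rfl⟩, _, ?_, (ds_leS (scope_of_mem va (ac ▸ hs1)) ds).1⟩
  refine rl_leT ds.v hv (rc ▸ hs1) (ac.trans rc.symm) (al.trans rl.symm) (fun x => ?_)
    fun x hx => ?_
  · by_cases hx : x = C.s
    · rw [hx, rl_setH_self]
      exact subset_union_right
    · rw [rl_setH_ne _ _ hx, ← e2 x hx]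
      exact le_h la.le x
  · rw [rl_setH_ne _ _ (hne x hx), (lp.ag.1 x hx).2, (hr.ag.1 x hx).2]

end Ctx

end Pool.Agent.MP_85ce7b_lc
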