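import Pool.Agent.MP_85ce7b_lc.L.RU

namespace Pool.Agent.MP_85ce7b_lc

open Set Cardinal Ordinal Dat

namespace Ctx

variable {C : Ctx} {p u : Raw} {t t' β δ μ : Od} {O : Raw → Prop}

theorem restrict (h₁ : C.OpenS t O) (h₂ : C.LC t (· < t) O) (ht : t' < t) :
    C.OpenT t' (fun r => C.Scope t r ∧ O r) ∧ C.LC t' (· ≤ t') (fun r => C.Scope t r ∧ O r) := by
  refine ⟨fun r r' hr ho h => ?_, fun δ r hδ hr hm H => ?_⟩
  · have h3 := leS_of_lt h hr ho.1 ht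
    exact ⟨leT_scope ho.1 h3.1, h₁ r r' ho.1 ho.2 h3⟩
  · have hδt : δ < t := lt_of_le_of_lt hδ ht
    obtain ⟨r', h3, h4⟩ := H r (leT_refl (scope_of_mem hr.v hm))
    have h5 := scope_of_leT h3 hδt.le h4.1
    refine ⟨h5, h₂ δ r hδt h5 hm fun r' h => ?_⟩
    obtain ⟨r'', h6, h7⟩ := H r' h
    exact ⟨r'', h6, h7.2⟩

theorem wfl_dle (h : C.WFl δ t O p) (hδ : δ ∈ p.c) (hu : C.LeT t u p) (hd : Dle u p) :
    C.WFl δ t O u := fun r h1 h2 => h r (leT_trans h1 hu) (dirA_trans h2 hd hδ)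

theorem RP_wfl_dt (hp : C.Scope t p) (h : C.WFl δ t O p) (hδ : δ ∈ p.c) (hu : C.DT β t u p) :
    C.WFl δ t O u := wfl_dle h hδ (ds_leS hp hu.1).1 hu.1.d

theorem RP_scope (hp : C.Scope t p) (hu : C.DT β t u p) : C.Scope t u :=
  leT_scope hp (ds_leS hp hu.1).1

/-- The Prikry property at a lower cut, applied to the restriction of `O`. -/
theorem RP_low (H : C.PP δ) (hp : C.Scope t p) (h₁ : C.OpenS t O) (h₂ : C.LC t (· < t) O)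
    (hβ : β ∈ p.c) (hβδ : β ≤ δ) (hδ : δ ∈ p.c) (ht : δ < t) (hw : C.WFl β t O p) :
    ∃ u, C.DT β δ u p ∧ C.DT β t u p ∧ ∀ r, C.LeT δ r u → ¬ O r := by
  have hs := scope_of_mem hp.v hδ
  obtain ⟨k1, k2⟩ := restrict h₁ h₂ ht
  obtain ⟨u, h3, h4⟩ := H _ p β hs k1 k2 hβ hβδ fun r g1 g2 g3 =>
    hw r (leT_mono g1 hs hp ht.le) g2 g3.2
  have h5 : C.DT β t u p := ⟨ds_cut h3.1 hs hp ht.le, h3.2⟩
  have h6 := RP_scope hp h5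
  exact ⟨u, h3, h5, fun r g1 g2 =>
    h4 r g1 ⟨leT_scope h6 (leT_mono g1 (RP_scope hs h3) h6 ht.le), g2⟩⟩

/-- Moving the level to a good point. -/
theorem step_good (H : C.PP δ) (hp : C.Scope t p) (h₁ : C.OpenS t O) (h₂ : C.LC t (· < t) O)
    (hβ : β ∈ p.c) (hβδ : β ≤ δ) (hδ : Good p δ) (ht : δ < t) (hw : C.WFl β t O p) :
    ∃ u, C.DT β t u p ∧ C.WFl δ t O u := by
  obtain ⟨u₁, a1, a2⟩ := unif_good (ν := 1) hp (Or.inl hδ) ht.le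
    (by rw [card_one]; exact one_le_aleph0.trans (C.bf.aleph0_le δ)) (fun _ => O)
    fun _ r r' g1 g2 g3 => h₁ r r' (leT_scope hp g1) g2 (ds_leS (leT_scope hp g1) g3.1)
  have s1 := RP_scope hp a1
  have m1 := a1.1.d.c hδ.1
  obtain ⟨u₂, b1, b2, b3⟩ := RP_low H s1 h₁ h₂ (a1.1.d.c hβ) hβδ m1 ht (RP_wfl_dt hp hw hβ a1)
  refine ⟨u₂, dt_trans b2 (dt_mono a1 hβδ), fun r g1 g2 g3 => ?_⟩
  have g4 := a2 0 zero_lt_one r (leT_trans g1 (ds_leS s1 b2.1).1) (dirA_trans g2 b2.1.d m1) g3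
  rw [mix_congr (q' := r) ⟨fun _ _ => ⟨Iff.rfl, rfl, rfl⟩, rfl⟩ b1.1.ag.symm] at g4
  exact b3 _ (low_leT g1.le (b2.1.d.c m1)) g4

/-- Moving the level to a special point. -/
theorem step_spec (H : C.PP μ) (hp : C.Scope t p) (h₁ : C.OpenS t O) (h₂ : C.LC t (· < t) O)
    (hβ : β ∈ p.c) (hβμ : β < μ) (hμ : Spec p μ) (ht : μ < t) (hw : C.WFl β t O p) :
    ∃ u, C.DT β t u p ∧ C.WFl μ t O u := by
  have hi := (spec_inac hp.v hμ).1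
  obtain ⟨u₁, a1, a2⟩ := unif_spec hp hμ ht.le (fun _ => O)
    fun _ r r' g1 g2 g3 => h₁ r r' (leT_scope hp g1) g2 (ds_leS (leT_scope hp g1) g3)
  have a3 := ds_dt a1 hβμ
  have s1 := RP_scope hp a3
  have m1 := a1.d.c (spec_mem hp.v hμ)
  have p1 := RU_spec (ds_leS hp a1).1.le hμ
  obtain ⟨u₂, b1, b2, b3⟩ := RP_low H s1 h₁ h₂ (a1.d.c hβ) hβμ.le m1 ht (RP_wfl_dt hp hw hβ a3)
  refine ⟨u₂, dt_trans b2 a3, fun r g1 g2 g3 => ?_⟩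
  have s2 := RP_scope s1 b2
  have m2 := b2.1.d.c m1
  have l21 := (ds_leS s1 b2.1).1
  have lr := leT_trans g1 l21
  have pr := RU_spec lr.le p1
  have vr := le_valid lr.le
  have hm : max 0 (C.scode μ r) < μ :=
    max_lt hi.isSuccLimit.pos (scode_spec hi (stem_bdd vr pr)).1
  have g4 := a2 0 hi.isSuccLimit.pos r lr (dirA_trans g2 b2.1.d m1) g3
  have c1 : C.LeT μ (mix μ r u₂) u₂ := low_leT g1.le m2
  have c2 : C.LeT t (mix μ r u₂) u₁ :=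
    leT_trans (leT_mono c1 (scope_of_mem s2.v m2) s2 ht.le) l21
  have c3 := cut_gl_ds c2 (dirA_of_agree (c1.ag.trans b1.1.ag)) p1 ht.le hm
  have c4 := agLo_mix μ r u₂
  have p3 := spec_cutA C.toDat (m := max 0 (C.scode μ r)) p1
  rw [RB4_gl_congr c4.1 (by unfold sAt; rw [c4.2]) p3] at c3
  have s3 := gl_scope vr (leT_scope s1 (ds_leS s1 (cutA_ds s1 p1 ht.le hm)).1) pr p3 ht.le
  have s4 := leT_scope (scope_of_mem s2.v m2) c1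
  exact b3 _ (leT_trans (ds_leS s4 (cutA_ds s4 (RU_spec c2.le p1) le_rfl hm)).1 c1)
    (h₁ _ _ s3 g4 (ds_leS s3 c3))

/-- The end of the argument: all changes of `s` happen below a level that is under control. -/
theorem pps_finish (hu : C.Scope t u) (S : Set Od) (hS : ∀ δ ∈ S, δ ∈ u.c ∧ C.WFl δ t O u)
    (hne : S.Nonempty) (hc : ∀ μ, Spec u μ → μ < t → ∃ δ ∈ S, μ ≤ δ) :
    ∀ r, C.LeS t r u → ¬ O r := by
  intro r hr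
  have key : ∃ δ ∈ S, ∀ μ, Spec u μ → sAt μ r ≠ sAt μ u → μ ≤ δ := by
    have hf : {μ | Spec u μ ∧ sAt μ r ≠ sAt μ u}.Finite :=
      (le_fin hr.1.le).subset fun μ h => ⟨spec_mem hu.v h.1, h.2⟩
    rcases eq_empty_or_nonempty {μ | Spec u μ ∧ sAt μ r ≠ sAt μ u} with e | e
    · obtain ⟨δ, hδ⟩ := hne
      exact ⟨δ, hδ, fun μ g1 g2 => absurd ⟨g1, g2⟩ (eq_empty_iff_forall_notMem.1 e μ)⟩
    · obtain ⟨m, g1, g2⟩ := exists_max_image _ id hf e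
      have g3 : m < t := by
        rcases lt_trichotomy m t with g | g | g
        · exact g
        · exact absurd (g ▸ hr.2) g1.2
        · exact absurd (by unfold sAt; rw [hr.1.ag.2 m g]) g1.2
      obtain ⟨δ, g4, g5⟩ := hc m g1.1 g3
      exact ⟨δ, g4, fun μ g6 g7 => (g2 μ ⟨g6, g7⟩).trans g5⟩
  obtain ⟨δ, g1, g2⟩ := key
  refine (hS δ g1).2 r hr.1 (le_dirA hr.1.le (hS δ g1).1 fun μ g3 g4 => ?_)
  by_contra g5
  exact (g2 μ g3 g5).not_gt g4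

theorem RP_fin (hu : C.Scope t u) (hδ : δ ∈ u.c) (hw : C.WFl δ t O u)
    (hc : ∀ μ, Spec u μ → δ < μ → μ < t → ∃ δ' ∈ u.c, C.WFl δ' t O u ∧ μ ≤ δ') :
    ∀ r, C.LeS t r u → ¬ O r := by
  refine pps_finish hu {δ | δ ∈ u.c ∧ C.WFl δ t O u} (fun _ h => h) ⟨δ, hδ, hw⟩ fun μ g1 g2 => ?_
  rcases le_or_gt μ δ with g | g
  · exact ⟨δ, ⟨hδ, hw⟩, g⟩
  · obtain ⟨δ', g3, g4, g5⟩ := hc μ g1 g g2
    exact ⟨δ', ⟨g3, g4⟩, g5⟩

theorem RP_spec_up (hp : C.Scope t p) (ht : t ∈ p.c) (hu : C.DT β t u p) (h : Spec u μ) :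
    Spec p μ :=
  (le_spec_iff (ds_leS hp hu.1).1.le (ds_c_eq hu.1 ht ▸ spec_mem hu.1.v h)).1 h

theorem pps_mem (IH : ∀ t' < t, C.PP t') (hp : C.Scope t p) (ht : t ∈ p.c) (h₁ : C.OpenS t O)
    (h₂ : C.LC t (· < t) O) (hβ : β ∈ p.c) (hβt : β < t) (hw : C.WFl β t O p) :
    ∃ u, C.DT β t u p ∧ ∀ r, C.LeS t r u → ¬ O r := by
  have _ := hβt
  set T : Set Od := {μ | Spec p μ ∧ β < μ ∧ μ < t} with hT
  rcases eq_empty_or_nonempty T with e | e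
  · exact ⟨p, dt_refl hp, RP_fin hp hβ hw fun μ g1 g2 g3 =>
      absurd ⟨g1, g2, g3⟩ (eq_empty_iff_forall_notMem.1 e μ)⟩
  by_cases hmax : ∃ m ∈ T, ∀ μ ∈ T, μ ≤ m
  · obtain ⟨m, ⟨g1, g2, g3⟩, g4⟩ := hmax
    obtain ⟨u, a1, a2⟩ := step_spec (IH m g3) hp h₁ h₂ hβ g2 g1 g3 hw
    exact ⟨u, a1, RP_fin (RP_scope hp a1) (a1.1.d.c (spec_mem hp.v g1)) a2 fun μ g5 g6 g7 =>
      absurd (g4 μ ⟨RP_spec_up hp ht a1 g5, g2.trans g6, g7⟩) g6.not_ge⟩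
  push Not at hmax
  have hb : BddAbove T := ⟨t, fun μ h => h.2.2.le⟩
  have k1 : ∀ μ ∈ T, μ < sSup T := fun μ h =>
    let ⟨μ', g1, g2⟩ := hmax μ h
    g2.trans_le (le_csSup hb g1)
  have k2 : ∀ y < sSup T, ∃ μ ∈ T, y < μ := fun y h => (lt_csSup_iff hb e).1 h
  have k0 : 0 < sSup T := let ⟨μ, h⟩ := e; (zero_le).trans_lt (k1 μ h)
  have k3 : LimP p.c (sSup T) := ⟨k0, fun y h =>
    let ⟨μ, g1, g2⟩ := k2 y h
    ⟨μ, spec_mem hp.v g1.1, g2, k1 μ g1⟩⟩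
  have k4 : ¬ Inac (sSup T) := fun h => by
    obtain ⟨y, g1, g2⟩ := (hp.v.eas _ k3 h).1
    obtain ⟨μ, g3, g4⟩ := k2 y g1
    obtain ⟨L, hL⟩ := g3.1
    rw [(g2 μ g4 (k1 μ g3)).2] at hL
    exact absurd hL (by simp)
  obtain ⟨k5, k6⟩ := C.bf.fix_of_lim k0 fun y h =>
    let ⟨μ, g1, g2⟩ := k2 y h
    ⟨μ, g2, (k1 μ g1).le, (spec_inac hp.v g1.1).1⟩
  have k7 : (sSup T).cof.ord < sSup T := by
    have := C.bf.singular k6 k4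
    rw [k5] at this
    exact (ord_lt_ord.2 this).trans_eq k5
  obtain ⟨f, f1, f2⟩ := exists_cof_map (sSup T)
  obtain ⟨m, hm, k8⟩ := k2 _ k7
  have k9 : ∀ i, ∃ μ ∈ T, m < μ ∧ (i < (sSup T).cof.ord → f i < μ) := fun i => by
    by_cases hi : i < (sSup T).cof.ord
    · obtain ⟨μ, g1, g2⟩ := k2 _ (max_lt (k1 m hm) (f1 i hi))
      exact ⟨μ, g1, (le_max_left _ _).trans_lt g2, fun _ => (le_max_right _ _).trans_lt g2⟩
    · obtain ⟨μ, g1, g2⟩ := hmax m hm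
      exact ⟨μ, g1, g2, fun h => absurd h hi⟩
  choose g g1 g2 g3 using k9
  obtain ⟨u₀, a1, a2⟩ := step_spec (IH m hm.2.2) hp h₁ h₂ hβ hm.2.1 hm.1 hm.2.2 hw
  have s0 := RP_scope hp a1
  have m0 := a1.1.d.c (spec_mem hp.v hm.1)
  have sp : ∀ i, Spec u₀ (g i) := fun i => RU_spec (ds_leS hp a1.1).1.le (g1 i).1
  obtain ⟨u, b1, b2⟩ := inter (ν := (sSup T).cof.ord) s0 m0 hm.2.2.le
    ((card_le_card k8.le).trans (C.bf.card_le m)) (fun i u => C.WFl (g i) t O u)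
    (fun i _ v hv => step_spec (IH _ (g1 i).2.2) (RP_scope s0 hv) h₁ h₂ (hv.1.d.c m0) (g2 i)
      (RU_spec (ds_leS s0 hv.1).1.le (sp i)) (g1 i).2.2 (RP_wfl_dt s0 a2 m0 hv))
    fun i _ v v' hv hv' h => RP_wfl_dt (RP_scope s0 hv) h (hv.1.d.c (spec_mem s0.v (sp i))) hv'
  have b3 := dt_trans (dt_mono b1 hm.2.1.le) a1
  refine ⟨u, b3, RP_fin (RP_scope s0 b1) (b1.1.d.c m0) (RP_wfl_dt s0 a2 m0 b1)
    fun μ c1 c2 c3 => ?_⟩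
  obtain ⟨i, c4, c5⟩ := f2 μ (k1 μ ⟨RP_spec_up hp ht b3 c1, hm.2.1.trans c2, c3⟩)
  exact ⟨g i, b1.1.d.c (spec_mem s0.v (sp i)), b2 i c4, c5.trans (g3 i c4).le⟩

theorem RP_top_step (IH : ∀ t' < t, C.PP t') (hp : C.Scope t p) (ht : t ∉ p.c)
    (h₁ : C.OpenS t O) (h₂ : C.LC t (· < t) O) (hβ : β ∈ p.c) (hw : C.WFl β t O p) :
    ∃ u δ, C.DT β t u p ∧ δ ∈ u.c ∧ β ≤ δ ∧ C.WFl δ t O u ∧ ∀ x ∈ p.c, x ≤ δ := by
  have hβt : β < t := (hp.cut.resolve_left ht).2.2 hβ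
  obtain ⟨δ, v, a1, a2, a3, a4, a5, -⟩ := top_ext hp ht hβt
  have a6 := a5 β hβ
  obtain ⟨u, b1, b2⟩ := step_good (IH δ a2) (RP_scope hp a6) h₁ h₂ (a6.1.d.c hβ) a1.le a3 a2
    (RP_wfl_dt hp hw hβ a6)
  exact ⟨u, δ, dt_trans b1 a6, b1.1.d.c a3.1, a1.le, b2, fun x hx => a4 x (a6.1.d.c hx)⟩

theorem pps_top (IH : ∀ t' < t, C.PP t') (hp : C.Scope t p) (ht : t ∉ p.c) (h₁ : C.OpenS t O)
    (h₂ : C.LC t (· < t) O) (hβ : β ∈ p.c) (hw : C.WFl β t O p) :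
    ∃ u, C.DT β t u p ∧ ∀ r, C.LeS t r u → ¬ O r := by
  have hβt : β < t := (hp.cut.resolve_left ht).2.2 hβ
  let X := {z : Raw × Od // C.DT β t z.1 p ∧ z.2 ∈ z.1.c ∧ β ≤ z.2 ∧ C.WFl z.2 t O z.1}
  have step : ∀ z : X, ∃ z' : X, C.DT β t z'.1.1 z.1.1 ∧ ∀ x ∈ z.1.1.c, x ≤ z'.1.2 := by
    rintro ⟨⟨v, δ⟩, a1, a2, a3, a4⟩
    obtain ⟨u, δ', b1, b2, b3, b4, b5⟩ := RP_top_step IH (RP_scope hp a1)
      (fun h => ht (((a1.1.ag.1 t le_rfl).1).1 h)) h₁ h₂ a2 a4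
    have b6 := dt_mono b1 a3
    exact ⟨⟨(u, δ'), dt_trans b6 a1, b2, a3.trans b3, b4⟩, b6, b5⟩
  choose F F1 F2 using step
  let z : ℕ → X := fun n => F^[n] ⟨(p, β), dt_refl hp, hβ, le_rfl, hw⟩
  have zs : ∀ n, z (n + 1) = F (z n) := fun n => Function.iterate_succ_apply' F n _
  have zm : ∀ n k, n ≤ k → C.DT β t (z k).1.1 (z n).1.1 := fun n k h => by
    induction k, h using Nat.le_induction with
    | base => exact dt_refl (RP_scope hp (z n).2.1)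
    | succ k _ ih => rw [zs]; exact dt_trans (F1 _) ih
  obtain ⟨u, b1, -, b2⟩ := chain_lb (ν := ω) hp hβ hβt.le omega0_pos
    (by rw [card_omega0]; exact C.bf.aleph0_le β) (fun i => (z (Cardinal.toNat i.card)).1.1)
    (fun i _ => (z _).2.1) fun i j hij hj => by
      obtain ⟨k, rfl⟩ := Ordinal.lt_omega0.1 hj
      obtain ⟨n, rfl⟩ := Ordinal.lt_omega0.1 (hij.trans_lt hj)
      exact zm _ _ (by simpa using hij)
  have b3 : ∀ n : ℕ, C.DT β t u (z n).1.1 := fun n => by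
    simpa using b1 n (natCast_lt_omega0 n)
  have b4 : C.DT β t u p := b3 0
  refine ⟨u, b4, RP_fin (RP_scope hp b4) (b4.1.d.c hβ) (RP_wfl_dt hp hw hβ b4) fun μ c1 _ _ => ?_⟩
  obtain ⟨i, -, c2⟩ := b2 μ c1
  have c3 := F2 _ μ (spec_mem (z _).2.1.1.v c2)
  rw [← zs] at c3
  exact ⟨_, (b3 _).1.d.c (z _).2.2.1,
    RP_wfl_dt (RP_scope hp (z _).2.1) (z _).2.2.2.2 (z _).2.2.1 (b3 _), c3⟩

theorem pps_of_ih (IH : ∀ t' < t, C.PP t') : C.PPS t := by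
  intro O p β hp h₁ h₂ hβ hβt hw
  by_cases ht : t ∈ p.c
  · rcases hβt.eq_or_lt with e | e
    · exact ⟨p, dt_refl hp, RP_fin hp hβ hw fun μ _ g1 g2 => absurd (e ▸ g1) g2.not_gt⟩
    · exact pps_mem IH hp ht h₁ h₂ hβ e hw
  · exact pps_top IH hp ht h₁ h₂ hβ hw

end Ctx

end Pool.Agent.MP_85ce7b_lc
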