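import Pool.Agent.MP_85ce7b_lc.L.RP

namespace Pool.Agent.MP_85ce7b_lc

open Set Cardinal Ordinal Dat

namespace Ctx

variable {C : Ctx} {p u r r' : Raw} {β μ : Od} {O : Raw → Prop}

/-- The stem of `r` is accepted. -/
def Ab (C : Ctx) (μ : Od) (O : Raw → Prop) (u r : Raw) : Prop :=
  Spec r μ ∧ ∃ m < μ, O (gl μ r (C.cutA μ m u))

/-- No extension without insertion at `μ` has an accepted stem. -/
def NA (C : Ctx) (μ : Od) (O : Raw → Prop) (u r : Raw) : Prop :=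
  ∀ r', C.LeS μ r' r → ¬ C.Ab μ O u r'

/-- The standing assumptions of the tree lemma. -/
structure Tree (C : Ctx) (μ : Od) (O : Raw → Prop) (u : Raw) : Prop where
  v : C.Valid u
  sp : Spec u μ
  op : C.OpenT μ O
  lc : C.LC μ (· ≤ μ) O
  un : ∀ r, C.LeT μ r u → O r → O (gl μ r (C.cutA μ (C.scode μ r) u))

theorem RT1_spec_sAt (h : sAt μ r = sAt μ r') (hs : Spec r μ) : Spec r' μ := by
  obtain ⟨L, hL⟩ := hs
  unfold sAt at h
  rw [hL] at h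
  rcases h' : r'.l μ with _ | L'
  · rw [h'] at h; simp at h
  · exact ⟨L', h'⟩

theorem RT1_agLo {δ : Od} (h : AgS μ r r') (hδ : δ < μ) : AgLo δ r r' :=
  ⟨fun x hx => h x (hx.trans hδ), (h δ hδ).2.2⟩

theorem RT1_stem {δ : Od} {a a' q q' : Raw} (h₁ : Agree δ a q) (h₂ : Agree δ a' q')
    (h₃ : AgLo δ a a') (hδ : δ < μ) (h₄ : AgS μ q q') (h₅ : sAt μ q = sAt μ q') :
    stem μ a = stem μ a' := by
  refine stem_of_agS (fun x hx => ?_) ?_
  · rcases lt_or_ge x δ with hxδ | hxδ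
    · exact h₃.1 x hxδ
    · refine ⟨((h₁.1 x hxδ).1.trans (h₄ x hx).1).trans (h₂.1 x hxδ).1.symm,
        ((h₁.1 x hxδ).2.trans (h₄ x hx).2.1).trans (h₂.1 x hxδ).2.symm, ?_⟩
      rcases hxδ.eq_or_lt with rfl | hxδ
      · exact h₃.2
      · exact ((h₁.2 x hxδ).trans (h₄ x hx).2.2).trans (h₂.2 x hxδ).symm
  · unfold sAt at h₅ ⊢
    rw [h₁.2 μ hδ, h₂.2 μ hδ, h₅]

theorem RT1_scope (hr : C.Valid r) (hμ : Spec r μ) : C.Scope μ r :=
  scope_of_mem hr (spec_mem hr hμ)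

theorem ab_congr (hu : Spec u μ) (hr : C.Valid r) (hr' : C.Valid r')
    (h : stem μ r = stem μ r') (ha : C.Ab μ O u r) : C.Ab μ O u r' := by
  obtain ⟨hs, m, hm, ho⟩ := ha
  refine ⟨RT1_spec_sAt (agS_of_stem hr hr' h).2 hs, m, hm, ?_⟩
  rwa [← gl_congr_stem hr hr' h (spec_cutA _ hu)]

theorem na_congr (hu : Spec u μ) (hr : C.Valid r) (hr' : C.Valid r') (hμ : Spec r μ)
    (h : stem μ r = stem μ r') (ha : C.NA μ O u r) : C.NA μ O u r' := by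
  intro r₁ h₁ hab
  have h2 := gl_leS h₁ (RT1_spec_sAt (agS_of_stem hr hr' h).2 hμ) hr hμ
  rw [← gl_congr_stem hr hr' h hμ, gl_self] at h2
  exact ha _ h2 (ab_congr hu (le_valid h₁.1.le) (le_valid h2.1.le) (stem_gl μ r₁ r).symm hab)

theorem na_leS (h : C.NA μ O u r) (h' : C.LeS μ r' r) : C.NA μ O u r' :=
  fun _ h₁ => h _ (leS_trans h₁ h')

namespace Tree

variable (T : C.Tree μ O u)
include T

theorem RT1_cut_scope {m : Od} (hm : m < μ) : C.Scope μ (C.cutA μ m u) :=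
  RT1_scope (RB4_cutA_valid T.v hm) (spec_cutA _ T.sp)

theorem RT1_gl_scope {m : Od} (hm : m < μ) (hr : C.Valid r) (hμ : Spec r μ) :
    C.Scope μ (gl μ r (C.cutA μ m u)) :=
  gl_scope hr (T.RT1_cut_scope hm) hμ (spec_cutA _ T.sp) le_rfl

theorem RT1_up {m m' : Od} (hm : m ≤ m') (hm' : m' < μ) (hr : C.Valid r) (hμ : Spec r μ)
    (h : O (gl μ r (C.cutA μ m u))) : O (gl μ r (C.cutA μ m' u)) := by
  have hs := T.RT1_gl_scope (hm.trans_lt hm') hr hμ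
  exact T.op _ _ hs h (ds_leS hs (gl_ds (cutA_mono (RT1_scope T.v T.sp) T.sp le_rfl hm hm')
    (spec_cutA _ T.sp) le_rfl hr hμ)).1

theorem ab_open : C.OpenS μ (C.Ab μ O u) := by
  rintro r r' hr ⟨hs, m, hm, ho⟩ h
  exact ⟨RU_spec h.1.le hs, m, hm, T.op _ _ (T.RT1_gl_scope hm hr.v hs) ho
    (gl_leS h hs (RB4_cutA_valid T.v hm) (spec_cutA _ T.sp)).1⟩

theorem ab_lc : C.LC μ (· < μ) (C.Ab μ O u) := by
  classical
  intro δ r hδ hr hm H
  have hδ : δ < μ := hδ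
  have hs : Spec r μ := by
    obtain ⟨r'', h1, ⟨L, hL⟩, -⟩ := H r (leT_refl (scope_of_mem hr.v hm))
    exact ⟨L, by rw [← h1.ag.2 μ hδ, hL]⟩
  have hi := (spec_inac hr.v hs).1
  obtain ⟨ν, hν, en, hen⟩ := low_small (C := C) hm hi hδ
  obtain ⟨b, hb, hfb⟩ := hi.bound hν
    (fun i => if h : C.Ab μ O u (en i) then h.2.choose else 0) (fun i _ => by
      split_ifs with h
      · exact h.2.choose_spec.1
      · exact hi.isSuccLimit.pos)
  have key : ∀ q, C.LeT δ q r → C.Ab μ O u q → O (gl μ q (C.cutA μ b u)) := by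
    intro q hq ha
    obtain ⟨i, hi', rfl⟩ := hen q hq
    have h1 := hfb i hi'
    rw [dif_pos ha] at h1
    exact T.RT1_up h1.le hb (le_valid hq.le) ha.1 ha.2.choose_spec.2
  refine ⟨hs, b, hb, ?_⟩
  have hw := T.RT1_gl_scope hb hr.v hs
  have hwm : δ ∈ (gl μ r (C.cutA μ b u)).c := (gl_agS μ r _ δ hδ).1.2 hm
  refine T.lc δ _ hδ.le hw hwm fun w' hw' => ?_
  have h1 := mix_le_left hw'.le hwm hr.v hm
  rw [mix_eq_right (RT1_agLo (gl_agS μ r _) hδ)] at h1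
  obtain ⟨r'', h2, h3⟩ := H _ h1
  have h4 := leT_trans h2 h1
  refine ⟨_, ?_, key r'' h4 h3⟩
  have h5 := mix_le_left h2.le (le_c h1.le hm) hw.v hwm
  rw [mix_mix_left, mix_eq_left hw'.ag, ← gl_mix _ _ _ hδ, mix_eq_left h4.ag] at h5
  exact h5

theorem ab_of (hr : C.LeT μ r u) (h : O r) : C.Ab μ O u r :=
  ⟨RU_spec hr.le T.sp, _, (scode_spec (spec_inac T.v T.sp).1
    (stem_bdd (le_valid hr.le) (RU_spec hr.le T.sp))).1, T.un r hr h⟩

theorem ab_cut (hr : C.LeT μ r u) (h : C.Ab μ O u r) :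
    O (gl μ r (C.cutA μ (C.scode μ r) u)) := by
  obtain ⟨-, m, hm, ho⟩ := h
  have hu := RT1_scope T.v T.sp
  have h1 := T.un _ (RU_gl_leT hu T.sp le_rfl hr.le (cutA_ds hu T.sp le_rfl hm)) ho
  have h2 : C.scode μ (gl μ r (C.cutA μ m u)) = C.scode μ r := by
    unfold Dat.scode
    rw [stem_gl]
  rwa [gl_gl_left _ _ (spec_cutA _ T.sp), h2] at h1

/-- If all one step insertions are accepted then the condition is in `O`. -/
theorem of_all_ins {w : Raw} {L : Lo} (hw : C.LeT μ w u) (hL : w.l μ = some L)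
    (h : ∀ ξ ∈ L.A, C.Insb w μ (C.dec ξ) ∧ C.Ab μ O u (ins w μ (C.dec ξ) (sec L.F ξ))) :
    O w := by
  have hu := RT1_scope T.v T.sp
  have hws := leT_scope hu hw
  have hwμ : Spec w μ := ⟨L, hL⟩
  have hi := (spec_inac T.v T.sp).1
  have main : ∀ w', C.LeT μ w' w → sAt μ w' ≠ sAt μ w → ∃ w'', C.LeT μ w'' w' ∧ O w'' := by
    intro w' hw' hne
    obtain ⟨w₀, w₁, h0, hins, h1⟩ := first_ins hw' hwμ hne
    have hw₀ := leT_scope hws h0.1
    have hw₁ : C.LeT μ w₁ u := leT_trans (leT_of_ins hw₀ hins le_rfl) (leT_trans h0.1 hw)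
    obtain ⟨L₀, ξ, hL₀, hξ, hb, rfl⟩ := hins
    obtain ⟨L₁, hL₁, hA, hF, -⟩ := le_l1 h0.1.le hL
    obtain rfl : L₁ = L₀ := Option.some.inj (hL₁.symm.trans hL₀)
    obtain ⟨hb', hab⟩ := h ξ (hA hξ)
    have h2 := (ins_leS h0 hwμ hb ((hw₀.v.sp μ L₁ hL₀).F ξ hξ) (hF ξ hξ)).2
    have h3 := T.ab_open _ _
      (leT_scope hws (leT_of_ins hws ⟨L, ξ, hL, hA hξ, hb', rfl⟩ le_rfl)) hab h2
    have h4 := T.ab_cut hw₁ h3
    have hv₁ := le_valid hw₁.le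
    have hm := (scode_spec (C := C) hi (stem_bdd hv₁ h3.1)).1
    have hs := T.RT1_gl_scope hm hv₁ h3.1
    have h5 := T.op _ _ hs h4
      (ds_leS hs (cut_gl_ds hw₁ (dirA_of_agree hw₁.ag) T.sp le_rfl hm)).1
    have h6 := T.op _ _ (RT1_scope (RB4_cutA_valid hv₁ hm) (spec_cutA _ h3.1)) h5
      (cut_path h1 h3.1 hm fun η hη hbd => (scode_spec hη hbd).1)
    have hs' := leT_scope hws hw'
    exact ⟨_, (ds_leS hs' (cutA_ds hs' (RU_spec hw'.le hwμ) le_rfl hm)).1, h6⟩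
  refine T.lc μ w le_rfl hws (spec_mem hws.v hwμ) fun w' hw' => ?_
  by_cases hne : sAt μ w' = sAt μ w
  · have hs' := leT_scope hws hw'
    obtain ⟨L', hL'⟩ := RU_spec hw'.le hwμ
    obtain ⟨ξ, hξ, -, -, hb⟩ := exists_ins hs'.v hL' hi.isSuccLimit.pos
      (Z := univ) Filter.univ_mem
    have hins : C.Ins (ins w' μ (C.dec ξ) (sec L'.F ξ)) w' μ := ⟨L', ξ, hL', hξ, hb, rfl⟩
    have h1 := leT_of_ins hs' hins le_rfl
    obtain ⟨w'', h2, h3⟩ := main _ (leT_trans h1 hw') (hne ▸ (ins_facts hs'.v hins).2.2.1)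
    exact ⟨w'', leT_trans h2 h1, h3⟩
  · exact main w' hw' hne

/-- For almost all blocks, all lower parts at the second point are decided. -/
theorem blocks (H : C.PPS μ) (hr : C.Valid r) (hμ : Spec r μ) :
    {ξ | C.Insb r μ (C.dec ξ) ∧ ∀ l, C.LeT (fp (C.dec ξ) + 1) l (ins r μ (C.dec ξ) ∅) →
      (∃ l', C.LeT (fp (C.dec ξ) + 1) l' l ∧ C.Ab μ O u l') ∨ C.NA μ O u l} ∈ C.W μ := by
  obtain ⟨hi, -, hsp⟩ := spec_inac hr hμ
  have hval : ∀ b, C.Insb r μ b → C.Valid (ins r μ b ∅) := fun b hb =>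
    ins_valid hr hμ hb (C.fst_empty b).1 (C.fst_empty b).2
  have hZ := (C.good μ hsp).w3 (fun b => C.Insb r μ b → ∀ l, C.LeT (fp b + 1) l (ins r μ b ∅) →
      (∃ l', C.LeT (fp b + 1) l' l ∧ C.Ab μ O u l') ∨ C.NA μ O u l)
    (fun b hb => by
      by_cases hib : C.Insb r μ b
      swap
      · exact ⟨b, dt_refl (blk_scope hb hi).1, rfl, fun h => absurd h hib⟩
      obtain ⟨hg, hs, hlt⟩ := ins_good (f := ∅) hr hμ hib
      have hp := RT1_scope (hval b hib) hs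
      obtain ⟨u0, hu0, hQ⟩ := pf_S (ν := 1) H hp (Or.inl hg) hlt.le
        (by simpa using (one_le_aleph0.trans (C.bf.aleph0_le _))) (fun _ => C.Ab μ O u)
        (fun _ => T.ab_open) (fun _ => T.ab_lc)
      obtain ⟨b', h1, h2, h3⟩ := ins_up hr hμ hib hu0
      refine ⟨b', h1, h2, fun hib' => ?_⟩
      have hv' := hval b' hib'
      have hg' := (ins_good (f := ∅) hr hμ hib').1.1
      rw [(blk_dt hb hi h1).2] at hg' ⊢
      intro l hl
      obtain ⟨h4, h5⟩ := agS_of_stem hu0.1.v hv' h3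
      have hm0 := hu0.1.d.c hg.1
      have h6 := mix_le_left hl.le hg' hu0.1.v hm0
      rw [mix_eq_right (RT1_agLo (RB4_agS_symm h4) hlt)] at h6
      rcases hQ 0 zero_lt_one _ h6 with ⟨l', h7, h8⟩ | h7
      · have h9 := mix_le_left h7.le (le_c h6.le hm0) hv' hg'
        rw [mix_mix_left, mix_eq_left hl.ag] at h9
        exact Or.inl ⟨_, h9, ab_congr T.sp (le_valid h7.le) (le_valid h9.le)
          (RT1_stem (h7.ag.trans h6.ag) (agree_mix _ _ _) (rb1_agLo_symm (agLo_mix _ _ _)) hlt h4 h5)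
          h8⟩
      · exact Or.inr (na_congr T.sp (le_valid h6.le) (le_valid hl.le)
          (RU_spec (le_trans' h6.le (ds_leS hp hu0.1).1.le) hs)
          (RT1_stem h6.ag hl.ag (agLo_mix _ _ _) hlt h4 h5) h7))
    (fun b b' hb h1 h2 hz hib' => by
      have hfp := (blk_dt hb hi h1).2
      have hib : C.Insb r μ b := ⟨hb, hfp ▸ hib'.lt, hfp ▸ hib'.bel⟩
      obtain ⟨hg, hs, hlt⟩ := ins_good (f := ∅) hr hμ hib
      have hp := RT1_scope (hval b hib) hs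
      have hd := (ins_dt hr hμ hib (C.fst_empty b) h1 h2).2
      have hg' := hd.1.d.c hg.1
      rw [hfp]
      intro l hl
      have h6 := mix_le_left hl.le hg' hp.v hg.1
      rw [mix_eq_right ⟨hd.1.lo, hd.2⟩] at h6
      rcases hz hib _ h6 with ⟨l', h7, h8⟩ | h7
      · have h9 := mix_le_left h7.le (le_c h6.le hg.1) hd.1.v hg'
        rw [mix_mix_left, mix_eq_left hl.ag] at h9
        have h10 := leT_trans h7 h6
        have h11 := mix_dt hd hg.1 hlt.le (le_valid h7.le) (le_c h10.le hg.1)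
        rw [mix_eq_left h10.ag] at h11
        have hs' := RT1_scope (le_valid h7.le) h8.1
        exact Or.inl ⟨_, h9, T.ab_open _ _ hs' h8 (ds_leS hs' h11.1)⟩
      · have h11 := mix_dt hd hg.1 hlt.le (le_valid hl.le) (le_c hl.le hg')
        rw [mix_eq_left hl.ag] at h11
        exact Or.inr (na_leS h7
          (ds_leS (RT1_scope (le_valid h6.le) (RU_spec h6.le hs)) h11.1)))
  exact Filter.mem_of_superset (Filter.inter_mem (insb_ae hr hμ) hZ) fun ξ hξ => ⟨hξ.1, hξ.2 hξ.1⟩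

/-- The key step. -/
theorem key (H : C.PPS μ) {L : Lo} (hr : C.LeT μ r u) (hL : r.l μ = some L)
    (h : C.NA μ O u r) :
    {ξ | C.Insb r μ (C.dec ξ) ∧ C.NA μ O u (ins r μ (C.dec ξ) (sec L.F ξ))} ∈ C.W μ := by
  have vr := le_valid hr.le
  have sr : Spec r μ := ⟨L, hL⟩
  have su := scope_of_mem T.v (spec_mem T.v T.sp)
  have G := C.good μ (spec_inac vr sr).2.2
  have lv := vr.sp μ L hL
  by_contra hc
  have h0 := Filter.inter_mem lv.A (Filter.inter_mem (T.blocks H vr sr)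
    (Ultrafilter.compl_mem_iff_notMem.2 hc))
  generalize hA : L.A ∩ _ = A at h0
  have h1 : ∀ ξ ∈ A, ∃ (a : Raw) (f : Set (Od × Od)) (c : Od), ξ ∈ L.A ∧ C.LeS μ a r ∧
      a.l μ = r.l μ ∧ C.Insb a μ (C.dec ξ) ∧ C.Fst (C.dec ξ) f ∧ sec L.F ξ ⊆ f ∧
      C.Ab μ O u (ins a μ (C.dec ξ) f) ∧ c < fp (C.dec ξ) ∧ C.dec c = res μ a := by
    subst hA
    rintro ξ ⟨a1, ⟨a2, a3⟩, a4⟩
    obtain ⟨l, b1, b2⟩ := (a3 _ (ins_leT_fst vr sr a2 (lv.F ξ a1))).resolve_right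
      fun e => a4 ⟨a2, e⟩
    obtain ⟨a, c1, c2, c3, -, c5, c6, c7, c8⟩ := ins_low vr sr a2 (lv.F ξ a1) b1
    obtain ⟨c, d1, d2⟩ := C.hdec _ _ a2.blk.inac c5
    exact ⟨a, _, c, a1, c1, c2, c3, c6, c7, c8 ▸ b2, d1, d2⟩
  have : Nonempty Raw := ⟨r⟩
  choose! R φ g e1 e2 e3 e4 e5 e6 e7 e8 e9 using h1
  obtain ⟨c, hg⟩ := G.nor g (Filter.mem_of_superset h0 e8)
  have h2 := Filter.inter_mem h0 hg
  obtain ⟨z, z1, z2⟩ := Filter.nonempty_of_mem h2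
  have h3 : ∀ ξ ∈ A ∩ {ξ | g ξ = c}, R ξ = R z := fun ξ hξ =>
    eq_of_res (by rw [← e9 ξ hξ.1, ← e9 z z1, hξ.2, z2]) ((e3 ξ hξ.1).trans (e3 z z1).symm)
      ((e2 ξ hξ.1).1.ag.trans (e2 z z1).1.ag.symm)
  have l0 := leT_trans (e2 z z1).1 hr
  have s0 := leT_scope su l0
  have hL0 := (e3 z z1).trans hL
  obtain ⟨w, L', f1, -, f3, f4, f5⟩ := shrink s0 hL0 le_rfl h2 (fun ξ hξ => e1 ξ hξ.1) φ
    fun ξ hξ => ⟨(e4 ξ hξ.1).blk, e5 ξ hξ.1, e6 ξ hξ.1⟩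
  have l1 := ds_leS s0 f1
  have l2 := leT_trans l1.1 l0
  refine h w (leS_trans l1 (e2 z z1)) (T.ab_of l2 (T.of_all_ins l2 f3 fun ξ hξ => ?_))
  rw [f4] at hξ
  have i1 := e4 ξ hξ.1
  have i2 := e7 ξ hξ.1
  have i3 := e5 ξ hξ.1
  rw [h3 ξ hξ] at i1 i2
  have i4 := stem_ins_congr (f := φ ξ) s0.v f1.v ⟨L, hL0⟩ (stem_of_agS f1.lo l1.2).symm i1
  rw [f5 ξ hξ]
  exact ⟨i4.1, ab_congr T.sp (ins_valid s0.v ⟨L, hL0⟩ i1 i3.1 i3.2)
    (ins_valid f1.v ⟨L', f3⟩ i4.1 i3.1 i3.2) i4.2 i2⟩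

/-- Closing under insertions. -/
theorem close (H : C.PPS μ) {v : Raw} (hv : C.LeT μ v u) :
    ∃ w, C.DS μ μ w v ∧ ∀ r r', C.LeT μ r w → C.NA μ O u r → C.Ins r' r μ → C.NA μ O u r' := by
  have sv := leT_scope (scope_of_mem T.v (spec_mem T.v T.sp)) hv
  have pv := RU_spec hv.le T.sp
  have hi := (spec_inac T.v T.sp).1
  have hsp : ∀ {x}, C.DS μ μ x v → Spec x μ := fun hx => RU_spec (ds_leS sv hx).1.le pv
  have hsc : ∀ r, C.LeT μ r v → C.dec (C.scode μ r) = stem μ r := fun r hr =>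
    (scode_spec hi (stem_bdd (le_valid hr.le) (RU_spec hr.le pv))).2
  have up : ∀ {r b f f'}, C.LeT μ r v → C.Insb r μ b → C.Fst b f' → f ⊆ f' →
      C.NA μ O u (ins r μ b f) → C.NA μ O u (ins r μ b f') := fun a1 a2 a3 a4 a5 =>
    na_leS a5 (ins_leS (leS_refl (leT_scope sv a1)) (RU_spec a1.le pv) a2 a3 a4).2
  obtain ⟨w, hw, hQ⟩ := diag sv pv le_rfl
    (fun m x => ∀ r, C.LeT μ r v → C.scode μ r = m → C.NA μ O u r → ∀ L, x.l μ = some L →
      ∀ ξ ∈ L.A, C.Insb r μ (C.dec ξ) → C.NA μ O u (ins r μ (C.dec ξ) (sec L.F ξ)))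
    (fun m _ x hx => by
      have sx := leT_scope sv (ds_leS sv hx).1
      by_cases hc : ∃ a, C.LeT μ a v ∧ C.scode μ a = m ∧ C.NA μ O u a
      · obtain ⟨a, a1, a2, a3⟩ := hc
        obtain ⟨La, hLa⟩ := RU_spec a1.le pv
        obtain ⟨Lx, hLx⟩ := hsp hx
        have y1 := RU_gl_leT sv pv le_rfl a1.le hx
        have vy := le_valid y1.le
        have y2 := gl_l hLa hLx
        have y3 := T.key H (leT_trans y1 hv) y2
          (na_congr T.sp (le_valid a1.le) vy ⟨La, hLa⟩ (stem_gl μ a x).symm a3)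
        have lv := sx.v.sp μ Lx hLx
        obtain ⟨x', L', f1, -, f3, f4, f5⟩ := shrink sx hLx le_rfl (Filter.inter_mem lv.A y3)
          inter_subset_left (sec Lx.F) fun ξ hξ => ⟨hξ.2.1.blk, lv.F ξ hξ.1, subset_rfl⟩
        refine ⟨x', f1, fun r r1 r2 _ L hL ξ hξ hb => ?_⟩
        obtain rfl : L' = L := Option.some.inj (f3.symm.trans hL)
        rw [f4] at hξ
        have vr := le_valid r1.le
        have e : stem μ (gl μ a x) = stem μ r := by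
          rw [stem_gl, ← hsc a a1, ← hsc r r1, a2, r2]
        have i3 := lv.F ξ hξ.1
        rw [f5 ξ hξ]
        exact na_congr T.sp (ins_valid vy ⟨_, y2⟩ hξ.2.1 i3.1 i3.2)
          (ins_valid vr (RU_spec r1.le pv) hb i3.1 i3.2) (ins_good vy ⟨_, y2⟩ hξ.2.1).2.1
          (stem_ins_congr vy vr ⟨_, y2⟩ e hξ.2.1).2 hξ.2.2
      · exact ⟨x, ds_refl sx, fun r r1 r2 r3 => absurd ⟨r, r1, r2, r3⟩ hc⟩)
    (fun m _ x x' h1 h2 h3 r r1 r2 r3 L' hL' ξ hξ hb => by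
      obtain ⟨L, hL⟩ := hsp h1
      obtain ⟨L'', b1, b2, b3, -⟩ := h2.d.l1 μ L hL
      obtain rfl : L'' = L' := Option.some.inj (b1.symm.trans hL')
      exact up r1 hb ((h2.v.sp μ _ hL').F ξ hξ) (b3 ξ hξ) (h3 r r1 r2 r3 L hL ξ (b2 hξ) hb))
  refine ⟨w, hw, fun r r' hr hn hins => ?_⟩
  obtain ⟨L, ξ, hL, hξ, hb, rfl⟩ := hins
  have r1 := leT_trans hr (ds_leS sv hw).1
  have vr := le_valid hr.le
  obtain ⟨Lw, hLw⟩ := hsp hw
  obtain ⟨L', b1, b2, b3, -⟩ := le_l1 hr.le hLw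
  obtain rfl : L' = L := Option.some.inj (b1.symm.trans hL)
  exact up r1 hb ((vr.sp μ _ hL).F ξ hξ) (b3 ξ hξ)
    (hQ _ (scode_spec hi (stem_bdd vr ⟨_, hL⟩)).1 r r1 rfl hn _ (RB4_cutA_l _ hLw) ξ
      ⟨b2 hξ, (scode_spec hb.blk.inac (stem_bdd_insb vr ⟨_, hL⟩ hb)).1⟩ hb)

end Tree

theorem tree (H : C.PPS μ) (hp : C.Valid p) (hμ : Spec p μ) (h₁ : C.OpenT μ O)
    (h₂ : C.LC μ (· ≤ μ) O) (hβ : β ∈ p.c) (hβμ : β < μ) (hw : C.WFl β μ O p) :
    ∃ u, C.DT β μ u p ∧ ∀ r, C.LeT μ r u → ¬ O r := by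
  have sp := scope_of_mem hp (spec_mem hp hμ)
  have hi := (spec_inac hp hμ).1
  obtain ⟨u, hu, hN⟩ := unif_spec sp hμ le_rfl (fun _ r => O r) fun _ r r' a1 a2 a3 =>
    h₁ r r' (leT_scope sp a1) a2 (ds_leS (leT_scope sp a1) a3).1
  have lu := (ds_leS sp hu).1
  have su := leT_scope sp lu
  have pu := RU_spec lu.le hμ
  have T : C.Tree μ O u := ⟨hu.v, pu, h₁, h₂, fun r a1 a2 => by
    have := hN 0 hi.isSuccLimit.pos r a1 (dirA_of_agree a1.ag) a2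
    rwa [max_eq_right zero_le] at this⟩
  obtain ⟨v, hv, hn⟩ := H (C.Ab μ O u) u β su T.ab_open T.ab_lc (hu.d.c hβ) hβμ.le
    fun r a1 a2 ⟨_, m, hm, a3⟩ => by
      have b1 := ds_trans (cutA_ds su pu le_rfl hm) hu
      refine hw _ (RU_gl_leT sp hμ le_rfl (leT_trans a1 lu).le b1) ?_ a3
      have b2 := (gl_ds b1 hμ le_rfl hp hμ).d
      rw [gl_self] at b2
      unfold DirA
      rw [← gl_mix _ _ _ hβμ]
      exact (RB4_gl_dle (dirA_trans a2 hu.d hβ) (spec_mem hp hμ) hμ (spec_cutA _ pu)).trans b2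
  have lv := (ds_leS su hv.1).1
  have sv := leT_scope su lv
  obtain ⟨w, hw', hc⟩ := T.close H lv
  have lw := ds_leS sv hw'
  have sw := leT_scope sv lw.1
  refine ⟨w, dt_trans (ds_dt hw' hβμ) (dt_trans hv (ds_dt hu hβμ)), fun r hr ho => ?_⟩
  have key : C.NA μ O u r := by
    have h := (leT_iff sw).1 hr
    clear hr ho
    induction h with
    | refl => exact na_leS hn lw
    | tail a1 a2 ih =>
      have a3 := (leT_iff sw).2 a1
      have lt := fun e => na_leS ih ((leS_iff (leT_scope sw a3)).2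
        (Relation.ReflTransGen.single ⟨a2.1, a2.2.1, a2.2.2.1, e⟩))
      rcases a2.2.2.2 with e | ⟨ν, e1, e2⟩
      · exact lt (.inl e)
      · rcases e1.eq_or_lt with rfl | e3
        · exact hc _ _ a3 ih e2
        · exact lt (.inr ⟨ν, e3, e2⟩)
  exact key r (leS_refl (leT_scope sw hr)) (T.ab_of (leT_trans hr (leT_trans lw.1 lv)) ho)

theorem pp_of_pps {t : Od} (H : C.PPS t) : C.PP t := by
  intro O p β hp h₁ h₂ hβ hβt hw
  rcases hβt.eq_or_lt with rfl | hlt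
  · exact ⟨p, dt_refl hp, fun r hr => hw r hr (dirA_of_agree hr.ag)⟩
  by_cases hs : Spec p t
  · exact tree H hp.v hs h₁ h₂ hβ hlt hw
  · obtain ⟨u, hu, h⟩ := H O p β hp (fun r r' a b c => h₁ r r' a b c.1)
      (fun δ r a => h₂ δ r a.le) hβ hβt hw
    refine ⟨u, hu, fun r hr => h r (leS_of_not_spec hr fun ⟨L, hL⟩ => hs ?_)⟩
    have e := (ds_leS hp hu.1).2
    unfold sAt at e
    rw [hL] at e
    obtain ⟨L', h', -⟩ := Option.map_eq_some_iff.1 e.symm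
    exact ⟨L', h'⟩

theorem pp_all (C : Ctx) (t : Od) : C.PP t := by
  induction t using (wellFounded_lt (α := Od)).induction with
  | h t ih => exact pp_of_pps (pps_of_ih ih)

end Ctx

end Pool.Agent.MP_85ce7b_lc
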