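import Pool.Agent.MP_85ce7b_lc.L.RC
import Pool.Agent.MP_85ce7b_lc.L.RL

namespace Pool.Agent.MP_85ce7b_lc

open Set Cardinal Ordinal Dat

namespace Ctx

variable {C : Ctx} {p : Raw} {t δ μ ν : Od}

theorem RU_inter (hp : C.Scope t p) (hδ : Good0 p δ) (ht : δ ≤ t) (hν : ν.card ≤ C.B δ)
    (Q : Od → Raw → Raw → Prop)
    (dense : ∀ i l, C.LeT δ l p → ∀ u, C.DT δ t u p → ∃ u', C.DT δ t u' u ∧ Q i l u')
    (op : ∀ i l, C.LeT δ l p → ∀ u u', C.DT δ t u p → C.DT δ t u' u → Q i l u → Q i l u') :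
    ∃ u, C.DT δ t u p ∧ ∀ i < ν, ∀ l, C.LeT δ l p → Q i l u := by
  obtain ⟨en, hen⟩ := low_enum (C := C) hδ
  obtain ⟨f, g, -, hfg⟩ := exists_pairing (C.bf.aleph0_le δ)
  obtain ⟨s, hs⟩ := exists_surj_of_card_le hν
  obtain ⟨u, hu, hQ⟩ := inter (ν := (C.B δ).ord) hp (good0_mem hp.v hδ).1 ht (card_ord _).le
    (fun k u => C.LeT δ (en (g k)) p → Q (s (f k)) (en (g k)) u)
    (fun k _ u hu => by
      by_cases h : C.LeT δ (en (g k)) p
      · obtain ⟨u', h1, h2⟩ := dense (s (f k)) _ h u hu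
        exact ⟨u', h1, fun _ => h2⟩
      · exact ⟨u, dt_refl (leT_scope hp (ds_leS hp hu.1).1), fun h' => absurd h' h⟩)
    (fun k _ u u' h1 h2 h3 h => op _ _ h u u' h1 h2 (h3 h))
  refine ⟨u, hu, fun i hi l hl => ?_⟩
  obtain ⟨a, ha, rfl⟩ := hs i hi
  obtain ⟨b, hb, rfl⟩ := hen l hl
  obtain ⟨k, hk, rfl, rfl⟩ := hfg a ha b hb
  exact hQ k hk hl

theorem RU_mix_leT {l u : Raw} (hp : C.Scope t p) (hδ : δ ∈ p.c) (ht : δ ≤ t)
    (hl : C.LeT δ l p) (hu : C.LeT t u p) : C.LeT t (mix δ l u) p := by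
  have h1 := mix_leT_right hu hδ ht (le_valid hl.le) (le_c hl.le hδ)
  rw [mix_eq_left hl.ag] at h1
  exact leT_trans h1 (leT_mono hl (scope_of_mem hp.v hδ) hp ht)

/-- Uniformization at a good point. -/
theorem unif_good (hp : C.Scope t p) (hδ : Good0 p δ) (ht : δ ≤ t) (hν : ν.card ≤ C.B δ)
    (N : Od → Raw → Prop)
    (hN : ∀ j r r', C.LeT t r p → N j r → C.DT δ t r' r → N j r') :
    ∃ u, C.DT δ t u p ∧ ∀ j < ν, ∀ r, C.LeT t r u → DirA δ r u → N j r → N j (mix δ r u) := by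
  have hm := (good0_mem hp.v hδ).1
  obtain ⟨u, hu, hQ⟩ := RU_inter hp hδ ht hν
    (fun j l u => N j (mix δ l u) ∨ ∀ u', C.DT δ t u' u → ¬ N j (mix δ l u'))
    (fun j l _ u hu => by
      by_cases h : ∃ u', C.DT δ t u' u ∧ N j (mix δ l u')
      · obtain ⟨u', h1, h2⟩ := h
        exact ⟨u', h1, Or.inl h2⟩
      · exact ⟨u, dt_refl (leT_scope hp (ds_leS hp hu.1).1),
          Or.inr fun u' h1 h2 => h ⟨u', h1, h2⟩⟩)
    (fun j l hl u u' h1 h2 h3 => by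
      rcases h3 with h3 | h3
      · exact Or.inl (hN j _ _ (RU_mix_leT hp hm ht hl (ds_leS hp h1.1).1) h3
          (mix_dt h2 (h1.1.d.c hm) ht (le_valid hl.le) (le_c hl.le hm)))
      · exact Or.inr fun v hv => h3 v (dt_trans hv h2))
  refine ⟨u, hu, fun j hj r hr hd hn => ?_⟩
  have hrp := leT_trans hr (ds_leS hp hu.1).1
  rcases hQ j hj _ (low_leT hrp.le hm) with h | h
  · rwa [mix_mix_left] at h
  · have h1 := h _ (dirA_dt hr hd (hu.1.d.c hm) ht)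
    rw [mix_mix_left, mix_mix_right, mix_self] at h1
    exact absurd hn h1

theorem RU_spec {u : Raw} (h : C.Le u p) (hμ : Spec p μ) : Spec u μ :=
  (le_spec_iff h (spec_mem h.1 hμ)).2 hμ

theorem RU_denseS (hp : C.Scope t p) (hμ : Spec p μ) (ht : μ ≤ t) (hν : ν < μ)
    (Q : Od → Raw → Prop)
    (dense : ∀ i < ν, ∀ u, C.DS μ t u p → ∃ u', C.DS μ t u' u ∧ Q i u')
    (op : ∀ i < ν, ∀ u u', C.DS μ t u p → C.DS μ t u' u → Q i u → Q i u') {u : Raw}
    (hu : C.DS μ t u p) : ∃ u', C.DS μ t u' u ∧ ∀ i < ν, Q i u' := by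
  have h1 := (ds_leS hp hu).1
  exact interS (leT_scope hp h1) (RU_spec h1.le hμ) ht hν Q
    (fun i hi v hv => dense i hi v (ds_trans hv hu))
    fun i hi v v' hv => op i hi v v' (ds_trans hv hu)

theorem RU_gl_leT {r u : Raw} (hp : C.Scope t p) (hμ : Spec p μ) (ht : μ ≤ t)
    (hr : C.Le r p) (hu : C.DS μ t u p) : C.LeT t (gl μ r u) p := by
  have h1 := RU_spec hr hμ
  exact leT_trans (ds_leS (gl_scope (le_valid hr) hp h1 hμ ht)
    (gl_ds hu hμ ht (le_valid hr) h1)).1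
    (leT_mono (gl_leT hr hμ) (scope_of_mem hp.v (spec_mem hp.v hμ)) hp ht)

/-- Uniformization at a special point. -/
theorem unif_spec (hp : C.Scope t p) (hμ : Spec p μ) (ht : μ ≤ t) (N : Od → Raw → Prop)
    (hN : ∀ j r r', C.LeT t r p → N j r → C.DS μ t r' r → N j r') :
    ∃ u, C.DS μ t u p ∧ ∀ j < μ, ∀ r, C.LeT t r u → DirA μ r u → N j r →
      N j (gl μ r (C.cutA μ (max j (C.scode μ r)) u)) := by
  have hi := (spec_inac hp.v hμ).1
  have hsp : ∀ {u}, C.DS μ t u p → Spec u μ := fun hu => RU_spec (ds_leS hp hu).1.le hμ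
  have hsc : ∀ r, C.LeT t r p → C.scode μ r < μ ∧ C.dec (C.scode μ r) = stem μ r := fun r hr =>
    scode_spec hi (stem_bdd (le_valid hr.le) (RU_spec hr.le hμ))
  set P : Od → Od → Raw → Prop := fun j ξ u => ∀ r, C.LeT t r p → C.scode μ r = ξ →
    N j (gl μ r u) ∨ ∀ u', C.DS μ t u' u → ¬ N j (gl μ r u') with hP
  have op : ∀ j ξ u u', C.DS μ t u p → C.DS μ t u' u → P j ξ u → P j ξ u' := by
    intro j ξ u u' h1 h2 h3 r hr he
    rcases h3 r hr he with h4 | h4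
    · exact Or.inl (hN j _ _ (RU_gl_leT hp hμ ht hr.le h1) h4
        (gl_ds h2 (hsp h1) ht (le_valid hr.le) (RU_spec hr.le hμ)))
    · exact Or.inr fun v hv => h4 v (ds_trans hv h2)
  have dense : ∀ j ξ u, C.DS μ t u p → ∃ u', C.DS μ t u' u ∧ P j ξ u' := by
    intro j ξ u hu
    by_cases h : ∃ r u', C.LeT t r p ∧ C.scode μ r = ξ ∧ C.DS μ t u' u ∧ N j (gl μ r u')
    · obtain ⟨r, u', h1, h2, h3, h4⟩ := h
      refine ⟨u', h3, fun r' g1 g2 => Or.inl ?_⟩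
      rwa [gl_congr_stem (le_valid g1.le) (le_valid h1.le) ?_ (hsp (ds_trans h3 hu))]
      rw [← (hsc r h1).2, ← (hsc r' g1).2, h2, g2]
    · exact ⟨u, ds_refl (leT_scope hp (ds_leS hp hu).1),
        fun r h1 h2 => Or.inr fun u' h3 h4 => h ⟨r, u', h1, h2, h3, h4⟩⟩
  obtain ⟨u, hu, hQ⟩ := diag hp hμ ht (fun m u => ∀ j < m + 1, ∀ ξ < m + 1, P j ξ u)
    (fun m hm u hu => RU_denseS hp hμ ht (hi.isSuccLimit.add_one_lt hm)
      (fun j u => ∀ ξ < m + 1, P j ξ u)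
      (fun j _ v hv => RU_denseS hp hμ ht (hi.isSuccLimit.add_one_lt hm) (P j)
        (fun ξ _ => dense j ξ) (fun ξ _ => op j ξ) hv)
      (fun j _ v v' h1 h2 h3 ξ hξ => op j ξ v v' h1 h2 (h3 ξ hξ)) hu)
    (fun m _ v v' h1 h2 h3 j hj ξ hξ => op j ξ v v' h1 h2 (h3 j hj ξ hξ))
  refine ⟨u, hu, fun j hj r hr hd hn => ?_⟩
  have hrp := leT_trans hr (ds_leS hp hu).1
  have hm : max j (C.scode μ r) < μ := max_lt hj (hsc r hrp).1
  rcases hQ _ hm j ((le_max_left _ _).trans_lt (lt_add_one _)) _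
    ((le_max_right _ _).trans_lt (lt_add_one _)) r hrp rfl with h | h
  · exact h
  · obtain ⟨u', h1, h2⟩ := cut_wit hr hd (hsp hu) ht hm
    refine absurd ?_ (h u' h1)
    rw [h2]
    exact hN j _ _ hrp hn (cutA_ds (leT_scope hp hrp) (RU_spec hrp.le hμ) ht hm)

theorem RU_pf (R : Raw → Raw → Prop) (hR : ∀ r a b, R r a → C.LeS t a b → R r b)
    (hp : C.Scope t p) (hδ : Good0 p δ) (ht : δ ≤ t) (hν : ν.card ≤ C.B δ)
    (O : Od → Raw → Prop) (h₁ : ∀ i, C.OpenS t (O i))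
    (H : ∀ i w, C.Scope t w → δ ∈ w.c → C.WFl δ t (O i) w →
      ∃ v, C.DT δ t v w ∧ ∀ r, R r v → ¬ O i r) :
    ∃ u, C.DT δ t u p ∧ ∀ i < ν, ∀ l, C.LeT δ l u →
      (∃ l', C.LeT δ l' l ∧ O i l') ∨ ∀ r, R r l → ¬ O i r := by
  have hm := (good0_mem hp.v hδ).1
  obtain ⟨u, hu, hQ⟩ := RU_inter hp hδ ht hν
    (fun i l u => (∃ l', C.LeT δ l' (mix δ l u) ∧ O i l') ∨ ∀ r, R r (mix δ l u) → ¬ O i r)
    (fun i l hl u hu => by
      have hw := RU_mix_leT hp hm ht hl (ds_leS hp hu.1).1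
      have hw' := le_c hw.le hm
      have key : ∀ v, C.DT δ t v (mix δ l u) → C.DT δ t (mix δ u v) u := fun v hv => by
        have h1 := mix_dt hv hw' ht hu.1.v (hu.1.d.c hm)
        rwa [mix_mix_right, mix_self] at h1
      by_cases h : C.WFl δ t (O i) (mix δ l u)
      · obtain ⟨v, h1, h2⟩ := H i _ (leT_scope hp hw) hw' h
        refine ⟨_, key v h1, Or.inr ?_⟩
        have h3 := mix_congr (β := δ) ⟨h1.1.lo, h1.2⟩ (Agree.refl δ v)
        rw [mix_self, mix_mix_left] at h3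
        rwa [mix_mix_right, ← h3]
      · unfold Dat.WFl at h
        push Not at h
        obtain ⟨r, h1, h2, h3⟩ := h
        refine ⟨_, key _ (dirA_dt h1 h2 hw' ht), Or.inl ⟨r, ?_, h3⟩⟩
        have h4 := mix_le_left h1.le hw' (le_valid h1.le) (le_c h1.le hw')
        rw [mix_self, mix_mix_left] at h4
        rwa [mix_mix_right, mix_mix_right])
    (fun i l hl u u' h1 h2 h3 => by
      have hw := RU_mix_leT hp hm ht hl (ds_leS hp h1.1).1
      have hw' := le_c hw.le hm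
      have hu := h1.1.d.c hm
      rcases h3 with ⟨l', h3, h4⟩ | h3
      · refine Or.inl ⟨mix δ l' u', ?_, ?_⟩
        · have h5 := mix_le_left h3.le hw' h2.1.v (h2.1.d.c hu)
          rwa [mix_mix_left] at h5
        · have h5 := mix_dt h2 hu ht (le_valid h3.le) (le_c h3.le hw')
          have h6 := mix_scope (le_valid h3.le) (leT_scope hp (ds_leS hp h1.1).1)
            (le_c h3.le hw') hu ht
          rw [mix_eq_left (h3.ag.trans (agree_mix δ l u))] at h5 h6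
          exact h₁ i _ _ h6 h4 (ds_leS h6 h5.1)
      · exact Or.inr fun r hr => h3 r (hR _ _ _ hr (ds_leS (leT_scope hp hw)
          (mix_dt h2 hu ht (le_valid hl.le) (le_c hl.le hm)).1)))
  refine ⟨u, hu, fun i hi l hl => ?_⟩
  have h := hQ i hi _ (low_leT (le_trans' hl.le (ds_leS hp hu.1).1.le) hm)
  rwa [mix_mix_left, mix_eq_left hl.ag] at h

/-- The Prikry property for all lower parts at a good point, without insertion at `t`. -/
theorem pf_S (H : C.PPS t) (hp : C.Scope t p) (hδ : Good0 p δ) (ht : δ ≤ t)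
    (hν : ν.card ≤ C.B δ) (O : Od → Raw → Prop) (h₁ : ∀ i, C.OpenS t (O i))
    (h₂ : ∀ i, C.LC t (· < t) (O i)) :
    ∃ u, C.DT δ t u p ∧ ∀ i < ν, ∀ l, C.LeT δ l u →
      (∃ l', C.LeT δ l' l ∧ O i l') ∨ ∀ r, C.LeS t r l → ¬ O i r :=
  RU_pf (C.LeS t) (fun _ _ _ => leS_trans) hp hδ ht hν O h₁
    fun i w hw hm => H (O i) w δ hw (h₁ i) (h₂ i) hm ht

/-- The Prikry property for all lower parts at a good point. -/
theorem pf_T (H : C.PP t) (hp : C.Scope t p) (hδ : Good0 p δ) (ht : δ ≤ t)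
    (hν : ν.card ≤ C.B δ) (O : Od → Raw → Prop) (h₁ : ∀ i, C.OpenT t (O i))
    (h₂ : ∀ i, C.LC t (· ≤ t) (O i)) :
    ∃ u, C.DT δ t u p ∧ ∀ i < ν, ∀ l, C.LeT δ l u →
      (∃ l', C.LeT δ l' l ∧ O i l') ∨ ∀ r, C.LeT t r l → ¬ O i r :=
  RU_pf (C.LeT t) (fun _ _ _ h h' => leT_trans h h'.1) hp hδ ht hν O
    (fun i r r' h1 h2 h3 => h₁ i r r' h1 h2 h3.1)
    fun i w hw hm => H (O i) w δ hw (h₁ i) (h₂ i) hm ht

/-- Reduction of regular open sets to the lower part. -/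
theorem pf_low (H : C.PP t) (hp : C.Scope t p) (hδ : Good0 p δ) (ht : δ ≤ t)
    (hν : ν.card ≤ C.B δ) (O : Od → Raw → Prop) (h₁ : ∀ i, C.OpenT t (O i))
    (h₂ : ∀ i, C.LC t (· ≤ t) (O i)) :
    ∃ u, C.DT δ t u p ∧ ∀ i < ν, ∀ r, C.LeT t r u → O i r → O i (mix δ r u) := by
  obtain ⟨u, hu, hQ⟩ := pf_T H hp hδ ht hν O h₁ h₂
  refine ⟨u, hu, fun i hi r hr ho => ?_⟩
  have hm := hu.1.d.c (good0_mem hp.v hδ).1
  have hs := leT_scope hp (ds_leS hp hu.1).1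
  have hw := low_leT hr.le hm
  have hr' := le_c hr.le hm
  refine h₂ i δ _ ht (mix_scope (le_valid hr.le) hs hr' hm ht) (le_c hw.le hm) fun r' h => ?_
  have h1 := leT_trans h hw
  refine (hQ i hi r' h1).resolve_right fun h2 => h2 (mix δ r' r) ?_ ?_
  · have h3 := mix_leT_right hr hm ht (le_valid h1.le) (le_c h1.le hm)
    rwa [mix_eq_left h1.ag] at h3
  · have h3 := mix_le_left h.le (le_c hw.le hm) (le_valid hr.le) hr'
    rw [mix_mix_left, mix_self] at h3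
    exact h₁ i _ _ (leT_scope hs hr) ho
      (leT_mono h3 (scope_of_mem (le_valid hr.le) hr') (leT_scope hs hr) ht)

end Ctx

end Pool.Agent.MP_85ce7b_lc
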