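import Pool.Agent.MP_85ce7b_lc.L.TOtp

namespace Pool.Agent.MP_85ce7b_lc

open Pool.Agent.MP_c6cf52_lc

theorem regGe_def {M : Type*} (E : M → M → Prop) (δ : Ordinal.{1}) (x : M) :
    RegGe E δ x ↔ IsReg E x ∧ ∀ β < δ, ¬ RegAt E β x := by
  unfold RegAt RegGe
  rw [WellFounded.fix_eq]

theorem RegGe.mono {M : Type*} {E : M → M → Prop} {β δ : Ordinal.{1}} {x : M} (h : RegGe E δ x)
    (hβ : β ≤ δ) : RegGe E β x :=
  (regGe_def _ _ _).2 ⟨((regGe_def _ _ _).1 h).1,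
    fun η hη => ((regGe_def _ _ _).1 h).2 η (hη.trans_le hβ)⟩

theorem RegGe.reg {M : Type*} {E : M → M → Prop} {δ : Ordinal.{1}} {x : M} (h : RegGe E δ x) :
    IsReg E x := ((regGe_def _ _ _).1 h).1

namespace Gen

variable {P : Type 2} [Sz P] [Preorder P] [OrderTop P] [Tame P] {g : Gen P}

theorem ord_mem {a b : g.M} (ha : IsOrd g.E a) (hb : g.E b a) : IsOrd g.E b := isOrd_of_E ha hb

theorem not_leC_nat (n : ℕ) : ¬ LeC g.E (g.nat (n + 1)) (g.nat n) := by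
  rintro ⟨f, hf⟩
  have h : ∀ i : Fin (n + 1), ∃ j : Fin n, App g.E f (g.nat i) (g.nat j) := fun i => by
    obtain ⟨b, h₁, h₂⟩ := fun_ex hf.1 (nat_lt.2 i.2)
    obtain ⟨m, hm, rfl⟩ := E_nat.1 h₁
    exact ⟨⟨m, hm⟩, h₂⟩
  choose F hF using h
  have := Fintype.card_le_of_injective F fun i i' e =>
    Fin.ext (nat_inj (hf.2 _ _ _ (hF i) (e ▸ hF i')))
  simp at this

theorem isCard_nat (n : ℕ) : IsCard g.E (g.nat n) :=
  ⟨isOrd_nat n, fun a ha h => by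
    obtain ⟨m, hm, rfl⟩ := E_nat.1 ha
    exact not_leC_nat m (leC_trans (leC_of_sub fun x hx => by
      obtain ⟨j, hj, rfl⟩ := E_nat.1 hx
      exact nat_lt.2 (by omega)) h)⟩

theorem isCard_om : IsCard g.E g.om :=
  ⟨isOrd_om, fun a ha h => by
    obtain ⟨m, rfl⟩ := E_om.1 ha
    exact not_leC_nat m (leC_trans (leC_of_sub (sub_of_leq isOrd_om (Or.inl (nat_om _)))) h)⟩

theorem isReg_om : IsReg g.E g.om := by
  refine ⟨isCard_om, inf_om, fun S h₁ h₂ => (leC_or_lt isOrd_om S).resolve_right fun h => ?_⟩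
  obtain ⟨m, hm, f, hf⟩ := lt_iff.1 h
  obtain ⟨m, rfl⟩ := E_om.1 hm
  have k : ∀ j : ℕ, ∃ n : ℕ, ∀ x, App g.E f x (g.nat j) → g.E x (g.nat n) := fun j => by
    by_cases e : ∃ x, App g.E f x (g.nat j)
    · obtain ⟨x, hx⟩ := e
      obtain ⟨n, rfl⟩ := E_om.1 (h₁ x (fun_mem hf.1 hx).1)
      exact ⟨n + 1, fun y hy => hf.2 _ _ _ hx hy ▸ nat_lt.2 (Nat.lt_succ_self n)⟩
    · exact ⟨0, fun x hx => absurd ⟨x, hx⟩ e⟩
  choose N hN using k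
  obtain ⟨y, hy, k₁⟩ := h₂ _ (nat_om ((Finset.range m).sup N))
  obtain ⟨b, k₂, k₃⟩ := fun_ex hf.1 hy
  obtain ⟨j, hj, rfl⟩ := E_nat.1 k₂
  obtain ⟨i, hi, rfl⟩ := E_nat.1 (hN j y k₃)
  exact not_lt_of_leq k₁ (nat_lt.2 (hi.trans_le (Finset.le_sup (Finset.mem_range.2 hj))))

theorem leC_of_fnl {Y c f : g.M} (hf : Fnl g.E f)
    (h : ∀ y, g.E y Y → ∃ i, g.E i c ∧ App g.E f i y) : LeC g.E Y c :=
  leC_of_onto (Q := fun i y => App g.E f i y) (by fun_prop) h hf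

theorem lt_of_rel {Y k c f : g.M} (hk : IsOrd g.E k) (hc : g.E c k) (hf : Fnl g.E f)
    (h : ∀ y, g.E y Y → ∃ i, g.E i c ∧ App g.E f i y) : Lt g.E Y k :=
  have _ := hk
  lt_iff.2 ⟨c, hc, leC_of_fnl hf h⟩

theorem not_card_of_rel {k c f : g.M} (hc : g.E c k) (hf : Fnl g.E f)
    (h : ∀ y, g.E y k → ∃ i, g.E i c ∧ App g.E f i y) : ¬ IsCard g.E k :=
  fun hk => hk.2 c hc (leC_of_fnl hf h)

theorem card_of_lim {k : g.M} (hk : IsOrd g.E k)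
    (h : ∀ x, g.E x k → ∃ z, IsCard g.E z ∧ g.E x z ∧ Leq g.E z k) : IsCard g.E k :=
  ⟨hk, fun a ha h' =>
    let ⟨_, h₁, h₂, h₃⟩ := h a ha
    h₁.2 a h₂ (leC_trans (leC_of_sub (sub_of_leq hk h₃)) h')⟩

/-- An ordinal with a small unbounded subset is not regular. -/
theorem not_reg_of_unb {k S b : g.M} (h : Unb g.E S k) (hb : g.E b k) (hS : LeC g.E S b) :
    ¬ IsReg g.E k := fun hk => hk.1.2 b hb (leC_trans (hk.2.2 S h.1 h.2) hS)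

theorem not_reg_of_cof {k c f : g.M} (hc : g.E c k) (hf : Fnl g.E f) (h : CofMap g.E f c k) :
    ¬ IsReg g.E k := by
  obtain ⟨S, hS⟩ := tm_sep (Q := fun y => ∃ i, g.E i c ∧ App g.E f i y) (by fun_prop) k
  exact not_reg_of_unb ⟨fun y hy => ((hS y).1 hy).1, fun x hx =>
    let ⟨i, y, h₁, h₂, h₃, h₄⟩ := h x hx
    ⟨y, (hS y).2 ⟨h₂, i, h₁, h₃⟩, h₄⟩⟩ hc (leC_of_fnl hf fun y hy => ((hS y).1 hy).2)

/-- A singular ordinal has a small unbounded subset. -/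
theorem unb_of_not_reg {k : g.M} (hk : IsOrd g.E k) (hi : Inf g.E k) (h : ¬ IsReg g.E k) :
    ∃ S c, g.E c k ∧ Unb g.E S k ∧ LeC g.E S c := by
  by_cases hc : IsCard g.E k
  · by_contra H
    refine h ⟨hc, hi, fun S h₁ h₂ => (leC_or_lt hk S).resolve_right fun h₃ => ?_⟩
    obtain ⟨c, h₄, h₅⟩ := lt_iff.1 h₃
    exact H ⟨S, c, h₄, ⟨h₁, h₂⟩, h₅⟩
  · by_contra H
    exact hc ⟨hk, fun c h₁ h₂ => H ⟨k, c, h₁, ⟨fun _ h => h, fun x hx => ⟨x, hx, leq_refl x⟩⟩, h₂⟩⟩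

theorem cof_of_not_reg {k : g.M} (hk : IsOrd g.E k) (hi : Inf g.E k) (h : ¬ IsReg g.E k) :
    ∃ c f, g.E c k ∧ Fnl g.E f ∧ CofMap g.E f c k := by
  obtain ⟨S, c, h₁, h₂, F, hF⟩ := unb_of_not_reg hk hi h
  obtain ⟨f, -, hf⟩ := exists_rel c S (Q := fun i y => App g.E F y i) (by fun_prop)
  refine ⟨c, f, h₁, fun x y y' e e' => hF.2 _ _ _ ((hf _ _).1 e).2.2 ((hf _ _).1 e').2.2,
    fun x hx => ?_⟩
  obtain ⟨y, k₁, k₂⟩ := h₂.2 x hx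
  obtain ⟨i, k₃, k₄⟩ := fun_ex hF.1 k₁
  exact ⟨i, y, k₃, h₂.1 y k₁, (hf _ _).2 ⟨k₃, k₁, k₄⟩, k₂⟩

theorem IsReg.om_leq {x : g.M} (h : IsReg g.E x) : Leq g.E g.om x := (inf_iff h.1.1).1 h.2.1

theorem regGe_om (δ : Ordinal.{1}) : RegGe g.E δ g.om := by
  refine (regGe_def _ _ _).2 ⟨isReg_om, fun β _ ⟨_, y, h₁, h₂, _⟩ => ?_⟩
  have key : ∀ y, g.E y g.om → ¬ RegGe g.E β y := fun y hy h =>
    not_lt_of_leq (IsReg.om_leq h.reg) hy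
  rcases h₂ with h₂ | ⟨-, ⟨z, hz⟩, h₂⟩
  · exact key y h₁ h₂
  · obtain ⟨u, h₃, -, h₄⟩ := h₂ z hz
    exact key u (lt_lt isOrd_om h₃ h₁) h₄

theorem cl_ord {δ : Ordinal.{1}} {x : g.M} (h : Cl g.E (RegGe g.E δ) x) : IsOrd g.E x :=
  h.elim (fun h => h.reg.1.1) fun h => h.1

theorem regAt_iff {δ : Ordinal.{1}} {x : g.M} :
    RegAt g.E δ x ↔ RegGe g.E δ x ∧ x ≠ g.om ∧ ¬ Lim g.E (RegGe g.E δ) x := by
  constructor
  · rintro ⟨h₁, y, h₂, h₃, h₄⟩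
    have nl : ¬ Lim g.E (RegGe g.E δ) x := fun h =>
      let ⟨z, k₁, k₂, k₃⟩ := h.2 y h₂
      h₄ z k₂ k₁ (Or.inl k₃)
    refine ⟨h₁.resolve_right fun h => nl h.2, ?_, nl⟩
    rintro rfl
    exact ((regGe_def _ _ _).1 (regGe_om (Order.succ δ))).2 δ (Order.lt_succ δ) ⟨h₁, y, h₂, h₃, h₄⟩
  · rintro ⟨h₁, h₂, h₃⟩
    have hx := h₁.reg.1.1
    have ho : g.E g.om x := (IsReg.om_leq h₁.reg).resolve_right (Ne.symm h₂)
    obtain ⟨b, hb, k⟩ : ∃ b, g.E b x ∧ ∀ z, g.E z x → g.E b z → ¬ RegGe g.E δ z := by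
      by_contra H
      push Not at H
      exact h₃ ⟨⟨_, ho⟩, H⟩
    obtain ⟨y, ⟨y₁, y₂⟩, ymin⟩ := exists_min
      (Q := fun y => g.E y x ∧ ∀ z, g.E z x → g.E y z → ¬ RegGe g.E δ z) ⟨b, hb, k⟩
    have hy := isOrd_of_E hx y₁
    refine ⟨Or.inl h₁, y, y₁, ?_, ?_⟩
    · by_cases e : RegGe g.E δ y
      · exact Or.inl e
      · have oy : g.E g.om y := by
          rcases ord_tri isOrd_om hy with k | k | k
          · exact k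
          · exact absurd (k ▸ regGe_om δ) e
          · exact absurd (regGe_om δ) (y₂ _ ho k)
        refine Or.inr ⟨hy, ⟨_, oy⟩, fun u hu => ?_⟩
        have := ymin u hu
        push Not at this
        obtain ⟨z, z₁, z₂, z₃⟩ := this (lt_lt hx hu y₁)
        refine ⟨z, ?_, z₂, z₃⟩
        rcases ord_tri (isOrd_of_E hx z₁) hy with k | rfl | k
        · exact k
        · exact absurd z₃ e
        · exact absurd z₃ (y₂ z z₁ k)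
    · rintro z z₁ z₂ (k | ⟨-, -, k⟩)
      · exact y₂ z z₂ z₁ k
      · obtain ⟨u, u₁, u₂, u₃⟩ := k y z₁
        exact y₂ u (lt_lt hx u₁ z₂) u₂ u₃

theorem regGe_iff {δ : Ordinal.{1}} {x : g.M} :
    RegGe g.E δ x ↔ IsReg g.E x ∧ (x = g.om ∨ ∀ β < δ, Lim g.E (RegGe g.E β) x) := by
  constructor
  · intro h
    refine ⟨h.reg, or_iff_not_imp_left.2 fun h₁ β hβ => ?_⟩
    by_contra h₂
    exact ((regGe_def _ _ _).1 h).2 β hβ (regAt_iff.2 ⟨h.mono hβ.le, h₁, h₂⟩)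
  · rintro ⟨h₁, rfl | h₂⟩
    · exact regGe_om δ
    · exact (regGe_def _ _ _).2 ⟨h₁, fun β hβ h => (regAt_iff.1 h).2.2 (h₂ β hβ)⟩

end Gen

end Pool.Agent.MP_85ce7b_lc
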