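import Pool.Agent.MP_85ce7b_lc.L.TDefs

namespace Pool.Agent.MP_85ce7b_lc

open Pool.Agent.MP_c6cf52_lc Name

variable {P : Type 2} [Sz P] [Preorder P] [OrderTop P] [Tame P]

namespace Gen

variable {g : Gen P}

/-! ### Ordinals -/

theorem E_trans {A x y z : g.M} (h : IsOrd g.E A) (hz : g.E z A) (hxy : g.E x y)
    (hyz : g.E y z) : g.E x z := by
  rcases h.2 x z (h.1 _ _ (h.1 _ _ hz hyz) hxy) hz with e | rfl | e
  · exact e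
  · exact (E_wf.asymmetric _ _ hxy hyz).elim
  · exact (E_wf.asymmetric₃ _ _ _ hxy hyz e).elim

theorem isOrd_of_E {A a : g.M} (h : IsOrd g.E A) (ha : g.E a A) : IsOrd g.E a :=
  ⟨fun _ _ hx hy => E_trans h ha hy hx, fun _ _ hx hy => h.2 _ _ (h.1 _ _ ha hx) (h.1 _ _ ha hy)⟩

theorem isOrdinal_of {a : g.M} (h : IsOrd g.E a) : a.1.IsOrdinal := by
  constructor
  · intro y hy z hz
    obtain ⟨y, rfl⟩ := trans hy
    obtain ⟨z, rfl⟩ := trans hz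
    exact h.1 _ _ hy hz
  · intro y z w h₁ h₂ h₃
    obtain ⟨w, rfl⟩ := trans h₃
    obtain ⟨z, rfl⟩ := trans h₂
    obtain ⟨y, rfl⟩ := trans h₁
    exact E_trans h h₃ h₁ h₂

theorem ord_tri {a b : g.M} (ha : IsOrd g.E a) (hb : IsOrd g.E b) :
    g.E a b ∨ a = b ∨ g.E b a := by
  rcases (isOrdinal_of ha).mem_trichotomous (isOrdinal_of hb) with h | h | h
  exacts [Or.inl h, Or.inr (Or.inl (Subtype.ext h)), Or.inr (Or.inr h)]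

theorem E_asymm {a b : g.M} (h : g.E a b) : ¬ g.E b a := E_wf.asymmetric _ _ h

/-- `a < b < c` with `c` an ordinal. -/
theorem lt_lt {a b c : g.M} (hc : IsOrd g.E c) (h₁ : g.E a b) (h₂ : g.E b c) : g.E a c :=
  hc.1 _ _ h₂ h₁

theorem leq_refl (a : g.M) : Leq g.E a a := Or.inr rfl

theorem leq_lt {a b c : g.M} (hc : IsOrd g.E c) (h₁ : Leq g.E a b) (h₂ : g.E b c) : g.E a c :=
  h₁.elim (fun h => lt_lt hc h h₂) fun h => h ▸ h₂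

theorem lt_leq {a b c : g.M} (hc : IsOrd g.E c) (h₁ : g.E a b) (h₂ : Leq g.E b c) : g.E a c :=
  h₂.elim (fun h => lt_lt hc h₁ h) fun h => h ▸ h₁

theorem leq_trans {a b c : g.M} (hc : IsOrd g.E c) (h₁ : Leq g.E a b) (h₂ : Leq g.E b c) :
    Leq g.E a c := h₂.elim (fun h => Or.inl (leq_lt hc h₁ h)) fun h => h ▸ h₁

theorem not_lt_of_leq {a b : g.M} (h : Leq g.E a b) : ¬ g.E b a :=
  h.elim E_asymm fun e => e ▸ E_irrefl _

theorem leq_antisymm {a b : g.M} (h₁ : Leq g.E a b) (h₂ : Leq g.E b a) : a = b :=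
  h₁.resolve_left (not_lt_of_leq h₂)

theorem leq_of_not_lt {a b : g.M} (ha : IsOrd g.E a) (hb : IsOrd g.E b) (h : ¬ g.E b a) :
    Leq g.E a b := (ord_tri ha hb).imp_right fun h' => h'.resolve_right h

theorem lt_of_not_leq {a b : g.M} (ha : IsOrd g.E a) (hb : IsOrd g.E b) (h : ¬ Leq g.E b a) :
    g.E a b := by
  by_contra h'
  exact h (leq_of_not_lt hb ha h')

theorem isOrd_of_leq {a b : g.M} (hb : IsOrd g.E b) (h : Leq g.E a b) : IsOrd g.E a :=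
  h.elim (isOrd_of_E hb) fun e => e ▸ hb

theorem sub_of_leq {a b : g.M} (hb : IsOrd g.E b) (h : Leq g.E a b) : Sub g.E a b :=
  fun _ hx => lt_leq hb hx h

theorem leq_of_sub {a b : g.M} (ha : IsOrd g.E a) (hb : IsOrd g.E b) (h : Sub g.E a b) :
    Leq g.E a b := leq_of_not_lt ha hb fun h' => E_irrefl _ (h b h')

/-- A transitive set of ordinals is an ordinal. -/
theorem isOrd_of_trans {a : g.M} (h₁ : ∀ x, g.E x a → IsOrd g.E x)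
    (h₂ : ∀ x y, g.E x a → g.E y x → g.E y a) : IsOrd g.E a :=
  ⟨h₂, fun x y hx hy => ord_tri (h₁ x hx) (h₁ y hy)⟩

/-- Least element principle (for arbitrary external properties). -/
theorem exists_min {Q : g.M → Prop} (h : ∃ x, Q x) : ∃ x, Q x ∧ ∀ y, g.E y x → ¬ Q y := by
  obtain ⟨x, hx, hmin⟩ := E_wf.has_min {x | Q x} h
  exact ⟨x, hx, fun y hy h' => hmin y h' hy⟩

theorem exists_sc (a : g.M) : ∃ b, ∀ z, g.E z b ↔ Leq g.E z a := by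
  obtain ⟨s, hs⟩ := exists_upair a a
  obtain ⟨p, hp⟩ := exists_upair a s
  obtain ⟨u, hu⟩ := exists_union p
  refine ⟨u, fun z => (hu z).trans ⟨?_, ?_⟩⟩
  · rintro ⟨y, h₁, h₂⟩
    rcases (hp y).1 h₂ with rfl | rfl
    · exact Or.inl h₁
    · exact Or.inr (((hs z).1 h₁).elim id id)
  · rintro (h | rfl)
    · exact ⟨a, h, (hp _).2 (Or.inl rfl)⟩
    · exact ⟨s, (hs _).2 (Or.inl rfl), (hp _).2 (Or.inr rfl)⟩

/-- The successor `a ∪ {a}`. -/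
noncomputable def sc (a : g.M) : g.M := (exists_sc a).choose

theorem E_sc {a z : g.M} : g.E z (sc a) ↔ Leq g.E z a := (exists_sc a).choose_spec z

theorem lt_sc (a : g.M) : g.E a (sc a) := E_sc.2 (leq_refl a)

@[fun_prop] theorem tm_sc {Γ : Type*} [Cd g Γ] {f : Γ → g.M} (hf : g.Tm f) :
    g.Tm (fun x => sc (f x)) :=
  tm_of_rel (Q := fun x y => ∀ z, g.E z y ↔ Leq g.E z (f x)) (by fun_prop) fun _ _ =>
    ⟨fun h => ext fun z => (h z).trans E_sc.symm, fun h _ => h ▸ E_sc⟩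

theorem isOrd_sc {a : g.M} (h : IsOrd g.E a) : IsOrd g.E (sc a) :=
  isOrd_of_trans (fun _ hx => isOrd_of_leq h (E_sc.1 hx))
    fun _ _ hx hy => E_sc.2 (Or.inl (lt_leq h hy (E_sc.1 hx)))

theorem sc_leq {a b : g.M} (hb : IsOrd g.E b) (h : g.E a b) : Leq g.E (sc a) b :=
  leq_of_sub (isOrd_sc (isOrd_of_E hb h)) hb fun _ hx => leq_lt hb (E_sc.1 hx) h

theorem sc_nat (n : ℕ) : sc (g.nat n) = g.nat (n + 1) := ext fun z => by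
  rw [E_sc, Leq, E_nat, E_nat]
  constructor
  · rintro (⟨m, hm, rfl⟩ | rfl)
    exacts [⟨m, by omega, rfl⟩, ⟨n, by omega, rfl⟩]
  · rintro ⟨m, hm, rfl⟩
    rcases Nat.lt_succ_iff_lt_or_eq.1 hm with h | rfl
    exacts [Or.inl ⟨m, h, rfl⟩, Or.inr rfl]

/-- The supremum of a set of ordinals. -/
theorem exists_sup {S : g.M} (h : ∀ x, g.E x S → IsOrd g.E x) :
    ∃ u, IsOrd g.E u ∧ ∀ z, g.E z u ↔ ∃ y, g.E z y ∧ g.E y S := by
  obtain ⟨u, hu⟩ := exists_union S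
  refine ⟨u, isOrd_of_trans (fun x hx => ?_) fun x y hx hy => ?_, hu⟩
  · obtain ⟨y, h₁, h₂⟩ := (hu x).1 hx
    exact isOrd_of_E (h y h₂) h₁
  · obtain ⟨z, h₁, h₂⟩ := (hu x).1 hx
    exact (hu y).2 ⟨z, lt_lt (h z h₂) hy h₁, h₂⟩

theorem isOrd_om : IsOrd g.E g.om :=
  isOrd_setN natWf natTri g.omega_mem fun _ _ _ _ => trivial

theorem isOrd_nat (n : ℕ) : IsOrd g.E (g.nat n) := isOrd_of_E isOrd_om (nat_om n)

theorem not_E_zero (x : g.M) : ¬ g.E x (g.nat 0) := fun h => by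
  obtain ⟨m, hm, -⟩ := E_nat.1 h
  omega

theorem eq_zero {a : g.M} (h : ∀ x, ¬ g.E x a) : a = g.nat 0 :=
  ext fun x => iff_of_false (h x) (not_E_zero x)

theorem emp_eq : g.v emp = g.nat 0 := eq_zero not_E_emp

theorem zero_leq {a : g.M} (h : IsOrd g.E a) : Leq g.E (g.nat 0) a :=
  leq_of_sub (isOrd_nat 0) h fun x hx => absurd hx (not_E_zero x)

/-- A nonempty ordinal without a largest element is at least `ω`. -/
theorem om_leq {l : g.M} (hl : IsOrd g.E l) (h₁ : ∃ x, g.E x l)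
    (h₂ : ∀ x, g.E x l → ∃ y, g.E y l ∧ g.E x y) : Leq g.E g.om l := by
  refine leq_of_sub isOrd_om hl fun x hx => ?_
  obtain ⟨n, rfl⟩ := E_om.1 hx
  clear hx
  induction n with
  | zero =>
    obtain ⟨x, hx⟩ := h₁
    exact leq_lt hl (zero_leq (isOrd_of_E hl hx)) hx
  | succ n ih =>
    obtain ⟨y, h₃, h₄⟩ := h₂ _ ih
    rw [← sc_nat]
    exact leq_lt hl (sc_leq (isOrd_of_E hl h₃) h₄) h₃

theorem inf_iff {k : g.M} (hk : IsOrd g.E k) : Inf g.E k ↔ Leq g.E g.om k := by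
  constructor
  · rintro ⟨l, h₀, h₁, h₂⟩
    exact leq_trans hk (om_leq (isOrd_of_leq hk h₀) h₁ h₂) h₀
  · refine fun h => ⟨g.om, h, ⟨_, nat_om 0⟩, fun x hx => ?_⟩
    obtain ⟨n, rfl⟩ := E_om.1 hx
    exact ⟨_, nat_om (n + 1), nat_lt.2 (Nat.lt_succ_self n)⟩

theorem inf_om : Inf g.E g.om := (inf_iff isOrd_om).2 (leq_refl _)

/-! ### Sets, relations and functions -/

theorem exists_int (a b : g.M) : ∃ c, IsInt g.E c a b :=
  tm_sep (Q := fun z => g.E z b) (by fun_prop) a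

theorem exists_pow (a : g.M) : ∃ Q, IsPow g.E Q a := exists_power a

theorem exists_prod (A B : g.M) : ∃ C, ∀ p, g.E p C ↔ ∃ a b, g.E a A ∧ g.E b B ∧ p = pr a b := by
  obtain ⟨C, hC⟩ := exists_pr_bound A B
  obtain ⟨R, hR⟩ := tm_sep (Q := fun p => ∃ a b, g.E a A ∧ g.E b B ∧ p = pr a b) (by fun_prop) C
  exact ⟨R, fun p => (hR p).trans ⟨fun h => h.2, fun ⟨a, b, ha, hb, e⟩ =>
    ⟨e ▸ hC a b ha hb, a, b, ha, hb, e⟩⟩⟩

/-- A definable relation between two sets is a set of pairs. -/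
theorem exists_rel (A B : g.M) {Q : g.M → g.M → Prop}
    (hQ : g.Tm (fun z : g.M × g.M => Q z.1 z.2)) :
    ∃ R, (∀ p, g.E p R ↔ ∃ a b, g.E a A ∧ g.E b B ∧ p = pr a b ∧ Q a b) ∧
      ∀ a b, App g.E R a b ↔ g.E a A ∧ g.E b B ∧ Q a b := by
  obtain ⟨C, hC⟩ := exists_pr_bound A B
  obtain ⟨R, hR⟩ := tm_sep (Q := fun p => ∃ a b, g.E a A ∧ g.E b B ∧ p = pr a b ∧ Q a b)
    (by fun_prop) C
  have h : ∀ p, g.E p R ↔ ∃ a b, g.E a A ∧ g.E b B ∧ p = pr a b ∧ Q a b := fun p =>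
    (hR p).trans ⟨fun h => h.2, fun ⟨a, b, ha, hb, e, h⟩ => ⟨e ▸ hC a b ha hb, a, b, ha, hb, e, h⟩⟩
  refine ⟨R, h, fun a b => ?_⟩
  rw [app_iff, h]
  constructor
  · rintro ⟨a', b', ha, hb, e, h⟩
    obtain ⟨rfl, rfl⟩ := pr_inj.1 e
    exact ⟨ha, hb, h⟩
  · exact fun h => ⟨a, b, h.1, h.2.1, rfl, h.2.2⟩

/-- A definable total relation is uniformized by a function of the model. -/
theorem exists_fun {A B : g.M} {Q : g.M → g.M → Prop}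
    (hQ : g.Tm (fun z : g.M × g.M => Q z.1 z.2)) (tot : ∀ x, g.E x A → ∃ y, g.E y B ∧ Q x y) :
    ∃ F, IsFun g.E F A B ∧ ∀ s t, App g.E F s t → Q s t := by
  obtain ⟨f, hf, h⟩ := tm_choice (Γ := g.Elt A) (Q := fun x y => g.E y B ∧ Q x.1 y)
    (tm_and (by fun_prop) (hQ.comp₂ (F := Q) (tm_val tm_id.fst) tm_id.snd)) fun x => tot x.1 x.2
  obtain ⟨F, h₁, h₂⟩ := exists_graph (Γ := g.Elt A) Df.true hf
  refine ⟨F, ⟨fun p hp => ?_, fun a ha => ⟨f ⟨a, ha⟩, (h₂ _ _).2 ⟨⟨a, ha⟩, trivial, rfl, rfl⟩,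
    fun b hb => ?_⟩⟩, fun s t hst => ?_⟩
  · obtain ⟨x, -, rfl⟩ := h₁ p hp
    exact ⟨x.1, f x, x.2, (h x).1, isPair_pr _ _⟩
  · obtain ⟨x, -, e, rfl⟩ := (h₂ _ _).1 hb
    obtain rfl : x = ⟨a, ha⟩ := Subtype.ext e.symm
    rfl
  · obtain ⟨x, -, rfl, rfl⟩ := (h₂ _ _).1 hst
    exact (h x).2

/-- The same without a bound for the values. -/
theorem exists_fun' {A : g.M} {Q : g.M → g.M → Prop}
    (hQ : g.Tm (fun z : g.M × g.M => Q z.1 z.2)) (tot : ∀ x, g.E x A → ∃ y, Q x y) :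
    ∃ F B, IsFun g.E F A B ∧ ∀ s t, App g.E F s t → Q s t := by
  obtain ⟨f, hf, h⟩ := tm_choice (Γ := g.Elt A) (Q := fun x y => Q x.1 y)
    (hQ.comp₂ (F := Q) (tm_val tm_id.fst) tm_id.snd) fun x => tot x.1 x.2
  obtain ⟨B, hB⟩ := tm_image (Γ := g.Elt A) (Q := fun _ => True) (f := f) (by fun_prop) hf
  obtain ⟨F, hF⟩ := exists_fun (A := A) (B := B) hQ fun x hx =>
    ⟨f ⟨x, hx⟩, (hB _).2 ⟨_, trivial, rfl⟩, h ⟨x, hx⟩⟩
  exact ⟨F, B, hF⟩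

theorem leC_of_rel {D a : g.M} {Q : g.M → g.M → Prop}
    (hQ : g.Tm (fun z : g.M × g.M => Q z.1 z.2)) (tot : ∀ W, g.E W D → ∃ ξ, g.E ξ a ∧ Q W ξ)
    (uniq : ∀ W W' ξ, g.E W D → g.E W' D → Q W ξ → Q W' ξ → W = W') : LeC g.E D a := by
  obtain ⟨F, h₁, h₂⟩ := exists_fun hQ tot
  exact ⟨F, h₁, fun x y b hx hy =>
    uniq x y b (fun_mem h₁ hx).1 (fun_mem h₁ hy).1 (h₂ _ _ hx) (h₂ _ _ hy)⟩

/-- A definable one-to-one correspondence gives a bijection of the model. -/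
theorem eqC_of_rel {D a : g.M} {Q : g.M → g.M → Prop}
    (hQ : g.Tm (fun z : g.M × g.M => Q z.1 z.2)) (tot : ∀ W, g.E W D → ∃ ξ, g.E ξ a ∧ Q W ξ)
    (tot' : ∀ ξ, g.E ξ a → ∃ W, g.E W D ∧ Q W ξ)
    (uniq : ∀ W W' ξ, g.E W D → g.E W' D → Q W ξ → Q W' ξ → W = W')
    (uniq' : ∀ W ξ ξ', g.E ξ a → g.E ξ' a → Q W ξ → Q W ξ' → ξ = ξ') : EqC g.E D a := by
  obtain ⟨F, h₁, h₂⟩ := exists_fun hQ tot
  refine ⟨F, ⟨h₁, fun x y b hx hy =>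
    uniq x y b (fun_mem h₁ hx).1 (fun_mem h₁ hy).1 (h₂ _ _ hx) (h₂ _ _ hy)⟩, fun y hy => ?_⟩
  obtain ⟨W, h₃, h₄⟩ := tot' y hy
  obtain ⟨b, h₅, h₆⟩ := fun_ex h₁ h₃
  exact ⟨W, uniq' W b y h₅ hy (h₂ _ _ h₆) h₄ ▸ h₆⟩

theorem leC_of_sub {A B : g.M} (h : Sub g.E A B) : LeC g.E A B :=
  leC_of_rel (Q := fun a b => a = b) (by fun_prop) (fun a ha => ⟨a, h a ha, rfl⟩)
    fun _ _ _ _ _ h₁ h₂ => h₁.trans h₂.symm

theorem leC_refl (A : g.M) : LeC g.E A A := leC_of_sub fun _ h => h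

theorem leC_trans {A B C : g.M} (h₁ : LeC g.E A B) (h₂ : LeC g.E B C) : LeC g.E A C := by
  obtain ⟨F, hF⟩ := h₁
  obtain ⟨G, hG⟩ := h₂
  exact leC_of_rel (Q := fun a c => ∃ b, App g.E F a b ∧ App g.E G b c) (by fun_prop)
    (fun a ha => by
      obtain ⟨b, hb, h₁⟩ := fun_ex hF.1 ha
      obtain ⟨c, hc, h₂⟩ := fun_ex hG.1 hb
      exact ⟨c, hc, b, h₁, h₂⟩)
    fun a a' c _ _ ⟨b, h₁, h₂⟩ ⟨b', h₃, h₄⟩ => hF.2 _ _ _ h₁ (hG.2 _ _ _ h₂ h₄ ▸ h₃)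

/-- If a definable relation maps `B` onto `A`, then `|A| ≤ |B|`. -/
theorem leC_of_onto {A B : g.M} {Q : g.M → g.M → Prop}
    (hQ : g.Tm (fun z : g.M × g.M => Q z.1 z.2)) (tot : ∀ a, g.E a A → ∃ b, g.E b B ∧ Q b a)
    (uniq : ∀ b a a', Q b a → Q b a' → a = a') : LeC g.E A B :=
  leC_of_rel (Q := fun a b => Q b a) (hQ.comp₂ (F := Q) tm_id.snd tm_id.fst) tot
    fun a a' b _ _ h h' => uniq b a a' h h'

theorem EqC.le {A B : g.M} (h : EqC g.E A B) : LeC g.E A B := h.imp fun _ h => h.1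

theorem eqC_refl (A : g.M) : EqC g.E A A :=
  eqC_of_rel (Q := fun a b => a = b) (by fun_prop) (fun a ha => ⟨a, ha, rfl⟩)
    (fun a ha => ⟨a, ha, rfl⟩) (fun _ _ _ _ _ h₁ h₂ => h₁.trans h₂.symm)
    fun _ _ _ _ _ h₁ h₂ => h₁.symm.trans h₂

theorem eqC_symm {A B : g.M} (h : EqC g.E A B) : EqC g.E B A := by
  obtain ⟨F, hF, hs⟩ := h
  exact eqC_of_rel (Q := fun b a => App g.E F a b) (by fun_prop)
    (fun b hb => (hs b hb).imp fun a ha => ⟨(fun_mem hF.1 ha).1, ha⟩)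
    (fun a ha => fun_ex hF.1 ha) (fun _ _ _ _ _ h₁ h₂ => fun_uniq hF.1 h₁ h₂)
    fun _ _ _ _ _ h₁ h₂ => hF.2 _ _ _ h₁ h₂

theorem EqC.ge {A B : g.M} (h : EqC g.E A B) : LeC g.E B A := EqC.le (eqC_symm h)

theorem eqC_trans {A B C : g.M} (h₁ : EqC g.E A B) (h₂ : EqC g.E B C) : EqC g.E A C := by
  obtain ⟨F, hF, hF'⟩ := h₁
  obtain ⟨G, hG, hG'⟩ := h₂
  exact eqC_of_rel (Q := fun a c => ∃ b, App g.E F a b ∧ App g.E G b c) (by fun_prop)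
    (fun a ha => by
      obtain ⟨b, hb, h₁⟩ := fun_ex hF.1 ha
      obtain ⟨c, hc, h₂⟩ := fun_ex hG.1 hb
      exact ⟨c, hc, b, h₁, h₂⟩)
    (fun c hc => by
      obtain ⟨b, hb⟩ := hG' c hc
      obtain ⟨a, ha⟩ := hF' b (fun_mem hG.1 hb).1
      exact ⟨a, (fun_mem hF.1 ha).1, b, ha, hb⟩)
    (fun a a' c _ _ ⟨b, h₁, h₂⟩ ⟨b', h₃, h₄⟩ => hF.2 _ _ _ h₁ (hG.2 _ _ _ h₂ h₄ ▸ h₃))
    fun a c c' _ _ ⟨b, h₁, h₂⟩ ⟨b', h₃, h₄⟩ => fun_uniq hG.1 h₂ (fun_uniq hF.1 h₃ h₁ ▸ h₄)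

theorem lt_iff {X k : g.M} : Lt g.E X k ↔ ∃ m, g.E m k ∧ LeC g.E X m :=
  ⟨fun ⟨m, f, h₁, h₂⟩ => ⟨m, h₁, f, h₂⟩, fun ⟨m, h₁, f, h₂⟩ => ⟨m, f, h₁, h₂⟩⟩

theorem lt_of_leC {X Y k : g.M} (h₁ : LeC g.E X Y) (h₂ : Lt g.E Y k) : Lt g.E X k :=
  let ⟨m, h₃, h₄⟩ := lt_iff.1 h₂
  lt_iff.2 ⟨m, h₃, leC_trans h₁ h₄⟩

/-- A cardinal that injects into an ordinal is below it. -/
theorem card_leq {l b : g.M} (hl : IsCard g.E l) (hb : IsOrd g.E b) (h : LeC g.E l b) :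
    Leq g.E l b := leq_of_not_lt hl.1 hb fun h' => hl.2 b h' h

theorem card_eq {l m : g.M} (hl : IsCard g.E l) (hm : IsCard g.E m) (h₁ : LeC g.E l m)
    (h₂ : LeC g.E m l) : l = m := leq_antisymm (card_leq hl hm.1 h₁) (card_leq hm hl.1 h₂)

/-- An infinite cardinal is closed under successor. -/
theorem sc_lt_card {l a : g.M} (hl : IsCard g.E l) (hi : Inf g.E l) (ha : g.E a l) :
    g.E (sc a) l := by
  classical
  refine (sc_leq hl.1 ha).resolve_right fun e => hl.2 a ha ?_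
  have ho := (inf_iff hl.1).1 hi
  have hoa : Leq g.E g.om a := by
    refine leq_of_not_lt isOrd_om (isOrd_of_E hl.1 ha) fun h => ?_
    obtain ⟨n, rfl⟩ := E_om.1 h
    rw [sc_nat] at e
    exact not_lt_of_leq ho (e ▸ nat_om _)
  have ha' := isOrd_of_E hl.1 ha
  subst e
  refine leC_of_rel (Q := fun x y => (x = a ∧ y = g.nat 0) ∨
    (x ≠ a ∧ g.E x g.om ∧ y = sc x) ∨ (x ≠ a ∧ ¬ g.E x g.om ∧ y = x)) (by fun_prop)
    (fun x hx => ?_) fun x x' y _ _ h h' => ?_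
  · by_cases h₁ : x = a
    · exact ⟨_, lt_leq ha' (nat_om 0) hoa, Or.inl ⟨h₁, rfl⟩⟩
    · by_cases h₂ : g.E x g.om
      · obtain ⟨n, rfl⟩ := E_om.1 h₂
        exact ⟨_, lt_leq ha' (nat_om (n + 1)) hoa, Or.inr (Or.inl ⟨h₁, h₂, (sc_nat n).symm⟩)⟩
      · exact ⟨x, (E_sc.1 hx).resolve_right h₁, Or.inr (Or.inr ⟨h₁, h₂, rfl⟩)⟩
  · have k : ∀ z, g.E z g.om → ∃ n, z = g.nat n ∧ sc z = g.nat (n + 1) := fun z hz => by
      obtain ⟨n, rfl⟩ := E_om.1 hz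
      exact ⟨n, rfl, sc_nat n⟩
    rcases h with ⟨rfl, rfl⟩ | ⟨-, h₁, rfl⟩ | ⟨-, h₁, rfl⟩ <;>
      rcases h' with ⟨rfl, h₂⟩ | ⟨-, h₂, h₃⟩ | ⟨-, h₂, h₃⟩
    · rfl
    · obtain ⟨n, -, e⟩ := k _ h₂
      exact absurd (nat_inj (h₃.trans e)) (by omega)
    · exact absurd (h₃ ▸ nat_om 0) h₂
    · obtain ⟨n, -, e⟩ := k _ h₁
      exact absurd (nat_inj (h₂.symm.trans e)) (by omega)
    · obtain ⟨n, rfl, e⟩ := k _ h₁
      obtain ⟨m, rfl, e'⟩ := k _ h₂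
      obtain rfl : n = m := by have := nat_inj (e.symm.trans (h₃.trans e')); omega
      rfl
    · obtain ⟨n, rfl, e⟩ := k _ h₁
      exact absurd (h₃ ▸ e ▸ nat_om _) h₂
    · exact absurd (h₂ ▸ nat_om 0) h₁
    · obtain ⟨n, rfl, e⟩ := k _ h₂
      exact absurd (h₃ ▸ e ▸ nat_om _) h₁
    · exact h₃

end Gen

end Pool.Agent.MP_85ce7b_lc
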