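import Pool.Agent.MP_85ce7b_lc.L.TFacts

namespace Pool.Agent.MP_85ce7b_lc

open Pool.Agent.MP_c6cf52_lc Name

universe v

section Gen

variable {M : Type v} (E : M → M → Prop)

/-- `|X| ≤ |Y|`. -/
def LeC (X Y : M) : Prop := ∃ f, IsInj E f X Y

/-- `|X| = |Y|`. -/
def EqC (X Y : M) : Prop := ∃ f, Bij E f X Y

/-- `d` is the ordinal of the model of type `δ`. -/
def Rep (d : M) (δ : Ordinal.{1}) : Prop := IsOrd E d ∧ Enum E (fun x => E x d) δ

/-- `Q` is the power set of `x`. -/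
def IsPow (Q x : M) : Prop := ∀ z, E z Q ↔ Sub E z x

/-- `c` is the intersection of `a` and `b`. -/
def IsInt (c a b : M) : Prop := ∀ z, E z c ↔ E z a ∧ E z b

/-- `S` is an unbounded subset of the ordinal `k`. -/
def Unb (S k : M) : Prop := Sub E S k ∧ ∀ x, E x k → ∃ y, E y S ∧ Leq E x y

/-- `l` is the least cardinal above `m`. -/
def IsSucc (m l : M) : Prop := IsCard E l ∧ E m l ∧ ∀ z, E m z → E z l → ¬ IsCard E z

/-- `T` tabulates the classes `Reg_{≥ e}`, `e ≤ d`, up to `x`. -/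
def Tab (T d x : M) : Prop :=
  ∀ e y, Leq E e d → Leq E y x →
    (App E T e y ↔ IsReg E y ∧ ∀ e', E e' e → ¬ SuccPt E (fun z => App E T e' z) y)

/-- First-order version of `RegGe`. -/
def RegGeI (d x : M) : Prop := IsOrd E x ∧ ∃ T, Tab E T d x ∧ App E T d x

/-- First-order version of `RegAt`. -/
def RegAtI (d x : M) : Prop := SuccPt E (fun z => RegGeI E d z) x

/-- First-order version of `Otp`. -/
def OtpI (Z d : M) : Prop :=
  ∃ f Y, IsInj E f d Y ∧ ∀ x y, App E Z x y ↔ ∃ i j, Leq E i j ∧ App E f i x ∧ App E f j y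

/-- The truth condition of `Q^α`. -/
def QQ (α : Ordinal.{1}) (X Y Z : M) : Prop :=
  ∃ l, ∃ δ < α, Cof E X l ∧ Cof E Y l ∧ Otp E Z δ ∧ RegAt E δ l

/-- The truth condition of `R^α`. -/
def RR (α : Ordinal.{1}) (X Z : M) : Prop :=
  ∃ l, ∃ δ < α, EqC E X l ∧ Otp E Z δ ∧ RegAt E δ l

end Gen

namespace UD

theorem sub (i j : ℕ) : UDef.{v} (fun _ E w => Sub E (w i) (w j)) :=
  UDef.all ((UDef.mem _ _).imp (UDef.mem _ _))

theorem leq (i j : ℕ) : UDef.{v} (fun _ E w => Leq E (w i) (w j)) :=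
  (UDef.mem _ _).or (UDef.eq _ _)

theorem bij (i j k : ℕ) : UDef.{v} (fun _ E w => Bij E (w i) (w j) (w k)) :=
  (UDef.isInj _ _ _).and (UDef.all ((UDef.mem _ _).imp (UDef.ex (UDef.app _ _ _))))

theorem leC (i j : ℕ) : UDef.{v} (fun _ E w => LeC E (w i) (w j)) := UDef.ex (UDef.isInj _ _ _)

theorem eqC (i j : ℕ) : UDef.{v} (fun _ E w => EqC E (w i) (w j)) := UDef.ex (bij _ _ _)

theorem lt (i j : ℕ) : UDef.{v} (fun _ E w => Lt E (w i) (w j)) :=
  UDef.ex (UDef.ex ((UDef.mem _ _).and (UDef.isInj _ _ _)))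

theorem isOrd (i : ℕ) : UDef.{v} (fun _ E w => IsOrd E (w i)) := by
  unfold IsOrd
  repeat' first
    | exact UDef.mem _ _ | exact UDef.eq _ _
    | apply UDef.and | apply UDef.or | apply UDef.imp | apply UDef.all

theorem isCard (i : ℕ) : UDef.{v} (fun _ E w => IsCard E (w i)) := by
  unfold IsCard
  repeat' first
    | exact UDef.mem _ _ | exact UDef.eq _ _ | exact isOrd _ | exact UDef.isInj _ _ _
    | apply UDef.and | apply UDef.not | apply UDef.imp | apply UDef.all | apply UDef.ex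

theorem hasOtp (i j : ℕ) : UDef.{v} (fun _ E w => HasOtp E (w i) (w j)) := by
  unfold HasOtp
  repeat' first
    | exact UDef.mem _ _ | exact UDef.eq _ _ | exact UDef.isFun _ _ _ | exact UDef.app _ _ _
    | apply UDef.and | apply UDef.imp | apply UDef.all | apply UDef.ex

theorem inf (i : ℕ) : UDef.{v} (fun _ E w => Inf E (w i)) := by
  unfold Inf
  repeat' first
    | exact UDef.mem _ _ | exact leq _ _
    | apply UDef.and | apply UDef.imp | apply UDef.all | apply UDef.ex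

theorem isReg (i : ℕ) : UDef.{v} (fun _ E w => IsReg E (w i)) := by
  unfold IsReg
  repeat' first
    | exact UDef.mem _ _ | exact leq _ _ | exact sub _ _ | exact isCard _ | exact inf _
    | exact UDef.isInj _ _ _
    | apply UDef.and | apply UDef.imp | apply UDef.all | apply UDef.ex

theorem isPow (i j : ℕ) : UDef.{v} (fun _ E w => IsPow E (w i) (w j)) :=
  UDef.all ((UDef.mem _ _).iff (sub _ _))

theorem isInt (i j k : ℕ) : UDef.{v} (fun _ E w => IsInt E (w i) (w j) (w k)) :=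
  UDef.all ((UDef.mem _ _).iff ((UDef.mem _ _).and (UDef.mem _ _)))

theorem unb (i j : ℕ) : UDef.{v} (fun _ E w => Unb E (w i) (w j)) :=
  (sub _ _).and (UDef.all ((UDef.mem _ _).imp (UDef.ex ((UDef.mem _ _).and (leq _ _)))))

theorem isSucc (i j : ℕ) : UDef.{v} (fun _ E w => IsSucc E (w i) (w j)) := by
  unfold IsSucc
  repeat' first
    | exact UDef.mem _ _ | exact isCard _
    | apply UDef.and | apply UDef.not | apply UDef.imp | apply UDef.all

theorem tab (i j k : ℕ) : UDef.{v} (fun _ E w => Tab E (w i) (w j) (w k)) := by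
  unfold Tab SuccPt Cl Lim
  repeat' first
    | exact UDef.mem _ _ | exact leq _ _ | exact isReg _ | exact isOrd _ | exact UDef.app _ _ _
    | apply UDef.and | apply UDef.or | apply UDef.iff | apply UDef.not | apply UDef.imp
    | apply UDef.all | apply UDef.ex

theorem regGeI (i j : ℕ) : UDef.{v} (fun _ E w => RegGeI E (w i) (w j)) :=
  (isOrd _).and (UDef.ex ((tab _ _ _).and (UDef.app _ _ _)))

theorem limReg (i j : ℕ) : UDef.{v} (fun _ E w => Lim E (fun z => RegGeI E (w i) z) (w j)) := by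
  unfold Lim
  repeat' first
    | exact UDef.mem _ _ | exact regGeI _ _
    | apply UDef.and | apply UDef.imp | apply UDef.all | apply UDef.ex

theorem clReg (i j : ℕ) : UDef.{v} (fun _ E w => Cl E (fun z => RegGeI E (w i) z) (w j)) :=
  (regGeI _ _).or ((isOrd _).and (limReg _ _))

theorem regAtI (i j : ℕ) : UDef.{v} (fun _ E w => RegAtI E (w i) (w j)) := by
  unfold RegAtI SuccPt
  repeat' first
    | exact UDef.mem _ _ | exact clReg _ _
    | apply UDef.and | apply UDef.not | apply UDef.imp | apply UDef.all | apply UDef.ex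

theorem otpI (i j : ℕ) : UDef.{v} (fun _ E w => OtpI E (w i) (w j)) := by
  unfold OtpI
  repeat' first
    | exact leq _ _ | exact UDef.isInj _ _ _ | exact UDef.app _ _ _
    | apply UDef.and | apply UDef.iff | apply UDef.all | apply UDef.ex

theorem lin (i : ℕ) : UDef.{v} (fun _ E w => Lin E (w i)) := by
  unfold Lin
  repeat' first
    | exact UDef.eq _ _ | exact UDef.app _ _ _
    | apply UDef.and | apply UDef.or | apply UDef.imp | apply UDef.all

theorem cofinal (i j : ℕ) : UDef.{v} (fun _ E w => Cofinal E (w i) (w j)) := by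
  unfold Cofinal
  repeat' first
    | exact UDef.mem _ _ | exact UDef.app _ _ _
    | apply UDef.and | apply UDef.imp | apply UDef.all | apply UDef.ex

theorem cof (i j : ℕ) : UDef.{v} (fun _ E w => Cof E (w i) (w j)) := by
  unfold Cof
  repeat' first
    | exact lin _ | exact isCard _ | exact cofinal _ _ | exact bij _ _ _ | exact UDef.isInj _ _ _
    | apply UDef.and | apply UDef.imp | apply UDef.all | apply UDef.ex

end UD

variable {P : Type 2} [Sz P] [Preorder P] [OrderTop P] [Tame P]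

namespace Gen

variable {g : Gen P} {Γ : Type*} [Cd g Γ] {f h k : Γ → g.M}

theorem tm_ud1 {S : ∀ (M : Type 3), (M → M → Prop) → M → Prop}
    (H : UDef (fun M E w => S M E (w 0))) (hf : g.Tm f) : g.Tm (fun x => S g.M g.E (f x)) :=
  (Df.udef₃ (S := fun M E a _ _ => S M E a) H hf hf hf).tm

theorem tm_ud2 {S : ∀ (M : Type 3), (M → M → Prop) → M → M → Prop}
    (H : UDef (fun M E w => S M E (w 0) (w 1))) (hf : g.Tm f) (hh : g.Tm h) :
    g.Tm (fun x => S g.M g.E (f x) (h x)) :=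
  (Df.udef₃ (S := fun M E a b _ => S M E a b) H hf hh hf).tm

theorem tm_ud3 {S : ∀ (M : Type 3), (M → M → Prop) → M → M → M → Prop}
    (H : UDef (fun M E w => S M E (w 0) (w 1) (w 2))) (hf : g.Tm f) (hh : g.Tm h) (hk : g.Tm k) :
    g.Tm (fun x => S g.M g.E (f x) (h x) (k x)) := (Df.udef₃ H hf hh hk).tm

@[fun_prop] theorem tm_sub (hf : g.Tm f) (hh : g.Tm h) : g.Tm (fun x => Sub g.E (f x) (h x)) :=
  tm_ud2 (S := fun _ E => Sub E) (UD.sub 0 1) hf hh

@[fun_prop] theorem tm_leq (hf : g.Tm f) (hh : g.Tm h) : g.Tm (fun x => Leq g.E (f x) (h x)) :=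
  tm_ud2 (S := fun _ E => Leq E) (UD.leq 0 1) hf hh

@[fun_prop] theorem tm_bij (hf : g.Tm f) (hh : g.Tm h) (hk : g.Tm k) :
    g.Tm (fun x => Bij g.E (f x) (h x) (k x)) :=
  tm_ud3 (S := fun _ E => Bij E) (UD.bij 0 1 2) hf hh hk

@[fun_prop] theorem tm_isFun (hf : g.Tm f) (hh : g.Tm h) (hk : g.Tm k) :
    g.Tm (fun x => IsFun g.E (f x) (h x) (k x)) :=
  tm_ud3 (S := fun _ E => IsFun E) (UDef.isFun 0 1 2) hf hh hk

@[fun_prop] theorem tm_isPair (hf : g.Tm f) (hh : g.Tm h) (hk : g.Tm k) :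
    g.Tm (fun x => IsPair g.E (f x) (h x) (k x)) :=
  tm_ud3 (S := fun _ E => IsPair E) (UDef.isPair 0 1 2) hf hh hk

@[fun_prop] theorem tm_leC (hf : g.Tm f) (hh : g.Tm h) : g.Tm (fun x => LeC g.E (f x) (h x)) :=
  tm_ud2 (S := fun _ E => LeC E) (UD.leC 0 1) hf hh

@[fun_prop] theorem tm_eqC (hf : g.Tm f) (hh : g.Tm h) : g.Tm (fun x => EqC g.E (f x) (h x)) :=
  tm_ud2 (S := fun _ E => EqC E) (UD.eqC 0 1) hf hh

@[fun_prop] theorem tm_lt (hf : g.Tm f) (hh : g.Tm h) : g.Tm (fun x => Lt g.E (f x) (h x)) :=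
  tm_ud2 (S := fun _ E => Lt E) (UD.lt 0 1) hf hh

@[fun_prop] theorem tm_isOrd (hf : g.Tm f) : g.Tm (fun x => IsOrd g.E (f x)) :=
  tm_ud1 (S := fun _ E => IsOrd E) (UD.isOrd 0) hf

@[fun_prop] theorem tm_isCard (hf : g.Tm f) : g.Tm (fun x => IsCard g.E (f x)) :=
  tm_ud1 (S := fun _ E => IsCard E) (UD.isCard 0) hf

@[fun_prop] theorem tm_hasOtp (hf : g.Tm f) (hh : g.Tm h) :
    g.Tm (fun x => HasOtp g.E (f x) (h x)) :=
  tm_ud2 (S := fun _ E => HasOtp E) (UD.hasOtp 0 1) hf hh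

@[fun_prop] theorem tm_inf (hf : g.Tm f) : g.Tm (fun x => Inf g.E (f x)) :=
  tm_ud1 (S := fun _ E => Inf E) (UD.inf 0) hf

@[fun_prop] theorem tm_isReg (hf : g.Tm f) : g.Tm (fun x => IsReg g.E (f x)) :=
  tm_ud1 (S := fun _ E => IsReg E) (UD.isReg 0) hf

@[fun_prop] theorem tm_isPow (hf : g.Tm f) (hh : g.Tm h) :
    g.Tm (fun x => IsPow g.E (f x) (h x)) :=
  tm_ud2 (S := fun _ E => IsPow E) (UD.isPow 0 1) hf hh

@[fun_prop] theorem tm_isInt (hf : g.Tm f) (hh : g.Tm h) (hk : g.Tm k) :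
    g.Tm (fun x => IsInt g.E (f x) (h x) (k x)) :=
  tm_ud3 (S := fun _ E => IsInt E) (UD.isInt 0 1 2) hf hh hk

@[fun_prop] theorem tm_unb (hf : g.Tm f) (hh : g.Tm h) : g.Tm (fun x => Unb g.E (f x) (h x)) :=
  tm_ud2 (S := fun _ E => Unb E) (UD.unb 0 1) hf hh

@[fun_prop] theorem tm_isSucc (hf : g.Tm f) (hh : g.Tm h) :
    g.Tm (fun x => IsSucc g.E (f x) (h x)) :=
  tm_ud2 (S := fun _ E => IsSucc E) (UD.isSucc 0 1) hf hh

@[fun_prop] theorem tm_regGeI (hf : g.Tm f) (hh : g.Tm h) :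
    g.Tm (fun x => RegGeI g.E (f x) (h x)) :=
  tm_ud2 (S := fun _ E => RegGeI E) (UD.regGeI 0 1) hf hh

@[fun_prop] theorem tm_clReg (hf : g.Tm f) (hh : g.Tm h) :
    g.Tm (fun x => Cl g.E (fun z => RegGeI g.E (f x) z) (h x)) :=
  tm_ud2 (S := fun _ E a b => Cl E (fun z => RegGeI E a z) b) (UD.clReg 0 1) hf hh

@[fun_prop] theorem tm_regAtI (hf : g.Tm f) (hh : g.Tm h) :
    g.Tm (fun x => RegAtI g.E (f x) (h x)) :=
  tm_ud2 (S := fun _ E => RegAtI E) (UD.regAtI 0 1) hf hh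

@[fun_prop] theorem tm_otpI (hf : g.Tm f) (hh : g.Tm h) : g.Tm (fun x => OtpI g.E (f x) (h x)) :=
  tm_ud2 (S := fun _ E => OtpI E) (UD.otpI 0 1) hf hh

@[fun_prop] theorem tm_lin (hf : g.Tm f) : g.Tm (fun x => Lin g.E (f x)) :=
  tm_ud1 (S := fun _ E => Lin E) (UD.lin 0) hf

@[fun_prop] theorem tm_cofinal (hf : g.Tm f) (hh : g.Tm h) :
    g.Tm (fun x => Cofinal g.E (f x) (h x)) :=
  tm_ud2 (S := fun _ E => Cofinal E) (UD.cofinal 0 1) hf hh

@[fun_prop] theorem tm_cof (hf : g.Tm f) (hh : g.Tm h) : g.Tm (fun x => Cof g.E (f x) (h x)) :=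
  tm_ud2 (S := fun _ E => Cof E) (UD.cof 0 1) hf hh

end Gen

end Pool.Agent.MP_85ce7b_lc
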