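import Pool.Agent.MP_85ce7b_lc.L.TCof

namespace Pool.Agent.MP_85ce7b_lc

open Pool.Agent.MP_c6cf52_lc

namespace Gen

variable {P : Type 2} [Sz P] [Preorder P] [OrderTop P] [Tame P] {g : Gen P}

variable {α γ : Ordinal.{1}} {k s : g.M}

theorem Facts.k_ge (F : g.Facts α γ k s) : RegGe g.E α k := by
  refine regGe_iff.2 ⟨?_, Or.inr F.top⟩
  by_contra h
  obtain ⟨c, f, h₁, h₂, h₃⟩ := cof_of_not_reg F.k_ord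
    ((inf_iff F.k_ord).2 (Or.inl (lt_lt F.k_ord F.om_s F.s_k))) h
  obtain ⟨Y, π, m, ⟨-, -, k₁, k₂, -⟩, k₃, k₄⟩ := F.core (fun i y => App g.E f i y) (by fun_prop) c h₁
  obtain ⟨i, y, e₁, e₂, e₃, e₄⟩ := h₃ m k₁
  obtain ⟨y', e₅, e₆⟩ := k₄ i (k₃ i e₁) ⟨y, e₃⟩
  exact not_lt_of_leq e₄ ((k₂ y).2 ⟨h₂ _ _ _ e₆ e₃ ▸ e₅, e₂⟩)

theorem exists_joint (L : List (g.M → g.M → g.M → g.M → Prop))
    (hL : ∀ Θ ∈ L, g.Tm (fun z : g.M × g.M × g.M × g.M => Θ z.1 z.2.1 z.2.2.1 z.2.2.2)) :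
    ∃ Ψ : ℕ → g.M × g.M × g.M × g.M → Prop,
      g.Tm (fun z : ℕ × (g.M × g.M × g.M × g.M) => Ψ z.1 z.2) ∧
      ∀ Θ ∈ L, ∃ n, ∀ a b c y, Ψ n (a, b, c, y) ↔ Θ a b c y := by
  induction L with
  | nil => exact ⟨fun _ _ => True, by fun_prop, by simp⟩
  | cons Θ L ih =>
    obtain ⟨Ψ, h₁, h₂⟩ := ih fun Θ' h => hL Θ' (List.mem_cons_of_mem _ h)
    have h₀ := hL Θ List.mem_cons_self
    refine ⟨fun n z => (n = 0 ∧ Θ z.1 z.2.1 z.2.2.1 z.2.2.2) ∨ ∃ j, n = Nat.succ j ∧ Ψ j z,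
      tm_or (tm_and (by fun_prop) (h₀.comp tm_id.snd)) (tm_ex (tm_and (by fun_prop)
        (h₁.comp₂ (F := Ψ) tm_id.snd tm_id.fst.snd))), fun Θ' h => ?_⟩
    rcases List.mem_cons.1 h with rfl | h
    · exact ⟨0, fun a b c y => by simp⟩
    · obtain ⟨n, hn⟩ := h₂ Θ' h
      exact ⟨n + 1, fun a b c y => by simp [hn]⟩

theorem Facts.core_list (F : g.Facts α γ k s) (L : List (g.M → g.M → g.M → g.M → Prop))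
    (hL : ∀ Θ ∈ L, g.Tm (fun z : g.M × g.M × g.M × g.M => Θ z.1 z.2.1 z.2.2.1 z.2.2.2))
    {ξ : g.M} (hξ : g.E ξ k) :
    ∃ Y π m, Hull g.E k g.om Y π m ∧ Sub g.E ξ Y ∧ Sub g.E s Y ∧ ∀ Θ ∈ L, Cl3 g.E Y Θ := by
  obtain ⟨Ψ, h₁, h₂⟩ := exists_joint L hL
  have hs := isOrd_of_E F.k_ord F.s_k
  obtain ⟨η, e₁, e₂, e₃⟩ : ∃ η, g.E η k ∧ Sub g.E ξ η ∧ Sub g.E s η := by
    by_cases h : g.E s ξ
    · exact ⟨ξ, hξ, fun _ h => h, sub_of_leq (isOrd_of_E F.k_ord hξ) (Or.inl h)⟩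
    · exact ⟨s, F.s_k, sub_of_leq hs (leq_of_not_lt (isOrd_of_E F.k_ord hξ) hs h), fun _ h => h⟩
  obtain ⟨Y, π, m, H, k₁, k₂⟩ := F.core (fun p y => ∃ (n : ℕ) (a b c : g.M),
    p = pr (g.nat n) (pr a (pr b c)) ∧ Ψ n (a, b, c, y))
    (tm_ex (tm_ex (tm_ex (tm_ex (tm_and (by fun_prop) (h₁.comp₂ (F := Ψ) (by fun_prop)
      (by fun_prop))))))) η e₁
  refine ⟨Y, π, m, H, fun x hx => k₁ x (e₂ x hx), fun x hx => k₁ x (e₃ x hx), fun Θ h => ?_⟩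
  obtain ⟨n, hn⟩ := h₂ Θ h
  rintro a b c ha hb hc ⟨y, hy⟩
  have hp := fun a b ha hb => H.2.2.2.2.2.2.1 a b (pr a b) ha hb (isPair_pr a b)
  obtain ⟨y', k₃, n', a', b', c', e, k₄⟩ := k₂ _ (hp _ _ (k₁ _ (e₃ _ (lt_lt hs (nat_om n) F.om_s)))
    (hp _ _ ha (hp _ _ hb hc))) ⟨y, n, a, b, c, rfl, (hn _ _ _ _).2 hy⟩
  simp only [pr_inj, nat_inj.eq_iff] at e
  obtain ⟨rfl, rfl, rfl, rfl⟩ := e
  exact ⟨y', k₃, (hn _ _ _ _).1 k₄⟩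

theorem exists_fld (Z : g.M) : ∃ F, ∀ x, g.E x F ↔ ∃ y, App g.E Z x y ∨ App g.E Z y x := by
  obtain ⟨U, hU⟩ := exists_union Z
  obtain ⟨V, hV⟩ := exists_union U
  obtain ⟨F, hF⟩ := tm_sep (Q := fun x => ∃ y, App g.E Z x y ∨ App g.E Z y x) (by fun_prop) V
  refine ⟨F, fun x => (hF x).trans (and_iff_right_of_imp ?_)⟩
  have k : ∀ a b, App g.E Z a b → g.E a V ∧ g.E b V := fun a b h => by
    obtain ⟨u, hu⟩ := exists_upair a b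
    have := (hU u).2 ⟨_, (isPair_pr a b u).2 (Or.inr hu), app_iff.1 h⟩
    exact ⟨(hV a).2 ⟨u, (hu a).2 (Or.inl rfl), this⟩, (hV b).2 ⟨u, (hu b).2 (Or.inr rfl), this⟩⟩
  rintro ⟨y, h | h⟩
  exacts [(k _ _ h).1, (k _ _ h).2]

theorem Facts.exists_hc (F : g.Facts α γ k s) (L : List (g.M → g.M → g.M → g.M → Prop))
    (hL : ∀ Θ ∈ L, g.Tm (fun z : g.M × g.M × g.M × g.M => Θ z.1 z.2.1 z.2.2.1 z.2.2.2))
    {ξ : g.M} (hξ : g.E ξ k) :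
    ∃ Y π m a, HC g α k Y π m a ∧ Sub g.E ξ Y ∧ ∀ Θ ∈ L, Cl3 g.E Y Θ := by
  obtain ⟨a, ha, ha'⟩ := F.al
  have hs := isOrd_of_E F.k_ord F.s_k
  obtain ⟨Y, π, m, H, k₁, k₂, k₃⟩ := F.core_list (
    (fun p _ _ x => ∃ y, p = pr x y) :: (fun p _ _ y => ∃ x, p = pr x y) ::
    (fun f x _ y => App g.E f x y) :: (fun f y _ x => App g.E f x y) ::
    (fun X _ _ p => ∃ l f, p = pr l f ∧ IsCard g.E l ∧ Bij g.E f X l) ::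
    (fun X _ _ p => ∃ l S f, p = pr l (pr S f) ∧ Cof g.E X l ∧ Cofinal g.E S X ∧ Bij g.E f S l) ::
    (fun X _ _ p => ∃ x y z, p = pr x (pr y z) ∧ NL g.E X x y z) ::
    (fun X S x s => g.E s S ∧ App g.E X x s) ::
    (fun X f i x => App g.E X x x ∧ ∀ s j, App g.E f s j → Leq g.E j i → ¬ App g.E X x s) ::
    (fun Z _ _ F => ∀ x, g.E x F ↔ ∃ y, App g.E Z x y ∨ App g.E Z y x) :: L) (by
      simp only [List.forall_mem_cons, NL]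
      refine ⟨?_, ?_, ?_, ?_, ?_, ?_, ?_, ?_, ?_, ?_, hL⟩ <;> fun_prop) hξ
  simp only [List.forall_mem_cons] at k₃
  obtain ⟨c₁, c₂, c₃, c₄, c₅, c₆, c₇, c₈, c₉, c₁₀, k₃⟩ := k₃
  have fst : ∀ x y, g.E (pr x y) Y → g.E x Y := fun x y h => by
    obtain ⟨x', e₁, y', e₂⟩ := c₁ _ _ _ h h h ⟨x, y, rfl⟩
    exact (pr_inj.1 e₂).1 ▸ e₁
  have snd : ∀ x y, g.E (pr x y) Y → g.E y Y := fun x y h => by
    obtain ⟨y', e₁, x', e₂⟩ := c₂ _ _ _ h h h ⟨y, x, rfl⟩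
    exact (pr_inj.1 e₂).2 ▸ e₁
  refine ⟨Y, π, m, a, ⟨H, F.k_ge, lt_lt F.k_ord F.om_s F.s_k, k₂ _ F.om_s,
    ⟨isOrd_of_E hs ha, ha'⟩, lt_lt F.k_ord ha F.s_k, k₂ _ ha, fst, snd,
    fun f x h h' => c₃ f x x h h' h', fun f x h h' => c₄ f x x h h' h', fun X h => ?_,
    fun X h h' => ?_, fun X h ⟨x, y, z, h'⟩ => ?_, c₈, c₉,
    fun Z h => c₁₀ Z Z Z h h h (exists_fld Z)⟩, k₁, k₃⟩
  · obtain ⟨l, e₁, f, e₂⟩ := exists_card X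
    obtain ⟨_, e₃, l, f, rfl, e₄⟩ := c₅ X X X h h h ⟨_, l, f, rfl, e₁, e₂⟩
    exact ⟨l, f, fst _ _ e₃, snd _ _ e₃, e₄⟩
  · obtain ⟨l, e₁⟩ := exists_cof h'
    obtain ⟨S, f, e₂⟩ := e₁.2.2.1
    obtain ⟨_, e₃, l, S, f, rfl, e₄⟩ := c₆ X X X h h h ⟨_, l, S, f, rfl, e₁, e₂⟩
    exact ⟨l, S, f, fst _ _ e₃, fst _ _ (snd _ _ e₃), snd _ _ (snd _ _ e₃), e₄⟩
  · obtain ⟨_, e₃, x, y, z, rfl, e₄⟩ := c₇ X X X h h h ⟨_, x, y, z, rfl, h'⟩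
    exact ⟨x, y, z, fst _ _ e₃, fst _ _ (snd _ _ e₃), snd _ _ (snd _ _ e₃), e₄⟩

end Gen

end Pool.Agent.MP_85ce7b_lc
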