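import Pool.Agent.MP_85ce7b_lc.L.NAuto
import Pool.Agent.MP_85ce7b_lc.L.Defs

namespace Pool.Agent.MP_85ce7b_lc

open Pool.Agent.MP_c6cf52_lc

universe u

section General

variable {M : Type u} (E : M → M → Prop)

/-- The relation `f` is single valued. -/
def Fnl (f : M) : Prop := ∀ x y y', App E f x y → App E f x y' → y = y'

/-- There is a bound below `x` above which there is no cardinal below `x`. -/
def Succ (x : M) : Prop := ∃ b, E b x ∧ ∀ z, E b z → E z x → ¬ IsCard E z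

/-- The relation `f` maps `c` cofinally into `k`. -/
def CofMap (f c k : M) : Prop :=
  ∀ x, E x k → ∃ i y, E i c ∧ E y k ∧ App E f i y ∧ Leq E x y

/-- What the collapse `π` of `Y` does at the ordinal `x`. -/
def HullAt (k Y π x y : M) : Prop :=
  App E π x y ∧ IsOrd E y ∧ (∀ z, E z y ↔ ∃ w, E w Y ∧ E w x ∧ App E π w z) ∧ (E x k → y = x) ∧
    (IsCard E x → IsCard E y) ∧
    (E k x → IsCard E x → (IsReg E x ∧ Succ E x ∧ IsReg E y ∧ Succ E y) ∨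
      (¬ IsReg E x ∧ ¬ IsReg E y))

/-- `Y` is a small hull, `π` collapses its ordinals, `m = Y ∩ k` has cofinality `w` (omega). -/
def Hull (k w Y π m : M) : Prop :=
  Lt E Y k ∧ E k Y ∧ E m k ∧ (∀ x, E x m ↔ E x Y ∧ E x k) ∧ App E π k m ∧ Fnl E π ∧
    (∀ a b p, E a Y → E b Y → IsPair E p a b → E p Y) ∧ (∃ f, Fnl E f ∧ CofMap E f w m) ∧
    ∀ x, E x Y → IsOrd E x → ∃ y, HullAt E k Y π x y

end General

namespace Gen

variable {P : Type 2} [Sz P] [Preorder P] [OrderTop P] [Tame P]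

/-- The facts about the generic model that the forcing provides. -/
structure Facts (g : Gen P) (α γ : Ordinal.{1}) (k s : g.M) : Prop where
  k_ord : IsOrd g.E k
  s_k : g.E s k
  om_s : g.E g.om s
  al : ∃ a, g.E a s ∧ Enum g.E (fun x => g.E x a) α
  core : ∀ Θ : g.M → g.M → Prop, g.Tm (fun z : g.M × g.M => Θ z.1 z.2) → ∀ ξ, g.E ξ k →
    ∃ Y π m, Hull g.E k g.om Y π m ∧ Sub g.E ξ Y ∧
      ∀ a, g.E a Y → (∃ y, Θ a y) → ∃ y, g.E y Y ∧ Θ a y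
  top : ∀ δ < α, Lim g.E (RegGe g.E δ) k
  gap : ∀ x, g.E s x → g.E x k → ¬ RegGe g.E α x
  low : Enum g.E (fun x => RegAt g.E α x ∧ Leq g.E x s) γ
  gch : ∀ m, g.E m s → IsCard g.E m → Inf g.E m → ∃ b D, IsOrd g.E b ∧
    (∀ S, Sub g.E S m → ∃ j, g.E j b ∧ ∀ i, g.E i m → (App g.E D j i ↔ g.E i S)) ∧
    ∀ c₁ c₂ c₃, IsCard g.E c₁ → IsCard g.E c₂ → IsCard g.E c₃ → g.E m c₁ → g.E c₁ c₂ →
      g.E c₂ c₃ → ¬ Leq g.E c₃ b
  fail : ∃ n₀ n₁ n₂ n₃ F, (∃ x, g.E x n₀) ∧ (∀ x, g.E x n₀ → ∃ y, g.E y n₀ ∧ g.E x y) ∧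
    g.E n₀ n₁ ∧ g.E n₁ n₂ ∧ g.E n₂ n₃ ∧ IsCard g.E n₁ ∧ IsCard g.E n₂ ∧ IsCard g.E n₃ ∧
    ∀ j j', g.E j n₃ → g.E j' n₃ → j ≠ j' →
      ∃ i, g.E i n₀ ∧ ¬ (App g.E F j i ↔ App g.E F j' i)

end Gen

end Pool.Agent.MP_85ce7b_lc
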