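import Pool.Agent.MP_85ce7b_lc.L.TRegI

namespace Pool.Agent.MP_85ce7b_lc

open Pool.Agent.MP_c6cf52_lc

section General

variable {M : Type*} (E : M → M → Prop)

/-- `x, y, z` witness that `X` is not a linear order. -/
def NL (X x y z : M) : Prop :=
  (App E X x y ∧ ¬ (App E X x x ∧ App E X y y)) ∨ (App E X x y ∧ App E X y x ∧ x ≠ y) ∨
    (App E X x y ∧ App E X y z ∧ ¬ App E X x z) ∨
    (App E X x x ∧ App E X y y ∧ ¬ App E X x y ∧ ¬ App E X y x)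

/-- `O` is the order `≤` on the set of ordinals `c`. -/
def OrdRel (O c : M) : Prop := ∀ x y, App E O x y ↔ E x c ∧ E y c ∧ Leq E x y

/-- `Y` is closed under witnesses for `Θ`. -/
def Cl3 (Y : M) (Θ : M → M → M → M → Prop) : Prop :=
  ∀ a b c, E a Y → E b Y → E c Y → (∃ y, Θ a b c y) → ∃ y, E y Y ∧ Θ a b c y

end General

namespace Gen

variable {P : Type 2} [Sz P] [Preorder P] [OrderTop P] [Tame P]

/-- A hull with the closure properties used for the upper bound. -/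
structure HC (g : Gen P) (α : Ordinal.{1}) (k Y π m a : g.M) : Prop where
  hull : Hull g.E k g.om Y π m
  k_ge : RegGe g.E α k
  om_k : g.E g.om k
  om_Y : g.E g.om Y
  a_rep : Rep g.E a α
  a_k : g.E a k
  a_Y : g.E a Y
  fst : ∀ x y, g.E (pr x y) Y → g.E x Y
  snd : ∀ x y, g.E (pr x y) Y → g.E y Y
  app : ∀ f x, g.E f Y → g.E x Y → (∃ y, App g.E f x y) → ∃ y, g.E y Y ∧ App g.E f x y
  inv : ∀ f y, g.E f Y → g.E y Y → (∃ x, App g.E f x y) → ∃ x, g.E x Y ∧ App g.E f x y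
  card : ∀ X, g.E X Y → ∃ l f, g.E l Y ∧ g.E f Y ∧ IsCard g.E l ∧ Bij g.E f X l
  cofw : ∀ X, g.E X Y → Lin g.E X → ∃ l S f, g.E l Y ∧ g.E S Y ∧ g.E f Y ∧ Cof g.E X l ∧
    Cofinal g.E S X ∧ Bij g.E f S l
  nlin : ∀ X, g.E X Y → (∃ x y z, NL g.E X x y z) →
    ∃ x y z, g.E x Y ∧ g.E y Y ∧ g.E z Y ∧ NL g.E X x y z
  up : ∀ X S x, g.E X Y → g.E S Y → g.E x Y → (∃ s, g.E s S ∧ App g.E X x s) →
    ∃ s, g.E s Y ∧ g.E s S ∧ App g.E X x s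
  above : ∀ X f i, g.E X Y → g.E f Y → g.E i Y →
    (∃ x, App g.E X x x ∧ ∀ s j, App g.E f s j → Leq g.E j i → ¬ App g.E X x s) →
    ∃ x, g.E x Y ∧ App g.E X x x ∧ ∀ s j, App g.E f s j → Leq g.E j i → ¬ App g.E X x s
  fld : ∀ Z, g.E Z Y → ∃ F, g.E F Y ∧ ∀ x, g.E x F ↔ ∃ y, App g.E Z x y ∨ App g.E Z y x

/-- What elementarity of `B` in `A` gives for the ternary relations `S r`, `r ∈ L`. -/
structure LB (g : Gen P) (α : Ordinal.{1}) (q : Bool) (L A B : g.M)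
    (S : g.M → g.M → g.M → g.M → Prop) : Prop where
  sub : Sub g.E B A
  ne : ∃ x, g.E x B
  cl : ∀ r x y, g.E r L → g.E x B → g.E y B → (∃ z, g.E z A ∧ S r x y z) →
    ∃ z, g.E z B ∧ S r x y z
  eqc : ∀ r x x' X X' Y Y', g.E r L → g.E x B → g.E x' B → Ext1 g.E A (S r x x) X →
    Ext1 g.E A (S r x' x') X' → Ext1 g.E B (S r x x) Y → Ext1 g.E B (S r x' x') Y' →
    (EqC g.E X X' ↔ EqC g.E Y Y')
  hQ : q = true → ∀ r x x' d X X' Z Y Y' W, g.E r L → g.E x B → g.E x' B → g.E d B →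
    Ext2 g.E A (S r x) X → Ext2 g.E A (S r x') X' → Ext2 g.E A (S r d) Z →
    Ext2 g.E B (S r x) Y → Ext2 g.E B (S r x') Y' → Ext2 g.E B (S r d) W →
    (QQ g.E α X X' Z ↔ QQ g.E α Y Y' W)
  hR : q = false → ∀ r r' x d X Z Y W, g.E r L → g.E r' L → g.E x B → g.E d B →
    Ext1 g.E A (S r x x) X → Ext2 g.E A (S r' d) Z → Ext1 g.E B (S r x x) Y →
    Ext2 g.E B (S r' d) W → (RR g.E α X Z ↔ RR g.E α Y W)

variable {g : Gen P}

theorem not_lin_iff {X : g.M} : ¬ Lin g.E X ↔ ∃ x y z, NL g.E X x y z := by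
  unfold Lin NL
  constructor
  · intro h
    by_contra H
    push Not at H
    refine h ⟨fun x y k => (H x y x).1 k, fun x y => (H x y x).2.1, fun x y z => (H x y z).2.2.1,
      fun x y k k' => ?_⟩
    by_contra e
    push Not at e
    exact e.2 ((H x y x).2.2.2 k k' e.1)
  · rintro ⟨x, y, z, h | h | h | h⟩ ⟨h₁, h₂, h₃, h₄⟩
    · exact h.2 (h₁ _ _ h.1)
    · exact h.2.2 (h₂ _ _ h.1 h.2.1)
    · exact h.2.2 (h₃ _ _ _ h.1 h.2.1)
    · exact (h₄ _ _ h.1 h.2.1).elim h.2.2.1 h.2.2.2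

theorem ext2_app {A X : g.M} {Φ : g.M → g.M → Prop} (h : Ext2 g.E A Φ X) (x y : g.M) :
    App g.E X x y ↔ g.E x A ∧ g.E y A ∧ Φ x y := by
  rw [app_iff, h]
  simp only [isPair_iff, pr_inj]
  exact ⟨fun ⟨_, _, h₁, h₂, ⟨e₁, e₂⟩, h₃⟩ => e₁ ▸ e₂ ▸ ⟨h₁, h₂, h₃⟩,
    fun ⟨h₁, h₂, h₃⟩ => ⟨x, y, h₁, h₂, ⟨rfl, rfl⟩, h₃⟩⟩

theorem exists_ext1 (A : g.M) {Φ : g.M → Prop} (h : g.Tm Φ) : ∃ X, Ext1 g.E A Φ X := tm_sep h A

theorem exists_ext2 (A : g.M) {Φ : g.M → g.M → Prop}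
    (h : g.Tm (fun z : g.M × g.M => Φ z.1 z.2)) : ∃ X, Ext2 g.E A Φ X := by
  obtain ⟨X, h₁, -⟩ := exists_rel A A h
  exact ⟨X, fun p => by simpa only [isPair_iff] using h₁ p⟩

theorem ext1_uniq {A X X' : g.M} {Φ : g.M → Prop} (h : Ext1 g.E A Φ X) (h' : Ext1 g.E A Φ X') :
    X = X' := ext fun x => (h x).trans (h' x).symm

theorem ext2_uniq {A X X' : g.M} {Φ : g.M → g.M → Prop} (h : Ext2 g.E A Φ X)
    (h' : Ext2 g.E A Φ X') : X = X' := ext fun x => (h x).trans (h' x).symm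

end Gen

end Pool.Agent.MP_85ce7b_lc
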