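import Pool.Agent.MP_85ce7b_lc.L.TCof

namespace Pool.Agent.MP_85ce7b_lc

open Pool.Agent.MP_c6cf52_lc

namespace Gen

variable {P : Type 2} [Sz P] [Preorder P] [OrderTop P] [Tame P] {g : Gen P}

variable {α : Ordinal.{1}} {k Y π m a : g.M}

theorem HC.pr_iff (H : HC g α k Y π m a) {x y : g.M} :
    g.E (pr x y) Y ↔ g.E x Y ∧ g.E y Y :=
  ⟨fun h => ⟨H.fst x y h, H.snd x y h⟩,
    fun h => H.hull.2.2.2.2.2.2.1 x y _ h.1 h.2 (isPair_pr x y)⟩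

theorem HC.app_int (H : HC g α k Y π m a) {X Xb : g.M} (h : IsInt g.E Xb X Y) (x y : g.M) :
    App g.E Xb x y ↔ App g.E X x y ∧ g.E x Y ∧ g.E y Y := by
  rw [app_iff, h, H.pr_iff, app_iff]

theorem HC.th_kord (H : HC g α k Y π m a) : IsOrd g.E k := H.k_ge.reg.1.1

theorem HC.th_fnl (H : HC g α k Y π m a) : Fnl g.E π := H.hull.2.2.2.2.2.1

theorem HC.th_at (H : HC g α k Y π m a) {x : g.M} (h₁ : g.E x Y) (h₂ : IsOrd g.E x) :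
    ∃ y, HullAt g.E k Y π x y := H.hull.2.2.2.2.2.2.2.2 x h₁ h₂

theorem HC.th_m (H : HC g α k Y π m a) (x : g.M) : g.E x m ↔ g.E x Y ∧ g.E x k :=
  H.hull.2.2.2.1 x

theorem HC.th_fix (H : HC g α k Y π m a) {x : g.M} (h₁ : g.E x Y) (h₂ : g.E x k) :
    App g.E π x x := by
  obtain ⟨y, hy⟩ := H.th_at h₁ (isOrd_of_E H.th_kord h₂)
  have e := hy.2.2.2.1 h₂
  subst e
  exact hy.1

theorem HC.th_mcard (H : HC g α k Y π m a) : IsCard g.E m := by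
  obtain ⟨y, hy⟩ := H.th_at H.hull.2.1 H.th_kord
  exact H.th_fnl _ _ _ hy.1 H.hull.2.2.2.2.1 ▸ hy.2.2.2.2.1 H.k_ge.reg.1

theorem HC.sub_of_lt (H : HC g α k Y π m a) {x : g.M} (h₁ : g.E x Y) (h₂ : g.E x k) :
    Sub g.E x Y := fun y hy =>
  ((H.th_m y).1 (lt_lt (isOrd_of_E H.th_kord H.hull.2.2.1) hy ((H.th_m x).2 ⟨h₁, h₂⟩))).1

theorem HC.nat_mem (H : HC g α k Y π m a) (n : ℕ) : g.E (g.nat n) Y :=
  H.sub_of_lt H.om_Y H.om_k _ (nat_om n)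

theorem HC.bar_inj (H : HC g α k Y π m a) {x x' y : g.M} (h₁ : g.E x Y) (h₂ : g.E x' Y)
    (h₃ : IsOrd g.E x) (h₄ : IsOrd g.E x') (h : App g.E π x y) (h' : App g.E π x' y) :
    x = x' := by
  have key : ∀ u u', g.E u Y → g.E u' Y → IsOrd g.E u' → App g.E π u y → App g.E π u' y →
      ¬ g.E u u' := fun u u' k₁ k₂ k₃ k₄ k₅ k₆ => by
    obtain ⟨z, hz⟩ := H.th_at k₂ k₃
    have e : z = y := H.th_fnl _ _ _ hz.1 k₅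
    subst e
    exact E_irrefl _ ((hz.2.2.1 z).2 ⟨u, k₁, k₆, k₄⟩)
  rcases ord_tri h₃ h₄ with e | e | e
  · exact absurd e (key x x' h₁ h₂ h₄ h h')
  · exact e
  · exact absurd e (key x' x h₂ h₁ h₃ h' h)

/-- The trace of a set has the collapsed cardinality. -/
theorem HC.bar_eqC (H : HC g α k Y π m a) {X Xb f l lb : g.M} (hf : g.E f Y) (hl : g.E l Y)
    (ho : IsOrd g.E l) (hb : Bij g.E f X l) (h : HullAt g.E k Y π l lb)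
    (hX : IsInt g.E Xb X Y) : EqC g.E Xb lb := by
  have _ := hl
  refine eqC_of_rel (Q := fun x z => ∃ w, g.E w Y ∧ App g.E f x w ∧ App g.E π w z) (by fun_prop)
    (fun x hx => ?_) (fun z hz => ?_) ?_ ?_
  · obtain ⟨k₁, k₂⟩ := (hX x).1 hx
    obtain ⟨b, -, k₃⟩ := fun_ex hb.1.1 k₁
    obtain ⟨w, k₄, k₅⟩ := H.app f x hf k₂ ⟨b, k₃⟩
    have k₆ := (fun_mem hb.1.1 k₅).2
    obtain ⟨z, hz⟩ := H.th_at k₄ (isOrd_of_E ho k₆)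
    exact ⟨z, (h.2.2.1 z).2 ⟨w, k₄, k₆, hz.1⟩, w, k₄, k₅, hz.1⟩
  · obtain ⟨w, k₁, k₂, k₃⟩ := (h.2.2.1 z).1 hz
    obtain ⟨x, k₄, k₅⟩ := H.inv f w hf k₁ (hb.2 w k₂)
    exact ⟨x, (hX x).2 ⟨(fun_mem hb.1.1 k₅).1, k₄⟩, w, k₁, k₅, k₃⟩
  · rintro x x' z - - ⟨w, k₁, k₂, k₃⟩ ⟨w', k₄, k₅, k₆⟩
    have e := H.bar_inj k₁ k₄ (isOrd_of_E ho (fun_mem hb.1.1 k₂).2)
      (isOrd_of_E ho (fun_mem hb.1.1 k₅).2) k₃ k₆
    subst e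
    exact hb.1.2 _ _ _ k₂ k₅
  · rintro x z z' - - ⟨w, -, k₂, k₃⟩ ⟨w', -, k₅, k₆⟩
    have e := fun_uniq hb.1.1 k₂ k₅
    subst e
    exact H.th_fnl _ _ _ k₃ k₆

theorem th_card_uniq {X l l' : g.M} (hl : IsCard g.E l) (hl' : IsCard g.E l') (h : EqC g.E X l)
    (h' : EqC g.E X l') : l = l' :=
  card_eq hl hl' (leC_trans (EqC.ge h) (EqC.le h')) (leC_trans (EqC.ge h') (EqC.le h))

theorem th_eqC_iff {X X' l l' : g.M} (hl : IsCard g.E l) (hl' : IsCard g.E l') (h : EqC g.E X l)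
    (h' : EqC g.E X' l') : EqC g.E X X' ↔ l = l' :=
  ⟨fun e => th_card_uniq hl hl' h (eqC_trans e h'), fun e => eqC_trans h (e ▸ eqC_symm h')⟩

theorem HC.eqC_iff (H : HC g α k Y π m a) {X X' Xb Xb' : g.M} (h₁ : g.E X Y) (h₂ : g.E X' Y)
    (h₃ : IsInt g.E Xb X Y) (h₄ : IsInt g.E Xb' X' Y) : EqC g.E X X' ↔ EqC g.E Xb Xb' := by
  obtain ⟨l, f, k₁, k₂, k₃, k₄⟩ := H.card X h₁
  obtain ⟨l', f', j₁, j₂, j₃, j₄⟩ := H.card X' h₂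
  obtain ⟨lb, hb⟩ := H.th_at k₁ k₃.1
  obtain ⟨lb', hb'⟩ := H.th_at j₁ j₃.1
  rw [th_eqC_iff k₃ j₃ ⟨f, k₄⟩ ⟨f', j₄⟩, th_eqC_iff (hb.2.2.2.2.1 k₃) (hb'.2.2.2.2.1 j₃)
    (H.bar_eqC k₂ k₁ k₃.1 k₄ hb h₃) (H.bar_eqC j₂ j₁ j₃.1 j₄ hb' h₄)]
  exact ⟨fun e => H.th_fnl _ _ _ hb.1 (e ▸ hb'.1),
    fun e => H.bar_inj k₁ j₁ k₃.1 j₃.1 hb.1 (e ▸ hb'.1)⟩

theorem HC.regAt_bar (H : HC g α k Y π m a) {l lb : g.M} (hl : g.E l Y) (hc : IsCard g.E l)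
    (h : HullAt g.E k Y π l lb) {δ : Ordinal.{1}} (hδ : δ < α) :
    RegAt g.E δ l ↔ RegAt g.E δ lb := by
  have _ := hl
  rcases ord_tri hc.1 H.th_kord with e | e | e
  · rw [h.2.2.2.1 e]
  · subst e
    have e : lb = m := H.th_fnl _ _ _ h.1 H.hull.2.2.2.2.1
    subst e
    obtain ⟨f, f₁, f₂⟩ := H.hull.2.2.2.2.2.2.2.1
    exact iff_of_false (((regGe_def _ _ _).1 H.k_ge).2 δ hδ) fun k =>
      not_reg_of_cof ((H.th_m _).2 ⟨H.om_Y, H.om_k⟩) f₁ f₂ (RegAt.reg k)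
  · rcases h.2.2.2.2.2 e hc with ⟨k₁, k₂, k₃, k₄⟩ | ⟨k₁, k₂⟩
    · have o := lt_lt hc.1 H.om_k e
      rw [regAt_succ k₁ k₂ o, regAt_succ k₃ k₄
        ((h.2.2.1 _).2 ⟨_, H.om_Y, o, H.th_fix H.om_Y H.om_k⟩)]
    · exact iff_of_false (fun k => k₁ (RegAt.reg k)) fun k => k₂ (RegAt.reg k)

theorem th_fld_le {Z F d : g.M} (h : OtpI g.E Z d)
    (hF : ∀ x, g.E x F → ∃ y, App g.E Z x y ∨ App g.E Z y x) : LeC g.E F d := by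
  obtain ⟨e, W, he, hZ⟩ := h
  refine leC_of_onto (Q := fun i x => App g.E e i x) (by fun_prop) (fun x hx => ?_)
    fun _ _ _ k k' => fun_uniq he.1 k k'
  obtain ⟨y, k | k⟩ := hF x hx
  · obtain ⟨i, j, -, k₁, -⟩ := (hZ _ _).1 k
    exact ⟨i, (fun_mem he.1 k₁).1, k₁⟩
  · obtain ⟨i, j, -, -, k₁⟩ := (hZ _ _).1 k
    exact ⟨j, (fun_mem he.1 k₁).1, k₁⟩

theorem HC.otpI_bar (H : HC g α k Y π m a) {Z Zb d : g.M} (h₁ : g.E Z Y) (h₂ : IsInt g.E Zb Z Y)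
    (hd : g.E d a) : OtpI g.E Z d ↔ OtpI g.E Zb d := by
  obtain ⟨F, hFY, hF⟩ := H.fld Z h₁
  obtain ⟨l, f, k₁, k₂, k₃, k₄⟩ := H.card F hFY
  have dk : g.E d k := lt_lt H.th_kord hd H.a_k
  by_cases hl : g.E l k
  · have sF : Sub g.E F Y := fun x hx => by
      obtain ⟨b, b₁, b₂⟩ := fun_ex k₄.1.1 hx
      obtain ⟨x', x₁, x₂⟩ := H.inv f b k₂ (H.sub_of_lt k₁ hl b b₁) ⟨x, b₂⟩
      exact k₄.1.2 _ _ _ x₂ b₂ ▸ x₁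
    have e : ∀ x y, App g.E Zb x y ↔ App g.E Z x y := fun x y =>
      (H.app_int h₂ x y).trans (and_iff_left_of_imp fun h =>
        ⟨sF x ((hF x).2 ⟨y, Or.inl h⟩), sF y ((hF y).2 ⟨x, Or.inr h⟩)⟩)
    unfold OtpI
    simp only [e]
  · have kl : Leq g.E k l := leq_of_not_lt H.th_kord k₃.1 hl
    refine iff_of_false (fun h => ?_) fun h => ?_
    · exact k₃.2 d (lt_leq k₃.1 dk kl)
        (leC_trans (EqC.ge ⟨f, k₄⟩) (th_fld_le h fun x hx => (hF x).1 hx))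
    · obtain ⟨Fb, hFb⟩ := exists_int F Y
      obtain ⟨lb, hb⟩ := H.th_at k₁ k₃.1
      have e₁ : LeC g.E Fb d := th_fld_le h fun x hx => by
        obtain ⟨x₁, x₂⟩ := (hFb x).1 hx
        obtain ⟨y, k | k⟩ := (hF x).1 x₁
        · obtain ⟨y', y₁, y₂⟩ := H.app Z x h₁ x₂ ⟨y, k⟩
          exact ⟨y', Or.inl ((H.app_int h₂ _ _).2 ⟨y₂, x₂, y₁⟩)⟩
        · obtain ⟨y', y₁, y₂⟩ := H.inv Z x h₁ x₂ ⟨y, k⟩
          exact ⟨y', Or.inr ((H.app_int h₂ _ _).2 ⟨y₂, y₁, x₂⟩)⟩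
      have e₂ : Sub g.E m lb := fun z hz => by
        obtain ⟨z₁, z₂⟩ := (H.th_m z).1 hz
        exact (hb.2.2.1 z).2 ⟨z, z₁, lt_leq k₃.1 z₂ kl, H.th_fix z₁ z₂⟩
      exact H.th_mcard.2 d ((H.th_m d).2 ⟨H.sub_of_lt H.a_Y H.a_k d hd, dk⟩)
        (leC_trans (leC_of_sub e₂) (leC_trans (EqC.ge (H.bar_eqC k₂ k₁ k₃.1 k₄ hb hFb)) e₁))

theorem HC.rr_bar (H : HC g α k Y π m a) {X Z Xb Zb : g.M} (h₁ : g.E X Y) (h₂ : g.E Z Y)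
    (h₃ : IsInt g.E Xb X Y) (h₄ : IsInt g.E Zb Z Y) : RR g.E α X Z ↔ RR g.E α Xb Zb := by
  obtain ⟨l, f, k₁, k₂, k₃, k₄⟩ := H.card X h₁
  obtain ⟨lb, hb⟩ := H.th_at k₁ k₃.1
  have eb := H.bar_eqC k₂ k₁ k₃.1 k₄ hb h₃
  rw [rr_iff H.a_rep, rr_iff H.a_rep]
  constructor
  · rintro ⟨l', j₁, d, j₂, j₃, j₄⟩
    obtain ⟨δ, hδ, rd⟩ := rep_mem H.a_rep j₂
    have r := (regAtI_iff rd).1 j₄
    have e : l' = l := th_card_uniq (RegAt.reg r).1 k₃ j₁ ⟨f, k₄⟩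
    subst e
    exact ⟨lb, eb, d, j₂, (H.otpI_bar h₂ h₄ j₂).1 j₃,
      (regAtI_iff rd).2 ((H.regAt_bar k₁ k₃ hb hδ).1 r)⟩
  · rintro ⟨l', j₁, d, j₂, j₃, j₄⟩
    obtain ⟨δ, hδ, rd⟩ := rep_mem H.a_rep j₂
    have r := (regAtI_iff rd).1 j₄
    have e : l' = lb := th_card_uniq (RegAt.reg r).1 (hb.2.2.2.2.1 k₃) j₁ eb
    subst e
    exact ⟨l, ⟨f, k₄⟩, d, j₂, (H.otpI_bar h₂ h₄ j₂).2 j₃,
      (regAtI_iff rd).2 ((H.regAt_bar k₁ k₃ hb hδ).2 r)⟩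

end Gen

end Pool.Agent.MP_85ce7b_lc
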