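import Pool.Agent.MP_85ce7b_lc.L.THull

namespace Pool.Agent.MP_85ce7b_lc

open Pool.Agent.MP_c6cf52_lc

namespace Gen

variable {P : Type 2} [Sz P] [Preorder P] [OrderTop P] [Tame P] {g : Gen P}

variable {α : Ordinal.{1}} {k Y π m a : g.M}

theorem HC.th2_lin (H : HC g α k Y π m a) {X Xb : g.M} (h₁ : g.E X Y) (h : IsInt g.E Xb X Y) :
    Lin g.E X ↔ Lin g.E Xb := by
  constructor
  · rintro ⟨l₁, l₂, l₃, l₄⟩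
    simp only [Lin, H.app_int h]
    exact ⟨fun x y e => ⟨⟨(l₁ x y e.1).1, e.2.1, e.2.1⟩, (l₁ x y e.1).2, e.2.2, e.2.2⟩,
      fun x y e e' => l₂ x y e.1 e'.1, fun x y z e e' => ⟨l₃ x y z e.1 e'.1, e.2.1, e'.2.2⟩,
      fun x y e e' => (l₄ x y e.1 e'.1).imp (fun u => ⟨u, e.2.1, e'.2.1⟩)
        fun u => ⟨u, e'.2.1, e.2.1⟩⟩
  · intro hb
    by_contra hn
    obtain ⟨x, y, z, hx, hy, hz, e⟩ := H.nlin X h₁ (not_lin_iff.1 hn)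
    refine not_lin_iff.2 ⟨x, y, z, ?_⟩ hb
    simpa only [NL, H.app_int h, hx, hy, hz, and_true] using e

/-- The trace of a cofinal set in the hull is cofinal in the trace. -/
theorem HC.th2_cofinal (H : HC g α k Y π m a) {X Xb S Sb : g.M} (h₁ : g.E X Y) (h₂ : g.E S Y)
    (h : IsInt g.E Xb X Y) (h' : IsInt g.E Sb S Y) (hS : Cofinal g.E S X) :
    Cofinal g.E Sb Xb := by
  refine ⟨fun s hs => ?_, fun x hx => ?_⟩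
  · obtain ⟨s₁, s₂⟩ := (h' s).1 hs
    exact (H.app_int h _ _).2 ⟨hS.1 s s₁, s₂, s₂⟩
  · obtain ⟨x₁, x₂, -⟩ := (H.app_int h _ _).1 hx
    obtain ⟨s, s₁, s₂, s₃⟩ := H.up X S x h₁ h₂ x₂ (hS.2 x x₁)
    exact ⟨s, (h' s).2 ⟨s₂, s₁⟩, (H.app_int h _ _).2 ⟨s₃, x₂, s₁⟩⟩

theorem HC.th2_low (H : HC g α k Y π m a) {X Xb l S f : g.M} (h₁ : g.E X Y)
    (h : IsInt g.E Xb X Y) (hl : g.E l Y) (hf : g.E f Y) (hc : Cof g.E X l)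
    (hS : Cofinal g.E S X) (hb : Bij g.E f S l) (hk : g.E l k) : Cof g.E Xb l := by
  have sS : Sub g.E S Y := fun x hx => by
    obtain ⟨b, b₁, b₂⟩ := fun_ex hb.1.1 hx
    obtain ⟨x', x₁, x₂⟩ := H.inv f b hf (H.sub_of_lt hl hk b b₁) ⟨x, b₂⟩
    exact hb.1.2 _ _ _ x₂ b₂ ▸ x₁
  refine ⟨(H.th2_lin h₁ h).1 hc.1, hc.2.1, ⟨S, f, ⟨fun s hs => ?_, fun x hx => ?_⟩, hb⟩,
    fun S' hS' => hc.2.2.2 S' ⟨fun s hs => ((H.app_int h _ _).1 (hS'.1 s hs)).1, fun x hx => ?_⟩⟩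
  · exact (H.app_int h _ _).2 ⟨hS.1 s hs, sS s hs, sS s hs⟩
  · obtain ⟨x₁, x₂, -⟩ := (H.app_int h _ _).1 hx
    obtain ⟨s, s₁, s₂⟩ := hS.2 x x₁
    exact ⟨s, s₁, (H.app_int h _ _).2 ⟨s₂, x₂, sS s s₁⟩⟩
  · obtain ⟨s, s₁, s₂⟩ := hS.2 x hx
    obtain ⟨s', t₁, t₂⟩ := hS'.2 s ((H.app_int h _ _).2 ⟨hS.1 s s₁, sS s s₁, sS s s₁⟩)
    exact ⟨s', t₁, hc.1.2.2.1 _ _ _ s₂ ((H.app_int h _ _).1 t₂).1⟩

theorem HC.th2_high (H : HC g α k Y π m a) {X Xb l lb S f : g.M} (h₁ : g.E X Y)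
    (h : IsInt g.E Xb X Y) (hl : g.E l Y) (hSY : g.E S Y) (hf : g.E f Y) (hc : Cof g.E X l)
    (hS : Cofinal g.E S X) (hb : Bij g.E f S l) (hh : HullAt g.E k Y π l lb) (hk : g.E k l) :
    Cof g.E Xb lb := by
  have lo : IsOrd g.E l := hc.2.1.1
  have li : Inf g.E l := (inf_iff lo).2 (Or.inl (lt_lt lo H.om_k hk))
  have rb : IsReg g.E lb := by
    rcases hh.2.2.2.2.2 hk hc.2.1 with e | e
    · exact e.2.2.1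
    · exact absurd (cof_reg hc li) e.1
  obtain ⟨Sb, hSb⟩ := exists_int S Y
  have cb := H.th2_cofinal h₁ hSY h hSb hS
  obtain ⟨fb, hfb⟩ := H.bar_eqC hf hl lo hb hh hSb
  refine ⟨(H.th2_lin h₁ h).1 hc.1, rb.1, ⟨Sb, fb, cb, hfb⟩, fun S' hS' => ?_⟩
  obtain ⟨F, F₁, F₂⟩ := exists_fun (A := S') (B := lb)
    (Q := fun s' z => ∃ j s, g.E j Y ∧ App g.E π j z ∧ App g.E f s j ∧ App g.E X s' s)
    (by fun_prop) fun s' hs' => by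
      obtain ⟨s, s₁, s₂⟩ := cb.2 s' (hS'.1 s' hs')
      obtain ⟨s₃, s₄⟩ := (hSb s).1 s₁
      obtain ⟨b, -, b₂⟩ := fun_ex hb.1.1 s₃
      obtain ⟨j, j₁, j₂⟩ := H.app f s hf s₄ ⟨b, b₂⟩
      have j₃ := (fun_mem hb.1.1 j₂).2
      obtain ⟨z, hz⟩ := H.th_at j₁ (isOrd_of_E lo j₃)
      exact ⟨z, (hh.2.2.1 z).2 ⟨j, j₁, j₃, hz.1⟩, j, s, j₁, hz.1, j₂, ((H.app_int h _ _).1 s₂).1⟩
  obtain ⟨C, hC⟩ := tm_sep (Q := fun z => ∃ s', App g.E F s' z) (by fun_prop) lb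
  have e₁ : LeC g.E lb C := rb.2.2 C (fun z hz => ((hC z).1 hz).1) fun z₀ hz₀ => by
    obtain ⟨i, i₁, i₂, i₃⟩ := (hh.2.2.1 z₀).1 hz₀
    obtain ⟨x, x₁, x₂, x₃⟩ := H.above X f i h₁ hf i₁ (cof_above hc li hS hb i₂)
    obtain ⟨s', t₁, t₂⟩ := hS'.2 x ((H.app_int h _ _).2 ⟨x₂, x₁, x₁⟩)
    obtain ⟨z, z₁, z₂⟩ := fun_ex F₁ t₁
    obtain ⟨j, s, j₁, j₂, j₃, j₄⟩ := F₂ _ _ z₂
    have jo : IsOrd g.E j := isOrd_of_E lo (fun_mem hb.1.1 j₃).2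
    have ij : g.E i j := lt_of_not_leq (isOrd_of_E lo i₂) jo fun e =>
      x₃ s j j₃ e (hc.1.2.2.1 _ _ _ ((H.app_int h _ _).1 t₂).1 j₄)
    obtain ⟨y, hy⟩ := H.th_at j₁ jo
    have e : y = z := H.th_fnl _ _ _ hy.1 j₂
    subst e
    exact ⟨y, (hC y).2 ⟨z₁, s', z₂⟩, Or.inl ((hy.2.2.1 z₀).2 ⟨i, i₁, ij, i₃⟩)⟩
  have e₂ : LeC g.E C S' := leC_of_onto (Q := fun s' z => App g.E F s' z) (by fun_prop)
    (fun z hz => by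
      obtain ⟨s', hs'⟩ := ((hC z).1 hz).2
      exact ⟨s', (fun_mem F₁ hs').1, hs'⟩) fun _ _ _ u u' => fun_uniq F₁ u u'
  exact leC_trans e₁ e₂

theorem HC.th2_mid (H : HC g α k Y π m a) {X Xb l S f : g.M} (h₁ : g.E X Y)
    (h : IsInt g.E Xb X Y) (hSY : g.E S Y) (hf : g.E f Y) (hc : Cof g.E X k)
    (hS : Cofinal g.E S X) (hb : Bij g.E f S k) (hl : Cof g.E Xb l) : LeC g.E l g.om := by
  have ki : Inf g.E k := H.k_ge.reg.2.1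
  obtain ⟨u, u₁, u₂⟩ := H.hull.2.2.2.2.2.2.2.1
  have key : ∀ i, g.E i Y → g.E i k → ∃ x, g.E x Y ∧ App g.E X x x ∧
      ∀ s j, App g.E f s j → Leq g.E j i → ¬ App g.E X x s := fun i i₁ i₂ =>
    H.above X f i h₁ hf i₁ (cof_above hc ki hS hb i₂)
  obtain ⟨F, F₁, F₂⟩ := exists_fun (A := g.om) (B := Y)
    (Q := fun n x => App g.E X x x ∧ ∀ i s j, App g.E u n i → g.E i m → App g.E f s j →
      Leq g.E j i → ¬ App g.E X x s) (by fun_prop) fun n _ => by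
      by_cases e : ∃ i, App g.E u n i ∧ g.E i m
      · obtain ⟨i, i₁, i₂⟩ := e
        obtain ⟨x, x₁, x₂, x₃⟩ := key i ((H.th_m i).1 i₂).1 ((H.th_m i).1 i₂).2
        refine ⟨x, x₁, x₂, fun i' s j k₁ _ k₃ k₄ => x₃ s j k₃ ?_⟩
        exact u₁ _ _ _ k₁ i₁ ▸ k₄
      · obtain ⟨x, x₁, x₂, -⟩ := key (g.nat 0) (H.nat_mem 0) (lt_lt H.th_kord (nat_om 0) H.om_k)
        exact ⟨x, x₁, x₂, fun i s j k₁ k₂ => absurd ⟨i, k₁, k₂⟩ e⟩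
  obtain ⟨T, hT⟩ := tm_sep (Q := fun x => ∃ n, App g.E F n x) (by fun_prop) Y
  have e₁ : LeC g.E l T := hl.2.2.2 T ⟨fun x hx => ?_, fun x hx => ?_⟩
  · exact leC_trans e₁ (leC_of_onto (Q := fun n x => App g.E F n x) (by fun_prop)
      (fun x hx => by
        obtain ⟨n, hn⟩ := ((hT x).1 hx).2
        exact ⟨n, (fun_mem F₁ hn).1, hn⟩) fun _ _ _ v v' => fun_uniq F₁ v v')
  · obtain ⟨x₁, n, hn⟩ := (hT x).1 hx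
    exact (H.app_int h _ _).2 ⟨(F₂ _ _ hn).1, x₁, x₁⟩
  · obtain ⟨x₁, x₂, -⟩ := (H.app_int h _ _).1 hx
    obtain ⟨s, s₁, s₂, s₃⟩ := H.up X S x h₁ hSY x₂ (hS.2 x x₁)
    obtain ⟨b, -, b₂⟩ := fun_ex hb.1.1 s₂
    obtain ⟨j, j₁, j₂⟩ := H.app f s hf s₁ ⟨b, b₂⟩
    obtain ⟨n, i, n₁, i₁, i₂, i₃⟩ := u₂ j ((H.th_m j).2 ⟨j₁, (fun_mem hb.1.1 j₂).2⟩)
    obtain ⟨y, y₁, y₂⟩ := fun_ex F₁ n₁
    have y₃ := F₂ _ _ y₂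
    have y₄ : App g.E X s y :=
      (hc.1.2.2.2 s y (hS.1 s s₂) y₃.1).resolve_right (y₃.2 i s j i₂ i₁ j₂ i₃)
    exact ⟨y, (hT y).2 ⟨y₁, n, y₂⟩, (H.app_int h _ _).2 ⟨hc.1.2.2.1 _ _ _ s₃ y₄, x₂, y₁⟩⟩

/-- The cofinality of the trace of a linear order in the hull. -/
theorem HC.th2_cof (H : HC g α k Y π m a) {X Xb : g.M} (h₁ : g.E X Y) (h : IsInt g.E Xb X Y)
    (hX : Lin g.E X) : ∃ l lb, g.E l Y ∧ Cof g.E X l ∧ HullAt g.E k Y π l lb ∧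
      (l ≠ k → Cof g.E Xb lb) ∧ (l = k → ∀ l', Cof g.E Xb l' → LeC g.E l' g.om) := by
  obtain ⟨l, S, f, k₁, k₂, k₃, k₄, k₅, k₆⟩ := H.cofw X h₁ hX
  obtain ⟨lb, hb⟩ := H.th_at k₁ k₄.2.1.1
  refine ⟨l, lb, k₁, k₄, hb, fun e => ?_, fun e l' hl' => ?_⟩
  · rcases ord_tri k₄.2.1.1 H.th_kord with e' | e' | e'
    · rw [hb.2.2.2.1 e']
      exact H.th2_low h₁ h k₁ k₃ k₄ k₅ k₆ e'
    · exact absurd e' e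
    · exact H.th2_high h₁ h k₁ k₂ k₃ k₄ k₅ k₆ hb e'
  · subst e
    exact H.th2_mid h₁ h k₂ k₃ k₄ k₅ k₆ hl'

theorem HC.qq_bar (H : HC g α k Y π m a) {X X' Z Xb Xb' Zb : g.M} (h₁ : g.E X Y)
    (h₂ : g.E X' Y) (h₃ : g.E Z Y) (h₄ : IsInt g.E Xb X Y) (h₅ : IsInt g.E Xb' X' Y)
    (h₆ : IsInt g.E Zb Z Y) : QQ g.E α X X' Z ↔ QQ g.E α Xb Xb' Zb := by
  rw [qq_iff H.a_rep, qq_iff H.a_rep]
  constructor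
  · rintro ⟨l₀, c₁, c₂, d, j₂, j₃, j₄⟩
    obtain ⟨δ, hδ, rd⟩ := rep_mem H.a_rep j₂
    have r := (regAtI_iff rd).1 j₄
    obtain ⟨l, lb, k₁, k₂, k₃, k₄, -⟩ := H.th2_cof h₁ h₄ c₁.1
    obtain ⟨l', lb', n₁, n₂, n₃, n₄, -⟩ := H.th2_cof h₂ h₅ c₂.1
    obtain rfl : l₀ = l := cof_uniq c₁ k₂
    obtain rfl : l₀ = l' := cof_uniq c₂ n₂
    obtain rfl : lb = lb' := H.th_fnl _ _ _ k₃.1 n₃.1
    have ne : l₀ ≠ k := fun e => ((regGe_def _ _ _).1 H.k_ge).2 δ hδ (e ▸ r)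
    exact ⟨lb, k₄ ne, n₄ ne, d, j₂, (H.otpI_bar h₃ h₆ j₂).1 j₃,
      (regAtI_iff rd).2 ((H.regAt_bar k₁ c₁.2.1 k₃ hδ).1 r)⟩
  · rintro ⟨l₀, c₁, c₂, d, j₂, j₃, j₄⟩
    obtain ⟨δ, hδ, rd⟩ := rep_mem H.a_rep j₂
    have r := (regAtI_iff rd).1 j₄
    have no : ¬ LeC g.E l₀ g.om := fun e =>
      not_lt_of_leq (card_leq c₁.2.1 isOrd_om e) (RegAt.om_lt r)
    obtain ⟨l, lb, k₁, k₂, k₃, k₄, k₅⟩ := H.th2_cof h₁ h₄ ((H.th2_lin h₁ h₄).2 c₁.1)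
    obtain ⟨l', lb', n₁, n₂, n₃, n₄, n₅⟩ := H.th2_cof h₂ h₅ ((H.th2_lin h₂ h₅).2 c₂.1)
    obtain rfl : l₀ = lb := cof_uniq c₁ (k₄ fun e => no (k₅ e _ c₁))
    obtain rfl : l₀ = lb' := cof_uniq c₂ (n₄ fun e => no (n₅ e _ c₂))
    obtain rfl : l = l' := H.bar_inj k₁ n₁ k₂.2.1.1 n₂.2.1.1 k₃.1 n₃.1
    exact ⟨l, k₂, n₂, d, j₂, (H.otpI_bar h₃ h₆ j₂).2 j₃,
      (regAtI_iff rd).2 ((H.regAt_bar k₁ k₂.2.1 k₃ hδ).2 r)⟩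

end Gen

end Pool.Agent.MP_85ce7b_lc
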