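import Pool.Agent.MP_85ce7b_lc.L.THC

namespace Pool.Agent.MP_85ce7b_lc

open Pool.Agent.MP_c6cf52_lc

namespace Gen

variable {P : Type 2} [Sz P] [Preorder P] [OrderTop P] [Tame P] {g : Gen P}

theorem tup3_iff {x y z t : g.M} :
    Tup g.E [x, y, z] t ↔ t = pr x (pr y (pr z (g.nat 0))) := by
  simp only [Tup, isPair_iff]
  constructor
  · rintro ⟨_, ⟨_, ⟨e, h, rfl⟩, rfl⟩, rfl⟩
    rw [eq_zero h]
  · rintro rfl
    exact ⟨_, ⟨_, ⟨_, not_E_zero, rfl⟩, rfl⟩, rfl⟩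

theorem ext1_congr {C X : g.M} {Φ Ψ : g.M → Prop} (h : ∀ x, g.E x C → (Φ x ↔ Ψ x)) :
    Ext1 g.E C Φ X ↔ Ext1 g.E C Ψ X :=
  forall_congr' fun x => iff_congr Iff.rfl (and_congr_right (h x))

theorem ext2_congr {C X : g.M} {Φ Ψ : g.M → g.M → Prop}
    (h : ∀ x y, g.E x C → g.E y C → (Φ x y ↔ Ψ x y)) : Ext2 g.E C Φ X ↔ Ext2 g.E C Ψ X :=
  forall_congr' fun _ => iff_congr Iff.rfl (exists₂_congr fun x y => and_congr_right fun hx =>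
    and_congr_right fun hy => and_congr_right fun _ => h x y hx hy)

theorem exists_lb {α : Ordinal.{1}} {q : Bool} {m L A : g.M} {S : g.M → g.M → g.M → g.M → Prop}
    (hS : g.Tm (fun z : g.M × g.M × g.M × g.M => S z.1 z.2.1 z.2.2.1 z.2.2.2))
    (hA : ∃ x, g.E x A) (hW : Works g.E α q m) (hL : Lt g.E L m) :
    ∃ B, Lt g.E B m ∧ LB g α q L A B S := by
  have hS' : ∀ {Γ : Type 3} [Cd g Γ] {a b c d : Γ → g.M}, g.Tm a → g.Tm b → g.Tm c → g.Tm d →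
      g.Tm (fun w => S (a w) (b w) (c w) (d w)) := fun ha hb hc hd =>
    hS.comp (ha.pair (hb.pair (hc.pair hd)))
  obtain ⟨C₁, c₁⟩ := exists_pr_bound A (g.nat 1)
  obtain ⟨C₂, c₂⟩ := exists_pr_bound A C₁
  obtain ⟨C₃, c₃⟩ := exists_pr_bound A C₂
  obtain ⟨J, Y, j₁, j₂⟩ := exists_fun' (A := L) (Q := fun r X => ∀ t, g.E t X ↔ ∃ x y z,
      g.E x A ∧ g.E y A ∧ g.E z A ∧ t = pr x (pr y (pr z (g.nat 0))) ∧ S r x y z)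
    (tm_all (tm_iff (by fun_prop) (tm_ex (tm_ex (tm_ex (tm_and (by fun_prop) (tm_and (by fun_prop)
      (tm_and (by fun_prop) (tm_and (by fun_prop) (hS' (by fun_prop) (by fun_prop) (by fun_prop)
        (by fun_prop))))))))))) fun r _ => by
      obtain ⟨X, hX⟩ := tm_sep (Q := fun t => ∃ x y z, g.E x A ∧ g.E y A ∧ g.E z A ∧
        t = pr x (pr y (pr z (g.nat 0))) ∧ S r x y z) (tm_ex (tm_ex (tm_ex (tm_and (by fun_prop)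
          (tm_and (by fun_prop) (tm_and (by fun_prop) (tm_and (by fun_prop) (hS' (by fun_prop)
            (by fun_prop) (by fun_prop) (by fun_prop))))))))) C₃
      refine ⟨X, fun t => (hX t).trans (and_iff_right_of_imp ?_)⟩
      rintro ⟨x, y, z, h₁, h₂, h₃, rfl, -⟩
      exact c₃ _ _ h₁ (c₂ _ _ h₂ (c₁ _ _ h₃ (nat_lt.2 Nat.one_pos)))
  obtain ⟨B, b₁, b₂, b₃, H⟩ := hW L A J ⟨hA, ⟨Y, j₁⟩, fun r X h => ⟨3, fun t ht => by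
    obtain ⟨x, y, z, h₁, h₂, h₃, rfl, -⟩ := (j₂ _ _ h t).1 ht
    exact ⟨[x, y, z], rfl, by simp [h₁, h₂, h₃], tup3_iff.2 rfl⟩⟩⟩ hL
  have at' : ∀ C r i j k (v : ℕ → g.M), g.E r L → g.E (v i) A → g.E (v j) A → g.E (v k) A →
      (Tr g.E α C J (.rel r [i, j, k]) v ↔ S r (v i) (v j) (v k)) := by
    intro C r i j k v hr h₁ h₂ h₃
    simp only [Tr, List.map, tup3_iff]
    constructor
    · rintro ⟨X, _, e₁, rfl, e₂⟩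
      obtain ⟨x, y, z, -, -, -, e, e₃⟩ := (j₂ _ _ e₁ _).1 e₂
      simp only [pr_inj, and_true] at e
      obtain ⟨rfl, rfl, rfl⟩ := e
      exact e₃
    · intro h
      obtain ⟨X, -, e⟩ := fun_ex j₁ hr
      exact ⟨X, _, e, rfl, (j₂ _ _ e _).2 ⟨_, _, _, h₁, h₂, h₃, rfl, h⟩⟩
  have e1 : ∀ C r i (v : ℕ → g.M) X, Sub g.E C A → g.E r L → g.E (v i) B →
      (Ext1 g.E C (fun x => Tr g.E α C J (.rel r [i + 1, i + 1, 0]) (cons x v)) X ↔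
        Ext1 g.E C (S r (v i) (v i)) X) := fun C r i v X hC hr hv =>
    ext1_congr fun x hx => at' C r _ _ _ (cons x v) hr (b₁ _ hv) (b₁ _ hv) (hC _ hx)
  have e2 : ∀ C r i (v : ℕ → g.M) X, Sub g.E C A → g.E r L → g.E (v i) B →
      (Ext2 g.E C (fun x y => Tr g.E α C J (.rel r [i + 2, 1, 0]) (cons y (cons x v))) X ↔
        Ext2 g.E C (S r (v i)) X) := fun C r i v X hC hr hv =>
    ext2_congr fun x y hx hy => at' C r _ _ _ (cons y (cons x v)) hr (b₁ _ hv) (hC _ hx) (hC _ hy)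
  have hv : ∀ x y z, g.E x B → g.E y B → g.E z B → ∀ i, g.E (cons x (cons y fun _ => z) i) B := by
    rintro x y z hx hy hz (_ | _ | _)
    exacts [hx, hy, hz]
  have sA : Sub g.E A A := fun _ h => h
  refine ⟨B, b₃, b₁, b₂, fun r x y hr hx hy ⟨z, h₁, h₂⟩ => ?_,
    fun r x x' X X' Y Y' hr hx hx' h₁ h₂ h₃ h₄ => ?_,
    fun hq r x x' d X X' Z Y Y' W hr hx hx' hd h₁ h₂ h₃ h₄ h₅ h₆ => ?_,
    fun hq r r' x d X Z Y W hr hr' hx hd h₁ h₂ h₃ h₄ => ?_⟩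
  · by_contra h
    push Not at h
    refine (H (.all (.imp (.rel r [1, 2, 0]) .bot)) ⟨trivial, trivial⟩ _ (hv x y y hx hy hy)).1
      (fun u hu k => h u hu ((at' B r 1 2 0 _ hr (b₁ _ hx) (b₁ _ hy) (b₁ _ hu)).1 k)) z h₁ ?_
    exact (at' A r 1 2 0 _ hr (b₁ _ hx) (b₁ _ hy) h₁).2 h₂
  · have key : ∀ C U U', Sub g.E C A → Ext1 g.E C (S r x x) U → Ext1 g.E C (S r x' x') U' →
        (Tr g.E α C J (.I (.rel r [1, 1, 0]) (.rel r [2, 2, 0])) (cons x (cons x' fun _ => x')) ↔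
          EqC g.E U U') := fun C U U' hC k₁ k₂ =>
      ⟨fun ⟨V, V', f, l₁, l₂, l₃⟩ => ext1_uniq ((e1 C r 0 _ V hC hr hx).1 l₁) k₁ ▸
        ext1_uniq ((e1 C r 1 _ V' hC hr hx').1 l₂) k₂ ▸ ⟨f, l₃⟩,
      fun ⟨f, l⟩ => ⟨U, U', f, (e1 C r 0 _ U hC hr hx).2 k₁, (e1 C r 1 _ U' hC hr hx').2 k₂, l⟩⟩
    rw [← key A X X' sA h₁ h₂, ← key B Y Y' b₁ h₃ h₄]
    exact (H (.I (.rel _ _) (.rel _ _)) ⟨trivial, trivial⟩ _ (hv x x' x' hx hx' hx')).symm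
  · have key : ∀ C U U' V, Sub g.E C A → Ext2 g.E C (S r x) U → Ext2 g.E C (S r x') U' →
        Ext2 g.E C (S r d) V → (Tr g.E α C J (.Q (.rel r [2, 1, 0]) (.rel r [3, 1, 0])
          (.rel r [4, 1, 0])) (cons x (cons x' fun _ => d)) ↔ QQ g.E α U U' V) :=
      fun C U U' V hC k₁ k₂ k₃ =>
      ⟨fun ⟨T, T', T'', l, δ, l₀, l₁, l₂, l₃, l₄⟩ => ext2_uniq ((e2 C r 0 _ T hC hr hx).1 l₁) k₁ ▸
        ext2_uniq ((e2 C r 1 _ T' hC hr hx').1 l₂) k₂ ▸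
        ext2_uniq ((e2 C r 2 _ T'' hC hr hd).1 l₃) k₃ ▸ ⟨l, δ, l₀, l₄⟩,
      fun ⟨l, δ, l₀, l₄⟩ => ⟨U, U', V, l, δ, l₀, (e2 C r 0 _ U hC hr hx).2 k₁,
        (e2 C r 1 _ U' hC hr hx').2 k₂, (e2 C r 2 _ V hC hr hd).2 k₃, l₄⟩⟩
    rw [← key A X X' Z sA h₁ h₂ h₃, ← key B Y Y' W b₁ h₄ h₅ h₆]
    exact (H (.Q (.rel _ _) (.rel _ _) (.rel _ _)) ⟨hq, trivial, trivial, trivial⟩ _
      (hv x x' d hx hx' hd)).symm
  · have key : ∀ C U V, Sub g.E C A → Ext1 g.E C (S r x x) U → Ext2 g.E C (S r' d) V →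
        (Tr g.E α C J (.R (.rel r [1, 1, 0]) (.rel r' [3, 1, 0])) (cons x (cons d fun _ => d)) ↔
          RR g.E α U V) := fun C U V hC k₁ k₂ =>
      ⟨fun ⟨T, T', l, f, δ, l₀, l₁, l₂, l₃, l₄⟩ => ext1_uniq ((e1 C r 0 _ T hC hr hx).1 l₁) k₁ ▸
        ext2_uniq ((e2 C r' 1 _ T' hC hr' hd).1 l₂) k₂ ▸ ⟨l, δ, l₀, ⟨f, l₃⟩, l₄⟩,
      fun ⟨l, δ, l₀, ⟨f, l₃⟩, l₄⟩ => ⟨U, V, l, f, δ, l₀, (e1 C r 0 _ U hC hr hx).2 k₁,
        (e2 C r' 1 _ V hC hr' hd).2 k₂, l₃, l₄⟩⟩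
    rw [← key A X Z sA h₁ h₂, ← key B Y W b₁ h₃ h₄]
    exact (H (.R (.rel _ _) (.rel _ _)) ⟨hq, trivial, trivial⟩ _ (hv x d d hx hd hd)).symm

end Gen

end Pool.Agent.MP_85ce7b_lc
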