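import Pool.Agent.MP_85ce7b_lc.L.TBas

namespace Pool.Agent.MP_85ce7b_lc

open Pool.Agent.MP_c6cf52_lc Name

variable {P : Type 2} [Sz P] [Preorder P] [OrderTop P] [Tame P]

namespace Gen

variable {g : Gen P}

/-- The increasing enumeration `f` of `c` with domain `t`. -/
structure En (g : Gen P) (f c t : g.M) : Prop where
  ord : IsOrd g.E t
  fn : IsFun g.E f t c
  onto : ∀ b, g.E b c → ∃ a, App g.E f a b
  mono : ∀ a a' b b', App g.E f a b → App g.E f a' b' → g.E a a' → g.E b b'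

theorem En.otp {f c t : g.M} (h : En g f c t) : HasOtp g.E c t := ⟨f, h.fn, h.onto, h.mono⟩

theorem en_of_otp {c t : g.M} (ht : IsOrd g.E t) (h : HasOtp g.E c t) : ∃ f, En g f c t :=
  let ⟨f, h₁, h₂, h₃⟩ := h
  ⟨f, ht, h₁, h₂, h₃⟩

theorem En.lt_iff {f c t a a' b b' : g.M} (h : En g f c t) (h₁ : App g.E f a b)
    (h₂ : App g.E f a' b') : g.E b b' ↔ g.E a a' := by
  refine ⟨fun hb => ?_, h.mono _ _ _ _ h₁ h₂⟩
  rcases h.ord.2 a a' (fun_mem h.fn h₁).1 (fun_mem h.fn h₂).1 with e | rfl | e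
  · exact e
  · exact absurd (fun_uniq h.fn h₁ h₂ ▸ hb) (E_irrefl _)
  · exact absurd (h.mono _ _ _ _ h₂ h₁ e) (E_asymm hb)

theorem En.inj {f c t a a' b : g.M} (h : En g f c t) (h₁ : App g.E f a b)
    (h₂ : App g.E f a' b) : a = a' := by
  rcases h.ord.2 a a' (fun_mem h.fn h₁).1 (fun_mem h.fn h₂).1 with e | e | e
  · exact absurd (h.mono _ _ _ _ h₁ h₂ e) (E_irrefl _)
  · exact e
  · exact absurd (h.mono _ _ _ _ h₂ h₁ e) (E_irrefl _)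

theorem En.bij {f c t : g.M} (h : En g f c t) : Bij g.E f t c :=
  ⟨⟨h.fn, fun _ _ _ => h.inj⟩, h.onto⟩

theorem En.init {f c t i y c' : g.M} (h : En g f c t) (hi : App g.E f i y)
    (hc : IsInt g.E c' c y) : HasOtp g.E c' i := by
  have hit := (fun_mem h.fn hi).1
  obtain ⟨F, h₁, h₂⟩ := exists_fun (A := i) (B := c') (Q := fun a b => App g.E f a b)
    (by fun_prop) fun a ha => by
      obtain ⟨b, h₁, h₂⟩ := fun_ex h.fn (lt_lt h.ord ha hit)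
      exact ⟨b, (hc b).2 ⟨h₁, h.mono _ _ _ _ h₂ hi ha⟩, h₂⟩
  refine ⟨F, h₁, fun b hb => ?_, fun a a' b b' k₁ k₂ => h.mono _ _ _ _ (h₂ _ _ k₁) (h₂ _ _ k₂)⟩
  obtain ⟨a, ha⟩ := h.onto b ((hc b).1 hb).1
  obtain ⟨b', -, k⟩ := fun_ex h₁ ((h.lt_iff ha hi).1 ((hc b).1 hb).2)
  exact ⟨a, fun_uniq h.fn (h₂ _ _ k) ha ▸ k⟩

theorem En.uniq {f f' c t t' : g.M} (h : En g f c t) (h' : En g f' c t') : t = t' := by
  have key : ∀ i j y, App g.E f i y → App g.E f' j y → i = j := by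
    intro i
    induction i using E_wf.induction with
    | _ i ih =>
      intro j y h₁ h₂
      refine ext fun z => ⟨fun hz => ?_, fun hz => ?_⟩
      · obtain ⟨y', k₁, k₂⟩ := fun_ex h.fn (lt_lt h.ord hz (fun_mem h.fn h₁).1)
        obtain ⟨j', k₃⟩ := h'.onto y' k₁
        rw [ih z hz j' y' k₂ k₃]
        exact (h'.lt_iff k₃ h₂).1 (h.mono _ _ _ _ k₂ h₁ hz)
      · obtain ⟨y', k₁, k₂⟩ := fun_ex h'.fn (lt_lt h'.ord hz (fun_mem h'.fn h₂).1)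
        obtain ⟨i', k₃⟩ := h.onto y' k₁
        have k₄ := (h.lt_iff k₃ h₁).1 (h'.mono _ _ _ _ k₂ h₂ hz)
        exact ih i' k₄ z y' k₃ k₂ ▸ k₄
  refine ext fun z => ⟨fun hz => ?_, fun hz => ?_⟩
  · obtain ⟨y, k₁, k₂⟩ := fun_ex h.fn hz
    obtain ⟨j, k₃⟩ := h'.onto y k₁
    exact key _ _ _ k₂ k₃ ▸ (fun_mem h'.fn k₃).1
  · obtain ⟨y, k₁, k₂⟩ := fun_ex h'.fn hz
    obtain ⟨j, k₃⟩ := h.onto y k₁
    exact key _ _ _ k₃ k₂ ▸ (fun_mem h.fn k₃).1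

theorem otp_uniq {c t t' : g.M} (ht : IsOrd g.E t) (ht' : IsOrd g.E t') (h : HasOtp g.E c t)
    (h' : HasOtp g.E c t') : t = t' :=
  let ⟨_, h⟩ := en_of_otp ht h
  let ⟨_, h'⟩ := en_of_otp ht' h'
  h.uniq h'

theorem otp_step {c : g.M} (hc : ∀ x, g.E x c → IsOrd g.E x)
    (H : ∀ y, g.E y c → ∃ i, IsOrd g.E i ∧ ∃ c', IsInt g.E c' c y ∧ HasOtp g.E c' i) :
    ∃ f t, En g f c t := by
  obtain ⟨h, B, h₁, h₂⟩ := exists_fun' (A := c)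
    (Q := fun y i => IsOrd g.E i ∧ ∃ c', IsInt g.E c' c y ∧ HasOtp g.E c' i) (by fun_prop) H
  obtain ⟨t, ht⟩ := tm_sep (Q := fun i => ∃ y, App g.E h y i) (by fun_prop) B
  have ht' : ∀ i, g.E i t ↔ ∃ y, App g.E h y i := fun i =>
    (ht i).trans ⟨fun k => k.2, fun ⟨y, k⟩ => ⟨(fun_mem h₁ k).2, y, k⟩⟩
  have key : ∀ y i z, App g.E h y i → (g.E z i ↔ ∃ y', g.E y' y ∧ App g.E h y' z) := by
    intro y i z k
    obtain ⟨k₁, c', k₂, k₃⟩ := h₂ _ _ k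
    obtain ⟨f, hf⟩ := en_of_otp k₁ k₃
    have aux : ∀ z y' j, App g.E f z y' → App g.E h y' j → z = j := by
      intro z y' j e₁ e₂
      obtain ⟨e₃, c'', e₄, e₅⟩ := h₂ _ _ e₂
      have e₆ := (k₂ _).1 (fun_mem hf.fn e₁).2
      exact otp_uniq (isOrd_of_E k₁ (fun_mem hf.fn e₁).1) e₃ (hf.init e₁ fun u => (e₄ u).trans
        ⟨fun e => ⟨(k₂ u).2 ⟨e.1, lt_lt (hc _ (fun_mem h₁ k).1) e.2 e₆.2⟩, e.2⟩,
          fun e => ⟨((k₂ u).1 e.1).1, e.2⟩⟩) e₅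
    constructor
    · intro hz
      obtain ⟨y', e₁, e₂⟩ := fun_ex hf.fn hz
      obtain ⟨j, -, e₃⟩ := fun_ex h₁ ((k₂ _).1 e₁).1
      exact ⟨y', ((k₂ _).1 e₁).2, aux _ _ _ e₂ e₃ ▸ e₃⟩
    · rintro ⟨y', e₁, e₂⟩
      obtain ⟨a, ha⟩ := hf.onto y' ((k₂ _).2 ⟨(fun_mem h₁ e₂).1, e₁⟩)
      exact aux _ _ _ ha e₂ ▸ (fun_mem hf.fn ha).1
  have mono : ∀ y y' i i', App g.E h y i → App g.E h y' i' → g.E i i' → g.E y y' := by
    intro y y' i i' k k' hi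
    rcases ord_tri (hc _ (fun_mem h₁ k).1) (hc _ (fun_mem h₁ k').1) with e | rfl | e
    · exact e
    · exact absurd (fun_uniq h₁ k k' ▸ hi) (E_irrefl _)
    · exact absurd ((key _ _ _ k).2 ⟨_, e, k'⟩) (E_asymm hi)
  obtain ⟨f, f₁, f₂⟩ := exists_fun (A := t) (B := c) (Q := fun i y => App g.E h y i)
    (by fun_prop) fun i hi => ((ht' i).1 hi).imp fun y k => ⟨(fun_mem h₁ k).1, k⟩
  refine ⟨f, t, isOrd_of_trans (fun i hi => ?_) fun i z hi hz => ?_, f₁, fun y hy => ?_,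
    fun i i' y y' k k' => mono _ _ _ _ (f₂ _ _ k) (f₂ _ _ k')⟩
  · obtain ⟨y, k⟩ := (ht' i).1 hi
    exact (h₂ _ _ k).1
  · obtain ⟨y, k⟩ := (ht' i).1 hi
    obtain ⟨y', -, k'⟩ := (key _ _ _ k).1 hz
    exact (ht' z).2 ⟨y', k'⟩
  · obtain ⟨i, -, k⟩ := fun_ex h₁ hy
    obtain ⟨y', k₁, k₂⟩ := fun_ex f₁ ((ht' i).2 ⟨y, k⟩)
    have k₃ := f₂ _ _ k₂
    rcases ord_tri (hc _ hy) (hc _ k₁) with e | rfl | e
    · exact absurd ((key _ _ _ k₃).2 ⟨_, e, k⟩) (E_irrefl _)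
    · exact ⟨i, k₂⟩
    · exact absurd ((key _ _ _ k).2 ⟨_, e, k₃⟩) (E_irrefl _)

/-- Every set of ordinals has an increasing enumeration. -/
theorem exists_en {c : g.M} (hc : ∀ x, g.E x c → IsOrd g.E x) : ∃ f t, En g f c t := by
  refine otp_step hc fun y => ?_
  induction y using E_wf.induction with
  | _ y ih =>
    intro hy
    obtain ⟨c', hc'⟩ := exists_int c y
    obtain ⟨f, t, h⟩ := otp_step (c := c') (fun x hx => hc x ((hc' x).1 hx).1) fun z hz => by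
      obtain ⟨i, h₁, d, h₂, h₃⟩ := ih z ((hc' z).1 hz).2 ((hc' z).1 hz).1
      exact ⟨i, h₁, d, fun u => (h₂ u).trans
        ⟨fun e => ⟨(hc' u).2 ⟨e.1, lt_lt (hc y hy) e.2 ((hc' z).1 hz).2⟩, e.2⟩,
          fun e => ⟨((hc' u).1 e.1).1, e.2⟩⟩, h₃⟩
    exact ⟨t, h.ord, c', hc', h.otp⟩

theorem En.le_val {f c t : g.M} (h : En g f c t) (hc : ∀ x, g.E x c → IsOrd g.E x) :
    ∀ i y, App g.E f i y → Leq g.E i y := by
  intro i
  induction i using E_wf.induction with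
  | _ i ih =>
    intro y k
    have hi := (fun_mem h.fn k).1
    have hy := hc _ (fun_mem h.fn k).2
    refine leq_of_sub (isOrd_of_E h.ord hi) hy fun z hz => ?_
    obtain ⟨y', -, k'⟩ := fun_ex h.fn (lt_lt h.ord hz hi)
    exact leq_lt hy (ih z hz y' k') (h.mono _ _ _ _ k' k hz)

theorem En.leq {f c t b : g.M} (h : En g f c t) (hb : IsOrd g.E b) (hc : Sub g.E c b) :
    Leq g.E t b := leq_of_sub h.ord hb fun i hi =>
  let ⟨y, k₁, k₂⟩ := fun_ex h.fn hi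
  leq_lt hb (h.le_val (fun x hx => isOrd_of_E hb (hc x hx)) i y k₂) (hc y k₁)

theorem En.eqC {f c t : g.M} (h : En g f c t) : EqC g.E t c := ⟨f, h.bij⟩

/-- A set that injects into an ordinal `b` is equinumerous with an ordinal `t ≤ b`. -/
theorem eqC_ord_of_leC {X b : g.M} (hb : IsOrd g.E b) (h : LeC g.E X b) :
    ∃ t, Leq g.E t b ∧ EqC g.E X t := by
  obtain ⟨F, hF⟩ := h
  obtain ⟨c, hc⟩ := tm_sep (Q := fun y => ∃ x, App g.E F x y) (by fun_prop) b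
  obtain ⟨f, t, h⟩ := exists_en (c := c) fun x hx => isOrd_of_E hb ((hc x).1 hx).1
  refine ⟨t, h.leq hb fun x hx => ((hc x).1 hx).1, eqC_trans ?_ (eqC_symm h.eqC)⟩
  exact eqC_of_rel (Q := fun x y => App g.E F x y) (by fun_prop)
    (fun x hx => let ⟨y, k₁, k₂⟩ := fun_ex hF.1 hx; ⟨y, (hc y).2 ⟨k₁, x, k₂⟩, k₂⟩)
    (fun y hy => let ⟨x, k⟩ := ((hc y).1 hy).2; ⟨x, (fun_mem hF.1 k).1, k⟩)
    (fun _ _ _ _ _ k k' => hF.2 _ _ _ k k') fun _ _ _ _ _ k k' => fun_uniq hF.1 k k'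

theorem exists_ord_inj (c : g.M) : ∃ δ, IsOrd g.E δ ∧ LeC g.E c δ := by
  obtain ⟨τ, hτ, rfl⟩ := exists_v c
  let mN : Name P := setN (woWf τ.I) Set.univ
  let eN : Name P := relN τ.A (fun j => ordN (woWf τ.I) j) fun _ => ⊤
  refine dens (Ψ := fun M E w => ∃ δ, IsOrd E δ ∧ LeC E (w 0) δ)
    (UDef.ex ((UD.isOrd _).and (UD.leC _ _)))
    (l1 hτ) fun p _ => ⟨p, le_rfl, {mN, eN}, (Set.toFinite _).countable, fun g' _ hC hl => ?_⟩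
  have b₁ : mN ∈ g'.N := hC (by simp)
  have b₂ : eN ∈ g'.N := hC (by simp)
  have b₃ : τ ∈ g'.N := hl _ (by simp)
  have hF := leC_of_rel (D := g'.v τ) (a := g'.v mN)
    (Q := fun W ξ => App g'.E (g'.v eN) W ξ) (by fun_prop) (fun W hW => by
      obtain ⟨i, -, hi, rfl⟩ := (E_v b₃).1 hW
      exact dens (Ψ := fun M E w => ∃ ξ, E ξ (w 0) ∧ App E (w 1) (w 2) ξ)
        (UDef.ex ((UDef.mem _ _).and (UDef.app _ _ _))) (l3 b₁ b₂ hi) fun q _ =>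
        ⟨q, le_rfl, {ordN (woWf τ.I) i}, Set.countable_singleton _, fun g₂ _ hC₂ hl₂ =>
          ⟨_, (E_setN _ (hl₂ mN (by simp))).2 ⟨i, trivial, hC₂ rfl, rfl⟩,
            (app_relN (hl₂ eN (by simp))).2
              ⟨i, g₂.top, hl₂ (τ.A i) (by simp), hC₂ rfl, rfl, rfl⟩⟩⟩)
    fun W W' ξ _ _ h h' => by
      obtain ⟨w, -, -, a₁, rfl, rfl⟩ := (app_relN b₂).1 h
      obtain ⟨w', -, -, a₂, rfl, e'⟩ := (app_relN b₂).1 h'
      rw [ord_inj _ (woTri _) a₁ a₂ e']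
  exact ⟨_, isOrd_setN _ (woTri _) b₁ fun _ _ _ _ => trivial, hF⟩

/-- Every set has a cardinality. -/
theorem exists_card (X : g.M) : ∃ l, IsCard g.E l ∧ EqC g.E X l := by
  obtain ⟨δ, h₁, h₂⟩ := exists_ord_inj X
  obtain ⟨t, h₃, h₄⟩ := eqC_ord_of_leC h₁ h₂
  obtain ⟨l, ⟨h₅, h₆⟩, hmin⟩ := exists_min (Q := fun l => IsOrd g.E l ∧ EqC g.E X l)
    ⟨t, isOrd_of_leq h₁ h₃, h₄⟩
  refine ⟨l, ⟨h₅, fun a ha h => ?_⟩, h₆⟩
  have ha' := isOrd_of_E h₅ ha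
  obtain ⟨t', h₇, h₈⟩ := eqC_ord_of_leC ha' (leC_trans (EqC.le h₆) h)
  exact hmin t' (leq_lt h₅ h₇ ha) ⟨isOrd_of_leq ha' h₇, h₈⟩

theorem eqC_of_leC {X Y : g.M} (h₁ : LeC g.E X Y) (h₂ : LeC g.E Y X) : EqC g.E X Y := by
  obtain ⟨l, k₁, k₂⟩ := exists_card X
  obtain ⟨m, k₃, k₄⟩ := exists_card Y
  obtain rfl := card_eq k₁ k₃ (leC_trans (EqC.ge k₂) (leC_trans h₁ (EqC.le k₄)))
    (leC_trans (EqC.ge k₄) (leC_trans h₂ (EqC.le k₂)))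
  exact eqC_trans k₂ (eqC_symm k₄)

/-- An ordinal that is not equinumerous with a smaller one is a cardinal. -/
theorem isCard_of_not_eqC {l : g.M} (hl : IsOrd g.E l) (h : ∀ b, g.E b l → ¬ EqC g.E b l) :
    IsCard g.E l :=
  ⟨hl, fun b hb h' => h b hb (eqC_of_leC (leC_of_sub (sub_of_leq hl (Or.inl hb))) h')⟩

/-- Either `k` injects into `X` or `X` is smaller than `k`. -/
theorem leC_or_lt {k : g.M} (hk : IsOrd g.E k) (X : g.M) : LeC g.E k X ∨ Lt g.E X k := by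
  obtain ⟨l, h₁, h₂⟩ := exists_card X
  by_cases h : g.E l k
  · exact Or.inr (lt_iff.2 ⟨l, h, EqC.le h₂⟩)
  · exact Or.inl (leC_trans (leC_of_sub (sub_of_leq h₁.1 (leq_of_not_lt hk h₁.1 h))) (EqC.ge h₂))

theorem not_lt_of_leC {k X : g.M} (hk : IsCard g.E k) (h : LeC g.E k X) : ¬ Lt g.E X k :=
  fun h' => let ⟨m, h₁, h₂⟩ := lt_iff.1 h'; hk.2 m h₁ (leC_trans h h₂)

end Gen

end Pool.Agent.MP_85ce7b_lc
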