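import Pool.Agent.MP_85ce7b_lc.L.TApi

namespace Pool.Agent.MP_85ce7b_lc

open Pool.Agent.MP_c6cf52_lc

namespace Gen

variable {P : Type 2} [Sz P] [Preorder P] [OrderTop P] [Tame P] {g : Gen P}

theorem rep_aux {d : g.M} {δ : Ordinal.{1}} (hd : IsOrd g.E d) {e : Set.Iio δ → g.M}
    (h₁ : ∀ i j, g.E (e i) (e j) ↔ i < j) (h₂ : ∀ x, g.E x d ↔ ∃ i, e i = x) (i : Set.Iio δ) :
    Rep g.E (e i) i.1 := by
  have hi := (h₂ _).2 ⟨i, rfl⟩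
  refine ⟨isOrd_of_E hd hi, fun j => e ⟨j.1, (Set.mem_Iio.1 j.2).trans i.2⟩, fun j k => h₁ _ _, fun x => ?_⟩
  constructor
  · intro hx
    obtain ⟨j, rfl⟩ := (h₂ x).1 (lt_lt hd hx hi)
    exact ⟨⟨j.1, (h₁ _ _).1 hx⟩, rfl⟩
  · rintro ⟨j, rfl⟩
    exact (h₁ _ _).2 j.2

theorem rep_mem {d x : g.M} {δ : Ordinal.{1}} (h : Rep g.E d δ) (hx : g.E x d) :
    ∃ β < δ, Rep g.E x β := by
  obtain ⟨hd, e, h₁, h₂⟩ := h
  obtain ⟨i, rfl⟩ := (h₂ x).1 hx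
  exact ⟨i.1, i.2, rep_aux hd h₁ h₂ i⟩

theorem rep_lt {d : g.M} {δ β : Ordinal.{1}} (h : Rep g.E d δ) (hβ : β < δ) :
    ∃ x, g.E x d ∧ Rep g.E x β := by
  obtain ⟨hd, e, h₁, h₂⟩ := h
  exact ⟨_, (h₂ _).2 ⟨⟨β, hβ⟩, rfl⟩, rep_aux hd h₁ h₂ ⟨β, hβ⟩⟩

theorem rep_uniq {δ : Ordinal.{1}} : ∀ {d d' : g.M}, Rep g.E d δ → Rep g.E d' δ → d = d' := by
  induction δ using WellFoundedLT.induction with
  | _ δ ih =>
    intro d d' h h'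
    refine ext fun x => ⟨fun hx => ?_, fun hx => ?_⟩
    · obtain ⟨β, h₁, h₂⟩ := rep_mem h hx
      obtain ⟨y, h₃, h₄⟩ := rep_lt h' h₁
      exact ih β h₁ h₂ h₄ ▸ h₃
    · obtain ⟨β, h₁, h₂⟩ := rep_mem h' hx
      obtain ⟨y, h₃, h₄⟩ := rep_lt h h₁
      exact ih β h₁ h₂ h₄ ▸ h₃

theorem rep_inj {d : g.M} {δ δ' : Ordinal.{1}} (h : Rep g.E d δ) (h' : Rep g.E d δ') : δ = δ' := by
  rcases lt_trichotomy δ δ' with e | e | e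
  · obtain ⟨x, h₁, h₂⟩ := rep_lt h' e
    exact absurd (rep_uniq h₂ h ▸ h₁) (E_irrefl _)
  · exact e
  · obtain ⟨x, h₁, h₂⟩ := rep_lt h e
    exact absurd (rep_uniq h₂ h' ▸ h₁) (E_irrefl _)

theorem rep_lt_iff {x d : g.M} {β δ : Ordinal.{1}} (hx : Rep g.E x β) (hd : Rep g.E d δ) :
    g.E x d ↔ β < δ :=
  ⟨fun h => let ⟨_, h₁, h₂⟩ := rep_mem hd h; rep_inj h₂ hx ▸ h₁,
    fun h => let ⟨_, h₁, h₂⟩ := rep_lt hd h; rep_uniq h₂ hx ▸ h₁⟩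

theorem cl_congr {S S' : g.M → Prop} {y : g.M} (h : ∀ z, Leq g.E z y → (S z ↔ S' z)) :
    Cl g.E S y ↔ Cl g.E S' y :=
  or_congr (h y (leq_refl y)) (and_congr_right fun _ => and_congr_right fun _ =>
    forall₂_congr fun _ _ => exists_congr fun z => and_congr_right fun hz =>
      and_congr_right fun _ => h z (Or.inl hz))

theorem succPt_congr {S S' : g.M → Prop} {y : g.M} (hy : IsOrd g.E y)
    (h : ∀ z, Leq g.E z y → (S z ↔ S' z)) : SuccPt g.E S y ↔ SuccPt g.E S' y := by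
  have k : ∀ u, g.E u y → (Cl g.E S u ↔ Cl g.E S' u) := fun u hu =>
    cl_congr fun z hz => h z (Or.inl (leq_lt hy hz hu))
  exact and_congr (cl_congr h) (exists_congr fun u => and_congr_right fun hu =>
    and_congr (k u hu) (forall₃_congr fun z _ hz => not_congr (k z hz)))

theorem tab_sound {T d x : g.M} (hT : Tab g.E T d x) (hd : IsOrd g.E d) (hx : IsOrd g.E x)
    (β : Ordinal.{1}) : ∀ e, Rep g.E e β → Leq g.E e d → ∀ y, Leq g.E y x →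
      (App g.E T e y ↔ RegGe g.E β y) := by
  induction β using WellFoundedLT.induction with
  | _ β ih =>
    intro e he hed y hy
    rw [hT e y hed hy, regGe_def]
    have k : ∀ e' β', β' < β → Rep g.E e' β' →
        (SuccPt g.E (fun z => App g.E T e' z) y ↔ RegAt g.E β' y) := fun e' β' h₁ h₂ =>
      succPt_congr (isOrd_of_leq hx hy) fun z hz => ih β' h₁ e' h₂
        (Or.inl (lt_leq hd ((rep_lt_iff h₂ he).2 h₁) hed)) z (leq_trans hx hz hy)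
    refine and_congr_right fun _ => ⟨fun h β' hβ => ?_, fun h e' he' => ?_⟩
    · obtain ⟨e', h₁, h₂⟩ := rep_lt he hβ
      exact fun h₃ => h e' h₁ ((k e' β' hβ h₂).2 h₃)
    · obtain ⟨β', h₁, h₂⟩ := rep_mem he he'
      exact fun h₃ => h β' h₁ ((k e' β' h₁ h₂).1 h₃)

theorem regGeI_iff {δ : Ordinal.{1}} : ∀ {d x : g.M}, Rep g.E d δ →
    (RegGeI g.E d x ↔ RegGe g.E δ x) := by
  induction δ using WellFoundedLT.induction with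
  | _ δ ih =>
    intro d x hd
    refine ⟨fun ⟨hx, T, h₁, h₂⟩ => (tab_sound h₁ hd.1 hx δ d hd (leq_refl d) x (leq_refl x)).1 h₂,
      fun h => ?_⟩
    have hx := h.reg.1.1
    obtain ⟨T, -, hT⟩ := exists_rel (sc d) (sc x)
      (Q := fun e y => IsReg g.E y ∧ ∀ e', g.E e' e → ¬ RegAtI g.E e' y) (by fun_prop)
    have k₁ : ∀ e β y, β < δ → Rep g.E e β → (RegAtI g.E e y ↔ RegAt g.E β y) := fun e β y h₁ h₂ => by
      unfold RegAtI RegAt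
      rw [show (fun z => RegGeI g.E e z) = RegGe g.E β from funext fun z => propext (ih β h₁ h₂)]
    have k₂ : ∀ e β y, β ≤ δ → Rep g.E e β →
        ((IsReg g.E y ∧ ∀ e', g.E e' e → ¬ RegAtI g.E e' y) ↔ RegGe g.E β y) := by
      intro e β y h₁ h₂
      rw [regGe_def]
      refine and_congr_right fun _ => ⟨fun h β' hβ => ?_, fun h e' he' => ?_⟩
      · obtain ⟨e', h₃, h₄⟩ := rep_lt h₂ hβ
        exact fun h₅ => h e' h₃ ((k₁ e' β' y (hβ.trans_le h₁) h₄).2 h₅)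
      · obtain ⟨β', h₃, h₄⟩ := rep_mem h₂ he'
        exact fun h₅ => h β' h₃ ((k₁ e' β' y (h₃.trans_le h₁) h₄).1 h₅)
    refine ⟨hx, T, fun e y he hy => ?_, (hT _ _).2 ⟨lt_sc d, lt_sc x, (k₂ d δ x le_rfl hd).2 h⟩⟩
    rw [hT, and_iff_right (E_sc.2 he), and_iff_right (E_sc.2 hy)]
    refine and_congr_right fun _ => forall₂_congr fun e' he' => not_congr ?_
    have he'' := lt_leq hd.1 he' he
    obtain ⟨β, h₁, h₂⟩ := rep_mem hd he''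
    refine succPt_congr (isOrd_of_leq hx hy) fun z hz => ?_
    rw [hT, and_iff_right (E_sc.2 (Or.inl he'')), and_iff_right (E_sc.2 (leq_trans hx hz hy)),
      k₂ e' β z h₁.le h₂]
    exact ih β h₁ h₂

theorem regGeI_eq {δ : Ordinal.{1}} {d : g.M} (h : Rep g.E d δ) :
    (fun z => RegGeI g.E d z) = RegGe g.E δ := funext fun _ => propext (regGeI_iff h)

theorem regAtI_iff {δ : Ordinal.{1}} {d x : g.M} (h : Rep g.E d δ) :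
    RegAtI g.E d x ↔ RegAt g.E δ x := by
  unfold RegAtI RegAt
  rw [regGeI_eq h]

theorem otpI_iff {δ : Ordinal.{1}} {d Z : g.M} (h : Rep g.E d δ) :
    OtpI g.E Z d ↔ Otp g.E Z δ :=
  ⟨fun ⟨f, Y, h₁, h₂⟩ => ⟨d, f, Y, h.1, h.2, h₁, h₂⟩,
    fun ⟨_, f, Y, h₀, h₀', h₁, h₂⟩ => ⟨f, Y, rep_uniq ⟨h₀, h₀'⟩ h ▸ h₁, h₂⟩⟩

theorem ex_lt_iff {α : Ordinal.{1}} {a Z l : g.M} (h : Rep g.E a α) :
    (∃ δ < α, Otp g.E Z δ ∧ RegAt g.E δ l) ↔ ∃ d, g.E d a ∧ OtpI g.E Z d ∧ RegAtI g.E d l :=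
  ⟨fun ⟨_, h₁, h₂, h₃⟩ =>
    let ⟨d, h₄, h₅⟩ := rep_lt h h₁
    ⟨d, h₄, (otpI_iff h₅).2 h₂, (regAtI_iff h₅).2 h₃⟩,
  fun ⟨_, h₁, h₂, h₃⟩ =>
    let ⟨δ, h₄, h₅⟩ := rep_mem h h₁
    ⟨δ, h₄, (otpI_iff h₅).1 h₂, (regAtI_iff h₅).1 h₃⟩⟩

theorem qq_iff {α : Ordinal.{1}} {a X Y Z : g.M} (h : Rep g.E a α) : QQ g.E α X Y Z ↔
    ∃ l, Cof g.E X l ∧ Cof g.E Y l ∧ ∃ d, g.E d a ∧ OtpI g.E Z d ∧ RegAtI g.E d l :=
  exists_congr fun _ => by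
    rw [← ex_lt_iff h]
    exact ⟨fun ⟨δ, h₁, h₂, h₃, h₄⟩ => ⟨h₂, h₃, δ, h₁, h₄⟩,
      fun ⟨h₂, h₃, δ, h₁, h₄⟩ => ⟨δ, h₁, h₂, h₃, h₄⟩⟩

theorem rr_iff {α : Ordinal.{1}} {a X Z : g.M} (h : Rep g.E a α) : RR g.E α X Z ↔
    ∃ l, EqC g.E X l ∧ ∃ d, g.E d a ∧ OtpI g.E Z d ∧ RegAtI g.E d l :=
  exists_congr fun _ => by
    rw [← ex_lt_iff h]
    exact ⟨fun ⟨δ, h₁, h₂, h₄⟩ => ⟨h₂, δ, h₁, h₄⟩, fun ⟨h₂, δ, h₁, h₄⟩ => ⟨δ, h₁, h₂, h₄⟩⟩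

theorem RegAt.reg {δ : Ordinal.{1}} {x : g.M} (h : RegAt g.E δ x) : IsReg g.E x :=
  (regAt_iff.1 h).1.reg

theorem RegAt.om_lt {δ : Ordinal.{1}} {x : g.M} (h : RegAt g.E δ x) : g.E g.om x :=
  (IsReg.om_leq (RegAt.reg h)).resolve_right (regAt_iff.1 h).2.1.symm

theorem exists_regAt {α : Ordinal.{1}} {x : g.M} (h₁ : IsReg g.E x) (h₂ : ¬ RegGe g.E α x) :
    ∃ δ < α, RegAt g.E δ x := by
  by_contra h
  exact h₂ ((regGe_def _ _ _).2 ⟨h₁, fun β hβ h₃ => h ⟨β, hβ, h₃⟩⟩)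

/-- An uncountable regular cardinal that is not a limit of cardinals is exactly in `Reg_0`. -/
theorem regAt_succ {δ : Ordinal.{1}} {x : g.M} (h₁ : IsReg g.E x) (h₂ : Succ g.E x)
    (h₃ : g.E g.om x) : RegAt g.E δ x ↔ δ = 0 := by
  obtain ⟨b, hb, k⟩ := h₂
  have nl : ¬ Lim g.E (RegGe g.E 0) x := fun h =>
    let ⟨z, k₁, k₂, k₃⟩ := h.2 b hb
    k z k₂ k₁ k₃.reg.1
  have ne : x ≠ g.om := fun e => E_irrefl _ (e ▸ h₃)
  constructor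
  · intro h
    by_contra e
    exact nl (((regGe_iff.1 (regAt_iff.1 h).1).2.resolve_left ne) 0 (pos_iff_ne_zero.2 e))
  · rintro rfl
    exact regAt_iff.2 ⟨(regGe_def _ _ _).2 ⟨h₁, fun β hβ => absurd hβ (by simp)⟩, ne, nl⟩

end Gen

end Pool.Agent.MP_85ce7b_lc
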