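import Pool.Agent.MP_85ce7b_lc.L.THull2
import Pool.Agent.MP_85ce7b_lc.L.TEx

namespace Pool.Agent.MP_85ce7b_lc

open Pool.Agent.MP_c6cf52_lc

theorem ttr_cons {M : Type*} {n m : ℕ} {v v' : ℕ → M} (h : ∀ i < n, v i = v' i) (hm : m ≤ n)
    (x : M) : ∀ i < m, cons x v i = cons x v' i
  | 0, _ => rfl
  | i + 1, _ => h i (by omega)

/-- Truth depends on finitely many variables. -/
theorem ttr_bound {M : Type*} (E : M → M → Prop) (α : Ordinal.{1}) (J : M) (φ : Fm M) :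
    ∃ n, ∀ (A : M) (v v' : ℕ → M), (∀ i < n, v i = v' i) →
      (Tr E α A J φ v ↔ Tr E α A J φ v') := by
  induction φ with
  | rel r l =>
    refine ⟨l.sum + 1, fun A v v' h => ?_⟩
    have : l.map v = l.map v' :=
      List.map_congr_left fun i hi => h i (Nat.lt_succ_of_le (List.le_sum_of_mem hi))
    simp only [Tr, this]
  | eq i j =>
    exact ⟨max i j + 1, fun A v v' h => by simp only [Tr, h i (by omega), h j (by omega)]⟩
  | bot => exact ⟨0, fun _ _ _ _ => Iff.rfl⟩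
  | imp φ ψ ih₁ ih₂ =>
    obtain ⟨n, h₁⟩ := ih₁
    obtain ⟨m, h₂⟩ := ih₂
    exact ⟨max n m, fun A v v' h => imp_congr (h₁ A v v' fun k hk => h k (by omega))
      (h₂ A v v' fun k hk => h k (by omega))⟩
  | all φ ih =>
    obtain ⟨n, h₁⟩ := ih
    exact ⟨n, fun A v v' h => forall_congr' fun x => imp_congr_right fun _ =>
      h₁ A _ _ (ttr_cons h le_rfl x)⟩
  | I φ ψ ih₁ ih₂ =>
    obtain ⟨n, h₁⟩ := ih₁
    obtain ⟨m, h₂⟩ := ih₂
    refine ⟨max n m, fun A v v' h => ?_⟩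
    have e₁ := funext fun x => propext (h₁ A _ _ (ttr_cons h (le_max_left _ _) x))
    have e₂ := funext fun x => propext (h₂ A _ _ (ttr_cons h (le_max_right _ _) x))
    unfold Tr
    rw [e₁, e₂]
  | Q φ ψ χ ih₁ ih₂ ih₃ =>
    obtain ⟨n, h₁⟩ := ih₁
    obtain ⟨m, h₂⟩ := ih₂
    obtain ⟨l, h₃⟩ := ih₃
    refine ⟨n + m + l, fun A v v' h => ?_⟩
    have e₁ := funext fun x => funext fun y =>
      propext (h₁ A _ _ (ttr_cons (ttr_cons h le_rfl x) (by omega) y))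
    have e₂ := funext fun x => funext fun y =>
      propext (h₂ A _ _ (ttr_cons (ttr_cons h le_rfl x) (by omega) y))
    have e₃ := funext fun x => funext fun y =>
      propext (h₃ A _ _ (ttr_cons (ttr_cons h le_rfl x) (by omega) y))
    unfold Tr
    rw [e₁, e₂, e₃]
  | R φ χ ih₁ ih₃ =>
    obtain ⟨n, h₁⟩ := ih₁
    obtain ⟨l, h₃⟩ := ih₃
    refine ⟨n + l, fun A v v' h => ?_⟩
    have e₁ := funext fun x => propext (h₁ A _ _ (ttr_cons h (by omega) x))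
    have e₃ := funext fun x => funext fun y =>
      propext (h₃ A _ _ (ttr_cons (ttr_cons h le_rfl x) (by omega) y))
    unfold Tr
    rw [e₁, e₃]

theorem ttr_I {M : Type*} {E : M → M → Prop} {α : Ordinal.{1}} {A J : M} {φ ψ : Fm M}
    {v : ℕ → M} : Tr E α A J (.I φ ψ) v ↔ ∃ X Y, Ext1 E A (fun x => Tr E α A J φ (cons x v)) X ∧
      Ext1 E A (fun x => Tr E α A J ψ (cons x v)) Y ∧ EqC E X Y :=
  ⟨fun ⟨X, Y, f, h₁, h₂, h₃⟩ => ⟨X, Y, h₁, h₂, f, h₃⟩,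
    fun ⟨X, Y, h₁, h₂, f, h₃⟩ => ⟨X, Y, f, h₁, h₂, h₃⟩⟩

theorem ttr_Q {M : Type*} {E : M → M → Prop} {α : Ordinal.{1}} {A J : M} {φ ψ χ : Fm M}
    {v : ℕ → M} : Tr E α A J (.Q φ ψ χ) v ↔
      ∃ X Y Z, Ext2 E A (fun x y => Tr E α A J φ (cons y (cons x v))) X ∧
        Ext2 E A (fun x y => Tr E α A J ψ (cons y (cons x v))) Y ∧
        Ext2 E A (fun x y => Tr E α A J χ (cons y (cons x v))) Z ∧ QQ E α X Y Z :=
  ⟨fun ⟨X, Y, Z, l, δ, h, h₁, h₂, h₃, h₄⟩ => ⟨X, Y, Z, h₁, h₂, h₃, l, δ, h, h₄⟩,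
    fun ⟨X, Y, Z, h₁, h₂, h₃, l, δ, h, h₄⟩ => ⟨X, Y, Z, l, δ, h, h₁, h₂, h₃, h₄⟩⟩

theorem ttr_R {M : Type*} {E : M → M → Prop} {α : Ordinal.{1}} {A J : M} {φ χ : Fm M}
    {v : ℕ → M} : Tr E α A J (.R φ χ) v ↔
      ∃ X Z, Ext1 E A (fun x => Tr E α A J φ (cons x v)) X ∧
        Ext2 E A (fun x y => Tr E α A J χ (cons y (cons x v))) Z ∧ RR E α X Z :=
  ⟨fun ⟨X, Z, l, f, δ, h, h₁, h₂, h₃, h₄⟩ => ⟨X, Z, h₁, h₂, l, δ, h, ⟨f, h₃⟩, h₄⟩,
    fun ⟨X, Z, h₁, h₂, l, δ, h, ⟨f, h₃⟩, h₄⟩ => ⟨X, Z, l, f, δ, h, h₁, h₂, h₃, h₄⟩⟩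

theorem ttr_ext1 {M : Type*} {E : M → M → Prop} {A X : M} {Φ Ψ : M → Prop}
    (h : ∀ x, E x A → (Φ x ↔ Ψ x)) : Ext1 E A Φ X ↔ Ext1 E A Ψ X :=
  forall_congr' fun x => iff_congr Iff.rfl (and_congr_right (h x))

theorem ttr_ext2 {M : Type*} {E : M → M → Prop} {A X : M} {Φ Ψ : M → M → Prop}
    (h : ∀ x y, E x A → E y A → (Φ x y ↔ Ψ x y)) : Ext2 E A Φ X ↔ Ext2 E A Ψ X :=
  forall_congr' fun _ => iff_congr Iff.rfl (exists_congr fun x => exists_congr fun y =>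
    and_congr_right fun hx => and_congr_right fun hy => and_congr_right fun _ => h x y hx hy)

namespace Gen

variable {P : Type 2} [Sz P] [Preorder P] [OrderTop P] [Tame P] {g : Gen P}

theorem ttr_fst : ∃ f : g.M → g.M, g.Tm f ∧ ∀ x y, f (pr x y) = x := by
  classical
  refine ⟨fun p => if h : ∃ x y, p = pr x y then h.choose else p, tm_of_rel
    (Q := fun p z => (∃ y, p = pr z y) ∨ ((¬ ∃ x y, p = pr x y) ∧ z = p)) (by fun_prop) ?_, ?_⟩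
  · intro p z
    by_cases h : ∃ x y, p = pr x y
    · obtain ⟨y, hy⟩ := h.choose_spec
      rw [dif_pos h]
      exact ⟨fun h' => h'.elim (fun ⟨_, e⟩ => (pr_inj.1 (e.symm.trans hy)).1) fun e => (e.1 h).elim,
        fun e => Or.inl ⟨y, e ▸ hy⟩⟩
    · rw [dif_neg h]
      exact ⟨fun h' => h'.elim (fun ⟨y, e⟩ => (h ⟨z, y, e⟩).elim) fun e => e.2,
        fun e => Or.inr ⟨h, e⟩⟩
  · intro x y
    have h : ∃ x' y', pr x y = pr x' y' := ⟨x, y, rfl⟩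
    obtain ⟨y', hy⟩ := h.choose_spec
    simp only [dif_pos h]
    exact (pr_inj.1 hy).1.symm

theorem ttr_snd : ∃ f : g.M → g.M, g.Tm f ∧ ∀ x y, f (pr x y) = y := by
  classical
  refine ⟨fun p => if h : ∃ y x, p = pr x y then h.choose else p, tm_of_rel
    (Q := fun p z => (∃ x, p = pr x z) ∨ ((¬ ∃ y x, p = pr x y) ∧ z = p)) (by fun_prop) ?_, ?_⟩
  · intro p z
    by_cases h : ∃ y x, p = pr x y
    · obtain ⟨y, hy⟩ := h.choose_spec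
      rw [dif_pos h]
      exact ⟨fun h' => h'.elim (fun ⟨_, e⟩ => (pr_inj.1 (e.symm.trans hy)).2) fun e => (e.1 h).elim,
        fun e => Or.inl ⟨y, e ▸ hy⟩⟩
    · rw [dif_neg h]
      exact ⟨fun h' => h'.elim (fun ⟨y, e⟩ => (h ⟨z, y, e⟩).elim) fun e => e.2,
        fun e => Or.inr ⟨h, e⟩⟩
  · intro x y
    have h : ∃ y' x', pr x y = pr x' y' := ⟨y, x, rfl⟩
    obtain ⟨y', hy⟩ := h.choose_spec
    simp only [dif_pos h]
    exact (pr_inj.1 hy).2.symm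

theorem ttr_exists_dec : ∃ d : g.M → ℕ → g.M, g.Tm (fun z : g.M × ℕ => d z.1 z.2) ∧
    ∀ x t, d (pr x t) = cons x (d t) := by
  obtain ⟨f, hf, h⟩ := ttr_fst (g := g)
  obtain ⟨f', hf', h'⟩ := ttr_snd (g := g)
  refine ⟨fun t n => f (f'^[n] t), hf.comp (tm_iter (F := fun _ => f') (hf'.comp tm_id.snd)
    tm_id.snd tm_id.fst), fun x t => funext fun n => ?_⟩
  cases n with
  | zero => exact h x t
  | succ n => simp only [Function.iterate_succ_apply, h', cons_succ]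

/-- Decoding of nested pairs. -/
noncomputable def ttrD : g.M → ℕ → g.M := ttr_exists_dec.choose

theorem ttrD_pr (x t : g.M) : ttrD (pr x t) = cons x (ttrD t) := ttr_exists_dec.choose_spec.2 x t

/-- `X` is the section of `D` at `t`. -/
def TSec1 (A D t X : g.M) : Prop := Ext1 g.E A (fun x => g.E (pr x t) D) X

/-- `X` is the binary section of `D` at `t`. -/
def TSec2 (A D t X : g.M) : Prop := Ext2 g.E A (fun x y => g.E (pr y (pr x t)) D) X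

section

variable {Γ : Type*} [Cd g Γ] {f h k : Γ → g.M}

@[fun_prop] theorem tm_ttrD {n : Γ → ℕ} (hf : g.Tm f) (hn : g.Tm n) :
    g.Tm (fun x => ttrD (f x) (n x)) :=
  Tm.comp₂ (F := ttrD) ttr_exists_dec.choose_spec.1 hf hn

@[fun_prop] theorem tm_tSec1 (A : g.M) (hf : g.Tm f) (hh : g.Tm h) (hk : g.Tm k) :
    g.Tm (fun x => TSec1 A (f x) (h x) (k x)) := by
  unfold TSec1 Ext1
  fun_prop

@[fun_prop] theorem tm_tSec2 (A : g.M) (hf : g.Tm f) (hh : g.Tm h) (hk : g.Tm k) :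
    g.Tm (fun x => TSec2 A (f x) (h x) (k x)) := by
  unfold TSec2 Ext2
  fun_prop

theorem ttr_tm_qq {α : Ordinal.{1}} {a : g.M} (H : Rep g.E a α) :
    g.Tm (fun z : g.M × g.M × g.M => QQ g.E α z.1 z.2.1 z.2.2) := by
  simp only [qq_iff H]
  fun_prop

theorem ttr_tm_rr {α : Ordinal.{1}} {a : g.M} (H : Rep g.E a α) :
    g.Tm (fun z : g.M × g.M => RR g.E α z.1 z.2) := by
  simp only [rr_iff H]
  fun_prop

end

theorem ttr_tup (l : List g.M) : ∃ u, ∀ w, Tup g.E l w ↔ w = u := by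
  induction l with
  | nil => exact ⟨g.nat 0, fun w => ⟨eq_zero, fun e => e ▸ not_E_zero⟩⟩
  | cons a l ih =>
    obtain ⟨u, hu⟩ := ih
    exact ⟨pr a u, fun w => ⟨fun ⟨s, h₁, h₂⟩ => (hu s).1 h₁ ▸ isPair_iff.1 h₂,
      fun e => ⟨u, (hu u).2 rfl, isPair_iff.2 e⟩⟩⟩

theorem ttr_graph {V : g.M} {Q : g.M → g.M → Prop}
    (hQ : g.Tm (fun z : g.M × g.M => Q z.1 z.2)) (h : ∀ t, g.E t V → ∃ u, ∀ w, Q t w ↔ w = u) :
    ∃ G, ∀ t, g.E t V → ∀ u, App g.E G t u ↔ Q t u := by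
  obtain ⟨G, B, h₁, h₂⟩ := exists_fun' (A := V) hQ fun t ht =>
    (h t ht).imp fun u hu => (hu u).2 rfl
  refine ⟨G, fun t ht u => ⟨h₂ t u, fun hu => ?_⟩⟩
  obtain ⟨w, -, hw⟩ := fun_ex h₁ ht
  obtain ⟨u', h'⟩ := h t ht
  rwa [(h' u).1 hu, ← (h' w).1 (h₂ t w hw)]

theorem Facts.ttr_hc {α γ : Ordinal.{1}} {k s : g.M} (F : g.Facts α γ k s)
    (L : List (g.M → g.M → g.M → g.M → Prop))
    (hL : ∀ Θ ∈ L, g.Tm (fun z : g.M × g.M × g.M × g.M => Θ z.1 z.2.1 z.2.2.1 z.2.2.2))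
    (S : List (g.M → g.M → g.M → Prop))
    (hS : ∀ Φ ∈ S, g.Tm (fun z : g.M × g.M × g.M => Φ z.1 z.2.1 z.2.2))
    {ξ : g.M} (hξ : g.E ξ k) :
    ∃ Y π m a, HC g α k Y π m a ∧ Sub g.E ξ Y ∧ (∀ Θ ∈ L, Cl3 g.E Y Θ) ∧
      ∀ Φ ∈ S, ∀ V b c, g.E V Y → g.E b Y → g.E c Y →
        ∃ D, g.E D Y ∧ ∀ t, g.E t V → (g.E t D ↔ Φ b c t) := by
  obtain ⟨Y, π, m, a, H, h₁, h₂⟩ := F.exists_hc
    (L ++ S.map fun Φ a b c y => ∀ t, g.E t a → (g.E t y ↔ Φ b c t)) (fun Θ hΘ => by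
      rcases List.mem_append.1 hΘ with h | h
      · exact hL Θ h
      · obtain ⟨Φ, hΦ, rfl⟩ := List.mem_map.1 h
        refine tm_all (tm_imp (by fun_prop) (tm_iff (by fun_prop) ?_))
        exact (hS Φ hΦ).comp (f := fun z : (g.M × g.M × g.M × g.M) × g.M =>
          (z.1.2.1, z.1.2.2.1, z.2)) (by fun_prop)) hξ
  refine ⟨Y, π, m, a, H, h₁, fun Θ h => h₂ Θ (List.mem_append_left _ h),
    fun Φ h V b c hV hb hc => h₂ _ (List.mem_append_right _ (List.mem_map_of_mem h)) V b c hV hb hc ?_⟩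
  obtain ⟨D, hD⟩ := tm_sep (Q := Φ b c)
    ((hS Φ h).comp (f := fun t : g.M => (b, c, t)) (by fun_prop)) V
  exact ⟨D, fun t ht => (hD t).trans ⟨fun h => h.2, fun h => ⟨ht, h⟩⟩⟩

end Gen

end Pool.Agent.MP_85ce7b_lc
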