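import Pool.Agent.MP_85ce7b_lc.L.THull2
import Pool.Agent.MP_85ce7b_lc.L.TEx
import Pool.Agent.MP_85ce7b_lc.L.TTr1

namespace Pool.Agent.MP_85ce7b_lc

open Pool.Agent.MP_c6cf52_lc

namespace Gen

variable {P : Type 2} [Sz P] [Preorder P] [OrderTop P] [Tame P] {g : Gen P}

/-- Operations with witnesses. -/
def ttrL (A f : g.M) : List (g.M → g.M → g.M → g.M → Prop) :=
  [fun a _ _ y => ∀ x t, g.E x A → g.E t a → g.E (pr x t) y,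
    fun a _ _ y => g.E a y,
    fun a b _ y => TSec1 A a b y,
    fun a b _ y => TSec2 A a b y,
    fun a _ _ y => g.E y A ∧ ¬ g.E y a,
    fun a _ _ y => App g.E f y a,
    fun a _ _ y => ∀ t, g.E t a → ∀ u, App g.E y t u ↔ ∀ x, ¬ g.E x u,
    fun a b c y => ∀ t, g.E t a → ∀ u, App g.E y t u ↔
      ∃ i : ℕ, b = g.nat i ∧ ∃ s, App g.E c t s ∧ IsPair g.E u (ttrD t i) s]

/-- Operations given by separation. -/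
def ttrS (α : Ordinal.{1}) (A J : g.M) : List (g.M → g.M → g.M → Prop) :=
  [fun b c t => ∃ S u, App g.E J b S ∧ App g.E c t u ∧ g.E u S,
    fun b c t => ∃ i j : ℕ, b = g.nat i ∧ c = g.nat j ∧ ttrD t i = ttrD t j,
    fun b c t => g.E t b → g.E t c,
    fun b _ t => ∀ x, g.E x A → g.E (pr x t) b,
    fun b c t => ∃ X X', TSec1 A b t X ∧ TSec1 A c t X' ∧ EqC g.E X X',
    fun b c t => ∃ D D', b = pr D D' ∧
      ∃ X X' Z, TSec2 A D t X ∧ TSec2 A D' t X' ∧ TSec2 A c t Z ∧ QQ g.E α X X' Z,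
    fun b c t => ∃ X Z, TSec1 A b t X ∧ TSec2 A c t Z ∧ RR g.E α X Z]

theorem ttrL_tm (A f : g.M) : ∀ Θ ∈ ttrL A f,
    g.Tm (fun z : g.M × g.M × g.M × g.M => Θ z.1 z.2.1 z.2.2.1 z.2.2.2) := by
  simp only [ttrL, List.forall_mem_cons]
  refine ⟨?_, ?_, ?_, ?_, ?_, ?_, ?_, ?_, fun _ h => (List.not_mem_nil h).elim⟩ <;> fun_prop

theorem ttrS_tm {α : Ordinal.{1}} {a : g.M} (H : Rep g.E a α) (A J : g.M) : ∀ Φ ∈ ttrS α A J,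
    g.Tm (fun z : g.M × g.M × g.M => Φ z.1 z.2.1 z.2.2) := by
  simp only [ttrS, List.forall_mem_cons, qq_iff H, rr_iff H]
  refine ⟨?_, ?_, ?_, ?_, ?_, ?_, ?_, fun _ h => (List.not_mem_nil h).elim⟩ <;> fun_prop

section

variable {α : Ordinal.{1}} {k Y π m a A J f : g.M}

theorem ttr_gr (H : HC g α k Y π m a) (hL : ∀ Θ ∈ ttrL A f, Cl3 g.E Y Θ) {V : g.M}
    (hV : g.E V Y) (l : List ℕ) :
    ∃ G, g.E G Y ∧ ∀ t, g.E t V → ∀ u, App g.E G t u ↔ Tup g.E (l.map (ttrD t)) u := by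
  simp only [ttrL, List.forall_mem_cons] at hL
  obtain ⟨-, -, -, -, -, -, h₁, h₂, -⟩ := hL
  induction l with
  | nil => exact h₁ V V V hV hV hV (ttr_graph (by fun_prop) fun _ _ => ttr_tup [])
  | cons i l ih =>
    obtain ⟨G, hG, h⟩ := ih
    have e : ∀ t, g.E t V → ∀ u, (∃ j : ℕ, g.nat i = g.nat j ∧
        ∃ s, App g.E G t s ∧ IsPair g.E u (ttrD t j) s) ↔ Tup g.E ((i :: l).map (ttrD t)) u :=
      fun t ht u => ⟨fun ⟨j, e, s, h₃, h₄⟩ => ⟨s, (h t ht s).1 h₃, nat_inj e ▸ h₄⟩,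
        fun ⟨s, h₃, h₄⟩ => ⟨i, rfl, s, (h t ht s).2 h₃, h₄⟩⟩
    obtain ⟨G', hG', h'⟩ := h₂ V _ G hV (H.nat_mem i) hG (ttr_graph (by fun_prop) fun t ht =>
      (ttr_tup ((i :: l).map (ttrD t))).imp fun u hu w => (e t ht w).trans (hu w))
    exact ⟨G', hG', fun t ht u => (h' t ht u).trans (e t ht u)⟩

theorem ttr_def (H : HC g α k Y π m a) (hL : ∀ Θ ∈ ttrL A f, Cl3 g.E Y Θ)
    (hS : ∀ Φ ∈ ttrS α A J, ∀ V b c, g.E V Y → g.E b Y → g.E c Y →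
      ∃ D, g.E D Y ∧ ∀ t, g.E t V → (g.E t D ↔ Φ b c t))
    (hJ : ∀ r S, App g.E J r S → g.E r Y) (φ : Fm g.M) :
    ∀ V, g.E V Y → ∃ D, g.E D Y ∧ ∀ t, g.E t V → (g.E t D ↔ Tr g.E α A J φ (ttrD t)) := by
  have gr := fun V hV => ttr_gr H hL (V := V) hV
  simp only [ttrL, List.forall_mem_cons] at hL
  simp only [ttrS, List.forall_mem_cons] at hS
  obtain ⟨s₁, s₂, s₃, s₄, s₅, s₆, s₇, -⟩ := hS
  have pd : ∀ V, g.E V Y → ∃ V', g.E V' Y ∧ ∀ x t, g.E x A → g.E t V → g.E (pr x t) V' :=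
    fun V hV => hL.1 V V V hV hV hV (exists_pr_bound A V)
  have z := H.nat_mem 0
  induction φ with
  | rel r l =>
    intro V hV
    by_cases hr : g.E r Y
    · obtain ⟨G, hG, h⟩ := gr V hV l
      obtain ⟨D, hD, h'⟩ := s₁ V r G hV hr hG
      exact ⟨D, hD, fun t ht => (h' t ht).trans (exists_congr fun S => exists_congr fun u =>
        and_congr_right fun _ => and_congr_left fun _ => h t ht u)⟩
    · exact ⟨_, z, fun t _ => ⟨fun h => (not_E_zero t h).elim,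
        fun ⟨S, _, h, _⟩ => (hr (hJ r S h)).elim⟩⟩
  | eq i j =>
    intro V hV
    obtain ⟨D, hD, h⟩ := s₂ V _ _ hV (H.nat_mem i) (H.nat_mem j)
    exact ⟨D, hD, fun t ht => (h t ht).trans ⟨fun ⟨i', j', e, e', h⟩ => by
      rw [← nat_inj e, ← nat_inj e'] at h
      exact h, fun h => ⟨i, j, rfl, rfl, h⟩⟩⟩
  | bot => exact fun V _ => ⟨_, z, fun t _ => ⟨not_E_zero t, False.elim⟩⟩
  | imp φ ψ ih₁ ih₂ =>
    intro V hV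
    obtain ⟨D₁, hD₁, h₁⟩ := ih₁ V hV
    obtain ⟨D₂, hD₂, h₂⟩ := ih₂ V hV
    obtain ⟨D, hD, h⟩ := s₃ V _ _ hV hD₁ hD₂
    exact ⟨D, hD, fun t ht => (h t ht).trans (imp_congr (h₁ t ht) (h₂ t ht))⟩
  | all φ ih =>
    intro V hV
    obtain ⟨V', hV', p⟩ := pd V hV
    obtain ⟨D₁, hD₁, h₁⟩ := ih V' hV'
    obtain ⟨D, hD, h⟩ := s₄ V _ _ hV hD₁ hD₁
    exact ⟨D, hD, fun t ht => (h t ht).trans (forall_congr' fun x => imp_congr_right fun hx =>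
      ttrD_pr x t ▸ h₁ _ (p x t hx ht))⟩
  | I φ ψ ih₁ ih₂ =>
    intro V hV
    obtain ⟨V', hV', p⟩ := pd V hV
    obtain ⟨D₁, hD₁, h₁⟩ := ih₁ V' hV'
    obtain ⟨D₂, hD₂, h₂⟩ := ih₂ V' hV'
    obtain ⟨D, hD, h⟩ := s₅ V _ _ hV hD₁ hD₂
    refine ⟨D, hD, fun t ht => (h t ht).trans (Iff.trans ?_ ttr_I.symm)⟩
    exact exists_congr fun X => exists_congr fun X' => and_congr
      (ttr_ext1 fun x hx => ttrD_pr x t ▸ h₁ _ (p x t hx ht)) (and_congr_left fun _ =>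
        ttr_ext1 fun x hx => ttrD_pr x t ▸ h₂ _ (p x t hx ht))
  | Q φ ψ χ ih₁ ih₂ ih₃ =>
    intro V hV
    obtain ⟨V', hV', p⟩ := pd V hV
    obtain ⟨V'', hV'', p'⟩ := pd V' hV'
    obtain ⟨D₁, hD₁, h₁⟩ := ih₁ V'' hV''
    obtain ⟨D₂, hD₂, h₂⟩ := ih₂ V'' hV''
    obtain ⟨D₃, hD₃, h₃⟩ := ih₃ V'' hV''
    obtain ⟨D, hD, h⟩ := s₆ V _ _ hV (H.pr_iff.2 ⟨hD₁, hD₂⟩) hD₃
    refine ⟨D, hD, fun t ht => (h t ht).trans (Iff.trans ?_ ttr_Q.symm)⟩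
    simp only [pr_inj, and_assoc, exists_and_left, exists_eq_left']
    simp only [← exists_and_left]
    exact exists_congr fun X => exists_congr fun X' => exists_congr fun Z => and_congr
      (ttr_ext2 fun x y hx hy => ttrD_pr x t ▸ ttrD_pr y _ ▸ h₁ _ (p' y _ hy (p x t hx ht)))
      (and_congr
        (ttr_ext2 fun x y hx hy => ttrD_pr x t ▸ ttrD_pr y _ ▸ h₂ _ (p' y _ hy (p x t hx ht)))
        (and_congr_left fun _ => ttr_ext2 fun x y hx hy =>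
          ttrD_pr x t ▸ ttrD_pr y _ ▸ h₃ _ (p' y _ hy (p x t hx ht))))
  | R φ χ ih₁ ih₃ =>
    intro V hV
    obtain ⟨V', hV', p⟩ := pd V hV
    obtain ⟨V'', hV'', p'⟩ := pd V' hV'
    obtain ⟨D₁, hD₁, h₁⟩ := ih₁ V' hV'
    obtain ⟨D₃, hD₃, h₃⟩ := ih₃ V'' hV''
    obtain ⟨D, hD, h⟩ := s₇ V _ _ hV hD₁ hD₃
    refine ⟨D, hD, fun t ht => (h t ht).trans (Iff.trans ?_ ttr_R.symm)⟩
    exact exists_congr fun X => exists_congr fun Z => and_congr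
      (ttr_ext1 fun x hx => ttrD_pr x t ▸ h₁ _ (p x t hx ht))
      (and_congr_left fun _ => ttr_ext2 fun x y hx hy =>
        ttrD_pr x t ▸ ttrD_pr y _ ▸ h₃ _ (p' y _ hy (p x t hx ht)))

theorem ttr_elem (H : HC g α k Y π m a) (hL : ∀ Θ ∈ ttrL A f, Cl3 g.E Y Θ)
    (hD : ∀ (φ : Fm g.M) V, g.E V Y →
      ∃ D, g.E D Y ∧ ∀ t, g.E t V → (g.E t D ↔ Tr g.E α A J φ (ttrD t)))
    {B : g.M} (hB : IsInt g.E B A Y) (φ : Fm g.M) :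
    ∀ t, g.E t Y → (Tr g.E α B J φ (ttrD t) ↔ Tr g.E α A J φ (ttrD t)) := by
  simp only [ttrL, List.forall_mem_cons] at hL
  obtain ⟨l₁, l₂, l₃, l₄, l₅, -⟩ := hL
  have pd : ∀ V, g.E V Y → ∃ V', g.E V' Y ∧ ∀ x t, g.E x A → g.E t V → g.E (pr x t) V' :=
    fun V hV => l₁ V V V hV hV hV (exists_pr_bound A V)
  have e₁ : ∀ (φ : Fm g.M) t, g.E t Y →
      (∀ t, g.E t Y → (Tr g.E α B J φ (ttrD t) ↔ Tr g.E α A J φ (ttrD t))) →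
      ∃ X Xb, g.E X Y ∧ IsInt g.E Xb X Y ∧
        Ext1 g.E A (fun x => Tr g.E α A J φ (cons x (ttrD t))) X ∧
        Ext1 g.E B (fun x => Tr g.E α B J φ (cons x (ttrD t))) Xb := by
    intro φ t ht ih
    obtain ⟨V, hV, htV⟩ := l₂ t t t ht ht ht ⟨_, lt_sc t⟩
    obtain ⟨V', hV', p⟩ := pd V hV
    obtain ⟨D, hD, h⟩ := hD φ V' hV'
    obtain ⟨X, hX, h'⟩ := l₃ D t t hD ht ht (exists_ext1 A (by fun_prop))
    replace h' := (ttr_ext1 fun x hx => ttrD_pr x t ▸ h _ (p x t hx htV)).1 h'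
    obtain ⟨Xb, hb⟩ := exists_int X Y
    refine ⟨X, Xb, hX, hb, h', fun x => ?_⟩
    rw [hb, h', hB, and_right_comm]
    exact and_congr_right fun hx => (ttrD_pr x t ▸ ih _ (H.pr_iff.2 ⟨hx.2, ht⟩)).symm
  have e₂ : ∀ (φ : Fm g.M) t, g.E t Y →
      (∀ t, g.E t Y → (Tr g.E α B J φ (ttrD t) ↔ Tr g.E α A J φ (ttrD t))) →
      ∃ X Xb, g.E X Y ∧ IsInt g.E Xb X Y ∧
        Ext2 g.E A (fun x y => Tr g.E α A J φ (cons y (cons x (ttrD t)))) X ∧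
        Ext2 g.E B (fun x y => Tr g.E α B J φ (cons y (cons x (ttrD t)))) Xb := by
    intro φ t ht ih
    obtain ⟨V, hV, htV⟩ := l₂ t t t ht ht ht ⟨_, lt_sc t⟩
    obtain ⟨V', hV', p⟩ := pd V hV
    obtain ⟨V'', hV'', p'⟩ := pd V' hV'
    obtain ⟨D, hD, h⟩ := hD φ V'' hV''
    obtain ⟨X, hX, h'⟩ := l₄ D t t hD ht ht (exists_ext2 A (by fun_prop))
    replace h' := (ttr_ext2 fun x y hx hy =>
      ttrD_pr x t ▸ ttrD_pr y _ ▸ h _ (p' y _ hy (p x t hx htV))).1 h'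
    obtain ⟨Xb, hb⟩ := exists_int X Y
    have i : ∀ x y, g.E x Y → g.E y Y → (Tr g.E α B J φ (cons y (cons x (ttrD t))) ↔
        Tr g.E α A J φ (cons y (cons x (ttrD t)))) := fun x y hx hy =>
      ttrD_pr x t ▸ ttrD_pr y _ ▸ ih _ (H.pr_iff.2 ⟨hy, H.pr_iff.2 ⟨hx, ht⟩⟩)
    refine ⟨X, Xb, hX, hb, h', fun u => ?_⟩
    rw [hb, h']
    constructor
    · rintro ⟨⟨x, y, hx, hy, e, h₀⟩, hu⟩
      obtain ⟨hx', hy'⟩ := H.pr_iff.1 (isPair_iff.1 e ▸ hu)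
      exact ⟨x, y, (hB x).2 ⟨hx, hx'⟩, (hB y).2 ⟨hy, hy'⟩, e, (i x y hx' hy').2 h₀⟩
    · rintro ⟨x, y, hx, hy, e, h₀⟩
      obtain ⟨hx, hx'⟩ := (hB x).1 hx
      obtain ⟨hy, hy'⟩ := (hB y).1 hy
      exact ⟨⟨x, y, hx, hy, e, (i x y hx' hy').1 h₀⟩, isPair_iff.1 e ▸ H.pr_iff.2 ⟨hx', hy'⟩⟩
  induction φ with
  | rel r l => exact fun _ _ => Iff.rfl
  | eq i j => exact fun _ _ => Iff.rfl
  | bot => exact fun _ _ => Iff.rfl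
  | imp φ ψ ih₁ ih₂ => exact fun t ht => imp_congr (ih₁ t ht) (ih₂ t ht)
  | all φ ih =>
    intro t ht
    obtain ⟨X, Xb, hX, hb, h, h'⟩ := e₁ φ t ht ih
    refine ⟨fun h₀ x hx => ?_, fun h₀ x hx => ((h' x).1 ((hb x).2
      ⟨(h x).2 ⟨((hB x).1 hx).1, h₀ x ((hB x).1 hx).1⟩, ((hB x).1 hx).2⟩)).2⟩
    by_contra c
    obtain ⟨y, hy, h₁, h₂⟩ := l₅ X X X hX hX hX ⟨x, hx, fun e => c ((h x).1 e).2⟩
    have hyB := (hB y).2 ⟨h₁, hy⟩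
    exact h₂ ((hb y).1 ((h' y).2 ⟨hyB, h₀ y hyB⟩)).1
  | I φ ψ ih₁ ih₂ =>
    intro t ht
    obtain ⟨X, Xb, hX, hb, h, h'⟩ := e₁ φ t ht ih₁
    obtain ⟨X', Xb', hX', hb', k, k'⟩ := e₁ ψ t ht ih₂
    rw [ttr_I, ttr_I]
    exact ⟨fun ⟨_, _, h₁, h₂, h₃⟩ => ⟨X, X', h, k, (H.eqC_iff hX hX' hb hb').2
        (ext1_uniq h₁ h' ▸ ext1_uniq h₂ k' ▸ h₃)⟩,
      fun ⟨_, _, h₁, h₂, h₃⟩ => ⟨Xb, Xb', h', k', (H.eqC_iff hX hX' hb hb').1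
        (ext1_uniq h₁ h ▸ ext1_uniq h₂ k ▸ h₃)⟩⟩
  | Q φ ψ χ ih₁ ih₂ ih₃ =>
    intro t ht
    obtain ⟨X, Xb, hX, hb, h, h'⟩ := e₂ φ t ht ih₁
    obtain ⟨X', Xb', hX', hb', k, k'⟩ := e₂ ψ t ht ih₂
    obtain ⟨Z, Zb, hZ, hc, j, j'⟩ := e₂ χ t ht ih₃
    rw [ttr_Q, ttr_Q]
    exact ⟨fun ⟨_, _, _, h₁, h₂, h₃, h₄⟩ => ⟨X, X', Z, h, k, j, (H.qq_bar hX hX' hZ hb hb' hc).2
        (ext2_uniq h₁ h' ▸ ext2_uniq h₂ k' ▸ ext2_uniq h₃ j' ▸ h₄)⟩,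
      fun ⟨_, _, _, h₁, h₂, h₃, h₄⟩ => ⟨Xb, Xb', Zb, h', k', j', (H.qq_bar hX hX' hZ hb hb' hc).1
        (ext2_uniq h₁ h ▸ ext2_uniq h₂ k ▸ ext2_uniq h₃ j ▸ h₄)⟩⟩
  | R φ χ ih₁ ih₃ =>
    intro t ht
    obtain ⟨X, Xb, hX, hb, h, h'⟩ := e₁ φ t ht ih₁
    obtain ⟨Z, Zb, hZ, hc, j, j'⟩ := e₂ χ t ht ih₃
    rw [ttr_R, ttr_R]
    exact ⟨fun ⟨_, _, h₁, h₃, h₄⟩ => ⟨X, Z, h, j, (H.rr_bar hX hZ hb hc).2
        (ext1_uniq h₁ h' ▸ ext2_uniq h₃ j' ▸ h₄)⟩,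
      fun ⟨_, _, h₁, h₃, h₄⟩ => ⟨Xb, Zb, h', j', (H.rr_bar hX hZ hb hc).1
        (ext1_uniq h₁ h ▸ ext2_uniq h₃ j ▸ h₄)⟩⟩

theorem ttr_enc (H : HC g α k Y π m a) (n : ℕ) : ∀ v : ℕ → g.M, (∀ i, g.E (v i) Y) →
    ∃ t, g.E t Y ∧ ∀ i < n, v i = ttrD t i := by
  induction n with
  | zero => exact fun _ _ => ⟨_, H.nat_mem 0, fun i hi => (Nat.not_lt_zero i hi).elim⟩
  | succ n ih =>
    intro v hv
    obtain ⟨t, ht, h⟩ := ih (fun i => v (i + 1)) fun i => hv _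
    refine ⟨pr (v 0) t, H.pr_iff.2 ⟨hv 0, ht⟩, fun i hi => ?_⟩
    rw [ttrD_pr]
    cases i with
    | zero => rfl
    | succ i => exact h i (by omega)

end

theorem Facts.works {α γ : Ordinal.{1}} {k s : g.M} (F : g.Facts α γ k s) (q : Bool) :
    Works g.E α q k := by
  rintro L A J ⟨⟨x₀, hx₀⟩, ⟨Y₀, hJ⟩, -⟩ ⟨b, f, hb, hf⟩
  obtain ⟨a', h₁, h₂⟩ := F.al
  obtain ⟨Y, π, m, a, H, hb', hL, hS⟩ := F.ttr_hc _ (ttrL_tm A f) _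
    (ttrS_tm ⟨isOrd_of_E (isOrd_of_E F.k_ord F.s_k) h₁, h₂⟩ A J) hb
  have hL' := hL
  simp only [ttrL, List.forall_mem_cons] at hL'
  obtain ⟨-, -, -, -, l₅, l₆, -⟩ := hL'
  have hD := ttr_def H hL hS fun r S h => by
    obtain ⟨i, hi, h'⟩ := fun_ex hf.1 (fun_mem hJ h).1
    obtain ⟨r', h₃, h₄⟩ := l₆ i i i (hb' i hi) (hb' i hi) (hb' i hi) ⟨r, h'⟩
    exact hf.2 _ _ _ h₄ h' ▸ h₃
  obtain ⟨B, hB⟩ := exists_int A Y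
  have z := H.nat_mem 0
  obtain ⟨x, hx, hx', -⟩ := l₅ _ _ _ z z z ⟨x₀, hx₀, not_E_zero _⟩
  refine ⟨B, fun x h => ((hB x).1 h).1, ⟨x, (hB x).2 ⟨hx', hx⟩⟩,
    lt_of_leC (leC_of_sub fun x h => ((hB x).1 h).2) H.hull.1, fun φ _ v hv => ?_⟩
  obtain ⟨n, hn⟩ := ttr_bound g.E α J φ
  obtain ⟨t, ht, h⟩ := ttr_enc H n v fun i => ((hB _).1 (hv i)).2
  rw [hn B _ _ h, hn A _ _ h]
  exact ttr_elem H hL hD hB φ t ht

end Gen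

end Pool.Agent.MP_85ce7b_lc
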