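import Pool.Agent.MP_85ce7b_lc.L.WDec

namespace Pool.Agent.MP_85ce7b_lc

open Set Cardinal Ordinal Filter

/-- A fine, normal, `κ`-complete ultrafilter on the small subsets of `lam`. -/
structure SCO (κ lam : Od) (U : Ultrafilter (Set Od)) : Prop where
  sub : {X | X ⊆ Iio lam} ∈ U
  card : {X : Set Od | Cardinal.mk X < lift.{2} κ.card} ∈ U
  fine : ∀ a < lam, {X | a ∈ X} ∈ U
  comp : ∀ ζ < κ, ∀ Z : Od → Set (Set Od), (∀ i < ζ, Z i ∈ U) → {X | ∀ i < ζ, X ∈ Z i} ∈ U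
  nor : ∀ f : Set Od → Od, {X | f X ∈ X} ∈ U → ∃ a, {X | f X = a} ∈ U

theorem exists_sco {κ θ : Cardinal.{1}} (sc : ∀ T : Type 1, Cardinal.mk T < θ → SCOn κ T)
    {lam : Od} (h : lam < θ.ord) : ∃ U, SCO κ.ord lam U := by
  classical
  obtain ⟨U, h₁, h₂, h₃, h₄⟩ := sc lam.ToType (by rw [mk_toType]; exact lt_ord.1 h)
  let j : lam.ToType → Od := fun t => ((Ordinal.ToType.mk (o := lam)).symm t).1
  have j₁ : Function.Injective j := fun a b e =>
    (Ordinal.ToType.mk (o := lam)).symm.injective (Subtype.ext e)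
  refine ⟨U.map (fun X => j '' X), ?_, ?_, fun a ha => ?_, fun ζ hζ Z hZ => ?_, fun f hf => ?_⟩
  · refine Ultrafilter.mem_map.2 (Filter.univ_mem' fun X => ?_)
    rintro _ ⟨t, -, rfl⟩
    exact ((Ordinal.ToType.mk (o := lam)).symm t).2
  · refine Ultrafilter.mem_map.2 (Filter.mem_of_superset h₁ fun X hX => ?_)
    have := mk_image_le_lift (f := j) (s := X)
    rw [Cardinal.lift_id'.{1, 2}] at this
    show Cardinal.mk (j '' X) < _
    rw [card_ord]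
    exact this.trans_lt (lift_lt.2 hX)
  · exact Ultrafilter.mem_map.2 (Filter.mem_of_superset (h₂ (Ordinal.ToType.mk ⟨a, ha⟩))
      fun X hX => ⟨_, hX, by simp [j]⟩)
  · let Z' : ζ.ToType → Set (Set lam.ToType) := fun i =>
      (fun X => j '' X) ⁻¹' Z ((Ordinal.ToType.mk (o := ζ)).symm i).1
    refine Ultrafilter.mem_map.2 (Filter.mem_of_superset (h₃ (range Z') (mk_range_le.trans_lt ?_) ?_)
      fun X hX i hi => ?_)
    · rw [mk_toType]; exact lt_ord.1 hζ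
    · rintro _ ⟨i, rfl⟩
      exact Ultrafilter.mem_map.1 (hZ _ ((Ordinal.ToType.mk (o := ζ)).symm i).2)
    · simpa [Z'] using hX _ ⟨Ordinal.ToType.mk ⟨i, hi⟩, rfl⟩
  · have hf' := Ultrafilter.mem_map.1 hf
    obtain ⟨X₀, t₀, -⟩ := U.nonempty_of_mem hf'
    have : Nonempty lam.ToType := ⟨t₀⟩
    obtain ⟨t, ht⟩ := h₄ (fun X => Function.invFun j (f (j '' X)))
      (Filter.mem_of_superset hf' fun X ⟨t, k₁, k₂⟩ => by
        show Function.invFun j _ ∈ X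
        rw [← k₂, Function.leftInverse_invFun j₁ t]
        exact k₁)
    refine ⟨j t, Ultrafilter.mem_map.2 ?_⟩
    filter_upwards [hf', ht] with X ⟨t', _, k₂⟩ k₃
    show f _ = _
    rw [← k₃, ← k₂, Function.leftInverse_invFun j₁ t']

/-- A statement about all objects holds almost everywhere once it holds along every choice. -/
theorem ev_all {X β : Type*} [Nonempty β] {F : Filter X} {Φ : β → X → Prop}
    (h : ∀ f : X → β, ∀ᶠ x in F, Φ (f x) x) : ∀ᶠ x in F, ∀ b, Φ b x := by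
  classical
  have H : ∀ x, ∃ b, Φ b x → ∀ b', Φ b' x := by
    intro x
    by_cases hx : ∀ b', Φ b' x
    · exact ⟨Classical.arbitrary β, fun _ => hx⟩
    · obtain ⟨b, hb⟩ := not_forall.1 hx
      exact ⟨b, fun h' => absurd h' hb⟩
  choose f hf using H
  exact (h f).mono fun x hx => hf x hx

/-- An implication holds almost everywhere if the conclusion does whenever the premise does. -/
theorem ev_imp {X : Type*} {U : Ultrafilter X} {Φ Ψ : X → Prop}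
    (h : (∀ᶠ x in U, Φ x) → ∀ᶠ x in U, Ψ x) : ∀ᶠ x in U, Φ x → Ψ x := by
  by_cases k : ∀ᶠ x in (U : Filter X), Φ x
  · exact (h k).mono fun x hx _ => hx
  · exact (Ultrafilter.eventually_not.2 k).mono fun x hx h' => absurd h' hx

/-- The least ordinal not in `X`. -/
noncomputable def mu (X : Set Od) : Od := sInf Xᶜ

theorem mem_of_lt_mu {X : Set Od} {a : Od} (h : a < mu X) : a ∈ X :=
  not_not.1 (notMem_of_lt_csInf' h)

namespace SCO

variable {κ lam : Od} {U : Ultrafilter (Set Od)} (h : SCO κ lam U)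
include h

theorem all {ζ : Od} (hζ : ζ < κ) {Φ : Od → Set Od → Prop} (H : ∀ i < ζ, ∀ᶠ X in U, Φ i X) :
    ∀ᶠ X in U, ∀ i < ζ, Φ i X := h.comp ζ hζ (fun i => {X | Φ i X}) H

theorem ctbl (hκ : ω < κ) {ι : Type*} [Countable ι] {Φ : ι → Set Od → Prop}
    (H : ∀ i, ∀ᶠ X in U, Φ i X) : ∀ᶠ X in U, ∀ i, Φ i X := by
  obtain ⟨f, hf⟩ := exists_injective_nat ι
  refine (h.all hκ (Φ := fun a X => ∀ i, (f i : Od) = a → Φ i X) fun a _ => ?_).mono
    fun X hX i => hX _ (natCast_lt_omega0 _) i rfl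
  by_cases k : ∃ i, (f i : Od) = a
  · obtain ⟨i, rfl⟩ := k
    exact (H i).mono fun X hX j e => hf (Nat.cast_injective e) ▸ hX
  · exact Eventually.of_forall fun X i e => absurd ⟨i, e⟩ k

theorem const {f : Set Od → Od} (H : ∀ᶠ X in U, f X ∈ X) : ∃ a < lam, ∀ᶠ X in U, f X = a := by
  obtain ⟨a, ha⟩ := h.nor f H
  obtain ⟨X, k₁, k₂, k₃⟩ := (Eventually.and H (Eventually.and ha h.sub)).exists
  exact ⟨a, k₂ ▸ k₃ k₁, ha⟩

theorem diag {Φ : Od → Set Od → Prop} (H : ∀ a < lam, ∀ᶠ X in U, Φ a X) :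
    ∀ᶠ X in U, ∀ a ∈ X, Φ a X :=
  ev_all fun f => ev_imp fun k => by
    obtain ⟨a, h₁, h₂⟩ := h.const k
    filter_upwards [h₂, H a h₁] with X e₁ e₂
    rwa [e₁]

theorem iio {ξ : Od} (h₁ : ξ < κ) (h₂ : ξ ≤ lam) : {X | Iio ξ ⊆ X} ∈ U :=
  h.all h₁ (Φ := fun i X => i ∈ X) fun i hi => h.fine i (hi.trans_le h₂)

theorem diagL {Φ : List Od → Set Od → Prop} (H : ∀ l, (∀ x ∈ l, x < lam) → ∀ᶠ X in U, Φ l X)
    (n : ℕ) : ∀ᶠ X in U, ∀ l, l.length = n → (∀ x ∈ l, x ∈ X) → Φ l X := by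
  induction n generalizing Φ with
  | zero =>
    exact (H [] (by simp)).mono fun X hX l hl _ => List.length_eq_zero_iff.1 hl ▸ hX
  | succ n ih =>
    refine (h.diag fun a ha => ih (Φ := fun l => Φ (a :: l)) fun l hl =>
      H _ (List.forall_mem_cons.2 ⟨ha, hl⟩)).mono fun X hX l hl hl' => ?_
    obtain _ | ⟨a, l⟩ := l
    · simp at hl
    · exact hX a (hl' a List.mem_cons_self) l (by simpa using hl)
        fun x hx => hl' x (List.mem_cons_of_mem _ hx)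

/-- Almost all sets are closed under countably many operations. -/
theorem wit (hκ : ω < κ) (Φ : ℕ → List Od → Od)
    (hΦ : ∀ n l, (∀ x ∈ l, x < lam) → Φ n l < lam) :
    {X | ∀ n l, (∀ x ∈ l, x ∈ X) → Φ n l ∈ X} ∈ U :=
  (h.ctbl hκ fun z : ℕ × ℕ => h.diagL (Φ := fun l X => Φ z.1 l ∈ X)
    (fun l hl => h.fine _ (hΦ _ l hl)) z.2).mono fun _ hX n l hl => hX (n, l.length) l rfl hl

theorem diag2 {Φ : Od → Od → Set Od → Prop} (H : ∀ a < lam, ∀ b < lam, ∀ᶠ X in U, Φ a b X) :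
    ∀ᶠ X in U, ∀ a ∈ X, ∀ b ∈ X, Φ a b X := h.diag fun a ha => h.diag (H a ha)

theorem diag3 {Φ : Od → Od → Od → Set Od → Prop}
    (H : ∀ a < lam, ∀ b < lam, ∀ c < lam, ∀ᶠ X in U, Φ a b c X) :
    ∀ᶠ X in U, ∀ a ∈ X, ∀ b ∈ X, ∀ c ∈ X, Φ a b c X := h.diag fun a ha => h.diag2 (H a ha)

/-- Closure under witnesses. -/
theorem ex_mem {Φ : Od → Prop} (H : ∀ c, Φ c → c < lam) :
    ∀ᶠ X : Set Od in U, (∃ c, Φ c) → ∃ c ∈ X, Φ c :=
  ev_imp fun k =>
    let ⟨_, c, hc⟩ := k.exists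
    Filter.mem_of_superset (h.fine c (H c hc)) fun _ hX => ⟨c, hX, hc⟩

omit h in
theorem ev_iff (Φ : Set Od → Prop) : ∀ᶠ X in U, (Φ X ↔ ∀ᶠ Y in U, Φ Y) := by
  by_cases k : ∀ᶠ Y in (U : Filter (Set Od)), Φ Y
  · exact k.mono fun X hX => iff_of_true hX k
  · exact (Ultrafilter.eventually_not.2 k).mono fun X hX => iff_of_false hX k

/-- Sets of triples on `X` are traces of coded sets. -/
theorem trace (cd : Od → Set (Od × Od × Od))
    (Φ : Set Od → Set (Od × Od × Od) → Prop)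
    (hΦ : ∀ S : Set Od → Set (Od × Od × Od), {X | Φ X (S X)} ∈ U →
      ∃ c < lam, ∀ z, z ∈ cd c ↔ {X | z ∈ S X} ∈ U) :
    {X | ∀ S, Φ X S → ∃ c ∈ X, ∀ z : Od × Od × Od, z.1 ∈ X → z.2.1 ∈ X → z.2.2 ∈ X →
      (z ∈ cd c ↔ z ∈ S)} ∈ U :=
  ev_all (F := (U : Filter (Set Od))) fun S => ev_imp fun k => by
    obtain ⟨c, h₁, h₂⟩ := hΦ S k
    filter_upwards [h.fine c h₁, h.diag3 fun a _ b _ d _ => ev_iff fun X => (a, b, d) ∈ S X]
      with X e₁ e₂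
    exact ⟨c, e₁, fun z k₁ k₂ k₃ => (h₂ z).trans (e₂ _ k₁ _ k₂ _ k₃).symm⟩

theorem mu_lt : ∀ᶠ X in U, mu X < κ := by
  filter_upwards [h.card] with X hX
  by_contra k
  have := (mk_le_mk_of_subset (s := Iio κ) (t := X)
    fun a ha => mem_of_lt_mu (lt_of_lt_of_le ha (not_lt.1 k))).trans_lt hX
  rw [Cardinal.mk_Iio_ordinal] at this
  exact lt_irrefl _ this

theorem mu_notMem : ∀ᶠ X in U, mu X ∉ X := by
  filter_upwards [h.sub] with X hX
  exact csInf_mem (s := Xᶜ) ⟨lam, fun k => lt_irrefl _ (mem_Iio.1 (hX k))⟩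

theorem lt_mu (hl : κ ≤ lam) {a : Od} (ha : a < κ) : ∀ᶠ X in U, a < mu X := by
  filter_upwards [h.iio ha (ha.le.trans hl), h.fine a (ha.trans_le hl), h.mu_notMem]
    with X e₁ e₂ e₃
  rcases lt_trichotomy a (mu X) with k | k | k
  · exact k
  · exact absurd (k ▸ e₂) e₃
  · exact absurd (e₁ k) e₃

theorem lt_mu_of_mem (hl : κ ≤ lam) : ∀ᶠ X in U, ∀ a ∈ X, a < κ → a < mu X :=
  h.diag fun _ _ => ev_imp fun k => h.lt_mu hl k.exists.choose_spec

theorem const_mu {f : Set Od → Od} (H : ∀ᶠ X in U, f X < mu X) :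
    ∃ a < κ, ∀ᶠ X in U, f X = a := by
  obtain ⟨a, -, ha⟩ := h.const (H.mono fun X => mem_of_lt_mu)
  obtain ⟨X, k₁, k₂, k₃⟩ := (Eventually.and H (Eventually.and ha h.mu_lt)).exists
  exact ⟨a, k₂ ▸ k₁.trans k₃, ha⟩

theorem diag_mu {Φ : Od → Set Od → Prop} (H : ∀ a < κ, ∀ᶠ X in U, Φ a X) :
    ∀ᶠ X in U, ∀ a < mu X, Φ a X :=
  ev_all fun f => ev_imp fun k => by
    obtain ⟨a, h₁, h₂⟩ := h.const_mu k
    filter_upwards [h₂, H a h₁] with X e₁ e₂
    rwa [e₁]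

end SCO

end Pool.Agent.MP_85ce7b_lc
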