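import Pool.Agent.MP_85ce7b_lc.L.W0

namespace Pool.Agent.MP_85ce7b_lc

open Set Cardinal Ordinal Filter

theorem inac_of {μ : Od} (h₀ : ω < μ) (h₁ : ∀ ν < μ, ∀ f : Od → Od, (∀ i < ν, f i < μ) →
    ∃ b < μ, ∀ i < ν, f i < b) (h₂ : ∀ a < μ, ((2 : Cardinal.{1}) ^ a.card).ord < μ) : Inac μ := by
  have hc : μ.card.ord = μ := by
    refine le_antisymm (ord_card_le μ) (not_lt.1 fun k => ?_)
    have := card_le_card (h₂ _ k).le
    rw [card_ord, card_ord] at this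
    exact (cantor _).not_ge this
  have h₃ : ℵ₀ < μ.card := by
    have := card_le_card (h₂ _ h₀).le
    rw [card_ord, card_omega0] at this
    exact (cantor _).trans_le this
  refine ⟨μ.card, ⟨h₃, ?_, fun c k => ?_⟩, hc⟩
  · rw [hc]
    by_contra k
    obtain ⟨f, k₁, k₂⟩ := exists_cof_map μ
    obtain ⟨b, k₃, k₄⟩ := h₁ _ (by rw [← hc, ord_lt_ord, hc]; exact not_le.1 k) f k₁
    obtain ⟨i, k₅, k₆⟩ := k₂ b k₃
    exact (k₄ i k₅).not_ge k₆
  · have := h₂ c.ord (by rw [← hc]; exact ord_lt_ord.2 k)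
    rw [card_ord, ← hc] at this
    exact ord_lt_ord.1 this

namespace SCO

variable {κ lam : Od} {U : Ultrafilter (Set Od)} (h : SCO κ lam U)
include h

theorem inac (h₀ : ω < κ) (hl : κ ≤ lam) (hc : κ.card.ord = κ) : Inac κ := by
  refine inac_of h₀ (fun ν hν f hf => ?_) fun a ha => ?_
  · obtain ⟨X, k₁, k₂⟩ := ((h.all hν fun i hi => h.lt_mu hl (hf i hi)).and h.mu_lt).exists
    exact ⟨_, k₂, k₁⟩
  · by_contra k
    have : Cardinal.mk (Iio κ) ≤ Cardinal.mk (𝒫 (Iio a)) := by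
      rw [mk_powerset, Cardinal.mk_Iio_ordinal, Cardinal.mk_Iio_ordinal, ← lift_two_power,
        Cardinal.lift_le, ← ord_le_ord, hc]
      exact not_lt.1 k
    obtain ⟨e⟩ := this
    let S : Set Od → Set Od := fun X => {i | ∃ hX : mu X < κ, i ∈ (e ⟨mu X, hX⟩).1}
    have k₁ := h.all ha fun i _ => ev_iff (U := U) fun X => i ∈ S X
    obtain ⟨X, x₁, x₂⟩ := (k₁.and h.mu_lt).exists
    obtain ⟨Y, y₁, y₂, y₃⟩ := (k₁.and (h.mu_lt.and (h.lt_mu hl x₂))).exists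
    have := e.injective (a₁ := ⟨mu X, x₂⟩) (a₂ := ⟨mu Y, y₂⟩) (Subtype.ext (Set.ext fun i => ?_))
    · exact y₃.ne (congrArg Subtype.val this)
    · constructor
      · intro hi
        have hia := (e ⟨mu X, x₂⟩).2 hi
        exact ((y₁ i hia).2 ((x₁ i hia).1 ⟨x₂, hi⟩)).2
      · intro hi
        have hia := (e ⟨mu Y, y₂⟩).2 hi
        exact ((x₁ i hia).2 ((y₁ i hia).1 ⟨y₂, hi⟩)).2

theorem mu_inac (hκ : Inac κ) (hl : κ ≤ lam) : ∀ᶠ X in U, Inac (mu X) := by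
  have h₁ : ∀ᶠ X in (U : Filter (Set Od)), ∀ ν < mu X, ∀ f : Od → Od, (∀ i < ν, f i < mu X) →
      ∃ b < mu X, ∀ i < ν, f i < b := by
    refine h.diag_mu fun ν hν => ev_all fun f => ev_imp fun k => ?_
    have k₁ : ∀ i, ∃ a, i < ν → a < κ ∧ ∀ᶠ X in (U : Filter (Set Od)), f X i = a := fun i => by
      by_cases hi : i < ν
      · obtain ⟨a, ha⟩ := h.const_mu (k.mono fun X hX => hX i hi)
        exact ⟨a, fun _ => ha⟩
      · exact ⟨0, fun e => absurd e hi⟩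
    choose g hg using k₁
    obtain ⟨b, b₁, b₂⟩ := hκ.bound hν g fun i hi => (hg i hi).1
    filter_upwards [h.lt_mu hl b₁, h.all hν fun i hi => (hg i hi).2] with X e₁ e₂
    exact ⟨b, e₁, fun i hi => e₂ i hi ▸ b₂ i hi⟩
  filter_upwards [h.lt_mu hl hκ.omega_lt, h₁, h.diag_mu fun a ha => h.lt_mu hl
    (hκ.lt_of_card (x := ((2 : Cardinal.{1}) ^ a.card).ord) (by
      rw [card_ord]; exact hκ.two_pow_lt (hκ.card_lt ha)))] with X
  exact inac_of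

theorem mu_si (hκ : Inac κ) (hl : κ ≤ lam) {δ : Od} (hδ : δ < κ) : ∀ᶠ X in U, SI δ (mu X) := by
  induction δ using WellFoundedLT.induction with
  | _ δ ih =>
    have k : ∀ β < δ, ∀ᶠ X in (U : Filter (Set Od)), ∀ y < mu X, ∃ z, y < z ∧ z < mu X ∧ SI β z :=
      fun β hβ => h.diag_mu fun y hy => by
        obtain ⟨Y, k₁, k₂, k₃⟩ := ((ih β hβ (hβ.trans hδ)).and ((h.lt_mu hl hy).and h.mu_lt)).exists
        exact (h.lt_mu hl k₃).mono fun X hX => ⟨_, k₂, hX, k₁⟩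
    filter_upwards [h.mu_inac hκ hl, h.all hδ k] with X e₁ e₂
    exact SI_iff.2 ⟨e₁, fun β hβ _ => e₂ β hβ⟩

theorem si (hκ : Inac κ) (hl : κ ≤ lam) {δ : Od} (hδ : δ < κ) : SI δ κ :=
  SI_iff.2 ⟨hκ, fun _ hβ _ _ hy =>
    let ⟨_, k₁, k₂, k₃⟩ := ((h.mu_si hκ hl (hβ.trans hδ)).and ((h.lt_mu hl hy).and h.mu_lt)).exists
    ⟨_, k₂, k₃, k₁⟩⟩

end SCO

theorem Inac.omega1_lt {μ : Od} (h : Inac μ) : ω₁ < μ := by
  refine h.lt_of_card ?_
  rw [card_omega, ← succ_aleph0]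
  exact h.inacc.isStrongLimit.isSuccLimit.succ_lt h.inacc.aleph0_lt

end Pool.Agent.MP_85ce7b_lc
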