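import Pool.Agent.MP_85ce7b_lc.L.W2a

namespace Pool.Agent.MP_85ce7b_lc

open Set Cardinal Ordinal Filter

/-- `e` enumerates `X` in order type `top`, and commutes with the cardinal structure. -/
structure Nice (C : Ctx) (X : Set Od) (μ top : Od) (e : Od → Od) : Prop where
  mono : ∀ a b, a < b → b < top → e a < e b
  rng : ∀ x, x ∈ X ↔ ∃ a < top, e a = x
  id : ∀ a < μ, e a = a
  kap : e μ = C.kap
  mu_lt : μ < top
  top_lt : top < C.kap
  sp : μ ∈ C.Sp
  succ : ∀ a < top, a + 1 < top ∧ e (a + 1) = e a + 1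
  beth : ∀ a, μ ≤ a → a < top → (C.B a).ord < top ∧ e (C.B a).ord = (C.B (e a)).ord
  sbeth : ∀ a, μ ≤ a → a < top →
    e (Order.succ (C.B a)).ord = (Order.succ (C.B (e a))).ord
  idx : ∀ x ∈ X, ∀ z, C.kap ≤ z → (x = (C.B z).ord ∨ x = (Order.succ (C.B z)).ord) → z ∈ X
  noin : ∀ z, μ < z → z ≤ top + 1 → ¬ Inac z

theorem SCO.w2_imp {κ lam : Od} {U : Ultrafilter (Set Od)} (h : SCO κ lam U) {P : Od → Prop}
    {Φ : Od → Set Od → Prop} (H : ∀ a < lam, P a → ∀ᶠ X in U, Φ a X) :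
    ∀ᶠ X in U, ∀ a ∈ X, P a → Φ a X :=
  h.diag fun a ha => ev_imp fun k => H a ha k.exists.choose_spec

theorem Ctx.w2_beth (C : Ctx) {lam : Od} {U : Ultrafilter (Set Od)} (h : SCO C.kap lam U)
    (h₁ : C.kap < lam) (h₃ : ∀ x < lam, (C.B (x + 1)).ord < lam) (x : Od) (hx : C.kap ≤ x)
    (hl : x < lam) : ∀ᶠ X in U, (C.B (col lam X x)).ord = col lam X (C.B x).ord := by
  have l1 : ∀ y < lam, y + 1 < lam := fun y hy => lt_of_le_of_lt (C.bf.le_ord _) (h₃ y hy)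
  have l2 : ∀ y < lam, (C.B y).ord < lam := fun y hy =>
    lt_of_le_of_lt (ord_le_ord.2 (C.bf.mono (lt_add_one y).le)) (h₃ y hy)
  have hs : C.s < C.kap := (lt_add_one _).trans C.s_lt
  induction x using WellFoundedLT.induction with
  | _ x ih =>
    rcases hx.eq_or_lt with rfl | hx'
    · filter_upwards [h.col_kap h₁.le, h.mu_inac C.kin h₁.le] with X e₁ e₂
      rw [C.bf.inac_eq C.kin, e₁, C.bf.inac_eq e₂]
    rcases Order.mem_range_succ_or_isSuccPrelimit x with ⟨y, rfl⟩ | hp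
    · rw [Order.succ_eq_add_one] at *
      have hy : C.kap ≤ y := Order.le_of_lt_add_one hx'
      have hyl : y < lam := (lt_add_one y).trans hl
      have hys : y ≠ C.s := (hs.trans_le hy).ne'
      have hc : ((2 : Cardinal.{1}) ^ C.B y).ord ≤ lam := by
        rw [← C.bf.succ y hys]
        exact (h₃ y hyl).le
      filter_upwards [ih y (lt_add_one y) hy hyl, h.fine y hyl, h.col_two_pow hc,
        h.col_kap h₁.le, h.lt_mu h₁.le hs] with X e₁ e₂ e₃ e₄ e₅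
      have k : col lam X y ≠ C.s := (e₅.trans_le (e₄ ▸ col_mono hy)).ne'
      rw [col_succ e₂, C.bf.succ _ k, C.bf.succ y hys, e₃, ← e₁, card_ord]
    · have hlim : Order.IsSuccLimit x := ⟨(lt_of_le_of_lt zero_le hx').not_isMin, hp⟩
      have a1 := h.w2_imp (P := fun y => C.kap ≤ y ∧ y < x)
        (Φ := fun y X => (C.B (col lam X y)).ord = col lam X (C.B y).ord)
        fun y hy k => ih y k.2 k.1 hy
      have a2 := h.diag (Φ := fun y X => y + 1 ∈ X) fun y hy => h.fine _ (l1 y hy)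
      have a4 := h.w2_imp (P := fun z => z < (C.B x).ord)
        (Φ := fun z X => ∃ y ∈ X, C.kap ≤ y ∧ y < x ∧ z < (C.B y).ord) fun z _ k => by
          obtain ⟨y, k₁, k₂⟩ := C.bf.lt_limit hlim k
          have k₃ : Max.max y C.kap < x := max_lt k₁ hx'
          exact Filter.mem_of_superset (h.fine _ (k₃.trans hl)) fun X hX =>
            ⟨_, hX, le_max_right _ _, k₃,
              k₂.trans_le (ord_le_ord.2 (C.bf.mono (le_max_left _ _)))⟩
      filter_upwards [a1, a2, a4, h.fine _ h₁] with X e₁ e₂ e₄ e₃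
      have hcl : Order.IsSuccLimit (col lam X x) := by
        refine ⟨(lt_of_le_of_lt zero_le (col_lt e₃ hx')).not_isMin,
          Order.isSuccPrelimit_of_succ_lt fun a ha => ?_⟩
        have k₁ := en_mem hl.le ha
        have k₂ := col_lt (lam := lam) (e₂ _ k₁) (hlim.add_one_lt (lt_col.1 ha))
        rwa [col_succ k₁, col_en] at k₂
      refine le_antisymm ((C.bf.normal_ord.le_iff_forall_le hcl).2 fun a ha => ?_)
        (le_of_forall_lt fun a ha => ?_)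
      · have k₁ := en_mem hl.le ha
        have k₂ : Max.max (en lam X a) C.kap ∈ X := by
          rcases le_total (en lam X a) C.kap with k | k
          · rwa [max_eq_right k]
          · rwa [max_eq_left k]
        have k₃ : Max.max (en lam X a) C.kap < x := max_lt (lt_col.1 ha) hx'
        have k₄ : a ≤ col lam X (Max.max (en lam X a) C.kap) :=
          (col_en a).symm.trans_le (col_mono (le_max_left _ _))
        calc (C.B a).ord ≤ (C.B (col lam X (Max.max (en lam X a) C.kap))).ord :=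
              ord_le_ord.2 (C.bf.mono k₄)
          _ = _ := e₁ _ k₂ ⟨le_max_right _ _, k₃⟩
          _ ≤ _ := col_mono (ord_le_ord.2 (C.bf.mono k₃.le))
      · obtain ⟨y, k₁, k₂, k₃, k₄⟩ := e₄ _ (en_mem (l2 x hl).le ha) (lt_col.1 ha)
        calc a < col lam X (C.B y).ord := lt_col.2 k₄
          _ = _ := (e₁ y k₁ ⟨k₂, k₃⟩).symm
          _ ≤ _ := ord_le_ord.2 (C.bf.mono (col_mono k₃.le))

theorem SCO.w2_cof {κ lam : Od} {U : Ultrafilter (Set Od)} (h : SCO κ lam U) {x ν : Od}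
    (hx : x ≤ lam) (hν : ν < x) {f : Od → Od} (hf : ∀ i < ν, f i < x)
    (hu : ∀ b < x, ∃ i < ν, b ≤ f i) : ∀ᶠ X in U, ¬ Inac (col lam X x) := by
  have a1 := h.w2_imp (P := fun i => i < ν) (Φ := fun i X => f i ∈ X)
    fun i _ k => h.fine _ ((hf i k).trans_le hx)
  have a2 := h.w2_imp (P := fun b => b < x) (Φ := fun b X => ∃ i ∈ X, i < ν ∧ b ≤ f i)
    fun b _ k => by
      obtain ⟨i, k₁, k₂⟩ := hu b k
      exact Filter.mem_of_superset (h.fine i ((k₁.trans hν).trans_le hx)) fun X hX =>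
        ⟨i, hX, k₁, k₂⟩
  filter_upwards [a1, a2, h.fine ν (hν.trans_le hx)] with X e₁ e₂ e₃ hi
  obtain ⟨b, k₁, k₂⟩ := hi.bound (col_lt (lam := lam) e₃ hν) (fun i => col lam X (f (en lam X i)))
    fun i k => col_lt (e₁ _ (en_mem (hν.le.trans hx) k) (lt_col.1 k)) (hf _ (lt_col.1 k))
  obtain ⟨i, k₃, k₄, k₅⟩ := e₂ _ (en_mem hx k₁) (lt_col.1 k₁)
  have k₆ := k₂ _ (col_lt k₃ k₄)
  rw [en_col k₃] at k₆
  exact k₆.not_ge ((col_en b).symm.trans_le (col_mono k₅))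

theorem Ctx.w2_noin (C : Ctx) {lam : Od} {U : Ultrafilter (Set Od)} (h : SCO C.kap lam U)
    (h₂ : lam < C.th.ord) (h₃ : ∀ x < lam, (C.B (x + 1)).ord < lam) {x : Od} (hx : C.kap < x)
    (hl : x < lam) : ∀ᶠ X in U, ¬ Inac (col lam X x) := by
  by_cases k : ∀ ν < x, ∀ f : Od → Od, (∀ i < ν, f i < x) → ∃ b < x, ∀ i < ν, f i < b
  · have k' : ¬ ∀ a < x, ((2 : Cardinal.{1}) ^ a.card).ord < x := fun k' =>
      C.noin x hx (hl.trans h₂) (inac_of (C.kin.omega_lt.trans hx) k k')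
    push Not at k'
    obtain ⟨a, k₁, k₂⟩ := k'
    have k₃ : ((2 : Cardinal.{1}) ^ a.card).ord ≤ lam := by
      refine le_trans (ord_le_ord.2 ?_) (h₃ a (k₁.trans hl)).le
      exact (Cardinal.power_le_power_left two_ne_zero (C.bf.card_le a)).trans (C.bf.two_pow_le a)
    have k₄ : a.card.ord < x := (ord_card_le a).trans_lt k₁
    filter_upwards [h.col_two_pow k₃, h.fine _ (k₄.trans hl)] with X e₁ e₂ hi
    have k₅ := hi.two_pow_lt (hi.card_lt (col_lt (lam := lam) e₂ k₄))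
    have k₆ : col lam X ((2 : Cardinal.{1}) ^ a.card).ord < col lam X x := by
      rw [e₁]
      refine hi.lt_of_card ?_
      rwa [card_ord]
    exact k₆.not_ge (col_mono k₂)
  · push Not at k
    obtain ⟨ν, k₁, f, k₂, k₃⟩ := k
    exact h.w2_cof hl.le k₁ k₂ k₃

theorem Ctx.pre_nice (C : Ctx) {lam : Od} {U : Ultrafilter (Set Od)} (h : SCO C.kap lam U)
    (h₁ : C.kap < lam) (h₂ : lam < C.th.ord) (h₃ : ∀ x < lam, (C.B (x + 1)).ord < lam)
    (h₄ : ∃ y : ℕ → Od, (∀ n, y n < lam) ∧ ∀ a < lam, ∃ n, a < y n) :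
    ∀ᶠ X in U, ∃ top e, (∀ x ∈ X, x < (C.B (C.kap + 1)).ord →
      ∃ i < (C.B (mu X + 1)).ord, e i = x) ∧ (mu X ∈ C.Sp → Nice C X (mu X) top e) := by
  have l1 : ∀ y < lam, y + 1 < lam := fun y hy => lt_of_le_of_lt (C.bf.le_ord _) (h₃ y hy)
  have l2 : ∀ y < lam, (C.B y).ord < lam := fun y hy =>
    lt_of_le_of_lt (ord_le_ord.2 (C.bf.mono (lt_add_one y).le)) (h₃ y hy)
  have l3 : ∀ y < lam, (Order.succ (C.B y)).ord < lam := fun y hy =>
    lt_of_le_of_lt (ord_le_ord.2 (C.bf.succ_le (lt_add_one y))) (h₃ y hy)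
  have a5 := h.diag (Φ := fun y X => y + 1 ∈ X) fun y hy => h.fine _ (l1 y hy)
  have a6 := h.w2_imp (P := fun x => C.kap ≤ x)
    (Φ := fun x X => (C.B (col lam X x)).ord = col lam X (C.B x).ord ∧ (C.B x).ord ∈ X)
    fun x hx k => (C.w2_beth h h₁ h₃ x k hx).and (h.fine _ (l2 x hx))
  have a7 := h.w2_imp (P := fun x => C.kap ≤ x)
    (Φ := fun x X => (Order.succ (C.B (col lam X x))).ord = col lam X (Order.succ (C.B x)).ord ∧
      (Order.succ (C.B x)).ord ∈ X) fun x hx k => by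
      filter_upwards [C.w2_beth h h₁ h₃ x k hx, h.col_succ_card (l3 x hx).le, h.fine _ (l3 x hx)]
        with X e₁ e₂ e₃
      exact ⟨by rw [e₂, ← e₁, card_ord], e₃⟩
  have a8 := h.diag (Φ := fun x X => ∀ z, C.kap ≤ z →
      (x = (C.B z).ord ∨ x = (Order.succ (C.B z)).ord) → z ∈ X) fun x hx => by
    filter_upwards [h.ex_mem (Φ := fun c => x = (C.B c).ord)
        fun c hc => lt_of_le_of_lt ((C.bf.le_ord c).trans hc.ge) hx,
      h.ex_mem (Φ := fun c => x = (Order.succ (C.B c)).ord) fun c hc =>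
        lt_of_le_of_lt ((C.bf.le_ord c).trans ((ord_le_ord.2 (Order.le_succ _)).trans hc.ge)) hx]
      with X e₁ e₂ z _ hz
    rcases hz with hz | hz
    · obtain ⟨c, k₁, k₂⟩ := e₁ ⟨z, hz⟩
      rwa [C.bf.normal.strictMono.injective (ord_injective (hz.symm.trans k₂))]
    · obtain ⟨c, k₁, k₂⟩ := e₂ ⟨z, hz⟩
      rwa [C.bf.normal.strictMono.injective
        (Order.succ_injective (ord_injective (hz.symm.trans k₂)))]
  have a9 := h.w2_imp (P := fun x => C.kap < x) (Φ := fun x X => ¬ Inac (col lam X x))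
    fun x hx k => C.w2_noin h h₂ h₃ k hx
  have a10 : ∀ᶠ X in (U : Filter (Set Od)), ¬ Inac (col lam X lam) := by
    obtain ⟨y, k₁, k₂⟩ := h₄
    refine h.w2_cof le_rfl (C.kin.omega_lt.trans h₁)
      (f := Function.extend (Nat.cast : ℕ → Od) y 0) (fun i hi => ?_) fun b hb => ?_
    · obtain ⟨n, rfl⟩ := lt_omega0.1 hi
      rw [Nat.cast_injective.extend_apply]
      exact k₁ n
    · obtain ⟨n, hn⟩ := k₂ b hb
      refine ⟨n, natCast_lt_omega0 n, ?_⟩
      rw [Nat.cast_injective.extend_apply]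
      exact hn.le
  filter_upwards [h.sub, h.col_kap h₁.le, h.col_lt_kap C.kin.ord_card, h.fine _ h₁, a5, a6, a7,
    a8, a9, a10] with X e₁ e₂ e₃ e₄ e₅ e₆ e₇ e₈ e₉ e₁₀
  have hk : en lam X (mu X) = C.kap := by rw [← e₂, en_col e₄]
  have hle : ∀ a, mu X ≤ a → C.kap ≤ en lam X a := fun a ha => hk ▸ en_mono.monotone ha
  refine ⟨col lam X lam, en lam X, fun x hx hlt => ⟨col lam X x, ?_, en_col hx⟩, fun hsp =>
    ⟨fun a b hab _ => en_mono hab, fun x => ⟨fun hx => ⟨_, col_lt hx (e₁ hx), en_col hx⟩, ?_⟩,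
      fun a ha => en_of_lt_mu ha, hk, e₂ ▸ col_lt e₄ h₁, e₃, hsp, fun a ha => ?_,
      fun a h1 ha => ?_, fun a h1 ha => ?_, e₈, fun z h1 h2 => ?_⟩⟩
  · rw [← e₂, ← col_succ e₄, (e₆ _ (e₅ _ e₄) (lt_add_one _).le).1]
    exact col_lt hx hlt
  · rintro ⟨a, ha, rfl⟩
    exact en_mem le_rfl ha
  · have k₁ := en_mem le_rfl ha
    have k₂ : col lam X (en lam X a + 1) = a + 1 := by rw [col_succ k₁, col_en]
    exact ⟨k₂ ▸ col_lt (e₅ _ k₁) (e₁ (e₅ _ k₁)), k₂ ▸ en_col (e₅ _ k₁)⟩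
  · obtain ⟨k₁, k₂⟩ := e₆ _ (en_mem le_rfl ha) (hle a h1)
    rw [col_en] at k₁
    exact ⟨k₁ ▸ col_lt k₂ (e₁ k₂), k₁ ▸ en_col k₂⟩
  · obtain ⟨k₁, k₂⟩ := e₇ _ (en_mem le_rfl ha) (hle a h1)
    rw [col_en] at k₁
    exact k₁ ▸ en_col k₂
  · rcases h2.eq_or_lt with rfl | h3
    · exact fun hi => lt_irrefl _ (hi.isSuccLimit.add_one_lt (lt_add_one _))
    · rcases (Order.le_of_lt_add_one h3).eq_or_lt with rfl | h4
      · exact e₁₀
      · have k₁ := e₉ _ (en_mem le_rfl h4) (hk ▸ en_mono h1)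
        rwa [col_en] at k₁

end Pool.Agent.MP_85ce7b_lc
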