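import Pool.Agent.MP_85ce7b_lc.L.W1

namespace Pool.Agent.MP_85ce7b_lc

open Set Cardinal Ordinal Filter

/-- The increasing enumeration of `X`, continued by the ordinals from `lam` on. -/
noncomputable def en (lam : Od) (X : Set Od) : Od → Od := enumOrd (X ∪ Ici lam)

/-- The collapse of `X`. -/
noncomputable def col (lam : Od) (X : Set Od) (x : Od) : Od := sInf {a | x ≤ en lam X a}

section

variable {lam : Od} {X : Set Od}

theorem W2a_unb : ¬ BddAbove (X ∪ Ici lam) := fun k =>
  not_bddAbove_Ici lam (k.mono subset_union_right)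

theorem en_mono : StrictMono (en lam X) := by
  exact enumOrd_strictMono W2a_unb

theorem lt_col {a x : Od} : a < col lam X x ↔ en lam X a < x := by
  refine ⟨fun k => not_le.1 (notMem_of_lt_csInf' (s := {a | x ≤ en lam X a}) k), fun k => not_le.1 fun k' => ?_⟩
  have : x ≤ en lam X (col lam X x) := csInf_mem (s := {a | x ≤ en lam X a}) ⟨x, en_mono.le_apply⟩
  exact k.not_ge (this.trans (en_mono.monotone k'))

theorem en_col {x : Od} (hx : x ∈ X) : en lam X (col lam X x) = x := by
  obtain ⟨a, rfl⟩ : ∃ a, en lam X a = x := enumOrd_surjective W2a_unb (Or.inl hx)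
  exact congrArg _ (eq_of_forall_lt_iff fun b => lt_col.trans en_mono.lt_iff_lt)

theorem col_en (a : Od) : col lam X (en lam X a) = a := by
  exact eq_of_forall_lt_iff fun b => lt_col.trans en_mono.lt_iff_lt

theorem en_mem {a x : Od} (hx : x ≤ lam) (ha : a < col lam X x) : en lam X a ∈ X := by
  exact (enumOrd_mem W2a_unb a).resolve_right (not_le.2 ((lt_col.1 ha).trans_le hx))

theorem col_mono : Monotone (col lam X) := by
  exact fun x y k => le_of_forall_lt fun a ha => lt_col.2 ((lt_col.1 ha).trans_le k)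

theorem col_lt {x y : Od} (hx : x ∈ X) (h : x < y) : col lam X x < col lam X y := by
  exact lt_col.2 ((en_col hx).symm ▸ h)

theorem col_succ {x : Od} (hx : x ∈ X) : col lam X (x + 1) = col lam X x + 1 := by
  refine eq_of_forall_lt_iff fun a => ?_
  rw [lt_col, Order.lt_add_one_iff, Order.lt_add_one_iff, ← en_mono.le_iff_le (a := a), en_col hx]

theorem en_of_lt_mu {a : Od} (ha : a < mu X) : en lam X a = a := by
  induction a using WellFoundedLT.induction with
  | _ a ih =>
    refine le_antisymm (enumOrd_le_of_forall_lt (Or.inl (mem_of_lt_mu ha)) fun b hb => ?_)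
      en_mono.le_apply
    exact (ih b hb (hb.trans ha)).trans_lt hb

theorem card_col {x : Od} (hx : x ≤ lam) :
    lift.{2} (col lam X x).card = Cardinal.mk (X ∩ Iio x : Set Od) := by
  rw [← Cardinal.mk_Iio_ordinal, ← mk_image_eq (en_mono (lam := lam) (X := X)).injective]
  congr 2
  ext y
  constructor
  · rintro ⟨a, ha, rfl⟩
    exact ⟨en_mem hx ha, lt_col.1 ha⟩
  · rintro ⟨k₁, k₂⟩
    exact ⟨_, col_lt k₁ k₂, en_col k₁⟩

end

namespace SCO

variable {κ lam : Od} {U : Ultrafilter (Set Od)} (h : SCO κ lam U)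
include h

theorem col_kap (hl : κ ≤ lam) : ∀ᶠ X in U, col lam X κ = mu X := by
  filter_upwards [h.lt_mu_of_mem hl, h.mu_lt] with X e₁ e₂
  refine eq_of_forall_lt_iff fun a => ⟨fun k => ?_, fun k => ?_⟩
  · exact en_mono.le_apply.trans_lt (e₁ _ (en_mem hl k) (lt_col.1 k))
  · rw [lt_col, en_of_lt_mu k]
    exact k.trans e₂

theorem col_lt_kap (hκ : κ.card.ord = κ) : ∀ᶠ X in U, col lam X lam < κ := by
  filter_upwards [h.card] with X hX
  have := (card_col (lam := lam) (X := X) le_rfl).trans_lt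
    ((mk_le_mk_of_subset inter_subset_left).trans_lt hX)
  rw [← hκ, lt_ord]
  exact Cardinal.lift_lt.1 this

theorem card_le {x y : Od} (hx : x ≤ lam) (hy : y ≤ lam) :
    (∀ᶠ X in U, (col lam X x).card ≤ (col lam X y).card) ↔ x.card ≤ y.card := by
  constructor
  · intro H
    have k : ∀ X : Set Od, ∃ g : (X ∩ Iio x : Set Od) → Od,
        (col lam X x).card ≤ (col lam X y).card →
          (∀ a, g a ∈ X ∩ Iio y) ∧ Function.Injective g := by
      intro X
      by_cases e : (col lam X x).card ≤ (col lam X y).card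
      · have e' := Cardinal.lift_le.{2}.2 e
        rw [card_col hx, card_col hy] at e'
        obtain ⟨g⟩ := e'
        exact ⟨fun a => g a, fun _ => ⟨fun a => (g a).2, Subtype.val_injective.comp g.injective⟩⟩
      · exact ⟨fun _ => 0, fun e' => absurd e' e⟩
    choose g hg using k
    have H' := H.mono hg
    classical
    have k₂ : ∀ a : Iio x, ∃ b : Iio y, ∀ᶠ X in (U : Filter (Set Od)),
        ∃ ha : a.1 ∈ X, g X ⟨a, ha, a.2⟩ = b := by
      intro a
      have fa := h.fine a (a.2.trans_le hx)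
      obtain ⟨b, -, hb⟩ := h.const (f := fun X => if ha : a.1 ∈ X then g X ⟨a, ha, a.2⟩ else 0)
        (by
          filter_upwards [fa, H'] with X e₁ e₂
          rw [dif_pos e₁]
          exact (e₂.1 _).1)
      have hb' : ∀ᶠ X in (U : Filter (Set Od)), ∃ ha : a.1 ∈ X, g X ⟨a, ha, a.2⟩ = b := by
        filter_upwards [fa, hb] with X e₁ e₂
        rw [dif_pos e₁] at e₂
        exact ⟨e₁, e₂⟩
      obtain ⟨X, ⟨e₁, e₂⟩, e₃⟩ := (hb'.and H').exists
      exact ⟨⟨b, e₂ ▸ (e₃.1 _).2⟩, hb'⟩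
    choose G hG using k₂
    have : Cardinal.mk (Iio x) ≤ Cardinal.mk (Iio y) := by
      refine mk_le_of_injective (f := G) fun a b e => ?_
      obtain ⟨X, ⟨a₁, a₂⟩, ⟨b₁, b₂⟩, e₃⟩ := ((hG a).and ((hG b).and H')).exists
      exact Subtype.ext (congrArg (fun z => z.1) (e₃.2 (a₂.trans (e ▸ b₂.symm))))
    rwa [Cardinal.mk_Iio_ordinal, Cardinal.mk_Iio_ordinal, Cardinal.lift_le] at this
  · intro H
    have H' := Cardinal.lift_le.{2}.2 H
    rw [← Cardinal.mk_Iio_ordinal, ← Cardinal.mk_Iio_ordinal] at H'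
    obtain ⟨e⟩ := H'
    have k := h.diag (Φ := fun a X => ∀ ha : a < x, (e ⟨a, ha⟩).1 ∈ X) fun a _ => by
      by_cases ha : a < x
      · exact Filter.mem_of_superset (h.fine (e ⟨a, ha⟩).1 (lt_of_lt_of_le (e ⟨a, ha⟩).2 hy))
          fun X hX _ => hX
      · exact Eventually.of_forall fun X ha' => absurd ha' ha
    filter_upwards [k] with X hX
    rw [← Cardinal.lift_le.{2}, card_col hx, card_col hy]
    refine mk_le_of_injective (f := fun a => ⟨e ⟨a.1, a.2.2⟩, hX _ a.2.1 a.2.2, (e _).2⟩)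
      fun a b k => ?_
    exact Subtype.ext (congrArg (fun z => z.1)
      (e.injective (Subtype.ext (congrArg (fun z => z.1) k))))

theorem col_ord {c : Cardinal.{1}} (hc : c.ord ≤ lam) :
    ∀ᶠ X in U, (col lam X c.ord).card.ord = col lam X c.ord := by
  have k := h.diag (Φ := fun a X => a < c.ord → (col lam X a).card < (col lam X c.ord).card)
    fun a ha => ev_imp fun e => by
      have e' : a < c.ord := e.exists.choose_spec
      refine (Ultrafilter.eventually_not.2 fun k => ?_).mono fun X hX => not_le.1 hX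
      have := (h.card_le hc ha.le).1 k
      rw [card_ord] at this
      exact (lt_ord.1 e').not_ge this
  filter_upwards [k] with X hX
  refine le_antisymm (ord_card_le _) (le_of_forall_lt fun b hb => lt_ord.2 ?_)
  have := hX _ (en_mem hc hb) (lt_col.1 hb)
  rwa [col_en] at this

theorem col_succ_card {c : Cardinal.{1}} (hc : (Order.succ c).ord ≤ lam) :
    ∀ᶠ X in U, col lam X (Order.succ c).ord = (Order.succ (col lam X c.ord).card).ord := by
  have hc' : c.ord ≤ lam := (ord_le_ord.2 (Order.le_succ c)).trans hc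
  have k₁ := h.diag
    (Φ := fun a X => a < (Order.succ c).ord → (col lam X a).card ≤ (col lam X c.ord).card)
    fun a ha => ev_imp fun e => (h.card_le ha.le hc').2 (by
      rw [card_ord]
      exact Order.lt_succ_iff.1 (lt_ord.1 e.exists.choose_spec))
  have k₂ : ∀ᶠ X in (U : Filter (Set Od)),
      ¬ (col lam X (Order.succ c).ord).card ≤ (col lam X c.ord).card :=
    Ultrafilter.eventually_not.2 fun k => by
      have := (h.card_le hc hc').1 k
      rw [card_ord, card_ord] at this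
      exact (Order.lt_succ c).not_ge this
  filter_upwards [k₁, k₂] with X e₁ e₂
  refine le_antisymm (le_of_forall_lt fun b hb => lt_ord.2 (Order.lt_succ_iff.2 ?_))
    (ord_le.2 (Order.succ_le_of_lt (not_le.1 e₂)))
  have := e₁ _ (en_mem hc hb) (lt_col.1 hb)
  rwa [col_en] at this

theorem col_two_pow {c : Cardinal.{1}} (hc : ((2 : Cardinal.{1}) ^ c).ord ≤ lam) :
    ∀ᶠ X in U, col lam X ((2 : Cardinal.{1}) ^ c).ord =
      ((2 : Cardinal.{1}) ^ (col lam X c.ord).card).ord := by
  classical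
  have hc' : c.ord ≤ lam := (ord_le_ord.2 (cantor c).le).trans hc
  have e₀ : Cardinal.mk (Iio ((2 : Cardinal.{1}) ^ c).ord) = Cardinal.mk (𝒫 (Iio c.ord)) := by
    rw [mk_powerset, Cardinal.mk_Iio_ordinal, Cardinal.mk_Iio_ordinal, card_ord, card_ord,
      lift_two_power]
  obtain ⟨e⟩ := Cardinal.eq.1 e₀
  let cd : Od → Set Od := fun a => if ha : a < ((2 : Cardinal.{1}) ^ c).ord then e ⟨a, ha⟩ else ∅
  have c₀ : ∀ a ha, cd a = e ⟨a, ha⟩ := fun a ha => dif_pos ha
  have c₁ : ∀ a < ((2 : Cardinal.{1}) ^ c).ord, cd a ⊆ Iio c.ord := fun a ha => by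
    rw [c₀ a ha]
    exact (e _).2
  have k₁ := h.diag2 (Φ := fun a b X => a < ((2 : Cardinal.{1}) ^ c).ord →
      b < ((2 : Cardinal.{1}) ^ c).ord → X ∩ cd a = X ∩ cd b → a = b) fun a _ b _ =>
    ev_imp fun ha => ev_imp fun hb => by
      have ha' : a < _ := ha.exists.choose_spec
      have hb' : b < _ := hb.exists.choose_spec
      have k := h.ex_mem (Φ := fun i => ¬ (i ∈ cd a ↔ i ∈ cd b)) fun i hi => by
        by_cases m : i ∈ cd a
        · exact lt_of_lt_of_le (c₁ a ha' m) hc'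
        · exact lt_of_lt_of_le (c₁ b hb' (by tauto)) hc'
      filter_upwards [k] with X hX q
      by_contra hne
      obtain ⟨i, i₁, i₂⟩ := hX (by
        by_contra hno
        refine hne (congrArg Subtype.val (e.injective (a₁ := ⟨a, ha'⟩) (a₂ := ⟨b, hb'⟩)
          (Subtype.ext ?_)))
        rw [← c₀, ← c₀]
        exact Set.ext fun i => by_contra fun hi => hno ⟨i, hi⟩)
      exact i₂ (by simpa [i₁] using Set.ext_iff.1 q i)
  have k₂ : ∀ᶠ X in (U : Filter (Set Od)), ∀ S : Set Od, S ⊆ X ∩ Iio c.ord →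
      ∃ a ∈ X ∩ Iio ((2 : Cardinal.{1}) ^ c).ord, X ∩ cd a = S := by
    refine ev_all fun S => ?_
    obtain ⟨⟨a, ha⟩, ea⟩ := e.surjective
      ⟨{i | i < c.ord ∧ ∀ᶠ Y in (U : Filter (Set Od)), i ∈ S Y}, fun i hi => hi.1⟩
    filter_upwards [h.fine a (lt_of_lt_of_le ha hc),
      h.diag fun i _ => ev_iff (U := U) fun Y => i ∈ S Y] with X e₁ e₂ hS
    refine ⟨a, ⟨e₁, ha⟩, ?_⟩
    rw [c₀ a ha, ea]
    exact Set.ext fun i => ⟨fun hi => (e₂ i hi.1).2 hi.2.2,
      fun hi => ⟨(hS hi).1, (hS hi).2, (e₂ i (hS hi).1).1 hi⟩⟩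
  filter_upwards [k₁, k₂, h.col_ord hc] with X e₁ e₂ e₃
  have b : BijOn (fun a => X ∩ cd a) (X ∩ Iio ((2 : Cardinal.{1}) ^ c).ord)
      (𝒫 (X ∩ Iio c.ord)) :=
    ⟨fun a ha => inter_subset_inter_right _ (c₁ a ha.2),
      fun a ha b hb => e₁ a ha.1 b hb.1 ha.2 hb.2, fun S hS => e₂ S hS⟩
  have q := Cardinal.mk_congr (b.equiv _)
  rw [mk_powerset, ← card_col hc, ← card_col hc', ← lift_two_power, Cardinal.lift_inj] at q
  rw [← e₃, q]

end SCO

end Pool.Agent.MP_85ce7b_lc
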