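import Pool.Agent.MP_85ce7b_lc.L.W2
import Pool.Agent.MP_85ce7b_lc.L.RC

namespace Pool.Agent.MP_85ce7b_lc

open Set Cardinal Ordinal Filter Dat

namespace Ctx

variable (C : Ctx) {lam : Od} {U : Ultrafilter (Set Od)}

/-- Dense open sets of blocks below `μ` with respect to direct extensions satisfying `R`. -/
def DO (R : Raw → Raw → Prop) (μ : Od) (Z : Raw → Prop) : Prop :=
  (∀ b, C.Blk μ b → ∃ b', C.DT (fp b + 1) μ b' b ∧ R b' b ∧ Z b') ∧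
    ∀ b b', C.Blk μ b → C.DT (fp b + 1) μ b' b → R b' b → Z b → Z b'

theorem good_of {μ : Od} {V : Ultrafilter Od} (h₁ : Inac μ) (h₂ : C.s + 1 < μ)
    (comp : ∀ ζ < μ, ∀ Z : Od → Set Od, (∀ i < ζ, Z i ∈ V) → {ξ | ∀ i < ζ, ξ ∈ Z i} ∈ V)
    (w0 : ∀ ζ < μ, {ξ | ξ < μ ∧ C.Blk μ (C.dec ξ) ∧ ζ < fp (C.dec ξ)} ∈ V)
    (nor : ∀ g : Od → Od, {ξ | g ξ < fp (C.dec ξ)} ∈ V → ∃ a, {ξ | g ξ = a} ∈ V)
    (w2 : ∀ Z, C.DO (fun _ _ => True) μ Z → {ξ | Z (C.dec ξ)} ∈ V)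
    (w3 : ∀ Z, C.DO (fun b' b => b'.c = b.c) μ Z → {ξ | Z (C.dec ξ)} ∈ V) : C.GoodW μ V :=
  ⟨h₁, h₂, comp, w0, nor, fun Z k₁ k₂ => w2 Z ⟨fun b hb => (k₁ b hb).imp fun _ k => ⟨k.1, trivial, k.2⟩,
    fun b b' e₁ e₂ _ => k₂ b b' e₁ e₂⟩, fun Z k₁ k₂ => w3 Z ⟨k₁, k₂⟩⟩

theorem exists_cd : ∃ cd : Od → Set Od, ∀ S ⊆ Iio C.kap, ∃ c < (C.B (C.kap + 1)).ord, cd c = S :=
  exists_enum_of_le (S := 𝒫 (Iio C.kap)) (by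
    rw [mk_powerset, Cardinal.mk_Iio_ordinal, ← lift_two_power, Cardinal.lift_le]
    exact (power_le_power_left two_ne_zero (C.bf.card_le _)).trans (C.bf.two_pow_le _))

/-- A block meeting many dense open sets. -/
theorem exists_blk {μ : Od} (h₁ : Inac μ) (h₂ : C.s + 1 < μ) (h₃ : μ < C.kap)
    (Z : Od → Raw → Prop) : ∃ b, C.Blk C.kap b ∧ fp b = μ ∧ ∀ i < (C.B (μ + 1)).ord,
      (C.DO (fun _ _ => True) C.kap (Z i) → Z i b) ∧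
        (C.DO (fun b' b => b'.c = b.c) C.kap (Z i) → Z i b) := by
  obtain ⟨k₁, k₂⟩ := blk_itv (C := C) h₁ h₂ C.kin h₃
  generalize itv μ (μ + 1) = b₀ at k₁ k₂
  subst k₂
  have k₃ : ∀ {b}, C.Blk C.kap b → fp b + 1 ≤ C.kap := fun hb => (blk_scope hb C.kin).2.1.le
  obtain ⟨b₁, e₁, e₂⟩ := inter (blk_scope k₁ C.kin).1 k₁.nxt (k₃ k₁) (card_ord _).le
    (fun i b => C.DO (fun _ _ => True) C.kap (Z i) → Z i b) (fun i _ u hu => by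
      obtain ⟨n₁, n₂⟩ := blk_dt k₁ C.kin hu
      by_cases k : C.DO (fun _ _ => True) C.kap (Z i)
      · obtain ⟨u', m₁, -, m₂⟩ := k.1 u n₁
        exact ⟨u', n₂ ▸ m₁, fun _ => m₂⟩
      · exact ⟨u, dt_refl (blk_scope n₁ C.kin).1, fun e => absurd e k⟩)
    fun i _ u u' hu hu' k k' => by
      obtain ⟨n₁, n₂⟩ := blk_dt k₁ C.kin hu
      exact k'.2 u u' n₁ (n₂ ▸ hu') trivial (k k')
  obtain ⟨k₄, k₅⟩ := blk_dt k₁ C.kin e₁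
  rw [← k₅] at e₂ ⊢
  obtain ⟨b₂, e₃, -, e₄⟩ := inter_shape (blk_scope k₄ C.kin).1 k₄.nxt (k₃ k₄) (card_ord _).le
    (fun i b => C.DO (fun b' b => b'.c = b.c) C.kap (Z i) → Z i b) (fun i _ u hu hc => by
      obtain ⟨n₁, n₂⟩ := blk_dt k₄ C.kin hu
      by_cases k : C.DO (fun b' b => b'.c = b.c) C.kap (Z i)
      · obtain ⟨u', m₁, m₃, m₂⟩ := k.1 u n₁
        exact ⟨u', n₂ ▸ m₁, m₃.trans hc, fun _ => m₂⟩
      · exact ⟨u, dt_refl (blk_scope n₁ C.kin).1, hc, fun e => absurd e k⟩)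
    fun i _ u u' hu hc hu' hc' k k' => by
      obtain ⟨n₁, n₂⟩ := blk_dt k₄ C.kin hu
      exact k'.2 u u' n₁ (n₂ ▸ hu') (hc'.trans hc.symm) (k k')
  obtain ⟨k₆, k₇⟩ := blk_dt k₄ C.kin e₃
  exact ⟨b₂, k₆, k₇, fun i hi => ⟨fun k => k.2 _ _ k₄ e₃ trivial (e₂ i hi k), e₄ i hi⟩⟩

theorem kap_sp (h : SCO C.kap lam U) (h₁ : (C.B (C.kap + 1)).ord < lam)
    (H : ∀ᶠ X in U, ∃ e : Od → Od, ∀ x ∈ X, x < (C.B (C.kap + 1)).ord →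
      ∃ i < (C.B (mu X + 1)).ord, e i = x) : C.kap ∈ C.Sp := by
  have hl : C.kap ≤ lam := ((lt_add_one _).le.trans (C.bf.le_ord _)).trans h₁.le
  obtain ⟨cd, hcd⟩ := C.exists_cd
  let Z : Od → Raw → Prop := fun c b => ∃ ξ ∈ cd c, C.dec ξ = b
  have k : ∀ᶠ X in (U : Filter (Set Od)), ∃ ξ < C.kap, C.Blk C.kap (C.dec ξ) ∧
      fp (C.dec ξ) = mu X ∧ ∀ c ∈ X, c < (C.B (C.kap + 1)).ord →
        (C.DO (fun _ _ => True) C.kap (Z c) → Z c (C.dec ξ)) ∧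
          (C.DO (fun b' b => b'.c = b.c) C.kap (Z c) → Z c (C.dec ξ)) := by
    filter_upwards [H, h.mu_inac C.kin hl, h.lt_mu hl C.s_lt, h.mu_lt] with X ⟨e, he⟩ e₁ e₂ e₃
    obtain ⟨b, k₁, k₂, k₃⟩ := C.exists_blk e₁ e₂ e₃ fun i => Z (e i)
    obtain ⟨ξ, k₄, rfl⟩ := C.hdec _ b C.kin k₁.bdd
    refine ⟨ξ, k₄, k₁, k₂, fun c hc hc' => ?_⟩
    obtain ⟨i, hi, rfl⟩ := he c hc hc'
    exact k₃ i hi
  obtain ⟨f, hf⟩ := k.choice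
  have k' : ∀ R Y, C.DO R C.kap Y → ∃ c < (C.B (C.kap + 1)).ord, C.DO R C.kap (Z c) ∧
      ∀ b, Z c b → Y b := fun R Y hY => by
    obtain ⟨c, c₁, c₂⟩ := hcd {ξ | ξ < C.kap ∧ Y (C.dec ξ)} fun _ e => e.1
    have c₃ : ∀ b, Z c b → Y b := fun b ⟨ξ, e₁, e₂⟩ => e₂ ▸ (c₂ ▸ e₁ : ξ ∈ {ξ | _ ∧ Y (C.dec ξ)}).2
    have c₄ : ∀ b b', C.Blk C.kap b → C.DT (fp b + 1) C.kap b' b → Y b' → Z c b' := by
      intro b b' e₁ e₂ e₃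
      obtain ⟨ξ, e₄, rfl⟩ := C.hdec _ b' C.kin (blk_dt e₁ C.kin e₂).1.bdd
      exact ⟨ξ, c₂ ▸ ⟨e₄, e₃⟩, rfl⟩
    exact ⟨c, c₁, ⟨fun b hb => (hY.1 b hb).imp fun b' e => ⟨e.1, e.2.1, c₄ _ _ hb e.1 e.2.2⟩,
      fun b b' e₁ e₂ e₃ e₄ => c₄ _ _ e₁ e₂ (hY.2 _ _ e₁ e₂ e₃ (c₃ _ e₄))⟩, c₃⟩
  refine C.spmax _ (U.map f) (C.good_of C.kin C.s_lt (fun ζ hζ Y hY => h.all hζ hY)
    (fun ζ hζ => Ultrafilter.mem_map.2 ?_) (fun g hg => ?_) (fun Y hY => Ultrafilter.mem_map.2 ?_)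
    fun Y hY => Ultrafilter.mem_map.2 ?_)
  · filter_upwards [hf, h.lt_mu hl hζ] with X e₁ e₂
    exact ⟨e₁.1, e₁.2.1, e₁.2.2.1 ▸ e₂⟩
  · obtain ⟨a, -, ha⟩ := h.const_mu (f := fun X => g (f X)) (by
      filter_upwards [hf, Ultrafilter.mem_map.1 hg] with X e₁ e₂
      exact e₁.2.2.1 ▸ e₂)
    exact ⟨a, ha⟩
  · obtain ⟨c, c₁, c₂, c₃⟩ := k' _ Y hY
    filter_upwards [hf, h.fine c (c₁.trans h₁)] with X e₁ e₂
    exact c₃ _ ((e₁.2.2.2 c e₂ c₁).1 c₂)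
  · obtain ⟨c, c₁, c₂, c₃⟩ := k' _ Y hY
    filter_upwards [hf, h.fine c (c₁.trans h₁)] with X e₁ e₂
    exact c₃ _ ((e₁.2.2.2 c e₂ c₁).2 c₂)

/-- Reflection of an ultrafilter on `kap`. -/
theorem exists_refl (h : SCO C.kap lam U) (h₁ : (C.B (C.kap + 1)).ord < lam)
    {W : Ultrafilter Od} (hW : Iio C.kap ∈ W) : ∃ V : Set Od → Ultrafilter Od,
      ∀ S : Set Od → Set Od, (∀ᶠ X in U, S X ∈ V X) ↔ {ξ | ∀ᶠ X in U, ξ ∈ S X} ∈ W := by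
  have hl : C.kap ≤ lam := ((lt_add_one _).le.trans (C.bf.le_ord _)).trans h₁.le
  obtain ⟨cd, hcd⟩ := C.exists_cd
  let Big : Set Od → Set Od → Prop := fun X S =>
    ∃ c ∈ X, cd c ∈ W ∧ ∀ ξ < mu X, ξ ∈ cd c → ξ ∈ S
  have K : ∀ S : Set Od → Set Od,
      (∀ᶠ X in (U : Filter (Set Od)), Big X (S X)) ↔ {ξ | ∀ᶠ X in U, ξ ∈ S X} ∈ W := by
    refine fun S => ⟨fun k => ?_, fun k => ?_⟩
    · obtain ⟨f, hf⟩ := k.choice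
      obtain ⟨c, -, hc⟩ := h.const (hf.mono fun _ e => e.1)
      obtain ⟨X, e₁, e₂⟩ := (hf.and hc).exists
      filter_upwards [hW, (e₂ ▸ e₁.2.1 : cd c ∈ W)] with ξ e₃ e₄
      filter_upwards [hf, hc, h.lt_mu hl e₃] with Y n₁ n₂ n₃
      exact n₁.2.2 ξ n₃ (n₂ ▸ e₄)
    · obtain ⟨c, c₁, c₂⟩ := hcd _ (inter_subset_left (t := {ξ | ∀ᶠ X in U, ξ ∈ S X}))
      filter_upwards [h.fine c (c₁.trans h₁), h.diag_mu fun ξ _ => SCO.ev_iff fun X => ξ ∈ S X]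
        with X e₁ e₂
      exact ⟨c, e₁, c₂ ▸ inter_mem hW k, fun ξ n₁ n₂ => (e₂ ξ n₁).2 (c₂.subset n₂).2⟩
  have k₁ : ∀ᶠ X in (U : Filter (Set Od)), ∀ S T, Big X S → Big X T → Big X (S ∩ T) :=
    ev_all fun S => ev_all fun T => ev_imp fun e₁ => ev_imp fun e₂ => (K _).2 (by
      filter_upwards [(K _).1 e₁, (K _).1 e₂] with ξ n₁ n₂
      exact n₁.and n₂)
  have k₂ : ∀ᶠ X in (U : Filter (Set Od)), ∀ S, ¬ Big X Sᶜ ↔ Big X S := ev_all fun S => by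
    have e : {ξ | ∀ᶠ X in U, ξ ∈ (S X)ᶜ} = {ξ | ∀ᶠ X in U, ξ ∈ S X}ᶜ :=
      Set.ext fun ξ => Ultrafilter.eventually_not
    by_cases k : {ξ | ∀ᶠ X in U, ξ ∈ S X} ∈ W
    · filter_upwards [(K _).2 k, Ultrafilter.eventually_not.2 fun n =>
        Ultrafilter.compl_notMem_iff.2 k (e ▸ (K fun X => (S X)ᶜ).1 n)] with X e₁ e₂
      exact iff_of_true e₂ e₁
    · filter_upwards [Ultrafilter.eventually_not.2 fun n => k ((K _).1 n),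
        (K fun X => (S X)ᶜ).2 (e ▸ Ultrafilter.compl_mem_iff_notMem.2 k)] with X e₁ e₂
      exact iff_of_false (not_not.2 e₂) e₁
  have k₃ : ∀ᶠ X in (U : Filter (Set Od)), ∃ V : Ultrafilter Od, ∀ S, S ∈ V ↔ Big X S := by
    filter_upwards [k₁, k₂, (K fun _ => univ).2 (univ_mem' fun _ => univ_mem' fun _ => trivial)] with X e₁ e₂ e₃
    exact ⟨Ultrafilter.ofComplNotMemIff ⟨{S | Big X S}, e₃, fun ⟨c, n₁, n₂, n₃⟩ n =>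
      ⟨c, n₁, n₂, fun ξ m₁ m₂ => n (n₃ ξ m₁ m₂)⟩, e₁ _ _⟩ e₂, fun _ => Iff.rfl⟩
  obtain ⟨V, hV⟩ := k₃.choice
  exact ⟨V, fun S => (eventually_congr (hV.mono fun X e => e _)).trans (K S)⟩

theorem sp_ae (h : SCO C.kap lam U) (h₁ : (C.B (C.kap + 1)).ord < lam)
    (H : ∀ᶠ X in U, ∃ e : Od → Od, ∀ x ∈ X, x < (C.B (C.kap + 1)).ord →
      ∃ i < (C.B (mu X + 1)).ord, e i = x) : ∀ᶠ X in U, mu X ∈ C.Sp := by
  have hl : C.kap ≤ lam := ((lt_add_one _).le.trans (C.bf.le_ord _)).trans h₁.le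
  have G := C.good _ (C.kap_sp h h₁ H)
  have G₀ := G.w0 0 C.kin.isSuccLimit.pos
  obtain ⟨V, K⟩ := C.exists_refl h h₁ (W := C.W C.kap) (mem_of_superset G₀ fun _ e => e.1)
  have hb : ∀ {b}, Bdd C.kap b → ∀ᶠ X in (U : Filter (Set Od)), Bdd (mu X) b :=
    fun ⟨a, e₁, e₂⟩ => (h.lt_mu hl e₁).mono fun _ e => ⟨a, e, e₂⟩
  have hb' : ∀ {b}, C.Blk C.kap b → ∀ᶠ X in (U : Filter (Set Od)), C.Blk (mu X) b :=
    fun e => (hb e.bdd).mono fun _ => blk_cut e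
  have hi := h.mu_inac C.kin hl
  have w : ∀ R, (∀ Z, C.DO R C.kap Z → {ξ | Z (C.dec ξ)} ∈ C.W C.kap) →
      ∀ᶠ X in (U : Filter (Set Od)), ∀ Z, C.DO R (mu X) Z → {ξ | Z (C.dec ξ)} ∈ V X :=
    fun R hR => ev_all fun Z => ev_imp fun k => (K _).2 (hR (fun b => ∀ᶠ X in U, Z X b)
      ⟨fun b e => by
        have n : ∀ᶠ X in (U : Filter (Set Od)), ∃ ξ < mu X,
            C.DT (fp b + 1) (mu X) (C.dec ξ) b ∧ R (C.dec ξ) b ∧ Z X (C.dec ξ) := by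
          filter_upwards [k, hb' e, hi] with X e₁ e₂ e₃
          obtain ⟨b', n₁⟩ := e₁.1 b e₂
          obtain ⟨ξ, n₂, rfl⟩ := C.hdec _ b' e₃ (blk_dt e₂ e₃ n₁.1).1.bdd
          exact ⟨ξ, n₂, n₁⟩
        obtain ⟨f, hf⟩ := n.choice
        obtain ⟨ξ, -, hξ⟩ := h.const_mu (hf.mono fun _ e => e.1)
        have n' := (hf.and hξ).mono fun X e => (e.2 ▸ e.1.2 : C.DT _ _ (C.dec ξ) _ ∧
          R (C.dec ξ) b ∧ Z X (C.dec ξ))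
        obtain ⟨X, ⟨⟨e₁, e₂⟩, e₃⟩, e₄⟩ := (((n'.and (hb' e)).and hi).and h.mu_lt).exists
        exact ⟨_, dt_cut_change e₁.1 e.v C.kin (bdd_mono (blk_dt e₂ e₃ e₁.1).1.bdd e₄.le),
          e₁.2.1, n'.mono fun _ e => e.2.2⟩,
      fun b b' e₁ e₂ e₃ e₄ => by
        filter_upwards [k, hb' e₁, hi, hb (blk_dt e₁ C.kin e₂).1.bdd, e₄] with X n₁ n₂ n₃ n₄
        exact n₁.2 b b' n₂ (dt_cut_change e₂ e₁.v n₃ n₄) e₃⟩)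
  have comp : ∀ᶠ X in (U : Filter (Set Od)), ∀ ζ < mu X, ∀ Z : Od → Set Od,
      (∀ i < ζ, Z i ∈ V X) → {ξ | ∀ i < ζ, ξ ∈ Z i} ∈ V X :=
    h.diag_mu fun ζ hζ => ev_all fun Z => ev_imp fun k => (K _).2 (mem_of_superset
      (G.comp ζ hζ _ fun i hi => (K fun X => Z X i).1 (k.mono fun _ e => e i hi))
      fun ξ e => h.all hζ e)
  have w0 : ∀ᶠ X in (U : Filter (Set Od)), ∀ ζ < mu X,
      {ξ | ξ < mu X ∧ C.Blk (mu X) (C.dec ξ) ∧ ζ < fp (C.dec ξ)} ∈ V X :=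
    h.diag_mu fun ζ hζ => (K _).2 (mem_of_superset (G.w0 ζ hζ) fun ξ e => by
      filter_upwards [h.lt_mu hl e.1, hb' e.2.1] with X e₁ e₂
      exact ⟨e₁, e₂, e.2.2⟩)
  have nor : ∀ᶠ X in (U : Filter (Set Od)), ∀ g : Od → Od,
      {ξ | g ξ < fp (C.dec ξ)} ∈ V X → ∃ a, {ξ | g ξ = a} ∈ V X := ev_all fun g => ev_imp fun k => by
    have n : ∀ᶠ ξ in (C.W C.kap : Filter Od), ∃ a < fp (C.dec ξ), ∀ᶠ X in U, g X ξ = a := by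
      filter_upwards [(K _).1 k, G₀] with ξ e₁ e₂
      obtain ⟨a, -, ha⟩ := h.const_mu (f := fun X => g X ξ) (by
        filter_upwards [e₁, h.lt_mu hl ((lt_add_one _).trans (blk_scope e₂.2.1 C.kin).2.1)]
          with X n₁ n₂
        exact lt_trans n₁ n₂)
      obtain ⟨X, n₁, n₂⟩ := (Eventually.and e₁ ha).exists
      exact ⟨a, n₂ ▸ n₁, ha⟩
    obtain ⟨f, hf⟩ := n.choice
    obtain ⟨a, ha⟩ := G.nor f (hf.mono fun _ e => e.1)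
    refine ((K fun X => {ξ | g X ξ = a}).2 ?_).mono fun _ e => ⟨a, e⟩
    filter_upwards [hf, ha] with ξ e₁ e₂
    exact e₂ ▸ e₁.2
  filter_upwards [hi, h.lt_mu hl C.s_lt, comp, w0, nor, w _ fun Z k => G.w2 Z
    (fun b e => (k.1 b e).imp fun _ n => ⟨n.1, n.2.2⟩) fun b b' e₁ e₂ => k.2 b b' e₁ e₂ trivial,
    w _ fun Z k => G.w3 Z k.1 k.2] with X e₁ e₂ e₃ e₄ e₅ e₆ e₇
  exact C.spmax _ _ (C.good_of e₁ e₂ e₃ e₄ e₅ e₆ e₇)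

end Ctx

end Pool.Agent.MP_85ce7b_lc
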