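import Pool.Agent.MP_85ce7b_lc.L.RB0

namespace Pool.Agent.MP_85ce7b_lc

open Set Cardinal Ordinal

/-- Raw conditions all of whose data are below `b`. -/
def RB (b : Od) : Set Raw :=
  {r | r.c ⊆ Iio b ∧ (∀ x i v, (i, v) ∈ r.h x → x < b ∧ i < b ∧ v < b) ∧
    ∀ x L, r.l x = some L → x < b ∧ L.A ⊆ Iio b ∧ L.F ⊆ Cube b ∧ L.s ⊆ Iio b}

/-- A raw condition as a set of tuples. -/
def encR (r : Raw) : Set (ULift.{2} ℕ × Od × Od × Od × Od) :=
  {z | z.2.1 = z.2.2.2.2 ∧ z.2.2.1 = z.2.2.2.2 ∧ z.2.2.2.1 = z.2.2.2.2 ∧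
      ((z.1.down = 0 ∧ z.2.1 ∈ r.c) ∨ (z.1.down = 1 ∧ ∃ L, r.l z.2.1 = some L)) ∨
    (z.1.down = 2 ∧ z.2.1 = z.2.2.2.2 ∧ (z.2.2.1, z.2.2.2.1) ∈ r.h z.2.1) ∨
    ∃ L, r.l z.2.1 = some L ∧ ((z.1.down = 3 ∧ z.2.2 ∈ L.F) ∨
      z.2.2.1 = z.2.2.2.2 ∧ z.2.2.2.1 = z.2.2.2.2 ∧
        ((z.1.down = 4 ∧ z.2.2.1 ∈ L.A) ∨ (z.1.down = 5 ∧ z.2.2.1 ∈ L.s)))}

theorem encR_inj : Function.Injective encR := by
  intro r r' h
  have k := Set.ext_iff.1 h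
  refine Raw.ext (Set.ext fun x => by simpa [encR] using k (⟨0⟩, x, x, x, x))
    (funext fun x => Set.ext fun z => by simpa [encR] using k (⟨2⟩, x, z.1, z.2, x))
    (funext fun x => ?_)
  have k₁ := k (⟨1⟩, x, x, x, x)
  rcases e : r.l x with _ | L <;> rcases e' : r'.l x with _ | L'
  · rfl
  · simp [encR, e, e'] at k₁
  · simp [encR, e, e'] at k₁
  · refine congrArg some (Lo.ext (Set.ext fun y => ?_) (Set.ext fun y => ?_) (Set.ext fun y => ?_))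
    · simpa [encR, e, e'] using k (⟨4⟩, x, y, y, y)
    · simpa [encR, e, e'] using k (⟨3⟩, x, y)
    · simpa [encR, e, e'] using k (⟨5⟩, x, y, y, y)

theorem mk_RB (b : Od) : Cardinal.mk (RB b) ≤ lift.{2} (2 ^ max ℵ₀ b.card) := by
  let K : Set (ULift.{2} ℕ × Od × Od × Od × Od) := Set.univ ×ˢ Iio b ×ˢ Iio b ×ˢ Iio b ×ˢ Iio b
  have h₁ : ∀ r ∈ RB b, encR r ∈ 𝒫 K := by
    rintro r ⟨k₁, k₂, k₃⟩ ⟨n, x, y, z, w⟩ hz
    simp only [encR, mem_ofPred_eq] at hz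
    simp only [K, mem_prod, mem_univ, mem_Iio, true_and]
    rcases hz with ⟨rfl, rfl, rfl, ⟨-, h⟩ | ⟨-, L, h⟩⟩ | ⟨-, rfl, h⟩ |
      ⟨L, h, ⟨-, h'⟩ | ⟨rfl, rfl, ⟨-, h'⟩ | ⟨-, h'⟩⟩⟩
    · exact ⟨k₁ h, k₁ h, k₁ h, k₁ h⟩
    · exact ⟨(k₃ _ _ h).1, (k₃ _ _ h).1, (k₃ _ _ h).1, (k₃ _ _ h).1⟩
    · exact ⟨(k₂ _ _ _ h).1, (k₂ _ _ _ h).2.1, (k₂ _ _ _ h).2.2, (k₂ _ _ _ h).1⟩
    · exact ⟨(k₃ _ _ h).1, (k₃ _ _ h).2.2.1 h'⟩
    · exact ⟨(k₃ _ _ h).1, (k₃ _ _ h).2.1 h', (k₃ _ _ h).2.1 h', (k₃ _ _ h).2.1 h'⟩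
    · exact ⟨(k₃ _ _ h).1, (k₃ _ _ h).2.2.2 h', (k₃ _ _ h).2.2.2 h', (k₃ _ _ h).2.2.2 h'⟩
  have h₂ : Cardinal.mk K ≤ lift.{2} (max ℵ₀ b.card) := by
    have h₀ : ℵ₀ ≤ lift.{2} (max ℵ₀ b.card) := aleph0_le_lift.2 (le_max_left _ _)
    have h₃ : Cardinal.mk (Iio b) ≤ lift.{2} (max ℵ₀ b.card) := by
      rw [Cardinal.mk_Iio_ordinal]; exact lift_le.2 (le_max_right _ _)
    simp only [K, mk_setProd]
    exact mul_le_of_le h₀ (mk_le_aleph0.trans h₀) (mul_le_of_le h₀ h₃ (mul_le_of_le h₀ h₃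
      (mul_le_of_le h₀ h₃ h₃)))
  refine (mk_le_of_injective (f := fun r : RB b => (⟨encR r, h₁ r r.2⟩ : 𝒫 K))
    fun r r' h => Subtype.ext (encR_inj (congrArg Subtype.val h))).trans ?_
  rw [mk_powerset, lift_two_power]
  exact power_le_power_left two_ne_zero h₂

theorem Inac.lt_of_card {η x : Od} (h : Inac η) (hx : x.card < η.card) : x < η := by
  rw [← h.ord_card]; exact lt_ord.2 hx

theorem Inac.card_lt {η x : Od} (h : Inac η) (hx : x < η) : x.card < η.card := by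
  rw [← lt_ord, h.ord_card]; exact hx

theorem Inac.inacc {η : Od} (h : Inac η) : η.card.IsInaccessible := by
  obtain ⟨k, hk, rfl⟩ := h
  rwa [card_ord]

theorem Inac.two_pow_lt {η : Od} (h : Inac η) {c : Cardinal.{1}} (hc : c < η.card) :
    2 ^ c < η.card := h.inacc.isStrongLimit.isStrongPrelimit hc

/-- An injective pairing function on the ordinals. -/
noncomputable def opair (z : Od × Od) : Od := ω ^ (z.1 + z.2 + 1) + z.1

theorem opair_inj : Function.Injective opair := by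
  rintro ⟨a, i⟩ ⟨b, j⟩ h
  have k : ∀ a i : Od, a < ω ^ (a + i + 1) := fun a i =>
    ((le_self_add.trans_lt (lt_add_one _))).trans_le (right_le_opow _ one_lt_omega0)
  have k' : ∀ a i b j : Od, a + i + 1 < b + j + 1 → opair (a, i) < opair (b, j) := by
    intro a i b j e
    have e' := (opow_lt_opow_iff_right one_lt_omega0).2 e
    exact (isPrincipal_add_omega0_opow _ e' ((k a i).trans e')).trans_le le_self_add
  have e : a + i + 1 = b + j + 1 := le_antisymm (not_lt.1 fun e => (k' _ _ _ _ e).ne' h)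
    (not_lt.1 fun e => (k' _ _ _ _ e).ne h)
  simp only [opair, e] at h
  obtain rfl := add_left_cancel h
  have e₂ : a + i = a + j := Order.succ_injective (by simpa using e)
  rw [add_left_cancel e₂]

theorem Inac.opair_lt {η a i : Od} (h : Inac η) (ha : a < η) (hi : i < η) : opair (a, i) < η := by
  have h₀ := h.inacc.aleph0_lt
  have h₁ := h.card_lt ha
  refine h.lt_of_card ?_
  simp only [opair, card_add]
  refine add_lt_of_lt h₀.le ((card_opow_le_of_omega0_le_left le_rfl _).trans_lt (max_lt ?_ ?_)) h₁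
  · simpa using h₀
  · simp only [card_add, card_one]
    exact add_lt_of_lt h₀.le (add_lt_of_lt h₀.le h₁ (h.card_lt hi)) (one_lt_aleph0.trans h₀)

instance : Nonempty Raw := ⟨itv 0 0⟩

theorem exists_dec : ∃ dec : Od → Raw, ∀ η r, Inac η → Bdd η r → ∃ ξ < η, dec ξ = r := by
  choose e he using fun b => exists_enum_of_le (mk_RB b)
  refine ⟨fun ξ => e (Function.invFun opair ξ).1 (Function.invFun opair ξ).2,
    fun η r h ⟨b, h₁, h₂⟩ => ?_⟩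
  obtain ⟨i, h₃, rfl⟩ := he b r h₂
  refine ⟨opair (b, i), h.opair_lt h₁ (h₃.trans (h.lt_of_card ?_)), ?_⟩
  · rw [card_ord]
    exact h.two_pow_lt (max_lt h.inacc.aleph0_lt (h.card_lt h₁))
  · simp only [Function.leftInverse_invFun opair_inj (b, i)]

end Pool.Agent.MP_85ce7b_lc
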